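import Pool.Agent.H68.FibC.Chk

/-!
# Contexts of the certificate: data used by the checker (problem MP_9069b3_mp, part C)

Generated data.
-/

namespace Pool.Agent.H68.FibC

noncomputable def cx0 : CtxD where
  sd := .nd (.nd (.nd (.lf ⟨⟨(nat_lit 0x2000000000), (nat_lit 0x2000000000), (nat_lit 0x2000000000), (nat_lit 0x2000000000)⟩,
    ⟨(nat_lit 0x21b72), (nat_lit 0x21b72), (nat_lit 0x21b72), (nat_lit 0x21b72)⟩,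
    ⟨(nat_lit 0), (nat_lit 0), (nat_lit 0), (nat_lit 0)⟩,
    ⟨(nat_lit 0x2000000000), (nat_lit 0x2000000000), (nat_lit 0x2000000000), (nat_lit 0x2000000000)⟩,
    ⟨(nat_lit 0x21b70), (nat_lit 0x21b70), (nat_lit 0x21b70), (nat_lit 0x21b70)⟩,
    ⟨(nat_lit 0x203c344000), (nat_lit 0x203c344000), (nat_lit 0x203c344000), (nat_lit 0x203c344000)⟩,
    (nat_lit 0x21b70), (nat_lit 0x21b72)⟩) (.lf ⟨⟨(nat_lit 0x203c34c000), (nat_lit 0x203c34c000), (nat_lit 0x203c34c000), (nat_lit 0x203c34c000)⟩,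
    ⟨(nat_lit 0xa5fff), (nat_lit 0xa5fff), (nat_lit 0xa5fff), (nat_lit 0xa5fff)⟩,
    ⟨(nat_lit 0x2000000000), (nat_lit 0x2000000000), (nat_lit 0x2000000000), (nat_lit 0x2000000000)⟩,
    ⟨(nat_lit 0x203c344000), (nat_lit 0x203c344000), (nat_lit 0x203c344000), (nat_lit 0x203c344000)⟩,
    ⟨(nat_lit 0xa602d), (nat_lit 0xa602d), (nat_lit 0xa602d), (nat_lit 0xa602d)⟩,
    ⟨(nat_lit 0), (nat_lit 0), (nat_lit 0), (nat_lit 0)⟩,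
    (nat_lit 0xa5fff), (nat_lit 0xa602d)⟩)) (.nd (.lf ⟨⟨(nat_lit 0x211e823000), (nat_lit 0x211e823000), (nat_lit 0x211e823000), (nat_lit 0x211e823000)⟩,
    ⟨(nat_lit 0x103535), (nat_lit 0x103535), (nat_lit 0x103535), (nat_lit 0x103535)⟩,
    ⟨(nat_lit 0), (nat_lit 0), (nat_lit 0), (nat_lit 0)⟩,
    ⟨(nat_lit 0x211e7ed000), (nat_lit 0x211e7ed000), (nat_lit 0x211e7ed000), (nat_lit 0x211e7ed000)⟩,
    ⟨(nat_lit 0x1034cf), (nat_lit 0x1034cf), (nat_lit 0x1034cf), (nat_lit 0x1034cf)⟩,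
    ⟨(nat_lit 0x21c2294000), (nat_lit 0x21c2294000), (nat_lit 0x21c2294000), (nat_lit 0x21c2294000)⟩,
    (nat_lit 0x1034cf), (nat_lit 0x103535)⟩) (.lf ⟨⟨(nat_lit 0x21c22f8000), (nat_lit 0x21c22f8000), (nat_lit 0x21c22f8000), (nat_lit 0x21c22f8000)⟩,
    ⟨(nat_lit 0x9f0c2), (nat_lit 0x9f0c2), (nat_lit 0x9f0c2), (nat_lit 0x9f0c2)⟩,
    ⟨(nat_lit 0x211e823000), (nat_lit 0x211e823000), (nat_lit 0x211e823000), (nat_lit 0x211e823000)⟩,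
    ⟨(nat_lit 0x21c2294000), (nat_lit 0x21c2294000), (nat_lit 0x21c2294000), (nat_lit 0x21c2294000)⟩,
    ⟨(nat_lit 0x9f104), (nat_lit 0x9f104), (nat_lit 0x9f104), (nat_lit 0x9f104)⟩,
    ⟨(nat_lit 0), (nat_lit 0), (nat_lit 0), (nat_lit 0)⟩,
    (nat_lit 0x9f0c2), (nat_lit 0x9f104)⟩))) (.nd (.nd (.lf ⟨⟨(nat_lit 0x20731d3000), (nat_lit 0x20731d3000), (nat_lit 0x20731d3000), (nat_lit 0x20731d3000)⟩,
    ⟨(nat_lit 0x4e8ad), (nat_lit 0x4e8ad), (nat_lit 0x4e8ad), (nat_lit 0x4e8ad)⟩,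
    ⟨(nat_lit 0), (nat_lit 0), (nat_lit 0), (nat_lit 0)⟩,
    ⟨(nat_lit 0x20731c3000), (nat_lit 0x20731c3000), (nat_lit 0x20731c3000), (nat_lit 0x20731c3000)⟩,
    ⟨(nat_lit 0x4e895), (nat_lit 0x4e895), (nat_lit 0x4e895), (nat_lit 0x4e895)⟩,
    ⟨(nat_lit 0x20b3d61000), (nat_lit 0x20b3d61000), (nat_lit 0x20b3d61000), (nat_lit 0x20b3d61000)⟩,
    (nat_lit 0x4e895), (nat_lit 0x4e8ad)⟩) (.lf ⟨⟨(nat_lit 0x20b3d7d000), (nat_lit 0x20b3d7d000), (nat_lit 0x20b3d7d000), (nat_lit 0x20b3d7d000)⟩,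
    ⟨(nat_lit 0x4edec), (nat_lit 0x4edec), (nat_lit 0x4edec), (nat_lit 0x4edec)⟩,
    ⟨(nat_lit 0x20731d3000), (nat_lit 0x20731d3000), (nat_lit 0x20731d3000), (nat_lit 0x20731d3000)⟩,
    ⟨(nat_lit 0x20b3d61000), (nat_lit 0x20b3d61000), (nat_lit 0x20b3d61000), (nat_lit 0x20b3d61000)⟩,
    ⟨(nat_lit 0x4ee08), (nat_lit 0x4ee08), (nat_lit 0x4ee08), (nat_lit 0x4ee08)⟩,
    ⟨(nat_lit 0), (nat_lit 0), (nat_lit 0), (nat_lit 0)⟩,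
    (nat_lit 0x4edec), (nat_lit 0x4ee08)⟩)) (.nd (.lf ⟨⟨(nat_lit 0x2000000000), (nat_lit 0x2000000000), (nat_lit 0x2000000000), (nat_lit 0x2000000000)⟩,
    ⟨(nat_lit 0x100000), (nat_lit 0x100000), (nat_lit 0x100000), (nat_lit 0x100000)⟩,
    ⟨(nat_lit 0), (nat_lit 0), (nat_lit 0), (nat_lit 0)⟩,
    ⟨(nat_lit 0x2000000000), (nat_lit 0x2000000000), (nat_lit 0x2000000000), (nat_lit 0x2000000000)⟩,
    ⟨(nat_lit 0x100000), (nat_lit 0x100000), (nat_lit 0x100000), (nat_lit 0x100000)⟩,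
    ⟨(nat_lit 0x21c2294000), (nat_lit 0x21c2294000), (nat_lit 0x21c2294000), (nat_lit 0x21c2294000)⟩,
    (nat_lit 0x100000), (nat_lit 0x100000)⟩) (.lf ⟨⟨(nat_lit 0x21c22f8000), (nat_lit 0x21c22f8000), (nat_lit 0x21c22f8000), (nat_lit 0x21c22f8000)⟩,
    ⟨(nat_lit 0x4b7a90), (nat_lit 0x4b7a90), (nat_lit 0x4b7a90), (nat_lit 0x4b7a90)⟩,
    ⟨(nat_lit 0x2000000000), (nat_lit 0x2000000000), (nat_lit 0x2000000000), (nat_lit 0x2000000000)⟩,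
    ⟨(nat_lit 0x21c2294000), (nat_lit 0x21c2294000), (nat_lit 0x21c2294000), (nat_lit 0x21c2294000)⟩,
    ⟨(nat_lit 0x4b7c74), (nat_lit 0x4b7c74), (nat_lit 0x4b7c74), (nat_lit 0x4b7c74)⟩,
    ⟨(nat_lit 0), (nat_lit 0), (nat_lit 0), (nat_lit 0)⟩,
    (nat_lit 0x4b7a90), (nat_lit 0x4b7c74)⟩)))
  nx := .nd (.nd (.lf (nat_lit 2)) (.lf (nat_lit 7))) (.nd (.lf (nat_lit 5)) (.lf (nat_lit 0)))
  mir := (nat_lit 1)

noncomputable def cx1 : CtxD where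
  sd := .nd (.nd (.nd (.lf ⟨⟨(nat_lit 0x2000000000), (nat_lit 0x2000000000), (nat_lit 0x2000000000), (nat_lit 0x2000000000)⟩,
    ⟨(nat_lit 0x21b72), (nat_lit 0x21b72), (nat_lit 0x21b72), (nat_lit 0x21b72)⟩,
    ⟨(nat_lit 0), (nat_lit 0), (nat_lit 0), (nat_lit 0)⟩,
    ⟨(nat_lit 0x2000000000), (nat_lit 0x2000000000), (nat_lit 0x2000000000), (nat_lit 0x2000000000)⟩,
    ⟨(nat_lit 0x21b70), (nat_lit 0x21b70), (nat_lit 0x21b70), (nat_lit 0x21b70)⟩,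
    ⟨(nat_lit 0x2022b15000), (nat_lit 0x2022b15000), (nat_lit 0x2022b15000), (nat_lit 0x2022b15000)⟩,
    (nat_lit 0x21b70), (nat_lit 0x21b72)⟩) (.lf ⟨⟨(nat_lit 0x2022b1b000), (nat_lit 0x2022b1b000), (nat_lit 0x2022b1b000), (nat_lit 0x2022b1b000)⟩,
    ⟨(nat_lit 0x36f6e), (nat_lit 0x36f6e), (nat_lit 0x36f6e), (nat_lit 0x36f6e)⟩,
    ⟨(nat_lit 0x2000000000), (nat_lit 0x2000000000), (nat_lit 0x2000000000), (nat_lit 0x2000000000)⟩,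
    ⟨(nat_lit 0x2022b15000), (nat_lit 0x2022b15000), (nat_lit 0x2022b15000), (nat_lit 0x2022b15000)⟩,
    ⟨(nat_lit 0x36f80), (nat_lit 0x36f80), (nat_lit 0x36f80), (nat_lit 0x36f80)⟩,
    ⟨(nat_lit 0), (nat_lit 0), (nat_lit 0), (nat_lit 0)⟩,
    (nat_lit 0x36f6e), (nat_lit 0x36f80)⟩)) (.nd (.lf ⟨⟨(nat_lit 0x2052a9f000), (nat_lit 0x2052a9f000), (nat_lit 0x2052a9f000), (nat_lit 0x2052a9f000)⟩,
    ⟨(nat_lit 0x2330b), (nat_lit 0x2330b), (nat_lit 0x2330b), (nat_lit 0x2330b)⟩,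
    ⟨(nat_lit 0), (nat_lit 0), (nat_lit 0), (nat_lit 0)⟩,
    ⟨(nat_lit 0x2052a8d000), (nat_lit 0x2052a8d000), (nat_lit 0x2052a8d000), (nat_lit 0x2052a8d000)⟩,
    ⟨(nat_lit 0x232fb), (nat_lit 0x232fb), (nat_lit 0x232fb), (nat_lit 0x232fb)⟩,
    ⟨(nat_lit 0x205f6ba000), (nat_lit 0x205f6ba000), (nat_lit 0x205f6ba000), (nat_lit 0x205f6ba000)⟩,
    (nat_lit 0x232fb), (nat_lit 0x2330b)⟩) (.lf ⟨⟨(nat_lit 0x205f6d0000), (nat_lit 0x205f6d0000), (nat_lit 0x205f6d0000), (nat_lit 0x205f6d0000)⟩,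
    ⟨(nat_lit 29270), (nat_lit 29270), (nat_lit 29270), (nat_lit 29270)⟩,
    ⟨(nat_lit 0x2052a9f000), (nat_lit 0x2052a9f000), (nat_lit 0x2052a9f000), (nat_lit 0x2052a9f000)⟩,
    ⟨(nat_lit 0x205f6ba000), (nat_lit 0x205f6ba000), (nat_lit 0x205f6ba000), (nat_lit 0x205f6ba000)⟩,
    ⟨(nat_lit 29274), (nat_lit 29274), (nat_lit 29274), (nat_lit 29274)⟩,
    ⟨(nat_lit 0), (nat_lit 0), (nat_lit 0), (nat_lit 0)⟩,
    (nat_lit 29270), (nat_lit 29274)⟩))) (.nd (.nd (.lf ⟨⟨(nat_lit 0x20394de000), (nat_lit 0x20394de000), (nat_lit 0x20394de000), (nat_lit 0x20394de000)⟩,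
    ⟨(nat_lit 0x10b84), (nat_lit 0x10b84), (nat_lit 0x10b84), (nat_lit 0x10b84)⟩,
    ⟨(nat_lit 0), (nat_lit 0), (nat_lit 0), (nat_lit 0)⟩,
    ⟨(nat_lit 0x20394d2000), (nat_lit 0x20394d2000), (nat_lit 0x20394d2000), (nat_lit 0x20394d2000)⟩,
    ⟨(nat_lit 0x10b7c), (nat_lit 0x10b7c), (nat_lit 0x10b7c), (nat_lit 0x10b7c)⟩,
    ⟨(nat_lit 0x2047057000), (nat_lit 0x2047057000), (nat_lit 0x2047057000), (nat_lit 0x2047057000)⟩,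
    (nat_lit 0x10b7c), (nat_lit 0x10b84)⟩) (.lf ⟨⟨(nat_lit 0x2047065000), (nat_lit 0x2047065000), (nat_lit 0x2047065000), (nat_lit 0x2047065000)⟩,
    ⟨(nat_lit 0x10a5a), (nat_lit 0x10a5a), (nat_lit 0x10a5a), (nat_lit 0x10a5a)⟩,
    ⟨(nat_lit 0x20394de000), (nat_lit 0x20394de000), (nat_lit 0x20394de000), (nat_lit 0x20394de000)⟩,
    ⟨(nat_lit 0x2047057000), (nat_lit 0x2047057000), (nat_lit 0x2047057000), (nat_lit 0x2047057000)⟩,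
    ⟨(nat_lit 0x10a62), (nat_lit 0x10a62), (nat_lit 0x10a62), (nat_lit 0x10a62)⟩,
    ⟨(nat_lit 0), (nat_lit 0), (nat_lit 0), (nat_lit 0)⟩,
    (nat_lit 0x10a5a), (nat_lit 0x10a62)⟩)) (.nd (.lf ⟨⟨(nat_lit 0x2000000000), (nat_lit 0x2000000000), (nat_lit 0x2000000000), (nat_lit 0x2000000000)⟩,
    ⟨(nat_lit 0x100000), (nat_lit 0x100000), (nat_lit 0x100000), (nat_lit 0x100000)⟩,
    ⟨(nat_lit 0), (nat_lit 0), (nat_lit 0), (nat_lit 0)⟩,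
    ⟨(nat_lit 0x2000000000), (nat_lit 0x2000000000), (nat_lit 0x2000000000), (nat_lit 0x2000000000)⟩,
    ⟨(nat_lit 0x100000), (nat_lit 0x100000), (nat_lit 0x100000), (nat_lit 0x100000)⟩,
    ⟨(nat_lit 0x205f6ba000), (nat_lit 0x205f6ba000), (nat_lit 0x205f6ba000), (nat_lit 0x205f6ba000)⟩,
    (nat_lit 0x100000), (nat_lit 0x100000)⟩) (.lf ⟨⟨(nat_lit 0x205f6d0000), (nat_lit 0x205f6d0000), (nat_lit 0x205f6d0000), (nat_lit 0x205f6d0000)⟩,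
    ⟨(nat_lit 0x3642e), (nat_lit 0x3642e), (nat_lit 0x3642e), (nat_lit 0x3642e)⟩,
    ⟨(nat_lit 0x2000000000), (nat_lit 0x2000000000), (nat_lit 0x2000000000), (nat_lit 0x2000000000)⟩,
    ⟨(nat_lit 0x205f6ba000), (nat_lit 0x205f6ba000), (nat_lit 0x205f6ba000), (nat_lit 0x205f6ba000)⟩,
    ⟨(nat_lit 0x36446), (nat_lit 0x36446), (nat_lit 0x36446), (nat_lit 0x36446)⟩,
    ⟨(nat_lit 0), (nat_lit 0), (nat_lit 0), (nat_lit 0)⟩,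
    (nat_lit 0x3642e), (nat_lit 0x36446)⟩)))
  nx := .nd (.nd (.lf (nat_lit 6)) (.lf (nat_lit 3))) (.nd (.lf (nat_lit 4)) (.lf (nat_lit 1)))
  mir := (nat_lit 0)

noncomputable def cx2 : CtxD where
  sd := .nd (.nd (.nd (.lf ⟨⟨(nat_lit 0x2000000000), (nat_lit 0x2000000000), (nat_lit 0x2000000000), (nat_lit 0x2000000000)⟩,
    ⟨(nat_lit 0x21b72), (nat_lit 0x21b72), (nat_lit 0x21b72), (nat_lit 0x21b72)⟩,
    ⟨(nat_lit 0), (nat_lit 0), (nat_lit 0), (nat_lit 0)⟩,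
    ⟨(nat_lit 0x2000000000), (nat_lit 0x2000000000), (nat_lit 0x2000000000), (nat_lit 0x2000000000)⟩,
    ⟨(nat_lit 0x21b70), (nat_lit 0x21b70), (nat_lit 0x21b70), (nat_lit 0x21b70)⟩,
    ⟨(nat_lit 0x203c555000), (nat_lit 0x203c555000), (nat_lit 0x203c555000), (nat_lit 0x203c555000)⟩,
    (nat_lit 0x21b70), (nat_lit 0x21b72)⟩) (.lf ⟨⟨(nat_lit 0x203c55d000), (nat_lit 0x203c55d000), (nat_lit 0x203c55d000), (nat_lit 0x203c55d000)⟩,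
    ⟨(nat_lit 0xa6f84), (nat_lit 0xa6f84), (nat_lit 0xa6f84), (nat_lit 0xa6f84)⟩,
    ⟨(nat_lit 0x2000000000), (nat_lit 0x2000000000), (nat_lit 0x2000000000), (nat_lit 0x2000000000)⟩,
    ⟨(nat_lit 0x203c555000), (nat_lit 0x203c555000), (nat_lit 0x203c555000), (nat_lit 0x203c555000)⟩,
    ⟨(nat_lit 0xa6fb0), (nat_lit 0xa6fb0), (nat_lit 0xa6fb0), (nat_lit 0xa6fb0)⟩,
    ⟨(nat_lit 0), (nat_lit 0), (nat_lit 0), (nat_lit 0)⟩,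
    (nat_lit 0xa6f84), (nat_lit 0xa6fb0)⟩)) (.nd (.lf ⟨⟨(nat_lit 0x2121245000), (nat_lit 0x2121245000), (nat_lit 0x2121245000), (nat_lit 0x2121245000)⟩,
    ⟨(nat_lit 0x10681e), (nat_lit 0x10681e), (nat_lit 0x10681e), (nat_lit 0x10681e)⟩,
    ⟨(nat_lit 0), (nat_lit 0), (nat_lit 0), (nat_lit 0)⟩,
    ⟨(nat_lit 0x2121221000), (nat_lit 0x2121221000), (nat_lit 0x2121221000), (nat_lit 0x2121221000)⟩,
    ⟨(nat_lit 0x1067ca), (nat_lit 0x1067ca), (nat_lit 0x1067ca), (nat_lit 0x1067ca)⟩,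
    ⟨(nat_lit 0x21c921e000), (nat_lit 0x21c921e000), (nat_lit 0x21c921e000), (nat_lit 0x21c921e000)⟩,
    (nat_lit 0x1067ca), (nat_lit 0x10681e)⟩) (.lf ⟨⟨(nat_lit 0x21c9268000), (nat_lit 0x21c9268000), (nat_lit 0x21c9268000), (nat_lit 0x21c9268000)⟩,
    ⟨(nat_lit 0xa5ff2), (nat_lit 0xa5ff2), (nat_lit 0xa5ff2), (nat_lit 0xa5ff2)⟩,
    ⟨(nat_lit 0x2121245000), (nat_lit 0x2121245000), (nat_lit 0x2121245000), (nat_lit 0x2121245000)⟩,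
    ⟨(nat_lit 0x21c921e000), (nat_lit 0x21c921e000), (nat_lit 0x21c921e000), (nat_lit 0x21c921e000)⟩,
    ⟨(nat_lit 0xa603a), (nat_lit 0xa603a), (nat_lit 0xa603a), (nat_lit 0xa603a)⟩,
    ⟨(nat_lit 0), (nat_lit 0), (nat_lit 0), (nat_lit 0)⟩,
    (nat_lit 0xa5ff2), (nat_lit 0xa603a)⟩))) (.nd (.nd (.lf ⟨⟨(nat_lit 0x207346c000), (nat_lit 0x207346c000), (nat_lit 0x207346c000), (nat_lit 0x207346c000)⟩,
    ⟨(nat_lit 0x4f1d9), (nat_lit 0x4f1d9), (nat_lit 0x4f1d9), (nat_lit 0x4f1d9)⟩,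
    ⟨(nat_lit 0), (nat_lit 0), (nat_lit 0), (nat_lit 0)⟩,
    ⟨(nat_lit 0x207345e000), (nat_lit 0x207345e000), (nat_lit 0x207345e000), (nat_lit 0x207345e000)⟩,
    ⟨(nat_lit 0x4f1c3), (nat_lit 0x4f1c3), (nat_lit 0x4f1c3), (nat_lit 0x4f1c3)⟩,
    ⟨(nat_lit 0x20b45fd000), (nat_lit 0x20b45fd000), (nat_lit 0x20b45fd000), (nat_lit 0x20b45fd000)⟩,
    (nat_lit 0x4f1c3), (nat_lit 0x4f1d9)⟩) (.lf ⟨⟨(nat_lit 0x20b4611000), (nat_lit 0x20b4611000), (nat_lit 0x20b4611000), (nat_lit 0x20b4611000)⟩,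
    ⟨(nat_lit 0x4f26d), (nat_lit 0x4f26d), (nat_lit 0x4f26d), (nat_lit 0x4f26d)⟩,
    ⟨(nat_lit 0x207346c000), (nat_lit 0x207346c000), (nat_lit 0x207346c000), (nat_lit 0x207346c000)⟩,
    ⟨(nat_lit 0x20b45fd000), (nat_lit 0x20b45fd000), (nat_lit 0x20b45fd000), (nat_lit 0x20b45fd000)⟩,
    ⟨(nat_lit 0x4f283), (nat_lit 0x4f283), (nat_lit 0x4f283), (nat_lit 0x4f283)⟩,
    ⟨(nat_lit 0), (nat_lit 0), (nat_lit 0), (nat_lit 0)⟩,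
    (nat_lit 0x4f26d), (nat_lit 0x4f283)⟩)) (.nd (.lf ⟨⟨(nat_lit 0x2000000000), (nat_lit 0x2000000000), (nat_lit 0x2000000000), (nat_lit 0x2000000000)⟩,
    ⟨(nat_lit 0x100000), (nat_lit 0x100000), (nat_lit 0x100000), (nat_lit 0x100000)⟩,
    ⟨(nat_lit 0), (nat_lit 0), (nat_lit 0), (nat_lit 0)⟩,
    ⟨(nat_lit 0x2000000000), (nat_lit 0x2000000000), (nat_lit 0x2000000000), (nat_lit 0x2000000000)⟩,
    ⟨(nat_lit 0x100000), (nat_lit 0x100000), (nat_lit 0x100000), (nat_lit 0x100000)⟩,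
    ⟨(nat_lit 0x21c921e000), (nat_lit 0x21c921e000), (nat_lit 0x21c921e000), (nat_lit 0x21c921e000)⟩,
    (nat_lit 0x100000), (nat_lit 0x100000)⟩) (.lf ⟨⟨(nat_lit 0x21c9268000), (nat_lit 0x21c9268000), (nat_lit 0x21c9268000), (nat_lit 0x21c9268000)⟩,
    ⟨(nat_lit 0x4ec6ca), (nat_lit 0x4ec6ca), (nat_lit 0x4ec6ca), (nat_lit 0x4ec6ca)⟩,
    ⟨(nat_lit 0x2000000000), (nat_lit 0x2000000000), (nat_lit 0x2000000000), (nat_lit 0x2000000000)⟩,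
    ⟨(nat_lit 0x21c921e000), (nat_lit 0x21c921e000), (nat_lit 0x21c921e000), (nat_lit 0x21c921e000)⟩,
    ⟨(nat_lit 0x4ec8de), (nat_lit 0x4ec8de), (nat_lit 0x4ec8de), (nat_lit 0x4ec8de)⟩,
    ⟨(nat_lit 0), (nat_lit 0), (nat_lit 0), (nat_lit 0)⟩,
    (nat_lit 0x4ec6ca), (nat_lit 0x4ec8de)⟩)))
  nx := .nd (.nd (.lf (nat_lit 8)) (.lf (nat_lit 13))) (.nd (.lf (nat_lit 11)) (.lf (nat_lit 2)))
  mir := (nat_lit 3)

noncomputable def cx3 : CtxD where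
  sd := .nd (.nd (.nd (.lf ⟨⟨(nat_lit 0x2000000000), (nat_lit 0x2000000000), (nat_lit 0x2000000000), (nat_lit 0x2000000000)⟩,
    ⟨(nat_lit 0x21b72), (nat_lit 0x21b72), (nat_lit 0x21b72), (nat_lit 0x21b72)⟩,
    ⟨(nat_lit 0), (nat_lit 0), (nat_lit 0), (nat_lit 0)⟩,
    ⟨(nat_lit 0x2000000000), (nat_lit 0x2000000000), (nat_lit 0x2000000000), (nat_lit 0x2000000000)⟩,
    ⟨(nat_lit 0x21b70), (nat_lit 0x21b70), (nat_lit 0x21b70), (nat_lit 0x21b70)⟩,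
    ⟨(nat_lit 0x20221ea000), (nat_lit 0x20221ea000), (nat_lit 0x20221ea000), (nat_lit 0x20221ea000)⟩,
    (nat_lit 0x21b70), (nat_lit 0x21b72)⟩) (.lf ⟨⟨(nat_lit 0x20221f4000), (nat_lit 0x20221f4000), (nat_lit 0x20221f4000), (nat_lit 0x20221f4000)⟩,
    ⟨(nat_lit 0x354f2), (nat_lit 0x354f2), (nat_lit 0x354f2), (nat_lit 0x354f2)⟩,
    ⟨(nat_lit 0x2000000000), (nat_lit 0x2000000000), (nat_lit 0x2000000000), (nat_lit 0x2000000000)⟩,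
    ⟨(nat_lit 0x20221ea000), (nat_lit 0x20221ea000), (nat_lit 0x20221ea000), (nat_lit 0x20221ea000)⟩,
    ⟨(nat_lit 0x3550a), (nat_lit 0x3550a), (nat_lit 0x3550a), (nat_lit 0x3550a)⟩,
    ⟨(nat_lit 0), (nat_lit 0), (nat_lit 0), (nat_lit 0)⟩,
    (nat_lit 0x354f2), (nat_lit 0x3550a)⟩)) (.nd (.lf ⟨⟨(nat_lit 0x205097c000), (nat_lit 0x205097c000), (nat_lit 0x205097c000), (nat_lit 0x205097c000)⟩,
    ⟨(nat_lit 0x21ea0), (nat_lit 0x21ea0), (nat_lit 0x21ea0), (nat_lit 0x21ea0)⟩,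
    ⟨(nat_lit 0), (nat_lit 0), (nat_lit 0), (nat_lit 0)⟩,
    ⟨(nat_lit 0x2050964000), (nat_lit 0x2050964000), (nat_lit 0x2050964000), (nat_lit 0x2050964000)⟩,
    ⟨(nat_lit 0x21e8e), (nat_lit 0x21e8e), (nat_lit 0x21e8e), (nat_lit 0x21e8e)⟩,
    ⟨(nat_lit 0x205cd70000), (nat_lit 0x205cd70000), (nat_lit 0x205cd70000), (nat_lit 0x205cd70000)⟩,
    (nat_lit 0x21e8e), (nat_lit 0x21ea0)⟩) (.lf ⟨⟨(nat_lit 0x205cd8e000), (nat_lit 0x205cd8e000), (nat_lit 0x205cd8e000), (nat_lit 0x205cd8e000)⟩,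
    ⟨(nat_lit 28045), (nat_lit 28045), (nat_lit 28045), (nat_lit 28045)⟩,
    ⟨(nat_lit 0x205097c000), (nat_lit 0x205097c000), (nat_lit 0x205097c000), (nat_lit 0x205097c000)⟩,
    ⟨(nat_lit 0x205cd70000), (nat_lit 0x205cd70000), (nat_lit 0x205cd70000), (nat_lit 0x205cd70000)⟩,
    ⟨(nat_lit 28049), (nat_lit 28049), (nat_lit 28049), (nat_lit 28049)⟩,
    ⟨(nat_lit 0), (nat_lit 0), (nat_lit 0), (nat_lit 0)⟩,
    (nat_lit 28045), (nat_lit 28049)⟩))) (.nd (.nd (.lf ⟨⟨(nat_lit 0x2038363000), (nat_lit 0x2038363000), (nat_lit 0x2038363000), (nat_lit 0x2038363000)⟩,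
    ⟨(nat_lit 0x1013b), (nat_lit 0x1013b), (nat_lit 0x1013b), (nat_lit 0x1013b)⟩,
    ⟨(nat_lit 0), (nat_lit 0), (nat_lit 0), (nat_lit 0)⟩,
    ⟨(nat_lit 0x2038353000), (nat_lit 0x2038353000), (nat_lit 0x2038353000), (nat_lit 0x2038353000)⟩,
    ⟨(nat_lit 0x10133), (nat_lit 0x10133), (nat_lit 0x10133), (nat_lit 0x10133)⟩,
    ⟨(nat_lit 0x20456dd000), (nat_lit 0x20456dd000), (nat_lit 0x20456dd000), (nat_lit 0x20456dd000)⟩,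
    (nat_lit 0x10133), (nat_lit 0x1013b)⟩) (.lf ⟨⟨(nat_lit 0x20456f3000), (nat_lit 0x20456f3000), (nat_lit 0x20456f3000), (nat_lit 0x20456f3000)⟩,
    ⟨(nat_lit 0x1010f), (nat_lit 0x1010f), (nat_lit 0x1010f), (nat_lit 0x1010f)⟩,
    ⟨(nat_lit 0x2038363000), (nat_lit 0x2038363000), (nat_lit 0x2038363000), (nat_lit 0x2038363000)⟩,
    ⟨(nat_lit 0x20456dd000), (nat_lit 0x20456dd000), (nat_lit 0x20456dd000), (nat_lit 0x20456dd000)⟩,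
    ⟨(nat_lit 0x10119), (nat_lit 0x10119), (nat_lit 0x10119), (nat_lit 0x10119)⟩,
    ⟨(nat_lit 0), (nat_lit 0), (nat_lit 0), (nat_lit 0)⟩,
    (nat_lit 0x1010f), (nat_lit 0x10119)⟩)) (.nd (.lf ⟨⟨(nat_lit 0x2000000000), (nat_lit 0x2000000000), (nat_lit 0x2000000000), (nat_lit 0x2000000000)⟩,
    ⟨(nat_lit 0x100000), (nat_lit 0x100000), (nat_lit 0x100000), (nat_lit 0x100000)⟩,
    ⟨(nat_lit 0), (nat_lit 0), (nat_lit 0), (nat_lit 0)⟩,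
    ⟨(nat_lit 0x2000000000), (nat_lit 0x2000000000), (nat_lit 0x2000000000), (nat_lit 0x2000000000)⟩,
    ⟨(nat_lit 0x100000), (nat_lit 0x100000), (nat_lit 0x100000), (nat_lit 0x100000)⟩,
    ⟨(nat_lit 0x205cd70000), (nat_lit 0x205cd70000), (nat_lit 0x205cd70000), (nat_lit 0x205cd70000)⟩,
    (nat_lit 0x100000), (nat_lit 0x100000)⟩) (.lf ⟨⟨(nat_lit 0x205cd8e000), (nat_lit 0x205cd8e000), (nat_lit 0x205cd8e000), (nat_lit 0x205cd8e000)⟩,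
    ⟨(nat_lit 0x33fd5), (nat_lit 0x33fd5), (nat_lit 0x33fd5), (nat_lit 0x33fd5)⟩,
    ⟨(nat_lit 0x2000000000), (nat_lit 0x2000000000), (nat_lit 0x2000000000), (nat_lit 0x2000000000)⟩,
    ⟨(nat_lit 0x205cd70000), (nat_lit 0x205cd70000), (nat_lit 0x205cd70000), (nat_lit 0x205cd70000)⟩,
    ⟨(nat_lit 0x33fed), (nat_lit 0x33fed), (nat_lit 0x33fed), (nat_lit 0x33fed)⟩,
    ⟨(nat_lit 0), (nat_lit 0), (nat_lit 0), (nat_lit 0)⟩,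
    (nat_lit 0x33fd5), (nat_lit 0x33fed)⟩)))
  nx := .nd (.nd (.lf (nat_lit 12)) (.lf (nat_lit 9))) (.nd (.lf (nat_lit 10)) (.lf (nat_lit 3)))
  mir := (nat_lit 2)

noncomputable def cx4 : CtxD where
  sd := .nd (.nd (.nd (.lf ⟨⟨(nat_lit 0x2000000000), (nat_lit 0x2000000000), (nat_lit 0x2000000000), (nat_lit 0x2000000000)⟩,
    ⟨(nat_lit 0x21b72), (nat_lit 0x21b72), (nat_lit 0x21b72), (nat_lit 0x21b72)⟩,
    ⟨(nat_lit 0), (nat_lit 0), (nat_lit 0), (nat_lit 0)⟩,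
    ⟨(nat_lit 0x2000000000), (nat_lit 0x2000000000), (nat_lit 0x2000000000), (nat_lit 0x2000000000)⟩,
    ⟨(nat_lit 0x21b70), (nat_lit 0x21b70), (nat_lit 0x21b70), (nat_lit 0x21b70)⟩,
    ⟨(nat_lit 0x2031ae0000), (nat_lit 0x2031ae0000), (nat_lit 0x2031ae0000), (nat_lit 0x2031ae0000)⟩,
    (nat_lit 0x21b70), (nat_lit 0x21b72)⟩) (.lf ⟨⟨(nat_lit 0x2031aec000), (nat_lit 0x2031aec000), (nat_lit 0x2031aec000), (nat_lit 0x2031aec000)⟩,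
    ⟨(nat_lit 0x6ebd2), (nat_lit 0x6ebd2), (nat_lit 0x6ebd2), (nat_lit 0x6ebd2)⟩,
    ⟨(nat_lit 0x2000000000), (nat_lit 0x2000000000), (nat_lit 0x2000000000), (nat_lit 0x2000000000)⟩,
    ⟨(nat_lit 0x2031ae0000), (nat_lit 0x2031ae0000), (nat_lit 0x2031ae0000), (nat_lit 0x2031ae0000)⟩,
    ⟨(nat_lit 0x6ebfc), (nat_lit 0x6ebfc), (nat_lit 0x6ebfc), (nat_lit 0x6ebfc)⟩,
    ⟨(nat_lit 0), (nat_lit 0), (nat_lit 0), (nat_lit 0)⟩,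
    (nat_lit 0x6ebd2), (nat_lit 0x6ebfc)⟩)) (.nd (.lf ⟨⟨(nat_lit 0x20a20f6000), (nat_lit 0x20a20f6000), (nat_lit 0x20a20f6000), (nat_lit 0x20a20f6000)⟩,
    ⟨(nat_lit 0x67cf7), (nat_lit 0x67cf7), (nat_lit 0x67cf7), (nat_lit 0x67cf7)⟩,
    ⟨(nat_lit 0), (nat_lit 0), (nat_lit 0), (nat_lit 0)⟩,
    ⟨(nat_lit 0x20a20cc000), (nat_lit 0x20a20cc000), (nat_lit 0x20a20cc000), (nat_lit 0x20a20cc000)⟩,
    ⟨(nat_lit 0x67cc5), (nat_lit 0x67cc5), (nat_lit 0x67cc5), (nat_lit 0x67cc5)⟩,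
    ⟨(nat_lit 0x20d2146000), (nat_lit 0x20d2146000), (nat_lit 0x20d2146000), (nat_lit 0x20d2146000)⟩,
    (nat_lit 0x67cc5), (nat_lit 0x67cf7)⟩) (.lf ⟨⟨(nat_lit 0x20d2180000), (nat_lit 0x20d2180000), (nat_lit 0x20d2180000), (nat_lit 0x20d2180000)⟩,
    ⟨(nat_lit 0x2191e), (nat_lit 0x2191e), (nat_lit 0x2191e), (nat_lit 0x2191e)⟩,
    ⟨(nat_lit 0x20a20f6000), (nat_lit 0x20a20f6000), (nat_lit 0x20a20f6000), (nat_lit 0x20a20f6000)⟩,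
    ⟨(nat_lit 0x20d2146000), (nat_lit 0x20d2146000), (nat_lit 0x20d2146000), (nat_lit 0x20d2146000)⟩,
    ⟨(nat_lit 0x21932), (nat_lit 0x21932), (nat_lit 0x21932), (nat_lit 0x21932)⟩,
    ⟨(nat_lit 0), (nat_lit 0), (nat_lit 0), (nat_lit 0)⟩,
    (nat_lit 0x2191e), (nat_lit 0x21932)⟩))) (.nd (.nd (.lf ⟨⟨(nat_lit 0x20584b5000), (nat_lit 0x20584b5000), (nat_lit 0x20584b5000), (nat_lit 0x20584b5000)⟩,
    ⟨(nat_lit 0x2b0f6), (nat_lit 0x2b0f6), (nat_lit 0x2b0f6), (nat_lit 0x2b0f6)⟩,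
    ⟨(nat_lit 0), (nat_lit 0), (nat_lit 0), (nat_lit 0)⟩,
    ⟨(nat_lit 0x20584a1000), (nat_lit 0x20584a1000), (nat_lit 0x20584a1000), (nat_lit 0x20584a1000)⟩,
    ⟨(nat_lit 0x2b0e4), (nat_lit 0x2b0e4), (nat_lit 0x2b0e4), (nat_lit 0x2b0e4)⟩,
    ⟨(nat_lit 0x207ac97000), (nat_lit 0x207ac97000), (nat_lit 0x207ac97000), (nat_lit 0x207ac97000)⟩,
    (nat_lit 0x2b0e4), (nat_lit 0x2b0f6)⟩) (.lf ⟨⟨(nat_lit 0x207acb5000), (nat_lit 0x207acb5000), (nat_lit 0x207acb5000), (nat_lit 0x207acb5000)⟩,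
    ⟨(nat_lit 0x29569), (nat_lit 0x29569), (nat_lit 0x29569), (nat_lit 0x29569)⟩,
    ⟨(nat_lit 0x20584b5000), (nat_lit 0x20584b5000), (nat_lit 0x20584b5000), (nat_lit 0x20584b5000)⟩,
    ⟨(nat_lit 0x207ac97000), (nat_lit 0x207ac97000), (nat_lit 0x207ac97000), (nat_lit 0x207ac97000)⟩,
    ⟨(nat_lit 0x2957b), (nat_lit 0x2957b), (nat_lit 0x2957b), (nat_lit 0x2957b)⟩,
    ⟨(nat_lit 0), (nat_lit 0), (nat_lit 0), (nat_lit 0)⟩,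
    (nat_lit 0x29569), (nat_lit 0x2957b)⟩)) (.nd (.lf ⟨⟨(nat_lit 0x2000000000), (nat_lit 0x2000000000), (nat_lit 0x2000000000), (nat_lit 0x2000000000)⟩,
    ⟨(nat_lit 0x100000), (nat_lit 0x100000), (nat_lit 0x100000), (nat_lit 0x100000)⟩,
    ⟨(nat_lit 0), (nat_lit 0), (nat_lit 0), (nat_lit 0)⟩,
    ⟨(nat_lit 0x2000000000), (nat_lit 0x2000000000), (nat_lit 0x2000000000), (nat_lit 0x2000000000)⟩,
    ⟨(nat_lit 0x100000), (nat_lit 0x100000), (nat_lit 0x100000), (nat_lit 0x100000)⟩,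
    ⟨(nat_lit 0x20d2146000), (nat_lit 0x20d2146000), (nat_lit 0x20d2146000), (nat_lit 0x20d2146000)⟩,
    (nat_lit 0x100000), (nat_lit 0x100000)⟩) (.lf ⟨⟨(nat_lit 0x20d2180000), (nat_lit 0x20d2180000), (nat_lit 0x20d2180000), (nat_lit 0x20d2180000)⟩,
    ⟨(nat_lit 0xfee5e), (nat_lit 0xfee5e), (nat_lit 0xfee5e), (nat_lit 0xfee5e)⟩,
    ⟨(nat_lit 0x2000000000), (nat_lit 0x2000000000), (nat_lit 0x2000000000), (nat_lit 0x2000000000)⟩,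
    ⟨(nat_lit 0x20d2146000), (nat_lit 0x20d2146000), (nat_lit 0x20d2146000), (nat_lit 0x20d2146000)⟩,
    ⟨(nat_lit 0xfeeee), (nat_lit 0xfeeee), (nat_lit 0xfeeee), (nat_lit 0xfeeee)⟩,
    ⟨(nat_lit 0), (nat_lit 0), (nat_lit 0), (nat_lit 0)⟩,
    (nat_lit 0xfee5e), (nat_lit 0xfeeee)⟩)))
  nx := .nd (.nd (.lf (nat_lit 18)) (.lf (nat_lit 15))) (.nd (.lf (nat_lit 17)) (.lf (nat_lit 4)))
  mir := (nat_lit 5)

noncomputable def cx5 : CtxD where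
  sd := .nd (.nd (.nd (.lf ⟨⟨(nat_lit 0x2000000000), (nat_lit 0x2000000000), (nat_lit 0x2000000000), (nat_lit 0x2000000000)⟩,
    ⟨(nat_lit 0x21b72), (nat_lit 0x21b72), (nat_lit 0x21b72), (nat_lit 0x21b72)⟩,
    ⟨(nat_lit 0), (nat_lit 0), (nat_lit 0), (nat_lit 0)⟩,
    ⟨(nat_lit 0x2000000000), (nat_lit 0x2000000000), (nat_lit 0x2000000000), (nat_lit 0x2000000000)⟩,
    ⟨(nat_lit 0x21b70), (nat_lit 0x21b70), (nat_lit 0x21b70), (nat_lit 0x21b70)⟩,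
    ⟨(nat_lit 0x20303c0000), (nat_lit 0x20303c0000), (nat_lit 0x20303c0000), (nat_lit 0x20303c0000)⟩,
    (nat_lit 0x21b70), (nat_lit 0x21b72)⟩) (.lf ⟨⟨(nat_lit 0x20303ce000), (nat_lit 0x20303ce000), (nat_lit 0x20303ce000), (nat_lit 0x20303ce000)⟩,
    ⟨(nat_lit 0x683d8), (nat_lit 0x683d8), (nat_lit 0x683d8), (nat_lit 0x683d8)⟩,
    ⟨(nat_lit 0x2000000000), (nat_lit 0x2000000000), (nat_lit 0x2000000000), (nat_lit 0x2000000000)⟩,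
    ⟨(nat_lit 0x20303c0000), (nat_lit 0x20303c0000), (nat_lit 0x20303c0000), (nat_lit 0x20303c0000)⟩,
    ⟨(nat_lit 0x68406), (nat_lit 0x68406), (nat_lit 0x68406), (nat_lit 0x68406)⟩,
    ⟨(nat_lit 0), (nat_lit 0), (nat_lit 0), (nat_lit 0)⟩,
    (nat_lit 0x683d8), (nat_lit 0x68406)⟩)) (.nd (.lf ⟨⟨(nat_lit 0x20a117f000), (nat_lit 0x20a117f000), (nat_lit 0x20a117f000), (nat_lit 0x20a117f000)⟩,
    ⟨(nat_lit 0x6f38e), (nat_lit 0x6f38e), (nat_lit 0x6f38e), (nat_lit 0x6f38e)⟩,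
    ⟨(nat_lit 0), (nat_lit 0), (nat_lit 0), (nat_lit 0)⟩,
    ⟨(nat_lit 0x20a114f000), (nat_lit 0x20a114f000), (nat_lit 0x20a114f000), (nat_lit 0x20a114f000)⟩,
    ⟨(nat_lit 0x6f354), (nat_lit 0x6f354), (nat_lit 0x6f354), (nat_lit 0x6f354)⟩,
    ⟨(nat_lit 0x20d2f8d000), (nat_lit 0x20d2f8d000), (nat_lit 0x20d2f8d000), (nat_lit 0x20d2f8d000)⟩,
    (nat_lit 0x6f354), (nat_lit 0x6f38e)⟩) (.lf ⟨⟨(nat_lit 0x20d2fd1000), (nat_lit 0x20d2fd1000), (nat_lit 0x20d2fd1000), (nat_lit 0x20d2fd1000)⟩,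
    ⟨(nat_lit 0x21db2), (nat_lit 0x21db2), (nat_lit 0x21db2), (nat_lit 0x21db2)⟩,
    ⟨(nat_lit 0x20a117f000), (nat_lit 0x20a117f000), (nat_lit 0x20a117f000), (nat_lit 0x20a117f000)⟩,
    ⟨(nat_lit 0x20d2f8d000), (nat_lit 0x20d2f8d000), (nat_lit 0x20d2f8d000), (nat_lit 0x20d2f8d000)⟩,
    ⟨(nat_lit 0x21dc6), (nat_lit 0x21dc6), (nat_lit 0x21dc6), (nat_lit 0x21dc6)⟩,
    ⟨(nat_lit 0), (nat_lit 0), (nat_lit 0), (nat_lit 0)⟩,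
    (nat_lit 0x21db2), (nat_lit 0x21dc6)⟩))) (.nd (.nd (.lf ⟨⟨(nat_lit 0x2057aba000), (nat_lit 0x2057aba000), (nat_lit 0x2057aba000), (nat_lit 0x2057aba000)⟩,
    ⟨(nat_lit 0x2984c), (nat_lit 0x2984c), (nat_lit 0x2984c), (nat_lit 0x2984c)⟩,
    ⟨(nat_lit 0), (nat_lit 0), (nat_lit 0), (nat_lit 0)⟩,
    ⟨(nat_lit 0x2057aa2000), (nat_lit 0x2057aa2000), (nat_lit 0x2057aa2000), (nat_lit 0x2057aa2000)⟩,
    ⟨(nat_lit 0x29838), (nat_lit 0x29838), (nat_lit 0x29838), (nat_lit 0x29838)⟩,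
    ⟨(nat_lit 0x207a4f0000), (nat_lit 0x207a4f0000), (nat_lit 0x207a4f0000), (nat_lit 0x207a4f0000)⟩,
    (nat_lit 0x29838), (nat_lit 0x2984c)⟩) (.lf ⟨⟨(nat_lit 0x207a514000), (nat_lit 0x207a514000), (nat_lit 0x207a514000), (nat_lit 0x207a514000)⟩,
    ⟨(nat_lit 0x2b3d1), (nat_lit 0x2b3d1), (nat_lit 0x2b3d1), (nat_lit 0x2b3d1)⟩,
    ⟨(nat_lit 0x2057aba000), (nat_lit 0x2057aba000), (nat_lit 0x2057aba000), (nat_lit 0x2057aba000)⟩,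
    ⟨(nat_lit 0x207a4f0000), (nat_lit 0x207a4f0000), (nat_lit 0x207a4f0000), (nat_lit 0x207a4f0000)⟩,
    ⟨(nat_lit 0x2b3e7), (nat_lit 0x2b3e7), (nat_lit 0x2b3e7), (nat_lit 0x2b3e7)⟩,
    ⟨(nat_lit 0), (nat_lit 0), (nat_lit 0), (nat_lit 0)⟩,
    (nat_lit 0x2b3d1), (nat_lit 0x2b3e7)⟩)) (.nd (.lf ⟨⟨(nat_lit 0x2000000000), (nat_lit 0x2000000000), (nat_lit 0x2000000000), (nat_lit 0x2000000000)⟩,
    ⟨(nat_lit 0x100000), (nat_lit 0x100000), (nat_lit 0x100000), (nat_lit 0x100000)⟩,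
    ⟨(nat_lit 0), (nat_lit 0), (nat_lit 0), (nat_lit 0)⟩,
    ⟨(nat_lit 0x2000000000), (nat_lit 0x2000000000), (nat_lit 0x2000000000), (nat_lit 0x2000000000)⟩,
    ⟨(nat_lit 0x100000), (nat_lit 0x100000), (nat_lit 0x100000), (nat_lit 0x100000)⟩,
    ⟨(nat_lit 0x20d2f8d000), (nat_lit 0x20d2f8d000), (nat_lit 0x20d2f8d000), (nat_lit 0x20d2f8d000)⟩,
    (nat_lit 0x100000), (nat_lit 0x100000)⟩) (.lf ⟨⟨(nat_lit 0x20d2fd1000), (nat_lit 0x20d2fd1000), (nat_lit 0x20d2fd1000), (nat_lit 0x20d2fd1000)⟩,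
    ⟨(nat_lit 0x101125), (nat_lit 0x101125), (nat_lit 0x101125), (nat_lit 0x101125)⟩,
    ⟨(nat_lit 0x2000000000), (nat_lit 0x2000000000), (nat_lit 0x2000000000), (nat_lit 0x2000000000)⟩,
    ⟨(nat_lit 0x20d2f8d000), (nat_lit 0x20d2f8d000), (nat_lit 0x20d2f8d000), (nat_lit 0x20d2f8d000)⟩,
    ⟨(nat_lit 0x1011b5), (nat_lit 0x1011b5), (nat_lit 0x1011b5), (nat_lit 0x1011b5)⟩,
    ⟨(nat_lit 0), (nat_lit 0), (nat_lit 0), (nat_lit 0)⟩,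
    (nat_lit 0x101125), (nat_lit 0x1011b5)⟩)))
  nx := .nd (.nd (.lf (nat_lit 14)) (.lf (nat_lit 19))) (.nd (.lf (nat_lit 16)) (.lf (nat_lit 5)))
  mir := (nat_lit 4)

noncomputable def cx6 : CtxD where
  sd := .nd (.nd (.nd (.lf ⟨⟨(nat_lit 0x2000000000), (nat_lit 0x2000000000), (nat_lit 0x2000000000), (nat_lit 0x2000000000)⟩,
    ⟨(nat_lit 0x21b72), (nat_lit 0x21b72), (nat_lit 0x21b72), (nat_lit 0x21b72)⟩,
    ⟨(nat_lit 0), (nat_lit 0), (nat_lit 0), (nat_lit 0)⟩,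
    ⟨(nat_lit 0x2000000000), (nat_lit 0x2000000000), (nat_lit 0x2000000000), (nat_lit 0x2000000000)⟩,
    ⟨(nat_lit 0x21b70), (nat_lit 0x21b70), (nat_lit 0x21b70), (nat_lit 0x21b70)⟩,
    ⟨(nat_lit 0x20359fb000), (nat_lit 0x20359fb000), (nat_lit 0x20359fb000), (nat_lit 0x20359fb000)⟩,
    (nat_lit 0x21b70), (nat_lit 0x21b72)⟩) (.lf ⟨⟨(nat_lit 0x2035a03000), (nat_lit 0x2035a03000), (nat_lit 0x2035a03000), (nat_lit 0x2035a03000)⟩,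
    ⟨(nat_lit 0x8213f), (nat_lit 0x8213f), (nat_lit 0x8213f), (nat_lit 0x8213f)⟩,
    ⟨(nat_lit 0x2000000000), (nat_lit 0x2000000000), (nat_lit 0x2000000000), (nat_lit 0x2000000000)⟩,
    ⟨(nat_lit 0x20359fb000), (nat_lit 0x20359fb000), (nat_lit 0x20359fb000), (nat_lit 0x20359fb000)⟩,
    ⟨(nat_lit 0x82169), (nat_lit 0x82169), (nat_lit 0x82169), (nat_lit 0x82169)⟩,
    ⟨(nat_lit 0), (nat_lit 0), (nat_lit 0), (nat_lit 0)⟩,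
    (nat_lit 0x8213f), (nat_lit 0x82169)⟩)) (.nd (.lf ⟨⟨(nat_lit 0x20c1df2000), (nat_lit 0x20c1df2000), (nat_lit 0x20c1df2000), (nat_lit 0x20c1df2000)⟩,
    ⟨(nat_lit 0x8694e), (nat_lit 0x8694e), (nat_lit 0x8694e), (nat_lit 0x8694e)⟩,
    ⟨(nat_lit 0), (nat_lit 0), (nat_lit 0), (nat_lit 0)⟩,
    ⟨(nat_lit 0x20c1dd0000), (nat_lit 0x20c1dd0000), (nat_lit 0x20c1dd0000), (nat_lit 0x20c1dd0000)⟩,
    ⟨(nat_lit 0x86914), (nat_lit 0x86914), (nat_lit 0x86914), (nat_lit 0x86914)⟩,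
    ⟨(nat_lit 0x21076c4000), (nat_lit 0x21076c4000), (nat_lit 0x21076c4000), (nat_lit 0x21076c4000)⟩,
    (nat_lit 0x86914), (nat_lit 0x8694e)⟩) (.lf ⟨⟨(nat_lit 0x21076fc000), (nat_lit 0x21076fc000), (nat_lit 0x21076fc000), (nat_lit 0x21076fc000)⟩,
    ⟨(nat_lit 0x36f67), (nat_lit 0x36f67), (nat_lit 0x36f67), (nat_lit 0x36f67)⟩,
    ⟨(nat_lit 0x20c1df2000), (nat_lit 0x20c1df2000), (nat_lit 0x20c1df2000), (nat_lit 0x20c1df2000)⟩,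
    ⟨(nat_lit 0x21076c4000), (nat_lit 0x21076c4000), (nat_lit 0x21076c4000), (nat_lit 0x21076c4000)⟩,
    ⟨(nat_lit 0x36f87), (nat_lit 0x36f87), (nat_lit 0x36f87), (nat_lit 0x36f87)⟩,
    ⟨(nat_lit 0), (nat_lit 0), (nat_lit 0), (nat_lit 0)⟩,
    (nat_lit 0x36f67), (nat_lit 0x36f87)⟩))) (.nd (.nd (.lf ⟨⟨(nat_lit 0x2060d82000), (nat_lit 0x2060d82000), (nat_lit 0x2060d82000), (nat_lit 0x2060d82000)⟩,
    ⟨(nat_lit 0x358e2), (nat_lit 0x358e2), (nat_lit 0x358e2), (nat_lit 0x358e2)⟩,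
    ⟨(nat_lit 0), (nat_lit 0), (nat_lit 0), (nat_lit 0)⟩,
    ⟨(nat_lit 0x2060d74000), (nat_lit 0x2060d74000), (nat_lit 0x2060d74000), (nat_lit 0x2060d74000)⟩,
    ⟨(nat_lit 0x358d0), (nat_lit 0x358d0), (nat_lit 0x358d0), (nat_lit 0x358d0)⟩,
    ⟨(nat_lit 0x208b58a000), (nat_lit 0x208b58a000), (nat_lit 0x208b58a000), (nat_lit 0x208b58a000)⟩,
    (nat_lit 0x358d0), (nat_lit 0x358e2)⟩) (.lf ⟨⟨(nat_lit 0x208b5a0000), (nat_lit 0x208b5a0000), (nat_lit 0x208b5a0000), (nat_lit 0x208b5a0000)⟩,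
    ⟨(nat_lit 0x32415), (nat_lit 0x32415), (nat_lit 0x32415), (nat_lit 0x32415)⟩,
    ⟨(nat_lit 0x2060d82000), (nat_lit 0x2060d82000), (nat_lit 0x2060d82000), (nat_lit 0x2060d82000)⟩,
    ⟨(nat_lit 0x208b58a000), (nat_lit 0x208b58a000), (nat_lit 0x208b58a000), (nat_lit 0x208b58a000)⟩,
    ⟨(nat_lit 0x32427), (nat_lit 0x32427), (nat_lit 0x32427), (nat_lit 0x32427)⟩,
    ⟨(nat_lit 0), (nat_lit 0), (nat_lit 0), (nat_lit 0)⟩,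
    (nat_lit 0x32415), (nat_lit 0x32427)⟩)) (.nd (.lf ⟨⟨(nat_lit 0x2000000000), (nat_lit 0x2000000000), (nat_lit 0x2000000000), (nat_lit 0x2000000000)⟩,
    ⟨(nat_lit 0x100000), (nat_lit 0x100000), (nat_lit 0x100000), (nat_lit 0x100000)⟩,
    ⟨(nat_lit 0), (nat_lit 0), (nat_lit 0), (nat_lit 0)⟩,
    ⟨(nat_lit 0x2000000000), (nat_lit 0x2000000000), (nat_lit 0x2000000000), (nat_lit 0x2000000000)⟩,
    ⟨(nat_lit 0x100000), (nat_lit 0x100000), (nat_lit 0x100000), (nat_lit 0x100000)⟩,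
    ⟨(nat_lit 0x21076c4000), (nat_lit 0x21076c4000), (nat_lit 0x21076c4000), (nat_lit 0x21076c4000)⟩,
    (nat_lit 0x100000), (nat_lit 0x100000)⟩) (.lf ⟨⟨(nat_lit 0x21076fc000), (nat_lit 0x21076fc000), (nat_lit 0x21076fc000), (nat_lit 0x21076fc000)⟩,
    ⟨(nat_lit 0x1a1563), (nat_lit 0x1a1563), (nat_lit 0x1a1563), (nat_lit 0x1a1563)⟩,
    ⟨(nat_lit 0x2000000000), (nat_lit 0x2000000000), (nat_lit 0x2000000000), (nat_lit 0x2000000000)⟩,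
    ⟨(nat_lit 0x21076c4000), (nat_lit 0x21076c4000), (nat_lit 0x21076c4000), (nat_lit 0x21076c4000)⟩,
    ⟨(nat_lit 0x1a1645), (nat_lit 0x1a1645), (nat_lit 0x1a1645), (nat_lit 0x1a1645)⟩,
    ⟨(nat_lit 0), (nat_lit 0), (nat_lit 0), (nat_lit 0)⟩,
    (nat_lit 0x1a1563), (nat_lit 0x1a1645)⟩)))
  nx := .nd (.nd (.lf (nat_lit 24)) (.lf (nat_lit 21))) (.nd (.lf (nat_lit 23)) (.lf (nat_lit 6)))
  mir := (nat_lit 7)

noncomputable def cx7 : CtxD where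
  sd := .nd (.nd (.nd (.lf ⟨⟨(nat_lit 0x2000000000), (nat_lit 0x2000000000), (nat_lit 0x2000000000), (nat_lit 0x2000000000)⟩,
    ⟨(nat_lit 0x21b72), (nat_lit 0x21b72), (nat_lit 0x21b72), (nat_lit 0x21b72)⟩,
    ⟨(nat_lit 0), (nat_lit 0), (nat_lit 0), (nat_lit 0)⟩,
    ⟨(nat_lit 0x2000000000), (nat_lit 0x2000000000), (nat_lit 0x2000000000), (nat_lit 0x2000000000)⟩,
    ⟨(nat_lit 0x21b70), (nat_lit 0x21b70), (nat_lit 0x21b70), (nat_lit 0x21b70)⟩,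
    ⟨(nat_lit 0x202aaa7000), (nat_lit 0x202aaa7000), (nat_lit 0x202aaa7000), (nat_lit 0x202aaa7000)⟩,
    (nat_lit 0x21b70), (nat_lit 0x21b72)⟩) (.lf ⟨⟨(nat_lit 0x202aab5000), (nat_lit 0x202aab5000), (nat_lit 0x202aab5000), (nat_lit 0x202aab5000)⟩,
    ⟨(nat_lit 0x528a0), (nat_lit 0x528a0), (nat_lit 0x528a0), (nat_lit 0x528a0)⟩,
    ⟨(nat_lit 0x2000000000), (nat_lit 0x2000000000), (nat_lit 0x2000000000), (nat_lit 0x2000000000)⟩,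
    ⟨(nat_lit 0x202aaa7000), (nat_lit 0x202aaa7000), (nat_lit 0x202aaa7000), (nat_lit 0x202aaa7000)⟩,
    ⟨(nat_lit 0x528cc), (nat_lit 0x528cc), (nat_lit 0x528cc), (nat_lit 0x528cc)⟩,
    ⟨(nat_lit 0), (nat_lit 0), (nat_lit 0), (nat_lit 0)⟩,
    (nat_lit 0x528a0), (nat_lit 0x528cc)⟩)) (.nd (.lf ⟨⟨(nat_lit 0x2080b1c000), (nat_lit 0x2080b1c000), (nat_lit 0x2080b1c000), (nat_lit 0x2080b1c000)⟩,
    ⟨(nat_lit 0x4fcb9), (nat_lit 0x4fcb9), (nat_lit 0x4fcb9), (nat_lit 0x4fcb9)⟩,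
    ⟨(nat_lit 0), (nat_lit 0), (nat_lit 0), (nat_lit 0)⟩,
    ⟨(nat_lit 0x2080aee000), (nat_lit 0x2080aee000), (nat_lit 0x2080aee000), (nat_lit 0x2080aee000)⟩,
    ⟨(nat_lit 0x4fc89), (nat_lit 0x4fc89), (nat_lit 0x4fc89), (nat_lit 0x4fc89)⟩,
    ⟨(nat_lit 0x20a192c000), (nat_lit 0x20a192c000), (nat_lit 0x20a192c000), (nat_lit 0x20a192c000)⟩,
    (nat_lit 0x4fc89), (nat_lit 0x4fcb9)⟩) (.lf ⟨⟨(nat_lit 0x20a1968000), (nat_lit 0x20a1968000), (nat_lit 0x20a1968000), (nat_lit 0x20a1968000)⟩,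
    ⟨(nat_lit 0x14adb), (nat_lit 0x14adb), (nat_lit 0x14adb), (nat_lit 0x14adb)⟩,
    ⟨(nat_lit 0x2080b1c000), (nat_lit 0x2080b1c000), (nat_lit 0x2080b1c000), (nat_lit 0x2080b1c000)⟩,
    ⟨(nat_lit 0x20a192c000), (nat_lit 0x20a192c000), (nat_lit 0x20a192c000), (nat_lit 0x20a192c000)⟩,
    ⟨(nat_lit 0x14ae7), (nat_lit 0x14ae7), (nat_lit 0x14ae7), (nat_lit 0x14ae7)⟩,
    ⟨(nat_lit 0), (nat_lit 0), (nat_lit 0), (nat_lit 0)⟩,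
    (nat_lit 0x14adb), (nat_lit 0x14ae7)⟩))) (.nd (.nd (.lf ⟨⟨(nat_lit 0x204c1c6000), (nat_lit 0x204c1c6000), (nat_lit 0x204c1c6000), (nat_lit 0x204c1c6000)⟩,
    ⟨(nat_lit 0x1ed42), (nat_lit 0x1ed42), (nat_lit 0x1ed42), (nat_lit 0x1ed42)⟩,
    ⟨(nat_lit 0), (nat_lit 0), (nat_lit 0), (nat_lit 0)⟩,
    ⟨(nat_lit 0x204c1ae000), (nat_lit 0x204c1ae000), (nat_lit 0x204c1ae000), (nat_lit 0x204c1ae000)⟩,
    ⟨(nat_lit 0x1ed30), (nat_lit 0x1ed30), (nat_lit 0x1ed30), (nat_lit 0x1ed30)⟩,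
    ⟨(nat_lit 0x20662d0000), (nat_lit 0x20662d0000), (nat_lit 0x20662d0000), (nat_lit 0x20662d0000)⟩,
    (nat_lit 0x1ed30), (nat_lit 0x1ed42)⟩) (.lf ⟨⟨(nat_lit 0x20662f2000), (nat_lit 0x20662f2000), (nat_lit 0x20662f2000), (nat_lit 0x20662f2000)⟩,
    ⟨(nat_lit 0x20d87), (nat_lit 0x20d87), (nat_lit 0x20d87), (nat_lit 0x20d87)⟩,
    ⟨(nat_lit 0x204c1c6000), (nat_lit 0x204c1c6000), (nat_lit 0x204c1c6000), (nat_lit 0x204c1c6000)⟩,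
    ⟨(nat_lit 0x20662d0000), (nat_lit 0x20662d0000), (nat_lit 0x20662d0000), (nat_lit 0x20662d0000)⟩,
    ⟨(nat_lit 0x20d9b), (nat_lit 0x20d9b), (nat_lit 0x20d9b), (nat_lit 0x20d9b)⟩,
    ⟨(nat_lit 0), (nat_lit 0), (nat_lit 0), (nat_lit 0)⟩,
    (nat_lit 0x20d87), (nat_lit 0x20d9b)⟩)) (.nd (.lf ⟨⟨(nat_lit 0x2000000000), (nat_lit 0x2000000000), (nat_lit 0x2000000000), (nat_lit 0x2000000000)⟩,
    ⟨(nat_lit 0x100000), (nat_lit 0x100000), (nat_lit 0x100000), (nat_lit 0x100000)⟩,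
    ⟨(nat_lit 0), (nat_lit 0), (nat_lit 0), (nat_lit 0)⟩,
    ⟨(nat_lit 0x2000000000), (nat_lit 0x2000000000), (nat_lit 0x2000000000), (nat_lit 0x2000000000)⟩,
    ⟨(nat_lit 0x100000), (nat_lit 0x100000), (nat_lit 0x100000), (nat_lit 0x100000)⟩,
    ⟨(nat_lit 0x20a192c000), (nat_lit 0x20a192c000), (nat_lit 0x20a192c000), (nat_lit 0x20a192c000)⟩,
    (nat_lit 0x100000), (nat_lit 0x100000)⟩) (.lf ⟨⟨(nat_lit 0x20a1968000), (nat_lit 0x20a1968000), (nat_lit 0x20a1968000), (nat_lit 0x20a1968000)⟩,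
    ⟨(nat_lit 0x9d035), (nat_lit 0x9d035), (nat_lit 0x9d035), (nat_lit 0x9d035)⟩,
    ⟨(nat_lit 0x2000000000), (nat_lit 0x2000000000), (nat_lit 0x2000000000), (nat_lit 0x2000000000)⟩,
    ⟨(nat_lit 0x20a192c000), (nat_lit 0x20a192c000), (nat_lit 0x20a192c000), (nat_lit 0x20a192c000)⟩,
    ⟨(nat_lit 0x9d08b), (nat_lit 0x9d08b), (nat_lit 0x9d08b), (nat_lit 0x9d08b)⟩,
    ⟨(nat_lit 0), (nat_lit 0), (nat_lit 0), (nat_lit 0)⟩,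
    (nat_lit 0x9d035), (nat_lit 0x9d08b)⟩)))
  nx := .nd (.nd (.lf (nat_lit 20)) (.lf (nat_lit 25))) (.nd (.lf (nat_lit 22)) (.lf (nat_lit 7)))
  mir := (nat_lit 6)

noncomputable def cx8 : CtxD where
  sd := .nd (.nd (.nd (.lf ⟨⟨(nat_lit 0x2000000000), (nat_lit 0x2000000000), (nat_lit 0x2000000000), (nat_lit 0x2000000000)⟩,
    ⟨(nat_lit 0x21b72), (nat_lit 0x21b72), (nat_lit 0x21b72), (nat_lit 0x21b72)⟩,
    ⟨(nat_lit 0), (nat_lit 0), (nat_lit 0), (nat_lit 0)⟩,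
    ⟨(nat_lit 0x2000000000), (nat_lit 0x2000000000), (nat_lit 0x2000000000), (nat_lit 0x2000000000)⟩,
    ⟨(nat_lit 0x21b70), (nat_lit 0x21b70), (nat_lit 0x21b70), (nat_lit 0x21b70)⟩,
    ⟨(nat_lit 0x203c59e000), (nat_lit 0x203c59e000), (nat_lit 0x203c59e000), (nat_lit 0x203c59e000)⟩,
    (nat_lit 0x21b70), (nat_lit 0x21b72)⟩) (.lf ⟨⟨(nat_lit 0x203c5a6000), (nat_lit 0x203c5a6000), (nat_lit 0x203c5a6000), (nat_lit 0x203c5a6000)⟩,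
    ⟨(nat_lit 0xa71a2), (nat_lit 0xa71a2), (nat_lit 0xa71a2), (nat_lit 0xa71a2)⟩,
    ⟨(nat_lit 0x2000000000), (nat_lit 0x2000000000), (nat_lit 0x2000000000), (nat_lit 0x2000000000)⟩,
    ⟨(nat_lit 0x203c59e000), (nat_lit 0x203c59e000), (nat_lit 0x203c59e000), (nat_lit 0x203c59e000)⟩,
    ⟨(nat_lit 0xa71d8), (nat_lit 0xa71d8), (nat_lit 0xa71d8), (nat_lit 0xa71d8)⟩,
    ⟨(nat_lit 0), (nat_lit 0), (nat_lit 0), (nat_lit 0)⟩,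
    (nat_lit 0xa71a2), (nat_lit 0xa71d8)⟩)) (.nd (.lf ⟨⟨(nat_lit 0x2121837000), (nat_lit 0x2121837000), (nat_lit 0x2121837000), (nat_lit 0x2121837000)⟩,
    ⟨(nat_lit 0x106f75), (nat_lit 0x106f75), (nat_lit 0x106f75), (nat_lit 0x106f75)⟩,
    ⟨(nat_lit 0), (nat_lit 0), (nat_lit 0), (nat_lit 0)⟩,
    ⟨(nat_lit 0x2121817000), (nat_lit 0x2121817000), (nat_lit 0x2121817000), (nat_lit 0x2121817000)⟩,
    ⟨(nat_lit 0x106f25), (nat_lit 0x106f25), (nat_lit 0x106f25), (nat_lit 0x106f25)⟩,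
    ⟨(nat_lit 0x21ca1d0000), (nat_lit 0x21ca1d0000), (nat_lit 0x21ca1d0000), (nat_lit 0x21ca1d0000)⟩,
    (nat_lit 0x106f25), (nat_lit 0x106f75)⟩) (.lf ⟨⟨(nat_lit 0x21ca210000), (nat_lit 0x21ca210000), (nat_lit 0x21ca210000), (nat_lit 0x21ca210000)⟩,
    ⟨(nat_lit 0xa6f78), (nat_lit 0xa6f78), (nat_lit 0xa6f78), (nat_lit 0xa6f78)⟩,
    ⟨(nat_lit 0x2121837000), (nat_lit 0x2121837000), (nat_lit 0x2121837000), (nat_lit 0x2121837000)⟩,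
    ⟨(nat_lit 0x21ca1d0000), (nat_lit 0x21ca1d0000), (nat_lit 0x21ca1d0000), (nat_lit 0x21ca1d0000)⟩,
    ⟨(nat_lit 0xa6fbc), (nat_lit 0xa6fbc), (nat_lit 0xa6fbc), (nat_lit 0xa6fbc)⟩,
    ⟨(nat_lit 0), (nat_lit 0), (nat_lit 0), (nat_lit 0)⟩,
    (nat_lit 0xa6f78), (nat_lit 0xa6fbc)⟩))) (.nd (.nd (.lf ⟨⟨(nat_lit 0x20734d1000), (nat_lit 0x20734d1000), (nat_lit 0x20734d1000), (nat_lit 0x20734d1000)⟩,
    ⟨(nat_lit 0x4f323), (nat_lit 0x4f323), (nat_lit 0x4f323), (nat_lit 0x4f323)⟩,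
    ⟨(nat_lit 0), (nat_lit 0), (nat_lit 0), (nat_lit 0)⟩,
    ⟨(nat_lit 0x20734c5000), (nat_lit 0x20734c5000), (nat_lit 0x20734c5000), (nat_lit 0x20734c5000)⟩,
    ⟨(nat_lit 0x4f30b), (nat_lit 0x4f30b), (nat_lit 0x4f30b), (nat_lit 0x4f30b)⟩,
    ⟨(nat_lit 0x20b4744000), (nat_lit 0x20b4744000), (nat_lit 0x20b4744000), (nat_lit 0x20b4744000)⟩,
    (nat_lit 0x4f30b), (nat_lit 0x4f323)⟩) (.lf ⟨⟨(nat_lit 0x20b4756000), (nat_lit 0x20b4756000), (nat_lit 0x20b4756000), (nat_lit 0x20b4756000)⟩,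
    ⟨(nat_lit 0x4f320), (nat_lit 0x4f320), (nat_lit 0x4f320), (nat_lit 0x4f320)⟩,
    ⟨(nat_lit 0x20734d1000), (nat_lit 0x20734d1000), (nat_lit 0x20734d1000), (nat_lit 0x20734d1000)⟩,
    ⟨(nat_lit 0x20b4744000), (nat_lit 0x20b4744000), (nat_lit 0x20b4744000), (nat_lit 0x20b4744000)⟩,
    ⟨(nat_lit 0x4f338), (nat_lit 0x4f338), (nat_lit 0x4f338), (nat_lit 0x4f338)⟩,
    ⟨(nat_lit 0), (nat_lit 0), (nat_lit 0), (nat_lit 0)⟩,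
    (nat_lit 0x4f320), (nat_lit 0x4f338)⟩)) (.nd (.lf ⟨⟨(nat_lit 0x2000000000), (nat_lit 0x2000000000), (nat_lit 0x2000000000), (nat_lit 0x2000000000)⟩,
    ⟨(nat_lit 0x100000), (nat_lit 0x100000), (nat_lit 0x100000), (nat_lit 0x100000)⟩,
    ⟨(nat_lit 0), (nat_lit 0), (nat_lit 0), (nat_lit 0)⟩,
    ⟨(nat_lit 0x2000000000), (nat_lit 0x2000000000), (nat_lit 0x2000000000), (nat_lit 0x2000000000)⟩,
    ⟨(nat_lit 0x100000), (nat_lit 0x100000), (nat_lit 0x100000), (nat_lit 0x100000)⟩,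
    ⟨(nat_lit 0x21ca1d0000), (nat_lit 0x21ca1d0000), (nat_lit 0x21ca1d0000), (nat_lit 0x21ca1d0000)⟩,
    (nat_lit 0x100000), (nat_lit 0x100000)⟩) (.lf ⟨⟨(nat_lit 0x21ca210000), (nat_lit 0x21ca210000), (nat_lit 0x21ca210000), (nat_lit 0x21ca210000)⟩,
    ⟨(nat_lit 0x4f3ca4), (nat_lit 0x4f3ca4), (nat_lit 0x4f3ca4), (nat_lit 0x4f3ca4)⟩,
    ⟨(nat_lit 0x2000000000), (nat_lit 0x2000000000), (nat_lit 0x2000000000), (nat_lit 0x2000000000)⟩,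
    ⟨(nat_lit 0x21ca1d0000), (nat_lit 0x21ca1d0000), (nat_lit 0x21ca1d0000), (nat_lit 0x21ca1d0000)⟩,
    ⟨(nat_lit 0x4f3ea4), (nat_lit 0x4f3ea4), (nat_lit 0x4f3ea4), (nat_lit 0x4f3ea4)⟩,
    ⟨(nat_lit 0), (nat_lit 0), (nat_lit 0), (nat_lit 0)⟩,
    (nat_lit 0x4f3ca4), (nat_lit 0x4f3ea4)⟩)))
  nx := .nd (.nd (.lf (nat_lit 26)) (.lf (nat_lit 103))) (.nd (.lf (nat_lit 109)) (.lf (nat_lit 8)))
  mir := (nat_lit 9)

noncomputable def cx9 : CtxD where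
  sd := .nd (.nd (.nd (.lf ⟨⟨(nat_lit 0x2000000000), (nat_lit 0x2000000000), (nat_lit 0x2000000000), (nat_lit 0x2000000000)⟩,
    ⟨(nat_lit 0x21b72), (nat_lit 0x21b72), (nat_lit 0x21b72), (nat_lit 0x21b72)⟩,
    ⟨(nat_lit 0), (nat_lit 0), (nat_lit 0), (nat_lit 0)⟩,
    ⟨(nat_lit 0x2000000000), (nat_lit 0x2000000000), (nat_lit 0x2000000000), (nat_lit 0x2000000000)⟩,
    ⟨(nat_lit 0x21b70), (nat_lit 0x21b70), (nat_lit 0x21b70), (nat_lit 0x21b70)⟩,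
    ⟨(nat_lit 0x20220b5000), (nat_lit 0x20220b5000), (nat_lit 0x20220b5000), (nat_lit 0x20220b5000)⟩,
    (nat_lit 0x21b70), (nat_lit 0x21b72)⟩) (.lf ⟨⟨(nat_lit 0x20220bf000), (nat_lit 0x20220bf000), (nat_lit 0x20220bf000), (nat_lit 0x20220bf000)⟩,
    ⟨(nat_lit 0x35179), (nat_lit 0x35179), (nat_lit 0x35179), (nat_lit 0x35179)⟩,
    ⟨(nat_lit 0x2000000000), (nat_lit 0x2000000000), (nat_lit 0x2000000000), (nat_lit 0x2000000000)⟩,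
    ⟨(nat_lit 0x20220b5000), (nat_lit 0x20220b5000), (nat_lit 0x20220b5000), (nat_lit 0x20220b5000)⟩,
    ⟨(nat_lit 0x35193), (nat_lit 0x35193), (nat_lit 0x35193), (nat_lit 0x35193)⟩,
    ⟨(nat_lit 0), (nat_lit 0), (nat_lit 0), (nat_lit 0)⟩,
    (nat_lit 0x35179), (nat_lit 0x35193)⟩)) (.nd (.lf ⟨⟨(nat_lit 0x205051b000), (nat_lit 0x205051b000), (nat_lit 0x205051b000), (nat_lit 0x205051b000)⟩,
    ⟨(nat_lit 0x21be9), (nat_lit 0x21be9), (nat_lit 0x21be9), (nat_lit 0x21be9)⟩,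
    ⟨(nat_lit 0), (nat_lit 0), (nat_lit 0), (nat_lit 0)⟩,
    ⟨(nat_lit 0x2050501000), (nat_lit 0x2050501000), (nat_lit 0x2050501000), (nat_lit 0x2050501000)⟩,
    ⟨(nat_lit 0x21bd5), (nat_lit 0x21bd5), (nat_lit 0x21bd5), (nat_lit 0x21bd5)⟩,
    ⟨(nat_lit 0x205c7f9000), (nat_lit 0x205c7f9000), (nat_lit 0x205c7f9000), (nat_lit 0x205c7f9000)⟩,
    (nat_lit 0x21bd5), (nat_lit 0x21be9)⟩) (.lf ⟨⟨(nat_lit 0x205c817000), (nat_lit 0x205c817000), (nat_lit 0x205c817000), (nat_lit 0x205c817000)⟩,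
    ⟨(nat_lit 27882), (nat_lit 27882), (nat_lit 27882), (nat_lit 27882)⟩,
    ⟨(nat_lit 0x205051b000), (nat_lit 0x205051b000), (nat_lit 0x205051b000), (nat_lit 0x205051b000)⟩,
    ⟨(nat_lit 0x205c7f9000), (nat_lit 0x205c7f9000), (nat_lit 0x205c7f9000), (nat_lit 0x205c7f9000)⟩,
    ⟨(nat_lit 27886), (nat_lit 27886), (nat_lit 27886), (nat_lit 27886)⟩,
    ⟨(nat_lit 0), (nat_lit 0), (nat_lit 0), (nat_lit 0)⟩,
    (nat_lit 27882), (nat_lit 27886)⟩))) (.nd (.nd (.lf ⟨⟨(nat_lit 0x2038113000), (nat_lit 0x2038113000), (nat_lit 0x2038113000), (nat_lit 0x2038113000)⟩,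
    ⟨(nat_lit 65506), (nat_lit 65506), (nat_lit 65506), (nat_lit 65506)⟩,
    ⟨(nat_lit 0), (nat_lit 0), (nat_lit 0), (nat_lit 0)⟩,
    ⟨(nat_lit 0x2038101000), (nat_lit 0x2038101000), (nat_lit 0x2038101000), (nat_lit 0x2038101000)⟩,
    ⟨(nat_lit 65496), (nat_lit 65496), (nat_lit 65496), (nat_lit 65496)⟩,
    ⟨(nat_lit 0x204537f000), (nat_lit 0x204537f000), (nat_lit 0x204537f000), (nat_lit 0x204537f000)⟩,
    (nat_lit 65496), (nat_lit 65506)⟩) (.lf ⟨⟨(nat_lit 0x2045395000), (nat_lit 0x2045395000), (nat_lit 0x2045395000), (nat_lit 0x2045395000)⟩,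
    ⟨(nat_lit 65492), (nat_lit 65492), (nat_lit 65492), (nat_lit 65492)⟩,
    ⟨(nat_lit 0x2038113000), (nat_lit 0x2038113000), (nat_lit 0x2038113000), (nat_lit 0x2038113000)⟩,
    ⟨(nat_lit 0x204537f000), (nat_lit 0x204537f000), (nat_lit 0x204537f000), (nat_lit 0x204537f000)⟩,
    ⟨(nat_lit 65502), (nat_lit 65502), (nat_lit 65502), (nat_lit 65502)⟩,
    ⟨(nat_lit 0), (nat_lit 0), (nat_lit 0), (nat_lit 0)⟩,
    (nat_lit 65492), (nat_lit 65502)⟩)) (.nd (.lf ⟨⟨(nat_lit 0x2000000000), (nat_lit 0x2000000000), (nat_lit 0x2000000000), (nat_lit 0x2000000000)⟩,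
    ⟨(nat_lit 0x100000), (nat_lit 0x100000), (nat_lit 0x100000), (nat_lit 0x100000)⟩,
    ⟨(nat_lit 0), (nat_lit 0), (nat_lit 0), (nat_lit 0)⟩,
    ⟨(nat_lit 0x2000000000), (nat_lit 0x2000000000), (nat_lit 0x2000000000), (nat_lit 0x2000000000)⟩,
    ⟨(nat_lit 0x100000), (nat_lit 0x100000), (nat_lit 0x100000), (nat_lit 0x100000)⟩,
    ⟨(nat_lit 0x205c7f9000), (nat_lit 0x205c7f9000), (nat_lit 0x205c7f9000), (nat_lit 0x205c7f9000)⟩,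
    (nat_lit 0x100000), (nat_lit 0x100000)⟩) (.lf ⟨⟨(nat_lit 0x205c817000), (nat_lit 0x205c817000), (nat_lit 0x205c817000), (nat_lit 0x205c817000)⟩,
    ⟨(nat_lit 0x33b00), (nat_lit 0x33b00), (nat_lit 0x33b00), (nat_lit 0x33b00)⟩,
    ⟨(nat_lit 0x2000000000), (nat_lit 0x2000000000), (nat_lit 0x2000000000), (nat_lit 0x2000000000)⟩,
    ⟨(nat_lit 0x205c7f9000), (nat_lit 0x205c7f9000), (nat_lit 0x205c7f9000), (nat_lit 0x205c7f9000)⟩,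
    ⟨(nat_lit 0x33b18), (nat_lit 0x33b18), (nat_lit 0x33b18), (nat_lit 0x33b18)⟩,
    ⟨(nat_lit 0), (nat_lit 0), (nat_lit 0), (nat_lit 0)⟩,
    (nat_lit 0x33b00), (nat_lit 0x33b18)⟩)))
  nx := .nd (.nd (.lf (nat_lit 102)) (.lf (nat_lit 27))) (.nd (.lf (nat_lit 108)) (.lf (nat_lit 9)))
  mir := (nat_lit 8)

noncomputable def cx10 : CtxD where
  sd := .nd (.nd (.nd (.lf ⟨⟨(nat_lit 0x2000000000), (nat_lit 0x2000000000), (nat_lit 0x2000000000), (nat_lit 0x2000000000)⟩,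
    ⟨(nat_lit 0x21b72), (nat_lit 0x21b72), (nat_lit 0x21b72), (nat_lit 0x21b72)⟩,
    ⟨(nat_lit 0), (nat_lit 0), (nat_lit 0), (nat_lit 0)⟩,
    ⟨(nat_lit 0x2000000000), (nat_lit 0x2000000000), (nat_lit 0x2000000000), (nat_lit 0x2000000000)⟩,
    ⟨(nat_lit 0x21b70), (nat_lit 0x21b70), (nat_lit 0x21b70), (nat_lit 0x21b70)⟩,
    ⟨(nat_lit 0x2031bd6000), (nat_lit 0x2031bd6000), (nat_lit 0x2031bd6000), (nat_lit 0x2031bd6000)⟩,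
    (nat_lit 0x21b70), (nat_lit 0x21b72)⟩) (.lf ⟨⟨(nat_lit 0x2031be2000), (nat_lit 0x2031be2000), (nat_lit 0x2031be2000), (nat_lit 0x2031be2000)⟩,
    ⟨(nat_lit 0x6f013), (nat_lit 0x6f013), (nat_lit 0x6f013), (nat_lit 0x6f013)⟩,
    ⟨(nat_lit 0x2000000000), (nat_lit 0x2000000000), (nat_lit 0x2000000000), (nat_lit 0x2000000000)⟩,
    ⟨(nat_lit 0x2031bd6000), (nat_lit 0x2031bd6000), (nat_lit 0x2031bd6000), (nat_lit 0x2031bd6000)⟩,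
    ⟨(nat_lit 0x6f047), (nat_lit 0x6f047), (nat_lit 0x6f047), (nat_lit 0x6f047)⟩,
    ⟨(nat_lit 0), (nat_lit 0), (nat_lit 0), (nat_lit 0)⟩,
    (nat_lit 0x6f013), (nat_lit 0x6f047)⟩)) (.nd (.lf ⟨⟨(nat_lit 0x20a262c000), (nat_lit 0x20a262c000), (nat_lit 0x20a262c000), (nat_lit 0x20a262c000)⟩,
    ⟨(nat_lit 0x6806f), (nat_lit 0x6806f), (nat_lit 0x6806f), (nat_lit 0x6806f)⟩,
    ⟨(nat_lit 0), (nat_lit 0), (nat_lit 0), (nat_lit 0)⟩,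
    ⟨(nat_lit 0x20a2602000), (nat_lit 0x20a2602000), (nat_lit 0x20a2602000), (nat_lit 0x20a2602000)⟩,
    ⟨(nat_lit 0x68035), (nat_lit 0x68035), (nat_lit 0x68035), (nat_lit 0x68035)⟩,
    ⟨(nat_lit 0x20d28bc000), (nat_lit 0x20d28bc000), (nat_lit 0x20d28bc000), (nat_lit 0x20d28bc000)⟩,
    (nat_lit 0x68035), (nat_lit 0x6806f)⟩) (.lf ⟨⟨(nat_lit 0x20d28f8000), (nat_lit 0x20d28f8000), (nat_lit 0x20d28f8000), (nat_lit 0x20d28f8000)⟩,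
    ⟨(nat_lit 0x21b1e), (nat_lit 0x21b1e), (nat_lit 0x21b1e), (nat_lit 0x21b1e)⟩,
    ⟨(nat_lit 0x20a262c000), (nat_lit 0x20a262c000), (nat_lit 0x20a262c000), (nat_lit 0x20a262c000)⟩,
    ⟨(nat_lit 0x20d28bc000), (nat_lit 0x20d28bc000), (nat_lit 0x20d28bc000), (nat_lit 0x20d28bc000)⟩,
    ⟨(nat_lit 0x21b32), (nat_lit 0x21b32), (nat_lit 0x21b32), (nat_lit 0x21b32)⟩,
    ⟨(nat_lit 0), (nat_lit 0), (nat_lit 0), (nat_lit 0)⟩,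
    (nat_lit 0x21b1e), (nat_lit 0x21b32)⟩))) (.nd (.nd (.lf ⟨⟨(nat_lit 0x2058683000), (nat_lit 0x2058683000), (nat_lit 0x2058683000), (nat_lit 0x2058683000)⟩,
    ⟨(nat_lit 0x2b2ea), (nat_lit 0x2b2ea), (nat_lit 0x2b2ea), (nat_lit 0x2b2ea)⟩,
    ⟨(nat_lit 0), (nat_lit 0), (nat_lit 0), (nat_lit 0)⟩,
    ⟨(nat_lit 0x205866d000), (nat_lit 0x205866d000), (nat_lit 0x205866d000), (nat_lit 0x205866d000)⟩,
    ⟨(nat_lit 0x2b2d6), (nat_lit 0x2b2d6), (nat_lit 0x2b2d6), (nat_lit 0x2b2d6)⟩,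
    ⟨(nat_lit 0x207afb6000), (nat_lit 0x207afb6000), (nat_lit 0x207afb6000), (nat_lit 0x207afb6000)⟩,
    (nat_lit 0x2b2d6), (nat_lit 0x2b2ea)⟩) (.lf ⟨⟨(nat_lit 0x207afd4000), (nat_lit 0x207afd4000), (nat_lit 0x207afd4000), (nat_lit 0x207afd4000)⟩,
    ⟨(nat_lit 0x296b3), (nat_lit 0x296b3), (nat_lit 0x296b3), (nat_lit 0x296b3)⟩,
    ⟨(nat_lit 0x2058683000), (nat_lit 0x2058683000), (nat_lit 0x2058683000), (nat_lit 0x2058683000)⟩,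
    ⟨(nat_lit 0x207afb6000), (nat_lit 0x207afb6000), (nat_lit 0x207afb6000), (nat_lit 0x207afb6000)⟩,
    ⟨(nat_lit 0x296c7), (nat_lit 0x296c7), (nat_lit 0x296c7), (nat_lit 0x296c7)⟩,
    ⟨(nat_lit 0), (nat_lit 0), (nat_lit 0), (nat_lit 0)⟩,
    (nat_lit 0x296b3), (nat_lit 0x296c7)⟩)) (.nd (.lf ⟨⟨(nat_lit 0x2000000000), (nat_lit 0x2000000000), (nat_lit 0x2000000000), (nat_lit 0x2000000000)⟩,
    ⟨(nat_lit 0x100000), (nat_lit 0x100000), (nat_lit 0x100000), (nat_lit 0x100000)⟩,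
    ⟨(nat_lit 0), (nat_lit 0), (nat_lit 0), (nat_lit 0)⟩,
    ⟨(nat_lit 0x2000000000), (nat_lit 0x2000000000), (nat_lit 0x2000000000), (nat_lit 0x2000000000)⟩,
    ⟨(nat_lit 0x100000), (nat_lit 0x100000), (nat_lit 0x100000), (nat_lit 0x100000)⟩,
    ⟨(nat_lit 0x20d28bc000), (nat_lit 0x20d28bc000), (nat_lit 0x20d28bc000), (nat_lit 0x20d28bc000)⟩,
    (nat_lit 0x100000), (nat_lit 0x100000)⟩) (.lf ⟨⟨(nat_lit 0x20d28f8000), (nat_lit 0x20d28f8000), (nat_lit 0x20d28f8000), (nat_lit 0x20d28f8000)⟩,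
    ⟨(nat_lit 0xffd90), (nat_lit 0xffd90), (nat_lit 0xffd90), (nat_lit 0xffd90)⟩,
    ⟨(nat_lit 0x2000000000), (nat_lit 0x2000000000), (nat_lit 0x2000000000), (nat_lit 0x2000000000)⟩,
    ⟨(nat_lit 0x20d28bc000), (nat_lit 0x20d28bc000), (nat_lit 0x20d28bc000), (nat_lit 0x20d28bc000)⟩,
    ⟨(nat_lit 0xffe24), (nat_lit 0xffe24), (nat_lit 0xffe24), (nat_lit 0xffe24)⟩,
    ⟨(nat_lit 0), (nat_lit 0), (nat_lit 0), (nat_lit 0)⟩,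
    (nat_lit 0xffd90), (nat_lit 0xffe24)⟩)))
  nx := .nd (.nd (.lf (nat_lit 56)) (.lf (nat_lit 65))) (.nd (.lf (nat_lit 119)) (.lf (nat_lit 10)))
  mir := (nat_lit 11)

noncomputable def cx11 : CtxD where
  sd := .nd (.nd (.nd (.lf ⟨⟨(nat_lit 0x2000000000), (nat_lit 0x2000000000), (nat_lit 0x2000000000), (nat_lit 0x2000000000)⟩,
    ⟨(nat_lit 0x21b72), (nat_lit 0x21b72), (nat_lit 0x21b72), (nat_lit 0x21b72)⟩,
    ⟨(nat_lit 0), (nat_lit 0), (nat_lit 0), (nat_lit 0)⟩,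
    ⟨(nat_lit 0x2000000000), (nat_lit 0x2000000000), (nat_lit 0x2000000000), (nat_lit 0x2000000000)⟩,
    ⟨(nat_lit 0x21b70), (nat_lit 0x21b70), (nat_lit 0x21b70), (nat_lit 0x21b70)⟩,
    ⟨(nat_lit 0x2030322000), (nat_lit 0x2030322000), (nat_lit 0x2030322000), (nat_lit 0x2030322000)⟩,
    (nat_lit 0x21b70), (nat_lit 0x21b72)⟩) (.lf ⟨⟨(nat_lit 0x2030332000), (nat_lit 0x2030332000), (nat_lit 0x2030332000), (nat_lit 0x2030332000)⟩,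
    ⟨(nat_lit 0x68115), (nat_lit 0x68115), (nat_lit 0x68115), (nat_lit 0x68115)⟩,
    ⟨(nat_lit 0x2000000000), (nat_lit 0x2000000000), (nat_lit 0x2000000000), (nat_lit 0x2000000000)⟩,
    ⟨(nat_lit 0x2030322000), (nat_lit 0x2030322000), (nat_lit 0x2030322000), (nat_lit 0x2030322000)⟩,
    ⟨(nat_lit 0x6814d), (nat_lit 0x6814d), (nat_lit 0x6814d), (nat_lit 0x6814d)⟩,
    ⟨(nat_lit 0), (nat_lit 0), (nat_lit 0), (nat_lit 0)⟩,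
    (nat_lit 0x68115), (nat_lit 0x6814d)⟩)) (.nd (.lf ⟨⟨(nat_lit 0x20a0e71000), (nat_lit 0x20a0e71000), (nat_lit 0x20a0e71000), (nat_lit 0x20a0e71000)⟩,
    ⟨(nat_lit 0x6f13d), (nat_lit 0x6f13d), (nat_lit 0x6f13d), (nat_lit 0x6f13d)⟩,
    ⟨(nat_lit 0), (nat_lit 0), (nat_lit 0), (nat_lit 0)⟩,
    ⟨(nat_lit 0x20a0e3d000), (nat_lit 0x20a0e3d000), (nat_lit 0x20a0e3d000), (nat_lit 0x20a0e3d000)⟩,
    ⟨(nat_lit 0x6f0fb), (nat_lit 0x6f0fb), (nat_lit 0x6f0fb), (nat_lit 0x6f0fb)⟩,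
    ⟨(nat_lit 0x20d2a7b000), (nat_lit 0x20d2a7b000), (nat_lit 0x20d2a7b000), (nat_lit 0x20d2a7b000)⟩,
    (nat_lit 0x6f0fb), (nat_lit 0x6f13d)⟩) (.lf ⟨⟨(nat_lit 0x20d2ac1000), (nat_lit 0x20d2ac1000), (nat_lit 0x20d2ac1000), (nat_lit 0x20d2ac1000)⟩,
    ⟨(nat_lit 0x21baf), (nat_lit 0x21baf), (nat_lit 0x21baf), (nat_lit 0x21baf)⟩,
    ⟨(nat_lit 0x20a0e71000), (nat_lit 0x20a0e71000), (nat_lit 0x20a0e71000), (nat_lit 0x20a0e71000)⟩,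
    ⟨(nat_lit 0x20d2a7b000), (nat_lit 0x20d2a7b000), (nat_lit 0x20d2a7b000), (nat_lit 0x20d2a7b000)⟩,
    ⟨(nat_lit 0x21bc3), (nat_lit 0x21bc3), (nat_lit 0x21bc3), (nat_lit 0x21bc3)⟩,
    ⟨(nat_lit 0), (nat_lit 0), (nat_lit 0), (nat_lit 0)⟩,
    (nat_lit 0x21baf), (nat_lit 0x21bc3)⟩))) (.nd (.nd (.lf ⟨⟨(nat_lit 0x20579de000), (nat_lit 0x20579de000), (nat_lit 0x20579de000), (nat_lit 0x20579de000)⟩,
    ⟨(nat_lit 0x29721), (nat_lit 0x29721), (nat_lit 0x29721), (nat_lit 0x29721)⟩,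
    ⟨(nat_lit 0), (nat_lit 0), (nat_lit 0), (nat_lit 0)⟩,
    ⟨(nat_lit 0x20579c4000), (nat_lit 0x20579c4000), (nat_lit 0x20579c4000), (nat_lit 0x20579c4000)⟩,
    ⟨(nat_lit 0x2970b), (nat_lit 0x2970b), (nat_lit 0x2970b), (nat_lit 0x2970b)⟩,
    ⟨(nat_lit 0x207a356000), (nat_lit 0x207a356000), (nat_lit 0x207a356000), (nat_lit 0x207a356000)⟩,
    (nat_lit 0x2970b), (nat_lit 0x29721)⟩) (.lf ⟨⟨(nat_lit 0x207a37c000), (nat_lit 0x207a37c000), (nat_lit 0x207a37c000), (nat_lit 0x207a37c000)⟩,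
    ⟨(nat_lit 0x2b331), (nat_lit 0x2b331), (nat_lit 0x2b331), (nat_lit 0x2b331)⟩,
    ⟨(nat_lit 0x20579de000), (nat_lit 0x20579de000), (nat_lit 0x20579de000), (nat_lit 0x20579de000)⟩,
    ⟨(nat_lit 0x207a356000), (nat_lit 0x207a356000), (nat_lit 0x207a356000), (nat_lit 0x207a356000)⟩,
    ⟨(nat_lit 0x2b349), (nat_lit 0x2b349), (nat_lit 0x2b349), (nat_lit 0x2b349)⟩,
    ⟨(nat_lit 0), (nat_lit 0), (nat_lit 0), (nat_lit 0)⟩,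
    (nat_lit 0x2b331), (nat_lit 0x2b349)⟩)) (.nd (.lf ⟨⟨(nat_lit 0x2000000000), (nat_lit 0x2000000000), (nat_lit 0x2000000000), (nat_lit 0x2000000000)⟩,
    ⟨(nat_lit 0x100000), (nat_lit 0x100000), (nat_lit 0x100000), (nat_lit 0x100000)⟩,
    ⟨(nat_lit 0), (nat_lit 0), (nat_lit 0), (nat_lit 0)⟩,
    ⟨(nat_lit 0x2000000000), (nat_lit 0x2000000000), (nat_lit 0x2000000000), (nat_lit 0x2000000000)⟩,
    ⟨(nat_lit 0x100000), (nat_lit 0x100000), (nat_lit 0x100000), (nat_lit 0x100000)⟩,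
    ⟨(nat_lit 0x20d2a7b000), (nat_lit 0x20d2a7b000), (nat_lit 0x20d2a7b000), (nat_lit 0x20d2a7b000)⟩,
    (nat_lit 0x100000), (nat_lit 0x100000)⟩) (.lf ⟨⟨(nat_lit 0x20d2ac1000), (nat_lit 0x20d2ac1000), (nat_lit 0x20d2ac1000), (nat_lit 0x20d2ac1000)⟩,
    ⟨(nat_lit 0x1001dc), (nat_lit 0x1001dc), (nat_lit 0x1001dc), (nat_lit 0x1001dc)⟩,
    ⟨(nat_lit 0x2000000000), (nat_lit 0x2000000000), (nat_lit 0x2000000000), (nat_lit 0x2000000000)⟩,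
    ⟨(nat_lit 0x20d2a7b000), (nat_lit 0x20d2a7b000), (nat_lit 0x20d2a7b000), (nat_lit 0x20d2a7b000)⟩,
    ⟨(nat_lit 0x100270), (nat_lit 0x100270), (nat_lit 0x100270), (nat_lit 0x100270)⟩,
    ⟨(nat_lit 0), (nat_lit 0), (nat_lit 0), (nat_lit 0)⟩,
    (nat_lit 0x1001dc), (nat_lit 0x100270)⟩)))
  nx := .nd (.nd (.lf (nat_lit 64)) (.lf (nat_lit 57))) (.nd (.lf (nat_lit 118)) (.lf (nat_lit 11)))
  mir := (nat_lit 10)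

noncomputable def cx12 : CtxD where
  sd := .nd (.nd (.nd (.lf ⟨⟨(nat_lit 0x2000000000), (nat_lit 0x2000000000), (nat_lit 0x2000000000), (nat_lit 0x2000000000)⟩,
    ⟨(nat_lit 0x21b72), (nat_lit 0x21b72), (nat_lit 0x21b72), (nat_lit 0x21b72)⟩,
    ⟨(nat_lit 0), (nat_lit 0), (nat_lit 0), (nat_lit 0)⟩,
    ⟨(nat_lit 0x2000000000), (nat_lit 0x2000000000), (nat_lit 0x2000000000), (nat_lit 0x2000000000)⟩,
    ⟨(nat_lit 0x21b70), (nat_lit 0x21b70), (nat_lit 0x21b70), (nat_lit 0x21b70)⟩,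
    ⟨(nat_lit 0x20355ac000), (nat_lit 0x20355ac000), (nat_lit 0x20355ac000), (nat_lit 0x20355ac000)⟩,
    (nat_lit 0x21b70), (nat_lit 0x21b72)⟩) (.lf ⟨⟨(nat_lit 0x20355b8000), (nat_lit 0x20355b8000), (nat_lit 0x20355b8000), (nat_lit 0x20355b8000)⟩,
    ⟨(nat_lit 0x80c09), (nat_lit 0x80c09), (nat_lit 0x80c09), (nat_lit 0x80c09)⟩,
    ⟨(nat_lit 0x2000000000), (nat_lit 0x2000000000), (nat_lit 0x2000000000), (nat_lit 0x2000000000)⟩,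
    ⟨(nat_lit 0x20355ac000), (nat_lit 0x20355ac000), (nat_lit 0x20355ac000), (nat_lit 0x20355ac000)⟩,
    ⟨(nat_lit 0x80c3f), (nat_lit 0x80c3f), (nat_lit 0x80c3f), (nat_lit 0x80c3f)⟩,
    ⟨(nat_lit 0), (nat_lit 0), (nat_lit 0), (nat_lit 0)⟩,
    (nat_lit 0x80c09), (nat_lit 0x80c3f)⟩)) (.nd (.lf ⟨⟨(nat_lit 0x20bf4d0000), (nat_lit 0x20bf4d0000), (nat_lit 0x20bf4d0000), (nat_lit 0x20bf4d0000)⟩,
    ⟨(nat_lit 0x83c6f), (nat_lit 0x83c6f), (nat_lit 0x83c6f), (nat_lit 0x83c6f)⟩,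
    ⟨(nat_lit 0), (nat_lit 0), (nat_lit 0), (nat_lit 0)⟩,
    ⟨(nat_lit 0x20bf49e000), (nat_lit 0x20bf49e000), (nat_lit 0x20bf49e000), (nat_lit 0x20bf49e000)⟩,
    ⟨(nat_lit 0x83c23), (nat_lit 0x83c23), (nat_lit 0x83c23), (nat_lit 0x83c23)⟩,
    ⟨(nat_lit 0x2103128000), (nat_lit 0x2103128000), (nat_lit 0x2103128000), (nat_lit 0x2103128000)⟩,
    (nat_lit 0x83c23), (nat_lit 0x83c6f)⟩) (.lf ⟨⟨(nat_lit 0x2103178000), (nat_lit 0x2103178000), (nat_lit 0x2103178000), (nat_lit 0x2103178000)⟩,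
    ⟨(nat_lit 0x354ec), (nat_lit 0x354ec), (nat_lit 0x354ec), (nat_lit 0x354ec)⟩,
    ⟨(nat_lit 0x20bf4d0000), (nat_lit 0x20bf4d0000), (nat_lit 0x20bf4d0000), (nat_lit 0x20bf4d0000)⟩,
    ⟨(nat_lit 0x2103128000), (nat_lit 0x2103128000), (nat_lit 0x2103128000), (nat_lit 0x2103128000)⟩,
    ⟨(nat_lit 0x35510), (nat_lit 0x35510), (nat_lit 0x35510), (nat_lit 0x35510)⟩,
    ⟨(nat_lit 0), (nat_lit 0), (nat_lit 0), (nat_lit 0)⟩,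
    (nat_lit 0x354ec), (nat_lit 0x35510)⟩))) (.nd (.nd (.lf ⟨⟨(nat_lit 0x2060283000), (nat_lit 0x2060283000), (nat_lit 0x2060283000), (nat_lit 0x2060283000)⟩,
    ⟨(nat_lit 0x34c12), (nat_lit 0x34c12), (nat_lit 0x34c12), (nat_lit 0x34c12)⟩,
    ⟨(nat_lit 0), (nat_lit 0), (nat_lit 0), (nat_lit 0)⟩,
    ⟨(nat_lit 0x206026d000), (nat_lit 0x206026d000), (nat_lit 0x206026d000), (nat_lit 0x206026d000)⟩,
    ⟨(nat_lit 0x34bfa), (nat_lit 0x34bfa), (nat_lit 0x34bfa), (nat_lit 0x34bfa)⟩,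
    ⟨(nat_lit 0x2089fcc000), (nat_lit 0x2089fcc000), (nat_lit 0x2089fcc000), (nat_lit 0x2089fcc000)⟩,
    (nat_lit 0x34bfa), (nat_lit 0x34c12)⟩) (.lf ⟨⟨(nat_lit 0x2089fec000), (nat_lit 0x2089fec000), (nat_lit 0x2089fec000), (nat_lit 0x2089fec000)⟩,
    ⟨(nat_lit 0x316f1), (nat_lit 0x316f1), (nat_lit 0x316f1), (nat_lit 0x316f1)⟩,
    ⟨(nat_lit 0x2060283000), (nat_lit 0x2060283000), (nat_lit 0x2060283000), (nat_lit 0x2060283000)⟩,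
    ⟨(nat_lit 0x2089fcc000), (nat_lit 0x2089fcc000), (nat_lit 0x2089fcc000), (nat_lit 0x2089fcc000)⟩,
    ⟨(nat_lit 0x31709), (nat_lit 0x31709), (nat_lit 0x31709), (nat_lit 0x31709)⟩,
    ⟨(nat_lit 0), (nat_lit 0), (nat_lit 0), (nat_lit 0)⟩,
    (nat_lit 0x316f1), (nat_lit 0x31709)⟩)) (.nd (.lf ⟨⟨(nat_lit 0x2000000000), (nat_lit 0x2000000000), (nat_lit 0x2000000000), (nat_lit 0x2000000000)⟩,
    ⟨(nat_lit 0x100000), (nat_lit 0x100000), (nat_lit 0x100000), (nat_lit 0x100000)⟩,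
    ⟨(nat_lit 0), (nat_lit 0), (nat_lit 0), (nat_lit 0)⟩,
    ⟨(nat_lit 0x2000000000), (nat_lit 0x2000000000), (nat_lit 0x2000000000), (nat_lit 0x2000000000)⟩,
    ⟨(nat_lit 0x100000), (nat_lit 0x100000), (nat_lit 0x100000), (nat_lit 0x100000)⟩,
    ⟨(nat_lit 0x2103128000), (nat_lit 0x2103128000), (nat_lit 0x2103128000), (nat_lit 0x2103128000)⟩,
    (nat_lit 0x100000), (nat_lit 0x100000)⟩) (.lf ⟨⟨(nat_lit 0x2103178000), (nat_lit 0x2103178000), (nat_lit 0x2103178000), (nat_lit 0x2103178000)⟩,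
    ⟨(nat_lit 0x194c4a), (nat_lit 0x194c4a), (nat_lit 0x194c4a), (nat_lit 0x194c4a)⟩,
    ⟨(nat_lit 0x2000000000), (nat_lit 0x2000000000), (nat_lit 0x2000000000), (nat_lit 0x2000000000)⟩,
    ⟨(nat_lit 0x2103128000), (nat_lit 0x2103128000), (nat_lit 0x2103128000), (nat_lit 0x2103128000)⟩,
    ⟨(nat_lit 0x194d5c), (nat_lit 0x194d5c), (nat_lit 0x194d5c), (nat_lit 0x194d5c)⟩,
    ⟨(nat_lit 0), (nat_lit 0), (nat_lit 0), (nat_lit 0)⟩,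
    (nat_lit 0x194c4a), (nat_lit 0x194d5c)⟩)))
  nx := .nd (.nd (.lf (nat_lit 54)) (.lf (nat_lit 67))) (.nd (.lf (nat_lit 117)) (.lf (nat_lit 12)))
  mir := (nat_lit 13)

noncomputable def cx13 : CtxD where
  sd := .nd (.nd (.nd (.lf ⟨⟨(nat_lit 0x2000000000), (nat_lit 0x2000000000), (nat_lit 0x2000000000), (nat_lit 0x2000000000)⟩,
    ⟨(nat_lit 0x21b72), (nat_lit 0x21b72), (nat_lit 0x21b72), (nat_lit 0x21b72)⟩,
    ⟨(nat_lit 0), (nat_lit 0), (nat_lit 0), (nat_lit 0)⟩,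
    ⟨(nat_lit 0x2000000000), (nat_lit 0x2000000000), (nat_lit 0x2000000000), (nat_lit 0x2000000000)⟩,
    ⟨(nat_lit 0x21b70), (nat_lit 0x21b70), (nat_lit 0x21b70), (nat_lit 0x21b70)⟩,
    ⟨(nat_lit 0x202ade2000), (nat_lit 0x202ade2000), (nat_lit 0x202ade2000), (nat_lit 0x202ade2000)⟩,
    (nat_lit 0x21b70), (nat_lit 0x21b72)⟩) (.lf ⟨⟨(nat_lit 0x202adf0000), (nat_lit 0x202adf0000), (nat_lit 0x202adf0000), (nat_lit 0x202adf0000)⟩,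
    ⟨(nat_lit 0x53534), (nat_lit 0x53534), (nat_lit 0x53534), (nat_lit 0x53534)⟩,
    ⟨(nat_lit 0x2000000000), (nat_lit 0x2000000000), (nat_lit 0x2000000000), (nat_lit 0x2000000000)⟩,
    ⟨(nat_lit 0x202ade2000), (nat_lit 0x202ade2000), (nat_lit 0x202ade2000), (nat_lit 0x202ade2000)⟩,
    ⟨(nat_lit 0x53564), (nat_lit 0x53564), (nat_lit 0x53564), (nat_lit 0x53564)⟩,
    ⟨(nat_lit 0), (nat_lit 0), (nat_lit 0), (nat_lit 0)⟩,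
    (nat_lit 0x53534), (nat_lit 0x53564)⟩)) (.nd (.lf ⟨⟨(nat_lit 0x20821bf000), (nat_lit 0x20821bf000), (nat_lit 0x20821bf000), (nat_lit 0x20821bf000)⟩,
    ⟨(nat_lit 0x516f7), (nat_lit 0x516f7), (nat_lit 0x516f7), (nat_lit 0x516f7)⟩,
    ⟨(nat_lit 0), (nat_lit 0), (nat_lit 0), (nat_lit 0)⟩,
    ⟨(nat_lit 0x208218d000), (nat_lit 0x208218d000), (nat_lit 0x208218d000), (nat_lit 0x208218d000)⟩,
    ⟨(nat_lit 0x516bd), (nat_lit 0x516bd), (nat_lit 0x516bd), (nat_lit 0x516bd)⟩,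
    ⟨(nat_lit 0x20a3d66000), (nat_lit 0x20a3d66000), (nat_lit 0x20a3d66000), (nat_lit 0x20a3d66000)⟩,
    (nat_lit 0x516bd), (nat_lit 0x516f7)⟩) (.lf ⟨⟨(nat_lit 0x20a3daa000), (nat_lit 0x20a3daa000), (nat_lit 0x20a3daa000), (nat_lit 0x20a3daa000)⟩,
    ⟨(nat_lit 0x1551d), (nat_lit 0x1551d), (nat_lit 0x1551d), (nat_lit 0x1551d)⟩,
    ⟨(nat_lit 0x20821bf000), (nat_lit 0x20821bf000), (nat_lit 0x20821bf000), (nat_lit 0x20821bf000)⟩,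
    ⟨(nat_lit 0x20a3d66000), (nat_lit 0x20a3d66000), (nat_lit 0x20a3d66000), (nat_lit 0x20a3d66000)⟩,
    ⟨(nat_lit 0x1552d), (nat_lit 0x1552d), (nat_lit 0x1552d), (nat_lit 0x1552d)⟩,
    ⟨(nat_lit 0), (nat_lit 0), (nat_lit 0), (nat_lit 0)⟩,
    (nat_lit 0x1551d), (nat_lit 0x1552d)⟩))) (.nd (.nd (.lf ⟨⟨(nat_lit 0x204c950000), (nat_lit 0x204c950000), (nat_lit 0x204c950000), (nat_lit 0x204c950000)⟩,
    ⟨(nat_lit 0x1f443), (nat_lit 0x1f443), (nat_lit 0x1f443), (nat_lit 0x1f443)⟩,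
    ⟨(nat_lit 0), (nat_lit 0), (nat_lit 0), (nat_lit 0)⟩,
    ⟨(nat_lit 0x204c936000), (nat_lit 0x204c936000), (nat_lit 0x204c936000), (nat_lit 0x204c936000)⟩,
    ⟨(nat_lit 0x1f431), (nat_lit 0x1f431), (nat_lit 0x1f431), (nat_lit 0x1f431)⟩,
    ⟨(nat_lit 0x2067084000), (nat_lit 0x2067084000), (nat_lit 0x2067084000), (nat_lit 0x2067084000)⟩,
    (nat_lit 0x1f431), (nat_lit 0x1f443)⟩) (.lf ⟨⟨(nat_lit 0x20670aa000), (nat_lit 0x20670aa000), (nat_lit 0x20670aa000), (nat_lit 0x20670aa000)⟩,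
    ⟨(nat_lit 0x215ba), (nat_lit 0x215ba), (nat_lit 0x215ba), (nat_lit 0x215ba)⟩,
    ⟨(nat_lit 0x204c950000), (nat_lit 0x204c950000), (nat_lit 0x204c950000), (nat_lit 0x204c950000)⟩,
    ⟨(nat_lit 0x2067084000), (nat_lit 0x2067084000), (nat_lit 0x2067084000), (nat_lit 0x2067084000)⟩,
    ⟨(nat_lit 0x215d0), (nat_lit 0x215d0), (nat_lit 0x215d0), (nat_lit 0x215d0)⟩,
    ⟨(nat_lit 0), (nat_lit 0), (nat_lit 0), (nat_lit 0)⟩,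
    (nat_lit 0x215ba), (nat_lit 0x215d0)⟩)) (.nd (.lf ⟨⟨(nat_lit 0x2000000000), (nat_lit 0x2000000000), (nat_lit 0x2000000000), (nat_lit 0x2000000000)⟩,
    ⟨(nat_lit 0x100000), (nat_lit 0x100000), (nat_lit 0x100000), (nat_lit 0x100000)⟩,
    ⟨(nat_lit 0), (nat_lit 0), (nat_lit 0), (nat_lit 0)⟩,
    ⟨(nat_lit 0x2000000000), (nat_lit 0x2000000000), (nat_lit 0x2000000000), (nat_lit 0x2000000000)⟩,
    ⟨(nat_lit 0x100000), (nat_lit 0x100000), (nat_lit 0x100000), (nat_lit 0x100000)⟩,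
    ⟨(nat_lit 0x20a3d66000), (nat_lit 0x20a3d66000), (nat_lit 0x20a3d66000), (nat_lit 0x20a3d66000)⟩,
    (nat_lit 0x100000), (nat_lit 0x100000)⟩) (.lf ⟨⟨(nat_lit 0x20a3daa000), (nat_lit 0x20a3daa000), (nat_lit 0x20a3daa000), (nat_lit 0x20a3daa000)⟩,
    ⟨(nat_lit 0xa1e21), (nat_lit 0xa1e21), (nat_lit 0xa1e21), (nat_lit 0xa1e21)⟩,
    ⟨(nat_lit 0x2000000000), (nat_lit 0x2000000000), (nat_lit 0x2000000000), (nat_lit 0x2000000000)⟩,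
    ⟨(nat_lit 0x20a3d66000), (nat_lit 0x20a3d66000), (nat_lit 0x20a3d66000), (nat_lit 0x20a3d66000)⟩,
    ⟨(nat_lit 0xa1e8f), (nat_lit 0xa1e8f), (nat_lit 0xa1e8f), (nat_lit 0xa1e8f)⟩,
    ⟨(nat_lit 0), (nat_lit 0), (nat_lit 0), (nat_lit 0)⟩,
    (nat_lit 0xa1e21), (nat_lit 0xa1e8f)⟩)))
  nx := .nd (.nd (.lf (nat_lit 66)) (.lf (nat_lit 55))) (.nd (.lf (nat_lit 116)) (.lf (nat_lit 13)))
  mir := (nat_lit 12)

noncomputable def cx14 : CtxD where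
  sd := .nd (.nd (.nd (.lf ⟨⟨(nat_lit 0x2000000000), (nat_lit 0x2000000000), (nat_lit 0x2000000000), (nat_lit 0x2000000000)⟩,
    ⟨(nat_lit 0x21b72), (nat_lit 0x21b72), (nat_lit 0x21b72), (nat_lit 0x21b72)⟩,
    ⟨(nat_lit 0), (nat_lit 0), (nat_lit 0), (nat_lit 0)⟩,
    ⟨(nat_lit 0x2000000000), (nat_lit 0x2000000000), (nat_lit 0x2000000000), (nat_lit 0x2000000000)⟩,
    ⟨(nat_lit 0x21b70), (nat_lit 0x21b70), (nat_lit 0x21b70), (nat_lit 0x21b70)⟩,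
    ⟨(nat_lit 0x203a058000), (nat_lit 0x203a058000), (nat_lit 0x203a058000), (nat_lit 0x203a058000)⟩,
    (nat_lit 0x21b70), (nat_lit 0x21b72)⟩) (.lf ⟨⟨(nat_lit 0x203a062000), (nat_lit 0x203a062000), (nat_lit 0x203a062000), (nat_lit 0x203a062000)⟩,
    ⟨(nat_lit 0x99371), (nat_lit 0x99371), (nat_lit 0x99371), (nat_lit 0x99371)⟩,
    ⟨(nat_lit 0x2000000000), (nat_lit 0x2000000000), (nat_lit 0x2000000000), (nat_lit 0x2000000000)⟩,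
    ⟨(nat_lit 0x203a058000), (nat_lit 0x203a058000), (nat_lit 0x203a058000), (nat_lit 0x203a058000)⟩,
    ⟨(nat_lit 0x993ad), (nat_lit 0x993ad), (nat_lit 0x993ad), (nat_lit 0x993ad)⟩,
    ⟨(nat_lit 0), (nat_lit 0), (nat_lit 0), (nat_lit 0)⟩,
    (nat_lit 0x99371), (nat_lit 0x993ad)⟩)) (.nd (.lf ⟨⟨(nat_lit 0x20f877f000), (nat_lit 0x20f877f000), (nat_lit 0x20f877f000), (nat_lit 0x20f877f000)⟩,
    ⟨(nat_lit 0xcbfca), (nat_lit 0xcbfca), (nat_lit 0xcbfca), (nat_lit 0xcbfca)⟩,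
    ⟨(nat_lit 0), (nat_lit 0), (nat_lit 0), (nat_lit 0)⟩,
    ⟨(nat_lit 0x20f8747000), (nat_lit 0x20f8747000), (nat_lit 0x20f8747000), (nat_lit 0x20f8747000)⟩,
    ⟨(nat_lit 0xcbf66), (nat_lit 0xcbf66), (nat_lit 0xcbf66), (nat_lit 0xcbf66)⟩,
    ⟨(nat_lit 0x216e3f7000), (nat_lit 0x216e3f7000), (nat_lit 0x216e3f7000), (nat_lit 0x216e3f7000)⟩,
    (nat_lit 0xcbf66), (nat_lit 0xcbfca)⟩) (.lf ⟨⟨(nat_lit 0x216e45b000), (nat_lit 0x216e45b000), (nat_lit 0x216e45b000), (nat_lit 0x216e45b000)⟩,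
    ⟨(nat_lit 0x683ce), (nat_lit 0x683ce), (nat_lit 0x683ce), (nat_lit 0x683ce)⟩,
    ⟨(nat_lit 0x20f877f000), (nat_lit 0x20f877f000), (nat_lit 0x20f877f000), (nat_lit 0x20f877f000)⟩,
    ⟨(nat_lit 0x216e3f7000), (nat_lit 0x216e3f7000), (nat_lit 0x216e3f7000), (nat_lit 0x216e3f7000)⟩,
    ⟨(nat_lit 0x68410), (nat_lit 0x68410), (nat_lit 0x68410), (nat_lit 0x68410)⟩,
    ⟨(nat_lit 0), (nat_lit 0), (nat_lit 0), (nat_lit 0)⟩,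
    (nat_lit 0x683ce), (nat_lit 0x68410)⟩))) (.nd (.nd (.lf ⟨⟨(nat_lit 0x206cf5e000), (nat_lit 0x206cf5e000), (nat_lit 0x206cf5e000), (nat_lit 0x206cf5e000)⟩,
    ⟨(nat_lit 0x451e6), (nat_lit 0x451e6), (nat_lit 0x451e6), (nat_lit 0x451e6)⟩,
    ⟨(nat_lit 0), (nat_lit 0), (nat_lit 0), (nat_lit 0)⟩,
    ⟨(nat_lit 0x206cf4a000), (nat_lit 0x206cf4a000), (nat_lit 0x206cf4a000), (nat_lit 0x206cf4a000)⟩,
    ⟨(nat_lit 0x451c8), (nat_lit 0x451c8), (nat_lit 0x451c8), (nat_lit 0x451c8)⟩,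
    ⟨(nat_lit 0x20a525b000), (nat_lit 0x20a525b000), (nat_lit 0x20a525b000), (nat_lit 0x20a525b000)⟩,
    (nat_lit 0x451c8), (nat_lit 0x451e6)⟩) (.lf ⟨⟨(nat_lit 0x20a527b000), (nat_lit 0x20a527b000), (nat_lit 0x20a527b000), (nat_lit 0x20a527b000)⟩,
    ⟨(nat_lit 0x43c88), (nat_lit 0x43c88), (nat_lit 0x43c88), (nat_lit 0x43c88)⟩,
    ⟨(nat_lit 0x206cf5e000), (nat_lit 0x206cf5e000), (nat_lit 0x206cf5e000), (nat_lit 0x206cf5e000)⟩,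
    ⟨(nat_lit 0x20a525b000), (nat_lit 0x20a525b000), (nat_lit 0x20a525b000), (nat_lit 0x20a525b000)⟩,
    ⟨(nat_lit 0x43ca6), (nat_lit 0x43ca6), (nat_lit 0x43ca6), (nat_lit 0x43ca6)⟩,
    ⟨(nat_lit 0), (nat_lit 0), (nat_lit 0), (nat_lit 0)⟩,
    (nat_lit 0x43c88), (nat_lit 0x43ca6)⟩)) (.nd (.lf ⟨⟨(nat_lit 0x2000000000), (nat_lit 0x2000000000), (nat_lit 0x2000000000), (nat_lit 0x2000000000)⟩,
    ⟨(nat_lit 0x100000), (nat_lit 0x100000), (nat_lit 0x100000), (nat_lit 0x100000)⟩,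
    ⟨(nat_lit 0), (nat_lit 0), (nat_lit 0), (nat_lit 0)⟩,
    ⟨(nat_lit 0x2000000000), (nat_lit 0x2000000000), (nat_lit 0x2000000000), (nat_lit 0x2000000000)⟩,
    ⟨(nat_lit 0x100000), (nat_lit 0x100000), (nat_lit 0x100000), (nat_lit 0x100000)⟩,
    ⟨(nat_lit 0x216e3f7000), (nat_lit 0x216e3f7000), (nat_lit 0x216e3f7000), (nat_lit 0x216e3f7000)⟩,
    (nat_lit 0x100000), (nat_lit 0x100000)⟩) (.lf ⟨⟨(nat_lit 0x216e45b000), (nat_lit 0x216e45b000), (nat_lit 0x216e45b000), (nat_lit 0x216e45b000)⟩,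
    ⟨(nat_lit 0x3177c0), (nat_lit 0x3177c0), (nat_lit 0x3177c0), (nat_lit 0x3177c0)⟩,
    ⟨(nat_lit 0x2000000000), (nat_lit 0x2000000000), (nat_lit 0x2000000000), (nat_lit 0x2000000000)⟩,
    ⟨(nat_lit 0x216e3f7000), (nat_lit 0x216e3f7000), (nat_lit 0x216e3f7000), (nat_lit 0x216e3f7000)⟩,
    ⟨(nat_lit 0x3179b0), (nat_lit 0x3179b0), (nat_lit 0x3179b0), (nat_lit 0x3179b0)⟩,
    ⟨(nat_lit 0), (nat_lit 0), (nat_lit 0), (nat_lit 0)⟩,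
    (nat_lit 0x3177c0), (nat_lit 0x3179b0)⟩)))
  nx := .nd (.nd (.lf (nat_lit 36)) (.lf (nat_lit 85))) (.nd (.lf (nat_lit 111)) (.lf (nat_lit 14)))
  mir := (nat_lit 15)

noncomputable def cx15 : CtxD where
  sd := .nd (.nd (.nd (.lf ⟨⟨(nat_lit 0x2000000000), (nat_lit 0x2000000000), (nat_lit 0x2000000000), (nat_lit 0x2000000000)⟩,
    ⟨(nat_lit 0x21b72), (nat_lit 0x21b72), (nat_lit 0x21b72), (nat_lit 0x21b72)⟩,
    ⟨(nat_lit 0), (nat_lit 0), (nat_lit 0), (nat_lit 0)⟩,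
    ⟨(nat_lit 0x2000000000), (nat_lit 0x2000000000), (nat_lit 0x2000000000), (nat_lit 0x2000000000)⟩,
    ⟨(nat_lit 0x21b70), (nat_lit 0x21b70), (nat_lit 0x21b70), (nat_lit 0x21b70)⟩,
    ⟨(nat_lit 0x202618b000), (nat_lit 0x202618b000), (nat_lit 0x202618b000), (nat_lit 0x202618b000)⟩,
    (nat_lit 0x21b70), (nat_lit 0x21b72)⟩) (.lf ⟨⟨(nat_lit 0x2026199000), (nat_lit 0x2026199000), (nat_lit 0x2026199000), (nat_lit 0x2026199000)⟩,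
    ⟨(nat_lit 0x41f6f), (nat_lit 0x41f6f), (nat_lit 0x41f6f), (nat_lit 0x41f6f)⟩,
    ⟨(nat_lit 0x2000000000), (nat_lit 0x2000000000), (nat_lit 0x2000000000), (nat_lit 0x2000000000)⟩,
    ⟨(nat_lit 0x202618b000), (nat_lit 0x202618b000), (nat_lit 0x202618b000), (nat_lit 0x202618b000)⟩,
    ⟨(nat_lit 0x41f93), (nat_lit 0x41f93), (nat_lit 0x41f93), (nat_lit 0x41f93)⟩,
    ⟨(nat_lit 0), (nat_lit 0), (nat_lit 0), (nat_lit 0)⟩,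
    (nat_lit 0x41f6f), (nat_lit 0x41f93)⟩)) (.nd (.lf ⟨⟨(nat_lit 0x2063b1d000), (nat_lit 0x2063b1d000), (nat_lit 0x2063b1d000), (nat_lit 0x2063b1d000)⟩,
    ⟨(nat_lit 0x318f3), (nat_lit 0x318f3), (nat_lit 0x318f3), (nat_lit 0x318f3)⟩,
    ⟨(nat_lit 0), (nat_lit 0), (nat_lit 0), (nat_lit 0)⟩,
    ⟨(nat_lit 0x2063af5000), (nat_lit 0x2063af5000), (nat_lit 0x2063af5000), (nat_lit 0x2063af5000)⟩,
    ⟨(nat_lit 0x318cf), (nat_lit 0x318cf), (nat_lit 0x318cf), (nat_lit 0x318cf)⟩,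
    ⟨(nat_lit 0x2076730000), (nat_lit 0x2076730000), (nat_lit 0x2076730000), (nat_lit 0x2076730000)⟩,
    (nat_lit 0x318cf), (nat_lit 0x318f3)⟩) (.lf ⟨⟨(nat_lit 0x2076760000), (nat_lit 0x2076760000), (nat_lit 0x2076760000), (nat_lit 0x2076760000)⟩,
    ⟨(nat_lit 44659), (nat_lit 44659), (nat_lit 44659), (nat_lit 44659)⟩,
    ⟨(nat_lit 0x2063b1d000), (nat_lit 0x2063b1d000), (nat_lit 0x2063b1d000), (nat_lit 0x2063b1d000)⟩,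
    ⟨(nat_lit 0x2076730000), (nat_lit 0x2076730000), (nat_lit 0x2076730000), (nat_lit 0x2076730000)⟩,
    ⟨(nat_lit 44667), (nat_lit 44667), (nat_lit 44667), (nat_lit 44667)⟩,
    ⟨(nat_lit 0), (nat_lit 0), (nat_lit 0), (nat_lit 0)⟩,
    (nat_lit 44659), (nat_lit 44667)⟩))) (.nd (.nd (.lf ⟨⟨(nat_lit 0x20410b9000), (nat_lit 0x20410b9000), (nat_lit 0x20410b9000), (nat_lit 0x20410b9000)⟩,
    ⟨(nat_lit 0x15ece), (nat_lit 0x15ece), (nat_lit 0x15ece), (nat_lit 0x15ece)⟩,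
    ⟨(nat_lit 0), (nat_lit 0), (nat_lit 0), (nat_lit 0)⟩,
    ⟨(nat_lit 0x20410a1000), (nat_lit 0x20410a1000), (nat_lit 0x20410a1000), (nat_lit 0x20410a1000)⟩,
    ⟨(nat_lit 0x15ec0), (nat_lit 0x15ec0), (nat_lit 0x15ec0), (nat_lit 0x15ec0)⟩,
    ⟨(nat_lit 0x2053365000), (nat_lit 0x2053365000), (nat_lit 0x2053365000), (nat_lit 0x2053365000)⟩,
    (nat_lit 0x15ec0), (nat_lit 0x15ece)⟩) (.lf ⟨⟨(nat_lit 0x2053385000), (nat_lit 0x2053385000), (nat_lit 0x2053385000), (nat_lit 0x2053385000)⟩,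
    ⟨(nat_lit 0x1659e), (nat_lit 0x1659e), (nat_lit 0x1659e), (nat_lit 0x1659e)⟩,
    ⟨(nat_lit 0x20410b9000), (nat_lit 0x20410b9000), (nat_lit 0x20410b9000), (nat_lit 0x20410b9000)⟩,
    ⟨(nat_lit 0x2053365000), (nat_lit 0x2053365000), (nat_lit 0x2053365000), (nat_lit 0x2053365000)⟩,
    ⟨(nat_lit 0x165ae), (nat_lit 0x165ae), (nat_lit 0x165ae), (nat_lit 0x165ae)⟩,
    ⟨(nat_lit 0), (nat_lit 0), (nat_lit 0), (nat_lit 0)⟩,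
    (nat_lit 0x1659e), (nat_lit 0x165ae)⟩)) (.nd (.lf ⟨⟨(nat_lit 0x2000000000), (nat_lit 0x2000000000), (nat_lit 0x2000000000), (nat_lit 0x2000000000)⟩,
    ⟨(nat_lit 0x100000), (nat_lit 0x100000), (nat_lit 0x100000), (nat_lit 0x100000)⟩,
    ⟨(nat_lit 0), (nat_lit 0), (nat_lit 0), (nat_lit 0)⟩,
    ⟨(nat_lit 0x2000000000), (nat_lit 0x2000000000), (nat_lit 0x2000000000), (nat_lit 0x2000000000)⟩,
    ⟨(nat_lit 0x100000), (nat_lit 0x100000), (nat_lit 0x100000), (nat_lit 0x100000)⟩,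
    ⟨(nat_lit 0x2076730000), (nat_lit 0x2076730000), (nat_lit 0x2076730000), (nat_lit 0x2076730000)⟩,
    (nat_lit 0x100000), (nat_lit 0x100000)⟩) (.lf ⟨⟨(nat_lit 0x2076760000), (nat_lit 0x2076760000), (nat_lit 0x2076760000), (nat_lit 0x2076760000)⟩,
    ⟨(nat_lit 0x52c9e), (nat_lit 0x52c9e), (nat_lit 0x52c9e), (nat_lit 0x52c9e)⟩,
    ⟨(nat_lit 0x2000000000), (nat_lit 0x2000000000), (nat_lit 0x2000000000), (nat_lit 0x2000000000)⟩,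
    ⟨(nat_lit 0x2076730000), (nat_lit 0x2076730000), (nat_lit 0x2076730000), (nat_lit 0x2076730000)⟩,
    ⟨(nat_lit 0x52cd4), (nat_lit 0x52cd4), (nat_lit 0x52cd4), (nat_lit 0x52cd4)⟩,
    ⟨(nat_lit 0), (nat_lit 0), (nat_lit 0), (nat_lit 0)⟩,
    (nat_lit 0x52c9e), (nat_lit 0x52cd4)⟩)))
  nx := .nd (.nd (.lf (nat_lit 84)) (.lf (nat_lit 37))) (.nd (.lf (nat_lit 110)) (.lf (nat_lit 15)))
  mir := (nat_lit 14)

noncomputable def cx16 : CtxD where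
  sd := .nd (.nd (.nd (.lf ⟨⟨(nat_lit 0x2000000000), (nat_lit 0x2000000000), (nat_lit 0x2000000000), (nat_lit 0x2000000000)⟩,
    ⟨(nat_lit 0x21b72), (nat_lit 0x21b72), (nat_lit 0x21b72), (nat_lit 0x21b72)⟩,
    ⟨(nat_lit 0), (nat_lit 0), (nat_lit 0), (nat_lit 0)⟩,
    ⟨(nat_lit 0x2000000000), (nat_lit 0x2000000000), (nat_lit 0x2000000000), (nat_lit 0x2000000000)⟩,
    ⟨(nat_lit 0x21b70), (nat_lit 0x21b70), (nat_lit 0x21b70), (nat_lit 0x21b70)⟩,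
    ⟨(nat_lit 0x2031264000), (nat_lit 0x2031264000), (nat_lit 0x2031264000), (nat_lit 0x2031264000)⟩,
    (nat_lit 0x21b70), (nat_lit 0x21b72)⟩) (.lf ⟨⟨(nat_lit 0x2031272000), (nat_lit 0x2031272000), (nat_lit 0x2031272000), (nat_lit 0x2031272000)⟩,
    ⟨(nat_lit 0x6c5fc), (nat_lit 0x6c5fc), (nat_lit 0x6c5fc), (nat_lit 0x6c5fc)⟩,
    ⟨(nat_lit 0x2000000000), (nat_lit 0x2000000000), (nat_lit 0x2000000000), (nat_lit 0x2000000000)⟩,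
    ⟨(nat_lit 0x2031264000), (nat_lit 0x2031264000), (nat_lit 0x2031264000), (nat_lit 0x2031264000)⟩,
    ⟨(nat_lit 0x6c62e), (nat_lit 0x6c62e), (nat_lit 0x6c62e), (nat_lit 0x6c62e)⟩,
    ⟨(nat_lit 0), (nat_lit 0), (nat_lit 0), (nat_lit 0)⟩,
    (nat_lit 0x6c5fc), (nat_lit 0x6c62e)⟩)) (.nd (.lf ⟨⟨(nat_lit 0x20a32e8000), (nat_lit 0x20a32e8000), (nat_lit 0x20a32e8000), (nat_lit 0x20a32e8000)⟩,
    ⟨(nat_lit 0x6da46), (nat_lit 0x6da46), (nat_lit 0x6da46), (nat_lit 0x6da46)⟩,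
    ⟨(nat_lit 0), (nat_lit 0), (nat_lit 0), (nat_lit 0)⟩,
    ⟨(nat_lit 0x20a32b8000), (nat_lit 0x20a32b8000), (nat_lit 0x20a32b8000), (nat_lit 0x20a32b8000)⟩,
    ⟨(nat_lit 0x6da0a), (nat_lit 0x6da0a), (nat_lit 0x6da0a), (nat_lit 0x6da0a)⟩,
    ⟨(nat_lit 0x20d59fe000), (nat_lit 0x20d59fe000), (nat_lit 0x20d59fe000), (nat_lit 0x20d59fe000)⟩,
    (nat_lit 0x6da0a), (nat_lit 0x6da46)⟩) (.lf ⟨⟨(nat_lit 0x20d5a42000), (nat_lit 0x20d5a42000), (nat_lit 0x20d5a42000), (nat_lit 0x20d5a42000)⟩,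
    ⟨(nat_lit 0x231cf), (nat_lit 0x231cf), (nat_lit 0x231cf), (nat_lit 0x231cf)⟩,
    ⟨(nat_lit 0x20a32e8000), (nat_lit 0x20a32e8000), (nat_lit 0x20a32e8000), (nat_lit 0x20a32e8000)⟩,
    ⟨(nat_lit 0x20d59fe000), (nat_lit 0x20d59fe000), (nat_lit 0x20d59fe000), (nat_lit 0x20d59fe000)⟩,
    ⟨(nat_lit 0x231e5), (nat_lit 0x231e5), (nat_lit 0x231e5), (nat_lit 0x231e5)⟩,
    ⟨(nat_lit 0), (nat_lit 0), (nat_lit 0), (nat_lit 0)⟩,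
    (nat_lit 0x231cf), (nat_lit 0x231e5)⟩))) (.nd (.nd (.lf ⟨⟨(nat_lit 0x2058560000), (nat_lit 0x2058560000), (nat_lit 0x2058560000), (nat_lit 0x2058560000)⟩,
    ⟨(nat_lit 0x2ac9a), (nat_lit 0x2ac9a), (nat_lit 0x2ac9a), (nat_lit 0x2ac9a)⟩,
    ⟨(nat_lit 0), (nat_lit 0), (nat_lit 0), (nat_lit 0)⟩,
    ⟨(nat_lit 0x2058548000), (nat_lit 0x2058548000), (nat_lit 0x2058548000), (nat_lit 0x2058548000)⟩,
    ⟨(nat_lit 0x2ac86), (nat_lit 0x2ac86), (nat_lit 0x2ac86), (nat_lit 0x2ac86)⟩,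
    ⟨(nat_lit 0x207b4f7000), (nat_lit 0x207b4f7000), (nat_lit 0x207b4f7000), (nat_lit 0x207b4f7000)⟩,
    (nat_lit 0x2ac86), (nat_lit 0x2ac9a)⟩) (.lf ⟨⟨(nat_lit 0x207b519000), (nat_lit 0x207b519000), (nat_lit 0x207b519000), (nat_lit 0x207b519000)⟩,
    ⟨(nat_lit 0x2ac99), (nat_lit 0x2ac99), (nat_lit 0x2ac99), (nat_lit 0x2ac99)⟩,
    ⟨(nat_lit 0x2058560000), (nat_lit 0x2058560000), (nat_lit 0x2058560000), (nat_lit 0x2058560000)⟩,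
    ⟨(nat_lit 0x207b4f7000), (nat_lit 0x207b4f7000), (nat_lit 0x207b4f7000), (nat_lit 0x207b4f7000)⟩,
    ⟨(nat_lit 0x2acaf), (nat_lit 0x2acaf), (nat_lit 0x2acaf), (nat_lit 0x2acaf)⟩,
    ⟨(nat_lit 0), (nat_lit 0), (nat_lit 0), (nat_lit 0)⟩,
    (nat_lit 0x2ac99), (nat_lit 0x2acaf)⟩)) (.nd (.lf ⟨⟨(nat_lit 0x2000000000), (nat_lit 0x2000000000), (nat_lit 0x2000000000), (nat_lit 0x2000000000)⟩,
    ⟨(nat_lit 0x100000), (nat_lit 0x100000), (nat_lit 0x100000), (nat_lit 0x100000)⟩,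
    ⟨(nat_lit 0), (nat_lit 0), (nat_lit 0), (nat_lit 0)⟩,
    ⟨(nat_lit 0x2000000000), (nat_lit 0x2000000000), (nat_lit 0x2000000000), (nat_lit 0x2000000000)⟩,
    ⟨(nat_lit 0x100000), (nat_lit 0x100000), (nat_lit 0x100000), (nat_lit 0x100000)⟩,
    ⟨(nat_lit 0x20d59fe000), (nat_lit 0x20d59fe000), (nat_lit 0x20d59fe000), (nat_lit 0x20d59fe000)⟩,
    (nat_lit 0x100000), (nat_lit 0x100000)⟩) (.lf ⟨⟨(nat_lit 0x20d5a42000), (nat_lit 0x20d5a42000), (nat_lit 0x20d5a42000), (nat_lit 0x20d5a42000)⟩,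
    ⟨(nat_lit 0x10a9dd), (nat_lit 0x10a9dd), (nat_lit 0x10a9dd), (nat_lit 0x10a9dd)⟩,
    ⟨(nat_lit 0x2000000000), (nat_lit 0x2000000000), (nat_lit 0x2000000000), (nat_lit 0x2000000000)⟩,
    ⟨(nat_lit 0x20d59fe000), (nat_lit 0x20d59fe000), (nat_lit 0x20d59fe000), (nat_lit 0x20d59fe000)⟩,
    ⟨(nat_lit 0x10aa7d), (nat_lit 0x10aa7d), (nat_lit 0x10aa7d), (nat_lit 0x10aa7d)⟩,
    ⟨(nat_lit 0), (nat_lit 0), (nat_lit 0), (nat_lit 0)⟩,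
    (nat_lit 0x10a9dd), (nat_lit 0x10aa7d)⟩)))
  nx := .nd (.nd (.lf (nat_lit 58)) (.lf (nat_lit 63))) (.nd (.lf (nat_lit 124)) (.lf (nat_lit 16)))
  mir := (nat_lit 17)

noncomputable def cx17 : CtxD where
  sd := .nd (.nd (.nd (.lf ⟨⟨(nat_lit 0x2000000000), (nat_lit 0x2000000000), (nat_lit 0x2000000000), (nat_lit 0x2000000000)⟩,
    ⟨(nat_lit 0x21b72), (nat_lit 0x21b72), (nat_lit 0x21b72), (nat_lit 0x21b72)⟩,
    ⟨(nat_lit 0), (nat_lit 0), (nat_lit 0), (nat_lit 0)⟩,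
    ⟨(nat_lit 0x2000000000), (nat_lit 0x2000000000), (nat_lit 0x2000000000), (nat_lit 0x2000000000)⟩,
    ⟨(nat_lit 0x21b70), (nat_lit 0x21b70), (nat_lit 0x21b70), (nat_lit 0x21b70)⟩,
    ⟨(nat_lit 0x2030714000), (nat_lit 0x2030714000), (nat_lit 0x2030714000), (nat_lit 0x2030714000)⟩,
    (nat_lit 0x21b70), (nat_lit 0x21b72)⟩) (.lf ⟨⟨(nat_lit 0x2030722000), (nat_lit 0x2030722000), (nat_lit 0x2030722000), (nat_lit 0x2030722000)⟩,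
    ⟨(nat_lit 0x69415), (nat_lit 0x69415), (nat_lit 0x69415), (nat_lit 0x69415)⟩,
    ⟨(nat_lit 0x2000000000), (nat_lit 0x2000000000), (nat_lit 0x2000000000), (nat_lit 0x2000000000)⟩,
    ⟨(nat_lit 0x2030714000), (nat_lit 0x2030714000), (nat_lit 0x2030714000), (nat_lit 0x2030714000)⟩,
    ⟨(nat_lit 0x69447), (nat_lit 0x69447), (nat_lit 0x69447), (nat_lit 0x69447)⟩,
    ⟨(nat_lit 0), (nat_lit 0), (nat_lit 0), (nat_lit 0)⟩,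
    (nat_lit 0x69415), (nat_lit 0x69447)⟩)) (.nd (.lf ⟨⟨(nat_lit 0x209ded2000), (nat_lit 0x209ded2000), (nat_lit 0x209ded2000), (nat_lit 0x209ded2000)⟩,
    ⟨(nat_lit 0x68106), (nat_lit 0x68106), (nat_lit 0x68106), (nat_lit 0x68106)⟩,
    ⟨(nat_lit 0), (nat_lit 0), (nat_lit 0), (nat_lit 0)⟩,
    ⟨(nat_lit 0x209dea2000), (nat_lit 0x209dea2000), (nat_lit 0x209dea2000), (nat_lit 0x209dea2000)⟩,
    ⟨(nat_lit 0x680cc), (nat_lit 0x680cc), (nat_lit 0x680cc), (nat_lit 0x680cc)⟩,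
    ⟨(nat_lit 0x20cd1a5000), (nat_lit 0x20cd1a5000), (nat_lit 0x20cd1a5000), (nat_lit 0x20cd1a5000)⟩,
    (nat_lit 0x680cc), (nat_lit 0x68106)⟩) (.lf ⟨⟨(nat_lit 0x20cd1e7000), (nat_lit 0x20cd1e7000), (nat_lit 0x20cd1e7000), (nat_lit 0x20cd1e7000)⟩,
    ⟨(nat_lit 0x205e2), (nat_lit 0x205e2), (nat_lit 0x205e2), (nat_lit 0x205e2)⟩,
    ⟨(nat_lit 0x209ded2000), (nat_lit 0x209ded2000), (nat_lit 0x209ded2000), (nat_lit 0x209ded2000)⟩,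
    ⟨(nat_lit 0x20cd1a5000), (nat_lit 0x20cd1a5000), (nat_lit 0x20cd1a5000), (nat_lit 0x20cd1a5000)⟩,
    ⟨(nat_lit 0x205f6), (nat_lit 0x205f6), (nat_lit 0x205f6), (nat_lit 0x205f6)⟩,
    ⟨(nat_lit 0), (nat_lit 0), (nat_lit 0), (nat_lit 0)⟩,
    (nat_lit 0x205e2), (nat_lit 0x205f6)⟩))) (.nd (.nd (.lf ⟨⟨(nat_lit 0x2056b7f000), (nat_lit 0x2056b7f000), (nat_lit 0x2056b7f000), (nat_lit 0x2056b7f000)⟩,
    ⟨(nat_lit 0x2915f), (nat_lit 0x2915f), (nat_lit 0x2915f), (nat_lit 0x2915f)⟩,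
    ⟨(nat_lit 0), (nat_lit 0), (nat_lit 0), (nat_lit 0)⟩,
    ⟨(nat_lit 0x2056b67000), (nat_lit 0x2056b67000), (nat_lit 0x2056b67000), (nat_lit 0x2056b67000)⟩,
    ⟨(nat_lit 0x29149), (nat_lit 0x29149), (nat_lit 0x29149), (nat_lit 0x29149)⟩,
    ⟨(nat_lit 0x20784c2000), (nat_lit 0x20784c2000), (nat_lit 0x20784c2000), (nat_lit 0x20784c2000)⟩,
    (nat_lit 0x29149), (nat_lit 0x2915f)⟩) (.lf ⟨⟨(nat_lit 0x20784e4000), (nat_lit 0x20784e4000), (nat_lit 0x20784e4000), (nat_lit 0x20784e4000)⟩,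
    ⟨(nat_lit 0x29136), (nat_lit 0x29136), (nat_lit 0x29136), (nat_lit 0x29136)⟩,
    ⟨(nat_lit 0x2056b7f000), (nat_lit 0x2056b7f000), (nat_lit 0x2056b7f000), (nat_lit 0x2056b7f000)⟩,
    ⟨(nat_lit 0x20784c2000), (nat_lit 0x20784c2000), (nat_lit 0x20784c2000), (nat_lit 0x20784c2000)⟩,
    ⟨(nat_lit 0x2914c), (nat_lit 0x2914c), (nat_lit 0x2914c), (nat_lit 0x2914c)⟩,
    ⟨(nat_lit 0), (nat_lit 0), (nat_lit 0), (nat_lit 0)⟩,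
    (nat_lit 0x29136), (nat_lit 0x2914c)⟩)) (.nd (.lf ⟨⟨(nat_lit 0x2000000000), (nat_lit 0x2000000000), (nat_lit 0x2000000000), (nat_lit 0x2000000000)⟩,
    ⟨(nat_lit 0x100000), (nat_lit 0x100000), (nat_lit 0x100000), (nat_lit 0x100000)⟩,
    ⟨(nat_lit 0), (nat_lit 0), (nat_lit 0), (nat_lit 0)⟩,
    ⟨(nat_lit 0x2000000000), (nat_lit 0x2000000000), (nat_lit 0x2000000000), (nat_lit 0x2000000000)⟩,
    ⟨(nat_lit 0x100000), (nat_lit 0x100000), (nat_lit 0x100000), (nat_lit 0x100000)⟩,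
    ⟨(nat_lit 0x20cd1a5000), (nat_lit 0x20cd1a5000), (nat_lit 0x20cd1a5000), (nat_lit 0x20cd1a5000)⟩,
    (nat_lit 0x100000), (nat_lit 0x100000)⟩) (.lf ⟨⟨(nat_lit 0x20cd1e7000), (nat_lit 0x20cd1e7000), (nat_lit 0x20cd1e7000), (nat_lit 0x20cd1e7000)⟩,
    ⟨(nat_lit 0xf5c52), (nat_lit 0xf5c52), (nat_lit 0xf5c52), (nat_lit 0xf5c52)⟩,
    ⟨(nat_lit 0x2000000000), (nat_lit 0x2000000000), (nat_lit 0x2000000000), (nat_lit 0x2000000000)⟩,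
    ⟨(nat_lit 0x20cd1a5000), (nat_lit 0x20cd1a5000), (nat_lit 0x20cd1a5000), (nat_lit 0x20cd1a5000)⟩,
    ⟨(nat_lit 0xf5ce6), (nat_lit 0xf5ce6), (nat_lit 0xf5ce6), (nat_lit 0xf5ce6)⟩,
    ⟨(nat_lit 0), (nat_lit 0), (nat_lit 0), (nat_lit 0)⟩,
    (nat_lit 0xf5c52), (nat_lit 0xf5ce6)⟩)))
  nx := .nd (.nd (.lf (nat_lit 62)) (.lf (nat_lit 59))) (.nd (.lf (nat_lit 125)) (.lf (nat_lit 17)))
  mir := (nat_lit 16)

noncomputable def cx18 : CtxD where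
  sd := .nd (.nd (.nd (.lf ⟨⟨(nat_lit 0x2000000000), (nat_lit 0x2000000000), (nat_lit 0x2000000000), (nat_lit 0x2000000000)⟩,
    ⟨(nat_lit 0x21b72), (nat_lit 0x21b72), (nat_lit 0x21b72), (nat_lit 0x21b72)⟩,
    ⟨(nat_lit 0), (nat_lit 0), (nat_lit 0), (nat_lit 0)⟩,
    ⟨(nat_lit 0x2000000000), (nat_lit 0x2000000000), (nat_lit 0x2000000000), (nat_lit 0x2000000000)⟩,
    ⟨(nat_lit 0x21b70), (nat_lit 0x21b70), (nat_lit 0x21b70), (nat_lit 0x21b70)⟩,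
    ⟨(nat_lit 0x203a7d7000), (nat_lit 0x203a7d7000), (nat_lit 0x203a7d7000), (nat_lit 0x203a7d7000)⟩,
    (nat_lit 0x21b70), (nat_lit 0x21b72)⟩) (.lf ⟨⟨(nat_lit 0x203a7e1000), (nat_lit 0x203a7e1000), (nat_lit 0x203a7e1000), (nat_lit 0x203a7e1000)⟩,
    ⟨(nat_lit 0x9c149), (nat_lit 0x9c149), (nat_lit 0x9c149), (nat_lit 0x9c149)⟩,
    ⟨(nat_lit 0x2000000000), (nat_lit 0x2000000000), (nat_lit 0x2000000000), (nat_lit 0x2000000000)⟩,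
    ⟨(nat_lit 0x203a7d7000), (nat_lit 0x203a7d7000), (nat_lit 0x203a7d7000), (nat_lit 0x203a7d7000)⟩,
    ⟨(nat_lit 0x9c181), (nat_lit 0x9c181), (nat_lit 0x9c181), (nat_lit 0x9c181)⟩,
    ⟨(nat_lit 0), (nat_lit 0), (nat_lit 0), (nat_lit 0)⟩,
    (nat_lit 0x9c149), (nat_lit 0x9c181)⟩)) (.nd (.lf ⟨⟨(nat_lit 0x20fe49a000), (nat_lit 0x20fe49a000), (nat_lit 0x20fe49a000), (nat_lit 0x20fe49a000)⟩,
    ⟨(nat_lit 0xd1844), (nat_lit 0xd1844), (nat_lit 0xd1844), (nat_lit 0xd1844)⟩,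
    ⟨(nat_lit 0), (nat_lit 0), (nat_lit 0), (nat_lit 0)⟩,
    ⟨(nat_lit 0x20fe46c000), (nat_lit 0x20fe46c000), (nat_lit 0x20fe46c000), (nat_lit 0x20fe46c000)⟩,
    ⟨(nat_lit 0xd17ec), (nat_lit 0xd17ec), (nat_lit 0xd17ec), (nat_lit 0xd17ec)⟩,
    ⟨(nat_lit 0x2179390000), (nat_lit 0x2179390000), (nat_lit 0x2179390000), (nat_lit 0x2179390000)⟩,
    (nat_lit 0xd17ec), (nat_lit 0xd1844)⟩) (.lf ⟨⟨(nat_lit 0x21793e4000), (nat_lit 0x21793e4000), (nat_lit 0x21793e4000), (nat_lit 0x21793e4000)⟩,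
    ⟨(nat_lit 0x6ebc9), (nat_lit 0x6ebc9), (nat_lit 0x6ebc9), (nat_lit 0x6ebc9)⟩,
    ⟨(nat_lit 0x20fe49a000), (nat_lit 0x20fe49a000), (nat_lit 0x20fe49a000), (nat_lit 0x20fe49a000)⟩,
    ⟨(nat_lit 0x2179390000), (nat_lit 0x2179390000), (nat_lit 0x2179390000), (nat_lit 0x2179390000)⟩,
    ⟨(nat_lit 0x6ec05), (nat_lit 0x6ec05), (nat_lit 0x6ec05), (nat_lit 0x6ec05)⟩,
    ⟨(nat_lit 0), (nat_lit 0), (nat_lit 0), (nat_lit 0)⟩,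
    (nat_lit 0x6ebc9), (nat_lit 0x6ec05)⟩))) (.nd (.nd (.lf ⟨⟨(nat_lit 0x206de8f000), (nat_lit 0x206de8f000), (nat_lit 0x206de8f000), (nat_lit 0x206de8f000)⟩,
    ⟨(nat_lit 0x46d2a), (nat_lit 0x46d2a), (nat_lit 0x46d2a), (nat_lit 0x46d2a)⟩,
    ⟨(nat_lit 0), (nat_lit 0), (nat_lit 0), (nat_lit 0)⟩,
    ⟨(nat_lit 0x206de7d000), (nat_lit 0x206de7d000), (nat_lit 0x206de7d000), (nat_lit 0x206de7d000)⟩,
    ⟨(nat_lit 0x46d10), (nat_lit 0x46d10), (nat_lit 0x46d10), (nat_lit 0x46d10)⟩,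
    ⟨(nat_lit 0x20a754c000), (nat_lit 0x20a754c000), (nat_lit 0x20a754c000), (nat_lit 0x20a754c000)⟩,
    (nat_lit 0x46d10), (nat_lit 0x46d2a)⟩) (.lf ⟨⟨(nat_lit 0x20a7566000), (nat_lit 0x20a7566000), (nat_lit 0x20a7566000), (nat_lit 0x20a7566000)⟩,
    ⟨(nat_lit 0x44fe1), (nat_lit 0x44fe1), (nat_lit 0x44fe1), (nat_lit 0x44fe1)⟩,
    ⟨(nat_lit 0x206de8f000), (nat_lit 0x206de8f000), (nat_lit 0x206de8f000), (nat_lit 0x206de8f000)⟩,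
    ⟨(nat_lit 0x20a754c000), (nat_lit 0x20a754c000), (nat_lit 0x20a754c000), (nat_lit 0x20a754c000)⟩,
    ⟨(nat_lit 0x44ffd), (nat_lit 0x44ffd), (nat_lit 0x44ffd), (nat_lit 0x44ffd)⟩,
    ⟨(nat_lit 0), (nat_lit 0), (nat_lit 0), (nat_lit 0)⟩,
    (nat_lit 0x44fe1), (nat_lit 0x44ffd)⟩)) (.nd (.lf ⟨⟨(nat_lit 0x2000000000), (nat_lit 0x2000000000), (nat_lit 0x2000000000), (nat_lit 0x2000000000)⟩,
    ⟨(nat_lit 0x100000), (nat_lit 0x100000), (nat_lit 0x100000), (nat_lit 0x100000)⟩,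
    ⟨(nat_lit 0), (nat_lit 0), (nat_lit 0), (nat_lit 0)⟩,
    ⟨(nat_lit 0x2000000000), (nat_lit 0x2000000000), (nat_lit 0x2000000000), (nat_lit 0x2000000000)⟩,
    ⟨(nat_lit 0x100000), (nat_lit 0x100000), (nat_lit 0x100000), (nat_lit 0x100000)⟩,
    ⟨(nat_lit 0x2179390000), (nat_lit 0x2179390000), (nat_lit 0x2179390000), (nat_lit 0x2179390000)⟩,
    (nat_lit 0x100000), (nat_lit 0x100000)⟩) (.lf ⟨⟨(nat_lit 0x21793e4000), (nat_lit 0x21793e4000), (nat_lit 0x21793e4000), (nat_lit 0x21793e4000)⟩,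
    ⟨(nat_lit 0x348d4a), (nat_lit 0x348d4a), (nat_lit 0x348d4a), (nat_lit 0x348d4a)⟩,
    ⟨(nat_lit 0x2000000000), (nat_lit 0x2000000000), (nat_lit 0x2000000000), (nat_lit 0x2000000000)⟩,
    ⟨(nat_lit 0x2179390000), (nat_lit 0x2179390000), (nat_lit 0x2179390000), (nat_lit 0x2179390000)⟩,
    ⟨(nat_lit 0x348f0e), (nat_lit 0x348f0e), (nat_lit 0x348f0e), (nat_lit 0x348f0e)⟩,
    ⟨(nat_lit 0), (nat_lit 0), (nat_lit 0), (nat_lit 0)⟩,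
    (nat_lit 0x348d4a), (nat_lit 0x348f0e)⟩)))
  nx := .nd (.nd (.lf (nat_lit 40)) (.lf (nat_lit 89))) (.nd (.lf (nat_lit 111)) (.lf (nat_lit 18)))
  mir := (nat_lit 19)

noncomputable def cx19 : CtxD where
  sd := .nd (.nd (.nd (.lf ⟨⟨(nat_lit 0x2000000000), (nat_lit 0x2000000000), (nat_lit 0x2000000000), (nat_lit 0x2000000000)⟩,
    ⟨(nat_lit 0x21b72), (nat_lit 0x21b72), (nat_lit 0x21b72), (nat_lit 0x21b72)⟩,
    ⟨(nat_lit 0), (nat_lit 0), (nat_lit 0), (nat_lit 0)⟩,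
    ⟨(nat_lit 0x2000000000), (nat_lit 0x2000000000), (nat_lit 0x2000000000), (nat_lit 0x2000000000)⟩,
    ⟨(nat_lit 0x21b70), (nat_lit 0x21b70), (nat_lit 0x21b70), (nat_lit 0x21b70)⟩,
    ⟨(nat_lit 0x20256df000), (nat_lit 0x20256df000), (nat_lit 0x20256df000), (nat_lit 0x20256df000)⟩,
    (nat_lit 0x21b70), (nat_lit 0x21b72)⟩) (.lf ⟨⟨(nat_lit 0x20256ed000), (nat_lit 0x20256ed000), (nat_lit 0x20256ed000), (nat_lit 0x20256ed000)⟩,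
    ⟨(nat_lit 0x3fc73), (nat_lit 0x3fc73), (nat_lit 0x3fc73), (nat_lit 0x3fc73)⟩,
    ⟨(nat_lit 0x2000000000), (nat_lit 0x2000000000), (nat_lit 0x2000000000), (nat_lit 0x2000000000)⟩,
    ⟨(nat_lit 0x20256df000), (nat_lit 0x20256df000), (nat_lit 0x20256df000), (nat_lit 0x20256df000)⟩,
    ⟨(nat_lit 0x3fc95), (nat_lit 0x3fc95), (nat_lit 0x3fc95), (nat_lit 0x3fc95)⟩,
    ⟨(nat_lit 0), (nat_lit 0), (nat_lit 0), (nat_lit 0)⟩,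
    (nat_lit 0x3fc73), (nat_lit 0x3fc95)⟩)) (.nd (.lf ⟨⟨(nat_lit 0x20610ad000), (nat_lit 0x20610ad000), (nat_lit 0x20610ad000), (nat_lit 0x20610ad000)⟩,
    ⟨(nat_lit 0x2f85f), (nat_lit 0x2f85f), (nat_lit 0x2f85f), (nat_lit 0x2f85f)⟩,
    ⟨(nat_lit 0), (nat_lit 0), (nat_lit 0), (nat_lit 0)⟩,
    ⟨(nat_lit 0x206108b000), (nat_lit 0x206108b000), (nat_lit 0x206108b000), (nat_lit 0x206108b000)⟩,
    ⟨(nat_lit 0x2f83f), (nat_lit 0x2f83f), (nat_lit 0x2f83f), (nat_lit 0x2f83f)⟩,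
    ⟨(nat_lit 0x2072d71000), (nat_lit 0x2072d71000), (nat_lit 0x2072d71000), (nat_lit 0x2072d71000)⟩,
    (nat_lit 0x2f83f), (nat_lit 0x2f85f)⟩) (.lf ⟨⟨(nat_lit 0x2072d9b000), (nat_lit 0x2072d9b000), (nat_lit 0x2072d9b000), (nat_lit 0x2072d9b000)⟩,
    ⟨(nat_lit 42038), (nat_lit 42038), (nat_lit 42038), (nat_lit 42038)⟩,
    ⟨(nat_lit 0x20610ad000), (nat_lit 0x20610ad000), (nat_lit 0x20610ad000), (nat_lit 0x20610ad000)⟩,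
    ⟨(nat_lit 0x2072d71000), (nat_lit 0x2072d71000), (nat_lit 0x2072d71000), (nat_lit 0x2072d71000)⟩,
    ⟨(nat_lit 42046), (nat_lit 42046), (nat_lit 42046), (nat_lit 42046)⟩,
    ⟨(nat_lit 0), (nat_lit 0), (nat_lit 0), (nat_lit 0)⟩,
    (nat_lit 42038), (nat_lit 42046)⟩))) (.nd (.nd (.lf ⟨⟨(nat_lit 0x203fe79000), (nat_lit 0x203fe79000), (nat_lit 0x203fe79000), (nat_lit 0x203fe79000)⟩,
    ⟨(nat_lit 0x1501b), (nat_lit 0x1501b), (nat_lit 0x1501b), (nat_lit 0x1501b)⟩,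
    ⟨(nat_lit 0), (nat_lit 0), (nat_lit 0), (nat_lit 0)⟩,
    ⟨(nat_lit 0x203fe63000), (nat_lit 0x203fe63000), (nat_lit 0x203fe63000), (nat_lit 0x203fe63000)⟩,
    ⟨(nat_lit 0x1500f), (nat_lit 0x1500f), (nat_lit 0x1500f), (nat_lit 0x1500f)⟩,
    ⟨(nat_lit 0x205161a000), (nat_lit 0x205161a000), (nat_lit 0x205161a000), (nat_lit 0x205161a000)⟩,
    (nat_lit 0x1500f), (nat_lit 0x1501b)⟩) (.lf ⟨⟨(nat_lit 0x2051636000), (nat_lit 0x2051636000), (nat_lit 0x2051636000), (nat_lit 0x2051636000)⟩,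
    ⟨(nat_lit 0x158f0), (nat_lit 0x158f0), (nat_lit 0x158f0), (nat_lit 0x158f0)⟩,
    ⟨(nat_lit 0x203fe79000), (nat_lit 0x203fe79000), (nat_lit 0x203fe79000), (nat_lit 0x203fe79000)⟩,
    ⟨(nat_lit 0x205161a000), (nat_lit 0x205161a000), (nat_lit 0x205161a000), (nat_lit 0x205161a000)⟩,
    ⟨(nat_lit 0x158fe), (nat_lit 0x158fe), (nat_lit 0x158fe), (nat_lit 0x158fe)⟩,
    ⟨(nat_lit 0), (nat_lit 0), (nat_lit 0), (nat_lit 0)⟩,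
    (nat_lit 0x158f0), (nat_lit 0x158fe)⟩)) (.nd (.lf ⟨⟨(nat_lit 0x2000000000), (nat_lit 0x2000000000), (nat_lit 0x2000000000), (nat_lit 0x2000000000)⟩,
    ⟨(nat_lit 0x100000), (nat_lit 0x100000), (nat_lit 0x100000), (nat_lit 0x100000)⟩,
    ⟨(nat_lit 0), (nat_lit 0), (nat_lit 0), (nat_lit 0)⟩,
    ⟨(nat_lit 0x2000000000), (nat_lit 0x2000000000), (nat_lit 0x2000000000), (nat_lit 0x2000000000)⟩,
    ⟨(nat_lit 0x100000), (nat_lit 0x100000), (nat_lit 0x100000), (nat_lit 0x100000)⟩,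
    ⟨(nat_lit 0x2072d71000), (nat_lit 0x2072d71000), (nat_lit 0x2072d71000), (nat_lit 0x2072d71000)⟩,
    (nat_lit 0x100000), (nat_lit 0x100000)⟩) (.lf ⟨⟨(nat_lit 0x2072d9b000), (nat_lit 0x2072d9b000), (nat_lit 0x2072d9b000), (nat_lit 0x2072d9b000)⟩,
    ⟨(nat_lit 0x4dee7), (nat_lit 0x4dee7), (nat_lit 0x4dee7), (nat_lit 0x4dee7)⟩,
    ⟨(nat_lit 0x2000000000), (nat_lit 0x2000000000), (nat_lit 0x2000000000), (nat_lit 0x2000000000)⟩,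
    ⟨(nat_lit 0x2072d71000), (nat_lit 0x2072d71000), (nat_lit 0x2072d71000), (nat_lit 0x2072d71000)⟩,
    ⟨(nat_lit 0x4df13), (nat_lit 0x4df13), (nat_lit 0x4df13), (nat_lit 0x4df13)⟩,
    ⟨(nat_lit 0), (nat_lit 0), (nat_lit 0), (nat_lit 0)⟩,
    (nat_lit 0x4dee7), (nat_lit 0x4df13)⟩)))
  nx := .nd (.nd (.lf (nat_lit 88)) (.lf (nat_lit 41))) (.nd (.lf (nat_lit 110)) (.lf (nat_lit 19)))
  mir := (nat_lit 18)

noncomputable def cx20 : CtxD where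
  sd := .nd (.nd (.nd (.lf ⟨⟨(nat_lit 0x2000000000), (nat_lit 0x2000000000), (nat_lit 0x2000000000), (nat_lit 0x2000000000)⟩,
    ⟨(nat_lit 0x21b72), (nat_lit 0x21b72), (nat_lit 0x21b72), (nat_lit 0x21b72)⟩,
    ⟨(nat_lit 0), (nat_lit 0), (nat_lit 0), (nat_lit 0)⟩,
    ⟨(nat_lit 0x2000000000), (nat_lit 0x2000000000), (nat_lit 0x2000000000), (nat_lit 0x2000000000)⟩,
    ⟨(nat_lit 0x21b70), (nat_lit 0x21b70), (nat_lit 0x21b70), (nat_lit 0x21b70)⟩,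
    ⟨(nat_lit 0x2038581000), (nat_lit 0x2038581000), (nat_lit 0x2038581000), (nat_lit 0x2038581000)⟩,
    (nat_lit 0x21b70), (nat_lit 0x21b72)⟩) (.lf ⟨⟨(nat_lit 0x203858d000), (nat_lit 0x203858d000), (nat_lit 0x203858d000), (nat_lit 0x203858d000)⟩,
    ⟨(nat_lit 0x900ae), (nat_lit 0x900ae), (nat_lit 0x900ae), (nat_lit 0x900ae)⟩,
    ⟨(nat_lit 0x2000000000), (nat_lit 0x2000000000), (nat_lit 0x2000000000), (nat_lit 0x2000000000)⟩,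
    ⟨(nat_lit 0x2038581000), (nat_lit 0x2038581000), (nat_lit 0x2038581000), (nat_lit 0x2038581000)⟩,
    ⟨(nat_lit 0x900ea), (nat_lit 0x900ea), (nat_lit 0x900ea), (nat_lit 0x900ea)⟩,
    ⟨(nat_lit 0), (nat_lit 0), (nat_lit 0), (nat_lit 0)⟩,
    (nat_lit 0x900ae), (nat_lit 0x900ea)⟩)) (.nd (.lf ⟨⟨(nat_lit 0x20e2815000), (nat_lit 0x20e2815000), (nat_lit 0x20e2815000), (nat_lit 0x20e2815000)⟩,
    ⟨(nat_lit 0xb03ec), (nat_lit 0xb03ec), (nat_lit 0xb03ec), (nat_lit 0xb03ec)⟩,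
    ⟨(nat_lit 0), (nat_lit 0), (nat_lit 0), (nat_lit 0)⟩,
    ⟨(nat_lit 0x20e27d9000), (nat_lit 0x20e27d9000), (nat_lit 0x20e27d9000), (nat_lit 0x20e27d9000)⟩,
    ⟨(nat_lit 0xb0380), (nat_lit 0xb0380), (nat_lit 0xb0380), (nat_lit 0xb0380)⟩,
    ⟨(nat_lit 0x2143f6f000), (nat_lit 0x2143f6f000), (nat_lit 0x2143f6f000), (nat_lit 0x2143f6f000)⟩,
    (nat_lit 0xb0380), (nat_lit 0xb03ec)⟩) (.lf ⟨⟨(nat_lit 0x2143fd7000), (nat_lit 0x2143fd7000), (nat_lit 0x2143fd7000), (nat_lit 0x2143fd7000)⟩,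
    ⟨(nat_lit 0x52897), (nat_lit 0x52897), (nat_lit 0x52897), (nat_lit 0x52897)⟩,
    ⟨(nat_lit 0x20e2815000), (nat_lit 0x20e2815000), (nat_lit 0x20e2815000), (nat_lit 0x20e2815000)⟩,
    ⟨(nat_lit 0x2143f6f000), (nat_lit 0x2143f6f000), (nat_lit 0x2143f6f000), (nat_lit 0x2143f6f000)⟩,
    ⟨(nat_lit 0x528d5), (nat_lit 0x528d5), (nat_lit 0x528d5), (nat_lit 0x528d5)⟩,
    ⟨(nat_lit 0), (nat_lit 0), (nat_lit 0), (nat_lit 0)⟩,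
    (nat_lit 0x52897), (nat_lit 0x528d5)⟩))) (.nd (.nd (.lf ⟨⟨(nat_lit 0x2068744000), (nat_lit 0x2068744000), (nat_lit 0x2068744000), (nat_lit 0x2068744000)⟩,
    ⟨(nat_lit 0x3ef02), (nat_lit 0x3ef02), (nat_lit 0x3ef02), (nat_lit 0x3ef02)⟩,
    ⟨(nat_lit 0), (nat_lit 0), (nat_lit 0), (nat_lit 0)⟩,
    ⟨(nat_lit 0x206872e000), (nat_lit 0x206872e000), (nat_lit 0x206872e000), (nat_lit 0x206872e000)⟩,
    ⟨(nat_lit 0x3eee4), (nat_lit 0x3eee4), (nat_lit 0x3eee4), (nat_lit 0x3eee4)⟩,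
    ⟨(nat_lit 0x209b4aa000), (nat_lit 0x209b4aa000), (nat_lit 0x209b4aa000), (nat_lit 0x209b4aa000)⟩,
    (nat_lit 0x3eee4), (nat_lit 0x3ef02)⟩) (.lf ⟨⟨(nat_lit 0x209b4ce000), (nat_lit 0x209b4ce000), (nat_lit 0x209b4ce000), (nat_lit 0x209b4ce000)⟩,
    ⟨(nat_lit 0x3d12a), (nat_lit 0x3d12a), (nat_lit 0x3d12a), (nat_lit 0x3d12a)⟩,
    ⟨(nat_lit 0x2068744000), (nat_lit 0x2068744000), (nat_lit 0x2068744000), (nat_lit 0x2068744000)⟩,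
    ⟨(nat_lit 0x209b4aa000), (nat_lit 0x209b4aa000), (nat_lit 0x209b4aa000), (nat_lit 0x209b4aa000)⟩,
    ⟨(nat_lit 0x3d148), (nat_lit 0x3d148), (nat_lit 0x3d148), (nat_lit 0x3d148)⟩,
    ⟨(nat_lit 0), (nat_lit 0), (nat_lit 0), (nat_lit 0)⟩,
    (nat_lit 0x3d12a), (nat_lit 0x3d148)⟩)) (.nd (.lf ⟨⟨(nat_lit 0x2000000000), (nat_lit 0x2000000000), (nat_lit 0x2000000000), (nat_lit 0x2000000000)⟩,
    ⟨(nat_lit 0x100000), (nat_lit 0x100000), (nat_lit 0x100000), (nat_lit 0x100000)⟩,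
    ⟨(nat_lit 0), (nat_lit 0), (nat_lit 0), (nat_lit 0)⟩,
    ⟨(nat_lit 0x2000000000), (nat_lit 0x2000000000), (nat_lit 0x2000000000), (nat_lit 0x2000000000)⟩,
    ⟨(nat_lit 0x100000), (nat_lit 0x100000), (nat_lit 0x100000), (nat_lit 0x100000)⟩,
    ⟨(nat_lit 0x2143f6f000), (nat_lit 0x2143f6f000), (nat_lit 0x2143f6f000), (nat_lit 0x2143f6f000)⟩,
    (nat_lit 0x100000), (nat_lit 0x100000)⟩) (.lf ⟨⟨(nat_lit 0x2143fd7000), (nat_lit 0x2143fd7000), (nat_lit 0x2143fd7000), (nat_lit 0x2143fd7000)⟩,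
    ⟨(nat_lit 0x272b59), (nat_lit 0x272b59), (nat_lit 0x272b59), (nat_lit 0x272b59)⟩,
    ⟨(nat_lit 0x2000000000), (nat_lit 0x2000000000), (nat_lit 0x2000000000), (nat_lit 0x2000000000)⟩,
    ⟨(nat_lit 0x2143f6f000), (nat_lit 0x2143f6f000), (nat_lit 0x2143f6f000), (nat_lit 0x2143f6f000)⟩,
    ⟨(nat_lit 0x272d1f), (nat_lit 0x272d1f), (nat_lit 0x272d1f), (nat_lit 0x272d1f)⟩,
    ⟨(nat_lit 0), (nat_lit 0), (nat_lit 0), (nat_lit 0)⟩,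
    (nat_lit 0x272b59), (nat_lit 0x272d1f)⟩)))
  nx := .nd (.nd (.lf (nat_lit 42)) (.lf (nat_lit 83))) (.nd (.lf (nat_lit 113)) (.lf (nat_lit 20)))
  mir := (nat_lit 21)

noncomputable def cx21 : CtxD where
  sd := .nd (.nd (.nd (.lf ⟨⟨(nat_lit 0x2000000000), (nat_lit 0x2000000000), (nat_lit 0x2000000000), (nat_lit 0x2000000000)⟩,
    ⟨(nat_lit 0x21b72), (nat_lit 0x21b72), (nat_lit 0x21b72), (nat_lit 0x21b72)⟩,
    ⟨(nat_lit 0), (nat_lit 0), (nat_lit 0), (nat_lit 0)⟩,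
    ⟨(nat_lit 0x2000000000), (nat_lit 0x2000000000), (nat_lit 0x2000000000), (nat_lit 0x2000000000)⟩,
    ⟨(nat_lit 0x21b70), (nat_lit 0x21b70), (nat_lit 0x21b70), (nat_lit 0x21b70)⟩,
    ⟨(nat_lit 0x2027d03000), (nat_lit 0x2027d03000), (nat_lit 0x2027d03000), (nat_lit 0x2027d03000)⟩,
    (nat_lit 0x21b70), (nat_lit 0x21b72)⟩) (.lf ⟨⟨(nat_lit 0x2027d13000), (nat_lit 0x2027d13000), (nat_lit 0x2027d13000), (nat_lit 0x2027d13000)⟩,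
    ⟨(nat_lit 0x47f9d), (nat_lit 0x47f9d), (nat_lit 0x47f9d), (nat_lit 0x47f9d)⟩,
    ⟨(nat_lit 0x2000000000), (nat_lit 0x2000000000), (nat_lit 0x2000000000), (nat_lit 0x2000000000)⟩,
    ⟨(nat_lit 0x2027d03000), (nat_lit 0x2027d03000), (nat_lit 0x2027d03000), (nat_lit 0x2027d03000)⟩,
    ⟨(nat_lit 0x47fcb), (nat_lit 0x47fcb), (nat_lit 0x47fcb), (nat_lit 0x47fcb)⟩,
    ⟨(nat_lit 0), (nat_lit 0), (nat_lit 0), (nat_lit 0)⟩,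
    (nat_lit 0x47f9d), (nat_lit 0x47fcb)⟩)) (.nd (.lf ⟨⟨(nat_lit 0x206d51b000), (nat_lit 0x206d51b000), (nat_lit 0x206d51b000), (nat_lit 0x206d51b000)⟩,
    ⟨(nat_lit 0x3ad7a), (nat_lit 0x3ad7a), (nat_lit 0x3ad7a), (nat_lit 0x3ad7a)⟩,
    ⟨(nat_lit 0), (nat_lit 0), (nat_lit 0), (nat_lit 0)⟩,
    ⟨(nat_lit 0x206d4eb000), (nat_lit 0x206d4eb000), (nat_lit 0x206d4eb000), (nat_lit 0x206d4eb000)⟩,
    ⟨(nat_lit 0x3ad4c), (nat_lit 0x3ad4c), (nat_lit 0x3ad4c), (nat_lit 0x3ad4c)⟩,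
    ⟨(nat_lit 0x208451f000), (nat_lit 0x208451f000), (nat_lit 0x208451f000), (nat_lit 0x208451f000)⟩,
    (nat_lit 0x3ad4c), (nat_lit 0x3ad7a)⟩) (.lf ⟨⟨(nat_lit 0x208455b000), (nat_lit 0x208455b000), (nat_lit 0x208455b000), (nat_lit 0x208455b000)⟩,
    ⟨(nat_lit 56399), (nat_lit 56399), (nat_lit 56399), (nat_lit 56399)⟩,
    ⟨(nat_lit 0x206d51b000), (nat_lit 0x206d51b000), (nat_lit 0x206d51b000), (nat_lit 0x206d51b000)⟩,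
    ⟨(nat_lit 0x208451f000), (nat_lit 0x208451f000), (nat_lit 0x208451f000), (nat_lit 0x208451f000)⟩,
    ⟨(nat_lit 56411), (nat_lit 56411), (nat_lit 56411), (nat_lit 56411)⟩,
    ⟨(nat_lit 0), (nat_lit 0), (nat_lit 0), (nat_lit 0)⟩,
    (nat_lit 56399), (nat_lit 56411)⟩))) (.nd (.nd (.lf ⟨⟨(nat_lit 0x2044e69000), (nat_lit 0x2044e69000), (nat_lit 0x2044e69000), (nat_lit 0x2044e69000)⟩,
    ⟨(nat_lit 0x18f2d), (nat_lit 0x18f2d), (nat_lit 0x18f2d), (nat_lit 0x18f2d)⟩,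
    ⟨(nat_lit 0), (nat_lit 0), (nat_lit 0), (nat_lit 0)⟩,
    ⟨(nat_lit 0x2044e4d000), (nat_lit 0x2044e4d000), (nat_lit 0x2044e4d000), (nat_lit 0x2044e4d000)⟩,
    ⟨(nat_lit 0x18f1d), (nat_lit 0x18f1d), (nat_lit 0x18f1d), (nat_lit 0x18f1d)⟩,
    ⟨(nat_lit 0x2059a90000), (nat_lit 0x2059a90000), (nat_lit 0x2059a90000), (nat_lit 0x2059a90000)⟩,
    (nat_lit 0x18f1d), (nat_lit 0x18f2d)⟩) (.lf ⟨⟨(nat_lit 0x2059ab4000), (nat_lit 0x2059ab4000), (nat_lit 0x2059ab4000), (nat_lit 0x2059ab4000)⟩,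
    ⟨(nat_lit 0x19b40), (nat_lit 0x19b40), (nat_lit 0x19b40), (nat_lit 0x19b40)⟩,
    ⟨(nat_lit 0x2044e69000), (nat_lit 0x2044e69000), (nat_lit 0x2044e69000), (nat_lit 0x2044e69000)⟩,
    ⟨(nat_lit 0x2059a90000), (nat_lit 0x2059a90000), (nat_lit 0x2059a90000), (nat_lit 0x2059a90000)⟩,
    ⟨(nat_lit 0x19b52), (nat_lit 0x19b52), (nat_lit 0x19b52), (nat_lit 0x19b52)⟩,
    ⟨(nat_lit 0), (nat_lit 0), (nat_lit 0), (nat_lit 0)⟩,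
    (nat_lit 0x19b40), (nat_lit 0x19b52)⟩)) (.nd (.lf ⟨⟨(nat_lit 0x2000000000), (nat_lit 0x2000000000), (nat_lit 0x2000000000), (nat_lit 0x2000000000)⟩,
    ⟨(nat_lit 0x100000), (nat_lit 0x100000), (nat_lit 0x100000), (nat_lit 0x100000)⟩,
    ⟨(nat_lit 0), (nat_lit 0), (nat_lit 0), (nat_lit 0)⟩,
    ⟨(nat_lit 0x2000000000), (nat_lit 0x2000000000), (nat_lit 0x2000000000), (nat_lit 0x2000000000)⟩,
    ⟨(nat_lit 0x100000), (nat_lit 0x100000), (nat_lit 0x100000), (nat_lit 0x100000)⟩,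
    ⟨(nat_lit 0x208451f000), (nat_lit 0x208451f000), (nat_lit 0x208451f000), (nat_lit 0x208451f000)⟩,
    (nat_lit 0x100000), (nat_lit 0x100000)⟩) (.lf ⟨⟨(nat_lit 0x208455b000), (nat_lit 0x208455b000), (nat_lit 0x208455b000), (nat_lit 0x208455b000)⟩,
    ⟨(nat_lit 0x688d9), (nat_lit 0x688d9), (nat_lit 0x688d9), (nat_lit 0x688d9)⟩,
    ⟨(nat_lit 0x2000000000), (nat_lit 0x2000000000), (nat_lit 0x2000000000), (nat_lit 0x2000000000)⟩,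
    ⟨(nat_lit 0x208451f000), (nat_lit 0x208451f000), (nat_lit 0x208451f000), (nat_lit 0x208451f000)⟩,
    ⟨(nat_lit 0x68927), (nat_lit 0x68927), (nat_lit 0x68927), (nat_lit 0x68927)⟩,
    ⟨(nat_lit 0), (nat_lit 0), (nat_lit 0), (nat_lit 0)⟩,
    (nat_lit 0x688d9), (nat_lit 0x68927)⟩)))
  nx := .nd (.nd (.lf (nat_lit 82)) (.lf (nat_lit 43))) (.nd (.lf (nat_lit 112)) (.lf (nat_lit 21)))
  mir := (nat_lit 20)

noncomputable def cx22 : CtxD where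
  sd := .nd (.nd (.nd (.lf ⟨⟨(nat_lit 0x2000000000), (nat_lit 0x2000000000), (nat_lit 0x2000000000), (nat_lit 0x2000000000)⟩,
    ⟨(nat_lit 0x21b72), (nat_lit 0x21b72), (nat_lit 0x21b72), (nat_lit 0x21b72)⟩,
    ⟨(nat_lit 0), (nat_lit 0), (nat_lit 0), (nat_lit 0)⟩,
    ⟨(nat_lit 0x2000000000), (nat_lit 0x2000000000), (nat_lit 0x2000000000), (nat_lit 0x2000000000)⟩,
    ⟨(nat_lit 0x21b70), (nat_lit 0x21b70), (nat_lit 0x21b70), (nat_lit 0x21b70)⟩,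
    ⟨(nat_lit 0x2031a5e000), (nat_lit 0x2031a5e000), (nat_lit 0x2031a5e000), (nat_lit 0x2031a5e000)⟩,
    (nat_lit 0x21b70), (nat_lit 0x21b72)⟩) (.lf ⟨⟨(nat_lit 0x2031a6c000), (nat_lit 0x2031a6c000), (nat_lit 0x2031a6c000), (nat_lit 0x2031a6c000)⟩,
    ⟨(nat_lit 0x6e976), (nat_lit 0x6e976), (nat_lit 0x6e976), (nat_lit 0x6e976)⟩,
    ⟨(nat_lit 0x2000000000), (nat_lit 0x2000000000), (nat_lit 0x2000000000), (nat_lit 0x2000000000)⟩,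
    ⟨(nat_lit 0x2031a5e000), (nat_lit 0x2031a5e000), (nat_lit 0x2031a5e000), (nat_lit 0x2031a5e000)⟩,
    ⟨(nat_lit 0x6e9ac), (nat_lit 0x6e9ac), (nat_lit 0x6e9ac), (nat_lit 0x6e9ac)⟩,
    ⟨(nat_lit 0), (nat_lit 0), (nat_lit 0), (nat_lit 0)⟩,
    (nat_lit 0x6e976), (nat_lit 0x6e9ac)⟩)) (.nd (.lf ⟨⟨(nat_lit 0x20a54d3000), (nat_lit 0x20a54d3000), (nat_lit 0x20a54d3000), (nat_lit 0x20a54d3000)⟩,
    ⟨(nat_lit 0x6e63b), (nat_lit 0x6e63b), (nat_lit 0x6e63b), (nat_lit 0x6e63b)⟩,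
    ⟨(nat_lit 0), (nat_lit 0), (nat_lit 0), (nat_lit 0)⟩,
    ⟨(nat_lit 0x20a54a5000), (nat_lit 0x20a54a5000), (nat_lit 0x20a54a5000), (nat_lit 0x20a54a5000)⟩,
    ⟨(nat_lit 0x6e5fb), (nat_lit 0x6e5fb), (nat_lit 0x6e5fb), (nat_lit 0x6e5fb)⟩,
    ⟨(nat_lit 0x20d8826000), (nat_lit 0x20d8826000), (nat_lit 0x20d8826000), (nat_lit 0x20d8826000)⟩,
    (nat_lit 0x6e5fb), (nat_lit 0x6e63b)⟩) (.lf ⟨⟨(nat_lit 0x20d8868000), (nat_lit 0x20d8868000), (nat_lit 0x20d8868000), (nat_lit 0x20d8868000)⟩,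
    ⟨(nat_lit 0x23ec5), (nat_lit 0x23ec5), (nat_lit 0x23ec5), (nat_lit 0x23ec5)⟩,
    ⟨(nat_lit 0x20a54d3000), (nat_lit 0x20a54d3000), (nat_lit 0x20a54d3000), (nat_lit 0x20a54d3000)⟩,
    ⟨(nat_lit 0x20d8826000), (nat_lit 0x20d8826000), (nat_lit 0x20d8826000), (nat_lit 0x20d8826000)⟩,
    ⟨(nat_lit 0x23edb), (nat_lit 0x23edb), (nat_lit 0x23edb), (nat_lit 0x23edb)⟩,
    ⟨(nat_lit 0), (nat_lit 0), (nat_lit 0), (nat_lit 0)⟩,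
    (nat_lit 0x23ec5), (nat_lit 0x23edb)⟩))) (.nd (.nd (.lf ⟨⟨(nat_lit 0x2059146000), (nat_lit 0x2059146000), (nat_lit 0x2059146000), (nat_lit 0x2059146000)⟩,
    ⟨(nat_lit 0x2bad7), (nat_lit 0x2bad7), (nat_lit 0x2bad7), (nat_lit 0x2bad7)⟩,
    ⟨(nat_lit 0), (nat_lit 0), (nat_lit 0), (nat_lit 0)⟩,
    ⟨(nat_lit 0x205912e000), (nat_lit 0x205912e000), (nat_lit 0x205912e000), (nat_lit 0x205912e000)⟩,
    ⟨(nat_lit 0x2bac1), (nat_lit 0x2bac1), (nat_lit 0x2bac1), (nat_lit 0x2bac1)⟩,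
    ⟨(nat_lit 0x207c8e9000), (nat_lit 0x207c8e9000), (nat_lit 0x207c8e9000), (nat_lit 0x207c8e9000)⟩,
    (nat_lit 0x2bac1), (nat_lit 0x2bad7)⟩) (.lf ⟨⟨(nat_lit 0x207c90b000), (nat_lit 0x207c90b000), (nat_lit 0x207c90b000), (nat_lit 0x207c90b000)⟩,
    ⟨(nat_lit 0x2b204), (nat_lit 0x2b204), (nat_lit 0x2b204), (nat_lit 0x2b204)⟩,
    ⟨(nat_lit 0x2059146000), (nat_lit 0x2059146000), (nat_lit 0x2059146000), (nat_lit 0x2059146000)⟩,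
    ⟨(nat_lit 0x207c8e9000), (nat_lit 0x207c8e9000), (nat_lit 0x207c8e9000), (nat_lit 0x207c8e9000)⟩,
    ⟨(nat_lit 0x2b21a), (nat_lit 0x2b21a), (nat_lit 0x2b21a), (nat_lit 0x2b21a)⟩,
    ⟨(nat_lit 0), (nat_lit 0), (nat_lit 0), (nat_lit 0)⟩,
    (nat_lit 0x2b204), (nat_lit 0x2b21a)⟩)) (.nd (.lf ⟨⟨(nat_lit 0x2000000000), (nat_lit 0x2000000000), (nat_lit 0x2000000000), (nat_lit 0x2000000000)⟩,
    ⟨(nat_lit 0x100000), (nat_lit 0x100000), (nat_lit 0x100000), (nat_lit 0x100000)⟩,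
    ⟨(nat_lit 0), (nat_lit 0), (nat_lit 0), (nat_lit 0)⟩,
    ⟨(nat_lit 0x2000000000), (nat_lit 0x2000000000), (nat_lit 0x2000000000), (nat_lit 0x2000000000)⟩,
    ⟨(nat_lit 0x100000), (nat_lit 0x100000), (nat_lit 0x100000), (nat_lit 0x100000)⟩,
    ⟨(nat_lit 0x20d8826000), (nat_lit 0x20d8826000), (nat_lit 0x20d8826000), (nat_lit 0x20d8826000)⟩,
    (nat_lit 0x100000), (nat_lit 0x100000)⟩) (.lf ⟨⟨(nat_lit 0x20d8868000), (nat_lit 0x20d8868000), (nat_lit 0x20d8868000), (nat_lit 0x20d8868000)⟩,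
    ⟨(nat_lit 0x110c45), (nat_lit 0x110c45), (nat_lit 0x110c45), (nat_lit 0x110c45)⟩,
    ⟨(nat_lit 0x2000000000), (nat_lit 0x2000000000), (nat_lit 0x2000000000), (nat_lit 0x2000000000)⟩,
    ⟨(nat_lit 0x20d8826000), (nat_lit 0x20d8826000), (nat_lit 0x20d8826000), (nat_lit 0x20d8826000)⟩,
    ⟨(nat_lit 0x110ceb), (nat_lit 0x110ceb), (nat_lit 0x110ceb), (nat_lit 0x110ceb)⟩,
    ⟨(nat_lit 0), (nat_lit 0), (nat_lit 0), (nat_lit 0)⟩,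
    (nat_lit 0x110c45), (nat_lit 0x110ceb)⟩)))
  nx := .nd (.nd (.lf (nat_lit 56)) (.lf (nat_lit 65))) (.nd (.lf (nat_lit 123)) (.lf (nat_lit 22)))
  mir := (nat_lit 23)

noncomputable def cx23 : CtxD where
  sd := .nd (.nd (.nd (.lf ⟨⟨(nat_lit 0x2000000000), (nat_lit 0x2000000000), (nat_lit 0x2000000000), (nat_lit 0x2000000000)⟩,
    ⟨(nat_lit 0x21b72), (nat_lit 0x21b72), (nat_lit 0x21b72), (nat_lit 0x21b72)⟩,
    ⟨(nat_lit 0), (nat_lit 0), (nat_lit 0), (nat_lit 0)⟩,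
    ⟨(nat_lit 0x2000000000), (nat_lit 0x2000000000), (nat_lit 0x2000000000), (nat_lit 0x2000000000)⟩,
    ⟨(nat_lit 0x21b70), (nat_lit 0x21b70), (nat_lit 0x21b70), (nat_lit 0x21b70)⟩,
    ⟨(nat_lit 0x2030114000), (nat_lit 0x2030114000), (nat_lit 0x2030114000), (nat_lit 0x2030114000)⟩,
    (nat_lit 0x21b70), (nat_lit 0x21b72)⟩) (.lf ⟨⟨(nat_lit 0x2030124000), (nat_lit 0x2030124000), (nat_lit 0x2030124000), (nat_lit 0x2030124000)⟩,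
    ⟨(nat_lit 0x67951), (nat_lit 0x67951), (nat_lit 0x67951), (nat_lit 0x67951)⟩,
    ⟨(nat_lit 0x2000000000), (nat_lit 0x2000000000), (nat_lit 0x2000000000), (nat_lit 0x2000000000)⟩,
    ⟨(nat_lit 0x2030114000), (nat_lit 0x2030114000), (nat_lit 0x2030114000), (nat_lit 0x2030114000)⟩,
    ⟨(nat_lit 0x67987), (nat_lit 0x67987), (nat_lit 0x67987), (nat_lit 0x67987)⟩,
    ⟨(nat_lit 0), (nat_lit 0), (nat_lit 0), (nat_lit 0)⟩,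
    (nat_lit 0x67951), (nat_lit 0x67987)⟩)) (.nd (.lf ⟨⟨(nat_lit 0x209c9ae000), (nat_lit 0x209c9ae000), (nat_lit 0x209c9ae000), (nat_lit 0x209c9ae000)⟩,
    ⟨(nat_lit 0x67ccb), (nat_lit 0x67ccb), (nat_lit 0x67ccb), (nat_lit 0x67ccb)⟩,
    ⟨(nat_lit 0), (nat_lit 0), (nat_lit 0), (nat_lit 0)⟩,
    ⟨(nat_lit 0x209c97c000), (nat_lit 0x209c97c000), (nat_lit 0x209c97c000), (nat_lit 0x209c97c000)⟩,
    ⟨(nat_lit 0x67c8b), (nat_lit 0x67c8b), (nat_lit 0x67c8b), (nat_lit 0x67c8b)⟩,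
    ⟨(nat_lit 0x20cb2f5000), (nat_lit 0x20cb2f5000), (nat_lit 0x20cb2f5000), (nat_lit 0x20cb2f5000)⟩,
    (nat_lit 0x67c8b), (nat_lit 0x67ccb)⟩) (.lf ⟨⟨(nat_lit 0x20cb339000), (nat_lit 0x20cb339000), (nat_lit 0x20cb339000), (nat_lit 0x20cb339000)⟩,
    ⟨(nat_lit 0x1fa34), (nat_lit 0x1fa34), (nat_lit 0x1fa34), (nat_lit 0x1fa34)⟩,
    ⟨(nat_lit 0x209c9ae000), (nat_lit 0x209c9ae000), (nat_lit 0x209c9ae000), (nat_lit 0x209c9ae000)⟩,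
    ⟨(nat_lit 0x20cb2f5000), (nat_lit 0x20cb2f5000), (nat_lit 0x20cb2f5000), (nat_lit 0x20cb2f5000)⟩,
    ⟨(nat_lit 0x1fa48), (nat_lit 0x1fa48), (nat_lit 0x1fa48), (nat_lit 0x1fa48)⟩,
    ⟨(nat_lit 0), (nat_lit 0), (nat_lit 0), (nat_lit 0)⟩,
    (nat_lit 0x1fa34), (nat_lit 0x1fa48)⟩))) (.nd (.nd (.lf ⟨⟨(nat_lit 0x20564d0000), (nat_lit 0x20564d0000), (nat_lit 0x20564d0000), (nat_lit 0x20564d0000)⟩,
    ⟨(nat_lit 0x287a3), (nat_lit 0x287a3), (nat_lit 0x287a3), (nat_lit 0x287a3)⟩,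
    ⟨(nat_lit 0), (nat_lit 0), (nat_lit 0), (nat_lit 0)⟩,
    ⟨(nat_lit 0x20564b6000), (nat_lit 0x20564b6000), (nat_lit 0x20564b6000), (nat_lit 0x20564b6000)⟩,
    ⟨(nat_lit 0x2878d), (nat_lit 0x2878d), (nat_lit 0x2878d), (nat_lit 0x2878d)⟩,
    ⟨(nat_lit 0x207797f000), (nat_lit 0x207797f000), (nat_lit 0x207797f000), (nat_lit 0x207797f000)⟩,
    (nat_lit 0x2878d), (nat_lit 0x287a3)⟩) (.lf ⟨⟨(nat_lit 0x20779a5000), (nat_lit 0x20779a5000), (nat_lit 0x20779a5000), (nat_lit 0x20779a5000)⟩,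
    ⟨(nat_lit 0x28fc0), (nat_lit 0x28fc0), (nat_lit 0x28fc0), (nat_lit 0x28fc0)⟩,
    ⟨(nat_lit 0x20564d0000), (nat_lit 0x20564d0000), (nat_lit 0x20564d0000), (nat_lit 0x20564d0000)⟩,
    ⟨(nat_lit 0x207797f000), (nat_lit 0x207797f000), (nat_lit 0x207797f000), (nat_lit 0x207797f000)⟩,
    ⟨(nat_lit 0x28fd6), (nat_lit 0x28fd6), (nat_lit 0x28fd6), (nat_lit 0x28fd6)⟩,
    ⟨(nat_lit 0), (nat_lit 0), (nat_lit 0), (nat_lit 0)⟩,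
    (nat_lit 0x28fc0), (nat_lit 0x28fd6)⟩)) (.nd (.lf ⟨⟨(nat_lit 0x2000000000), (nat_lit 0x2000000000), (nat_lit 0x2000000000), (nat_lit 0x2000000000)⟩,
    ⟨(nat_lit 0x100000), (nat_lit 0x100000), (nat_lit 0x100000), (nat_lit 0x100000)⟩,
    ⟨(nat_lit 0), (nat_lit 0), (nat_lit 0), (nat_lit 0)⟩,
    ⟨(nat_lit 0x2000000000), (nat_lit 0x2000000000), (nat_lit 0x2000000000), (nat_lit 0x2000000000)⟩,
    ⟨(nat_lit 0x100000), (nat_lit 0x100000), (nat_lit 0x100000), (nat_lit 0x100000)⟩,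
    ⟨(nat_lit 0x20cb2f5000), (nat_lit 0x20cb2f5000), (nat_lit 0x20cb2f5000), (nat_lit 0x20cb2f5000)⟩,
    (nat_lit 0x100000), (nat_lit 0x100000)⟩) (.lf ⟨⟨(nat_lit 0x20cb339000), (nat_lit 0x20cb339000), (nat_lit 0x20cb339000), (nat_lit 0x20cb339000)⟩,
    ⟨(nat_lit 0xf03a7), (nat_lit 0xf03a7), (nat_lit 0xf03a7), (nat_lit 0xf03a7)⟩,
    ⟨(nat_lit 0x2000000000), (nat_lit 0x2000000000), (nat_lit 0x2000000000), (nat_lit 0x2000000000)⟩,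
    ⟨(nat_lit 0x20cb2f5000), (nat_lit 0x20cb2f5000), (nat_lit 0x20cb2f5000), (nat_lit 0x20cb2f5000)⟩,
    ⟨(nat_lit 0xf0439), (nat_lit 0xf0439), (nat_lit 0xf0439), (nat_lit 0xf0439)⟩,
    ⟨(nat_lit 0), (nat_lit 0), (nat_lit 0), (nat_lit 0)⟩,
    (nat_lit 0xf03a7), (nat_lit 0xf0439)⟩)))
  nx := .nd (.nd (.lf (nat_lit 64)) (.lf (nat_lit 57))) (.nd (.lf (nat_lit 122)) (.lf (nat_lit 23)))
  mir := (nat_lit 22)

noncomputable def cx24 : CtxD where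
  sd := .nd (.nd (.nd (.lf ⟨⟨(nat_lit 0x2000000000), (nat_lit 0x2000000000), (nat_lit 0x2000000000), (nat_lit 0x2000000000)⟩,
    ⟨(nat_lit 0x21b72), (nat_lit 0x21b72), (nat_lit 0x21b72), (nat_lit 0x21b72)⟩,
    ⟨(nat_lit 0), (nat_lit 0), (nat_lit 0), (nat_lit 0)⟩,
    ⟨(nat_lit 0x2000000000), (nat_lit 0x2000000000), (nat_lit 0x2000000000), (nat_lit 0x2000000000)⟩,
    ⟨(nat_lit 0x21b70), (nat_lit 0x21b70), (nat_lit 0x21b70), (nat_lit 0x21b70)⟩,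
    ⟨(nat_lit 0x203b4c0000), (nat_lit 0x203b4c0000), (nat_lit 0x203b4c0000), (nat_lit 0x203b4c0000)⟩,
    (nat_lit 0x21b70), (nat_lit 0x21b72)⟩) (.lf ⟨⟨(nat_lit 0x203b4c8000), (nat_lit 0x203b4c8000), (nat_lit 0x203b4c8000), (nat_lit 0x203b4c8000)⟩,
    ⟨(nat_lit 0xa0d99), (nat_lit 0xa0d99), (nat_lit 0xa0d99), (nat_lit 0xa0d99)⟩,
    ⟨(nat_lit 0x2000000000), (nat_lit 0x2000000000), (nat_lit 0x2000000000), (nat_lit 0x2000000000)⟩,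
    ⟨(nat_lit 0x203b4c0000), (nat_lit 0x203b4c0000), (nat_lit 0x203b4c0000), (nat_lit 0x203b4c0000)⟩,
    ⟨(nat_lit 0xa0dcf), (nat_lit 0xa0dcf), (nat_lit 0xa0dcf), (nat_lit 0xa0dcf)⟩,
    ⟨(nat_lit 0), (nat_lit 0), (nat_lit 0), (nat_lit 0)⟩,
    (nat_lit 0xa0d99), (nat_lit 0xa0dcf)⟩)) (.nd (.lf ⟨⟨(nat_lit 0x210c14e000), (nat_lit 0x210c14e000), (nat_lit 0x210c14e000), (nat_lit 0x210c14e000)⟩,
    ⟨(nat_lit 0xe4e8a), (nat_lit 0xe4e8a), (nat_lit 0xe4e8a), (nat_lit 0xe4e8a)⟩,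
    ⟨(nat_lit 0), (nat_lit 0), (nat_lit 0), (nat_lit 0)⟩,
    ⟨(nat_lit 0x210c12c000), (nat_lit 0x210c12c000), (nat_lit 0x210c12c000), (nat_lit 0x210c12c000)⟩,
    ⟨(nat_lit 0xe4e3a), (nat_lit 0xe4e3a), (nat_lit 0xe4e3a), (nat_lit 0xe4e3a)⟩,
    ⟨(nat_lit 0x21972b0000), (nat_lit 0x21972b0000), (nat_lit 0x21972b0000), (nat_lit 0x21972b0000)⟩,
    (nat_lit 0xe4e3a), (nat_lit 0xe4e8a)⟩) (.lf ⟨⟨(nat_lit 0x21972f2000), (nat_lit 0x21972f2000), (nat_lit 0x21972f2000), (nat_lit 0x21972f2000)⟩,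
    ⟨(nat_lit 0x82136), (nat_lit 0x82136), (nat_lit 0x82136), (nat_lit 0x82136)⟩,
    ⟨(nat_lit 0x210c14e000), (nat_lit 0x210c14e000), (nat_lit 0x210c14e000), (nat_lit 0x210c14e000)⟩,
    ⟨(nat_lit 0x21972b0000), (nat_lit 0x21972b0000), (nat_lit 0x21972b0000), (nat_lit 0x21972b0000)⟩,
    ⟨(nat_lit 0x82172), (nat_lit 0x82172), (nat_lit 0x82172), (nat_lit 0x82172)⟩,
    ⟨(nat_lit 0), (nat_lit 0), (nat_lit 0), (nat_lit 0)⟩,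
    (nat_lit 0x82136), (nat_lit 0x82172)⟩))) (.nd (.nd (.lf ⟨⟨(nat_lit 0x20701fa000), (nat_lit 0x20701fa000), (nat_lit 0x20701fa000), (nat_lit 0x20701fa000)⟩,
    ⟨(nat_lit 0x4a471), (nat_lit 0x4a471), (nat_lit 0x4a471), (nat_lit 0x4a471)⟩,
    ⟨(nat_lit 0), (nat_lit 0), (nat_lit 0), (nat_lit 0)⟩,
    ⟨(nat_lit 0x20701ee000), (nat_lit 0x20701ee000), (nat_lit 0x20701ee000), (nat_lit 0x20701ee000)⟩,
    ⟨(nat_lit 0x4a459), (nat_lit 0x4a459), (nat_lit 0x4a459), (nat_lit 0x4a459)⟩,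
    ⟨(nat_lit 0x20ac9dd000), (nat_lit 0x20ac9dd000), (nat_lit 0x20ac9dd000), (nat_lit 0x20ac9dd000)⟩,
    (nat_lit 0x4a459), (nat_lit 0x4a471)⟩) (.lf ⟨⟨(nat_lit 0x20ac9f1000), (nat_lit 0x20ac9f1000), (nat_lit 0x20ac9f1000), (nat_lit 0x20ac9f1000)⟩,
    ⟨(nat_lit 0x48e69), (nat_lit 0x48e69), (nat_lit 0x48e69), (nat_lit 0x48e69)⟩,
    ⟨(nat_lit 0x20701fa000), (nat_lit 0x20701fa000), (nat_lit 0x20701fa000), (nat_lit 0x20701fa000)⟩,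
    ⟨(nat_lit 0x20ac9dd000), (nat_lit 0x20ac9dd000), (nat_lit 0x20ac9dd000), (nat_lit 0x20ac9dd000)⟩,
    ⟨(nat_lit 0x48e81), (nat_lit 0x48e81), (nat_lit 0x48e81), (nat_lit 0x48e81)⟩,
    ⟨(nat_lit 0), (nat_lit 0), (nat_lit 0), (nat_lit 0)⟩,
    (nat_lit 0x48e69), (nat_lit 0x48e81)⟩)) (.nd (.lf ⟨⟨(nat_lit 0x2000000000), (nat_lit 0x2000000000), (nat_lit 0x2000000000), (nat_lit 0x2000000000)⟩,
    ⟨(nat_lit 0x100000), (nat_lit 0x100000), (nat_lit 0x100000), (nat_lit 0x100000)⟩,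
    ⟨(nat_lit 0), (nat_lit 0), (nat_lit 0), (nat_lit 0)⟩,
    ⟨(nat_lit 0x2000000000), (nat_lit 0x2000000000), (nat_lit 0x2000000000), (nat_lit 0x2000000000)⟩,
    ⟨(nat_lit 0x100000), (nat_lit 0x100000), (nat_lit 0x100000), (nat_lit 0x100000)⟩,
    ⟨(nat_lit 0x21972b0000), (nat_lit 0x21972b0000), (nat_lit 0x21972b0000), (nat_lit 0x21972b0000)⟩,
    (nat_lit 0x100000), (nat_lit 0x100000)⟩) (.lf ⟨⟨(nat_lit 0x21972f2000), (nat_lit 0x21972f2000), (nat_lit 0x21972f2000), (nat_lit 0x21972f2000)⟩,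
    ⟨(nat_lit 0x3dbac5), (nat_lit 0x3dbac5), (nat_lit 0x3dbac5), (nat_lit 0x3dbac5)⟩,
    ⟨(nat_lit 0x2000000000), (nat_lit 0x2000000000), (nat_lit 0x2000000000), (nat_lit 0x2000000000)⟩,
    ⟨(nat_lit 0x21972b0000), (nat_lit 0x21972b0000), (nat_lit 0x21972b0000), (nat_lit 0x21972b0000)⟩,
    ⟨(nat_lit 0x3dbc89), (nat_lit 0x3dbc89), (nat_lit 0x3dbc89), (nat_lit 0x3dbc89)⟩,
    ⟨(nat_lit 0), (nat_lit 0), (nat_lit 0), (nat_lit 0)⟩,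
    (nat_lit 0x3dbac5), (nat_lit 0x3dbc89)⟩)))
  nx := .nd (.nd (.lf (nat_lit 34)) (.lf (nat_lit 91))) (.nd (.lf (nat_lit 105)) (.lf (nat_lit 24)))
  mir := (nat_lit 25)

noncomputable def cx25 : CtxD where
  sd := .nd (.nd (.nd (.lf ⟨⟨(nat_lit 0x2000000000), (nat_lit 0x2000000000), (nat_lit 0x2000000000), (nat_lit 0x2000000000)⟩,
    ⟨(nat_lit 0x21b72), (nat_lit 0x21b72), (nat_lit 0x21b72), (nat_lit 0x21b72)⟩,
    ⟨(nat_lit 0), (nat_lit 0), (nat_lit 0), (nat_lit 0)⟩,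
    ⟨(nat_lit 0x2000000000), (nat_lit 0x2000000000), (nat_lit 0x2000000000), (nat_lit 0x2000000000)⟩,
    ⟨(nat_lit 0x21b70), (nat_lit 0x21b70), (nat_lit 0x21b70), (nat_lit 0x21b70)⟩,
    ⟨(nat_lit 0x20240ce000), (nat_lit 0x20240ce000), (nat_lit 0x20240ce000), (nat_lit 0x20240ce000)⟩,
    (nat_lit 0x21b70), (nat_lit 0x21b72)⟩) (.lf ⟨⟨(nat_lit 0x20240da000), (nat_lit 0x20240da000), (nat_lit 0x20240da000), (nat_lit 0x20240da000)⟩,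
    ⟨(nat_lit 0x3b528), (nat_lit 0x3b528), (nat_lit 0x3b528), (nat_lit 0x3b528)⟩,
    ⟨(nat_lit 0x2000000000), (nat_lit 0x2000000000), (nat_lit 0x2000000000), (nat_lit 0x2000000000)⟩,
    ⟨(nat_lit 0x20240ce000), (nat_lit 0x20240ce000), (nat_lit 0x20240ce000), (nat_lit 0x20240ce000)⟩,
    ⟨(nat_lit 0x3b548), (nat_lit 0x3b548), (nat_lit 0x3b548), (nat_lit 0x3b548)⟩,
    ⟨(nat_lit 0), (nat_lit 0), (nat_lit 0), (nat_lit 0)⟩,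
    (nat_lit 0x3b528), (nat_lit 0x3b548)⟩)) (.nd (.lf ⟨⟨(nat_lit 0x205a2ac000), (nat_lit 0x205a2ac000), (nat_lit 0x205a2ac000), (nat_lit 0x205a2ac000)⟩,
    ⟨(nat_lit 0x29b1b), (nat_lit 0x29b1b), (nat_lit 0x29b1b), (nat_lit 0x29b1b)⟩,
    ⟨(nat_lit 0), (nat_lit 0), (nat_lit 0), (nat_lit 0)⟩,
    ⟨(nat_lit 0x205a28e000), (nat_lit 0x205a28e000), (nat_lit 0x205a28e000), (nat_lit 0x205a28e000)⟩,
    ⟨(nat_lit 0x29b01), (nat_lit 0x29b01), (nat_lit 0x29b01), (nat_lit 0x29b01)⟩,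
    ⟨(nat_lit 0x2069872000), (nat_lit 0x2069872000), (nat_lit 0x2069872000), (nat_lit 0x2069872000)⟩,
    (nat_lit 0x29b01), (nat_lit 0x29b1b)⟩) (.lf ⟨⟨(nat_lit 0x2069896000), (nat_lit 0x2069896000), (nat_lit 0x2069896000), (nat_lit 0x2069896000)⟩,
    ⟨(nat_lit 35789), (nat_lit 35789), (nat_lit 35789), (nat_lit 35789)⟩,
    ⟨(nat_lit 0x205a2ac000), (nat_lit 0x205a2ac000), (nat_lit 0x205a2ac000), (nat_lit 0x205a2ac000)⟩,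
    ⟨(nat_lit 0x2069872000), (nat_lit 0x2069872000), (nat_lit 0x2069872000), (nat_lit 0x2069872000)⟩,
    ⟨(nat_lit 35795), (nat_lit 35795), (nat_lit 35795), (nat_lit 35795)⟩,
    ⟨(nat_lit 0), (nat_lit 0), (nat_lit 0), (nat_lit 0)⟩,
    (nat_lit 35789), (nat_lit 35795)⟩))) (.nd (.nd (.lf ⟨⟨(nat_lit 0x203ccb9000), (nat_lit 0x203ccb9000), (nat_lit 0x203ccb9000), (nat_lit 0x203ccb9000)⟩,
    ⟨(nat_lit 0x12e59), (nat_lit 0x12e59), (nat_lit 0x12e59), (nat_lit 0x12e59)⟩,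
    ⟨(nat_lit 0), (nat_lit 0), (nat_lit 0), (nat_lit 0)⟩,
    ⟨(nat_lit 0x203cca5000), (nat_lit 0x203cca5000), (nat_lit 0x203cca5000), (nat_lit 0x203cca5000)⟩,
    ⟨(nat_lit 0x12e4d), (nat_lit 0x12e4d), (nat_lit 0x12e4d), (nat_lit 0x12e4d)⟩,
    ⟨(nat_lit 0x204c781000), (nat_lit 0x204c781000), (nat_lit 0x204c781000), (nat_lit 0x204c781000)⟩,
    (nat_lit 0x12e4d), (nat_lit 0x12e59)⟩) (.lf ⟨⟨(nat_lit 0x204c79b000), (nat_lit 0x204c79b000), (nat_lit 0x204c79b000), (nat_lit 0x204c79b000)⟩,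
    ⟨(nat_lit 0x133fc), (nat_lit 0x133fc), (nat_lit 0x133fc), (nat_lit 0x133fc)⟩,
    ⟨(nat_lit 0x203ccb9000), (nat_lit 0x203ccb9000), (nat_lit 0x203ccb9000), (nat_lit 0x203ccb9000)⟩,
    ⟨(nat_lit 0x204c781000), (nat_lit 0x204c781000), (nat_lit 0x204c781000), (nat_lit 0x204c781000)⟩,
    ⟨(nat_lit 0x13408), (nat_lit 0x13408), (nat_lit 0x13408), (nat_lit 0x13408)⟩,
    ⟨(nat_lit 0), (nat_lit 0), (nat_lit 0), (nat_lit 0)⟩,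
    (nat_lit 0x133fc), (nat_lit 0x13408)⟩)) (.nd (.lf ⟨⟨(nat_lit 0x2000000000), (nat_lit 0x2000000000), (nat_lit 0x2000000000), (nat_lit 0x2000000000)⟩,
    ⟨(nat_lit 0x100000), (nat_lit 0x100000), (nat_lit 0x100000), (nat_lit 0x100000)⟩,
    ⟨(nat_lit 0), (nat_lit 0), (nat_lit 0), (nat_lit 0)⟩,
    ⟨(nat_lit 0x2000000000), (nat_lit 0x2000000000), (nat_lit 0x2000000000), (nat_lit 0x2000000000)⟩,
    ⟨(nat_lit 0x100000), (nat_lit 0x100000), (nat_lit 0x100000), (nat_lit 0x100000)⟩,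
    ⟨(nat_lit 0x2069872000), (nat_lit 0x2069872000), (nat_lit 0x2069872000), (nat_lit 0x2069872000)⟩,
    (nat_lit 0x100000), (nat_lit 0x100000)⟩) (.lf ⟨⟨(nat_lit 0x2069896000), (nat_lit 0x2069896000), (nat_lit 0x2069896000), (nat_lit 0x2069896000)⟩,
    ⟨(nat_lit 0x4258b), (nat_lit 0x4258b), (nat_lit 0x4258b), (nat_lit 0x4258b)⟩,
    ⟨(nat_lit 0x2000000000), (nat_lit 0x2000000000), (nat_lit 0x2000000000), (nat_lit 0x2000000000)⟩,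
    ⟨(nat_lit 0x2069872000), (nat_lit 0x2069872000), (nat_lit 0x2069872000), (nat_lit 0x2069872000)⟩,
    ⟨(nat_lit 0x425ab), (nat_lit 0x425ab), (nat_lit 0x425ab), (nat_lit 0x425ab)⟩,
    ⟨(nat_lit 0), (nat_lit 0), (nat_lit 0), (nat_lit 0)⟩,
    (nat_lit 0x4258b), (nat_lit 0x425ab)⟩)))
  nx := .nd (.nd (.lf (nat_lit 90)) (.lf (nat_lit 35))) (.nd (.lf (nat_lit 104)) (.lf (nat_lit 25)))
  mir := (nat_lit 24)

noncomputable def cx26 : CtxD where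
  sd := .nd (.nd (.nd (.lf ⟨⟨(nat_lit 0x2000000000), (nat_lit 0x2000000000), (nat_lit 0x2000000000), (nat_lit 0x2000000000)⟩,
    ⟨(nat_lit 0x21b72), (nat_lit 0x21b72), (nat_lit 0x21b72), (nat_lit 0x21b72)⟩,
    ⟨(nat_lit 0), (nat_lit 0), (nat_lit 0), (nat_lit 0)⟩,
    ⟨(nat_lit 0x2000000000), (nat_lit 0x2000000000), (nat_lit 0x2000000000), (nat_lit 0x2000000000)⟩,
    ⟨(nat_lit 0x21b70), (nat_lit 0x21b70), (nat_lit 0x21b70), (nat_lit 0x21b70)⟩,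
    ⟨(nat_lit 0x203c55c000), (nat_lit 0x203c550000), (nat_lit 0x203c5b0000), (nat_lit 0x203c5a4000)⟩,
    (nat_lit 0x21b70), (nat_lit 0x21b72)⟩) (.lf ⟨⟨(nat_lit 0x203c56c000), (nat_lit 0x203c560000), (nat_lit 0x203c5c0000), (nat_lit 0x203c5b4000)⟩,
    ⟨(nat_lit 0xa702b), (nat_lit 0xa6fed), (nat_lit 0xa721f), (nat_lit 0xa71e1)⟩,
    ⟨(nat_lit 0x2000000000), (nat_lit 0x2000000000), (nat_lit 0x2000000000), (nat_lit 0x2000000000)⟩,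
    ⟨(nat_lit 0x203c55c000), (nat_lit 0x203c550000), (nat_lit 0x203c5b0000), (nat_lit 0x203c5a4000)⟩,
    ⟨(nat_lit 0xa7077), (nat_lit 0xa7039), (nat_lit 0xa726b), (nat_lit 0xa722d)⟩,
    ⟨(nat_lit 0), (nat_lit 0), (nat_lit 0), (nat_lit 0)⟩,
    (nat_lit 0xa6fed), (nat_lit 0xa726b)⟩)) (.nd (.lf ⟨⟨(nat_lit 0x21212df000), (nat_lit 0x21211e1000), (nat_lit 0x2121a25000), (nat_lit 0x2121927000)⟩,
    ⟨(nat_lit 0x106630), (nat_lit 0x106464), (nat_lit 0x10726a), (nat_lit 0x10709e)⟩,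
    ⟨(nat_lit 0), (nat_lit 0), (nat_lit 0), (nat_lit 0)⟩,
    ⟨(nat_lit 0x2121263000), (nat_lit 0x2121165000), (nat_lit 0x21219a9000), (nat_lit 0x21218ab000)⟩,
    ⟨(nat_lit 0x106546), (nat_lit 0x10637a), (nat_lit 0x107180), (nat_lit 0x106fb4)⟩,
    ⟨(nat_lit 0x21c9372000), (nat_lit 0x21c90fa000), (nat_lit 0x21ca5dc000), (nat_lit 0x21ca364000)⟩,
    (nat_lit 0x10637a), (nat_lit 0x10726a)⟩) (.lf ⟨⟨(nat_lit 0x21c9498000), (nat_lit 0x21c9220000), (nat_lit 0x21ca702000), (nat_lit 0x21ca48a000)⟩,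
    ⟨(nat_lit 0xa6478), (nat_lit 0xa62ac), (nat_lit 0xa7308), (nat_lit 0xa713c)⟩,
    ⟨(nat_lit 0x21212df000), (nat_lit 0x21211e1000), (nat_lit 0x2121a25000), (nat_lit 0x2121927000)⟩,
    ⟨(nat_lit 0x21c9372000), (nat_lit 0x21c90fa000), (nat_lit 0x21ca5dc000), (nat_lit 0x21ca364000)⟩,
    ⟨(nat_lit 0xa6568), (nat_lit 0xa639c), (nat_lit 0xa73f8), (nat_lit 0xa722c)⟩,
    ⟨(nat_lit 0), (nat_lit 0), (nat_lit 0), (nat_lit 0)⟩,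
    (nat_lit 0xa62ac), (nat_lit 0xa73f8)⟩))) (.nd (.nd (.lf ⟨⟨(nat_lit 0x207340c000), (nat_lit 0x20733e4000), (nat_lit 0x207350c000), (nat_lit 0x20734e4000)⟩,
    ⟨(nat_lit 0x4f1fa), (nat_lit 0x4f1c2), (nat_lit 0x4f390), (nat_lit 0x4f358)⟩,
    ⟨(nat_lit 0), (nat_lit 0), (nat_lit 0), (nat_lit 0)⟩,
    ⟨(nat_lit 0x20733ee000), (nat_lit 0x20733c6000), (nat_lit 0x20734ee000), (nat_lit 0x20734c6000)⟩,
    ⟨(nat_lit 0x4f1ce), (nat_lit 0x4f196), (nat_lit 0x4f364), (nat_lit 0x4f32c)⟩,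
    ⟨(nat_lit 0x20b452d000), (nat_lit 0x20b44cb000), (nat_lit 0x20b47b5000), (nat_lit 0x20b4753000)⟩,
    (nat_lit 0x4f196), (nat_lit 0x4f390)⟩) (.lf ⟨⟨(nat_lit 0x20b4567000), (nat_lit 0x20b4505000), (nat_lit 0x20b47ef000), (nat_lit 0x20b478d000)⟩,
    ⟨(nat_lit 0x4f15b), (nat_lit 0x4f105), (nat_lit 0x4f377), (nat_lit 0x4f321)⟩,
    ⟨(nat_lit 0x207340c000), (nat_lit 0x20733e4000), (nat_lit 0x207350c000), (nat_lit 0x20734e4000)⟩,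
    ⟨(nat_lit 0x20b452d000), (nat_lit 0x20b44cb000), (nat_lit 0x20b47b5000), (nat_lit 0x20b4753000)⟩,
    ⟨(nat_lit 0x4f191), (nat_lit 0x4f13b), (nat_lit 0x4f3ad), (nat_lit 0x4f357)⟩,
    ⟨(nat_lit 0), (nat_lit 0), (nat_lit 0), (nat_lit 0)⟩,
    (nat_lit 0x4f105), (nat_lit 0x4f3ad)⟩)) (.nd (.lf ⟨⟨(nat_lit 0x2000000000), (nat_lit 0x2000000000), (nat_lit 0x2000000000), (nat_lit 0x2000000000)⟩,
    ⟨(nat_lit 0x100000), (nat_lit 0x100000), (nat_lit 0x100000), (nat_lit 0x100000)⟩,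
    ⟨(nat_lit 0), (nat_lit 0), (nat_lit 0), (nat_lit 0)⟩,
    ⟨(nat_lit 0x2000000000), (nat_lit 0x2000000000), (nat_lit 0x2000000000), (nat_lit 0x2000000000)⟩,
    ⟨(nat_lit 0x100000), (nat_lit 0x100000), (nat_lit 0x100000), (nat_lit 0x100000)⟩,
    ⟨(nat_lit 0x21c9372000), (nat_lit 0x21c90fa000), (nat_lit 0x21ca5dc000), (nat_lit 0x21ca364000)⟩,
    (nat_lit 0x100000), (nat_lit 0x100000)⟩) (.lf ⟨⟨(nat_lit 0x21c9498000), (nat_lit 0x21c9220000), (nat_lit 0x21ca702000), (nat_lit 0x21ca48a000)⟩,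
    ⟨(nat_lit 0x4ee928), (nat_lit 0x4edb80), (nat_lit 0x4f57ba), (nat_lit 0x4f4a12)⟩,
    ⟨(nat_lit 0x2000000000), (nat_lit 0x2000000000), (nat_lit 0x2000000000), (nat_lit 0x2000000000)⟩,
    ⟨(nat_lit 0x21c9372000), (nat_lit 0x21c90fa000), (nat_lit 0x21ca5dc000), (nat_lit 0x21ca364000)⟩,
    ⟨(nat_lit 0x4ef036), (nat_lit 0x4ee28e), (nat_lit 0x4f5ec8), (nat_lit 0x4f5120)⟩,
    ⟨(nat_lit 0), (nat_lit 0), (nat_lit 0), (nat_lit 0)⟩,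
    (nat_lit 0x4edb80), (nat_lit 0x4f5ec8)⟩)))
  nx := .nd (.nd (.lf (nat_lit 26)) (.lf (nat_lit 103))) (.nd (.lf (nat_lit 109)) (.lf (nat_lit 26)))
  mir := (nat_lit 27)

noncomputable def cx27 : CtxD where
  sd := .nd (.nd (.nd (.lf ⟨⟨(nat_lit 0x2000000000), (nat_lit 0x2000000000), (nat_lit 0x2000000000), (nat_lit 0x2000000000)⟩,
    ⟨(nat_lit 0x21b72), (nat_lit 0x21b72), (nat_lit 0x21b72), (nat_lit 0x21b72)⟩,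
    ⟨(nat_lit 0), (nat_lit 0), (nat_lit 0), (nat_lit 0)⟩,
    ⟨(nat_lit 0x2000000000), (nat_lit 0x2000000000), (nat_lit 0x2000000000), (nat_lit 0x2000000000)⟩,
    ⟨(nat_lit 0x21b70), (nat_lit 0x21b70), (nat_lit 0x21b70), (nat_lit 0x21b70)⟩,
    ⟨(nat_lit 0x2022080000), (nat_lit 0x202206e000), (nat_lit 0x2022138000), (nat_lit 0x2022126000)⟩,
    (nat_lit 0x21b70), (nat_lit 0x21b72)⟩) (.lf ⟨⟨(nat_lit 0x202209c000), (nat_lit 0x202208a000), (nat_lit 0x2022154000), (nat_lit 0x2022142000)⟩,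
    ⟨(nat_lit 0x350ec), (nat_lit 0x350b6), (nat_lit 0x35316), (nat_lit 0x352e0)⟩,
    ⟨(nat_lit 0x2000000000), (nat_lit 0x2000000000), (nat_lit 0x2000000000), (nat_lit 0x2000000000)⟩,
    ⟨(nat_lit 0x2022080000), (nat_lit 0x202206e000), (nat_lit 0x2022138000), (nat_lit 0x2022126000)⟩,
    ⟨(nat_lit 0x35124), (nat_lit 0x350ee), (nat_lit 0x3534e), (nat_lit 0x35318)⟩,
    ⟨(nat_lit 0), (nat_lit 0), (nat_lit 0), (nat_lit 0)⟩,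
    (nat_lit 0x350b6), (nat_lit 0x3534e)⟩)) (.nd (.lf ⟨⟨(nat_lit 0x2050499000), (nat_lit 0x2050439000), (nat_lit 0x20507f5000), (nat_lit 0x2050795000)⟩,
    ⟨(nat_lit 0x21b9c), (nat_lit 0x21b4c), (nat_lit 0x21e2a), (nat_lit 0x21dda)⟩,
    ⟨(nat_lit 0), (nat_lit 0), (nat_lit 0), (nat_lit 0)⟩,
    ⟨(nat_lit 0x205044b000), (nat_lit 0x20503eb000), (nat_lit 0x20507a7000), (nat_lit 0x2050747000)⟩,
    ⟨(nat_lit 0x21b66), (nat_lit 0x21b16), (nat_lit 0x21df4), (nat_lit 0x21da4)⟩,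
    ⟨(nat_lit 0x205c718000), (nat_lit 0x205c698000), (nat_lit 0x205cb74000), (nat_lit 0x205caf4000)⟩,
    (nat_lit 0x21b16), (nat_lit 0x21e2a)⟩) (.lf ⟨⟨(nat_lit 0x205c776000), (nat_lit 0x205c6f6000), (nat_lit 0x205cbd2000), (nat_lit 0x205cb52000)⟩,
    ⟨(nat_lit 27856), (nat_lit 27838), (nat_lit 28008), (nat_lit 27990)⟩,
    ⟨(nat_lit 0x2050499000), (nat_lit 0x2050439000), (nat_lit 0x20507f5000), (nat_lit 0x2050795000)⟩,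
    ⟨(nat_lit 0x205c718000), (nat_lit 0x205c698000), (nat_lit 0x205cb74000), (nat_lit 0x205caf4000)⟩,
    ⟨(nat_lit 27868), (nat_lit 27850), (nat_lit 28020), (nat_lit 28002)⟩,
    ⟨(nat_lit 0), (nat_lit 0), (nat_lit 0), (nat_lit 0)⟩,
    (nat_lit 27838), (nat_lit 28020)⟩))) (.nd (.nd (.lf ⟨⟨(nat_lit 0x20380cf000), (nat_lit 0x20380a1000), (nat_lit 0x203827f000), (nat_lit 0x2038251000)⟩,
    ⟨(nat_lit 65464), (nat_lit 65438), (nat_lit 0x100b0), (nat_lit 0x10096)⟩,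
    ⟨(nat_lit 0), (nat_lit 0), (nat_lit 0), (nat_lit 0)⟩,
    ⟨(nat_lit 0x203809f000), (nat_lit 0x2038071000), (nat_lit 0x203824f000), (nat_lit 0x2038221000)⟩,
    ⟨(nat_lit 65440), (nat_lit 65414), (nat_lit 0x10098), (nat_lit 0x1007e)⟩,
    ⟨(nat_lit 0x20452f2000), (nat_lit 0x20452aa000), (nat_lit 0x204557a000), (nat_lit 0x2045532000)⟩,
    (nat_lit 65414), (nat_lit 0x100b0)⟩) (.lf ⟨⟨(nat_lit 0x2045332000), (nat_lit 0x20452ea000), (nat_lit 0x20455ba000), (nat_lit 0x2045572000)⟩,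
    ⟨(nat_lit 65442), (nat_lit 65408), (nat_lit 0x100b6), (nat_lit 0x10094)⟩,
    ⟨(nat_lit 0x20380cf000), (nat_lit 0x20380a1000), (nat_lit 0x203827f000), (nat_lit 0x2038251000)⟩,
    ⟨(nat_lit 0x20452f2000), (nat_lit 0x20452aa000), (nat_lit 0x204557a000), (nat_lit 0x2045532000)⟩,
    ⟨(nat_lit 65466), (nat_lit 65432), (nat_lit 0x100ce), (nat_lit 0x100ac)⟩,
    ⟨(nat_lit 0), (nat_lit 0), (nat_lit 0), (nat_lit 0)⟩,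
    (nat_lit 65408), (nat_lit 0x100ce)⟩)) (.nd (.lf ⟨⟨(nat_lit 0x2000000000), (nat_lit 0x2000000000), (nat_lit 0x2000000000), (nat_lit 0x2000000000)⟩,
    ⟨(nat_lit 0x100000), (nat_lit 0x100000), (nat_lit 0x100000), (nat_lit 0x100000)⟩,
    ⟨(nat_lit 0), (nat_lit 0), (nat_lit 0), (nat_lit 0)⟩,
    ⟨(nat_lit 0x2000000000), (nat_lit 0x2000000000), (nat_lit 0x2000000000), (nat_lit 0x2000000000)⟩,
    ⟨(nat_lit 0x100000), (nat_lit 0x100000), (nat_lit 0x100000), (nat_lit 0x100000)⟩,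
    ⟨(nat_lit 0x205c718000), (nat_lit 0x205c698000), (nat_lit 0x205cb74000), (nat_lit 0x205caf4000)⟩,
    (nat_lit 0x100000), (nat_lit 0x100000)⟩) (.lf ⟨⟨(nat_lit 0x205c776000), (nat_lit 0x205c6f6000), (nat_lit 0x205cbd2000), (nat_lit 0x205cb52000)⟩,
    ⟨(nat_lit 0x33a3d), (nat_lit 0x339af), (nat_lit 0x33ec3), (nat_lit 0x33e35)⟩,
    ⟨(nat_lit 0x2000000000), (nat_lit 0x2000000000), (nat_lit 0x2000000000), (nat_lit 0x2000000000)⟩,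
    ⟨(nat_lit 0x205c718000), (nat_lit 0x205c698000), (nat_lit 0x205cb74000), (nat_lit 0x205caf4000)⟩,
    ⟨(nat_lit 0x33a8d), (nat_lit 0x339ff), (nat_lit 0x33f13), (nat_lit 0x33e85)⟩,
    ⟨(nat_lit 0), (nat_lit 0), (nat_lit 0), (nat_lit 0)⟩,
    (nat_lit 0x339af), (nat_lit 0x33f13)⟩)))
  nx := .nd (.nd (.lf (nat_lit 102)) (.lf (nat_lit 27))) (.nd (.lf (nat_lit 108)) (.lf (nat_lit 27)))
  mir := (nat_lit 26)

noncomputable def cx28 : CtxD where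
  sd := .nd (.nd (.nd (.lf ⟨⟨(nat_lit 0x2000000000), (nat_lit 0x2000000000), (nat_lit 0x2000000000), (nat_lit 0x2000000000)⟩,
    ⟨(nat_lit 0x21b72), (nat_lit 0x21b72), (nat_lit 0x21b72), (nat_lit 0x21b72)⟩,
    ⟨(nat_lit 0), (nat_lit 0), (nat_lit 0), (nat_lit 0)⟩,
    ⟨(nat_lit 0x2000000000), (nat_lit 0x2000000000), (nat_lit 0x2000000000), (nat_lit 0x2000000000)⟩,
    ⟨(nat_lit 0x21b70), (nat_lit 0x21b70), (nat_lit 0x21b70), (nat_lit 0x21b70)⟩,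
    ⟨(nat_lit 0x203c410000), (nat_lit 0x203c408000), (nat_lit 0x203c462000), (nat_lit 0x203c45a000)⟩,
    (nat_lit 0x21b70), (nat_lit 0x21b72)⟩) (.lf ⟨⟨(nat_lit 0x203c41e000), (nat_lit 0x203c416000), (nat_lit 0x203c470000), (nat_lit 0x203c468000)⟩,
    ⟨(nat_lit 0xa684c), (nat_lit 0xa6822), (nat_lit 0xa6a32), (nat_lit 0xa6a08)⟩,
    ⟨(nat_lit 0x2000000000), (nat_lit 0x2000000000), (nat_lit 0x2000000000), (nat_lit 0x2000000000)⟩,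
    ⟨(nat_lit 0x203c410000), (nat_lit 0x203c408000), (nat_lit 0x203c462000), (nat_lit 0x203c45a000)⟩,
    ⟨(nat_lit 0xa6894), (nat_lit 0xa686a), (nat_lit 0xa6a7a), (nat_lit 0xa6a50)⟩,
    ⟨(nat_lit 0), (nat_lit 0), (nat_lit 0), (nat_lit 0)⟩,
    (nat_lit 0xa6822), (nat_lit 0xa6a7a)⟩)) (.nd (.lf ⟨⟨(nat_lit 0x211f623000), (nat_lit 0x211f577000), (nat_lit 0x211fd51000), (nat_lit 0x211fca5000)⟩,
    ⟨(nat_lit 0x1036bb), (nat_lit 0x103583), (nat_lit 0x1042f5), (nat_lit 0x1041bd)⟩,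
    ⟨(nat_lit 0), (nat_lit 0), (nat_lit 0), (nat_lit 0)⟩,
    ⟨(nat_lit 0x211f5b5000), (nat_lit 0x211f509000), (nat_lit 0x211fce3000), (nat_lit 0x211fc37000)⟩,
    ⟨(nat_lit 0x1035e5), (nat_lit 0x1034ad), (nat_lit 0x10421f), (nat_lit 0x1040e7)⟩,
    ⟨(nat_lit 0x21c4b52000), (nat_lit 0x21c49a6000), (nat_lit 0x21c5d3c000), (nat_lit 0x21c5b90000)⟩,
    (nat_lit 0x1034ad), (nat_lit 0x1042f5)⟩) (.lf ⟨⟨(nat_lit 0x21c4c56000), (nat_lit 0x21c4aaa000), (nat_lit 0x21c5e40000), (nat_lit 0x21c5c94000)⟩,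
    ⟨(nat_lit 0xa2b7c), (nat_lit 0xa2a48), (nat_lit 0xa391c), (nat_lit 0xa37e8)⟩,
    ⟨(nat_lit 0x211f623000), (nat_lit 0x211f577000), (nat_lit 0x211fd51000), (nat_lit 0x211fca5000)⟩,
    ⟨(nat_lit 0x21c4b52000), (nat_lit 0x21c49a6000), (nat_lit 0x21c5d3c000), (nat_lit 0x21c5b90000)⟩,
    ⟨(nat_lit 0xa2c56), (nat_lit 0xa2b22), (nat_lit 0xa39f6), (nat_lit 0xa38c2)⟩,
    ⟨(nat_lit 0), (nat_lit 0), (nat_lit 0), (nat_lit 0)⟩,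
    (nat_lit 0xa2a48), (nat_lit 0xa39f6)⟩))) (.nd (.nd (.lf ⟨⟨(nat_lit 0x2073022000), (nat_lit 0x2073006000), (nat_lit 0x207312e000), (nat_lit 0x2073112000)⟩,
    ⟨(nat_lit 0x4ebae), (nat_lit 0x4eb88), (nat_lit 0x4ed42), (nat_lit 0x4ed1c)⟩,
    ⟨(nat_lit 0), (nat_lit 0), (nat_lit 0), (nat_lit 0)⟩,
    ⟨(nat_lit 0x2073006000), (nat_lit 0x2072fea000), (nat_lit 0x2073112000), (nat_lit 0x20730f6000)⟩,
    ⟨(nat_lit 0x4eb86), (nat_lit 0x4eb60), (nat_lit 0x4ed1a), (nat_lit 0x4ecf4)⟩,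
    ⟨(nat_lit 0x20b3b49000), (nat_lit 0x20b3b05000), (nat_lit 0x20b3de3000), (nat_lit 0x20b3d9f000)⟩,
    (nat_lit 0x4eb60), (nat_lit 0x4ed42)⟩) (.lf ⟨⟨(nat_lit 0x20b3b7b000), (nat_lit 0x20b3b37000), (nat_lit 0x20b3e15000), (nat_lit 0x20b3dd1000)⟩,
    ⟨(nat_lit 0x4e93a), (nat_lit 0x4e8fe), (nat_lit 0x4eb6a), (nat_lit 0x4eb2e)⟩,
    ⟨(nat_lit 0x2073022000), (nat_lit 0x2073006000), (nat_lit 0x207312e000), (nat_lit 0x2073112000)⟩,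
    ⟨(nat_lit 0x20b3b49000), (nat_lit 0x20b3b05000), (nat_lit 0x20b3de3000), (nat_lit 0x20b3d9f000)⟩,
    ⟨(nat_lit 0x4e96c), (nat_lit 0x4e930), (nat_lit 0x4eb9c), (nat_lit 0x4eb60)⟩,
    ⟨(nat_lit 0), (nat_lit 0), (nat_lit 0), (nat_lit 0)⟩,
    (nat_lit 0x4e8fe), (nat_lit 0x4eb9c)⟩)) (.nd (.lf ⟨⟨(nat_lit 0x2000000000), (nat_lit 0x2000000000), (nat_lit 0x2000000000), (nat_lit 0x2000000000)⟩,
    ⟨(nat_lit 0x100000), (nat_lit 0x100000), (nat_lit 0x100000), (nat_lit 0x100000)⟩,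
    ⟨(nat_lit 0), (nat_lit 0), (nat_lit 0), (nat_lit 0)⟩,
    ⟨(nat_lit 0x2000000000), (nat_lit 0x2000000000), (nat_lit 0x2000000000), (nat_lit 0x2000000000)⟩,
    ⟨(nat_lit 0x100000), (nat_lit 0x100000), (nat_lit 0x100000), (nat_lit 0x100000)⟩,
    ⟨(nat_lit 0x21c4b52000), (nat_lit 0x21c49a6000), (nat_lit 0x21c5d3c000), (nat_lit 0x21c5b90000)⟩,
    (nat_lit 0x100000), (nat_lit 0x100000)⟩) (.lf ⟨⟨(nat_lit 0x21c4c56000), (nat_lit 0x21c4aaa000), (nat_lit 0x21c5e40000), (nat_lit 0x21c5c94000)⟩,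
    ⟨(nat_lit 0x4d3877), (nat_lit 0x4d2f53), (nat_lit 0x4d9ff1), (nat_lit 0x4d96cd)⟩,
    ⟨(nat_lit 0x2000000000), (nat_lit 0x2000000000), (nat_lit 0x2000000000), (nat_lit 0x2000000000)⟩,
    ⟨(nat_lit 0x21c4b52000), (nat_lit 0x21c49a6000), (nat_lit 0x21c5d3c000), (nat_lit 0x21c5b90000)⟩,
    ⟨(nat_lit 0x4d3edf), (nat_lit 0x4d35bb), (nat_lit 0x4da659), (nat_lit 0x4d9d35)⟩,
    ⟨(nat_lit 0), (nat_lit 0), (nat_lit 0), (nat_lit 0)⟩,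
    (nat_lit 0x4d2f53), (nat_lit 0x4da659)⟩)))
  nx := .nd (.nd (.lf (nat_lit 26)) (.lf (nat_lit 99))) (.nd (.lf (nat_lit 109)) (.lf (nat_lit 28)))
  mir := (nat_lit 29)

noncomputable def cx29 : CtxD where
  sd := .nd (.nd (.nd (.lf ⟨⟨(nat_lit 0x2000000000), (nat_lit 0x2000000000), (nat_lit 0x2000000000), (nat_lit 0x2000000000)⟩,
    ⟨(nat_lit 0x21b72), (nat_lit 0x21b72), (nat_lit 0x21b72), (nat_lit 0x21b72)⟩,
    ⟨(nat_lit 0), (nat_lit 0), (nat_lit 0), (nat_lit 0)⟩,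
    ⟨(nat_lit 0x2000000000), (nat_lit 0x2000000000), (nat_lit 0x2000000000), (nat_lit 0x2000000000)⟩,
    ⟨(nat_lit 0x21b70), (nat_lit 0x21b70), (nat_lit 0x21b70), (nat_lit 0x21b70)⟩,
    ⟨(nat_lit 0x202237e000), (nat_lit 0x2022372000), (nat_lit 0x2022422000), (nat_lit 0x2022416000)⟩,
    (nat_lit 0x21b70), (nat_lit 0x21b72)⟩) (.lf ⟨⟨(nat_lit 0x2022398000), (nat_lit 0x202238c000), (nat_lit 0x202243c000), (nat_lit 0x2022430000)⟩,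
    ⟨(nat_lit 0x359e0), (nat_lit 0x359bc), (nat_lit 0x35bd6), (nat_lit 0x35bb2)⟩,
    ⟨(nat_lit 0x2000000000), (nat_lit 0x2000000000), (nat_lit 0x2000000000), (nat_lit 0x2000000000)⟩,
    ⟨(nat_lit 0x202237e000), (nat_lit 0x2022372000), (nat_lit 0x2022422000), (nat_lit 0x2022416000)⟩,
    ⟨(nat_lit 0x35a18), (nat_lit 0x359f4), (nat_lit 0x35c0e), (nat_lit 0x35bea)⟩,
    ⟨(nat_lit 0), (nat_lit 0), (nat_lit 0), (nat_lit 0)⟩,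
    (nat_lit 0x359bc), (nat_lit 0x35c0e)⟩)) (.nd (.lf ⟨⟨(nat_lit 0x2051231000), (nat_lit 0x20511ef000), (nat_lit 0x2051557000), (nat_lit 0x2051515000)⟩,
    ⟨(nat_lit 0x225d0), (nat_lit 0x22598), (nat_lit 0x2284c), (nat_lit 0x22814)⟩,
    ⟨(nat_lit 0), (nat_lit 0), (nat_lit 0), (nat_lit 0)⟩,
    ⟨(nat_lit 0x20511e9000), (nat_lit 0x20511a7000), (nat_lit 0x205150f000), (nat_lit 0x20514cd000)⟩,
    ⟨(nat_lit 0x2259c), (nat_lit 0x22564), (nat_lit 0x22818), (nat_lit 0x227e0)⟩,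
    ⟨(nat_lit 0x205d8b7000), (nat_lit 0x205d85f000), (nat_lit 0x205dcd7000), (nat_lit 0x205dc7f000)⟩,
    (nat_lit 0x22564), (nat_lit 0x2284c)⟩) (.lf ⟨⟨(nat_lit 0x205d90f000), (nat_lit 0x205d8b7000), (nat_lit 0x205dd2f000), (nat_lit 0x205dcd7000)⟩,
    ⟨(nat_lit 28467), (nat_lit 28453), (nat_lit 28617), (nat_lit 28603)⟩,
    ⟨(nat_lit 0x2051231000), (nat_lit 0x20511ef000), (nat_lit 0x2051557000), (nat_lit 0x2051515000)⟩,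
    ⟨(nat_lit 0x205d8b7000), (nat_lit 0x205d85f000), (nat_lit 0x205dcd7000), (nat_lit 0x205dc7f000)⟩,
    ⟨(nat_lit 28479), (nat_lit 28465), (nat_lit 28629), (nat_lit 28615)⟩,
    ⟨(nat_lit 0), (nat_lit 0), (nat_lit 0), (nat_lit 0)⟩,
    (nat_lit 28453), (nat_lit 28629)⟩))) (.nd (.nd (.lf ⟨⟨(nat_lit 0x20387a5000), (nat_lit 0x2038785000), (nat_lit 0x2038933000), (nat_lit 0x2038913000)⟩,
    ⟨(nat_lit 0x103ae), (nat_lit 0x1039c), (nat_lit 0x10496), (nat_lit 0x10484)⟩,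
    ⟨(nat_lit 0), (nat_lit 0), (nat_lit 0), (nat_lit 0)⟩,
    ⟨(nat_lit 0x2038779000), (nat_lit 0x2038759000), (nat_lit 0x2038907000), (nat_lit 0x20388e7000)⟩,
    ⟨(nat_lit 0x10398), (nat_lit 0x10386), (nat_lit 0x10480), (nat_lit 0x1046e)⟩,
    ⟨(nat_lit 0x2045d31000), (nat_lit 0x2045cff000), (nat_lit 0x2045f8b000), (nat_lit 0x2045f59000)⟩,
    (nat_lit 0x10386), (nat_lit 0x10496)⟩) (.lf ⟨⟨(nat_lit 0x2045d6d000), (nat_lit 0x2045d3b000), (nat_lit 0x2045fc7000), (nat_lit 0x2045f95000)⟩,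
    ⟨(nat_lit 0x103f4), (nat_lit 0x103de), (nat_lit 0x104fc), (nat_lit 0x104e6)⟩,
    ⟨(nat_lit 0x20387a5000), (nat_lit 0x2038785000), (nat_lit 0x2038933000), (nat_lit 0x2038913000)⟩,
    ⟨(nat_lit 0x2045d31000), (nat_lit 0x2045cff000), (nat_lit 0x2045f8b000), (nat_lit 0x2045f59000)⟩,
    ⟨(nat_lit 0x1040c), (nat_lit 0x103f6), (nat_lit 0x10514), (nat_lit 0x104fe)⟩,
    ⟨(nat_lit 0), (nat_lit 0), (nat_lit 0), (nat_lit 0)⟩,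
    (nat_lit 0x103de), (nat_lit 0x10514)⟩)) (.nd (.lf ⟨⟨(nat_lit 0x2000000000), (nat_lit 0x2000000000), (nat_lit 0x2000000000), (nat_lit 0x2000000000)⟩,
    ⟨(nat_lit 0x100000), (nat_lit 0x100000), (nat_lit 0x100000), (nat_lit 0x100000)⟩,
    ⟨(nat_lit 0), (nat_lit 0), (nat_lit 0), (nat_lit 0)⟩,
    ⟨(nat_lit 0x2000000000), (nat_lit 0x2000000000), (nat_lit 0x2000000000), (nat_lit 0x2000000000)⟩,
    ⟨(nat_lit 0x100000), (nat_lit 0x100000), (nat_lit 0x100000), (nat_lit 0x100000)⟩,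
    ⟨(nat_lit 0x205d8b7000), (nat_lit 0x205d85f000), (nat_lit 0x205dcd7000), (nat_lit 0x205dc7f000)⟩,
    (nat_lit 0x100000), (nat_lit 0x100000)⟩) (.lf ⟨⟨(nat_lit 0x205d90f000), (nat_lit 0x205d8b7000), (nat_lit 0x205dd2f000), (nat_lit 0x205dcd7000)⟩,
    ⟨(nat_lit 0x34c5f), (nat_lit 0x34bfb), (nat_lit 0x350cb), (nat_lit 0x35067)⟩,
    ⟨(nat_lit 0x2000000000), (nat_lit 0x2000000000), (nat_lit 0x2000000000), (nat_lit 0x2000000000)⟩,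
    ⟨(nat_lit 0x205d8b7000), (nat_lit 0x205d85f000), (nat_lit 0x205dcd7000), (nat_lit 0x205dc7f000)⟩,
    ⟨(nat_lit 0x34ca9), (nat_lit 0x34c45), (nat_lit 0x35115), (nat_lit 0x350b1)⟩,
    ⟨(nat_lit 0), (nat_lit 0), (nat_lit 0), (nat_lit 0)⟩,
    (nat_lit 0x34bfb), (nat_lit 0x35115)⟩)))
  nx := .nd (.nd (.lf (nat_lit 98)) (.lf (nat_lit 27))) (.nd (.lf (nat_lit 108)) (.lf (nat_lit 29)))
  mir := (nat_lit 28)

noncomputable def cx30 : CtxD where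
  sd := .nd (.nd (.nd (.lf ⟨⟨(nat_lit 0x2000000000), (nat_lit 0x2000000000), (nat_lit 0x2000000000), (nat_lit 0x2000000000)⟩,
    ⟨(nat_lit 0x21b72), (nat_lit 0x21b72), (nat_lit 0x21b72), (nat_lit 0x21b72)⟩,
    ⟨(nat_lit 0), (nat_lit 0), (nat_lit 0), (nat_lit 0)⟩,
    ⟨(nat_lit 0x2000000000), (nat_lit 0x2000000000), (nat_lit 0x2000000000), (nat_lit 0x2000000000)⟩,
    ⟨(nat_lit 0x21b70), (nat_lit 0x21b70), (nat_lit 0x21b70), (nat_lit 0x21b70)⟩,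
    ⟨(nat_lit 0x203c4ef000), (nat_lit 0x203c4e3000), (nat_lit 0x203c51f000), (nat_lit 0x203c513000)⟩,
    (nat_lit 0x21b70), (nat_lit 0x21b72)⟩) (.lf ⟨⟨(nat_lit 0x203c4fd000), (nat_lit 0x203c4f1000), (nat_lit 0x203c52d000), (nat_lit 0x203c521000)⟩,
    ⟨(nat_lit 0xa6d7e), (nat_lit 0xa6d3c), (nat_lit 0xa6eb2), (nat_lit 0xa6e70)⟩,
    ⟨(nat_lit 0x2000000000), (nat_lit 0x2000000000), (nat_lit 0x2000000000), (nat_lit 0x2000000000)⟩,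
    ⟨(nat_lit 0x203c4ef000), (nat_lit 0x203c4e3000), (nat_lit 0x203c51f000), (nat_lit 0x203c513000)⟩,
    ⟨(nat_lit 0xa6dc8), (nat_lit 0xa6d86), (nat_lit 0xa6efc), (nat_lit 0xa6eba)⟩,
    ⟨(nat_lit 0), (nat_lit 0), (nat_lit 0), (nat_lit 0)⟩,
    (nat_lit 0xa6d3c), (nat_lit 0xa6efc)⟩)) (.nd (.lf ⟨⟨(nat_lit 0x2120974000), (nat_lit 0x2120862000), (nat_lit 0x2120d86000), (nat_lit 0x2120c74000)⟩,
    ⟨(nat_lit 0x105717), (nat_lit 0x105529), (nat_lit 0x105d63), (nat_lit 0x105b75)⟩,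
    ⟨(nat_lit 0), (nat_lit 0), (nat_lit 0), (nat_lit 0)⟩,
    ⟨(nat_lit 0x21208f6000), (nat_lit 0x21207e4000), (nat_lit 0x2120d08000), (nat_lit 0x2120bf6000)⟩,
    ⟨(nat_lit 0x105627), (nat_lit 0x105439), (nat_lit 0x105c73), (nat_lit 0x105a85)⟩,
    ⟨(nat_lit 0x21c7b8b000), (nat_lit 0x21c78e1000), (nat_lit 0x21c85e3000), (nat_lit 0x21c8339000)⟩,
    (nat_lit 0x105439), (nat_lit 0x105d63)⟩) (.lf ⟨⟨(nat_lit 0x21c7cb9000), (nat_lit 0x21c7a0f000), (nat_lit 0x21c8711000), (nat_lit 0x21c8467000)⟩,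
    ⟨(nat_lit 0xa50ec), (nat_lit 0xa4efe), (nat_lit 0xa599a), (nat_lit 0xa57ac)⟩,
    ⟨(nat_lit 0x2120974000), (nat_lit 0x2120862000), (nat_lit 0x2120d86000), (nat_lit 0x2120c74000)⟩,
    ⟨(nat_lit 0x21c7b8b000), (nat_lit 0x21c78e1000), (nat_lit 0x21c85e3000), (nat_lit 0x21c8339000)⟩,
    ⟨(nat_lit 0xa51e0), (nat_lit 0xa4ff2), (nat_lit 0xa5a8e), (nat_lit 0xa58a0)⟩,
    ⟨(nat_lit 0), (nat_lit 0), (nat_lit 0), (nat_lit 0)⟩,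
    (nat_lit 0xa4efe), (nat_lit 0xa5a8e)⟩))) (.nd (.nd (.lf ⟨⟨(nat_lit 0x20732da000), (nat_lit 0x20732ae000), (nat_lit 0x2073356000), (nat_lit 0x207332a000)⟩,
    ⟨(nat_lit 0x4efeb), (nat_lit 0x4efaf), (nat_lit 0x4f0cf), (nat_lit 0x4f093)⟩,
    ⟨(nat_lit 0), (nat_lit 0), (nat_lit 0), (nat_lit 0)⟩,
    ⟨(nat_lit 0x20732ba000), (nat_lit 0x207328e000), (nat_lit 0x2073336000), (nat_lit 0x207330a000)⟩,
    ⟨(nat_lit 0x4efbf), (nat_lit 0x4ef83), (nat_lit 0x4f0a3), (nat_lit 0x4f067)⟩,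
    ⟨(nat_lit 0x20b4215000), (nat_lit 0x20b41ab000), (nat_lit 0x20b435b000), (nat_lit 0x20b42f1000)⟩,
    (nat_lit 0x4ef83), (nat_lit 0x4f0cf)⟩) (.lf ⟨⟨(nat_lit 0x20b424f000), (nat_lit 0x20b41e5000), (nat_lit 0x20b4395000), (nat_lit 0x20b432b000)⟩,
    ⟨(nat_lit 0x4eee1), (nat_lit 0x4ee83), (nat_lit 0x4efdf), (nat_lit 0x4ef81)⟩,
    ⟨(nat_lit 0x20732da000), (nat_lit 0x20732ae000), (nat_lit 0x2073356000), (nat_lit 0x207332a000)⟩,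
    ⟨(nat_lit 0x20b4215000), (nat_lit 0x20b41ab000), (nat_lit 0x20b435b000), (nat_lit 0x20b42f1000)⟩,
    ⟨(nat_lit 0x4ef17), (nat_lit 0x4eeb9), (nat_lit 0x4f015), (nat_lit 0x4efb7)⟩,
    ⟨(nat_lit 0), (nat_lit 0), (nat_lit 0), (nat_lit 0)⟩,
    (nat_lit 0x4ee83), (nat_lit 0x4f015)⟩)) (.nd (.lf ⟨⟨(nat_lit 0x2000000000), (nat_lit 0x2000000000), (nat_lit 0x2000000000), (nat_lit 0x2000000000)⟩,
    ⟨(nat_lit 0x100000), (nat_lit 0x100000), (nat_lit 0x100000), (nat_lit 0x100000)⟩,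
    ⟨(nat_lit 0), (nat_lit 0), (nat_lit 0), (nat_lit 0)⟩,
    ⟨(nat_lit 0x2000000000), (nat_lit 0x2000000000), (nat_lit 0x2000000000), (nat_lit 0x2000000000)⟩,
    ⟨(nat_lit 0x100000), (nat_lit 0x100000), (nat_lit 0x100000), (nat_lit 0x100000)⟩,
    ⟨(nat_lit 0x21c7b8b000), (nat_lit 0x21c78e1000), (nat_lit 0x21c85e3000), (nat_lit 0x21c8339000)⟩,
    (nat_lit 0x100000), (nat_lit 0x100000)⟩) (.lf ⟨⟨(nat_lit 0x21c7cb9000), (nat_lit 0x21c7a0f000), (nat_lit 0x21c8711000), (nat_lit 0x21c8467000)⟩,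
    ⟨(nat_lit 0x4e54b1), (nat_lit 0x4e4611), (nat_lit 0x4e969b), (nat_lit 0x4e87fb)⟩,
    ⟨(nat_lit 0x2000000000), (nat_lit 0x2000000000), (nat_lit 0x2000000000), (nat_lit 0x2000000000)⟩,
    ⟨(nat_lit 0x21c7b8b000), (nat_lit 0x21c78e1000), (nat_lit 0x21c85e3000), (nat_lit 0x21c8339000)⟩,
    ⟨(nat_lit 0x4e5be1), (nat_lit 0x4e4d41), (nat_lit 0x4e9dcb), (nat_lit 0x4e8f2b)⟩,
    ⟨(nat_lit 0), (nat_lit 0), (nat_lit 0), (nat_lit 0)⟩,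
    (nat_lit 0x4e4611), (nat_lit 0x4e9dcb)⟩)))
  nx := .nd (.nd (.lf (nat_lit 26)) (.lf (nat_lit 101))) (.nd (.lf (nat_lit 109)) (.lf (nat_lit 30)))
  mir := (nat_lit 31)

noncomputable def cx31 : CtxD where
  sd := .nd (.nd (.nd (.lf ⟨⟨(nat_lit 0x2000000000), (nat_lit 0x2000000000), (nat_lit 0x2000000000), (nat_lit 0x2000000000)⟩,
    ⟨(nat_lit 0x21b72), (nat_lit 0x21b72), (nat_lit 0x21b72), (nat_lit 0x21b72)⟩,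
    ⟨(nat_lit 0), (nat_lit 0), (nat_lit 0), (nat_lit 0)⟩,
    ⟨(nat_lit 0x2000000000), (nat_lit 0x2000000000), (nat_lit 0x2000000000), (nat_lit 0x2000000000)⟩,
    ⟨(nat_lit 0x21b70), (nat_lit 0x21b70), (nat_lit 0x21b70), (nat_lit 0x21b70)⟩,
    ⟨(nat_lit 0x20221ca000), (nat_lit 0x20221b8000), (nat_lit 0x202224e000), (nat_lit 0x202223c000)⟩,
    (nat_lit 0x21b70), (nat_lit 0x21b72)⟩) (.lf ⟨⟨(nat_lit 0x20221e6000), (nat_lit 0x20221d4000), (nat_lit 0x202226a000), (nat_lit 0x2022258000)⟩,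
    ⟨(nat_lit 0x354cc), (nat_lit 0x35492), (nat_lit 0x35650), (nat_lit 0x35616)⟩,
    ⟨(nat_lit 0x2000000000), (nat_lit 0x2000000000), (nat_lit 0x2000000000), (nat_lit 0x2000000000)⟩,
    ⟨(nat_lit 0x20221ca000), (nat_lit 0x20221b8000), (nat_lit 0x202224e000), (nat_lit 0x202223c000)⟩,
    ⟨(nat_lit 0x35504), (nat_lit 0x354ca), (nat_lit 0x35688), (nat_lit 0x3564e)⟩,
    ⟨(nat_lit 0), (nat_lit 0), (nat_lit 0), (nat_lit 0)⟩,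
    (nat_lit 0x35492), (nat_lit 0x35688)⟩)) (.nd (.lf ⟨⟨(nat_lit 0x2050a90000), (nat_lit 0x2050a28000), (nat_lit 0x2050cba000), (nat_lit 0x2050c52000)⟩,
    ⟨(nat_lit 0x2201f), (nat_lit 0x21fc7), (nat_lit 0x221a9), (nat_lit 0x22151)⟩,
    ⟨(nat_lit 0), (nat_lit 0), (nat_lit 0), (nat_lit 0)⟩,
    ⟨(nat_lit 0x2050a42000), (nat_lit 0x20509da000), (nat_lit 0x2050c6c000), (nat_lit 0x2050c04000)⟩,
    ⟨(nat_lit 0x21fe7), (nat_lit 0x21f8f), (nat_lit 0x22171), (nat_lit 0x22119)⟩,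
    ⟨(nat_lit 0x205ced1000), (nat_lit 0x205ce47000), (nat_lit 0x205d197000), (nat_lit 0x205d10d000)⟩,
    (nat_lit 0x21f8f), (nat_lit 0x221a9)⟩) (.lf ⟨⟨(nat_lit 0x205cf31000), (nat_lit 0x205cea7000), (nat_lit 0x205d1f7000), (nat_lit 0x205d16d000)⟩,
    ⟨(nat_lit 28125), (nat_lit 28105), (nat_lit 28217), (nat_lit 28197)⟩,
    ⟨(nat_lit 0x2050a90000), (nat_lit 0x2050a28000), (nat_lit 0x2050cba000), (nat_lit 0x2050c52000)⟩,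
    ⟨(nat_lit 0x205ced1000), (nat_lit 0x205ce47000), (nat_lit 0x205d197000), (nat_lit 0x205d10d000)⟩,
    ⟨(nat_lit 28137), (nat_lit 28117), (nat_lit 28229), (nat_lit 28209)⟩,
    ⟨(nat_lit 0), (nat_lit 0), (nat_lit 0), (nat_lit 0)⟩,
    (nat_lit 28105), (nat_lit 28229)⟩))) (.nd (.nd (.lf ⟨⟨(nat_lit 0x20383d0000), (nat_lit 0x203839e000), (nat_lit 0x20384ea000), (nat_lit 0x20384b8000)⟩,
    ⟨(nat_lit 0x10174), (nat_lit 0x10156), (nat_lit 0x10218), (nat_lit 0x101fa)⟩,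
    ⟨(nat_lit 0), (nat_lit 0), (nat_lit 0), (nat_lit 0)⟩,
    ⟨(nat_lit 0x203839e000), (nat_lit 0x203836c000), (nat_lit 0x20384b8000), (nat_lit 0x2038486000)⟩,
    ⟨(nat_lit 0x1015c), (nat_lit 0x1013e), (nat_lit 0x10200), (nat_lit 0x101e2)⟩,
    ⟨(nat_lit 0x204576e000), (nat_lit 0x2045720000), (nat_lit 0x2045912000), (nat_lit 0x20458c4000)⟩,
    (nat_lit 0x1013e), (nat_lit 0x10218)⟩) (.lf ⟨⟨(nat_lit 0x20457ae000), (nat_lit 0x2045760000), (nat_lit 0x2045952000), (nat_lit 0x2045904000)⟩,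
    ⟨(nat_lit 0x10189), (nat_lit 0x10165), (nat_lit 0x10233), (nat_lit 0x1020f)⟩,
    ⟨(nat_lit 0x20383d0000), (nat_lit 0x203839e000), (nat_lit 0x20384ea000), (nat_lit 0x20384b8000)⟩,
    ⟨(nat_lit 0x204576e000), (nat_lit 0x2045720000), (nat_lit 0x2045912000), (nat_lit 0x20458c4000)⟩,
    ⟨(nat_lit 0x101a1), (nat_lit 0x1017d), (nat_lit 0x1024b), (nat_lit 0x10227)⟩,
    ⟨(nat_lit 0), (nat_lit 0), (nat_lit 0), (nat_lit 0)⟩,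
    (nat_lit 0x10165), (nat_lit 0x1024b)⟩)) (.nd (.lf ⟨⟨(nat_lit 0x2000000000), (nat_lit 0x2000000000), (nat_lit 0x2000000000), (nat_lit 0x2000000000)⟩,
    ⟨(nat_lit 0x100000), (nat_lit 0x100000), (nat_lit 0x100000), (nat_lit 0x100000)⟩,
    ⟨(nat_lit 0), (nat_lit 0), (nat_lit 0), (nat_lit 0)⟩,
    ⟨(nat_lit 0x2000000000), (nat_lit 0x2000000000), (nat_lit 0x2000000000), (nat_lit 0x2000000000)⟩,
    ⟨(nat_lit 0x100000), (nat_lit 0x100000), (nat_lit 0x100000), (nat_lit 0x100000)⟩,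
    ⟨(nat_lit 0x205ced1000), (nat_lit 0x205ce47000), (nat_lit 0x205d197000), (nat_lit 0x205d10d000)⟩,
    (nat_lit 0x100000), (nat_lit 0x100000)⟩) (.lf ⟨⟨(nat_lit 0x205cf31000), (nat_lit 0x205cea7000), (nat_lit 0x205d1f7000), (nat_lit 0x205d16d000)⟩,
    ⟨(nat_lit 0x34238), (nat_lit 0x3419c), (nat_lit 0x344f6), (nat_lit 0x3445a)⟩,
    ⟨(nat_lit 0x2000000000), (nat_lit 0x2000000000), (nat_lit 0x2000000000), (nat_lit 0x2000000000)⟩,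
    ⟨(nat_lit 0x205ced1000), (nat_lit 0x205ce47000), (nat_lit 0x205d197000), (nat_lit 0x205d10d000)⟩,
    ⟨(nat_lit 0x34288), (nat_lit 0x341ec), (nat_lit 0x34546), (nat_lit 0x344aa)⟩,
    ⟨(nat_lit 0), (nat_lit 0), (nat_lit 0), (nat_lit 0)⟩,
    (nat_lit 0x3419c), (nat_lit 0x34546)⟩)))
  nx := .nd (.nd (.lf (nat_lit 100)) (.lf (nat_lit 27))) (.nd (.lf (nat_lit 108)) (.lf (nat_lit 31)))
  mir := (nat_lit 30)

noncomputable def cx32 : CtxD where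
  sd := .nd (.nd (.nd (.lf ⟨⟨(nat_lit 0x2000000000), (nat_lit 0x2000000000), (nat_lit 0x2000000000), (nat_lit 0x2000000000)⟩,
    ⟨(nat_lit 0x21b72), (nat_lit 0x21b72), (nat_lit 0x21b72), (nat_lit 0x21b72)⟩,
    ⟨(nat_lit 0), (nat_lit 0), (nat_lit 0), (nat_lit 0)⟩,
    ⟨(nat_lit 0x2000000000), (nat_lit 0x2000000000), (nat_lit 0x2000000000), (nat_lit 0x2000000000)⟩,
    ⟨(nat_lit 0x21b70), (nat_lit 0x21b70), (nat_lit 0x21b70), (nat_lit 0x21b70)⟩,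
    ⟨(nat_lit 0x203c3b8000), (nat_lit 0x203c3b2000), (nat_lit 0x203c3da000), (nat_lit 0x203c3d4000)⟩,
    (nat_lit 0x21b70), (nat_lit 0x21b72)⟩) (.lf ⟨⟨(nat_lit 0x203c3c4000), (nat_lit 0x203c3be000), (nat_lit 0x203c3e6000), (nat_lit 0x203c3e0000)⟩,
    ⟨(nat_lit 0xa6638), (nat_lit 0xa661a), (nat_lit 0xa6706), (nat_lit 0xa66e8)⟩,
    ⟨(nat_lit 0x2000000000), (nat_lit 0x2000000000), (nat_lit 0x2000000000), (nat_lit 0x2000000000)⟩,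
    ⟨(nat_lit 0x203c3b8000), (nat_lit 0x203c3b2000), (nat_lit 0x203c3da000), (nat_lit 0x203c3d4000)⟩,
    ⟨(nat_lit 0xa667e), (nat_lit 0xa6660), (nat_lit 0xa674c), (nat_lit 0xa672e)⟩,
    ⟨(nat_lit 0), (nat_lit 0), (nat_lit 0), (nat_lit 0)⟩,
    (nat_lit 0xa661a), (nat_lit 0xa674c)⟩)) (.nd (.lf ⟨⟨(nat_lit 0x211ee76000), (nat_lit 0x211edfa000), (nat_lit 0x211f15c000), (nat_lit 0x211f0e0000)⟩,
    ⟨(nat_lit 0x1029ef), (nat_lit 0x102911), (nat_lit 0x102eb5), (nat_lit 0x102dd7)⟩,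
    ⟨(nat_lit 0), (nat_lit 0), (nat_lit 0), (nat_lit 0)⟩,
    ⟨(nat_lit 0x211ee12000), (nat_lit 0x211ed96000), (nat_lit 0x211f0f8000), (nat_lit 0x211f07c000)⟩,
    ⟨(nat_lit 0x102927), (nat_lit 0x102849), (nat_lit 0x102ded), (nat_lit 0x102d0f)⟩,
    ⟨(nat_lit 0x21c3847000), (nat_lit 0x21c3715000), (nat_lit 0x21c3f83000), (nat_lit 0x21c3e51000)⟩,
    (nat_lit 0x102849), (nat_lit 0x102eb5)⟩) (.lf ⟨⟨(nat_lit 0x21c3935000), (nat_lit 0x21c3803000), (nat_lit 0x21c4071000), (nat_lit 0x21c3f3f000)⟩,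
    ⟨(nat_lit 0xa1cca), (nat_lit 0xa1bf0), (nat_lit 0xa226c), (nat_lit 0xa2192)⟩,
    ⟨(nat_lit 0x211ee76000), (nat_lit 0x211edfa000), (nat_lit 0x211f15c000), (nat_lit 0x211f0e0000)⟩,
    ⟨(nat_lit 0x21c3847000), (nat_lit 0x21c3715000), (nat_lit 0x21c3f83000), (nat_lit 0x21c3e51000)⟩,
    ⟨(nat_lit 0xa1d98), (nat_lit 0xa1cbe), (nat_lit 0xa233a), (nat_lit 0xa2260)⟩,
    ⟨(nat_lit 0), (nat_lit 0), (nat_lit 0), (nat_lit 0)⟩,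
    (nat_lit 0xa1bf0), (nat_lit 0xa233a)⟩))) (.nd (.nd (.lf ⟨⟨(nat_lit 0x2072f0d000), (nat_lit 0x2072ef9000), (nat_lit 0x2072f73000), (nat_lit 0x2072f5f000)⟩,
    ⟨(nat_lit 0x4e9fe), (nat_lit 0x4e9e2), (nat_lit 0x4eaa2), (nat_lit 0x4ea86)⟩,
    ⟨(nat_lit 0), (nat_lit 0), (nat_lit 0), (nat_lit 0)⟩,
    ⟨(nat_lit 0x2072ef3000), (nat_lit 0x2072edf000), (nat_lit 0x2072f59000), (nat_lit 0x2072f45000)⟩,
    ⟨(nat_lit 0x4e9d6), (nat_lit 0x4e9ba), (nat_lit 0x4ea7a), (nat_lit 0x4ea5e)⟩,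
    ⟨(nat_lit 0x20b3894000), (nat_lit 0x20b3864000), (nat_lit 0x20b3996000), (nat_lit 0x20b3966000)⟩,
    (nat_lit 0x4e9ba), (nat_lit 0x4eaa2)⟩) (.lf ⟨⟨(nat_lit 0x20b38c4000), (nat_lit 0x20b3894000), (nat_lit 0x20b39c6000), (nat_lit 0x20b3996000)⟩,
    ⟨(nat_lit 0x4e6fc), (nat_lit 0x4e6d2), (nat_lit 0x4e7d0), (nat_lit 0x4e7a6)⟩,
    ⟨(nat_lit 0x2072f0d000), (nat_lit 0x2072ef9000), (nat_lit 0x2072f73000), (nat_lit 0x2072f5f000)⟩,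
    ⟨(nat_lit 0x20b3894000), (nat_lit 0x20b3864000), (nat_lit 0x20b3996000), (nat_lit 0x20b3966000)⟩,
    ⟨(nat_lit 0x4e72c), (nat_lit 0x4e702), (nat_lit 0x4e800), (nat_lit 0x4e7d6)⟩,
    ⟨(nat_lit 0), (nat_lit 0), (nat_lit 0), (nat_lit 0)⟩,
    (nat_lit 0x4e6d2), (nat_lit 0x4e800)⟩)) (.nd (.lf ⟨⟨(nat_lit 0x2000000000), (nat_lit 0x2000000000), (nat_lit 0x2000000000), (nat_lit 0x2000000000)⟩,
    ⟨(nat_lit 0x100000), (nat_lit 0x100000), (nat_lit 0x100000), (nat_lit 0x100000)⟩,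
    ⟨(nat_lit 0), (nat_lit 0), (nat_lit 0), (nat_lit 0)⟩,
    ⟨(nat_lit 0x2000000000), (nat_lit 0x2000000000), (nat_lit 0x2000000000), (nat_lit 0x2000000000)⟩,
    ⟨(nat_lit 0x100000), (nat_lit 0x100000), (nat_lit 0x100000), (nat_lit 0x100000)⟩,
    ⟨(nat_lit 0x21c3847000), (nat_lit 0x21c3715000), (nat_lit 0x21c3f83000), (nat_lit 0x21c3e51000)⟩,
    (nat_lit 0x100000), (nat_lit 0x100000)⟩) (.lf ⟨⟨(nat_lit 0x21c3935000), (nat_lit 0x21c3803000), (nat_lit 0x21c4071000), (nat_lit 0x21c3f3f000)⟩,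
    ⟨(nat_lit 0x4cc8e2), (nat_lit 0x4cc264), (nat_lit 0x4cf3ac), (nat_lit 0x4ced2e)⟩,
    ⟨(nat_lit 0x2000000000), (nat_lit 0x2000000000), (nat_lit 0x2000000000), (nat_lit 0x2000000000)⟩,
    ⟨(nat_lit 0x21c3847000), (nat_lit 0x21c3715000), (nat_lit 0x21c3f83000), (nat_lit 0x21c3e51000)⟩,
    ⟨(nat_lit 0x4cceee), (nat_lit 0x4cc870), (nat_lit 0x4cf9b8), (nat_lit 0x4cf33a)⟩,
    ⟨(nat_lit 0), (nat_lit 0), (nat_lit 0), (nat_lit 0)⟩,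
    (nat_lit 0x4cc264), (nat_lit 0x4cf9b8)⟩)))
  nx := .nd (.nd (.lf (nat_lit 26)) (.lf (nat_lit 99))) (.nd (.lf (nat_lit 109)) (.lf (nat_lit 32)))
  mir := (nat_lit 33)

noncomputable def cx33 : CtxD where
  sd := .nd (.nd (.nd (.lf ⟨⟨(nat_lit 0x2000000000), (nat_lit 0x2000000000), (nat_lit 0x2000000000), (nat_lit 0x2000000000)⟩,
    ⟨(nat_lit 0x21b72), (nat_lit 0x21b72), (nat_lit 0x21b72), (nat_lit 0x21b72)⟩,
    ⟨(nat_lit 0), (nat_lit 0), (nat_lit 0), (nat_lit 0)⟩,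
    ⟨(nat_lit 0x2000000000), (nat_lit 0x2000000000), (nat_lit 0x2000000000), (nat_lit 0x2000000000)⟩,
    ⟨(nat_lit 0x21b70), (nat_lit 0x21b70), (nat_lit 0x21b70), (nat_lit 0x21b70)⟩,
    ⟨(nat_lit 0x2022492000), (nat_lit 0x202248a000), (nat_lit 0x20224dc000), (nat_lit 0x20224d4000)⟩,
    (nat_lit 0x21b70), (nat_lit 0x21b72)⟩) (.lf ⟨⟨(nat_lit 0x20224aa000), (nat_lit 0x20224a2000), (nat_lit 0x20224f4000), (nat_lit 0x20224ec000)⟩,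
    ⟨(nat_lit 0x35d25), (nat_lit 0x35d0b), (nat_lit 0x35e07), (nat_lit 0x35ded)⟩,
    ⟨(nat_lit 0x2000000000), (nat_lit 0x2000000000), (nat_lit 0x2000000000), (nat_lit 0x2000000000)⟩,
    ⟨(nat_lit 0x2022492000), (nat_lit 0x202248a000), (nat_lit 0x20224dc000), (nat_lit 0x20224d4000)⟩,
    ⟨(nat_lit 0x35d5b), (nat_lit 0x35d41), (nat_lit 0x35e3d), (nat_lit 0x35e23)⟩,
    ⟨(nat_lit 0), (nat_lit 0), (nat_lit 0), (nat_lit 0)⟩,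
    (nat_lit 0x35d0b), (nat_lit 0x35e3d)⟩)) (.nd (.lf ⟨⟨(nat_lit 0x2051766000), (nat_lit 0x2051736000), (nat_lit 0x20518c2000), (nat_lit 0x2051892000)⟩,
    ⟨(nat_lit 0x229e6), (nat_lit 0x229be), (nat_lit 0x22af0), (nat_lit 0x22ac8)⟩,
    ⟨(nat_lit 0), (nat_lit 0), (nat_lit 0), (nat_lit 0)⟩,
    ⟨(nat_lit 0x2051720000), (nat_lit 0x20516f0000), (nat_lit 0x205187c000), (nat_lit 0x205184c000)⟩,
    ⟨(nat_lit 0x229b4), (nat_lit 0x2298c), (nat_lit 0x22abe), (nat_lit 0x22a96)⟩,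
    ⟨(nat_lit 0x205df8b000), (nat_lit 0x205df4b000), (nat_lit 0x205e14f000), (nat_lit 0x205e10f000)⟩,
    (nat_lit 0x2298c), (nat_lit 0x22af0)⟩) (.lf ⟨⟨(nat_lit 0x205dfdf000), (nat_lit 0x205df9f000), (nat_lit 0x205e1a3000), (nat_lit 0x205e163000)⟩,
    ⟨(nat_lit 28713), (nat_lit 28703), (nat_lit 28775), (nat_lit 28765)⟩,
    ⟨(nat_lit 0x2051766000), (nat_lit 0x2051736000), (nat_lit 0x20518c2000), (nat_lit 0x2051892000)⟩,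
    ⟨(nat_lit 0x205df8b000), (nat_lit 0x205df4b000), (nat_lit 0x205e14f000), (nat_lit 0x205e10f000)⟩,
    ⟨(nat_lit 28725), (nat_lit 28715), (nat_lit 28787), (nat_lit 28777)⟩,
    ⟨(nat_lit 0), (nat_lit 0), (nat_lit 0), (nat_lit 0)⟩,
    (nat_lit 28703), (nat_lit 28787)⟩))) (.nd (.nd (.lf ⟨⟨(nat_lit 0x2038a3a000), (nat_lit 0x2038a22000), (nat_lit 0x2038ae6000), (nat_lit 0x2038ace000)⟩,
    ⟨(nat_lit 0x1052f), (nat_lit 0x10521), (nat_lit 0x10595), (nat_lit 0x10587)⟩,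
    ⟨(nat_lit 0), (nat_lit 0), (nat_lit 0), (nat_lit 0)⟩,
    ⟨(nat_lit 0x2038a0e000), (nat_lit 0x20389f6000), (nat_lit 0x2038aba000), (nat_lit 0x2038aa2000)⟩,
    ⟨(nat_lit 0x10519), (nat_lit 0x1050b), (nat_lit 0x1057f), (nat_lit 0x10571)⟩,
    ⟨(nat_lit 0x2046118000), (nat_lit 0x20460f4000), (nat_lit 0x204621c000), (nat_lit 0x20461f8000)⟩,
    (nat_lit 0x1050b), (nat_lit 0x10595)⟩) (.lf ⟨⟨(nat_lit 0x2046150000), (nat_lit 0x204612c000), (nat_lit 0x2046254000), (nat_lit 0x2046230000)⟩,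
    ⟨(nat_lit 0x105a8), (nat_lit 0x10598), (nat_lit 0x10618), (nat_lit 0x10608)⟩,
    ⟨(nat_lit 0x2038a3a000), (nat_lit 0x2038a22000), (nat_lit 0x2038ae6000), (nat_lit 0x2038ace000)⟩,
    ⟨(nat_lit 0x2046118000), (nat_lit 0x20460f4000), (nat_lit 0x204621c000), (nat_lit 0x20461f8000)⟩,
    ⟨(nat_lit 0x105c0), (nat_lit 0x105b0), (nat_lit 0x10630), (nat_lit 0x10620)⟩,
    ⟨(nat_lit 0), (nat_lit 0), (nat_lit 0), (nat_lit 0)⟩,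
    (nat_lit 0x10598), (nat_lit 0x10630)⟩)) (.nd (.lf ⟨⟨(nat_lit 0x2000000000), (nat_lit 0x2000000000), (nat_lit 0x2000000000), (nat_lit 0x2000000000)⟩,
    ⟨(nat_lit 0x100000), (nat_lit 0x100000), (nat_lit 0x100000), (nat_lit 0x100000)⟩,
    ⟨(nat_lit 0), (nat_lit 0), (nat_lit 0), (nat_lit 0)⟩,
    ⟨(nat_lit 0x2000000000), (nat_lit 0x2000000000), (nat_lit 0x2000000000), (nat_lit 0x2000000000)⟩,
    ⟨(nat_lit 0x100000), (nat_lit 0x100000), (nat_lit 0x100000), (nat_lit 0x100000)⟩,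
    ⟨(nat_lit 0x205df8b000), (nat_lit 0x205df4b000), (nat_lit 0x205e14f000), (nat_lit 0x205e10f000)⟩,
    (nat_lit 0x100000), (nat_lit 0x100000)⟩) (.lf ⟨⟨(nat_lit 0x205dfdf000), (nat_lit 0x205df9f000), (nat_lit 0x205e1a3000), (nat_lit 0x205e163000)⟩,
    ⟨(nat_lit 0x353aa), (nat_lit 0x35362), (nat_lit 0x35584), (nat_lit 0x3553c)⟩,
    ⟨(nat_lit 0x2000000000), (nat_lit 0x2000000000), (nat_lit 0x2000000000), (nat_lit 0x2000000000)⟩,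
    ⟨(nat_lit 0x205df8b000), (nat_lit 0x205df4b000), (nat_lit 0x205e14f000), (nat_lit 0x205e10f000)⟩,
    ⟨(nat_lit 0x353f0), (nat_lit 0x353a8), (nat_lit 0x355ca), (nat_lit 0x35582)⟩,
    ⟨(nat_lit 0), (nat_lit 0), (nat_lit 0), (nat_lit 0)⟩,
    (nat_lit 0x35362), (nat_lit 0x355ca)⟩)))
  nx := .nd (.nd (.lf (nat_lit 98)) (.lf (nat_lit 27))) (.nd (.lf (nat_lit 108)) (.lf (nat_lit 33)))
  mir := (nat_lit 32)

noncomputable def cx34 : CtxD where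
  sd := .nd (.nd (.nd (.lf ⟨⟨(nat_lit 0x2000000000), (nat_lit 0x2000000000), (nat_lit 0x2000000000), (nat_lit 0x2000000000)⟩,
    ⟨(nat_lit 0x21b72), (nat_lit 0x21b72), (nat_lit 0x21b72), (nat_lit 0x21b72)⟩,
    ⟨(nat_lit 0), (nat_lit 0), (nat_lit 0), (nat_lit 0)⟩,
    ⟨(nat_lit 0x2000000000), (nat_lit 0x2000000000), (nat_lit 0x2000000000), (nat_lit 0x2000000000)⟩,
    ⟨(nat_lit 0x21b70), (nat_lit 0x21b70), (nat_lit 0x21b70), (nat_lit 0x21b70)⟩,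
    ⟨(nat_lit 0x203c338000), (nat_lit 0x203c326000), (nat_lit 0x203c386000), (nat_lit 0x203c374000)⟩,
    (nat_lit 0x21b70), (nat_lit 0x21b72)⟩) (.lf ⟨⟨(nat_lit 0x203c348000), (nat_lit 0x203c336000), (nat_lit 0x203c396000), (nat_lit 0x203c384000)⟩,
    ⟨(nat_lit 0xa6356), (nat_lit 0xa62f8), (nat_lit 0xa651a), (nat_lit 0xa64bc)⟩,
    ⟨(nat_lit 0x2000000000), (nat_lit 0x2000000000), (nat_lit 0x2000000000), (nat_lit 0x2000000000)⟩,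
    ⟨(nat_lit 0x203c338000), (nat_lit 0x203c326000), (nat_lit 0x203c386000), (nat_lit 0x203c374000)⟩,
    ⟨(nat_lit 0xa639c), (nat_lit 0xa633e), (nat_lit 0xa6560), (nat_lit 0xa6502)⟩,
    ⟨(nat_lit 0), (nat_lit 0), (nat_lit 0), (nat_lit 0)⟩,
    (nat_lit 0xa62f8), (nat_lit 0xa6560)⟩)) (.nd (.lf ⟨⟨(nat_lit 0x211e392000), (nat_lit 0x211e210000), (nat_lit 0x211ea4e000), (nat_lit 0x211e8cc000)⟩,
    ⟨(nat_lit 0x10175c), (nat_lit 0x1014a8), (nat_lit 0x1022e2), (nat_lit 0x10202e)⟩,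
    ⟨(nat_lit 0), (nat_lit 0), (nat_lit 0), (nat_lit 0)⟩,
    ⟨(nat_lit 0x211e320000), (nat_lit 0x211e19e000), (nat_lit 0x211e9dc000), (nat_lit 0x211e85a000)⟩,
    ⟨(nat_lit 0x10168a), (nat_lit 0x1013d6), (nat_lit 0x102210), (nat_lit 0x101f5c)⟩,
    ⟨(nat_lit 0x21c1d23000), (nat_lit 0x21c196b000), (nat_lit 0x21c2dd3000), (nat_lit 0x21c2a1b000)⟩,
    (nat_lit 0x1013d6), (nat_lit 0x1022e2)⟩) (.lf ⟨⟨(nat_lit 0x21c1e2d000), (nat_lit 0x21c1a75000), (nat_lit 0x21c2edd000), (nat_lit 0x21c2b25000)⟩,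
    ⟨(nat_lit 0xa0866), (nat_lit 0xa05c0), (nat_lit 0xa14e0), (nat_lit 0xa123a)⟩,
    ⟨(nat_lit 0x211e392000), (nat_lit 0x211e210000), (nat_lit 0x211ea4e000), (nat_lit 0x211e8cc000)⟩,
    ⟨(nat_lit 0x21c1d23000), (nat_lit 0x21c196b000), (nat_lit 0x21c2dd3000), (nat_lit 0x21c2a1b000)⟩,
    ⟨(nat_lit 0xa093c), (nat_lit 0xa0696), (nat_lit 0xa15b6), (nat_lit 0xa1310)⟩,
    ⟨(nat_lit 0), (nat_lit 0), (nat_lit 0), (nat_lit 0)⟩,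
    (nat_lit 0xa05c0), (nat_lit 0xa15b6)⟩))) (.nd (.nd (.lf ⟨⟨(nat_lit 0x2072d74000), (nat_lit 0x2072d36000), (nat_lit 0x2072e74000), (nat_lit 0x2072e36000)⟩,
    ⟨(nat_lit 0x4e796), (nat_lit 0x4e742), (nat_lit 0x4e912), (nat_lit 0x4e8be)⟩,
    ⟨(nat_lit 0), (nat_lit 0), (nat_lit 0), (nat_lit 0)⟩,
    ⟨(nat_lit 0x2072d56000), (nat_lit 0x2072d18000), (nat_lit 0x2072e56000), (nat_lit 0x2072e18000)⟩,
    ⟨(nat_lit 0x4e76e), (nat_lit 0x4e71a), (nat_lit 0x4e8ea), (nat_lit 0x4e896)⟩,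
    ⟨(nat_lit 0x20b3492000), (nat_lit 0x20b33fa000), (nat_lit 0x20b370e000), (nat_lit 0x20b3676000)⟩,
    (nat_lit 0x4e71a), (nat_lit 0x4e912)⟩) (.lf ⟨⟨(nat_lit 0x20b34c8000), (nat_lit 0x20b3430000), (nat_lit 0x20b3744000), (nat_lit 0x20b36ac000)⟩,
    ⟨(nat_lit 0x4e39f), (nat_lit 0x4e31b), (nat_lit 0x4e5b7), (nat_lit 0x4e533)⟩,
    ⟨(nat_lit 0x2072d74000), (nat_lit 0x2072d36000), (nat_lit 0x2072e74000), (nat_lit 0x2072e36000)⟩,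
    ⟨(nat_lit 0x20b3492000), (nat_lit 0x20b33fa000), (nat_lit 0x20b370e000), (nat_lit 0x20b3676000)⟩,
    ⟨(nat_lit 0x4e3cf), (nat_lit 0x4e34b), (nat_lit 0x4e5e7), (nat_lit 0x4e563)⟩,
    ⟨(nat_lit 0), (nat_lit 0), (nat_lit 0), (nat_lit 0)⟩,
    (nat_lit 0x4e31b), (nat_lit 0x4e5e7)⟩)) (.nd (.lf ⟨⟨(nat_lit 0x2000000000), (nat_lit 0x2000000000), (nat_lit 0x2000000000), (nat_lit 0x2000000000)⟩,
    ⟨(nat_lit 0x100000), (nat_lit 0x100000), (nat_lit 0x100000), (nat_lit 0x100000)⟩,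
    ⟨(nat_lit 0), (nat_lit 0), (nat_lit 0), (nat_lit 0)⟩,
    ⟨(nat_lit 0x2000000000), (nat_lit 0x2000000000), (nat_lit 0x2000000000), (nat_lit 0x2000000000)⟩,
    ⟨(nat_lit 0x100000), (nat_lit 0x100000), (nat_lit 0x100000), (nat_lit 0x100000)⟩,
    ⟨(nat_lit 0x21c1d23000), (nat_lit 0x21c196b000), (nat_lit 0x21c2dd3000), (nat_lit 0x21c2a1b000)⟩,
    (nat_lit 0x100000), (nat_lit 0x100000)⟩) (.lf ⟨⟨(nat_lit 0x21c1e2d000), (nat_lit 0x21c1a75000), (nat_lit 0x21c2edd000), (nat_lit 0x21c2b25000)⟩,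
    ⟨(nat_lit 0x4c2e16), (nat_lit 0x4c19f2), (nat_lit 0x4c8ccc), (nat_lit 0x4c78a8)⟩,
    ⟨(nat_lit 0x2000000000), (nat_lit 0x2000000000), (nat_lit 0x2000000000), (nat_lit 0x2000000000)⟩,
    ⟨(nat_lit 0x21c1d23000), (nat_lit 0x21c196b000), (nat_lit 0x21c2dd3000), (nat_lit 0x21c2a1b000)⟩,
    ⟨(nat_lit 0x4c345a), (nat_lit 0x4c2036), (nat_lit 0x4c9310), (nat_lit 0x4c7eec)⟩,
    ⟨(nat_lit 0), (nat_lit 0), (nat_lit 0), (nat_lit 0)⟩,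
    (nat_lit 0x4c19f2), (nat_lit 0x4c9310)⟩)))
  nx := .nd (.nd (.lf (nat_lit 26)) (.lf (nat_lit 99))) (.nd (.lf (nat_lit 109)) (.lf (nat_lit 34)))
  mir := (nat_lit 35)

noncomputable def cx35 : CtxD where
  sd := .nd (.nd (.nd (.lf ⟨⟨(nat_lit 0x2000000000), (nat_lit 0x2000000000), (nat_lit 0x2000000000), (nat_lit 0x2000000000)⟩,
    ⟨(nat_lit 0x21b72), (nat_lit 0x21b72), (nat_lit 0x21b72), (nat_lit 0x21b72)⟩,
    ⟨(nat_lit 0), (nat_lit 0), (nat_lit 0), (nat_lit 0)⟩,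
    ⟨(nat_lit 0x2000000000), (nat_lit 0x2000000000), (nat_lit 0x2000000000), (nat_lit 0x2000000000)⟩,
    ⟨(nat_lit 0x21b70), (nat_lit 0x21b70), (nat_lit 0x21b70), (nat_lit 0x21b70)⟩,
    ⟨(nat_lit 0x202254e000), (nat_lit 0x2022534000), (nat_lit 0x20225e2000), (nat_lit 0x20225c8000)⟩,
    (nat_lit 0x21b70), (nat_lit 0x21b72)⟩) (.lf ⟨⟨(nat_lit 0x2022568000), (nat_lit 0x202254e000), (nat_lit 0x20225fc000), (nat_lit 0x20225e2000)⟩,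
    ⟨(nat_lit 0x35f67), (nat_lit 0x35f15), (nat_lit 0x3612d), (nat_lit 0x360db)⟩,
    ⟨(nat_lit 0x2000000000), (nat_lit 0x2000000000), (nat_lit 0x2000000000), (nat_lit 0x2000000000)⟩,
    ⟨(nat_lit 0x202254e000), (nat_lit 0x2022534000), (nat_lit 0x20225e2000), (nat_lit 0x20225c8000)⟩,
    ⟨(nat_lit 0x35f9d), (nat_lit 0x35f4b), (nat_lit 0x36163), (nat_lit 0x36111)⟩,
    ⟨(nat_lit 0), (nat_lit 0), (nat_lit 0), (nat_lit 0)⟩,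
    (nat_lit 0x35f15), (nat_lit 0x36163)⟩)) (.nd (.lf ⟨⟨(nat_lit 0x2051b06000), (nat_lit 0x2051a70000), (nat_lit 0x2051dee000), (nat_lit 0x2051d58000)⟩,
    ⟨(nat_lit 0x22cbf), (nat_lit 0x22c3f), (nat_lit 0x22f13), (nat_lit 0x22e93)⟩,
    ⟨(nat_lit 0), (nat_lit 0), (nat_lit 0), (nat_lit 0)⟩,
    ⟨(nat_lit 0x2051aba000), (nat_lit 0x2051a24000), (nat_lit 0x2051da2000), (nat_lit 0x2051d0c000)⟩,
    ⟨(nat_lit 0x22c8b), (nat_lit 0x22c0b), (nat_lit 0x22edf), (nat_lit 0x22e5f)⟩,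
    ⟨(nat_lit 0x205e43f000), (nat_lit 0x205e379000), (nat_lit 0x205e811000), (nat_lit 0x205e74b000)⟩,
    (nat_lit 0x22c0b), (nat_lit 0x22f13)⟩) (.lf ⟨⟨(nat_lit 0x205e49b000), (nat_lit 0x205e3d5000), (nat_lit 0x205e86d000), (nat_lit 0x205e7a7000)⟩,
    ⟨(nat_lit 28883), (nat_lit 28853), (nat_lit 29023), (nat_lit 28993)⟩,
    ⟨(nat_lit 0x2051b06000), (nat_lit 0x2051a70000), (nat_lit 0x2051dee000), (nat_lit 0x2051d58000)⟩,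
    ⟨(nat_lit 0x205e43f000), (nat_lit 0x205e379000), (nat_lit 0x205e811000), (nat_lit 0x205e74b000)⟩,
    ⟨(nat_lit 28895), (nat_lit 28865), (nat_lit 29035), (nat_lit 29005)⟩,
    ⟨(nat_lit 0), (nat_lit 0), (nat_lit 0), (nat_lit 0)⟩,
    (nat_lit 28853), (nat_lit 29035)⟩))) (.nd (.nd (.lf ⟨⟨(nat_lit 0x2038c02000), (nat_lit 0x2038bba000), (nat_lit 0x2038d70000), (nat_lit 0x2038d28000)⟩,
    ⟨(nat_lit 0x1063a), (nat_lit 0x10610), (nat_lit 0x10710), (nat_lit 0x106e6)⟩,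
    ⟨(nat_lit 0), (nat_lit 0), (nat_lit 0), (nat_lit 0)⟩,
    ⟨(nat_lit 0x2038bd4000), (nat_lit 0x2038b8c000), (nat_lit 0x2038d42000), (nat_lit 0x2038cfa000)⟩,
    ⟨(nat_lit 0x10624), (nat_lit 0x105fa), (nat_lit 0x106fa), (nat_lit 0x106d0)⟩,
    ⟨(nat_lit 0x20463c6000), (nat_lit 0x2046358000), (nat_lit 0x20465f0000), (nat_lit 0x2046582000)⟩,
    (nat_lit 0x105fa), (nat_lit 0x10710)⟩) (.lf ⟨⟨(nat_lit 0x2046404000), (nat_lit 0x2046396000), (nat_lit 0x204662e000), (nat_lit 0x20465c0000)⟩,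
    ⟨(nat_lit 0x106d8), (nat_lit 0x106a4), (nat_lit 0x107ce), (nat_lit 0x1079a)⟩,
    ⟨(nat_lit 0x2038c02000), (nat_lit 0x2038bba000), (nat_lit 0x2038d70000), (nat_lit 0x2038d28000)⟩,
    ⟨(nat_lit 0x20463c6000), (nat_lit 0x2046358000), (nat_lit 0x20465f0000), (nat_lit 0x2046582000)⟩,
    ⟨(nat_lit 0x106f0), (nat_lit 0x106bc), (nat_lit 0x107e6), (nat_lit 0x107b2)⟩,
    ⟨(nat_lit 0), (nat_lit 0), (nat_lit 0), (nat_lit 0)⟩,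
    (nat_lit 0x106a4), (nat_lit 0x107e6)⟩)) (.nd (.lf ⟨⟨(nat_lit 0x2000000000), (nat_lit 0x2000000000), (nat_lit 0x2000000000), (nat_lit 0x2000000000)⟩,
    ⟨(nat_lit 0x100000), (nat_lit 0x100000), (nat_lit 0x100000), (nat_lit 0x100000)⟩,
    ⟨(nat_lit 0), (nat_lit 0), (nat_lit 0), (nat_lit 0)⟩,
    ⟨(nat_lit 0x2000000000), (nat_lit 0x2000000000), (nat_lit 0x2000000000), (nat_lit 0x2000000000)⟩,
    ⟨(nat_lit 0x100000), (nat_lit 0x100000), (nat_lit 0x100000), (nat_lit 0x100000)⟩,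
    ⟨(nat_lit 0x205e43f000), (nat_lit 0x205e379000), (nat_lit 0x205e811000), (nat_lit 0x205e74b000)⟩,
    (nat_lit 0x100000), (nat_lit 0x100000)⟩) (.lf ⟨⟨(nat_lit 0x205e49b000), (nat_lit 0x205e3d5000), (nat_lit 0x205e86d000), (nat_lit 0x205e7a7000)⟩,
    ⟨(nat_lit 0x358b6), (nat_lit 0x357d4), (nat_lit 0x35ce0), (nat_lit 0x35bfe)⟩,
    ⟨(nat_lit 0x2000000000), (nat_lit 0x2000000000), (nat_lit 0x2000000000), (nat_lit 0x2000000000)⟩,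
    ⟨(nat_lit 0x205e43f000), (nat_lit 0x205e379000), (nat_lit 0x205e811000), (nat_lit 0x205e74b000)⟩,
    ⟨(nat_lit 0x35902), (nat_lit 0x35820), (nat_lit 0x35d2c), (nat_lit 0x35c4a)⟩,
    ⟨(nat_lit 0), (nat_lit 0), (nat_lit 0), (nat_lit 0)⟩,
    (nat_lit 0x357d4), (nat_lit 0x35d2c)⟩)))
  nx := .nd (.nd (.lf (nat_lit 98)) (.lf (nat_lit 27))) (.nd (.lf (nat_lit 108)) (.lf (nat_lit 35)))
  mir := (nat_lit 34)

noncomputable def cx36 : CtxD where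
  sd := .nd (.nd (.nd (.lf ⟨⟨(nat_lit 0x2000000000), (nat_lit 0x2000000000), (nat_lit 0x2000000000), (nat_lit 0x2000000000)⟩,
    ⟨(nat_lit 0x21b72), (nat_lit 0x21b72), (nat_lit 0x21b72), (nat_lit 0x21b72)⟩,
    ⟨(nat_lit 0), (nat_lit 0), (nat_lit 0), (nat_lit 0)⟩,
    ⟨(nat_lit 0x2000000000), (nat_lit 0x2000000000), (nat_lit 0x2000000000), (nat_lit 0x2000000000)⟩,
    ⟨(nat_lit 0x21b70), (nat_lit 0x21b70), (nat_lit 0x21b70), (nat_lit 0x21b70)⟩,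
    ⟨(nat_lit 0x203c04f000), (nat_lit 0x203c037000), (nat_lit 0x203c06b000), (nat_lit 0x203c053000)⟩,
    (nat_lit 0x21b70), (nat_lit 0x21b72)⟩) (.lf ⟨⟨(nat_lit 0x203c05f000), (nat_lit 0x203c047000), (nat_lit 0x203c07b000), (nat_lit 0x203c063000)⟩,
    ⟨(nat_lit 0xa5119), (nat_lit 0xa5095), (nat_lit 0xa51f9), (nat_lit 0xa5175)⟩,
    ⟨(nat_lit 0x2000000000), (nat_lit 0x2000000000), (nat_lit 0x2000000000), (nat_lit 0x2000000000)⟩,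
    ⟨(nat_lit 0x203c04f000), (nat_lit 0x203c037000), (nat_lit 0x203c06b000), (nat_lit 0x203c053000)⟩,
    ⟨(nat_lit 0xa5165), (nat_lit 0xa50e1), (nat_lit 0xa5245), (nat_lit 0xa51c1)⟩,
    ⟨(nat_lit 0), (nat_lit 0), (nat_lit 0), (nat_lit 0)⟩,
    (nat_lit 0xa5095), (nat_lit 0xa5245)⟩)) (.nd (.lf ⟨⟨(nat_lit 0x211a74d000), (nat_lit 0x211a537000), (nat_lit 0x211a905000), (nat_lit 0x211a6ef000)⟩,
    ⟨(nat_lit 0xfbb36), (nat_lit 0xfb780), (nat_lit 0xfbc36), (nat_lit 0xfb880)⟩,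
    ⟨(nat_lit 0), (nat_lit 0), (nat_lit 0), (nat_lit 0)⟩,
    ⟨(nat_lit 0x211a6cd000), (nat_lit 0x211a4b7000), (nat_lit 0x211a885000), (nat_lit 0x211a66f000)⟩,
    ⟨(nat_lit 0xfba5c), (nat_lit 0xfb6a6), (nat_lit 0xfbb5c), (nat_lit 0xfb7a6)⟩,
    ⟨(nat_lit 0x21b8944000), (nat_lit 0x21b8432000), (nat_lit 0x21b8d52000), (nat_lit 0x21b8840000)⟩,
    (nat_lit 0xfb6a6), (nat_lit 0xfbc36)⟩) (.lf ⟨⟨(nat_lit 0x21b8a64000), (nat_lit 0x21b8552000), (nat_lit 0x21b8e72000), (nat_lit 0x21b8960000)⟩,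
    ⟨(nat_lit 0x99384), (nat_lit 0x98ffc), (nat_lit 0x997c8), (nat_lit 0x99440)⟩,
    ⟨(nat_lit 0x211a74d000), (nat_lit 0x211a537000), (nat_lit 0x211a905000), (nat_lit 0x211a6ef000)⟩,
    ⟨(nat_lit 0x21b8944000), (nat_lit 0x21b8432000), (nat_lit 0x21b8d52000), (nat_lit 0x21b8840000)⟩,
    ⟨(nat_lit 0x99458), (nat_lit 0x990d0), (nat_lit 0x9989c), (nat_lit 0x99514)⟩,
    ⟨(nat_lit 0), (nat_lit 0), (nat_lit 0), (nat_lit 0)⟩,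
    (nat_lit 0x98ffc), (nat_lit 0x9989c)⟩))) (.nd (.nd (.lf ⟨⟨(nat_lit 0x20725b2000), (nat_lit 0x207255a000), (nat_lit 0x20725ba000), (nat_lit 0x2072562000)⟩,
    ⟨(nat_lit 0x4da07), (nat_lit 0x4d991), (nat_lit 0x4da73), (nat_lit 0x4d9fd)⟩,
    ⟨(nat_lit 0), (nat_lit 0), (nat_lit 0), (nat_lit 0)⟩,
    ⟨(nat_lit 0x207258e000), (nat_lit 0x2072536000), (nat_lit 0x2072596000), (nat_lit 0x207253e000)⟩,
    ⟨(nat_lit 0x4d9db), (nat_lit 0x4d965), (nat_lit 0x4da47), (nat_lit 0x4d9d1)⟩,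
    ⟨(nat_lit 0x20b20a6000), (nat_lit 0x20b1fd2000), (nat_lit 0x20b20da000), (nat_lit 0x20b2006000)⟩,
    (nat_lit 0x4d965), (nat_lit 0x4da73)⟩) (.lf ⟨⟨(nat_lit 0x20b20e6000), (nat_lit 0x20b2012000), (nat_lit 0x20b211a000), (nat_lit 0x20b2046000)⟩,
    ⟨(nat_lit 0x4d42f), (nat_lit 0x4d377), (nat_lit 0x4d41d), (nat_lit 0x4d365)⟩,
    ⟨(nat_lit 0x20725b2000), (nat_lit 0x207255a000), (nat_lit 0x20725ba000), (nat_lit 0x2072562000)⟩,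
    ⟨(nat_lit 0x20b20a6000), (nat_lit 0x20b1fd2000), (nat_lit 0x20b20da000), (nat_lit 0x20b2006000)⟩,
    ⟨(nat_lit 0x4d463), (nat_lit 0x4d3ab), (nat_lit 0x4d451), (nat_lit 0x4d399)⟩,
    ⟨(nat_lit 0), (nat_lit 0), (nat_lit 0), (nat_lit 0)⟩,
    (nat_lit 0x4d365), (nat_lit 0x4d463)⟩)) (.nd (.lf ⟨⟨(nat_lit 0x2000000000), (nat_lit 0x2000000000), (nat_lit 0x2000000000), (nat_lit 0x2000000000)⟩,
    ⟨(nat_lit 0x100000), (nat_lit 0x100000), (nat_lit 0x100000), (nat_lit 0x100000)⟩,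
    ⟨(nat_lit 0), (nat_lit 0), (nat_lit 0), (nat_lit 0)⟩,
    ⟨(nat_lit 0x2000000000), (nat_lit 0x2000000000), (nat_lit 0x2000000000), (nat_lit 0x2000000000)⟩,
    ⟨(nat_lit 0x100000), (nat_lit 0x100000), (nat_lit 0x100000), (nat_lit 0x100000)⟩,
    ⟨(nat_lit 0x21b8944000), (nat_lit 0x21b8432000), (nat_lit 0x21b8d52000), (nat_lit 0x21b8840000)⟩,
    (nat_lit 0x100000), (nat_lit 0x100000)⟩) (.lf ⟨⟨(nat_lit 0x21b8a64000), (nat_lit 0x21b8552000), (nat_lit 0x21b8e72000), (nat_lit 0x21b8960000)⟩,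
    ⟨(nat_lit 0x48b68b), (nat_lit 0x489bbf), (nat_lit 0x48d6f5), (nat_lit 0x48bc29)⟩,
    ⟨(nat_lit 0x2000000000), (nat_lit 0x2000000000), (nat_lit 0x2000000000), (nat_lit 0x2000000000)⟩,
    ⟨(nat_lit 0x21b8944000), (nat_lit 0x21b8432000), (nat_lit 0x21b8d52000), (nat_lit 0x21b8840000)⟩,
    ⟨(nat_lit 0x48bcc1), (nat_lit 0x48a1f5), (nat_lit 0x48dd2b), (nat_lit 0x48c25f)⟩,
    ⟨(nat_lit 0), (nat_lit 0), (nat_lit 0), (nat_lit 0)⟩,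
    (nat_lit 0x489bbf), (nat_lit 0x48dd2b)⟩)))
  nx := .nd (.nd (.lf (nat_lit 30)) (.lf (nat_lit 97))) (.nd (.lf (nat_lit 107)) (.lf (nat_lit 36)))
  mir := (nat_lit 37)

noncomputable def cx37 : CtxD where
  sd := .nd (.nd (.nd (.lf ⟨⟨(nat_lit 0x2000000000), (nat_lit 0x2000000000), (nat_lit 0x2000000000), (nat_lit 0x2000000000)⟩,
    ⟨(nat_lit 0x21b72), (nat_lit 0x21b72), (nat_lit 0x21b72), (nat_lit 0x21b72)⟩,
    ⟨(nat_lit 0), (nat_lit 0), (nat_lit 0), (nat_lit 0)⟩,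
    ⟨(nat_lit 0x2000000000), (nat_lit 0x2000000000), (nat_lit 0x2000000000), (nat_lit 0x2000000000)⟩,
    ⟨(nat_lit 0x21b70), (nat_lit 0x21b70), (nat_lit 0x21b70), (nat_lit 0x21b70)⟩,
    ⟨(nat_lit 0x2022c6d000), (nat_lit 0x2022c49000), (nat_lit 0x2022ce1000), (nat_lit 0x2022cbd000)⟩,
    (nat_lit 0x21b70), (nat_lit 0x21b72)⟩) (.lf ⟨⟨(nat_lit 0x2022c87000), (nat_lit 0x2022c63000), (nat_lit 0x2022cfb000), (nat_lit 0x2022cd7000)⟩,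
    ⟨(nat_lit 0x374f3), (nat_lit 0x3747d), (nat_lit 0x37645), (nat_lit 0x375cf)⟩,
    ⟨(nat_lit 0x2000000000), (nat_lit 0x2000000000), (nat_lit 0x2000000000), (nat_lit 0x2000000000)⟩,
    ⟨(nat_lit 0x2022c6d000), (nat_lit 0x2022c49000), (nat_lit 0x2022ce1000), (nat_lit 0x2022cbd000)⟩,
    ⟨(nat_lit 0x3752b), (nat_lit 0x374b5), (nat_lit 0x3767d), (nat_lit 0x37607)⟩,
    ⟨(nat_lit 0), (nat_lit 0), (nat_lit 0), (nat_lit 0)⟩,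
    (nat_lit 0x3747d), (nat_lit 0x3767d)⟩)) (.nd (.lf ⟨⟨(nat_lit 0x2053b40000), (nat_lit 0x2053a6a000), (nat_lit 0x2053cb6000), (nat_lit 0x2053be0000)⟩,
    ⟨(nat_lit 0x24519), (nat_lit 0x24461), (nat_lit 0x245eb), (nat_lit 0x24533)⟩,
    ⟨(nat_lit 0), (nat_lit 0), (nat_lit 0), (nat_lit 0)⟩,
    ⟨(nat_lit 0x2053af2000), (nat_lit 0x2053a1c000), (nat_lit 0x2053c68000), (nat_lit 0x2053b92000)⟩,
    ⟨(nat_lit 0x244e3), (nat_lit 0x2442b), (nat_lit 0x245b5), (nat_lit 0x244fd)⟩,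
    ⟨(nat_lit 0x2060e21000), (nat_lit 0x2060d03000), (nat_lit 0x2060fef000), (nat_lit 0x2060ed1000)⟩,
    (nat_lit 0x2442b), (nat_lit 0x245eb)⟩) (.lf ⟨⟨(nat_lit 0x2060e81000), (nat_lit 0x2060d63000), (nat_lit 0x206104f000), (nat_lit 0x2060f31000)⟩,
    ⟨(nat_lit 30367), (nat_lit 30323), (nat_lit 30419), (nat_lit 30375)⟩,
    ⟨(nat_lit 0x2053b40000), (nat_lit 0x2053a6a000), (nat_lit 0x2053cb6000), (nat_lit 0x2053be0000)⟩,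
    ⟨(nat_lit 0x2060e21000), (nat_lit 0x2060d03000), (nat_lit 0x2060fef000), (nat_lit 0x2060ed1000)⟩,
    ⟨(nat_lit 30381), (nat_lit 30337), (nat_lit 30433), (nat_lit 30389)⟩,
    ⟨(nat_lit 0), (nat_lit 0), (nat_lit 0), (nat_lit 0)⟩,
    (nat_lit 30323), (nat_lit 30433)⟩))) (.nd (.nd (.lf ⟨⟨(nat_lit 0x2039bff000), (nat_lit 0x2039b99000), (nat_lit 0x2039cc1000), (nat_lit 0x2039c5b000)⟩,
    ⟨(nat_lit 0x10fc7), (nat_lit 0x10f8b), (nat_lit 0x11045), (nat_lit 0x11009)⟩,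
    ⟨(nat_lit 0), (nat_lit 0), (nat_lit 0), (nat_lit 0)⟩,
    ⟨(nat_lit 0x2039bcd000), (nat_lit 0x2039b67000), (nat_lit 0x2039c8f000), (nat_lit 0x2039c29000)⟩,
    ⟨(nat_lit 0x10fb1), (nat_lit 0x10f75), (nat_lit 0x1102f), (nat_lit 0x10ff3)⟩,
    ⟨(nat_lit 0x2047bd9000), (nat_lit 0x2047b3d000), (nat_lit 0x2047cf7000), (nat_lit 0x2047c5b000)⟩,
    (nat_lit 0x10f75), (nat_lit 0x11045)⟩) (.lf ⟨⟨(nat_lit 0x2047c19000), (nat_lit 0x2047b7d000), (nat_lit 0x2047d37000), (nat_lit 0x2047c9b000)⟩,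
    ⟨(nat_lit 0x11118), (nat_lit 0x110ce), (nat_lit 0x1117a), (nat_lit 0x11130)⟩,
    ⟨(nat_lit 0x2039bff000), (nat_lit 0x2039b99000), (nat_lit 0x2039cc1000), (nat_lit 0x2039c5b000)⟩,
    ⟨(nat_lit 0x2047bd9000), (nat_lit 0x2047b3d000), (nat_lit 0x2047cf7000), (nat_lit 0x2047c5b000)⟩,
    ⟨(nat_lit 0x11132), (nat_lit 0x110e8), (nat_lit 0x11194), (nat_lit 0x1114a)⟩,
    ⟨(nat_lit 0), (nat_lit 0), (nat_lit 0), (nat_lit 0)⟩,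
    (nat_lit 0x110ce), (nat_lit 0x11194)⟩)) (.nd (.lf ⟨⟨(nat_lit 0x2000000000), (nat_lit 0x2000000000), (nat_lit 0x2000000000), (nat_lit 0x2000000000)⟩,
    ⟨(nat_lit 0x100000), (nat_lit 0x100000), (nat_lit 0x100000), (nat_lit 0x100000)⟩,
    ⟨(nat_lit 0), (nat_lit 0), (nat_lit 0), (nat_lit 0)⟩,
    ⟨(nat_lit 0x2000000000), (nat_lit 0x2000000000), (nat_lit 0x2000000000), (nat_lit 0x2000000000)⟩,
    ⟨(nat_lit 0x100000), (nat_lit 0x100000), (nat_lit 0x100000), (nat_lit 0x100000)⟩,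
    ⟨(nat_lit 0x2060e21000), (nat_lit 0x2060d03000), (nat_lit 0x2060fef000), (nat_lit 0x2060ed1000)⟩,
    (nat_lit 0x100000), (nat_lit 0x100000)⟩) (.lf ⟨⟨(nat_lit 0x2060e81000), (nat_lit 0x2060d63000), (nat_lit 0x206104f000), (nat_lit 0x2060f31000)⟩,
    ⟨(nat_lit 0x384b8), (nat_lit 0x3836c), (nat_lit 0x3864a), (nat_lit 0x384fe)⟩,
    ⟨(nat_lit 0x2000000000), (nat_lit 0x2000000000), (nat_lit 0x2000000000), (nat_lit 0x2000000000)⟩,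
    ⟨(nat_lit 0x2060e21000), (nat_lit 0x2060d03000), (nat_lit 0x2060fef000), (nat_lit 0x2060ed1000)⟩,
    ⟨(nat_lit 0x38508), (nat_lit 0x383bc), (nat_lit 0x3869a), (nat_lit 0x3854e)⟩,
    ⟨(nat_lit 0), (nat_lit 0), (nat_lit 0), (nat_lit 0)⟩,
    (nat_lit 0x3836c), (nat_lit 0x3869a)⟩)))
  nx := .nd (.nd (.lf (nat_lit 96)) (.lf (nat_lit 31))) (.nd (.lf (nat_lit 106)) (.lf (nat_lit 37)))
  mir := (nat_lit 36)

noncomputable def cx38 : CtxD where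
  sd := .nd (.nd (.nd (.lf ⟨⟨(nat_lit 0x2000000000), (nat_lit 0x2000000000), (nat_lit 0x2000000000), (nat_lit 0x2000000000)⟩,
    ⟨(nat_lit 0x21b72), (nat_lit 0x21b72), (nat_lit 0x21b72), (nat_lit 0x21b72)⟩,
    ⟨(nat_lit 0), (nat_lit 0), (nat_lit 0), (nat_lit 0)⟩,
    ⟨(nat_lit 0x2000000000), (nat_lit 0x2000000000), (nat_lit 0x2000000000), (nat_lit 0x2000000000)⟩,
    ⟨(nat_lit 0x21b70), (nat_lit 0x21b70), (nat_lit 0x21b70), (nat_lit 0x21b70)⟩,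
    ⟨(nat_lit 0x203c0a8000), (nat_lit 0x203c09e000), (nat_lit 0x203c108000), (nat_lit 0x203c0fe000)⟩,
    (nat_lit 0x21b70), (nat_lit 0x21b72)⟩) (.lf ⟨⟨(nat_lit 0x203c0b8000), (nat_lit 0x203c0ae000), (nat_lit 0x203c118000), (nat_lit 0x203c10e000)⟩,
    ⟨(nat_lit 0xa5384), (nat_lit 0xa5348), (nat_lit 0xa55c4), (nat_lit 0xa5588)⟩,
    ⟨(nat_lit 0x2000000000), (nat_lit 0x2000000000), (nat_lit 0x2000000000), (nat_lit 0x2000000000)⟩,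
    ⟨(nat_lit 0x203c0a8000), (nat_lit 0x203c09e000), (nat_lit 0x203c108000), (nat_lit 0x203c0fe000)⟩,
    ⟨(nat_lit 0xa53cc), (nat_lit 0xa5390), (nat_lit 0xa560c), (nat_lit 0xa55d0)⟩,
    ⟨(nat_lit 0), (nat_lit 0), (nat_lit 0), (nat_lit 0)⟩,
    (nat_lit 0xa5348), (nat_lit 0xa560c)⟩)) (.nd (.lf ⟨⟨(nat_lit 0x211adc3000), (nat_lit 0x211acd1000), (nat_lit 0x211b599000), (nat_lit 0x211b4a7000)⟩,
    ⟨(nat_lit 0xfc31b), (nat_lit 0xfc169), (nat_lit 0xfcfa9), (nat_lit 0xfcdf7)⟩,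
    ⟨(nat_lit 0), (nat_lit 0), (nat_lit 0), (nat_lit 0)⟩,
    ⟨(nat_lit 0x211ad59000), (nat_lit 0x211ac67000), (nat_lit 0x211b52f000), (nat_lit 0x211b43d000)⟩,
    ⟨(nat_lit 0xfc259), (nat_lit 0xfc0a7), (nat_lit 0xfcee7), (nat_lit 0xfcd35)⟩,
    ⟨(nat_lit 0x21b98ff000), (nat_lit 0x21b96af000), (nat_lit 0x21bac0b000), (nat_lit 0x21ba9bb000)⟩,
    (nat_lit 0xfc0a7), (nat_lit 0xfcfa9)⟩) (.lf ⟨⟨(nat_lit 0x21b99ed000), (nat_lit 0x21b979d000), (nat_lit 0x21bacf9000), (nat_lit 0x21baaa9000)⟩,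
    ⟨(nat_lit 0x9a108), (nat_lit 0x99f6a), (nat_lit 0x9af60), (nat_lit 0x9adc2)⟩,
    ⟨(nat_lit 0x211adc3000), (nat_lit 0x211acd1000), (nat_lit 0x211b599000), (nat_lit 0x211b4a7000)⟩,
    ⟨(nat_lit 0x21b98ff000), (nat_lit 0x21b96af000), (nat_lit 0x21bac0b000), (nat_lit 0x21ba9bb000)⟩,
    ⟨(nat_lit 0x9a1c6), (nat_lit 0x9a028), (nat_lit 0x9b01e), (nat_lit 0x9ae80)⟩,
    ⟨(nat_lit 0), (nat_lit 0), (nat_lit 0), (nat_lit 0)⟩,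
    (nat_lit 0x99f6a), (nat_lit 0x9b01e)⟩))) (.nd (.nd (.lf ⟨⟨(nat_lit 0x207264d000), (nat_lit 0x2072625000), (nat_lit 0x2072769000), (nat_lit 0x2072741000)⟩,
    ⟨(nat_lit 0x4db8a), (nat_lit 0x4db54), (nat_lit 0x4dd4e), (nat_lit 0x4dd18)⟩,
    ⟨(nat_lit 0), (nat_lit 0), (nat_lit 0), (nat_lit 0)⟩,
    ⟨(nat_lit 0x2072631000), (nat_lit 0x2072609000), (nat_lit 0x207274d000), (nat_lit 0x2072725000)⟩,
    ⟨(nat_lit 0x4db62), (nat_lit 0x4db2c), (nat_lit 0x4dd26), (nat_lit 0x4dcf0)⟩,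
    ⟨(nat_lit 0x20b2266000), (nat_lit 0x20b2206000), (nat_lit 0x20b252c000), (nat_lit 0x20b24cc000)⟩,
    (nat_lit 0x4db2c), (nat_lit 0x4dd4e)⟩) (.lf ⟨⟨(nat_lit 0x20b229a000), (nat_lit 0x20b223a000), (nat_lit 0x20b2560000), (nat_lit 0x20b2500000)⟩,
    ⟨(nat_lit 0x4d542), (nat_lit 0x4d4ee), (nat_lit 0x4d77e), (nat_lit 0x4d72a)⟩,
    ⟨(nat_lit 0x207264d000), (nat_lit 0x2072625000), (nat_lit 0x2072769000), (nat_lit 0x2072741000)⟩,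
    ⟨(nat_lit 0x20b2266000), (nat_lit 0x20b2206000), (nat_lit 0x20b252c000), (nat_lit 0x20b24cc000)⟩,
    ⟨(nat_lit 0x4d572), (nat_lit 0x4d51e), (nat_lit 0x4d7ae), (nat_lit 0x4d75a)⟩,
    ⟨(nat_lit 0), (nat_lit 0), (nat_lit 0), (nat_lit 0)⟩,
    (nat_lit 0x4d4ee), (nat_lit 0x4d7ae)⟩)) (.nd (.lf ⟨⟨(nat_lit 0x2000000000), (nat_lit 0x2000000000), (nat_lit 0x2000000000), (nat_lit 0x2000000000)⟩,
    ⟨(nat_lit 0x100000), (nat_lit 0x100000), (nat_lit 0x100000), (nat_lit 0x100000)⟩,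
    ⟨(nat_lit 0), (nat_lit 0), (nat_lit 0), (nat_lit 0)⟩,
    ⟨(nat_lit 0x2000000000), (nat_lit 0x2000000000), (nat_lit 0x2000000000), (nat_lit 0x2000000000)⟩,
    ⟨(nat_lit 0x100000), (nat_lit 0x100000), (nat_lit 0x100000), (nat_lit 0x100000)⟩,
    ⟨(nat_lit 0x21b98ff000), (nat_lit 0x21b96af000), (nat_lit 0x21bac0b000), (nat_lit 0x21ba9bb000)⟩,
    (nat_lit 0x100000), (nat_lit 0x100000)⟩) (.lf ⟨⟨(nat_lit 0x21b99ed000), (nat_lit 0x21b979d000), (nat_lit 0x21bacf9000), (nat_lit 0x21baaa9000)⟩,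
    ⟨(nat_lit 0x491d35), (nat_lit 0x4910ef), (nat_lit 0x498a17), (nat_lit 0x497dd1)⟩,
    ⟨(nat_lit 0x2000000000), (nat_lit 0x2000000000), (nat_lit 0x2000000000), (nat_lit 0x2000000000)⟩,
    ⟨(nat_lit 0x21b98ff000), (nat_lit 0x21b96af000), (nat_lit 0x21bac0b000), (nat_lit 0x21ba9bb000)⟩,
    ⟨(nat_lit 0x4922c3), (nat_lit 0x49167d), (nat_lit 0x498fa5), (nat_lit 0x49835f)⟩,
    ⟨(nat_lit 0), (nat_lit 0), (nat_lit 0), (nat_lit 0)⟩,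
    (nat_lit 0x4910ef), (nat_lit 0x498fa5)⟩)))
  nx := .nd (.nd (.lf (nat_lit 30)) (.lf (nat_lit 97))) (.nd (.lf (nat_lit 107)) (.lf (nat_lit 38)))
  mir := (nat_lit 39)

noncomputable def cx39 : CtxD where
  sd := .nd (.nd (.nd (.lf ⟨⟨(nat_lit 0x2000000000), (nat_lit 0x2000000000), (nat_lit 0x2000000000), (nat_lit 0x2000000000)⟩,
    ⟨(nat_lit 0x21b72), (nat_lit 0x21b72), (nat_lit 0x21b72), (nat_lit 0x21b72)⟩,
    ⟨(nat_lit 0), (nat_lit 0), (nat_lit 0), (nat_lit 0)⟩,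
    ⟨(nat_lit 0x2000000000), (nat_lit 0x2000000000), (nat_lit 0x2000000000), (nat_lit 0x2000000000)⟩,
    ⟨(nat_lit 0x21b70), (nat_lit 0x21b70), (nat_lit 0x21b70), (nat_lit 0x21b70)⟩,
    ⟨(nat_lit 0x2022afc000), (nat_lit 0x2022aec000), (nat_lit 0x2022bc2000), (nat_lit 0x2022bb2000)⟩,
    (nat_lit 0x21b70), (nat_lit 0x21b72)⟩) (.lf ⟨⟨(nat_lit 0x2022b14000), (nat_lit 0x2022b04000), (nat_lit 0x2022bda000), (nat_lit 0x2022bca000)⟩,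
    ⟨(nat_lit 0x3708b), (nat_lit 0x37055), (nat_lit 0x372eb), (nat_lit 0x372b5)⟩,
    ⟨(nat_lit 0x2000000000), (nat_lit 0x2000000000), (nat_lit 0x2000000000), (nat_lit 0x2000000000)⟩,
    ⟨(nat_lit 0x2022afc000), (nat_lit 0x2022aec000), (nat_lit 0x2022bc2000), (nat_lit 0x2022bb2000)⟩,
    ⟨(nat_lit 0x370bf), (nat_lit 0x37089), (nat_lit 0x3731f), (nat_lit 0x372e9)⟩,
    ⟨(nat_lit 0), (nat_lit 0), (nat_lit 0), (nat_lit 0)⟩,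
    (nat_lit 0x37055), (nat_lit 0x3731f)⟩)) (.nd (.lf ⟨⟨(nat_lit 0x2053497000), (nat_lit 0x2053437000), (nat_lit 0x2053841000), (nat_lit 0x20537e1000)⟩,
    ⟨(nat_lit 0x24001), (nat_lit 0x23fad), (nat_lit 0x242dd), (nat_lit 0x24289)⟩,
    ⟨(nat_lit 0), (nat_lit 0), (nat_lit 0), (nat_lit 0)⟩,
    ⟨(nat_lit 0x2053453000), (nat_lit 0x20533f3000), (nat_lit 0x20537fd000), (nat_lit 0x205379d000)⟩,
    ⟨(nat_lit 0x23fd1), (nat_lit 0x23f7d), (nat_lit 0x242ad), (nat_lit 0x24259)⟩,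
    ⟨(nat_lit 0x206057e000), (nat_lit 0x20604fc000), (nat_lit 0x2060a4a000), (nat_lit 0x20609c8000)⟩,
    (nat_lit 0x23f7d), (nat_lit 0x242dd)⟩) (.lf ⟨⟨(nat_lit 0x20605d0000), (nat_lit 0x206054e000), (nat_lit 0x2060a9c000), (nat_lit 0x2060a1a000)⟩,
    ⟨(nat_lit 30055), (nat_lit 30035), (nat_lit 30229), (nat_lit 30209)⟩,
    ⟨(nat_lit 0x2053497000), (nat_lit 0x2053437000), (nat_lit 0x2053841000), (nat_lit 0x20537e1000)⟩,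
    ⟨(nat_lit 0x206057e000), (nat_lit 0x20604fc000), (nat_lit 0x2060a4a000), (nat_lit 0x20609c8000)⟩,
    ⟨(nat_lit 30067), (nat_lit 30047), (nat_lit 30241), (nat_lit 30221)⟩,
    ⟨(nat_lit 0), (nat_lit 0), (nat_lit 0), (nat_lit 0)⟩,
    (nat_lit 30035), (nat_lit 30241)⟩))) (.nd (.nd (.lf ⟨⟨(nat_lit 0x20398b7000), (nat_lit 0x2039889000), (nat_lit 0x2039a83000), (nat_lit 0x2039a55000)⟩,
    ⟨(nat_lit 0x10dce), (nat_lit 0x10db4), (nat_lit 0x10ee2), (nat_lit 0x10ec8)⟩,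
    ⟨(nat_lit 0), (nat_lit 0), (nat_lit 0), (nat_lit 0)⟩,
    ⟨(nat_lit 0x203988d000), (nat_lit 0x203985f000), (nat_lit 0x2039a59000), (nat_lit 0x2039a2b000)⟩,
    ⟨(nat_lit 0x10db8), (nat_lit 0x10d9e), (nat_lit 0x10ecc), (nat_lit 0x10eb2)⟩,
    ⟨(nat_lit 0x20476ec000), (nat_lit 0x20476a6000), (nat_lit 0x20479a6000), (nat_lit 0x2047960000)⟩,
    (nat_lit 0x10d9e), (nat_lit 0x10ee2)⟩) (.lf ⟨⟨(nat_lit 0x2047724000), (nat_lit 0x20476de000), (nat_lit 0x20479de000), (nat_lit 0x2047998000)⟩,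
    ⟨(nat_lit 0x10ef9), (nat_lit 0x10ed7), (nat_lit 0x11029), (nat_lit 0x11007)⟩,
    ⟨(nat_lit 0x20398b7000), (nat_lit 0x2039889000), (nat_lit 0x2039a83000), (nat_lit 0x2039a55000)⟩,
    ⟨(nat_lit 0x20476ec000), (nat_lit 0x20476a6000), (nat_lit 0x20479a6000), (nat_lit 0x2047960000)⟩,
    ⟨(nat_lit 0x10f0f), (nat_lit 0x10eed), (nat_lit 0x1103f), (nat_lit 0x1101d)⟩,
    ⟨(nat_lit 0), (nat_lit 0), (nat_lit 0), (nat_lit 0)⟩,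
    (nat_lit 0x10ed7), (nat_lit 0x1103f)⟩)) (.nd (.lf ⟨⟨(nat_lit 0x2000000000), (nat_lit 0x2000000000), (nat_lit 0x2000000000), (nat_lit 0x2000000000)⟩,
    ⟨(nat_lit 0x100000), (nat_lit 0x100000), (nat_lit 0x100000), (nat_lit 0x100000)⟩,
    ⟨(nat_lit 0), (nat_lit 0), (nat_lit 0), (nat_lit 0)⟩,
    ⟨(nat_lit 0x2000000000), (nat_lit 0x2000000000), (nat_lit 0x2000000000), (nat_lit 0x2000000000)⟩,
    ⟨(nat_lit 0x100000), (nat_lit 0x100000), (nat_lit 0x100000), (nat_lit 0x100000)⟩,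
    ⟨(nat_lit 0x206057e000), (nat_lit 0x20604fc000), (nat_lit 0x2060a4a000), (nat_lit 0x20609c8000)⟩,
    (nat_lit 0x100000), (nat_lit 0x100000)⟩) (.lf ⟨⟨(nat_lit 0x20605d0000), (nat_lit 0x206054e000), (nat_lit 0x2060a9c000), (nat_lit 0x2060a1a000)⟩,
    ⟨(nat_lit 0x37b7b), (nat_lit 0x37ae5), (nat_lit 0x380ab), (nat_lit 0x38015)⟩,
    ⟨(nat_lit 0x2000000000), (nat_lit 0x2000000000), (nat_lit 0x2000000000), (nat_lit 0x2000000000)⟩,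
    ⟨(nat_lit 0x206057e000), (nat_lit 0x20604fc000), (nat_lit 0x2060a4a000), (nat_lit 0x20609c8000)⟩,
    ⟨(nat_lit 0x37bc1), (nat_lit 0x37b2b), (nat_lit 0x380f1), (nat_lit 0x3805b)⟩,
    ⟨(nat_lit 0), (nat_lit 0), (nat_lit 0), (nat_lit 0)⟩,
    (nat_lit 0x37ae5), (nat_lit 0x380f1)⟩)))
  nx := .nd (.nd (.lf (nat_lit 96)) (.lf (nat_lit 31))) (.nd (.lf (nat_lit 106)) (.lf (nat_lit 39)))
  mir := (nat_lit 38)

noncomputable def cx40 : CtxD where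
  sd := .nd (.nd (.nd (.lf ⟨⟨(nat_lit 0x2000000000), (nat_lit 0x2000000000), (nat_lit 0x2000000000), (nat_lit 0x2000000000)⟩,
    ⟨(nat_lit 0x21b72), (nat_lit 0x21b72), (nat_lit 0x21b72), (nat_lit 0x21b72)⟩,
    ⟨(nat_lit 0), (nat_lit 0), (nat_lit 0), (nat_lit 0)⟩,
    ⟨(nat_lit 0x2000000000), (nat_lit 0x2000000000), (nat_lit 0x2000000000), (nat_lit 0x2000000000)⟩,
    ⟨(nat_lit 0x21b70), (nat_lit 0x21b70), (nat_lit 0x21b70), (nat_lit 0x21b70)⟩,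
    ⟨(nat_lit 0x203c15c000), (nat_lit 0x203c146000), (nat_lit 0x203c190000), (nat_lit 0x203c17a000)⟩,
    (nat_lit 0x21b70), (nat_lit 0x21b72)⟩) (.lf ⟨⟨(nat_lit 0x203c16e000), (nat_lit 0x203c158000), (nat_lit 0x203c1a2000), (nat_lit 0x203c18c000)⟩,
    ⟨(nat_lit 0xa57cf), (nat_lit 0xa5757), (nat_lit 0xa592f), (nat_lit 0xa58b7)⟩,
    ⟨(nat_lit 0x2000000000), (nat_lit 0x2000000000), (nat_lit 0x2000000000), (nat_lit 0x2000000000)⟩,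
    ⟨(nat_lit 0x203c15c000), (nat_lit 0x203c146000), (nat_lit 0x203c190000), (nat_lit 0x203c17a000)⟩,
    ⟨(nat_lit 0xa581b), (nat_lit 0xa57a3), (nat_lit 0xa597b), (nat_lit 0xa5903)⟩,
    ⟨(nat_lit 0), (nat_lit 0), (nat_lit 0), (nat_lit 0)⟩,
    (nat_lit 0xa5757), (nat_lit 0xa597b)⟩)) (.nd (.lf ⟨⟨(nat_lit 0x211bc83000), (nat_lit 0x211ba9d000), (nat_lit 0x211c05b000), (nat_lit 0x211be75000)⟩,
    ⟨(nat_lit 0xfda5a), (nat_lit 0xfd6f6), (nat_lit 0xfdf3a), (nat_lit 0xfdbd6)⟩,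
    ⟨(nat_lit 0), (nat_lit 0), (nat_lit 0), (nat_lit 0)⟩,
    ⟨(nat_lit 0x211bc05000), (nat_lit 0x211ba1f000), (nat_lit 0x211bfdd000), (nat_lit 0x211bdf7000)⟩,
    ⟨(nat_lit 0xfd980), (nat_lit 0xfd61c), (nat_lit 0xfde60), (nat_lit 0xfdafc)⟩,
    ⟨(nat_lit 0x21bbcac000), (nat_lit 0x21bb80a000), (nat_lit 0x21bc5fe000), (nat_lit 0x21bc15c000)⟩,
    (nat_lit 0xfd61c), (nat_lit 0xfdf3a)⟩) (.lf ⟨⟨(nat_lit 0x21bbdc8000), (nat_lit 0x21bb926000), (nat_lit 0x21bc71a000), (nat_lit 0x21bc278000)⟩,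
    ⟨(nat_lit 0x9bc3e), (nat_lit 0x9b8fe), (nat_lit 0x9c446), (nat_lit 0x9c106)⟩,
    ⟨(nat_lit 0x211bc83000), (nat_lit 0x211ba9d000), (nat_lit 0x211c05b000), (nat_lit 0x211be75000)⟩,
    ⟨(nat_lit 0x21bbcac000), (nat_lit 0x21bb80a000), (nat_lit 0x21bc5fe000), (nat_lit 0x21bc15c000)⟩,
    ⟨(nat_lit 0x9bd12), (nat_lit 0x9b9d2), (nat_lit 0x9c51a), (nat_lit 0x9c1da)⟩,
    ⟨(nat_lit 0), (nat_lit 0), (nat_lit 0), (nat_lit 0)⟩,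
    (nat_lit 0x9b8fe), (nat_lit 0x9c51a)⟩))) (.nd (.nd (.lf ⟨⟨(nat_lit 0x2072858000), (nat_lit 0x2072808000), (nat_lit 0x20728ba000), (nat_lit 0x207286a000)⟩,
    ⟨(nat_lit 0x4dedd), (nat_lit 0x4de71), (nat_lit 0x4dfbf), (nat_lit 0x4df53)⟩,
    ⟨(nat_lit 0), (nat_lit 0), (nat_lit 0), (nat_lit 0)⟩,
    ⟨(nat_lit 0x2072836000), (nat_lit 0x20727e6000), (nat_lit 0x2072898000), (nat_lit 0x2072848000)⟩,
    ⟨(nat_lit 0x4deb3), (nat_lit 0x4de47), (nat_lit 0x4df95), (nat_lit 0x4df29)⟩,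
    ⟨(nat_lit 0x20b277d000), (nat_lit 0x20b26bd000), (nat_lit 0x20b2889000), (nat_lit 0x20b27c9000)⟩,
    (nat_lit 0x4de47), (nat_lit 0x4dfbf)⟩) (.lf ⟨⟨(nat_lit 0x20b27bb000), (nat_lit 0x20b26fb000), (nat_lit 0x20b28c7000), (nat_lit 0x20b2807000)⟩,
    ⟨(nat_lit 0x4d950), (nat_lit 0x4d8aa), (nat_lit 0x4d9fc), (nat_lit 0x4d956)⟩,
    ⟨(nat_lit 0x2072858000), (nat_lit 0x2072808000), (nat_lit 0x20728ba000), (nat_lit 0x207286a000)⟩,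
    ⟨(nat_lit 0x20b277d000), (nat_lit 0x20b26bd000), (nat_lit 0x20b2889000), (nat_lit 0x20b27c9000)⟩,
    ⟨(nat_lit 0x4d984), (nat_lit 0x4d8de), (nat_lit 0x4da30), (nat_lit 0x4d98a)⟩,
    ⟨(nat_lit 0), (nat_lit 0), (nat_lit 0), (nat_lit 0)⟩,
    (nat_lit 0x4d8aa), (nat_lit 0x4da30)⟩)) (.nd (.lf ⟨⟨(nat_lit 0x2000000000), (nat_lit 0x2000000000), (nat_lit 0x2000000000), (nat_lit 0x2000000000)⟩,
    ⟨(nat_lit 0x100000), (nat_lit 0x100000), (nat_lit 0x100000), (nat_lit 0x100000)⟩,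
    ⟨(nat_lit 0), (nat_lit 0), (nat_lit 0), (nat_lit 0)⟩,
    ⟨(nat_lit 0x2000000000), (nat_lit 0x2000000000), (nat_lit 0x2000000000), (nat_lit 0x2000000000)⟩,
    ⟨(nat_lit 0x100000), (nat_lit 0x100000), (nat_lit 0x100000), (nat_lit 0x100000)⟩,
    ⟨(nat_lit 0x21bbcac000), (nat_lit 0x21bb80a000), (nat_lit 0x21bc5fe000), (nat_lit 0x21bc15c000)⟩,
    (nat_lit 0x100000), (nat_lit 0x100000)⟩) (.lf ⟨⟨(nat_lit 0x21bbdc8000), (nat_lit 0x21bb926000), (nat_lit 0x21bc71a000), (nat_lit 0x21bc278000)⟩,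
    ⟨(nat_lit 0x49ebcb), (nat_lit 0x49d319), (nat_lit 0x4a28c9), (nat_lit 0x4a1017)⟩,
    ⟨(nat_lit 0x2000000000), (nat_lit 0x2000000000), (nat_lit 0x2000000000), (nat_lit 0x2000000000)⟩,
    ⟨(nat_lit 0x21bbcac000), (nat_lit 0x21bb80a000), (nat_lit 0x21bc5fe000), (nat_lit 0x21bc15c000)⟩,
    ⟨(nat_lit 0x49f209), (nat_lit 0x49d957), (nat_lit 0x4a2f07), (nat_lit 0x4a1655)⟩,
    ⟨(nat_lit 0), (nat_lit 0), (nat_lit 0), (nat_lit 0)⟩,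
    (nat_lit 0x49d319), (nat_lit 0x4a2f07)⟩)))
  nx := .nd (.nd (.lf (nat_lit 30)) (.lf (nat_lit 97))) (.nd (.lf (nat_lit 107)) (.lf (nat_lit 40)))
  mir := (nat_lit 41)

noncomputable def cx41 : CtxD where
  sd := .nd (.nd (.nd (.lf ⟨⟨(nat_lit 0x2000000000), (nat_lit 0x2000000000), (nat_lit 0x2000000000), (nat_lit 0x2000000000)⟩,
    ⟨(nat_lit 0x21b72), (nat_lit 0x21b72), (nat_lit 0x21b72), (nat_lit 0x21b72)⟩,
    ⟨(nat_lit 0), (nat_lit 0), (nat_lit 0), (nat_lit 0)⟩,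
    ⟨(nat_lit 0x2000000000), (nat_lit 0x2000000000), (nat_lit 0x2000000000), (nat_lit 0x2000000000)⟩,
    ⟨(nat_lit 0x21b70), (nat_lit 0x21b70), (nat_lit 0x21b70), (nat_lit 0x21b70)⟩,
    ⟨(nat_lit 0x20229b3000), (nat_lit 0x2022991000), (nat_lit 0x2022a4d000), (nat_lit 0x2022a2b000)⟩,
    (nat_lit 0x21b70), (nat_lit 0x21b72)⟩) (.lf ⟨⟨(nat_lit 0x20229cf000), (nat_lit 0x20229ad000), (nat_lit 0x2022a69000), (nat_lit 0x2022a47000)⟩,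
    ⟨(nat_lit 0x36cb7), (nat_lit 0x36c4d), (nat_lit 0x36e7d), (nat_lit 0x36e13)⟩,
    ⟨(nat_lit 0x2000000000), (nat_lit 0x2000000000), (nat_lit 0x2000000000), (nat_lit 0x2000000000)⟩,
    ⟨(nat_lit 0x20229b3000), (nat_lit 0x2022991000), (nat_lit 0x2022a4d000), (nat_lit 0x2022a2b000)⟩,
    ⟨(nat_lit 0x36ced), (nat_lit 0x36c83), (nat_lit 0x36eb3), (nat_lit 0x36e49)⟩,
    ⟨(nat_lit 0), (nat_lit 0), (nat_lit 0), (nat_lit 0)⟩,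
    (nat_lit 0x36c4d), (nat_lit 0x36eb3)⟩)) (.nd (.lf ⟨⟨(nat_lit 0x2052f53000), (nat_lit 0x2052e93000), (nat_lit 0x20531a1000), (nat_lit 0x20530e1000)⟩,
    ⟨(nat_lit 0x23c41), (nat_lit 0x23b9b), (nat_lit 0x23dcd), (nat_lit 0x23d27)⟩,
    ⟨(nat_lit 0), (nat_lit 0), (nat_lit 0), (nat_lit 0)⟩,
    ⟨(nat_lit 0x2052f07000), (nat_lit 0x2052e47000), (nat_lit 0x2053155000), (nat_lit 0x2053095000)⟩,
    ⟨(nat_lit 0x23c0b), (nat_lit 0x23b65), (nat_lit 0x23d97), (nat_lit 0x23cf1)⟩,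
    ⟨(nat_lit 0x205feae000), (nat_lit 0x205fdae000), (nat_lit 0x206019c000), (nat_lit 0x206009c000)⟩,
    (nat_lit 0x23b65), (nat_lit 0x23dcd)⟩) (.lf ⟨⟨(nat_lit 0x205ff0a000), (nat_lit 0x205fe0a000), (nat_lit 0x20601f8000), (nat_lit 0x20600f8000)⟩,
    ⟨(nat_lit 29822), (nat_lit 29784), (nat_lit 29918), (nat_lit 29880)⟩,
    ⟨(nat_lit 0x2052f53000), (nat_lit 0x2052e93000), (nat_lit 0x20531a1000), (nat_lit 0x20530e1000)⟩,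
    ⟨(nat_lit 0x205feae000), (nat_lit 0x205fdae000), (nat_lit 0x206019c000), (nat_lit 0x206009c000)⟩,
    ⟨(nat_lit 29834), (nat_lit 29796), (nat_lit 29930), (nat_lit 29892)⟩,
    ⟨(nat_lit 0), (nat_lit 0), (nat_lit 0), (nat_lit 0)⟩,
    (nat_lit 29784), (nat_lit 29930)⟩))) (.nd (.nd (.lf ⟨⟨(nat_lit 0x2039616000), (nat_lit 0x20395ba000), (nat_lit 0x2039740000), (nat_lit 0x20396e4000)⟩,
    ⟨(nat_lit 0x10c31), (nat_lit 0x10bfb), (nat_lit 0x10ce9), (nat_lit 0x10cb3)⟩,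
    ⟨(nat_lit 0), (nat_lit 0), (nat_lit 0), (nat_lit 0)⟩,
    ⟨(nat_lit 0x20395e6000), (nat_lit 0x203958a000), (nat_lit 0x2039710000), (nat_lit 0x20396b4000)⟩,
    ⟨(nat_lit 0x10c1b), (nat_lit 0x10be5), (nat_lit 0x10cd3), (nat_lit 0x10c9d)⟩,
    ⟨(nat_lit 0x20472f4000), (nat_lit 0x2047268000), (nat_lit 0x20474b0000), (nat_lit 0x2047424000)⟩,
    (nat_lit 0x10be5), (nat_lit 0x10ce9)⟩) (.lf ⟨⟨(nat_lit 0x2047332000), (nat_lit 0x20472a6000), (nat_lit 0x20474ee000), (nat_lit 0x2047462000)⟩,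
    ⟨(nat_lit 0x10d5a), (nat_lit 0x10d18), (nat_lit 0x10e08), (nat_lit 0x10dc6)⟩,
    ⟨(nat_lit 0x2039616000), (nat_lit 0x20395ba000), (nat_lit 0x2039740000), (nat_lit 0x20396e4000)⟩,
    ⟨(nat_lit 0x20472f4000), (nat_lit 0x2047268000), (nat_lit 0x20474b0000), (nat_lit 0x2047424000)⟩,
    ⟨(nat_lit 0x10d72), (nat_lit 0x10d30), (nat_lit 0x10e20), (nat_lit 0x10dde)⟩,
    ⟨(nat_lit 0), (nat_lit 0), (nat_lit 0), (nat_lit 0)⟩,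
    (nat_lit 0x10d18), (nat_lit 0x10e20)⟩)) (.nd (.lf ⟨⟨(nat_lit 0x2000000000), (nat_lit 0x2000000000), (nat_lit 0x2000000000), (nat_lit 0x2000000000)⟩,
    ⟨(nat_lit 0x100000), (nat_lit 0x100000), (nat_lit 0x100000), (nat_lit 0x100000)⟩,
    ⟨(nat_lit 0), (nat_lit 0), (nat_lit 0), (nat_lit 0)⟩,
    ⟨(nat_lit 0x2000000000), (nat_lit 0x2000000000), (nat_lit 0x2000000000), (nat_lit 0x2000000000)⟩,
    ⟨(nat_lit 0x100000), (nat_lit 0x100000), (nat_lit 0x100000), (nat_lit 0x100000)⟩,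
    ⟨(nat_lit 0x205feae000), (nat_lit 0x205fdae000), (nat_lit 0x206019c000), (nat_lit 0x206009c000)⟩,
    (nat_lit 0x100000), (nat_lit 0x100000)⟩) (.lf ⟨⟨(nat_lit 0x205ff0a000), (nat_lit 0x205fe0a000), (nat_lit 0x20601f8000), (nat_lit 0x20600f8000)⟩,
    ⟨(nat_lit 0x37493), (nat_lit 0x3736b), (nat_lit 0x3776d), (nat_lit 0x37645)⟩,
    ⟨(nat_lit 0x2000000000), (nat_lit 0x2000000000), (nat_lit 0x2000000000), (nat_lit 0x2000000000)⟩,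
    ⟨(nat_lit 0x205feae000), (nat_lit 0x205fdae000), (nat_lit 0x206019c000), (nat_lit 0x206009c000)⟩,
    ⟨(nat_lit 0x374e1), (nat_lit 0x373b9), (nat_lit 0x377bb), (nat_lit 0x37693)⟩,
    ⟨(nat_lit 0), (nat_lit 0), (nat_lit 0), (nat_lit 0)⟩,
    (nat_lit 0x3736b), (nat_lit 0x377bb)⟩)))
  nx := .nd (.nd (.lf (nat_lit 96)) (.lf (nat_lit 31))) (.nd (.lf (nat_lit 106)) (.lf (nat_lit 41)))
  mir := (nat_lit 40)

noncomputable def cx42 : CtxD where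
  sd := .nd (.nd (.nd (.lf ⟨⟨(nat_lit 0x2000000000), (nat_lit 0x2000000000), (nat_lit 0x2000000000), (nat_lit 0x2000000000)⟩,
    ⟨(nat_lit 0x21b72), (nat_lit 0x21b72), (nat_lit 0x21b72), (nat_lit 0x21b72)⟩,
    ⟨(nat_lit 0), (nat_lit 0), (nat_lit 0), (nat_lit 0)⟩,
    ⟨(nat_lit 0x2000000000), (nat_lit 0x2000000000), (nat_lit 0x2000000000), (nat_lit 0x2000000000)⟩,
    ⟨(nat_lit 0x21b70), (nat_lit 0x21b70), (nat_lit 0x21b70), (nat_lit 0x21b70)⟩,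
    ⟨(nat_lit 0x203bbd3000), (nat_lit 0x203bbb5000), (nat_lit 0x203bc51000), (nat_lit 0x203bc33000)⟩,
    (nat_lit 0x21b70), (nat_lit 0x21b72)⟩) (.lf ⟨⟨(nat_lit 0x203bbe5000), (nat_lit 0x203bbc7000), (nat_lit 0x203bc63000), (nat_lit 0x203bc45000)⟩,
    ⟨(nat_lit 0xa3682), (nat_lit 0xa35dc), (nat_lit 0xa3956), (nat_lit 0xa38b0)⟩,
    ⟨(nat_lit 0x2000000000), (nat_lit 0x2000000000), (nat_lit 0x2000000000), (nat_lit 0x2000000000)⟩,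
    ⟨(nat_lit 0x203bbd3000), (nat_lit 0x203bbb5000), (nat_lit 0x203bc51000), (nat_lit 0x203bc33000)⟩,
    ⟨(nat_lit 0xa36cc), (nat_lit 0xa3626), (nat_lit 0xa39a0), (nat_lit 0xa38fa)⟩,
    ⟨(nat_lit 0), (nat_lit 0), (nat_lit 0), (nat_lit 0)⟩,
    (nat_lit 0xa35dc), (nat_lit 0xa39a0)⟩)) (.nd (.lf ⟨⟨(nat_lit 0x2114c95000), (nat_lit 0x2114a09000), (nat_lit 0x21156b7000), (nat_lit 0x211542b000)⟩,
    ⟨(nat_lit 0xf2b9e), (nat_lit 0xf2728), (nat_lit 0xf3c56), (nat_lit 0xf37e0)⟩,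
    ⟨(nat_lit 0), (nat_lit 0), (nat_lit 0), (nat_lit 0)⟩,
    ⟨(nat_lit 0x2114c23000), (nat_lit 0x2114997000), (nat_lit 0x2115645000), (nat_lit 0x21153b9000)⟩,
    ⟨(nat_lit 0xf2ae6), (nat_lit 0xf2670), (nat_lit 0xf3b9e), (nat_lit 0xf3728)⟩,
    ⟨(nat_lit 0x21ab2c9000), (nat_lit 0x21aacb9000), (nat_lit 0x21acabb000), (nat_lit 0x21ac4ab000)⟩,
    (nat_lit 0xf2670), (nat_lit 0xf3c56)⟩) (.lf ⟨⟨(nat_lit 0x21ab3b7000), (nat_lit 0x21aada7000), (nat_lit 0x21acba9000), (nat_lit 0x21ac599000)⟩,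
    ⟨(nat_lit 0x8f976), (nat_lit 0x8f562), (nat_lit 0x90a12), (nat_lit 0x905fe)⟩,
    ⟨(nat_lit 0x2114c95000), (nat_lit 0x2114a09000), (nat_lit 0x21156b7000), (nat_lit 0x211542b000)⟩,
    ⟨(nat_lit 0x21ab2c9000), (nat_lit 0x21aacb9000), (nat_lit 0x21acabb000), (nat_lit 0x21ac4ab000)⟩,
    ⟨(nat_lit 0x8fa1a), (nat_lit 0x8f606), (nat_lit 0x90ab6), (nat_lit 0x906a2)⟩,
    ⟨(nat_lit 0), (nat_lit 0), (nat_lit 0), (nat_lit 0)⟩,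
    (nat_lit 0x8f562), (nat_lit 0x90ab6)⟩))) (.nd (.nd (.lf ⟨⟨(nat_lit 0x2071839000), (nat_lit 0x20717cb000), (nat_lit 0x20719d3000), (nat_lit 0x2071965000)⟩,
    ⟨(nat_lit 0x4c526), (nat_lit 0x4c492), (nat_lit 0x4c77a), (nat_lit 0x4c6e6)⟩,
    ⟨(nat_lit 0), (nat_lit 0), (nat_lit 0), (nat_lit 0)⟩,
    ⟨(nat_lit 0x2071817000), (nat_lit 0x20717a9000), (nat_lit 0x20719b1000), (nat_lit 0x2071943000)⟩,
    ⟨(nat_lit 0x4c4fc), (nat_lit 0x4c468), (nat_lit 0x4c750), (nat_lit 0x4c6bc)⟩,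
    ⟨(nat_lit 0x20aff72000), (nat_lit 0x20afe6a000), (nat_lit 0x20b0356000), (nat_lit 0x20b024e000)⟩,
    (nat_lit 0x4c468), (nat_lit 0x4c77a)⟩) (.lf ⟨⟨(nat_lit 0x20affae000), (nat_lit 0x20afea6000), (nat_lit 0x20b0392000), (nat_lit 0x20b028a000)⟩,
    ⟨(nat_lit 0x4b992), (nat_lit 0x4b8b0), (nat_lit 0x4bcc8), (nat_lit 0x4bbe6)⟩,
    ⟨(nat_lit 0x2071839000), (nat_lit 0x20717cb000), (nat_lit 0x20719d3000), (nat_lit 0x2071965000)⟩,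
    ⟨(nat_lit 0x20aff72000), (nat_lit 0x20afe6a000), (nat_lit 0x20b0356000), (nat_lit 0x20b024e000)⟩,
    ⟨(nat_lit 0x4b9c0), (nat_lit 0x4b8de), (nat_lit 0x4bcf6), (nat_lit 0x4bc14)⟩,
    ⟨(nat_lit 0), (nat_lit 0), (nat_lit 0), (nat_lit 0)⟩,
    (nat_lit 0x4b8b0), (nat_lit 0x4bcf6)⟩)) (.nd (.lf ⟨⟨(nat_lit 0x2000000000), (nat_lit 0x2000000000), (nat_lit 0x2000000000), (nat_lit 0x2000000000)⟩,
    ⟨(nat_lit 0x100000), (nat_lit 0x100000), (nat_lit 0x100000), (nat_lit 0x100000)⟩,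
    ⟨(nat_lit 0), (nat_lit 0), (nat_lit 0), (nat_lit 0)⟩,
    ⟨(nat_lit 0x2000000000), (nat_lit 0x2000000000), (nat_lit 0x2000000000), (nat_lit 0x2000000000)⟩,
    ⟨(nat_lit 0x100000), (nat_lit 0x100000), (nat_lit 0x100000), (nat_lit 0x100000)⟩,
    ⟨(nat_lit 0x21ab2c9000), (nat_lit 0x21aacb9000), (nat_lit 0x21acabb000), (nat_lit 0x21ac4ab000)⟩,
    (nat_lit 0x100000), (nat_lit 0x100000)⟩) (.lf ⟨⟨(nat_lit 0x21ab3b7000), (nat_lit 0x21aada7000), (nat_lit 0x21acba9000), (nat_lit 0x21ac599000)⟩,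
    ⟨(nat_lit 0x4424d9), (nat_lit 0x4405db), (nat_lit 0x44a2fb), (nat_lit 0x4483fd)⟩,
    ⟨(nat_lit 0x2000000000), (nat_lit 0x2000000000), (nat_lit 0x2000000000), (nat_lit 0x2000000000)⟩,
    ⟨(nat_lit 0x21ab2c9000), (nat_lit 0x21aacb9000), (nat_lit 0x21acabb000), (nat_lit 0x21ac4ab000)⟩,
    ⟨(nat_lit 0x44299b), (nat_lit 0x440a9d), (nat_lit 0x44a7bd), (nat_lit 0x4488bf)⟩,
    ⟨(nat_lit 0), (nat_lit 0), (nat_lit 0), (nat_lit 0)⟩,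
    (nat_lit 0x4405db), (nat_lit 0x44a7bd)⟩)))
  nx := .nd (.nd (.lf (nat_lit 28)) (.lf (nat_lit 95))) (.nd (.lf (nat_lit 105)) (.lf (nat_lit 42)))
  mir := (nat_lit 43)

noncomputable def cx43 : CtxD where
  sd := .nd (.nd (.nd (.lf ⟨⟨(nat_lit 0x2000000000), (nat_lit 0x2000000000), (nat_lit 0x2000000000), (nat_lit 0x2000000000)⟩,
    ⟨(nat_lit 0x21b72), (nat_lit 0x21b72), (nat_lit 0x21b72), (nat_lit 0x21b72)⟩,
    ⟨(nat_lit 0), (nat_lit 0), (nat_lit 0), (nat_lit 0)⟩,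
    ⟨(nat_lit 0x2000000000), (nat_lit 0x2000000000), (nat_lit 0x2000000000), (nat_lit 0x2000000000)⟩,
    ⟨(nat_lit 0x21b70), (nat_lit 0x21b70), (nat_lit 0x21b70), (nat_lit 0x21b70)⟩,
    ⟨(nat_lit 0x2023458000), (nat_lit 0x202342a000), (nat_lit 0x202352e000), (nat_lit 0x2023500000)⟩,
    (nat_lit 0x21b70), (nat_lit 0x21b72)⟩) (.lf ⟨⟨(nat_lit 0x2023472000), (nat_lit 0x2023444000), (nat_lit 0x2023548000), (nat_lit 0x202351a000)⟩,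
    ⟨(nat_lit 0x38d7a), (nat_lit 0x38ce8), (nat_lit 0x39020), (nat_lit 0x38f8e)⟩,
    ⟨(nat_lit 0x2000000000), (nat_lit 0x2000000000), (nat_lit 0x2000000000), (nat_lit 0x2000000000)⟩,
    ⟨(nat_lit 0x2023458000), (nat_lit 0x202342a000), (nat_lit 0x202352e000), (nat_lit 0x2023500000)⟩,
    ⟨(nat_lit 0x38dac), (nat_lit 0x38d1a), (nat_lit 0x39052), (nat_lit 0x38fc0)⟩,
    ⟨(nat_lit 0), (nat_lit 0), (nat_lit 0), (nat_lit 0)⟩,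
    (nat_lit 0x38ce8), (nat_lit 0x39052)⟩)) (.nd (.lf ⟨⟨(nat_lit 0x2056103000), (nat_lit 0x2055ff7000), (nat_lit 0x2056575000), (nat_lit 0x2056469000)⟩,
    ⟨(nat_lit 0x2631b), (nat_lit 0x2622d), (nat_lit 0x266db), (nat_lit 0x265ed)⟩,
    ⟨(nat_lit 0), (nat_lit 0), (nat_lit 0), (nat_lit 0)⟩,
    ⟨(nat_lit 0x20560bf000), (nat_lit 0x2055fb3000), (nat_lit 0x2056531000), (nat_lit 0x2056425000)⟩,
    ⟨(nat_lit 0x262e9), (nat_lit 0x261fb), (nat_lit 0x266a9), (nat_lit 0x265bb)⟩,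
    ⟨(nat_lit 0x2063ffe000), (nat_lit 0x2063e92000), (nat_lit 0x20645f0000), (nat_lit 0x2064484000)⟩,
    (nat_lit 0x261fb), (nat_lit 0x266db)⟩) (.lf ⟨⟨(nat_lit 0x2064050000), (nat_lit 0x2063ee4000), (nat_lit 0x2064642000), (nat_lit 0x20644d6000)⟩,
    ⟨(nat_lit 32238), (nat_lit 32180), (nat_lit 32472), (nat_lit 32414)⟩,
    ⟨(nat_lit 0x2056103000), (nat_lit 0x2055ff7000), (nat_lit 0x2056575000), (nat_lit 0x2056469000)⟩,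
    ⟨(nat_lit 0x2063ffe000), (nat_lit 0x2063e92000), (nat_lit 0x20645f0000), (nat_lit 0x2064484000)⟩,
    ⟨(nat_lit 32250), (nat_lit 32192), (nat_lit 32484), (nat_lit 32426)⟩,
    ⟨(nat_lit 0), (nat_lit 0), (nat_lit 0), (nat_lit 0)⟩,
    (nat_lit 32180), (nat_lit 32484)⟩))) (.nd (.nd (.lf ⟨⟨(nat_lit 0x203ae28000), (nat_lit 0x203adaa000), (nat_lit 0x203b042000), (nat_lit 0x203afc4000)⟩,
    ⟨(nat_lit 0x11b08), (nat_lit 0x11abc), (nat_lit 0x11c52), (nat_lit 0x11c06)⟩,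
    ⟨(nat_lit 0), (nat_lit 0), (nat_lit 0), (nat_lit 0)⟩,
    ⟨(nat_lit 0x203adfe000), (nat_lit 0x203ad80000), (nat_lit 0x203b018000), (nat_lit 0x203af9a000)⟩,
    ⟨(nat_lit 0x11af4), (nat_lit 0x11aa8), (nat_lit 0x11c3e), (nat_lit 0x11bf2)⟩,
    ⟨(nat_lit 0x20497b5000), (nat_lit 0x20496f1000), (nat_lit 0x2049af7000), (nat_lit 0x2049a33000)⟩,
    (nat_lit 0x11aa8), (nat_lit 0x11c52)⟩) (.lf ⟨⟨(nat_lit 0x20497ed000), (nat_lit 0x2049729000), (nat_lit 0x2049b2f000), (nat_lit 0x2049a6b000)⟩,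
    ⟨(nat_lit 0x11d7a), (nat_lit 0x11d1a), (nat_lit 0x11efe), (nat_lit 0x11e9e)⟩,
    ⟨(nat_lit 0x203ae28000), (nat_lit 0x203adaa000), (nat_lit 0x203b042000), (nat_lit 0x203afc4000)⟩,
    ⟨(nat_lit 0x20497b5000), (nat_lit 0x20496f1000), (nat_lit 0x2049af7000), (nat_lit 0x2049a33000)⟩,
    ⟨(nat_lit 0x11d90), (nat_lit 0x11d30), (nat_lit 0x11f14), (nat_lit 0x11eb4)⟩,
    ⟨(nat_lit 0), (nat_lit 0), (nat_lit 0), (nat_lit 0)⟩,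
    (nat_lit 0x11d1a), (nat_lit 0x11f14)⟩)) (.nd (.lf ⟨⟨(nat_lit 0x2000000000), (nat_lit 0x2000000000), (nat_lit 0x2000000000), (nat_lit 0x2000000000)⟩,
    ⟨(nat_lit 0x100000), (nat_lit 0x100000), (nat_lit 0x100000), (nat_lit 0x100000)⟩,
    ⟨(nat_lit 0), (nat_lit 0), (nat_lit 0), (nat_lit 0)⟩,
    ⟨(nat_lit 0x2000000000), (nat_lit 0x2000000000), (nat_lit 0x2000000000), (nat_lit 0x2000000000)⟩,
    ⟨(nat_lit 0x100000), (nat_lit 0x100000), (nat_lit 0x100000), (nat_lit 0x100000)⟩,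
    ⟨(nat_lit 0x2063ffe000), (nat_lit 0x2063e92000), (nat_lit 0x20645f0000), (nat_lit 0x2064484000)⟩,
    (nat_lit 0x100000), (nat_lit 0x100000)⟩) (.lf ⟨⟨(nat_lit 0x2064050000), (nat_lit 0x2063ee4000), (nat_lit 0x2064642000), (nat_lit 0x20644d6000)⟩,
    ⟨(nat_lit 0x3bc3e), (nat_lit 0x3ba8c), (nat_lit 0x3c328), (nat_lit 0x3c176)⟩,
    ⟨(nat_lit 0x2000000000), (nat_lit 0x2000000000), (nat_lit 0x2000000000), (nat_lit 0x2000000000)⟩,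
    ⟨(nat_lit 0x2063ffe000), (nat_lit 0x2063e92000), (nat_lit 0x20645f0000), (nat_lit 0x2064484000)⟩,
    ⟨(nat_lit 0x3bc84), (nat_lit 0x3bad2), (nat_lit 0x3c36e), (nat_lit 0x3c1bc)⟩,
    ⟨(nat_lit 0), (nat_lit 0), (nat_lit 0), (nat_lit 0)⟩,
    (nat_lit 0x3ba8c), (nat_lit 0x3c36e)⟩)))
  nx := .nd (.nd (.lf (nat_lit 94)) (.lf (nat_lit 29))) (.nd (.lf (nat_lit 104)) (.lf (nat_lit 43)))
  mir := (nat_lit 42)

noncomputable def cx44 : CtxD where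
  sd := .nd (.nd (.nd (.lf ⟨⟨(nat_lit 0x2000000000), (nat_lit 0x2000000000), (nat_lit 0x2000000000), (nat_lit 0x2000000000)⟩,
    ⟨(nat_lit 0x21b72), (nat_lit 0x21b72), (nat_lit 0x21b72), (nat_lit 0x21b72)⟩,
    ⟨(nat_lit 0), (nat_lit 0), (nat_lit 0), (nat_lit 0)⟩,
    ⟨(nat_lit 0x2000000000), (nat_lit 0x2000000000), (nat_lit 0x2000000000), (nat_lit 0x2000000000)⟩,
    ⟨(nat_lit 0x21b70), (nat_lit 0x21b70), (nat_lit 0x21b70), (nat_lit 0x21b70)⟩,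
    ⟨(nat_lit 0x203bb24000), (nat_lit 0x203bb16000), (nat_lit 0x203bb6a000), (nat_lit 0x203bb5c000)⟩,
    (nat_lit 0x21b70), (nat_lit 0x21b72)⟩) (.lf ⟨⟨(nat_lit 0x203bb34000), (nat_lit 0x203bb26000), (nat_lit 0x203bb7a000), (nat_lit 0x203bb6c000)⟩,
    ⟨(nat_lit 0xa3280), (nat_lit 0xa3238), (nat_lit 0xa341e), (nat_lit 0xa33d6)⟩,
    ⟨(nat_lit 0x2000000000), (nat_lit 0x2000000000), (nat_lit 0x2000000000), (nat_lit 0x2000000000)⟩,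
    ⟨(nat_lit 0x203bb24000), (nat_lit 0x203bb16000), (nat_lit 0x203bb6a000), (nat_lit 0x203bb5c000)⟩,
    ⟨(nat_lit 0xa32ca), (nat_lit 0xa3282), (nat_lit 0xa3468), (nat_lit 0xa3420)⟩,
    ⟨(nat_lit 0), (nat_lit 0), (nat_lit 0), (nat_lit 0)⟩,
    (nat_lit 0xa3238), (nat_lit 0xa3468)⟩)) (.nd (.lf ⟨⟨(nat_lit 0x2113e90000), (nat_lit 0x2113d7a000), (nat_lit 0x21143fe000), (nat_lit 0x21142e8000)⟩,
    ⟨(nat_lit 0xf1500), (nat_lit 0xf1318), (nat_lit 0xf1d84), (nat_lit 0xf1b9c)⟩,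
    ⟨(nat_lit 0), (nat_lit 0), (nat_lit 0), (nat_lit 0)⟩,
    ⟨(nat_lit 0x2113e2c000), (nat_lit 0x2113d16000), (nat_lit 0x211439a000), (nat_lit 0x2114284000)⟩,
    ⟨(nat_lit 0xf1450), (nat_lit 0xf1268), (nat_lit 0xf1cd4), (nat_lit 0xf1aec)⟩,
    ⟨(nat_lit 0x21a9202000), (nat_lit 0x21a8f6c000), (nat_lit 0x21a9eac000), (nat_lit 0x21a9c16000)⟩,
    (nat_lit 0xf1268), (nat_lit 0xf1d84)⟩) (.lf ⟨⟨(nat_lit 0x21a92ce000), (nat_lit 0x21a9038000), (nat_lit 0x21a9f78000), (nat_lit 0x21a9ce2000)⟩,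
    ⟨(nat_lit 0x8e2a9), (nat_lit 0x8e0ed), (nat_lit 0x8eb8b), (nat_lit 0x8e9cf)⟩,
    ⟨(nat_lit 0x2113e90000), (nat_lit 0x2113d7a000), (nat_lit 0x21143fe000), (nat_lit 0x21142e8000)⟩,
    ⟨(nat_lit 0x21a9202000), (nat_lit 0x21a8f6c000), (nat_lit 0x21a9eac000), (nat_lit 0x21a9c16000)⟩,
    ⟨(nat_lit 0x8e33f), (nat_lit 0x8e183), (nat_lit 0x8ec21), (nat_lit 0x8ea65)⟩,
    ⟨(nat_lit 0), (nat_lit 0), (nat_lit 0), (nat_lit 0)⟩,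
    (nat_lit 0x8e0ed), (nat_lit 0x8ec21)⟩))) (.nd (.nd (.lf ⟨⟨(nat_lit 0x2071608000), (nat_lit 0x20715da000), (nat_lit 0x20716dc000), (nat_lit 0x20716ae000)⟩,
    ⟨(nat_lit 0x4c1ea), (nat_lit 0x4c1aa), (nat_lit 0x4c32e), (nat_lit 0x4c2ee)⟩,
    ⟨(nat_lit 0), (nat_lit 0), (nat_lit 0), (nat_lit 0)⟩,
    ⟨(nat_lit 0x20715ea000), (nat_lit 0x20715bc000), (nat_lit 0x20716be000), (nat_lit 0x2071690000)⟩,
    ⟨(nat_lit 0x4c1c2), (nat_lit 0x4c182), (nat_lit 0x4c306), (nat_lit 0x4c2c6)⟩,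
    ⟨(nat_lit 0x20afa26000), (nat_lit 0x20af9b6000), (nat_lit 0x20afc2a000), (nat_lit 0x20afbba000)⟩,
    (nat_lit 0x4c182), (nat_lit 0x4c32e)⟩) (.lf ⟨⟨(nat_lit 0x20afa5a000), (nat_lit 0x20af9ea000), (nat_lit 0x20afc5e000), (nat_lit 0x20afbee000)⟩,
    ⟨(nat_lit 0x4b53e), (nat_lit 0x4b4de), (nat_lit 0x4b6da), (nat_lit 0x4b67a)⟩,
    ⟨(nat_lit 0x2071608000), (nat_lit 0x20715da000), (nat_lit 0x20716dc000), (nat_lit 0x20716ae000)⟩,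
    ⟨(nat_lit 0x20afa26000), (nat_lit 0x20af9b6000), (nat_lit 0x20afc2a000), (nat_lit 0x20afbba000)⟩,
    ⟨(nat_lit 0x4b56c), (nat_lit 0x4b50c), (nat_lit 0x4b708), (nat_lit 0x4b6a8)⟩,
    ⟨(nat_lit 0), (nat_lit 0), (nat_lit 0), (nat_lit 0)⟩,
    (nat_lit 0x4b4de), (nat_lit 0x4b708)⟩)) (.nd (.lf ⟨⟨(nat_lit 0x2000000000), (nat_lit 0x2000000000), (nat_lit 0x2000000000), (nat_lit 0x2000000000)⟩,
    ⟨(nat_lit 0x100000), (nat_lit 0x100000), (nat_lit 0x100000), (nat_lit 0x100000)⟩,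
    ⟨(nat_lit 0), (nat_lit 0), (nat_lit 0), (nat_lit 0)⟩,
    ⟨(nat_lit 0x2000000000), (nat_lit 0x2000000000), (nat_lit 0x2000000000), (nat_lit 0x2000000000)⟩,
    ⟨(nat_lit 0x100000), (nat_lit 0x100000), (nat_lit 0x100000), (nat_lit 0x100000)⟩,
    ⟨(nat_lit 0x21a9202000), (nat_lit 0x21a8f6c000), (nat_lit 0x21a9eac000), (nat_lit 0x21a9c16000)⟩,
    (nat_lit 0x100000), (nat_lit 0x100000)⟩) (.lf ⟨⟨(nat_lit 0x21a92ce000), (nat_lit 0x21a9038000), (nat_lit 0x21a9f78000), (nat_lit 0x21a9ce2000)⟩,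
    ⟨(nat_lit 0x4377a8), (nat_lit 0x436a80), (nat_lit 0x43bb22), (nat_lit 0x43adfa)⟩,
    ⟨(nat_lit 0x2000000000), (nat_lit 0x2000000000), (nat_lit 0x2000000000), (nat_lit 0x2000000000)⟩,
    ⟨(nat_lit 0x21a9202000), (nat_lit 0x21a8f6c000), (nat_lit 0x21a9eac000), (nat_lit 0x21a9c16000)⟩,
    ⟨(nat_lit 0x437c0c), (nat_lit 0x436ee4), (nat_lit 0x43bf86), (nat_lit 0x43b25e)⟩,
    ⟨(nat_lit 0), (nat_lit 0), (nat_lit 0), (nat_lit 0)⟩,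
    (nat_lit 0x436a80), (nat_lit 0x43bf86)⟩)))
  nx := .nd (.nd (.lf (nat_lit 28)) (.lf (nat_lit 95))) (.nd (.lf (nat_lit 105)) (.lf (nat_lit 44)))
  mir := (nat_lit 45)

noncomputable def cx45 : CtxD where
  sd := .nd (.nd (.nd (.lf ⟨⟨(nat_lit 0x2000000000), (nat_lit 0x2000000000), (nat_lit 0x2000000000), (nat_lit 0x2000000000)⟩,
    ⟨(nat_lit 0x21b72), (nat_lit 0x21b72), (nat_lit 0x21b72), (nat_lit 0x21b72)⟩,
    ⟨(nat_lit 0), (nat_lit 0), (nat_lit 0), (nat_lit 0)⟩,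
    ⟨(nat_lit 0x2000000000), (nat_lit 0x2000000000), (nat_lit 0x2000000000), (nat_lit 0x2000000000)⟩,
    ⟨(nat_lit 0x21b70), (nat_lit 0x21b70), (nat_lit 0x21b70), (nat_lit 0x21b70)⟩,
    ⟨(nat_lit 0x20235cc000), (nat_lit 0x20235b8000), (nat_lit 0x202364a000), (nat_lit 0x2023636000)⟩,
    (nat_lit 0x21b70), (nat_lit 0x21b72)⟩) (.lf ⟨⟨(nat_lit 0x20235e2000), (nat_lit 0x20235ce000), (nat_lit 0x2023660000), (nat_lit 0x202364c000)⟩,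
    ⟨(nat_lit 0x3920a), (nat_lit 0x391cc), (nat_lit 0x39398), (nat_lit 0x3935a)⟩,
    ⟨(nat_lit 0x2000000000), (nat_lit 0x2000000000), (nat_lit 0x2000000000), (nat_lit 0x2000000000)⟩,
    ⟨(nat_lit 0x20235cc000), (nat_lit 0x20235b8000), (nat_lit 0x202364a000), (nat_lit 0x2023636000)⟩,
    ⟨(nat_lit 0x3923a), (nat_lit 0x391fc), (nat_lit 0x393c8), (nat_lit 0x3938a)⟩,
    ⟨(nat_lit 0), (nat_lit 0), (nat_lit 0), (nat_lit 0)⟩,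
    (nat_lit 0x391cc), (nat_lit 0x393c8)⟩)) (.nd (.lf ⟨⟨(nat_lit 0x205689b000), (nat_lit 0x2056827000), (nat_lit 0x2056b13000), (nat_lit 0x2056a9f000)⟩,
    ⟨(nat_lit 0x26981), (nat_lit 0x26919), (nat_lit 0x26b89), (nat_lit 0x26b21)⟩,
    ⟨(nat_lit 0), (nat_lit 0), (nat_lit 0), (nat_lit 0)⟩,
    ⟨(nat_lit 0x205685f000), (nat_lit 0x20567eb000), (nat_lit 0x2056ad7000), (nat_lit 0x2056a63000)⟩,
    ⟨(nat_lit 0x26953), (nat_lit 0x268eb), (nat_lit 0x26b5b), (nat_lit 0x26af3)⟩,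
    ⟨(nat_lit 0x2064a2d000), (nat_lit 0x2064991000), (nat_lit 0x2064d77000), (nat_lit 0x2064cdb000)⟩,
    (nat_lit 0x268eb), (nat_lit 0x26b89)⟩) (.lf ⟨⟨(nat_lit 0x2064a77000), (nat_lit 0x20649db000), (nat_lit 0x2064dc1000), (nat_lit 0x2064d25000)⟩,
    ⟨(nat_lit 32636), (nat_lit 32612), (nat_lit 32764), (nat_lit 32740)⟩,
    ⟨(nat_lit 0x205689b000), (nat_lit 0x2056827000), (nat_lit 0x2056b13000), (nat_lit 0x2056a9f000)⟩,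
    ⟨(nat_lit 0x2064a2d000), (nat_lit 0x2064991000), (nat_lit 0x2064d77000), (nat_lit 0x2064cdb000)⟩,
    ⟨(nat_lit 32648), (nat_lit 32624), (nat_lit 32776), (nat_lit 32752)⟩,
    ⟨(nat_lit 0), (nat_lit 0), (nat_lit 0), (nat_lit 0)⟩,
    (nat_lit 32612), (nat_lit 32776)⟩))) (.nd (.nd (.lf ⟨⟨(nat_lit 0x203b1be000), (nat_lit 0x203b188000), (nat_lit 0x203b2ea000), (nat_lit 0x203b2b4000)⟩,
    ⟨(nat_lit 0x11d3e), (nat_lit 0x11d1e), (nat_lit 0x11dfa), (nat_lit 0x11dda)⟩,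
    ⟨(nat_lit 0), (nat_lit 0), (nat_lit 0), (nat_lit 0)⟩,
    ⟨(nat_lit 0x203b198000), (nat_lit 0x203b162000), (nat_lit 0x203b2c4000), (nat_lit 0x203b28e000)⟩,
    ⟨(nat_lit 0x11d2a), (nat_lit 0x11d0a), (nat_lit 0x11de6), (nat_lit 0x11dc6)⟩,
    ⟨(nat_lit 0x2049d4a000), (nat_lit 0x2049cf6000), (nat_lit 0x2049f18000), (nat_lit 0x2049ec4000)⟩,
    (nat_lit 0x11d0a), (nat_lit 0x11dfa)⟩) (.lf ⟨⟨(nat_lit 0x2049d7c000), (nat_lit 0x2049d28000), (nat_lit 0x2049f4a000), (nat_lit 0x2049ef6000)⟩,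
    ⟨(nat_lit 0x12011), (nat_lit 0x11fe7), (nat_lit 0x120e5), (nat_lit 0x120bb)⟩,
    ⟨(nat_lit 0x203b1be000), (nat_lit 0x203b188000), (nat_lit 0x203b2ea000), (nat_lit 0x203b2b4000)⟩,
    ⟨(nat_lit 0x2049d4a000), (nat_lit 0x2049cf6000), (nat_lit 0x2049f18000), (nat_lit 0x2049ec4000)⟩,
    ⟨(nat_lit 0x12027), (nat_lit 0x11ffd), (nat_lit 0x120fb), (nat_lit 0x120d1)⟩,
    ⟨(nat_lit 0), (nat_lit 0), (nat_lit 0), (nat_lit 0)⟩,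
    (nat_lit 0x11fe7), (nat_lit 0x120fb)⟩)) (.nd (.lf ⟨⟨(nat_lit 0x2000000000), (nat_lit 0x2000000000), (nat_lit 0x2000000000), (nat_lit 0x2000000000)⟩,
    ⟨(nat_lit 0x100000), (nat_lit 0x100000), (nat_lit 0x100000), (nat_lit 0x100000)⟩,
    ⟨(nat_lit 0), (nat_lit 0), (nat_lit 0), (nat_lit 0)⟩,
    ⟨(nat_lit 0x2000000000), (nat_lit 0x2000000000), (nat_lit 0x2000000000), (nat_lit 0x2000000000)⟩,
    ⟨(nat_lit 0x100000), (nat_lit 0x100000), (nat_lit 0x100000), (nat_lit 0x100000)⟩,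
    ⟨(nat_lit 0x2064a2d000), (nat_lit 0x2064991000), (nat_lit 0x2064d77000), (nat_lit 0x2064cdb000)⟩,
    (nat_lit 0x100000), (nat_lit 0x100000)⟩) (.lf ⟨⟨(nat_lit 0x2064a77000), (nat_lit 0x20649db000), (nat_lit 0x2064dc1000), (nat_lit 0x2064d25000)⟩,
    ⟨(nat_lit 0x3c813), (nat_lit 0x3c757), (nat_lit 0x3cbdb), (nat_lit 0x3cb1f)⟩,
    ⟨(nat_lit 0x2000000000), (nat_lit 0x2000000000), (nat_lit 0x2000000000), (nat_lit 0x2000000000)⟩,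
    ⟨(nat_lit 0x2064a2d000), (nat_lit 0x2064991000), (nat_lit 0x2064d77000), (nat_lit 0x2064cdb000)⟩,
    ⟨(nat_lit 0x3c855), (nat_lit 0x3c799), (nat_lit 0x3cc1d), (nat_lit 0x3cb61)⟩,
    ⟨(nat_lit 0), (nat_lit 0), (nat_lit 0), (nat_lit 0)⟩,
    (nat_lit 0x3c757), (nat_lit 0x3cc1d)⟩)))
  nx := .nd (.nd (.lf (nat_lit 94)) (.lf (nat_lit 29))) (.nd (.lf (nat_lit 104)) (.lf (nat_lit 45)))
  mir := (nat_lit 44)

noncomputable def cx46 : CtxD where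
  sd := .nd (.nd (.nd (.lf ⟨⟨(nat_lit 0x2000000000), (nat_lit 0x2000000000), (nat_lit 0x2000000000), (nat_lit 0x2000000000)⟩,
    ⟨(nat_lit 0x21b72), (nat_lit 0x21b72), (nat_lit 0x21b72), (nat_lit 0x21b72)⟩,
    ⟨(nat_lit 0), (nat_lit 0), (nat_lit 0), (nat_lit 0)⟩,
    ⟨(nat_lit 0x2000000000), (nat_lit 0x2000000000), (nat_lit 0x2000000000), (nat_lit 0x2000000000)⟩,
    ⟨(nat_lit 0x21b70), (nat_lit 0x21b70), (nat_lit 0x21b70), (nat_lit 0x21b70)⟩,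
    ⟨(nat_lit 0x203b9d6000), (nat_lit 0x203b9c4000), (nat_lit 0x203baa8000), (nat_lit 0x203ba96000)⟩,
    (nat_lit 0x21b70), (nat_lit 0x21b72)⟩) (.lf ⟨⟨(nat_lit 0x203b9e6000), (nat_lit 0x203b9d4000), (nat_lit 0x203bab8000), (nat_lit 0x203baa6000)⟩,
    ⟨(nat_lit 0xa2b04), (nat_lit 0xa2aa2), (nat_lit 0xa2fb4), (nat_lit 0xa2f52)⟩,
    ⟨(nat_lit 0x2000000000), (nat_lit 0x2000000000), (nat_lit 0x2000000000), (nat_lit 0x2000000000)⟩,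
    ⟨(nat_lit 0x203b9d6000), (nat_lit 0x203b9c4000), (nat_lit 0x203baa8000), (nat_lit 0x203ba96000)⟩,
    ⟨(nat_lit 0xa2b4e), (nat_lit 0xa2aec), (nat_lit 0xa2ffe), (nat_lit 0xa2f9c)⟩,
    ⟨(nat_lit 0), (nat_lit 0), (nat_lit 0), (nat_lit 0)⟩,
    (nat_lit 0xa2aa2), (nat_lit 0xa2ffe)⟩)) (.nd (.lf ⟨⟨(nat_lit 0x2112468000), (nat_lit 0x21122e8000), (nat_lit 0x21134e4000), (nat_lit 0x2113364000)⟩,
    ⟨(nat_lit 0xeea9c), (nat_lit 0xee7fe), (nat_lit 0xf0574), (nat_lit 0xf02d6)⟩,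
    ⟨(nat_lit 0), (nat_lit 0), (nat_lit 0), (nat_lit 0)⟩,
    ⟨(nat_lit 0x2112400000), (nat_lit 0x2112280000), (nat_lit 0x211347c000), (nat_lit 0x21132fc000)⟩,
    ⟨(nat_lit 0xee9e8), (nat_lit 0xee74a), (nat_lit 0xf04c0), (nat_lit 0xf0222)⟩,
    ⟨(nat_lit 0x21a54dc000), (nat_lit 0x21a5150000), (nat_lit 0x21a7b58000), (nat_lit 0x21a77cc000)⟩,
    (nat_lit 0xee74a), (nat_lit 0xf0574)⟩) (.lf ⟨⟨(nat_lit 0x21a55b6000), (nat_lit 0x21a522a000), (nat_lit 0x21a7c32000), (nat_lit 0x21a78a6000)⟩,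
    ⟨(nat_lit 0x8b8b3), (nat_lit 0x8b657), (nat_lit 0x8d2f7), (nat_lit 0x8d09b)⟩,
    ⟨(nat_lit 0x2112468000), (nat_lit 0x21122e8000), (nat_lit 0x21134e4000), (nat_lit 0x2113364000)⟩,
    ⟨(nat_lit 0x21a54dc000), (nat_lit 0x21a5150000), (nat_lit 0x21a7b58000), (nat_lit 0x21a77cc000)⟩,
    ⟨(nat_lit 0x8b955), (nat_lit 0x8b6f9), (nat_lit 0x8d399), (nat_lit 0x8d13d)⟩,
    ⟨(nat_lit 0), (nat_lit 0), (nat_lit 0), (nat_lit 0)⟩,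
    (nat_lit 0x8b657), (nat_lit 0x8d399)⟩))) (.nd (.nd (.lf ⟨⟨(nat_lit 0x20711e6000), (nat_lit 0x20711a4000), (nat_lit 0x2071488000), (nat_lit 0x2071446000)⟩,
    ⟨(nat_lit 0x4bbd9), (nat_lit 0x4bb81), (nat_lit 0x4bfab), (nat_lit 0x4bf53)⟩,
    ⟨(nat_lit 0), (nat_lit 0), (nat_lit 0), (nat_lit 0)⟩,
    ⟨(nat_lit 0x20711c6000), (nat_lit 0x2071184000), (nat_lit 0x2071468000), (nat_lit 0x2071426000)⟩,
    ⟨(nat_lit 0x4bbb1), (nat_lit 0x4bb59), (nat_lit 0x4bf83), (nat_lit 0x4bf2b)⟩,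
    ⟨(nat_lit 0x20af017000), (nat_lit 0x20aef7b000), (nat_lit 0x20af677000), (nat_lit 0x20af5db000)⟩,
    (nat_lit 0x4bb59), (nat_lit 0x4bfab)⟩) (.lf ⟨⟨(nat_lit 0x20af04d000), (nat_lit 0x20aefb1000), (nat_lit 0x20af6ad000), (nat_lit 0x20af611000)⟩,
    ⟨(nat_lit 0x4ad0b), (nat_lit 0x4ac85), (nat_lit 0x4b243), (nat_lit 0x4b1bd)⟩,
    ⟨(nat_lit 0x20711e6000), (nat_lit 0x20711a4000), (nat_lit 0x2071488000), (nat_lit 0x2071446000)⟩,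
    ⟨(nat_lit 0x20af017000), (nat_lit 0x20aef7b000), (nat_lit 0x20af677000), (nat_lit 0x20af5db000)⟩,
    ⟨(nat_lit 0x4ad39), (nat_lit 0x4acb3), (nat_lit 0x4b271), (nat_lit 0x4b1eb)⟩,
    ⟨(nat_lit 0), (nat_lit 0), (nat_lit 0), (nat_lit 0)⟩,
    (nat_lit 0x4ac85), (nat_lit 0x4b271)⟩)) (.nd (.lf ⟨⟨(nat_lit 0x2000000000), (nat_lit 0x2000000000), (nat_lit 0x2000000000), (nat_lit 0x2000000000)⟩,
    ⟨(nat_lit 0x100000), (nat_lit 0x100000), (nat_lit 0x100000), (nat_lit 0x100000)⟩,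
    ⟨(nat_lit 0), (nat_lit 0), (nat_lit 0), (nat_lit 0)⟩,
    ⟨(nat_lit 0x2000000000), (nat_lit 0x2000000000), (nat_lit 0x2000000000), (nat_lit 0x2000000000)⟩,
    ⟨(nat_lit 0x100000), (nat_lit 0x100000), (nat_lit 0x100000), (nat_lit 0x100000)⟩,
    ⟨(nat_lit 0x21a54dc000), (nat_lit 0x21a5150000), (nat_lit 0x21a7b58000), (nat_lit 0x21a77cc000)⟩,
    (nat_lit 0x100000), (nat_lit 0x100000)⟩) (.lf ⟨⟨(nat_lit 0x21a55b6000), (nat_lit 0x21a522a000), (nat_lit 0x21a7c32000), (nat_lit 0x21a78a6000)⟩,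
    ⟨(nat_lit 0x42391a), (nat_lit 0x422728), (nat_lit 0x430086), (nat_lit 0x42ee94)⟩,
    ⟨(nat_lit 0x2000000000), (nat_lit 0x2000000000), (nat_lit 0x2000000000), (nat_lit 0x2000000000)⟩,
    ⟨(nat_lit 0x21a54dc000), (nat_lit 0x21a5150000), (nat_lit 0x21a7b58000), (nat_lit 0x21a77cc000)⟩,
    ⟨(nat_lit 0x423dd2), (nat_lit 0x422be0), (nat_lit 0x43053e), (nat_lit 0x42f34c)⟩,
    ⟨(nat_lit 0), (nat_lit 0), (nat_lit 0), (nat_lit 0)⟩,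
    (nat_lit 0x422728), (nat_lit 0x43053e)⟩)))
  nx := .nd (.nd (.lf (nat_lit 28)) (.lf (nat_lit 95))) (.nd (.lf (nat_lit 105)) (.lf (nat_lit 46)))
  mir := (nat_lit 47)

noncomputable def cx47 : CtxD where
  sd := .nd (.nd (.nd (.lf ⟨⟨(nat_lit 0x2000000000), (nat_lit 0x2000000000), (nat_lit 0x2000000000), (nat_lit 0x2000000000)⟩,
    ⟨(nat_lit 0x21b72), (nat_lit 0x21b72), (nat_lit 0x21b72), (nat_lit 0x21b72)⟩,
    ⟨(nat_lit 0), (nat_lit 0), (nat_lit 0), (nat_lit 0)⟩,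
    ⟨(nat_lit 0x2000000000), (nat_lit 0x2000000000), (nat_lit 0x2000000000), (nat_lit 0x2000000000)⟩,
    ⟨(nat_lit 0x21b70), (nat_lit 0x21b70), (nat_lit 0x21b70), (nat_lit 0x21b70)⟩,
    ⟨(nat_lit 0x2023724000), (nat_lit 0x202370a000), (nat_lit 0x2023880000), (nat_lit 0x2023866000)⟩,
    (nat_lit 0x21b70), (nat_lit 0x21b72)⟩) (.lf ⟨⟨(nat_lit 0x202373c000), (nat_lit 0x2023722000), (nat_lit 0x2023898000), (nat_lit 0x202387e000)⟩,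
    ⟨(nat_lit 0x39650), (nat_lit 0x395f8), (nat_lit 0x39aa2), (nat_lit 0x39a4a)⟩,
    ⟨(nat_lit 0x2000000000), (nat_lit 0x2000000000), (nat_lit 0x2000000000), (nat_lit 0x2000000000)⟩,
    ⟨(nat_lit 0x2023724000), (nat_lit 0x202370a000), (nat_lit 0x2023880000), (nat_lit 0x2023866000)⟩,
    ⟨(nat_lit 0x39682), (nat_lit 0x3962a), (nat_lit 0x39ad4), (nat_lit 0x39a7c)⟩,
    ⟨(nat_lit 0), (nat_lit 0), (nat_lit 0), (nat_lit 0)⟩,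
    (nat_lit 0x395f8), (nat_lit 0x39ad4)⟩)) (.nd (.lf ⟨⟨(nat_lit 0x2056f93000), (nat_lit 0x2056ef1000), (nat_lit 0x20576d7000), (nat_lit 0x2057635000)⟩,
    ⟨(nat_lit 0x26f52), (nat_lit 0x26ec0), (nat_lit 0x27584), (nat_lit 0x274f2)⟩,
    ⟨(nat_lit 0), (nat_lit 0), (nat_lit 0), (nat_lit 0)⟩,
    ⟨(nat_lit 0x2056f53000), (nat_lit 0x2056eb1000), (nat_lit 0x2057697000), (nat_lit 0x20575f5000)⟩,
    ⟨(nat_lit 0x26f20), (nat_lit 0x26e8e), (nat_lit 0x27552), (nat_lit 0x274c0)⟩,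
    ⟨(nat_lit 0x2065376000), (nat_lit 0x206529a000), (nat_lit 0x2065d36000), (nat_lit 0x2065c5a000)⟩,
    (nat_lit 0x26e8e), (nat_lit 0x27584)⟩) (.lf ⟨⟨(nat_lit 0x20653c6000), (nat_lit 0x20652ea000), (nat_lit 0x2065d86000), (nat_lit 0x2065caa000)⟩,
    ⟨(nat_lit 33001), (nat_lit 32967), (nat_lit 33389), (nat_lit 33355)⟩,
    ⟨(nat_lit 0x2056f93000), (nat_lit 0x2056ef1000), (nat_lit 0x20576d7000), (nat_lit 0x2057635000)⟩,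
    ⟨(nat_lit 0x2065376000), (nat_lit 0x206529a000), (nat_lit 0x2065d36000), (nat_lit 0x2065c5a000)⟩,
    ⟨(nat_lit 33013), (nat_lit 32979), (nat_lit 33401), (nat_lit 33367)⟩,
    ⟨(nat_lit 0), (nat_lit 0), (nat_lit 0), (nat_lit 0)⟩,
    (nat_lit 32967), (nat_lit 33401)⟩))) (.nd (.nd (.lf ⟨⟨(nat_lit 0x203b508000), (nat_lit 0x203b4bc000), (nat_lit 0x203b870000), (nat_lit 0x203b824000)⟩,
    ⟨(nat_lit 0x11f4b), (nat_lit 0x11f1d), (nat_lit 0x12169), (nat_lit 0x1213b)⟩,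
    ⟨(nat_lit 0), (nat_lit 0), (nat_lit 0), (nat_lit 0)⟩,
    ⟨(nat_lit 0x203b4e0000), (nat_lit 0x203b494000), (nat_lit 0x203b848000), (nat_lit 0x203b7fc000)⟩,
    ⟨(nat_lit 0x11f37), (nat_lit 0x11f09), (nat_lit 0x12155), (nat_lit 0x12127)⟩,
    ⟨(nat_lit 0x204a25e000), (nat_lit 0x204a1e8000), (nat_lit 0x204a7aa000), (nat_lit 0x204a734000)⟩,
    (nat_lit 0x11f09), (nat_lit 0x12169)⟩) (.lf ⟨⟨(nat_lit 0x204a294000), (nat_lit 0x204a21e000), (nat_lit 0x204a7e0000), (nat_lit 0x204a76a000)⟩,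
    ⟨(nat_lit 0x1226b), (nat_lit 0x12231), (nat_lit 0x124e9), (nat_lit 0x124af)⟩,
    ⟨(nat_lit 0x203b508000), (nat_lit 0x203b4bc000), (nat_lit 0x203b870000), (nat_lit 0x203b824000)⟩,
    ⟨(nat_lit 0x204a25e000), (nat_lit 0x204a1e8000), (nat_lit 0x204a7aa000), (nat_lit 0x204a734000)⟩,
    ⟨(nat_lit 0x12281), (nat_lit 0x12247), (nat_lit 0x124ff), (nat_lit 0x124c5)⟩,
    ⟨(nat_lit 0), (nat_lit 0), (nat_lit 0), (nat_lit 0)⟩,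
    (nat_lit 0x12231), (nat_lit 0x124ff)⟩)) (.nd (.lf ⟨⟨(nat_lit 0x2000000000), (nat_lit 0x2000000000), (nat_lit 0x2000000000), (nat_lit 0x2000000000)⟩,
    ⟨(nat_lit 0x100000), (nat_lit 0x100000), (nat_lit 0x100000), (nat_lit 0x100000)⟩,
    ⟨(nat_lit 0), (nat_lit 0), (nat_lit 0), (nat_lit 0)⟩,
    ⟨(nat_lit 0x2000000000), (nat_lit 0x2000000000), (nat_lit 0x2000000000), (nat_lit 0x2000000000)⟩,
    ⟨(nat_lit 0x100000), (nat_lit 0x100000), (nat_lit 0x100000), (nat_lit 0x100000)⟩,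
    ⟨(nat_lit 0x2065376000), (nat_lit 0x206529a000), (nat_lit 0x2065d36000), (nat_lit 0x2065c5a000)⟩,
    (nat_lit 0x100000), (nat_lit 0x100000)⟩) (.lf ⟨⟨(nat_lit 0x20653c6000), (nat_lit 0x20652ea000), (nat_lit 0x2065d86000), (nat_lit 0x2065caa000)⟩,
    ⟨(nat_lit 0x3d2db), (nat_lit 0x3d1d1), (nat_lit 0x3de5f), (nat_lit 0x3dd55)⟩,
    ⟨(nat_lit 0x2000000000), (nat_lit 0x2000000000), (nat_lit 0x2000000000), (nat_lit 0x2000000000)⟩,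
    ⟨(nat_lit 0x2065376000), (nat_lit 0x206529a000), (nat_lit 0x2065d36000), (nat_lit 0x2065c5a000)⟩,
    ⟨(nat_lit 0x3d325), (nat_lit 0x3d21b), (nat_lit 0x3dea9), (nat_lit 0x3dd9f)⟩,
    ⟨(nat_lit 0), (nat_lit 0), (nat_lit 0), (nat_lit 0)⟩,
    (nat_lit 0x3d1d1), (nat_lit 0x3dea9)⟩)))
  nx := .nd (.nd (.lf (nat_lit 94)) (.lf (nat_lit 29))) (.nd (.lf (nat_lit 104)) (.lf (nat_lit 47)))
  mir := (nat_lit 46)

noncomputable def cx48 : CtxD where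
  sd := .nd (.nd (.nd (.lf ⟨⟨(nat_lit 0x2000000000), (nat_lit 0x2000000000), (nat_lit 0x2000000000), (nat_lit 0x2000000000)⟩,
    ⟨(nat_lit 0x21b72), (nat_lit 0x21b72), (nat_lit 0x21b72), (nat_lit 0x21b72)⟩,
    ⟨(nat_lit 0), (nat_lit 0), (nat_lit 0), (nat_lit 0)⟩,
    ⟨(nat_lit 0x2000000000), (nat_lit 0x2000000000), (nat_lit 0x2000000000), (nat_lit 0x2000000000)⟩,
    ⟨(nat_lit 0x21b70), (nat_lit 0x21b70), (nat_lit 0x21b70), (nat_lit 0x21b70)⟩,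
    ⟨(nat_lit 0x203b76d000), (nat_lit 0x203b751000), (nat_lit 0x203b861000), (nat_lit 0x203b845000)⟩,
    (nat_lit 0x21b70), (nat_lit 0x21b72)⟩) (.lf ⟨⟨(nat_lit 0x203b783000), (nat_lit 0x203b767000), (nat_lit 0x203b877000), (nat_lit 0x203b85b000)⟩,
    ⟨(nat_lit 0xa1ce6), (nat_lit 0xa1c4c), (nat_lit 0xa2288), (nat_lit 0xa21ee)⟩,
    ⟨(nat_lit 0x2000000000), (nat_lit 0x2000000000), (nat_lit 0x2000000000), (nat_lit 0x2000000000)⟩,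
    ⟨(nat_lit 0x203b76d000), (nat_lit 0x203b751000), (nat_lit 0x203b861000), (nat_lit 0x203b845000)⟩,
    ⟨(nat_lit 0xa1d40), (nat_lit 0xa1ca6), (nat_lit 0xa22e2), (nat_lit 0xa2248)⟩,
    ⟨(nat_lit 0), (nat_lit 0), (nat_lit 0), (nat_lit 0)⟩,
    (nat_lit 0xa1c4c), (nat_lit 0xa22e2)⟩)) (.nd (.lf ⟨⟨(nat_lit 0x210f662000), (nat_lit 0x210f412000), (nat_lit 0x2110864000), (nat_lit 0x2110614000)⟩,
    ⟨(nat_lit 0xea393), (nat_lit 0xe9f95), (nat_lit 0xebecb), (nat_lit 0xebacd)⟩,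
    ⟨(nat_lit 0), (nat_lit 0), (nat_lit 0), (nat_lit 0)⟩,
    ⟨(nat_lit 0x210f5a2000), (nat_lit 0x210f352000), (nat_lit 0x21107a4000), (nat_lit 0x2110554000)⟩,
    ⟨(nat_lit 0xea263), (nat_lit 0xe9e65), (nat_lit 0xebd9b), (nat_lit 0xeb99d)⟩,
    ⟨(nat_lit 0x219ea80000), (nat_lit 0x219e518000), (nat_lit 0x21a1370000), (nat_lit 0x21a0e08000)⟩,
    (nat_lit 0xe9e65), (nat_lit 0xebecb)⟩) (.lf ⟨⟨(nat_lit 0x219ec1a000), (nat_lit 0x219e6b2000), (nat_lit 0x21a150a000), (nat_lit 0x21a0fa2000)⟩,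
    ⟨(nat_lit 0x86ffc), (nat_lit 0x86c74), (nat_lit 0x88bde), (nat_lit 0x88856)⟩,
    ⟨(nat_lit 0x210f662000), (nat_lit 0x210f412000), (nat_lit 0x2110864000), (nat_lit 0x2110614000)⟩,
    ⟨(nat_lit 0x219ea80000), (nat_lit 0x219e518000), (nat_lit 0x21a1370000), (nat_lit 0x21a0e08000)⟩,
    ⟨(nat_lit 0x870fc), (nat_lit 0x86d74), (nat_lit 0x88cde), (nat_lit 0x88956)⟩,
    ⟨(nat_lit 0), (nat_lit 0), (nat_lit 0), (nat_lit 0)⟩,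
    (nat_lit 0x86c74), (nat_lit 0x88cde)⟩))) (.nd (.nd (.lf ⟨⟨(nat_lit 0x2070ac4000), (nat_lit 0x2070a5e000), (nat_lit 0x2070d8c000), (nat_lit 0x2070d26000)⟩,
    ⟨(nat_lit 0x4b0f5), (nat_lit 0x4b06d), (nat_lit 0x4b541), (nat_lit 0x4b4b9)⟩,
    ⟨(nat_lit 0), (nat_lit 0), (nat_lit 0), (nat_lit 0)⟩,
    ⟨(nat_lit 0x2070a94000), (nat_lit 0x2070a2e000), (nat_lit 0x2070d5c000), (nat_lit 0x2070cf6000)⟩,
    ⟨(nat_lit 0x4b0bd), (nat_lit 0x4b035), (nat_lit 0x4b509), (nat_lit 0x4b481)⟩,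
    ⟨(nat_lit 0x20ade9a000), (nat_lit 0x20adda8000), (nat_lit 0x20ae55c000), (nat_lit 0x20ae46a000)⟩,
    (nat_lit 0x4b035), (nat_lit 0x4b541)⟩) (.lf ⟨⟨(nat_lit 0x20adef6000), (nat_lit 0x20ade04000), (nat_lit 0x20ae5b8000), (nat_lit 0x20ae4c6000)⟩,
    ⟨(nat_lit 0x49f3e), (nat_lit 0x49e70), (nat_lit 0x4a480), (nat_lit 0x4a3b2)⟩,
    ⟨(nat_lit 0x2070ac4000), (nat_lit 0x2070a5e000), (nat_lit 0x2070d8c000), (nat_lit 0x2070d26000)⟩,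
    ⟨(nat_lit 0x20ade9a000), (nat_lit 0x20adda8000), (nat_lit 0x20ae55c000), (nat_lit 0x20ae46a000)⟩,
    ⟨(nat_lit 0x49f86), (nat_lit 0x49eb8), (nat_lit 0x4a4c8), (nat_lit 0x4a3fa)⟩,
    ⟨(nat_lit 0), (nat_lit 0), (nat_lit 0), (nat_lit 0)⟩,
    (nat_lit 0x49e70), (nat_lit 0x4a4c8)⟩)) (.nd (.lf ⟨⟨(nat_lit 0x2000000000), (nat_lit 0x2000000000), (nat_lit 0x2000000000), (nat_lit 0x2000000000)⟩,
    ⟨(nat_lit 0x100000), (nat_lit 0x100000), (nat_lit 0x100000), (nat_lit 0x100000)⟩,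
    ⟨(nat_lit 0), (nat_lit 0), (nat_lit 0), (nat_lit 0)⟩,
    ⟨(nat_lit 0x2000000000), (nat_lit 0x2000000000), (nat_lit 0x2000000000), (nat_lit 0x2000000000)⟩,
    ⟨(nat_lit 0x100000), (nat_lit 0x100000), (nat_lit 0x100000), (nat_lit 0x100000)⟩,
    ⟨(nat_lit 0x219ea80000), (nat_lit 0x219e518000), (nat_lit 0x21a1370000), (nat_lit 0x21a0e08000)⟩,
    (nat_lit 0x100000), (nat_lit 0x100000)⟩) (.lf ⟨⟨(nat_lit 0x219ec1a000), (nat_lit 0x219e6b2000), (nat_lit 0x21a150a000), (nat_lit 0x21a0fa2000)⟩,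
    ⟨(nat_lit 0x4010f2), (nat_lit 0x3ff624), (nat_lit 0x40e4a2), (nat_lit 0x40c9d4)⟩,
    ⟨(nat_lit 0x2000000000), (nat_lit 0x2000000000), (nat_lit 0x2000000000), (nat_lit 0x2000000000)⟩,
    ⟨(nat_lit 0x219ea80000), (nat_lit 0x219e518000), (nat_lit 0x21a1370000), (nat_lit 0x21a0e08000)⟩,
    ⟨(nat_lit 0x401876), (nat_lit 0x3ffda8), (nat_lit 0x40ec26), (nat_lit 0x40d158)⟩,
    ⟨(nat_lit 0), (nat_lit 0), (nat_lit 0), (nat_lit 0)⟩,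
    (nat_lit 0x3ff624), (nat_lit 0x40ec26)⟩)))
  nx := .nd (.nd (.lf (nat_lit 32)) (.lf (nat_lit 93))) (.nd (.lf (nat_lit 105)) (.lf (nat_lit 48)))
  mir := (nat_lit 49)

noncomputable def cx49 : CtxD where
  sd := .nd (.nd (.nd (.lf ⟨⟨(nat_lit 0x2000000000), (nat_lit 0x2000000000), (nat_lit 0x2000000000), (nat_lit 0x2000000000)⟩,
    ⟨(nat_lit 0x21b72), (nat_lit 0x21b72), (nat_lit 0x21b72), (nat_lit 0x21b72)⟩,
    ⟨(nat_lit 0), (nat_lit 0), (nat_lit 0), (nat_lit 0)⟩,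
    ⟨(nat_lit 0x2000000000), (nat_lit 0x2000000000), (nat_lit 0x2000000000), (nat_lit 0x2000000000)⟩,
    ⟨(nat_lit 0x21b70), (nat_lit 0x21b70), (nat_lit 0x21b70), (nat_lit 0x21b70)⟩,
    ⟨(nat_lit 0x2023b0f000), (nat_lit 0x2023ae5000), (nat_lit 0x2023cb3000), (nat_lit 0x2023c89000)⟩,
    (nat_lit 0x21b70), (nat_lit 0x21b72)⟩) (.lf ⟨⟨(nat_lit 0x2023b2d000), (nat_lit 0x2023b03000), (nat_lit 0x2023cd1000), (nat_lit 0x2023ca7000)⟩,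
    ⟨(nat_lit 0x3a2bc), (nat_lit 0x3a236), (nat_lit 0x3a7f4), (nat_lit 0x3a76e)⟩,
    ⟨(nat_lit 0x2000000000), (nat_lit 0x2000000000), (nat_lit 0x2000000000), (nat_lit 0x2000000000)⟩,
    ⟨(nat_lit 0x2023b0f000), (nat_lit 0x2023ae5000), (nat_lit 0x2023cb3000), (nat_lit 0x2023c89000)⟩,
    ⟨(nat_lit 0x3a2fe), (nat_lit 0x3a278), (nat_lit 0x3a836), (nat_lit 0x3a7b0)⟩,
    ⟨(nat_lit 0), (nat_lit 0), (nat_lit 0), (nat_lit 0)⟩,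
    (nat_lit 0x3a236), (nat_lit 0x3a836)⟩)) (.nd (.lf ⟨⟨(nat_lit 0x205841a000), (nat_lit 0x205831e000), (nat_lit 0x2058c56000), (nat_lit 0x2058b5a000)⟩,
    ⟨(nat_lit 0x280a4), (nat_lit 0x27fbe), (nat_lit 0x28780), (nat_lit 0x2869a)⟩,
    ⟨(nat_lit 0), (nat_lit 0), (nat_lit 0), (nat_lit 0)⟩,
    ⟨(nat_lit 0x20583b6000), (nat_lit 0x20582ba000), (nat_lit 0x2058bf2000), (nat_lit 0x2058af6000)⟩,
    ⟨(nat_lit 0x28054), (nat_lit 0x27f6e), (nat_lit 0x28730), (nat_lit 0x2864a)⟩,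
    ⟨(nat_lit 0x2066ec7000), (nat_lit 0x2066d6f000), (nat_lit 0x20679cf000), (nat_lit 0x2067877000)⟩,
    (nat_lit 0x27f6e), (nat_lit 0x28780)⟩) (.lf ⟨⟨(nat_lit 0x2066f49000), (nat_lit 0x2066df1000), (nat_lit 0x2067a51000), (nat_lit 0x20678f9000)⟩,
    ⟨(nat_lit 34087), (nat_lit 34031), (nat_lit 34527), (nat_lit 34471)⟩,
    ⟨(nat_lit 0x205841a000), (nat_lit 0x205831e000), (nat_lit 0x2058c56000), (nat_lit 0x2058b5a000)⟩,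
    ⟨(nat_lit 0x2066ec7000), (nat_lit 0x2066d6f000), (nat_lit 0x20679cf000), (nat_lit 0x2067877000)⟩,
    ⟨(nat_lit 34105), (nat_lit 34049), (nat_lit 34545), (nat_lit 34489)⟩,
    ⟨(nat_lit 0), (nat_lit 0), (nat_lit 0), (nat_lit 0)⟩,
    (nat_lit 34031), (nat_lit 34545)⟩))) (.nd (.nd (.lf ⟨⟨(nat_lit 0x203bea3000), (nat_lit 0x203be2f000), (nat_lit 0x203c279000), (nat_lit 0x203c205000)⟩,
    ⟨(nat_lit 0x12557), (nat_lit 0x1250f), (nat_lit 0x127cf), (nat_lit 0x12787)⟩,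
    ⟨(nat_lit 0), (nat_lit 0), (nat_lit 0), (nat_lit 0)⟩,
    ⟨(nat_lit 0x203be6b000), (nat_lit 0x203bdf7000), (nat_lit 0x203c241000), (nat_lit 0x203c1cd000)⟩,
    ⟨(nat_lit 0x12539), (nat_lit 0x124f1), (nat_lit 0x127b1), (nat_lit 0x12769)⟩,
    ⟨(nat_lit 0x204b136000), (nat_lit 0x204b080000), (nat_lit 0x204b730000), (nat_lit 0x204b67a000)⟩,
    (nat_lit 0x124f1), (nat_lit 0x127cf)⟩) (.lf ⟨⟨(nat_lit 0x204b184000), (nat_lit 0x204b0ce000), (nat_lit 0x204b77e000), (nat_lit 0x204b6c8000)⟩,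
    ⟨(nat_lit 0x1295a), (nat_lit 0x12900), (nat_lit 0x12c1e), (nat_lit 0x12bc4)⟩,
    ⟨(nat_lit 0x203bea3000), (nat_lit 0x203be2f000), (nat_lit 0x203c279000), (nat_lit 0x203c205000)⟩,
    ⟨(nat_lit 0x204b136000), (nat_lit 0x204b080000), (nat_lit 0x204b730000), (nat_lit 0x204b67a000)⟩,
    ⟨(nat_lit 0x1297c), (nat_lit 0x12922), (nat_lit 0x12c40), (nat_lit 0x12be6)⟩,
    ⟨(nat_lit 0), (nat_lit 0), (nat_lit 0), (nat_lit 0)⟩,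
    (nat_lit 0x12900), (nat_lit 0x12c40)⟩)) (.nd (.lf ⟨⟨(nat_lit 0x2000000000), (nat_lit 0x2000000000), (nat_lit 0x2000000000), (nat_lit 0x2000000000)⟩,
    ⟨(nat_lit 0x100000), (nat_lit 0x100000), (nat_lit 0x100000), (nat_lit 0x100000)⟩,
    ⟨(nat_lit 0), (nat_lit 0), (nat_lit 0), (nat_lit 0)⟩,
    ⟨(nat_lit 0x2000000000), (nat_lit 0x2000000000), (nat_lit 0x2000000000), (nat_lit 0x2000000000)⟩,
    ⟨(nat_lit 0x100000), (nat_lit 0x100000), (nat_lit 0x100000), (nat_lit 0x100000)⟩,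
    ⟨(nat_lit 0x2066ec7000), (nat_lit 0x2066d6f000), (nat_lit 0x20679cf000), (nat_lit 0x2067877000)⟩,
    (nat_lit 0x100000), (nat_lit 0x100000)⟩) (.lf ⟨⟨(nat_lit 0x2066f49000), (nat_lit 0x2066df1000), (nat_lit 0x2067a51000), (nat_lit 0x20678f9000)⟩,
    ⟨(nat_lit 0x3f30a), (nat_lit 0x3f164), (nat_lit 0x40016), (nat_lit 0x3fe70)⟩,
    ⟨(nat_lit 0x2000000000), (nat_lit 0x2000000000), (nat_lit 0x2000000000), (nat_lit 0x2000000000)⟩,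
    ⟨(nat_lit 0x2066ec7000), (nat_lit 0x2066d6f000), (nat_lit 0x20679cf000), (nat_lit 0x2067877000)⟩,
    ⟨(nat_lit 0x3f38e), (nat_lit 0x3f1e8), (nat_lit 0x4009a), (nat_lit 0x3fef4)⟩,
    ⟨(nat_lit 0), (nat_lit 0), (nat_lit 0), (nat_lit 0)⟩,
    (nat_lit 0x3f164), (nat_lit 0x4009a)⟩)))
  nx := .nd (.nd (.lf (nat_lit 92)) (.lf (nat_lit 33))) (.nd (.lf (nat_lit 104)) (.lf (nat_lit 49)))
  mir := (nat_lit 48)

noncomputable def cx50 : CtxD where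
  sd := .nd (.nd (.nd (.lf ⟨⟨(nat_lit 0x2000000000), (nat_lit 0x2000000000), (nat_lit 0x2000000000), (nat_lit 0x2000000000)⟩,
    ⟨(nat_lit 0x21b72), (nat_lit 0x21b72), (nat_lit 0x21b72), (nat_lit 0x21b72)⟩,
    ⟨(nat_lit 0), (nat_lit 0), (nat_lit 0), (nat_lit 0)⟩,
    ⟨(nat_lit 0x2000000000), (nat_lit 0x2000000000), (nat_lit 0x2000000000), (nat_lit 0x2000000000)⟩,
    ⟨(nat_lit 0x21b70), (nat_lit 0x21b70), (nat_lit 0x21b70), (nat_lit 0x21b70)⟩,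
    ⟨(nat_lit 0x203b53f000), (nat_lit 0x203b52f000), (nat_lit 0x203b615000), (nat_lit 0x203b605000)⟩,
    (nat_lit 0x21b70), (nat_lit 0x21b72)⟩) (.lf ⟨⟨(nat_lit 0x203b551000), (nat_lit 0x203b541000), (nat_lit 0x203b627000), (nat_lit 0x203b617000)⟩,
    ⟨(nat_lit 0xa1068), (nat_lit 0xa1012), (nat_lit 0xa151e), (nat_lit 0xa14c8)⟩,
    ⟨(nat_lit 0x2000000000), (nat_lit 0x2000000000), (nat_lit 0x2000000000), (nat_lit 0x2000000000)⟩,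
    ⟨(nat_lit 0x203b53f000), (nat_lit 0x203b52f000), (nat_lit 0x203b615000), (nat_lit 0x203b605000)⟩,
    ⟨(nat_lit 0xa10b6), (nat_lit 0xa1060), (nat_lit 0xa156c), (nat_lit 0xa1516)⟩,
    ⟨(nat_lit 0), (nat_lit 0), (nat_lit 0), (nat_lit 0)⟩,
    (nat_lit 0xa1012), (nat_lit 0xa156c)⟩)) (.nd (.lf ⟨⟨(nat_lit 0x210cc06000), (nat_lit 0x210cabe000), (nat_lit 0x210dc42000), (nat_lit 0x210dafa000)⟩,
    ⟨(nat_lit 0xe6095), (nat_lit 0xe5e63), (nat_lit 0xe7ab3), (nat_lit 0xe7881)⟩,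
    ⟨(nat_lit 0), (nat_lit 0), (nat_lit 0), (nat_lit 0)⟩,
    ⟨(nat_lit 0x210cb8a000), (nat_lit 0x210ca42000), (nat_lit 0x210dbc6000), (nat_lit 0x210da7e000)⟩,
    ⟨(nat_lit 0xe5fc1), (nat_lit 0xe5d8f), (nat_lit 0xe79df), (nat_lit 0xe77ad)⟩,
    ⟨(nat_lit 0x2198a9f000), (nat_lit 0x21987a7000), (nat_lit 0x219afa3000), (nat_lit 0x219acab000)⟩,
    (nat_lit 0xe5d8f), (nat_lit 0xe7ab3)⟩) (.lf ⟨⟨(nat_lit 0x2198ba9000), (nat_lit 0x21988b1000), (nat_lit 0x219b0ad000), (nat_lit 0x219adb5000)⟩,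
    ⟨(nat_lit 0x830a7), (nat_lit 0x82ebf), (nat_lit 0x848d5), (nat_lit 0x846ed)⟩,
    ⟨(nat_lit 0x210cc06000), (nat_lit 0x210cabe000), (nat_lit 0x210dc42000), (nat_lit 0x210dafa000)⟩,
    ⟨(nat_lit 0x2198a9f000), (nat_lit 0x21987a7000), (nat_lit 0x219afa3000), (nat_lit 0x219acab000)⟩,
    ⟨(nat_lit 0x83163), (nat_lit 0x82f7b), (nat_lit 0x84991), (nat_lit 0x847a9)⟩,
    ⟨(nat_lit 0), (nat_lit 0), (nat_lit 0), (nat_lit 0)⟩,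
    (nat_lit 0x82ebf), (nat_lit 0x84991)⟩))) (.nd (.nd (.lf ⟨⟨(nat_lit 0x20703d6000), (nat_lit 0x207039c000), (nat_lit 0x207068a000), (nat_lit 0x2070650000)⟩,
    ⟨(nat_lit 0x4a6ef), (nat_lit 0x4a6a3), (nat_lit 0x4aac3), (nat_lit 0x4aa77)⟩,
    ⟨(nat_lit 0), (nat_lit 0), (nat_lit 0), (nat_lit 0)⟩,
    ⟨(nat_lit 0x20703b4000), (nat_lit 0x207037a000), (nat_lit 0x2070668000), (nat_lit 0x207062e000)⟩,
    ⟨(nat_lit 0x4a6c3), (nat_lit 0x4a677), (nat_lit 0x4aa97), (nat_lit 0x4aa4b)⟩,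
    ⟨(nat_lit 0x20ace1b000), (nat_lit 0x20acd93000), (nat_lit 0x20ad491000), (nat_lit 0x20ad409000)⟩,
    (nat_lit 0x4a677), (nat_lit 0x4aac3)⟩) (.lf ⟨⟨(nat_lit 0x20ace57000), (nat_lit 0x20acdcf000), (nat_lit 0x20ad4cd000), (nat_lit 0x20ad445000)⟩,
    ⟨(nat_lit 0x491fa), (nat_lit 0x49186), (nat_lit 0x4973a), (nat_lit 0x496c6)⟩,
    ⟨(nat_lit 0x20703d6000), (nat_lit 0x207039c000), (nat_lit 0x207068a000), (nat_lit 0x2070650000)⟩,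
    ⟨(nat_lit 0x20ace1b000), (nat_lit 0x20acd93000), (nat_lit 0x20ad491000), (nat_lit 0x20ad409000)⟩,
    ⟨(nat_lit 0x4922e), (nat_lit 0x491ba), (nat_lit 0x4976e), (nat_lit 0x496fa)⟩,
    ⟨(nat_lit 0), (nat_lit 0), (nat_lit 0), (nat_lit 0)⟩,
    (nat_lit 0x49186), (nat_lit 0x4976e)⟩)) (.nd (.lf ⟨⟨(nat_lit 0x2000000000), (nat_lit 0x2000000000), (nat_lit 0x2000000000), (nat_lit 0x2000000000)⟩,
    ⟨(nat_lit 0x100000), (nat_lit 0x100000), (nat_lit 0x100000), (nat_lit 0x100000)⟩,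
    ⟨(nat_lit 0), (nat_lit 0), (nat_lit 0), (nat_lit 0)⟩,
    ⟨(nat_lit 0x2000000000), (nat_lit 0x2000000000), (nat_lit 0x2000000000), (nat_lit 0x2000000000)⟩,
    ⟨(nat_lit 0x100000), (nat_lit 0x100000), (nat_lit 0x100000), (nat_lit 0x100000)⟩,
    ⟨(nat_lit 0x2198a9f000), (nat_lit 0x21987a7000), (nat_lit 0x219afa3000), (nat_lit 0x219acab000)⟩,
    (nat_lit 0x100000), (nat_lit 0x100000)⟩) (.lf ⟨⟨(nat_lit 0x2198ba9000), (nat_lit 0x21988b1000), (nat_lit 0x219b0ad000), (nat_lit 0x219adb5000)⟩,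
    ⟨(nat_lit 0x3e300d), (nat_lit 0x3e2193), (nat_lit 0x3ee7a9), (nat_lit 0x3ed92f)⟩,
    ⟨(nat_lit 0x2000000000), (nat_lit 0x2000000000), (nat_lit 0x2000000000), (nat_lit 0x2000000000)⟩,
    ⟨(nat_lit 0x2198a9f000), (nat_lit 0x21987a7000), (nat_lit 0x219afa3000), (nat_lit 0x219acab000)⟩,
    ⟨(nat_lit 0x3e3591), (nat_lit 0x3e2717), (nat_lit 0x3eed2d), (nat_lit 0x3edeb3)⟩,
    ⟨(nat_lit 0), (nat_lit 0), (nat_lit 0), (nat_lit 0)⟩,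
    (nat_lit 0x3e2193), (nat_lit 0x3eed2d)⟩)))
  nx := .nd (.nd (.lf (nat_lit 34)) (.lf (nat_lit 91))) (.nd (.lf (nat_lit 105)) (.lf (nat_lit 50)))
  mir := (nat_lit 51)

noncomputable def cx51 : CtxD where
  sd := .nd (.nd (.nd (.lf ⟨⟨(nat_lit 0x2000000000), (nat_lit 0x2000000000), (nat_lit 0x2000000000), (nat_lit 0x2000000000)⟩,
    ⟨(nat_lit 0x21b72), (nat_lit 0x21b72), (nat_lit 0x21b72), (nat_lit 0x21b72)⟩,
    ⟨(nat_lit 0), (nat_lit 0), (nat_lit 0), (nat_lit 0)⟩,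
    ⟨(nat_lit 0x2000000000), (nat_lit 0x2000000000), (nat_lit 0x2000000000), (nat_lit 0x2000000000)⟩,
    ⟨(nat_lit 0x21b70), (nat_lit 0x21b70), (nat_lit 0x21b70), (nat_lit 0x21b70)⟩,
    ⟨(nat_lit 0x2023ed0000), (nat_lit 0x2023eba000), (nat_lit 0x2024018000), (nat_lit 0x2024002000)⟩,
    (nat_lit 0x21b70), (nat_lit 0x21b72)⟩) (.lf ⟨⟨(nat_lit 0x2023ee8000), (nat_lit 0x2023ed2000), (nat_lit 0x2024030000), (nat_lit 0x202401a000)⟩,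
    ⟨(nat_lit 0x3aeb6), (nat_lit 0x3ae6c), (nat_lit 0x3b2de), (nat_lit 0x3b294)⟩,
    ⟨(nat_lit 0x2000000000), (nat_lit 0x2000000000), (nat_lit 0x2000000000), (nat_lit 0x2000000000)⟩,
    ⟨(nat_lit 0x2023ed0000), (nat_lit 0x2023eba000), (nat_lit 0x2024018000), (nat_lit 0x2024002000)⟩,
    ⟨(nat_lit 0x3aeee), (nat_lit 0x3aea4), (nat_lit 0x3b316), (nat_lit 0x3b2cc)⟩,
    ⟨(nat_lit 0), (nat_lit 0), (nat_lit 0), (nat_lit 0)⟩,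
    (nat_lit 0x3ae6c), (nat_lit 0x3b316)⟩)) (.nd (.lf ⟨⟨(nat_lit 0x2059771000), (nat_lit 0x20596e3000), (nat_lit 0x2059ea3000), (nat_lit 0x2059e15000)⟩,
    ⟨(nat_lit 0x2910c), (nat_lit 0x2908a), (nat_lit 0x2976a), (nat_lit 0x296e8)⟩,
    ⟨(nat_lit 0), (nat_lit 0), (nat_lit 0), (nat_lit 0)⟩,
    ⟨(nat_lit 0x2059725000), (nat_lit 0x2059697000), (nat_lit 0x2059e57000), (nat_lit 0x2059dc9000)⟩,
    ⟨(nat_lit 0x290d2), (nat_lit 0x29050), (nat_lit 0x29730), (nat_lit 0x296ae)⟩,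
    ⟨(nat_lit 0x20688ee000), (nat_lit 0x206882c000), (nat_lit 0x20692b4000), (nat_lit 0x20691f2000)⟩,
    (nat_lit 0x29050), (nat_lit 0x2976a)⟩) (.lf ⟨⟨(nat_lit 0x206894a000), (nat_lit 0x2068888000), (nat_lit 0x2069310000), (nat_lit 0x206924e000)⟩,
    ⟨(nat_lit 35144), (nat_lit 35112), (nat_lit 35550), (nat_lit 35518)⟩,
    ⟨(nat_lit 0x2059771000), (nat_lit 0x20596e3000), (nat_lit 0x2059ea3000), (nat_lit 0x2059e15000)⟩,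
    ⟨(nat_lit 0x20688ee000), (nat_lit 0x206882c000), (nat_lit 0x20692b4000), (nat_lit 0x20691f2000)⟩,
    ⟨(nat_lit 35156), (nat_lit 35124), (nat_lit 35562), (nat_lit 35530)⟩,
    ⟨(nat_lit 0), (nat_lit 0), (nat_lit 0), (nat_lit 0)⟩,
    (nat_lit 35112), (nat_lit 35562)⟩))) (.nd (.nd (.lf ⟨⟨(nat_lit 0x203c796000), (nat_lit 0x203c756000), (nat_lit 0x203cae2000), (nat_lit 0x203caa2000)⟩,
    ⟨(nat_lit 0x12b17), (nat_lit 0x12aef), (nat_lit 0x12d31), (nat_lit 0x12d09)⟩,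
    ⟨(nat_lit 0), (nat_lit 0), (nat_lit 0), (nat_lit 0)⟩,
    ⟨(nat_lit 0x203c76a000), (nat_lit 0x203c72a000), (nat_lit 0x203cab6000), (nat_lit 0x203ca76000)⟩,
    ⟨(nat_lit 0x12b01), (nat_lit 0x12ad9), (nat_lit 0x12d1b), (nat_lit 0x12cf3)⟩,
    ⟨(nat_lit 0x204bf47000), (nat_lit 0x204bee1000), (nat_lit 0x204c477000), (nat_lit 0x204c411000)⟩,
    (nat_lit 0x12ad9), (nat_lit 0x12d31)⟩) (.lf ⟨⟨(nat_lit 0x204bf83000), (nat_lit 0x204bf1d000), (nat_lit 0x204c4b3000), (nat_lit 0x204c44d000)⟩,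
    ⟨(nat_lit 0x12ff6), (nat_lit 0x12fc2), (nat_lit 0x1327c), (nat_lit 0x13248)⟩,
    ⟨(nat_lit 0x203c796000), (nat_lit 0x203c756000), (nat_lit 0x203cae2000), (nat_lit 0x203caa2000)⟩,
    ⟨(nat_lit 0x204bf47000), (nat_lit 0x204bee1000), (nat_lit 0x204c477000), (nat_lit 0x204c411000)⟩,
    ⟨(nat_lit 0x13010), (nat_lit 0x12fdc), (nat_lit 0x13296), (nat_lit 0x13262)⟩,
    ⟨(nat_lit 0), (nat_lit 0), (nat_lit 0), (nat_lit 0)⟩,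
    (nat_lit 0x12fc2), (nat_lit 0x13296)⟩)) (.nd (.lf ⟨⟨(nat_lit 0x2000000000), (nat_lit 0x2000000000), (nat_lit 0x2000000000), (nat_lit 0x2000000000)⟩,
    ⟨(nat_lit 0x100000), (nat_lit 0x100000), (nat_lit 0x100000), (nat_lit 0x100000)⟩,
    ⟨(nat_lit 0), (nat_lit 0), (nat_lit 0), (nat_lit 0)⟩,
    ⟨(nat_lit 0x2000000000), (nat_lit 0x2000000000), (nat_lit 0x2000000000), (nat_lit 0x2000000000)⟩,
    ⟨(nat_lit 0x100000), (nat_lit 0x100000), (nat_lit 0x100000), (nat_lit 0x100000)⟩,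
    ⟨(nat_lit 0x20688ee000), (nat_lit 0x206882c000), (nat_lit 0x20692b4000), (nat_lit 0x20691f2000)⟩,
    (nat_lit 0x100000), (nat_lit 0x100000)⟩) (.lf ⟨⟨(nat_lit 0x206894a000), (nat_lit 0x2068888000), (nat_lit 0x2069310000), (nat_lit 0x206924e000)⟩,
    ⟨(nat_lit 0x41267), (nat_lit 0x41175), (nat_lit 0x41e6d), (nat_lit 0x41d7b)⟩,
    ⟨(nat_lit 0x2000000000), (nat_lit 0x2000000000), (nat_lit 0x2000000000), (nat_lit 0x2000000000)⟩,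
    ⟨(nat_lit 0x20688ee000), (nat_lit 0x206882c000), (nat_lit 0x20692b4000), (nat_lit 0x20691f2000)⟩,
    ⟨(nat_lit 0x412bd), (nat_lit 0x411cb), (nat_lit 0x41ec3), (nat_lit 0x41dd1)⟩,
    ⟨(nat_lit 0), (nat_lit 0), (nat_lit 0), (nat_lit 0)⟩,
    (nat_lit 0x41175), (nat_lit 0x41ec3)⟩)))
  nx := .nd (.nd (.lf (nat_lit 90)) (.lf (nat_lit 35))) (.nd (.lf (nat_lit 104)) (.lf (nat_lit 51)))
  mir := (nat_lit 50)

noncomputable def cx52 : CtxD where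
  sd := .nd (.nd (.nd (.lf ⟨⟨(nat_lit 0x2000000000), (nat_lit 0x2000000000), (nat_lit 0x2000000000), (nat_lit 0x2000000000)⟩,
    ⟨(nat_lit 0x21b72), (nat_lit 0x21b72), (nat_lit 0x21b72), (nat_lit 0x21b72)⟩,
    ⟨(nat_lit 0), (nat_lit 0), (nat_lit 0), (nat_lit 0)⟩,
    ⟨(nat_lit 0x2000000000), (nat_lit 0x2000000000), (nat_lit 0x2000000000), (nat_lit 0x2000000000)⟩,
    ⟨(nat_lit 0x21b70), (nat_lit 0x21b70), (nat_lit 0x21b70), (nat_lit 0x21b70)⟩,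
    ⟨(nat_lit 0x203b47a000), (nat_lit 0x203b46e000), (nat_lit 0x203b4bc000), (nat_lit 0x203b4b0000)⟩,
    (nat_lit 0x21b70), (nat_lit 0x21b72)⟩) (.lf ⟨⟨(nat_lit 0x203b48a000), (nat_lit 0x203b47e000), (nat_lit 0x203b4cc000), (nat_lit 0x203b4c0000)⟩,
    ⟨(nat_lit 0xa0c04), (nat_lit 0xa0bc0), (nat_lit 0xa0d7c), (nat_lit 0xa0d38)⟩,
    ⟨(nat_lit 0x2000000000), (nat_lit 0x2000000000), (nat_lit 0x2000000000), (nat_lit 0x2000000000)⟩,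
    ⟨(nat_lit 0x203b47a000), (nat_lit 0x203b46e000), (nat_lit 0x203b4bc000), (nat_lit 0x203b4b0000)⟩,
    ⟨(nat_lit 0xa0c4c), (nat_lit 0xa0c08), (nat_lit 0xa0dc4), (nat_lit 0xa0d80)⟩,
    ⟨(nat_lit 0), (nat_lit 0), (nat_lit 0), (nat_lit 0)⟩,
    (nat_lit 0xa0bc0), (nat_lit 0xa0dc4)⟩)) (.nd (.lf ⟨⟨(nat_lit 0x210bd33000), (nat_lit 0x210bc35000), (nat_lit 0x210c205000), (nat_lit 0x210c107000)⟩,
    ⟨(nat_lit 0xe4933), (nat_lit 0xe4781), (nat_lit 0xe50ad), (nat_lit 0xe4efb)⟩,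
    ⟨(nat_lit 0), (nat_lit 0), (nat_lit 0), (nat_lit 0)⟩,
    ⟨(nat_lit 0x210bccf000), (nat_lit 0x210bbd1000), (nat_lit 0x210c1a1000), (nat_lit 0x210c0a3000)⟩,
    ⟨(nat_lit 0xe4883), (nat_lit 0xe46d1), (nat_lit 0xe4ffd), (nat_lit 0xe4e4b)⟩,
    ⟨(nat_lit 0x2196956000), (nat_lit 0x219670a000), (nat_lit 0x219742c000), (nat_lit 0x21971e0000)⟩,
    (nat_lit 0xe46d1), (nat_lit 0xe50ad)⟩) (.lf ⟨⟨(nat_lit 0x2196a24000), (nat_lit 0x21967d8000), (nat_lit 0x21974fa000), (nat_lit 0x21972ae000)⟩,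
    ⟨(nat_lit 0x81b01), (nat_lit 0x8198b), (nat_lit 0x8220f), (nat_lit 0x82099)⟩,
    ⟨(nat_lit 0x210bd33000), (nat_lit 0x210bc35000), (nat_lit 0x210c205000), (nat_lit 0x210c107000)⟩,
    ⟨(nat_lit 0x2196956000), (nat_lit 0x219670a000), (nat_lit 0x219742c000), (nat_lit 0x21971e0000)⟩,
    ⟨(nat_lit 0x81b95), (nat_lit 0x81a1f), (nat_lit 0x822a3), (nat_lit 0x8212d)⟩,
    ⟨(nat_lit 0), (nat_lit 0), (nat_lit 0), (nat_lit 0)⟩,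
    (nat_lit 0x8198b), (nat_lit 0x822a3)⟩))) (.nd (.nd (.lf ⟨⟨(nat_lit 0x2070160000), (nat_lit 0x2070134000), (nat_lit 0x207022c000), (nat_lit 0x2070200000)⟩,
    ⟨(nat_lit 0x4a367), (nat_lit 0x4a32b), (nat_lit 0x4a48f), (nat_lit 0x4a453)⟩,
    ⟨(nat_lit 0), (nat_lit 0), (nat_lit 0), (nat_lit 0)⟩,
    ⟨(nat_lit 0x2070142000), (nat_lit 0x2070116000), (nat_lit 0x207020e000), (nat_lit 0x20701e2000)⟩,
    ⟨(nat_lit 0x4a33f), (nat_lit 0x4a303), (nat_lit 0x4a467), (nat_lit 0x4a42b)⟩,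
    ⟨(nat_lit 0x20ac845000), (nat_lit 0x20ac7db000), (nat_lit 0x20aca2b000), (nat_lit 0x20ac9c1000)⟩,
    (nat_lit 0x4a303), (nat_lit 0x4a48f)⟩) (.lf ⟨⟨(nat_lit 0x20ac877000), (nat_lit 0x20ac80d000), (nat_lit 0x20aca5d000), (nat_lit 0x20ac9f3000)⟩,
    ⟨(nat_lit 0x48d4b), (nat_lit 0x48cf1), (nat_lit 0x48ecb), (nat_lit 0x48e71)⟩,
    ⟨(nat_lit 0x2070160000), (nat_lit 0x2070134000), (nat_lit 0x207022c000), (nat_lit 0x2070200000)⟩,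
    ⟨(nat_lit 0x20ac845000), (nat_lit 0x20ac7db000), (nat_lit 0x20aca2b000), (nat_lit 0x20ac9c1000)⟩,
    ⟨(nat_lit 0x48d79), (nat_lit 0x48d1f), (nat_lit 0x48ef9), (nat_lit 0x48e9f)⟩,
    ⟨(nat_lit 0), (nat_lit 0), (nat_lit 0), (nat_lit 0)⟩,
    (nat_lit 0x48cf1), (nat_lit 0x48ef9)⟩)) (.nd (.lf ⟨⟨(nat_lit 0x2000000000), (nat_lit 0x2000000000), (nat_lit 0x2000000000), (nat_lit 0x2000000000)⟩,
    ⟨(nat_lit 0x100000), (nat_lit 0x100000), (nat_lit 0x100000), (nat_lit 0x100000)⟩,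
    ⟨(nat_lit 0), (nat_lit 0), (nat_lit 0), (nat_lit 0)⟩,
    ⟨(nat_lit 0x2000000000), (nat_lit 0x2000000000), (nat_lit 0x2000000000), (nat_lit 0x2000000000)⟩,
    ⟨(nat_lit 0x100000), (nat_lit 0x100000), (nat_lit 0x100000), (nat_lit 0x100000)⟩,
    ⟨(nat_lit 0x2196956000), (nat_lit 0x219670a000), (nat_lit 0x219742c000), (nat_lit 0x21971e0000)⟩,
    (nat_lit 0x100000), (nat_lit 0x100000)⟩) (.lf ⟨⟨(nat_lit 0x2196a24000), (nat_lit 0x21967d8000), (nat_lit 0x21974fa000), (nat_lit 0x21972ae000)⟩,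
    ⟨(nat_lit 0x3d8bbb), (nat_lit 0x3d809d), (nat_lit 0x3dc145), (nat_lit 0x3db627)⟩,
    ⟨(nat_lit 0x2000000000), (nat_lit 0x2000000000), (nat_lit 0x2000000000), (nat_lit 0x2000000000)⟩,
    ⟨(nat_lit 0x2196956000), (nat_lit 0x219670a000), (nat_lit 0x219742c000), (nat_lit 0x21971e0000)⟩,
    ⟨(nat_lit 0x3d9005), (nat_lit 0x3d84e7), (nat_lit 0x3dc58f), (nat_lit 0x3dba71)⟩,
    ⟨(nat_lit 0), (nat_lit 0), (nat_lit 0), (nat_lit 0)⟩,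
    (nat_lit 0x3d809d), (nat_lit 0x3dc58f)⟩)))
  nx := .nd (.nd (.lf (nat_lit 34)) (.lf (nat_lit 91))) (.nd (.lf (nat_lit 105)) (.lf (nat_lit 52)))
  mir := (nat_lit 53)

noncomputable def cx53 : CtxD where
  sd := .nd (.nd (.nd (.lf ⟨⟨(nat_lit 0x2000000000), (nat_lit 0x2000000000), (nat_lit 0x2000000000), (nat_lit 0x2000000000)⟩,
    ⟨(nat_lit 0x21b72), (nat_lit 0x21b72), (nat_lit 0x21b72), (nat_lit 0x21b72)⟩,
    ⟨(nat_lit 0), (nat_lit 0), (nat_lit 0), (nat_lit 0)⟩,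
    ⟨(nat_lit 0x2000000000), (nat_lit 0x2000000000), (nat_lit 0x2000000000), (nat_lit 0x2000000000)⟩,
    ⟨(nat_lit 0x21b70), (nat_lit 0x21b70), (nat_lit 0x21b70), (nat_lit 0x21b70)⟩,
    ⟨(nat_lit 0x20240df000), (nat_lit 0x20240cd000), (nat_lit 0x2024145000), (nat_lit 0x2024133000)⟩,
    (nat_lit 0x21b70), (nat_lit 0x21b72)⟩) (.lf ⟨⟨(nat_lit 0x20240f5000), (nat_lit 0x20240e3000), (nat_lit 0x202415b000), (nat_lit 0x2024149000)⟩,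
    ⟨(nat_lit 0x3b563), (nat_lit 0x3b529), (nat_lit 0x3b6ab), (nat_lit 0x3b671)⟩,
    ⟨(nat_lit 0x2000000000), (nat_lit 0x2000000000), (nat_lit 0x2000000000), (nat_lit 0x2000000000)⟩,
    ⟨(nat_lit 0x20240df000), (nat_lit 0x20240cd000), (nat_lit 0x2024145000), (nat_lit 0x2024133000)⟩,
    ⟨(nat_lit 0x3b595), (nat_lit 0x3b55b), (nat_lit 0x3b6dd), (nat_lit 0x3b6a3)⟩,
    ⟨(nat_lit 0), (nat_lit 0), (nat_lit 0), (nat_lit 0)⟩,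
    (nat_lit 0x3b529), (nat_lit 0x3b6dd)⟩)) (.nd (.lf ⟨⟨(nat_lit 0x205a2ed000), (nat_lit 0x205a27d000), (nat_lit 0x205a513000), (nat_lit 0x205a4a3000)⟩,
    ⟨(nat_lit 0x29b35), (nat_lit 0x29acf), (nat_lit 0x29d17), (nat_lit 0x29cb1)⟩,
    ⟨(nat_lit 0), (nat_lit 0), (nat_lit 0), (nat_lit 0)⟩,
    ⟨(nat_lit 0x205a2ab000), (nat_lit 0x205a23b000), (nat_lit 0x205a4d1000), (nat_lit 0x205a461000)⟩,
    ⟨(nat_lit 0x29b01), (nat_lit 0x29a9b), (nat_lit 0x29ce3), (nat_lit 0x29c7d)⟩,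
    ⟨(nat_lit 0x2069892000), (nat_lit 0x20697fa000), (nat_lit 0x2069b7e000), (nat_lit 0x2069ae6000)⟩,
    (nat_lit 0x29a9b), (nat_lit 0x29d17)⟩) (.lf ⟨⟨(nat_lit 0x20698e4000), (nat_lit 0x206984c000), (nat_lit 0x2069bd0000), (nat_lit 0x2069b38000)⟩,
    ⟨(nat_lit 35794), (nat_lit 35768), (nat_lit 35916), (nat_lit 35890)⟩,
    ⟨(nat_lit 0x205a2ed000), (nat_lit 0x205a27d000), (nat_lit 0x205a513000), (nat_lit 0x205a4a3000)⟩,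
    ⟨(nat_lit 0x2069892000), (nat_lit 0x20697fa000), (nat_lit 0x2069b7e000), (nat_lit 0x2069ae6000)⟩,
    ⟨(nat_lit 35806), (nat_lit 35780), (nat_lit 35928), (nat_lit 35902)⟩,
    ⟨(nat_lit 0), (nat_lit 0), (nat_lit 0), (nat_lit 0)⟩,
    (nat_lit 35768), (nat_lit 35928)⟩))) (.nd (.nd (.lf ⟨⟨(nat_lit 0x203ccd7000), (nat_lit 0x203cca5000), (nat_lit 0x203cdd3000), (nat_lit 0x203cda1000)⟩,
    ⟨(nat_lit 0x12e74), (nat_lit 0x12e54), (nat_lit 0x12f16), (nat_lit 0x12ef6)⟩,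
    ⟨(nat_lit 0), (nat_lit 0), (nat_lit 0), (nat_lit 0)⟩,
    ⟨(nat_lit 0x203ccaf000), (nat_lit 0x203cc7d000), (nat_lit 0x203cdab000), (nat_lit 0x203cd79000)⟩,
    ⟨(nat_lit 0x12e5e), (nat_lit 0x12e3e), (nat_lit 0x12f00), (nat_lit 0x12ee0)⟩,
    ⟨(nat_lit 0x204c794000), (nat_lit 0x204c744000), (nat_lit 0x204c920000), (nat_lit 0x204c8d0000)⟩,
    (nat_lit 0x12e3e), (nat_lit 0x12f16)⟩) (.lf ⟨⟨(nat_lit 0x204c7c8000), (nat_lit 0x204c778000), (nat_lit 0x204c954000), (nat_lit 0x204c904000)⟩,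
    ⟨(nat_lit 0x133fe), (nat_lit 0x133d6), (nat_lit 0x134bc), (nat_lit 0x13494)⟩,
    ⟨(nat_lit 0x203ccd7000), (nat_lit 0x203cca5000), (nat_lit 0x203cdd3000), (nat_lit 0x203cda1000)⟩,
    ⟨(nat_lit 0x204c794000), (nat_lit 0x204c744000), (nat_lit 0x204c920000), (nat_lit 0x204c8d0000)⟩,
    ⟨(nat_lit 0x13416), (nat_lit 0x133ee), (nat_lit 0x134d4), (nat_lit 0x134ac)⟩,
    ⟨(nat_lit 0), (nat_lit 0), (nat_lit 0), (nat_lit 0)⟩,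
    (nat_lit 0x133d6), (nat_lit 0x134d4)⟩)) (.nd (.lf ⟨⟨(nat_lit 0x2000000000), (nat_lit 0x2000000000), (nat_lit 0x2000000000), (nat_lit 0x2000000000)⟩,
    ⟨(nat_lit 0x100000), (nat_lit 0x100000), (nat_lit 0x100000), (nat_lit 0x100000)⟩,
    ⟨(nat_lit 0), (nat_lit 0), (nat_lit 0), (nat_lit 0)⟩,
    ⟨(nat_lit 0x2000000000), (nat_lit 0x2000000000), (nat_lit 0x2000000000), (nat_lit 0x2000000000)⟩,
    ⟨(nat_lit 0x100000), (nat_lit 0x100000), (nat_lit 0x100000), (nat_lit 0x100000)⟩,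
    ⟨(nat_lit 0x2069892000), (nat_lit 0x20697fa000), (nat_lit 0x2069b7e000), (nat_lit 0x2069ae6000)⟩,
    (nat_lit 0x100000), (nat_lit 0x100000)⟩) (.lf ⟨⟨(nat_lit 0x20698e4000), (nat_lit 0x206984c000), (nat_lit 0x2069bd0000), (nat_lit 0x2069b38000)⟩,
    ⟨(nat_lit 0x425ae), (nat_lit 0x424ee), (nat_lit 0x4294a), (nat_lit 0x4288a)⟩,
    ⟨(nat_lit 0x2000000000), (nat_lit 0x2000000000), (nat_lit 0x2000000000), (nat_lit 0x2000000000)⟩,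
    ⟨(nat_lit 0x2069892000), (nat_lit 0x20697fa000), (nat_lit 0x2069b7e000), (nat_lit 0x2069ae6000)⟩,
    ⟨(nat_lit 0x425fa), (nat_lit 0x4253a), (nat_lit 0x42996), (nat_lit 0x428d6)⟩,
    ⟨(nat_lit 0), (nat_lit 0), (nat_lit 0), (nat_lit 0)⟩,
    (nat_lit 0x424ee), (nat_lit 0x42996)⟩)))
  nx := .nd (.nd (.lf (nat_lit 90)) (.lf (nat_lit 35))) (.nd (.lf (nat_lit 104)) (.lf (nat_lit 53)))
  mir := (nat_lit 52)

noncomputable def cx54 : CtxD where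
  sd := .nd (.nd (.nd (.lf ⟨⟨(nat_lit 0x2000000000), (nat_lit 0x2000000000), (nat_lit 0x2000000000), (nat_lit 0x2000000000)⟩,
    ⟨(nat_lit 0x21b72), (nat_lit 0x21b72), (nat_lit 0x21b72), (nat_lit 0x21b72)⟩,
    ⟨(nat_lit 0), (nat_lit 0), (nat_lit 0), (nat_lit 0)⟩,
    ⟨(nat_lit 0x2000000000), (nat_lit 0x2000000000), (nat_lit 0x2000000000), (nat_lit 0x2000000000)⟩,
    ⟨(nat_lit 0x21b70), (nat_lit 0x21b70), (nat_lit 0x21b70), (nat_lit 0x21b70)⟩,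
    ⟨(nat_lit 0x203b3d2000), (nat_lit 0x203b3be000), (nat_lit 0x203b42e000), (nat_lit 0x203b41a000)⟩,
    (nat_lit 0x21b70), (nat_lit 0x21b72)⟩) (.lf ⟨⟨(nat_lit 0x203b3e4000), (nat_lit 0x203b3d0000), (nat_lit 0x203b440000), (nat_lit 0x203b42c000)⟩,
    ⟨(nat_lit 0xa0853), (nat_lit 0xa07e1), (nat_lit 0xa0a5f), (nat_lit 0xa09ed)⟩,
    ⟨(nat_lit 0x2000000000), (nat_lit 0x2000000000), (nat_lit 0x2000000000), (nat_lit 0x2000000000)⟩,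
    ⟨(nat_lit 0x203b3d2000), (nat_lit 0x203b3be000), (nat_lit 0x203b42e000), (nat_lit 0x203b41a000)⟩,
    ⟨(nat_lit 0xa089b), (nat_lit 0xa0829), (nat_lit 0xa0aa7), (nat_lit 0xa0a35)⟩,
    ⟨(nat_lit 0), (nat_lit 0), (nat_lit 0), (nat_lit 0)⟩,
    (nat_lit 0xa07e1), (nat_lit 0xa0aa7)⟩)) (.nd (.lf ⟨⟨(nat_lit 0x210b0ad000), (nat_lit 0x210af01000), (nat_lit 0x210b7a5000), (nat_lit 0x210b5f9000)⟩,
    ⟨(nat_lit 0xe3543), (nat_lit 0xe326b), (nat_lit 0xe405f), (nat_lit 0xe3d87)⟩,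
    ⟨(nat_lit 0), (nat_lit 0), (nat_lit 0), (nat_lit 0)⟩,
    ⟨(nat_lit 0x210b043000), (nat_lit 0x210ae97000), (nat_lit 0x210b73b000), (nat_lit 0x210b58f000)⟩,
    ⟨(nat_lit 0xe3493), (nat_lit 0xe31bb), (nat_lit 0xe3faf), (nat_lit 0xe3cd7)⟩,
    ⟨(nat_lit 0x2194d05000), (nat_lit 0x219492d000), (nat_lit 0x2195cbd000), (nat_lit 0x21958e5000)⟩,
    (nat_lit 0xe31bb), (nat_lit 0xe405f)⟩) (.lf ⟨⟨(nat_lit 0x2194de1000), (nat_lit 0x2194a09000), (nat_lit 0x2195d99000), (nat_lit 0x21959c1000)⟩,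
    ⟨(nat_lit 0x808c8), (nat_lit 0x80656), (nat_lit 0x812e4), (nat_lit 0x81072)⟩,
    ⟨(nat_lit 0x210b0ad000), (nat_lit 0x210af01000), (nat_lit 0x210b7a5000), (nat_lit 0x210b5f9000)⟩,
    ⟨(nat_lit 0x2194d05000), (nat_lit 0x219492d000), (nat_lit 0x2195cbd000), (nat_lit 0x21958e5000)⟩,
    ⟨(nat_lit 0x8095e), (nat_lit 0x806ec), (nat_lit 0x8137a), (nat_lit 0x81108)⟩,
    ⟨(nat_lit 0), (nat_lit 0), (nat_lit 0), (nat_lit 0)⟩,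
    (nat_lit 0x80656), (nat_lit 0x8137a)⟩))) (.nd (.nd (.lf ⟨⟨(nat_lit 0x206ff47000), (nat_lit 0x206fefb000), (nat_lit 0x2070073000), (nat_lit 0x2070027000)⟩,
    ⟨(nat_lit 0x4a06c), (nat_lit 0x4a008), (nat_lit 0x4a214), (nat_lit 0x4a1b0)⟩,
    ⟨(nat_lit 0), (nat_lit 0), (nat_lit 0), (nat_lit 0)⟩,
    ⟨(nat_lit 0x206ff27000), (nat_lit 0x206fedb000), (nat_lit 0x2070053000), (nat_lit 0x2070007000)⟩,
    ⟨(nat_lit 0x4a044), (nat_lit 0x49fe0), (nat_lit 0x4a1ec), (nat_lit 0x4a188)⟩,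
    ⟨(nat_lit 0x20ac33e000), (nat_lit 0x20ac28c000), (nat_lit 0x20ac60a000), (nat_lit 0x20ac558000)⟩,
    (nat_lit 0x49fe0), (nat_lit 0x4a214)⟩) (.lf ⟨⟨(nat_lit 0x20ac374000), (nat_lit 0x20ac2c2000), (nat_lit 0x20ac640000), (nat_lit 0x20ac58e000)⟩,
    ⟨(nat_lit 0x4893e), (nat_lit 0x488a8), (nat_lit 0x48b80), (nat_lit 0x48aea)⟩,
    ⟨(nat_lit 0x206ff47000), (nat_lit 0x206fefb000), (nat_lit 0x2070073000), (nat_lit 0x2070027000)⟩,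
    ⟨(nat_lit 0x20ac33e000), (nat_lit 0x20ac28c000), (nat_lit 0x20ac60a000), (nat_lit 0x20ac558000)⟩,
    ⟨(nat_lit 0x4896c), (nat_lit 0x488d6), (nat_lit 0x48bae), (nat_lit 0x48b18)⟩,
    ⟨(nat_lit 0), (nat_lit 0), (nat_lit 0), (nat_lit 0)⟩,
    (nat_lit 0x488a8), (nat_lit 0x48bae)⟩)) (.nd (.lf ⟨⟨(nat_lit 0x2000000000), (nat_lit 0x2000000000), (nat_lit 0x2000000000), (nat_lit 0x2000000000)⟩,
    ⟨(nat_lit 0x100000), (nat_lit 0x100000), (nat_lit 0x100000), (nat_lit 0x100000)⟩,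
    ⟨(nat_lit 0), (nat_lit 0), (nat_lit 0), (nat_lit 0)⟩,
    ⟨(nat_lit 0x2000000000), (nat_lit 0x2000000000), (nat_lit 0x2000000000), (nat_lit 0x2000000000)⟩,
    ⟨(nat_lit 0x100000), (nat_lit 0x100000), (nat_lit 0x100000), (nat_lit 0x100000)⟩,
    ⟨(nat_lit 0x2194d05000), (nat_lit 0x219492d000), (nat_lit 0x2195cbd000), (nat_lit 0x21958e5000)⟩,
    (nat_lit 0x100000), (nat_lit 0x100000)⟩) (.lf ⟨⟨(nat_lit 0x2194de1000), (nat_lit 0x2194a09000), (nat_lit 0x2195d99000), (nat_lit 0x21959c1000)⟩,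
    ⟨(nat_lit 0x3d0154), (nat_lit 0x3ceec6), (nat_lit 0x3d4e10), (nat_lit 0x3d3b82)⟩,
    ⟨(nat_lit 0x2000000000), (nat_lit 0x2000000000), (nat_lit 0x2000000000), (nat_lit 0x2000000000)⟩,
    ⟨(nat_lit 0x2194d05000), (nat_lit 0x219492d000), (nat_lit 0x2195cbd000), (nat_lit 0x21958e5000)⟩,
    ⟨(nat_lit 0x3d05ae), (nat_lit 0x3cf320), (nat_lit 0x3d526a), (nat_lit 0x3d3fdc)⟩,
    ⟨(nat_lit 0), (nat_lit 0), (nat_lit 0), (nat_lit 0)⟩,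
    (nat_lit 0x3ceec6), (nat_lit 0x3d526a)⟩)))
  nx := .nd (.nd (.lf (nat_lit 34)) (.lf (nat_lit 91))) (.nd (.lf (nat_lit 105)) (.lf (nat_lit 54)))
  mir := (nat_lit 55)

noncomputable def cx55 : CtxD where
  sd := .nd (.nd (.nd (.lf ⟨⟨(nat_lit 0x2000000000), (nat_lit 0x2000000000), (nat_lit 0x2000000000), (nat_lit 0x2000000000)⟩,
    ⟨(nat_lit 0x21b72), (nat_lit 0x21b72), (nat_lit 0x21b72), (nat_lit 0x21b72)⟩,
    ⟨(nat_lit 0), (nat_lit 0), (nat_lit 0), (nat_lit 0)⟩,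
    ⟨(nat_lit 0x2000000000), (nat_lit 0x2000000000), (nat_lit 0x2000000000), (nat_lit 0x2000000000)⟩,
    ⟨(nat_lit 0x21b70), (nat_lit 0x21b70), (nat_lit 0x21b70), (nat_lit 0x21b70)⟩,
    ⟨(nat_lit 0x20241c2000), (nat_lit 0x20241a4000), (nat_lit 0x202424c000), (nat_lit 0x202422e000)⟩,
    (nat_lit 0x21b70), (nat_lit 0x21b72)⟩) (.lf ⟨⟨(nat_lit 0x20241d8000), (nat_lit 0x20241ba000), (nat_lit 0x2024262000), (nat_lit 0x2024244000)⟩,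
    ⟨(nat_lit 0x3b840), (nat_lit 0x3b7de), (nat_lit 0x3ba04), (nat_lit 0x3b9a2)⟩,
    ⟨(nat_lit 0x2000000000), (nat_lit 0x2000000000), (nat_lit 0x2000000000), (nat_lit 0x2000000000)⟩,
    ⟨(nat_lit 0x20241c2000), (nat_lit 0x20241a4000), (nat_lit 0x202424c000), (nat_lit 0x202422e000)⟩,
    ⟨(nat_lit 0x3b874), (nat_lit 0x3b812), (nat_lit 0x3ba38), (nat_lit 0x3b9d6)⟩,
    ⟨(nat_lit 0), (nat_lit 0), (nat_lit 0), (nat_lit 0)⟩,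
    (nat_lit 0x3b7de), (nat_lit 0x3ba38)⟩)) (.nd (.lf ⟨⟨(nat_lit 0x205a7d7000), (nat_lit 0x205a71b000), (nat_lit 0x205aaed000), (nat_lit 0x205aa31000)⟩,
    ⟨(nat_lit 0x29f90), (nat_lit 0x29ee2), (nat_lit 0x2a254), (nat_lit 0x2a1a6)⟩,
    ⟨(nat_lit 0), (nat_lit 0), (nat_lit 0), (nat_lit 0)⟩,
    ⟨(nat_lit 0x205a793000), (nat_lit 0x205a6d7000), (nat_lit 0x205aaa9000), (nat_lit 0x205a9ed000)⟩,
    ⟨(nat_lit 0x29f5c), (nat_lit 0x29eae), (nat_lit 0x2a220), (nat_lit 0x2a172)⟩,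
    ⟨(nat_lit 0x2069f41000), (nat_lit 0x2069e3f000), (nat_lit 0x206a375000), (nat_lit 0x206a273000)⟩,
    (nat_lit 0x29eae), (nat_lit 0x2a254)⟩) (.lf ⟨⟨(nat_lit 0x2069f97000), (nat_lit 0x2069e95000), (nat_lit 0x206a3cb000), (nat_lit 0x206a2c9000)⟩,
    ⟨(nat_lit 36072), (nat_lit 36030), (nat_lit 36250), (nat_lit 36208)⟩,
    ⟨(nat_lit 0x205a7d7000), (nat_lit 0x205a71b000), (nat_lit 0x205aaed000), (nat_lit 0x205aa31000)⟩,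
    ⟨(nat_lit 0x2069f41000), (nat_lit 0x2069e3f000), (nat_lit 0x206a375000), (nat_lit 0x206a273000)⟩,
    ⟨(nat_lit 36086), (nat_lit 36044), (nat_lit 36264), (nat_lit 36222)⟩,
    ⟨(nat_lit 0), (nat_lit 0), (nat_lit 0), (nat_lit 0)⟩,
    (nat_lit 36030), (nat_lit 36264)⟩))) (.nd (.nd (.lf ⟨⟨(nat_lit 0x203cf16000), (nat_lit 0x203cec0000), (nat_lit 0x203d07c000), (nat_lit 0x203d026000)⟩,
    ⟨(nat_lit 0x12fe5), (nat_lit 0x12faf), (nat_lit 0x130cb), (nat_lit 0x13095)⟩,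
    ⟨(nat_lit 0), (nat_lit 0), (nat_lit 0), (nat_lit 0)⟩,
    ⟨(nat_lit 0x203ceec000), (nat_lit 0x203ce96000), (nat_lit 0x203d052000), (nat_lit 0x203cffc000)⟩,
    ⟨(nat_lit 0x12fcf), (nat_lit 0x12f99), (nat_lit 0x130b5), (nat_lit 0x1307f)⟩,
    ⟨(nat_lit 0x204cb1c000), (nat_lit 0x204ca94000), (nat_lit 0x204cd52000), (nat_lit 0x204ccca000)⟩,
    (nat_lit 0x12f99), (nat_lit 0x130cb)⟩) (.lf ⟨⟨(nat_lit 0x204cb54000), (nat_lit 0x204cacc000), (nat_lit 0x204cd8a000), (nat_lit 0x204cd02000)⟩,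
    ⟨(nat_lit 0x135b6), (nat_lit 0x13572), (nat_lit 0x136cc), (nat_lit 0x13688)⟩,
    ⟨(nat_lit 0x203cf16000), (nat_lit 0x203cec0000), (nat_lit 0x203d07c000), (nat_lit 0x203d026000)⟩,
    ⟨(nat_lit 0x204cb1c000), (nat_lit 0x204ca94000), (nat_lit 0x204cd52000), (nat_lit 0x204ccca000)⟩,
    ⟨(nat_lit 0x135ce), (nat_lit 0x1358a), (nat_lit 0x136e4), (nat_lit 0x136a0)⟩,
    ⟨(nat_lit 0), (nat_lit 0), (nat_lit 0), (nat_lit 0)⟩,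
    (nat_lit 0x13572), (nat_lit 0x136e4)⟩)) (.nd (.lf ⟨⟨(nat_lit 0x2000000000), (nat_lit 0x2000000000), (nat_lit 0x2000000000), (nat_lit 0x2000000000)⟩,
    ⟨(nat_lit 0x100000), (nat_lit 0x100000), (nat_lit 0x100000), (nat_lit 0x100000)⟩,
    ⟨(nat_lit 0), (nat_lit 0), (nat_lit 0), (nat_lit 0)⟩,
    ⟨(nat_lit 0x2000000000), (nat_lit 0x2000000000), (nat_lit 0x2000000000), (nat_lit 0x2000000000)⟩,
    ⟨(nat_lit 0x100000), (nat_lit 0x100000), (nat_lit 0x100000), (nat_lit 0x100000)⟩,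
    ⟨(nat_lit 0x2069f41000), (nat_lit 0x2069e3f000), (nat_lit 0x206a375000), (nat_lit 0x206a273000)⟩,
    (nat_lit 0x100000), (nat_lit 0x100000)⟩) (.lf ⟨⟨(nat_lit 0x2069f97000), (nat_lit 0x2069e95000), (nat_lit 0x206a3cb000), (nat_lit 0x206a2c9000)⟩,
    ⟨(nat_lit 0x42dfb), (nat_lit 0x42cb5), (nat_lit 0x4333d), (nat_lit 0x431f7)⟩,
    ⟨(nat_lit 0x2000000000), (nat_lit 0x2000000000), (nat_lit 0x2000000000), (nat_lit 0x2000000000)⟩,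
    ⟨(nat_lit 0x2069f41000), (nat_lit 0x2069e3f000), (nat_lit 0x206a375000), (nat_lit 0x206a273000)⟩,
    ⟨(nat_lit 0x42e49), (nat_lit 0x42d03), (nat_lit 0x4338b), (nat_lit 0x43245)⟩,
    ⟨(nat_lit 0), (nat_lit 0), (nat_lit 0), (nat_lit 0)⟩,
    (nat_lit 0x42cb5), (nat_lit 0x4338b)⟩)))
  nx := .nd (.nd (.lf (nat_lit 90)) (.lf (nat_lit 35))) (.nd (.lf (nat_lit 104)) (.lf (nat_lit 55)))
  mir := (nat_lit 54)

noncomputable def cx56 : CtxD where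
  sd := .nd (.nd (.nd (.lf ⟨⟨(nat_lit 0x2000000000), (nat_lit 0x2000000000), (nat_lit 0x2000000000), (nat_lit 0x2000000000)⟩,
    ⟨(nat_lit 0x21b72), (nat_lit 0x21b72), (nat_lit 0x21b72), (nat_lit 0x21b72)⟩,
    ⟨(nat_lit 0), (nat_lit 0), (nat_lit 0), (nat_lit 0)⟩,
    ⟨(nat_lit 0x2000000000), (nat_lit 0x2000000000), (nat_lit 0x2000000000), (nat_lit 0x2000000000)⟩,
    ⟨(nat_lit 0x21b70), (nat_lit 0x21b70), (nat_lit 0x21b70), (nat_lit 0x21b70)⟩,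
    ⟨(nat_lit 0x203a6f6000), (nat_lit 0x203a692000), (nat_lit 0x203a842000), (nat_lit 0x203a7de000)⟩,
    (nat_lit 0x21b70), (nat_lit 0x21b72)⟩) (.lf ⟨⟨(nat_lit 0x203a72c000), (nat_lit 0x203a6c8000), (nat_lit 0x203a878000), (nat_lit 0x203a814000)⟩,
    ⟨(nat_lit 0x9bb71), (nat_lit 0x9b95f), (nat_lit 0x9c3db), (nat_lit 0x9c1c9)⟩,
    ⟨(nat_lit 0x2000000000), (nat_lit 0x2000000000), (nat_lit 0x2000000000), (nat_lit 0x2000000000)⟩,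
    ⟨(nat_lit 0x203a6f6000), (nat_lit 0x203a692000), (nat_lit 0x203a842000), (nat_lit 0x203a7de000)⟩,
    ⟨(nat_lit 0x9bc29), (nat_lit 0x9ba17), (nat_lit 0x9c493), (nat_lit 0x9c281)⟩,
    ⟨(nat_lit 0), (nat_lit 0), (nat_lit 0), (nat_lit 0)⟩,
    (nat_lit 0x9b95f), (nat_lit 0x9c493)⟩)) (.nd (.lf ⟨⟨(nat_lit 0x20fe0c4000), (nat_lit 0x20fd970000), (nat_lit 0x20fee1c000), (nat_lit 0x20fe6c8000)⟩,
    ⟨(nat_lit 0xd206c), (nat_lit 0xd1458), (nat_lit 0xd2636), (nat_lit 0xd1a22)⟩,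
    ⟨(nat_lit 0), (nat_lit 0), (nat_lit 0), (nat_lit 0)⟩,
    ⟨(nat_lit 0x20fdea2000), (nat_lit 0x20fd74e000), (nat_lit 0x20febfa000), (nat_lit 0x20fe4a6000)⟩,
    ⟨(nat_lit 0xd1d72), (nat_lit 0xd115e), (nat_lit 0xd233c), (nat_lit 0xd1728)⟩,
    ⟨(nat_lit 0x2178dcc000), (nat_lit 0x2177db0000), (nat_lit 0x217a3ae000), (nat_lit 0x2179392000)⟩,
    (nat_lit 0xd115e), (nat_lit 0xd2636)⟩) (.lf ⟨⟨(nat_lit 0x2179220000), (nat_lit 0x2178204000), (nat_lit 0x217a802000), (nat_lit 0x21797e6000)⟩,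
    ⟨(nat_lit 0x6e877), (nat_lit 0x6df05), (nat_lit 0x6f563), (nat_lit 0x6ebf1)⟩,
    ⟨(nat_lit 0x20fe0c4000), (nat_lit 0x20fd970000), (nat_lit 0x20fee1c000), (nat_lit 0x20fe6c8000)⟩,
    ⟨(nat_lit 0x2178dcc000), (nat_lit 0x2177db0000), (nat_lit 0x217a3ae000), (nat_lit 0x2179392000)⟩,
    ⟨(nat_lit 0x6eacb), (nat_lit 0x6e159), (nat_lit 0x6f7b7), (nat_lit 0x6ee45)⟩,
    ⟨(nat_lit 0), (nat_lit 0), (nat_lit 0), (nat_lit 0)⟩,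
    (nat_lit 0x6df05), (nat_lit 0x6f7b7)⟩))) (.nd (.nd (.lf ⟨⟨(nat_lit 0x206de71000), (nat_lit 0x206dd11000), (nat_lit 0x206e055000), (nat_lit 0x206def5000)⟩,
    ⟨(nat_lit 0x46b2d), (nat_lit 0x46969), (nat_lit 0x46f87), (nat_lit 0x46dc3)⟩,
    ⟨(nat_lit 0), (nat_lit 0), (nat_lit 0), (nat_lit 0)⟩,
    ⟨(nat_lit 0x206dde9000), (nat_lit 0x206dc89000), (nat_lit 0x206dfcd000), (nat_lit 0x206de6d000)⟩,
    ⟨(nat_lit 0x46aa9), (nat_lit 0x468e5), (nat_lit 0x46f03), (nat_lit 0x46d3f)⟩,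
    ⟨(nat_lit 0x20a740b000), (nat_lit 0x20a70dd000), (nat_lit 0x20a7865000), (nat_lit 0x20a7537000)⟩,
    (nat_lit 0x468e5), (nat_lit 0x46f87)⟩) (.lf ⟨⟨(nat_lit 0x20a7517000), (nat_lit 0x20a71e9000), (nat_lit 0x20a7971000), (nat_lit 0x20a7643000)⟩,
    ⟨(nat_lit 0x45107), (nat_lit 0x44e69), (nat_lit 0x45253), (nat_lit 0x44fb5)⟩,
    ⟨(nat_lit 0x206de71000), (nat_lit 0x206dd11000), (nat_lit 0x206e055000), (nat_lit 0x206def5000)⟩,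
    ⟨(nat_lit 0x20a740b000), (nat_lit 0x20a70dd000), (nat_lit 0x20a7865000), (nat_lit 0x20a7537000)⟩,
    ⟨(nat_lit 0x451b9), (nat_lit 0x44f1b), (nat_lit 0x45305), (nat_lit 0x45067)⟩,
    ⟨(nat_lit 0), (nat_lit 0), (nat_lit 0), (nat_lit 0)⟩,
    (nat_lit 0x44e69), (nat_lit 0x45305)⟩)) (.nd (.lf ⟨⟨(nat_lit 0x2000000000), (nat_lit 0x2000000000), (nat_lit 0x2000000000), (nat_lit 0x2000000000)⟩,
    ⟨(nat_lit 0x100000), (nat_lit 0x100000), (nat_lit 0x100000), (nat_lit 0x100000)⟩,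
    ⟨(nat_lit 0), (nat_lit 0), (nat_lit 0), (nat_lit 0)⟩,
    ⟨(nat_lit 0x2000000000), (nat_lit 0x2000000000), (nat_lit 0x2000000000), (nat_lit 0x2000000000)⟩,
    ⟨(nat_lit 0x100000), (nat_lit 0x100000), (nat_lit 0x100000), (nat_lit 0x100000)⟩,
    ⟨(nat_lit 0x2178dcc000), (nat_lit 0x2177db0000), (nat_lit 0x217a3ae000), (nat_lit 0x2179392000)⟩,
    (nat_lit 0x100000), (nat_lit 0x100000)⟩) (.lf ⟨⟨(nat_lit 0x2179220000), (nat_lit 0x2178204000), (nat_lit 0x217a802000), (nat_lit 0x21797e6000)⟩,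
    ⟨(nat_lit 0x347414), (nat_lit 0x342c60), (nat_lit 0x34d636), (nat_lit 0x348e82)⟩,
    ⟨(nat_lit 0x2000000000), (nat_lit 0x2000000000), (nat_lit 0x2000000000), (nat_lit 0x2000000000)⟩,
    ⟨(nat_lit 0x2178dcc000), (nat_lit 0x2177db0000), (nat_lit 0x217a3ae000), (nat_lit 0x2179392000)⟩,
    ⟨(nat_lit 0x3485b8), (nat_lit 0x343e04), (nat_lit 0x34e7da), (nat_lit 0x34a026)⟩,
    ⟨(nat_lit 0), (nat_lit 0), (nat_lit 0), (nat_lit 0)⟩,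
    (nat_lit 0x342c60), (nat_lit 0x34e7da)⟩)))
  nx := .nd (.nd (.lf (nat_lit 40)) (.lf (nat_lit 89))) (.nd (.lf (nat_lit 111)) (.lf (nat_lit 56)))
  mir := (nat_lit 57)

noncomputable def cx57 : CtxD where
  sd := .nd (.nd (.nd (.lf ⟨⟨(nat_lit 0x2000000000), (nat_lit 0x2000000000), (nat_lit 0x2000000000), (nat_lit 0x2000000000)⟩,
    ⟨(nat_lit 0x21b72), (nat_lit 0x21b72), (nat_lit 0x21b72), (nat_lit 0x21b72)⟩,
    ⟨(nat_lit 0), (nat_lit 0), (nat_lit 0), (nat_lit 0)⟩,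
    ⟨(nat_lit 0x2000000000), (nat_lit 0x2000000000), (nat_lit 0x2000000000), (nat_lit 0x2000000000)⟩,
    ⟨(nat_lit 0x21b70), (nat_lit 0x21b70), (nat_lit 0x21b70), (nat_lit 0x21b70)⟩,
    ⟨(nat_lit 0x202569c000), (nat_lit 0x2025618000), (nat_lit 0x2025862000), (nat_lit 0x20257de000)⟩,
    (nat_lit 0x21b70), (nat_lit 0x21b72)⟩) (.lf ⟨⟨(nat_lit 0x20256dc000), (nat_lit 0x2025658000), (nat_lit 0x20258a2000), (nat_lit 0x202581e000)⟩,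
    ⟨(nat_lit 0x3fbb9), (nat_lit 0x3f9f3), (nat_lit 0x4016b), (nat_lit 0x3ffa5)⟩,
    ⟨(nat_lit 0x2000000000), (nat_lit 0x2000000000), (nat_lit 0x2000000000), (nat_lit 0x2000000000)⟩,
    ⟨(nat_lit 0x202569c000), (nat_lit 0x2025618000), (nat_lit 0x2025862000), (nat_lit 0x20257de000)⟩,
    ⟨(nat_lit 0x3fc43), (nat_lit 0x3fa7d), (nat_lit 0x401f5), (nat_lit 0x4002f)⟩,
    ⟨(nat_lit 0), (nat_lit 0), (nat_lit 0), (nat_lit 0)⟩,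
    (nat_lit 0x3f9f3), (nat_lit 0x401f5)⟩)) (.nd (.lf ⟨⟨(nat_lit 0x20610a8000), (nat_lit 0x2060d2a000), (nat_lit 0x20615b8000), (nat_lit 0x206123a000)⟩,
    ⟨(nat_lit 0x2f877), (nat_lit 0x2f50b), (nat_lit 0x2fb73), (nat_lit 0x2f807)⟩,
    ⟨(nat_lit 0), (nat_lit 0), (nat_lit 0), (nat_lit 0)⟩,
    ⟨(nat_lit 0x2060f9c000), (nat_lit 0x2060c1e000), (nat_lit 0x20614ac000), (nat_lit 0x206112e000)⟩,
    ⟨(nat_lit 0x2f795), (nat_lit 0x2f429), (nat_lit 0x2fa91), (nat_lit 0x2f725)⟩,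
    ⟨(nat_lit 0x2072c31000), (nat_lit 0x207274b000), (nat_lit 0x20732f1000), (nat_lit 0x2072e0b000)⟩,
    (nat_lit 0x2f429), (nat_lit 0x2fb73)⟩) (.lf ⟨⟨(nat_lit 0x2072d95000), (nat_lit 0x20728af000), (nat_lit 0x2073455000), (nat_lit 0x2072f6f000)⟩,
    ⟨(nat_lit 41984), (nat_lit 41760), (nat_lit 42292), (nat_lit 42068)⟩,
    ⟨(nat_lit 0x20610a8000), (nat_lit 0x2060d2a000), (nat_lit 0x20615b8000), (nat_lit 0x206123a000)⟩,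
    ⟨(nat_lit 0x2072c31000), (nat_lit 0x207274b000), (nat_lit 0x20732f1000), (nat_lit 0x2072e0b000)⟩,
    ⟨(nat_lit 42042), (nat_lit 41818), (nat_lit 42350), (nat_lit 42126)⟩,
    ⟨(nat_lit 0), (nat_lit 0), (nat_lit 0), (nat_lit 0)⟩,
    (nat_lit 41760), (nat_lit 42350)⟩))) (.nd (.nd (.lf ⟨⟨(nat_lit 0x203fe7f000), (nat_lit 0x203fcfb000), (nat_lit 0x204009f000), (nat_lit 0x203ff1b000)⟩,
    ⟨(nat_lit 0x15008), (nat_lit 0x14f08), (nat_lit 0x15218), (nat_lit 0x15118)⟩,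
    ⟨(nat_lit 0), (nat_lit 0), (nat_lit 0), (nat_lit 0)⟩,
    ⟨(nat_lit 0x203fdf5000), (nat_lit 0x203fc71000), (nat_lit 0x2040015000), (nat_lit 0x203fe91000)⟩,
    ⟨(nat_lit 0x14fc0), (nat_lit 0x14ec0), (nat_lit 0x151d0), (nat_lit 0x150d0)⟩,
    ⟨(nat_lit 0x2051570000), (nat_lit 0x20512fc000), (nat_lit 0x20518da000), (nat_lit 0x2051666000)⟩,
    (nat_lit 0x14ec0), (nat_lit 0x15218)⟩) (.lf ⟨⟨(nat_lit 0x205163a000), (nat_lit 0x20513c6000), (nat_lit 0x20519a4000), (nat_lit 0x2051730000)⟩,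
    ⟨(nat_lit 0x158ae), (nat_lit 0x15760), (nat_lit 0x159de), (nat_lit 0x15890)⟩,
    ⟨(nat_lit 0x203fe7f000), (nat_lit 0x203fcfb000), (nat_lit 0x204009f000), (nat_lit 0x203ff1b000)⟩,
    ⟨(nat_lit 0x2051570000), (nat_lit 0x20512fc000), (nat_lit 0x20518da000), (nat_lit 0x2051666000)⟩,
    ⟨(nat_lit 0x15908), (nat_lit 0x157ba), (nat_lit 0x15a38), (nat_lit 0x158ea)⟩,
    ⟨(nat_lit 0), (nat_lit 0), (nat_lit 0), (nat_lit 0)⟩,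
    (nat_lit 0x15760), (nat_lit 0x15a38)⟩)) (.nd (.lf ⟨⟨(nat_lit 0x2000000000), (nat_lit 0x2000000000), (nat_lit 0x2000000000), (nat_lit 0x2000000000)⟩,
    ⟨(nat_lit 0x100000), (nat_lit 0x100000), (nat_lit 0x100000), (nat_lit 0x100000)⟩,
    ⟨(nat_lit 0), (nat_lit 0), (nat_lit 0), (nat_lit 0)⟩,
    ⟨(nat_lit 0x2000000000), (nat_lit 0x2000000000), (nat_lit 0x2000000000), (nat_lit 0x2000000000)⟩,
    ⟨(nat_lit 0x100000), (nat_lit 0x100000), (nat_lit 0x100000), (nat_lit 0x100000)⟩,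
    ⟨(nat_lit 0x2072c31000), (nat_lit 0x207274b000), (nat_lit 0x20732f1000), (nat_lit 0x2072e0b000)⟩,
    (nat_lit 0x100000), (nat_lit 0x100000)⟩) (.lf ⟨⟨(nat_lit 0x2072d95000), (nat_lit 0x20728af000), (nat_lit 0x2073455000), (nat_lit 0x2072f6f000)⟩,
    ⟨(nat_lit 0x4dd55), (nat_lit 0x4d6ad), (nat_lit 0x4e671), (nat_lit 0x4dfc9)⟩,
    ⟨(nat_lit 0x2000000000), (nat_lit 0x2000000000), (nat_lit 0x2000000000), (nat_lit 0x2000000000)⟩,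
    ⟨(nat_lit 0x2072c31000), (nat_lit 0x207274b000), (nat_lit 0x20732f1000), (nat_lit 0x2072e0b000)⟩,
    ⟨(nat_lit 0x4def7), (nat_lit 0x4d84f), (nat_lit 0x4e813), (nat_lit 0x4e16b)⟩,
    ⟨(nat_lit 0), (nat_lit 0), (nat_lit 0), (nat_lit 0)⟩,
    (nat_lit 0x4d6ad), (nat_lit 0x4e813)⟩)))
  nx := .nd (.nd (.lf (nat_lit 88)) (.lf (nat_lit 41))) (.nd (.lf (nat_lit 110)) (.lf (nat_lit 57)))
  mir := (nat_lit 56)

noncomputable def cx58 : CtxD where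
  sd := .nd (.nd (.nd (.lf ⟨⟨(nat_lit 0x2000000000), (nat_lit 0x2000000000), (nat_lit 0x2000000000), (nat_lit 0x2000000000)⟩,
    ⟨(nat_lit 0x21b72), (nat_lit 0x21b72), (nat_lit 0x21b72), (nat_lit 0x21b72)⟩,
    ⟨(nat_lit 0), (nat_lit 0), (nat_lit 0), (nat_lit 0)⟩,
    ⟨(nat_lit 0x2000000000), (nat_lit 0x2000000000), (nat_lit 0x2000000000), (nat_lit 0x2000000000)⟩,
    ⟨(nat_lit 0x21b70), (nat_lit 0x21b70), (nat_lit 0x21b70), (nat_lit 0x21b70)⟩,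
    ⟨(nat_lit 0x203a432000), (nat_lit 0x203a420000), (nat_lit 0x203a4fe000), (nat_lit 0x203a4ec000)⟩,
    (nat_lit 0x21b70), (nat_lit 0x21b72)⟩) (.lf ⟨⟨(nat_lit 0x203a444000), (nat_lit 0x203a432000), (nat_lit 0x203a510000), (nat_lit 0x203a4fe000)⟩,
    ⟨(nat_lit 0x9ab29), (nat_lit 0x9aac5), (nat_lit 0x9afa3), (nat_lit 0x9af3f)⟩,
    ⟨(nat_lit 0x2000000000), (nat_lit 0x2000000000), (nat_lit 0x2000000000), (nat_lit 0x2000000000)⟩,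
    ⟨(nat_lit 0x203a432000), (nat_lit 0x203a420000), (nat_lit 0x203a4fe000), (nat_lit 0x203a4ec000)⟩,
    ⟨(nat_lit 0x9ab75), (nat_lit 0x9ab11), (nat_lit 0x9afef), (nat_lit 0x9af8b)⟩,
    ⟨(nat_lit 0), (nat_lit 0), (nat_lit 0), (nat_lit 0)⟩,
    (nat_lit 0x9aac5), (nat_lit 0x9afef)⟩)) (.nd (.lf ⟨⟨(nat_lit 0x20fb5e2000), (nat_lit 0x20fb480000), (nat_lit 0x20fc2f0000), (nat_lit 0x20fc18e000)⟩,
    ⟨(nat_lit 0xce98f), (nat_lit 0xce749), (nat_lit 0xcfc77), (nat_lit 0xcfa31)⟩,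
    ⟨(nat_lit 0), (nat_lit 0), (nat_lit 0), (nat_lit 0)⟩,
    ⟨(nat_lit 0x20fb57a000), (nat_lit 0x20fb418000), (nat_lit 0x20fc288000), (nat_lit 0x20fc126000)⟩,
    ⟨(nat_lit 0xce8f7), (nat_lit 0xce6b1), (nat_lit 0xcfbdf), (nat_lit 0xcf999)⟩,
    ⟨(nat_lit 0x2173a6e000), (nat_lit 0x2173768000), (nat_lit 0x21755e0000), (nat_lit 0x21752da000)⟩,
    (nat_lit 0xce6b1), (nat_lit 0xcfc77)⟩) (.lf ⟨⟨(nat_lit 0x2173b2c000), (nat_lit 0x2173826000), (nat_lit 0x217569e000), (nat_lit 0x2175398000)⟩,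
    ⟨(nat_lit 0x6b791), (nat_lit 0x6b5d1), (nat_lit 0x6c78f), (nat_lit 0x6c5cf)⟩,
    ⟨(nat_lit 0x20fb5e2000), (nat_lit 0x20fb480000), (nat_lit 0x20fc2f0000), (nat_lit 0x20fc18e000)⟩,
    ⟨(nat_lit 0x2173a6e000), (nat_lit 0x2173768000), (nat_lit 0x21755e0000), (nat_lit 0x21752da000)⟩,
    ⟨(nat_lit 0x6b801), (nat_lit 0x6b641), (nat_lit 0x6c7ff), (nat_lit 0x6c63f)⟩,
    ⟨(nat_lit 0), (nat_lit 0), (nat_lit 0), (nat_lit 0)⟩,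
    (nat_lit 0x6b5d1), (nat_lit 0x6c7ff)⟩))) (.nd (.nd (.lf ⟨⟨(nat_lit 0x206d6e3000), (nat_lit 0x206d6a1000), (nat_lit 0x206d943000), (nat_lit 0x206d901000)⟩,
    ⟨(nat_lit 0x45fb9), (nat_lit 0x45f63), (nat_lit 0x46311), (nat_lit 0x462bb)⟩,
    ⟨(nat_lit 0), (nat_lit 0), (nat_lit 0), (nat_lit 0)⟩,
    ⟨(nat_lit 0x206d6bf000), (nat_lit 0x206d67d000), (nat_lit 0x206d91f000), (nat_lit 0x206d8dd000)⟩,
    ⟨(nat_lit 0x45f8f), (nat_lit 0x45f39), (nat_lit 0x462e7), (nat_lit 0x46291)⟩,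
    ⟨(nat_lit 0x20a637d000), (nat_lit 0x20a62e3000), (nat_lit 0x20a68f5000), (nat_lit 0x20a685b000)⟩,
    (nat_lit 0x45f39), (nat_lit 0x46311)⟩) (.lf ⟨⟨(nat_lit 0x20a63b7000), (nat_lit 0x20a631d000), (nat_lit 0x20a692f000), (nat_lit 0x20a6895000)⟩,
    ⟨(nat_lit 0x4458f), (nat_lit 0x4450f), (nat_lit 0x449b1), (nat_lit 0x44931)⟩,
    ⟨(nat_lit 0x206d6e3000), (nat_lit 0x206d6a1000), (nat_lit 0x206d943000), (nat_lit 0x206d901000)⟩,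
    ⟨(nat_lit 0x20a637d000), (nat_lit 0x20a62e3000), (nat_lit 0x20a68f5000), (nat_lit 0x20a685b000)⟩,
    ⟨(nat_lit 0x445bb), (nat_lit 0x4453b), (nat_lit 0x449dd), (nat_lit 0x4495d)⟩,
    ⟨(nat_lit 0), (nat_lit 0), (nat_lit 0), (nat_lit 0)⟩,
    (nat_lit 0x4450f), (nat_lit 0x449dd)⟩)) (.nd (.lf ⟨⟨(nat_lit 0x2000000000), (nat_lit 0x2000000000), (nat_lit 0x2000000000), (nat_lit 0x2000000000)⟩,
    ⟨(nat_lit 0x100000), (nat_lit 0x100000), (nat_lit 0x100000), (nat_lit 0x100000)⟩,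
    ⟨(nat_lit 0), (nat_lit 0), (nat_lit 0), (nat_lit 0)⟩,
    ⟨(nat_lit 0x2000000000), (nat_lit 0x2000000000), (nat_lit 0x2000000000), (nat_lit 0x2000000000)⟩,
    ⟨(nat_lit 0x100000), (nat_lit 0x100000), (nat_lit 0x100000), (nat_lit 0x100000)⟩,
    ⟨(nat_lit 0x2173a6e000), (nat_lit 0x2173768000), (nat_lit 0x21755e0000), (nat_lit 0x21752da000)⟩,
    (nat_lit 0x100000), (nat_lit 0x100000)⟩) (.lf ⟨⟨(nat_lit 0x2173b2c000), (nat_lit 0x2173826000), (nat_lit 0x217569e000), (nat_lit 0x2175398000)⟩,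
    ⟨(nat_lit 0x3300d1), (nat_lit 0x32f385), (nat_lit 0x337a47), (nat_lit 0x336cfb)⟩,
    ⟨(nat_lit 0x2000000000), (nat_lit 0x2000000000), (nat_lit 0x2000000000), (nat_lit 0x2000000000)⟩,
    ⟨(nat_lit 0x2173a6e000), (nat_lit 0x2173768000), (nat_lit 0x21755e0000), (nat_lit 0x21752da000)⟩,
    ⟨(nat_lit 0x33040f), (nat_lit 0x32f6c3), (nat_lit 0x337d85), (nat_lit 0x337039)⟩,
    ⟨(nat_lit 0), (nat_lit 0), (nat_lit 0), (nat_lit 0)⟩,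
    (nat_lit 0x32f385), (nat_lit 0x337d85)⟩)))
  nx := .nd (.nd (.lf (nat_lit 38)) (.lf (nat_lit 87))) (.nd (.lf (nat_lit 111)) (.lf (nat_lit 58)))
  mir := (nat_lit 59)

noncomputable def cx59 : CtxD where
  sd := .nd (.nd (.nd (.lf ⟨⟨(nat_lit 0x2000000000), (nat_lit 0x2000000000), (nat_lit 0x2000000000), (nat_lit 0x2000000000)⟩,
    ⟨(nat_lit 0x21b72), (nat_lit 0x21b72), (nat_lit 0x21b72), (nat_lit 0x21b72)⟩,
    ⟨(nat_lit 0), (nat_lit 0), (nat_lit 0), (nat_lit 0)⟩,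
    ⟨(nat_lit 0x2000000000), (nat_lit 0x2000000000), (nat_lit 0x2000000000), (nat_lit 0x2000000000)⟩,
    ⟨(nat_lit 0x21b70), (nat_lit 0x21b70), (nat_lit 0x21b70), (nat_lit 0x21b70)⟩,
    ⟨(nat_lit 0x2025acf000), (nat_lit 0x2025ab5000), (nat_lit 0x2025be7000), (nat_lit 0x2025bcd000)⟩,
    (nat_lit 0x21b70), (nat_lit 0x21b72)⟩) (.lf ⟨⟨(nat_lit 0x2025ae5000), (nat_lit 0x2025acb000), (nat_lit 0x2025bfd000), (nat_lit 0x2025be3000)⟩,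
    ⟨(nat_lit 0x40952), (nat_lit 0x408fa), (nat_lit 0x40d00), (nat_lit 0x40ca8)⟩,
    ⟨(nat_lit 0x2000000000), (nat_lit 0x2000000000), (nat_lit 0x2000000000), (nat_lit 0x2000000000)⟩,
    ⟨(nat_lit 0x2025acf000), (nat_lit 0x2025ab5000), (nat_lit 0x2025be7000), (nat_lit 0x2025bcd000)⟩,
    ⟨(nat_lit 0x40980), (nat_lit 0x40928), (nat_lit 0x40d2e), (nat_lit 0x40cd6)⟩,
    ⟨(nat_lit 0), (nat_lit 0), (nat_lit 0), (nat_lit 0)⟩,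
    (nat_lit 0x408fa), (nat_lit 0x40d2e)⟩)) (.nd (.lf ⟨⟨(nat_lit 0x2061f77000), (nat_lit 0x2061ecb000), (nat_lit 0x20625af000), (nat_lit 0x2062503000)⟩,
    ⟨(nat_lit 0x30369), (nat_lit 0x302bf), (nat_lit 0x3092d), (nat_lit 0x30883)⟩,
    ⟨(nat_lit 0), (nat_lit 0), (nat_lit 0), (nat_lit 0)⟩,
    ⟨(nat_lit 0x2061f3d000), (nat_lit 0x2061e91000), (nat_lit 0x2062575000), (nat_lit 0x20624c9000)⟩,
    ⟨(nat_lit 0x30337), (nat_lit 0x3028d), (nat_lit 0x308fb), (nat_lit 0x30851)⟩,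
    ⟨(nat_lit 0x2074170000), (nat_lit 0x207407e000), (nat_lit 0x2074a1c000), (nat_lit 0x207492a000)⟩,
    (nat_lit 0x3028d), (nat_lit 0x3092d)⟩) (.lf ⟨⟨(nat_lit 0x20741ba000), (nat_lit 0x20740c8000), (nat_lit 0x2074a66000), (nat_lit 0x2074974000)⟩,
    ⟨(nat_lit 42954), (nat_lit 42910), (nat_lit 43354), (nat_lit 43310)⟩,
    ⟨(nat_lit 0x2061f77000), (nat_lit 0x2061ecb000), (nat_lit 0x20625af000), (nat_lit 0x2062503000)⟩,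
    ⟨(nat_lit 0x2074170000), (nat_lit 0x207407e000), (nat_lit 0x2074a1c000), (nat_lit 0x207492a000)⟩,
    ⟨(nat_lit 42966), (nat_lit 42922), (nat_lit 43366), (nat_lit 43322)⟩,
    ⟨(nat_lit 0), (nat_lit 0), (nat_lit 0), (nat_lit 0)⟩,
    (nat_lit 42910), (nat_lit 43366)⟩))) (.nd (.nd (.lf ⟨⟨(nat_lit 0x20404c5000), (nat_lit 0x204047b000), (nat_lit 0x2040771000), (nat_lit 0x2040727000)⟩,
    ⟨(nat_lit 0x15564), (nat_lit 0x15532), (nat_lit 0x15746), (nat_lit 0x15714)⟩,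
    ⟨(nat_lit 0), (nat_lit 0), (nat_lit 0), (nat_lit 0)⟩,
    ⟨(nat_lit 0x20404a1000), (nat_lit 0x2040457000), (nat_lit 0x204074d000), (nat_lit 0x2040703000)⟩,
    ⟨(nat_lit 0x15550), (nat_lit 0x1551e), (nat_lit 0x15732), (nat_lit 0x15700)⟩,
    ⟨(nat_lit 0x205202c000), (nat_lit 0x2051fb4000), (nat_lit 0x2052484000), (nat_lit 0x205240c000)⟩,
    (nat_lit 0x1551e), (nat_lit 0x15746)⟩) (.lf ⟨⟨(nat_lit 0x205205c000), (nat_lit 0x2051fe4000), (nat_lit 0x20524b4000), (nat_lit 0x205243c000)⟩,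
    ⟨(nat_lit 0x15d34), (nat_lit 0x15cf4), (nat_lit 0x15f66), (nat_lit 0x15f26)⟩,
    ⟨(nat_lit 0x20404c5000), (nat_lit 0x204047b000), (nat_lit 0x2040771000), (nat_lit 0x2040727000)⟩,
    ⟨(nat_lit 0x205202c000), (nat_lit 0x2051fb4000), (nat_lit 0x2052484000), (nat_lit 0x205240c000)⟩,
    ⟨(nat_lit 0x15d4a), (nat_lit 0x15d0a), (nat_lit 0x15f7c), (nat_lit 0x15f3c)⟩,
    ⟨(nat_lit 0), (nat_lit 0), (nat_lit 0), (nat_lit 0)⟩,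
    (nat_lit 0x15cf4), (nat_lit 0x15f7c)⟩)) (.nd (.lf ⟨⟨(nat_lit 0x2000000000), (nat_lit 0x2000000000), (nat_lit 0x2000000000), (nat_lit 0x2000000000)⟩,
    ⟨(nat_lit 0x100000), (nat_lit 0x100000), (nat_lit 0x100000), (nat_lit 0x100000)⟩,
    ⟨(nat_lit 0), (nat_lit 0), (nat_lit 0), (nat_lit 0)⟩,
    ⟨(nat_lit 0x2000000000), (nat_lit 0x2000000000), (nat_lit 0x2000000000), (nat_lit 0x2000000000)⟩,
    ⟨(nat_lit 0x100000), (nat_lit 0x100000), (nat_lit 0x100000), (nat_lit 0x100000)⟩,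
    ⟨(nat_lit 0x2074170000), (nat_lit 0x207407e000), (nat_lit 0x2074a1c000), (nat_lit 0x207492a000)⟩,
    (nat_lit 0x100000), (nat_lit 0x100000)⟩) (.lf ⟨⟨(nat_lit 0x20741ba000), (nat_lit 0x20740c8000), (nat_lit 0x2074a66000), (nat_lit 0x2074974000)⟩,
    ⟨(nat_lit 0x4fa11), (nat_lit 0x4f8c5), (nat_lit 0x505eb), (nat_lit 0x5049f)⟩,
    ⟨(nat_lit 0x2000000000), (nat_lit 0x2000000000), (nat_lit 0x2000000000), (nat_lit 0x2000000000)⟩,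
    ⟨(nat_lit 0x2074170000), (nat_lit 0x207407e000), (nat_lit 0x2074a1c000), (nat_lit 0x207492a000)⟩,
    ⟨(nat_lit 0x4fa5f), (nat_lit 0x4f913), (nat_lit 0x50639), (nat_lit 0x504ed)⟩,
    ⟨(nat_lit 0), (nat_lit 0), (nat_lit 0), (nat_lit 0)⟩,
    (nat_lit 0x4f8c5), (nat_lit 0x50639)⟩)))
  nx := .nd (.nd (.lf (nat_lit 86)) (.lf (nat_lit 39))) (.nd (.lf (nat_lit 110)) (.lf (nat_lit 59)))
  mir := (nat_lit 58)

noncomputable def cx60 : CtxD where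
  sd := .nd (.nd (.nd (.lf ⟨⟨(nat_lit 0x2000000000), (nat_lit 0x2000000000), (nat_lit 0x2000000000), (nat_lit 0x2000000000)⟩,
    ⟨(nat_lit 0x21b72), (nat_lit 0x21b72), (nat_lit 0x21b72), (nat_lit 0x21b72)⟩,
    ⟨(nat_lit 0), (nat_lit 0), (nat_lit 0), (nat_lit 0)⟩,
    ⟨(nat_lit 0x2000000000), (nat_lit 0x2000000000), (nat_lit 0x2000000000), (nat_lit 0x2000000000)⟩,
    ⟨(nat_lit 0x21b70), (nat_lit 0x21b70), (nat_lit 0x21b70), (nat_lit 0x21b70)⟩,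
    ⟨(nat_lit 0x203a37c000), (nat_lit 0x203a370000), (nat_lit 0x203a3bc000), (nat_lit 0x203a3b0000)⟩,
    (nat_lit 0x21b70), (nat_lit 0x21b72)⟩) (.lf ⟨⟨(nat_lit 0x203a38e000), (nat_lit 0x203a382000), (nat_lit 0x203a3ce000), (nat_lit 0x203a3c2000)⟩,
    ⟨(nat_lit 0x9a706), (nat_lit 0x9a6c4), (nat_lit 0x9a888), (nat_lit 0x9a846)⟩,
    ⟨(nat_lit 0x2000000000), (nat_lit 0x2000000000), (nat_lit 0x2000000000), (nat_lit 0x2000000000)⟩,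
    ⟨(nat_lit 0x203a37c000), (nat_lit 0x203a370000), (nat_lit 0x203a3bc000), (nat_lit 0x203a3b0000)⟩,
    ⟨(nat_lit 0x9a750), (nat_lit 0x9a70e), (nat_lit 0x9a8d2), (nat_lit 0x9a890)⟩,
    ⟨(nat_lit 0), (nat_lit 0), (nat_lit 0), (nat_lit 0)⟩,
    (nat_lit 0x9a6c4), (nat_lit 0x9a8d2)⟩)) (.nd (.lf ⟨⟨(nat_lit 0x20fab64000), (nat_lit 0x20faa7e000), (nat_lit 0x20faec2000), (nat_lit 0x20faddc000)⟩,
    ⟨(nat_lit 0xcdc30), (nat_lit 0xcdab6), (nat_lit 0xcdfe8), (nat_lit 0xcde6e)⟩,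
    ⟨(nat_lit 0), (nat_lit 0), (nat_lit 0), (nat_lit 0)⟩,
    ⟨(nat_lit 0x20fab06000), (nat_lit 0x20faa20000), (nat_lit 0x20fae64000), (nat_lit 0x20fad7e000)⟩,
    ⟨(nat_lit 0xcdba2), (nat_lit 0xcda28), (nat_lit 0xcdf5a), (nat_lit 0xcdde0)⟩,
    ⟨(nat_lit 0x2172547000), (nat_lit 0x217234f000), (nat_lit 0x2172bd7000), (nat_lit 0x21729df000)⟩,
    (nat_lit 0xcda28), (nat_lit 0xcdfe8)⟩) (.lf ⟨⟨(nat_lit 0x21725f1000), (nat_lit 0x21723f9000), (nat_lit 0x2172c81000), (nat_lit 0x2172a89000)⟩,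
    ⟨(nat_lit 0x6ab37), (nat_lit 0x6aa15), (nat_lit 0x6af11), (nat_lit 0x6adef)⟩,
    ⟨(nat_lit 0x20fab64000), (nat_lit 0x20faa7e000), (nat_lit 0x20faec2000), (nat_lit 0x20faddc000)⟩,
    ⟨(nat_lit 0x2172547000), (nat_lit 0x217234f000), (nat_lit 0x2172bd7000), (nat_lit 0x21729df000)⟩,
    ⟨(nat_lit 0x6ab9d), (nat_lit 0x6aa7b), (nat_lit 0x6af77), (nat_lit 0x6ae55)⟩,
    ⟨(nat_lit 0), (nat_lit 0), (nat_lit 0), (nat_lit 0)⟩,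
    (nat_lit 0x6aa15), (nat_lit 0x6af77)⟩))) (.nd (.nd (.lf ⟨⟨(nat_lit 0x206d50a000), (nat_lit 0x206d4de000), (nat_lit 0x206d59c000), (nat_lit 0x206d570000)⟩,
    ⟨(nat_lit 0x45ce5), (nat_lit 0x45cad), (nat_lit 0x45dd9), (nat_lit 0x45da1)⟩,
    ⟨(nat_lit 0), (nat_lit 0), (nat_lit 0), (nat_lit 0)⟩,
    ⟨(nat_lit 0x206d4ea000), (nat_lit 0x206d4be000), (nat_lit 0x206d57c000), (nat_lit 0x206d550000)⟩,
    ⟨(nat_lit 0x45cbd), (nat_lit 0x45c85), (nat_lit 0x45db1), (nat_lit 0x45d79)⟩,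
    ⟨(nat_lit 0x20a5f41000), (nat_lit 0x20a5edd000), (nat_lit 0x20a6091000), (nat_lit 0x20a602d000)⟩,
    (nat_lit 0x45c85), (nat_lit 0x45dd9)⟩) (.lf ⟨⟨(nat_lit 0x20a5f77000), (nat_lit 0x20a5f13000), (nat_lit 0x20a60c7000), (nat_lit 0x20a6063000)⟩,
    ⟨(nat_lit 0x442a1), (nat_lit 0x4424f), (nat_lit 0x44373), (nat_lit 0x44321)⟩,
    ⟨(nat_lit 0x206d50a000), (nat_lit 0x206d4de000), (nat_lit 0x206d59c000), (nat_lit 0x206d570000)⟩,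
    ⟨(nat_lit 0x20a5f41000), (nat_lit 0x20a5edd000), (nat_lit 0x20a6091000), (nat_lit 0x20a602d000)⟩,
    ⟨(nat_lit 0x442cd), (nat_lit 0x4427b), (nat_lit 0x4439f), (nat_lit 0x4434d)⟩,
    ⟨(nat_lit 0), (nat_lit 0), (nat_lit 0), (nat_lit 0)⟩,
    (nat_lit 0x4424f), (nat_lit 0x4439f)⟩)) (.nd (.lf ⟨⟨(nat_lit 0x2000000000), (nat_lit 0x2000000000), (nat_lit 0x2000000000), (nat_lit 0x2000000000)⟩,
    ⟨(nat_lit 0x100000), (nat_lit 0x100000), (nat_lit 0x100000), (nat_lit 0x100000)⟩,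
    ⟨(nat_lit 0), (nat_lit 0), (nat_lit 0), (nat_lit 0)⟩,
    ⟨(nat_lit 0x2000000000), (nat_lit 0x2000000000), (nat_lit 0x2000000000), (nat_lit 0x2000000000)⟩,
    ⟨(nat_lit 0x100000), (nat_lit 0x100000), (nat_lit 0x100000), (nat_lit 0x100000)⟩,
    ⟨(nat_lit 0x2172547000), (nat_lit 0x217234f000), (nat_lit 0x2172bd7000), (nat_lit 0x21729df000)⟩,
    (nat_lit 0x100000), (nat_lit 0x100000)⟩) (.lf ⟨⟨(nat_lit 0x21725f1000), (nat_lit 0x21723f9000), (nat_lit 0x2172c81000), (nat_lit 0x2172a89000)⟩,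
    ⟨(nat_lit 0x32a313), (nat_lit 0x329a77), (nat_lit 0x32c04b), (nat_lit 0x32b7af)⟩,
    ⟨(nat_lit 0x2000000000), (nat_lit 0x2000000000), (nat_lit 0x2000000000), (nat_lit 0x2000000000)⟩,
    ⟨(nat_lit 0x2172547000), (nat_lit 0x217234f000), (nat_lit 0x2172bd7000), (nat_lit 0x21729df000)⟩,
    ⟨(nat_lit 0x32a5ff), (nat_lit 0x329d63), (nat_lit 0x32c337), (nat_lit 0x32ba9b)⟩,
    ⟨(nat_lit 0), (nat_lit 0), (nat_lit 0), (nat_lit 0)⟩,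
    (nat_lit 0x329a77), (nat_lit 0x32c337)⟩)))
  nx := .nd (.nd (.lf (nat_lit 38)) (.lf (nat_lit 87))) (.nd (.lf (nat_lit 111)) (.lf (nat_lit 60)))
  mir := (nat_lit 61)

noncomputable def cx61 : CtxD where
  sd := .nd (.nd (.nd (.lf ⟨⟨(nat_lit 0x2000000000), (nat_lit 0x2000000000), (nat_lit 0x2000000000), (nat_lit 0x2000000000)⟩,
    ⟨(nat_lit 0x21b72), (nat_lit 0x21b72), (nat_lit 0x21b72), (nat_lit 0x21b72)⟩,
    ⟨(nat_lit 0), (nat_lit 0), (nat_lit 0), (nat_lit 0)⟩,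
    ⟨(nat_lit 0x2000000000), (nat_lit 0x2000000000), (nat_lit 0x2000000000), (nat_lit 0x2000000000)⟩,
    ⟨(nat_lit 0x21b70), (nat_lit 0x21b70), (nat_lit 0x21b70), (nat_lit 0x21b70)⟩,
    ⟨(nat_lit 0x2025c81000), (nat_lit 0x2025c71000), (nat_lit 0x2025cdb000), (nat_lit 0x2025ccb000)⟩,
    (nat_lit 0x21b70), (nat_lit 0x21b72)⟩) (.lf ⟨⟨(nat_lit 0x2025c95000), (nat_lit 0x2025c85000), (nat_lit 0x2025cef000), (nat_lit 0x2025cdf000)⟩,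
    ⟨(nat_lit 0x40f03), (nat_lit 0x40ec9), (nat_lit 0x4102d), (nat_lit 0x40ff3)⟩,
    ⟨(nat_lit 0x2000000000), (nat_lit 0x2000000000), (nat_lit 0x2000000000), (nat_lit 0x2000000000)⟩,
    ⟨(nat_lit 0x2025c81000), (nat_lit 0x2025c71000), (nat_lit 0x2025cdb000), (nat_lit 0x2025ccb000)⟩,
    ⟨(nat_lit 0x40f31), (nat_lit 0x40ef7), (nat_lit 0x4105b), (nat_lit 0x41021)⟩,
    ⟨(nat_lit 0), (nat_lit 0), (nat_lit 0), (nat_lit 0)⟩,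
    (nat_lit 0x40ec9), (nat_lit 0x4105b)⟩)) (.nd (.lf ⟨⟨(nat_lit 0x20628d1000), (nat_lit 0x2062861000), (nat_lit 0x2062a61000), (nat_lit 0x20629f1000)⟩,
    ⟨(nat_lit 0x30bfd), (nat_lit 0x30b8d), (nat_lit 0x30d45), (nat_lit 0x30cd5)⟩,
    ⟨(nat_lit 0), (nat_lit 0), (nat_lit 0), (nat_lit 0)⟩,
    ⟨(nat_lit 0x2062897000), (nat_lit 0x2062827000), (nat_lit 0x2062a27000), (nat_lit 0x20629b7000)⟩,
    ⟨(nat_lit 0x30bcd), (nat_lit 0x30b5d), (nat_lit 0x30d15), (nat_lit 0x30ca5)⟩,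
    ⟨(nat_lit 0x2074e77000), (nat_lit 0x2074dd9000), (nat_lit 0x207509b000), (nat_lit 0x2074ffd000)⟩,
    (nat_lit 0x30b5d), (nat_lit 0x30d45)⟩) (.lf ⟨⟨(nat_lit 0x2074ebf000), (nat_lit 0x2074e21000), (nat_lit 0x20750e3000), (nat_lit 0x2075045000)⟩,
    ⟨(nat_lit 43554), (nat_lit 43526), (nat_lit 43652), (nat_lit 43624)⟩,
    ⟨(nat_lit 0x20628d1000), (nat_lit 0x2062861000), (nat_lit 0x2062a61000), (nat_lit 0x20629f1000)⟩,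
    ⟨(nat_lit 0x2074e77000), (nat_lit 0x2074dd9000), (nat_lit 0x207509b000), (nat_lit 0x2074ffd000)⟩,
    ⟨(nat_lit 43566), (nat_lit 43538), (nat_lit 43664), (nat_lit 43636)⟩,
    ⟨(nat_lit 0), (nat_lit 0), (nat_lit 0), (nat_lit 0)⟩,
    (nat_lit 43526), (nat_lit 43664)⟩))) (.nd (.nd (.lf ⟨⟨(nat_lit 0x20408c8000), (nat_lit 0x2040898000), (nat_lit 0x2040974000), (nat_lit 0x2040944000)⟩,
    ⟨(nat_lit 0x1583f), (nat_lit 0x1581f), (nat_lit 0x158c3), (nat_lit 0x158a3)⟩,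
    ⟨(nat_lit 0), (nat_lit 0), (nat_lit 0), (nat_lit 0)⟩,
    ⟨(nat_lit 0x20408a6000), (nat_lit 0x2040876000), (nat_lit 0x2040952000), (nat_lit 0x2040922000)⟩,
    ⟨(nat_lit 0x1582b), (nat_lit 0x1580b), (nat_lit 0x158af), (nat_lit 0x1588f)⟩,
    ⟨(nat_lit 0x20526b3000), (nat_lit 0x2052665000), (nat_lit 0x20527c7000), (nat_lit 0x2052779000)⟩,
    (nat_lit 0x1580b), (nat_lit 0x158c3)⟩) (.lf ⟨⟨(nat_lit 0x20526e1000), (nat_lit 0x2052693000), (nat_lit 0x20527f5000), (nat_lit 0x20527a7000)⟩,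
    ⟨(nat_lit 0x16079), (nat_lit 0x1604f), (nat_lit 0x160f7), (nat_lit 0x160cd)⟩,
    ⟨(nat_lit 0x20408c8000), (nat_lit 0x2040898000), (nat_lit 0x2040974000), (nat_lit 0x2040944000)⟩,
    ⟨(nat_lit 0x20526b3000), (nat_lit 0x2052665000), (nat_lit 0x20527c7000), (nat_lit 0x2052779000)⟩,
    ⟨(nat_lit 0x1608f), (nat_lit 0x16065), (nat_lit 0x1610d), (nat_lit 0x160e3)⟩,
    ⟨(nat_lit 0), (nat_lit 0), (nat_lit 0), (nat_lit 0)⟩,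
    (nat_lit 0x1604f), (nat_lit 0x1610d)⟩)) (.nd (.lf ⟨⟨(nat_lit 0x2000000000), (nat_lit 0x2000000000), (nat_lit 0x2000000000), (nat_lit 0x2000000000)⟩,
    ⟨(nat_lit 0x100000), (nat_lit 0x100000), (nat_lit 0x100000), (nat_lit 0x100000)⟩,
    ⟨(nat_lit 0), (nat_lit 0), (nat_lit 0), (nat_lit 0)⟩,
    ⟨(nat_lit 0x2000000000), (nat_lit 0x2000000000), (nat_lit 0x2000000000), (nat_lit 0x2000000000)⟩,
    ⟨(nat_lit 0x100000), (nat_lit 0x100000), (nat_lit 0x100000), (nat_lit 0x100000)⟩,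
    ⟨(nat_lit 0x2074e77000), (nat_lit 0x2074dd9000), (nat_lit 0x207509b000), (nat_lit 0x2074ffd000)⟩,
    (nat_lit 0x100000), (nat_lit 0x100000)⟩) (.lf ⟨⟨(nat_lit 0x2074ebf000), (nat_lit 0x2074e21000), (nat_lit 0x20750e3000), (nat_lit 0x2075045000)⟩,
    ⟨(nat_lit 0x50be2), (nat_lit 0x50b06), (nat_lit 0x50ecc), (nat_lit 0x50df0)⟩,
    ⟨(nat_lit 0x2000000000), (nat_lit 0x2000000000), (nat_lit 0x2000000000), (nat_lit 0x2000000000)⟩,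
    ⟨(nat_lit 0x2074e77000), (nat_lit 0x2074dd9000), (nat_lit 0x207509b000), (nat_lit 0x2074ffd000)⟩,
    ⟨(nat_lit 0x50c2e), (nat_lit 0x50b52), (nat_lit 0x50f18), (nat_lit 0x50e3c)⟩,
    ⟨(nat_lit 0), (nat_lit 0), (nat_lit 0), (nat_lit 0)⟩,
    (nat_lit 0x50b06), (nat_lit 0x50f18)⟩)))
  nx := .nd (.nd (.lf (nat_lit 86)) (.lf (nat_lit 39))) (.nd (.lf (nat_lit 110)) (.lf (nat_lit 61)))
  mir := (nat_lit 60)

noncomputable def cx62 : CtxD where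
  sd := .nd (.nd (.nd (.lf ⟨⟨(nat_lit 0x2000000000), (nat_lit 0x2000000000), (nat_lit 0x2000000000), (nat_lit 0x2000000000)⟩,
    ⟨(nat_lit 0x21b72), (nat_lit 0x21b72), (nat_lit 0x21b72), (nat_lit 0x21b72)⟩,
    ⟨(nat_lit 0), (nat_lit 0), (nat_lit 0), (nat_lit 0)⟩,
    ⟨(nat_lit 0x2000000000), (nat_lit 0x2000000000), (nat_lit 0x2000000000), (nat_lit 0x2000000000)⟩,
    ⟨(nat_lit 0x21b70), (nat_lit 0x21b70), (nat_lit 0x21b70), (nat_lit 0x21b70)⟩,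
    ⟨(nat_lit 0x203a242000), (nat_lit 0x203a22e000), (nat_lit 0x203a30e000), (nat_lit 0x203a2fa000)⟩,
    (nat_lit 0x21b70), (nat_lit 0x21b72)⟩) (.lf ⟨⟨(nat_lit 0x203a254000), (nat_lit 0x203a240000), (nat_lit 0x203a320000), (nat_lit 0x203a30c000)⟩,
    ⟨(nat_lit 0x9a018), (nat_lit 0x99fb0), (nat_lit 0x9a48c), (nat_lit 0x9a424)⟩,
    ⟨(nat_lit 0x2000000000), (nat_lit 0x2000000000), (nat_lit 0x2000000000), (nat_lit 0x2000000000)⟩,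
    ⟨(nat_lit 0x203a242000), (nat_lit 0x203a22e000), (nat_lit 0x203a30e000), (nat_lit 0x203a2fa000)⟩,
    ⟨(nat_lit 0x9a064), (nat_lit 0x99ffc), (nat_lit 0x9a4d8), (nat_lit 0x9a470)⟩,
    ⟨(nat_lit 0), (nat_lit 0), (nat_lit 0), (nat_lit 0)⟩,
    (nat_lit 0x99fb0), (nat_lit 0x9a4d8)⟩)) (.nd (.lf ⟨⟨(nat_lit 0x20f981f000), (nat_lit 0x20f96b5000), (nat_lit 0x20fa4e9000), (nat_lit 0x20fa37f000)⟩,
    ⟨(nat_lit 0xcc138), (nat_lit 0xcbee8), (nat_lit 0xcd396), (nat_lit 0xcd146)⟩,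
    ⟨(nat_lit 0), (nat_lit 0), (nat_lit 0), (nat_lit 0)⟩,
    ⟨(nat_lit 0x20f97b9000), (nat_lit 0x20f964f000), (nat_lit 0x20fa483000), (nat_lit 0x20fa319000)⟩,
    ⟨(nat_lit 0xcc0a2), (nat_lit 0xcbe52), (nat_lit 0xcd300), (nat_lit 0xcd0b0)⟩,
    ⟨(nat_lit 0x216fd39000), (nat_lit 0x216fa25000), (nat_lit 0x21717f3000), (nat_lit 0x21714df000)⟩,
    (nat_lit 0xcbe52), (nat_lit 0xcd396)⟩) (.lf ⟨⟨(nat_lit 0x216fdf7000), (nat_lit 0x216fae3000), (nat_lit 0x21718b1000), (nat_lit 0x217159d000)⟩,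
    ⟨(nat_lit 0x6940c), (nat_lit 0x69248), (nat_lit 0x6a378), (nat_lit 0x6a1b4)⟩,
    ⟨(nat_lit 0x20f981f000), (nat_lit 0x20f96b5000), (nat_lit 0x20fa4e9000), (nat_lit 0x20fa37f000)⟩,
    ⟨(nat_lit 0x216fd39000), (nat_lit 0x216fa25000), (nat_lit 0x21717f3000), (nat_lit 0x21714df000)⟩,
    ⟨(nat_lit 0x6947a), (nat_lit 0x692b6), (nat_lit 0x6a3e6), (nat_lit 0x6a222)⟩,
    ⟨(nat_lit 0), (nat_lit 0), (nat_lit 0), (nat_lit 0)⟩,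
    (nat_lit 0x69248), (nat_lit 0x6a3e6)⟩))) (.nd (.nd (.lf ⟨⟨(nat_lit 0x206d18b000), (nat_lit 0x206d145000), (nat_lit 0x206d3e3000), (nat_lit 0x206d39d000)⟩,
    ⟨(nat_lit 0x457dd), (nat_lit 0x45785), (nat_lit 0x45b2b), (nat_lit 0x45ad3)⟩,
    ⟨(nat_lit 0), (nat_lit 0), (nat_lit 0), (nat_lit 0)⟩,
    ⟨(nat_lit 0x206d167000), (nat_lit 0x206d121000), (nat_lit 0x206d3bf000), (nat_lit 0x206d379000)⟩,
    ⟨(nat_lit 0x457b5), (nat_lit 0x4575d), (nat_lit 0x45b03), (nat_lit 0x45aab)⟩,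
    ⟨(nat_lit 0x20a5731000), (nat_lit 0x20a5693000), (nat_lit 0x20a5c95000), (nat_lit 0x20a5bf7000)⟩,
    (nat_lit 0x4575d), (nat_lit 0x45b2b)⟩) (.lf ⟨⟨(nat_lit 0x20a576b000), (nat_lit 0x20a56cd000), (nat_lit 0x20a5ccf000), (nat_lit 0x20a5c31000)⟩,
    ⟨(nat_lit 0x43cb3), (nat_lit 0x43c31), (nat_lit 0x440bd), (nat_lit 0x4403b)⟩,
    ⟨(nat_lit 0x206d18b000), (nat_lit 0x206d145000), (nat_lit 0x206d3e3000), (nat_lit 0x206d39d000)⟩,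
    ⟨(nat_lit 0x20a5731000), (nat_lit 0x20a5693000), (nat_lit 0x20a5c95000), (nat_lit 0x20a5bf7000)⟩,
    ⟨(nat_lit 0x43cdf), (nat_lit 0x43c5d), (nat_lit 0x440e9), (nat_lit 0x44067)⟩,
    ⟨(nat_lit 0), (nat_lit 0), (nat_lit 0), (nat_lit 0)⟩,
    (nat_lit 0x43c31), (nat_lit 0x440e9)⟩)) (.nd (.lf ⟨⟨(nat_lit 0x2000000000), (nat_lit 0x2000000000), (nat_lit 0x2000000000), (nat_lit 0x2000000000)⟩,
    ⟨(nat_lit 0x100000), (nat_lit 0x100000), (nat_lit 0x100000), (nat_lit 0x100000)⟩,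
    ⟨(nat_lit 0), (nat_lit 0), (nat_lit 0), (nat_lit 0)⟩,
    ⟨(nat_lit 0x2000000000), (nat_lit 0x2000000000), (nat_lit 0x2000000000), (nat_lit 0x2000000000)⟩,
    ⟨(nat_lit 0x100000), (nat_lit 0x100000), (nat_lit 0x100000), (nat_lit 0x100000)⟩,
    ⟨(nat_lit 0x216fd39000), (nat_lit 0x216fa25000), (nat_lit 0x21717f3000), (nat_lit 0x21714df000)⟩,
    (nat_lit 0x100000), (nat_lit 0x100000)⟩) (.lf ⟨⟨(nat_lit 0x216fdf7000), (nat_lit 0x216fae3000), (nat_lit 0x21718b1000), (nat_lit 0x217159d000)⟩,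
    ⟨(nat_lit 0x31f31a), (nat_lit 0x31e5b2), (nat_lit 0x32683a), (nat_lit 0x325ad2)⟩,
    ⟨(nat_lit 0x2000000000), (nat_lit 0x2000000000), (nat_lit 0x2000000000), (nat_lit 0x2000000000)⟩,
    ⟨(nat_lit 0x216fd39000), (nat_lit 0x216fa25000), (nat_lit 0x21717f3000), (nat_lit 0x21714df000)⟩,
    ⟨(nat_lit 0x31f64a), (nat_lit 0x31e8e2), (nat_lit 0x326b6a), (nat_lit 0x325e02)⟩,
    ⟨(nat_lit 0), (nat_lit 0), (nat_lit 0), (nat_lit 0)⟩,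
    (nat_lit 0x31e5b2), (nat_lit 0x326b6a)⟩)))
  nx := .nd (.nd (.lf (nat_lit 38)) (.lf (nat_lit 87))) (.nd (.lf (nat_lit 111)) (.lf (nat_lit 62)))
  mir := (nat_lit 63)

noncomputable def cx63 : CtxD where
  sd := .nd (.nd (.nd (.lf ⟨⟨(nat_lit 0x2000000000), (nat_lit 0x2000000000), (nat_lit 0x2000000000), (nat_lit 0x2000000000)⟩,
    ⟨(nat_lit 0x21b72), (nat_lit 0x21b72), (nat_lit 0x21b72), (nat_lit 0x21b72)⟩,
    ⟨(nat_lit 0), (nat_lit 0), (nat_lit 0), (nat_lit 0)⟩,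
    ⟨(nat_lit 0x2000000000), (nat_lit 0x2000000000), (nat_lit 0x2000000000), (nat_lit 0x2000000000)⟩,
    ⟨(nat_lit 0x21b70), (nat_lit 0x21b70), (nat_lit 0x21b70), (nat_lit 0x21b70)⟩,
    ⟨(nat_lit 0x2025d7c000), (nat_lit 0x2025d62000), (nat_lit 0x2025e92000), (nat_lit 0x2025e78000)⟩,
    (nat_lit 0x21b70), (nat_lit 0x21b72)⟩) (.lf ⟨⟨(nat_lit 0x2025d92000), (nat_lit 0x2025d78000), (nat_lit 0x2025ea8000), (nat_lit 0x2025e8e000)⟩,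
    ⟨(nat_lit 0x4124c), (nat_lit 0x411f2), (nat_lit 0x415f6), (nat_lit 0x4159c)⟩,
    ⟨(nat_lit 0x2000000000), (nat_lit 0x2000000000), (nat_lit 0x2000000000), (nat_lit 0x2000000000)⟩,
    ⟨(nat_lit 0x2025d7c000), (nat_lit 0x2025d62000), (nat_lit 0x2025e92000), (nat_lit 0x2025e78000)⟩,
    ⟨(nat_lit 0x4127a), (nat_lit 0x41220), (nat_lit 0x41624), (nat_lit 0x415ca)⟩,
    ⟨(nat_lit 0), (nat_lit 0), (nat_lit 0), (nat_lit 0)⟩,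
    (nat_lit 0x411f2), (nat_lit 0x41624)⟩)) (.nd (.lf ⟨⟨(nat_lit 0x2062dba000), (nat_lit 0x2062d08000), (nat_lit 0x20633e8000), (nat_lit 0x2063336000)⟩,
    ⟨(nat_lit 0x31049), (nat_lit 0x30f97), (nat_lit 0x3160b), (nat_lit 0x31559)⟩,
    ⟨(nat_lit 0), (nat_lit 0), (nat_lit 0), (nat_lit 0)⟩,
    ⟨(nat_lit 0x2062d7e000), (nat_lit 0x2062ccc000), (nat_lit 0x20633ac000), (nat_lit 0x20632fa000)⟩,
    ⟨(nat_lit 0x31017), (nat_lit 0x30f65), (nat_lit 0x315d9), (nat_lit 0x31527)⟩,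
    ⟨(nat_lit 0x2075540000), (nat_lit 0x2075444000), (nat_lit 0x2075de2000), (nat_lit 0x2075ce6000)⟩,
    (nat_lit 0x30f65), (nat_lit 0x3160b)⟩) (.lf ⟨⟨(nat_lit 0x207558c000), (nat_lit 0x2075490000), (nat_lit 0x2075e2e000), (nat_lit 0x2075d32000)⟩,
    ⟨(nat_lit 43868), (nat_lit 43822), (nat_lit 44270), (nat_lit 44224)⟩,
    ⟨(nat_lit 0x2062dba000), (nat_lit 0x2062d08000), (nat_lit 0x20633e8000), (nat_lit 0x2063336000)⟩,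
    ⟨(nat_lit 0x2075540000), (nat_lit 0x2075444000), (nat_lit 0x2075de2000), (nat_lit 0x2075ce6000)⟩,
    ⟨(nat_lit 43880), (nat_lit 43834), (nat_lit 44282), (nat_lit 44236)⟩,
    ⟨(nat_lit 0), (nat_lit 0), (nat_lit 0), (nat_lit 0)⟩,
    (nat_lit 43822), (nat_lit 44282)⟩))) (.nd (.nd (.lf ⟨⟨(nat_lit 0x2040ae4000), (nat_lit 0x2040a98000), (nat_lit 0x2040d8a000), (nat_lit 0x2040d3e000)⟩,
    ⟨(nat_lit 0x159cf), (nat_lit 0x1599b), (nat_lit 0x15baf), (nat_lit 0x15b7b)⟩,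
    ⟨(nat_lit 0), (nat_lit 0), (nat_lit 0), (nat_lit 0)⟩,
    ⟨(nat_lit 0x2040abe000), (nat_lit 0x2040a72000), (nat_lit 0x2040d64000), (nat_lit 0x2040d18000)⟩,
    ⟨(nat_lit 0x159b9), (nat_lit 0x15985), (nat_lit 0x15b99), (nat_lit 0x15b65)⟩,
    ⟨(nat_lit 0x2052a18000), (nat_lit 0x205299c000), (nat_lit 0x2052e66000), (nat_lit 0x2052dea000)⟩,
    (nat_lit 0x15985), (nat_lit 0x15baf)⟩) (.lf ⟨⟨(nat_lit 0x2052a4a000), (nat_lit 0x20529ce000), (nat_lit 0x2052e98000), (nat_lit 0x2052e1c000)⟩,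
    ⟨(nat_lit 0x1621c), (nat_lit 0x161da), (nat_lit 0x1644c), (nat_lit 0x1640a)⟩,
    ⟨(nat_lit 0x2040ae4000), (nat_lit 0x2040a98000), (nat_lit 0x2040d8a000), (nat_lit 0x2040d3e000)⟩,
    ⟨(nat_lit 0x2052a18000), (nat_lit 0x205299c000), (nat_lit 0x2052e66000), (nat_lit 0x2052dea000)⟩,
    ⟨(nat_lit 0x16234), (nat_lit 0x161f2), (nat_lit 0x16464), (nat_lit 0x16422)⟩,
    ⟨(nat_lit 0), (nat_lit 0), (nat_lit 0), (nat_lit 0)⟩,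
    (nat_lit 0x161da), (nat_lit 0x16464)⟩)) (.nd (.lf ⟨⟨(nat_lit 0x2000000000), (nat_lit 0x2000000000), (nat_lit 0x2000000000), (nat_lit 0x2000000000)⟩,
    ⟨(nat_lit 0x100000), (nat_lit 0x100000), (nat_lit 0x100000), (nat_lit 0x100000)⟩,
    ⟨(nat_lit 0), (nat_lit 0), (nat_lit 0), (nat_lit 0)⟩,
    ⟨(nat_lit 0x2000000000), (nat_lit 0x2000000000), (nat_lit 0x2000000000), (nat_lit 0x2000000000)⟩,
    ⟨(nat_lit 0x100000), (nat_lit 0x100000), (nat_lit 0x100000), (nat_lit 0x100000)⟩,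
    ⟨(nat_lit 0x2075540000), (nat_lit 0x2075444000), (nat_lit 0x2075de2000), (nat_lit 0x2075ce6000)⟩,
    (nat_lit 0x100000), (nat_lit 0x100000)⟩) (.lf ⟨⟨(nat_lit 0x207558c000), (nat_lit 0x2075490000), (nat_lit 0x2075e2e000), (nat_lit 0x2075d32000)⟩,
    ⟨(nat_lit 0x51529), (nat_lit 0x513cb), (nat_lit 0x52115), (nat_lit 0x51fb7)⟩,
    ⟨(nat_lit 0x2000000000), (nat_lit 0x2000000000), (nat_lit 0x2000000000), (nat_lit 0x2000000000)⟩,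
    ⟨(nat_lit 0x2075540000), (nat_lit 0x2075444000), (nat_lit 0x2075de2000), (nat_lit 0x2075ce6000)⟩,
    ⟨(nat_lit 0x51579), (nat_lit 0x5141b), (nat_lit 0x52165), (nat_lit 0x52007)⟩,
    ⟨(nat_lit 0), (nat_lit 0), (nat_lit 0), (nat_lit 0)⟩,
    (nat_lit 0x513cb), (nat_lit 0x52165)⟩)))
  nx := .nd (.nd (.lf (nat_lit 86)) (.lf (nat_lit 39))) (.nd (.lf (nat_lit 110)) (.lf (nat_lit 63)))
  mir := (nat_lit 62)

noncomputable def cx64 : CtxD where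
  sd := .nd (.nd (.nd (.lf ⟨⟨(nat_lit 0x2000000000), (nat_lit 0x2000000000), (nat_lit 0x2000000000), (nat_lit 0x2000000000)⟩,
    ⟨(nat_lit 0x21b72), (nat_lit 0x21b72), (nat_lit 0x21b72), (nat_lit 0x21b72)⟩,
    ⟨(nat_lit 0), (nat_lit 0), (nat_lit 0), (nat_lit 0)⟩,
    ⟨(nat_lit 0x2000000000), (nat_lit 0x2000000000), (nat_lit 0x2000000000), (nat_lit 0x2000000000)⟩,
    ⟨(nat_lit 0x21b70), (nat_lit 0x21b70), (nat_lit 0x21b70), (nat_lit 0x21b70)⟩,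
    ⟨(nat_lit 0x203a036000), (nat_lit 0x2039fd4000), (nat_lit 0x203a0ce000), (nat_lit 0x203a06c000)⟩,
    (nat_lit 0x21b70), (nat_lit 0x21b72)⟩) (.lf ⟨⟨(nat_lit 0x203a064000), (nat_lit 0x203a002000), (nat_lit 0x203a0fc000), (nat_lit 0x203a09a000)⟩,
    ⟨(nat_lit 0x992d6), (nat_lit 0x990ce), (nat_lit 0x99766), (nat_lit 0x9955e)⟩,
    ⟨(nat_lit 0x2000000000), (nat_lit 0x2000000000), (nat_lit 0x2000000000), (nat_lit 0x2000000000)⟩,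
    ⟨(nat_lit 0x203a036000), (nat_lit 0x2039fd4000), (nat_lit 0x203a0ce000), (nat_lit 0x203a06c000)⟩,
    ⟨(nat_lit 0x99364), (nat_lit 0x9915c), (nat_lit 0x997f4), (nat_lit 0x995ec)⟩,
    ⟨(nat_lit 0), (nat_lit 0), (nat_lit 0), (nat_lit 0)⟩,
    (nat_lit 0x990ce), (nat_lit 0x997f4)⟩)) (.nd (.lf ⟨⟨(nat_lit 0x20f87f7000), (nat_lit 0x20f80e9000), (nat_lit 0x20f8797000), (nat_lit 0x20f8089000)⟩,
    ⟨(nat_lit 0xcc1a5), (nat_lit 0xcb615), (nat_lit 0xcb1ff), (nat_lit 0xca66f)⟩,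
    ⟨(nat_lit 0), (nat_lit 0), (nat_lit 0), (nat_lit 0)⟩,
    ⟨(nat_lit 0x20f8683000), (nat_lit 0x20f7f75000), (nat_lit 0x20f8623000), (nat_lit 0x20f7f15000)⟩,
    ⟨(nat_lit 0xcbfa9), (nat_lit 0xcb419), (nat_lit 0xcb003), (nat_lit 0xca473)⟩,
    ⟨(nat_lit 0x216e2e9000), (nat_lit 0x216d397000), (nat_lit 0x216dc11000), (nat_lit 0x216ccbf000)⟩,
    (nat_lit 0xca473), (nat_lit 0xcc1a5)⟩) (.lf ⟨⟨(nat_lit 0x216e5d7000), (nat_lit 0x216d685000), (nat_lit 0x216deff000), (nat_lit 0x216cfad000)⟩,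
    ⟨(nat_lit 0x6832e), (nat_lit 0x67a72), (nat_lit 0x68074), (nat_lit 0x677b8)⟩,
    ⟨(nat_lit 0x20f87f7000), (nat_lit 0x20f80e9000), (nat_lit 0x20f8797000), (nat_lit 0x20f8089000)⟩,
    ⟨(nat_lit 0x216e2e9000), (nat_lit 0x216d397000), (nat_lit 0x216dc11000), (nat_lit 0x216ccbf000)⟩,
    ⟨(nat_lit 0x684c6), (nat_lit 0x67c0a), (nat_lit 0x6820c), (nat_lit 0x67950)⟩,
    ⟨(nat_lit 0), (nat_lit 0), (nat_lit 0), (nat_lit 0)⟩,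
    (nat_lit 0x677b8), (nat_lit 0x684c6)⟩))) (.nd (.nd (.lf ⟨⟨(nat_lit 0x206cf8c000), (nat_lit 0x206ce32000), (nat_lit 0x206cee0000), (nat_lit 0x206cd86000)⟩,
    ⟨(nat_lit 0x451e4), (nat_lit 0x4502c), (nat_lit 0x452ee), (nat_lit 0x45136)⟩,
    ⟨(nat_lit 0), (nat_lit 0), (nat_lit 0), (nat_lit 0)⟩,
    ⟨(nat_lit 0x206cf26000), (nat_lit 0x206cdcc000), (nat_lit 0x206ce7a000), (nat_lit 0x206cd20000)⟩,
    ⟨(nat_lit 0x45184), (nat_lit 0x44fcc), (nat_lit 0x4528e), (nat_lit 0x450d6)⟩,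
    ⟨(nat_lit 0x20a5218000), (nat_lit 0x20a4efc000), (nat_lit 0x20a5086000), (nat_lit 0x20a4d6a000)⟩,
    (nat_lit 0x44fcc), (nat_lit 0x452ee)⟩) (.lf ⟨⟨(nat_lit 0x20a52d8000), (nat_lit 0x20a4fbc000), (nat_lit 0x20a5146000), (nat_lit 0x20a4e2a000)⟩,
    ⟨(nat_lit 0x43c97), (nat_lit 0x43a09), (nat_lit 0x4390f), (nat_lit 0x43681)⟩,
    ⟨(nat_lit 0x206cf8c000), (nat_lit 0x206ce32000), (nat_lit 0x206cee0000), (nat_lit 0x206cd86000)⟩,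
    ⟨(nat_lit 0x20a5218000), (nat_lit 0x20a4efc000), (nat_lit 0x20a5086000), (nat_lit 0x20a4d6a000)⟩,
    ⟨(nat_lit 0x43d11), (nat_lit 0x43a83), (nat_lit 0x43989), (nat_lit 0x436fb)⟩,
    ⟨(nat_lit 0), (nat_lit 0), (nat_lit 0), (nat_lit 0)⟩,
    (nat_lit 0x43681), (nat_lit 0x43d11)⟩)) (.nd (.lf ⟨⟨(nat_lit 0x2000000000), (nat_lit 0x2000000000), (nat_lit 0x2000000000), (nat_lit 0x2000000000)⟩,
    ⟨(nat_lit 0x100000), (nat_lit 0x100000), (nat_lit 0x100000), (nat_lit 0x100000)⟩,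
    ⟨(nat_lit 0), (nat_lit 0), (nat_lit 0), (nat_lit 0)⟩,
    ⟨(nat_lit 0x2000000000), (nat_lit 0x2000000000), (nat_lit 0x2000000000), (nat_lit 0x2000000000)⟩,
    ⟨(nat_lit 0x100000), (nat_lit 0x100000), (nat_lit 0x100000), (nat_lit 0x100000)⟩,
    ⟨(nat_lit 0x216e2e9000), (nat_lit 0x216d397000), (nat_lit 0x216dc11000), (nat_lit 0x216ccbf000)⟩,
    (nat_lit 0x100000), (nat_lit 0x100000)⟩) (.lf ⟨⟨(nat_lit 0x216e5d7000), (nat_lit 0x216d685000), (nat_lit 0x216deff000), (nat_lit 0x216cfad000)⟩,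
    ⟨(nat_lit 0x317308), (nat_lit 0x3130bc), (nat_lit 0x315e4e), (nat_lit 0x311c02)⟩,
    ⟨(nat_lit 0x2000000000), (nat_lit 0x2000000000), (nat_lit 0x2000000000), (nat_lit 0x2000000000)⟩,
    ⟨(nat_lit 0x216e2e9000), (nat_lit 0x216d397000), (nat_lit 0x216dc11000), (nat_lit 0x216ccbf000)⟩,
    ⟨(nat_lit 0x317f14), (nat_lit 0x313cc8), (nat_lit 0x316a5a), (nat_lit 0x31280e)⟩,
    ⟨(nat_lit 0), (nat_lit 0), (nat_lit 0), (nat_lit 0)⟩,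
    (nat_lit 0x311c02), (nat_lit 0x317f14)⟩)))
  nx := .nd (.nd (.lf (nat_lit 36)) (.lf (nat_lit 85))) (.nd (.lf (nat_lit 111)) (.lf (nat_lit 64)))
  mir := (nat_lit 65)

noncomputable def cx65 : CtxD where
  sd := .nd (.nd (.nd (.lf ⟨⟨(nat_lit 0x2000000000), (nat_lit 0x2000000000), (nat_lit 0x2000000000), (nat_lit 0x2000000000)⟩,
    ⟨(nat_lit 0x21b72), (nat_lit 0x21b72), (nat_lit 0x21b72), (nat_lit 0x21b72)⟩,
    ⟨(nat_lit 0), (nat_lit 0), (nat_lit 0), (nat_lit 0)⟩,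
    ⟨(nat_lit 0x2000000000), (nat_lit 0x2000000000), (nat_lit 0x2000000000), (nat_lit 0x2000000000)⟩,
    ⟨(nat_lit 0x21b70), (nat_lit 0x21b70), (nat_lit 0x21b70), (nat_lit 0x21b70)⟩,
    ⟨(nat_lit 0x20260fa000), (nat_lit 0x2026076000), (nat_lit 0x2026214000), (nat_lit 0x2026190000)⟩,
    (nat_lit 0x21b70), (nat_lit 0x21b72)⟩) (.lf ⟨⟨(nat_lit 0x2026134000), (nat_lit 0x20260b0000), (nat_lit 0x202624e000), (nat_lit 0x20261ca000)⟩,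
    ⟨(nat_lit 0x41e07), (nat_lit 0x41c3d), (nat_lit 0x4215f), (nat_lit 0x41f95)⟩,
    ⟨(nat_lit 0x2000000000), (nat_lit 0x2000000000), (nat_lit 0x2000000000), (nat_lit 0x2000000000)⟩,
    ⟨(nat_lit 0x20260fa000), (nat_lit 0x2026076000), (nat_lit 0x2026214000), (nat_lit 0x2026190000)⟩,
    ⟨(nat_lit 0x41e81), (nat_lit 0x41cb7), (nat_lit 0x421d9), (nat_lit 0x4200f)⟩,
    ⟨(nat_lit 0), (nat_lit 0), (nat_lit 0), (nat_lit 0)⟩,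
    (nat_lit 0x41c3d), (nat_lit 0x421d9)⟩)) (.nd (.lf ⟨⟨(nat_lit 0x2063f42000), (nat_lit 0x2063bb8000), (nat_lit 0x2063f0c000), (nat_lit 0x2063b82000)⟩,
    ⟨(nat_lit 0x31f5c), (nat_lit 0x31bd8), (nat_lit 0x31c92), (nat_lit 0x3190e)⟩,
    ⟨(nat_lit 0), (nat_lit 0), (nat_lit 0), (nat_lit 0)⟩,
    ⟨(nat_lit 0x2063e64000), (nat_lit 0x2063ada000), (nat_lit 0x2063e2e000), (nat_lit 0x2063aa4000)⟩,
    ⟨(nat_lit 0x31ea8), (nat_lit 0x31b24), (nat_lit 0x31bde), (nat_lit 0x3185a)⟩,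
    ⟨(nat_lit 0x2076c9c000), (nat_lit 0x207679e000), (nat_lit 0x2076bb8000), (nat_lit 0x20766ba000)⟩,
    (nat_lit 0x3185a), (nat_lit 0x31f5c)⟩) (.lf ⟨⟨(nat_lit 0x2076dc0000), (nat_lit 0x20768c2000), (nat_lit 0x2076cdc000), (nat_lit 0x20767de000)⟩,
    ⟨(nat_lit 44948), (nat_lit 44712), (nat_lit 44874), (nat_lit 44638)⟩,
    ⟨(nat_lit 0x2063f42000), (nat_lit 0x2063bb8000), (nat_lit 0x2063f0c000), (nat_lit 0x2063b82000)⟩,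
    ⟨(nat_lit 0x2076c9c000), (nat_lit 0x207679e000), (nat_lit 0x2076bb8000), (nat_lit 0x20766ba000)⟩,
    ⟨(nat_lit 44994), (nat_lit 44758), (nat_lit 44920), (nat_lit 44684)⟩,
    ⟨(nat_lit 0), (nat_lit 0), (nat_lit 0), (nat_lit 0)⟩,
    (nat_lit 44638), (nat_lit 44994)⟩))) (.nd (.nd (.lf ⟨⟨(nat_lit 0x2041271000), (nat_lit 0x20410ef000), (nat_lit 0x2041271000), (nat_lit 0x20410ef000)⟩,
    ⟨(nat_lit 0x15f67), (nat_lit 0x15e63), (nat_lit 0x15ff9), (nat_lit 0x15ef5)⟩,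
    ⟨(nat_lit 0), (nat_lit 0), (nat_lit 0), (nat_lit 0)⟩,
    ⟨(nat_lit 0x20411f9000), (nat_lit 0x2041077000), (nat_lit 0x20411f9000), (nat_lit 0x2041077000)⟩,
    ⟨(nat_lit 0x15f2d), (nat_lit 0x15e29), (nat_lit 0x15fbf), (nat_lit 0x15ebb)⟩,
    ⟨(nat_lit 0x20535ce000), (nat_lit 0x2053356000), (nat_lit 0x205359e000), (nat_lit 0x2053326000)⟩,
    (nat_lit 0x15e29), (nat_lit 0x15ff9)⟩) (.lf ⟨⟨(nat_lit 0x2053678000), (nat_lit 0x2053400000), (nat_lit 0x2053648000), (nat_lit 0x20533d0000)⟩,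
    ⟨(nat_lit 0x167b4), (nat_lit 0x16660), (nat_lit 0x166c8), (nat_lit 0x16574)⟩,
    ⟨(nat_lit 0x2041271000), (nat_lit 0x20410ef000), (nat_lit 0x2041271000), (nat_lit 0x20410ef000)⟩,
    ⟨(nat_lit 0x20535ce000), (nat_lit 0x2053356000), (nat_lit 0x205359e000), (nat_lit 0x2053326000)⟩,
    ⟨(nat_lit 0x167fc), (nat_lit 0x166a8), (nat_lit 0x16710), (nat_lit 0x165bc)⟩,
    ⟨(nat_lit 0), (nat_lit 0), (nat_lit 0), (nat_lit 0)⟩,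
    (nat_lit 0x16574), (nat_lit 0x167fc)⟩)) (.nd (.lf ⟨⟨(nat_lit 0x2000000000), (nat_lit 0x2000000000), (nat_lit 0x2000000000), (nat_lit 0x2000000000)⟩,
    ⟨(nat_lit 0x100000), (nat_lit 0x100000), (nat_lit 0x100000), (nat_lit 0x100000)⟩,
    ⟨(nat_lit 0), (nat_lit 0), (nat_lit 0), (nat_lit 0)⟩,
    ⟨(nat_lit 0x2000000000), (nat_lit 0x2000000000), (nat_lit 0x2000000000), (nat_lit 0x2000000000)⟩,
    ⟨(nat_lit 0x100000), (nat_lit 0x100000), (nat_lit 0x100000), (nat_lit 0x100000)⟩,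
    ⟨(nat_lit 0x2076c9c000), (nat_lit 0x207679e000), (nat_lit 0x2076bb8000), (nat_lit 0x20766ba000)⟩,
    (nat_lit 0x100000), (nat_lit 0x100000)⟩) (.lf ⟨⟨(nat_lit 0x2076dc0000), (nat_lit 0x20768c2000), (nat_lit 0x2076cdc000), (nat_lit 0x20767de000)⟩,
    ⟨(nat_lit 0x53530), (nat_lit 0x52e36), (nat_lit 0x53302), (nat_lit 0x52c08)⟩,
    ⟨(nat_lit 0x2000000000), (nat_lit 0x2000000000), (nat_lit 0x2000000000), (nat_lit 0x2000000000)⟩,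
    ⟨(nat_lit 0x2076c9c000), (nat_lit 0x207679e000), (nat_lit 0x2076bb8000), (nat_lit 0x20766ba000)⟩,
    ⟨(nat_lit 0x5367a), (nat_lit 0x52f80), (nat_lit 0x5344c), (nat_lit 0x52d52)⟩,
    ⟨(nat_lit 0), (nat_lit 0), (nat_lit 0), (nat_lit 0)⟩,
    (nat_lit 0x52c08), (nat_lit 0x5367a)⟩)))
  nx := .nd (.nd (.lf (nat_lit 84)) (.lf (nat_lit 37))) (.nd (.lf (nat_lit 110)) (.lf (nat_lit 65)))
  mir := (nat_lit 64)

noncomputable def cx66 : CtxD where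
  sd := .nd (.nd (.nd (.lf ⟨⟨(nat_lit 0x2000000000), (nat_lit 0x2000000000), (nat_lit 0x2000000000), (nat_lit 0x2000000000)⟩,
    ⟨(nat_lit 0x21b72), (nat_lit 0x21b72), (nat_lit 0x21b72), (nat_lit 0x21b72)⟩,
    ⟨(nat_lit 0), (nat_lit 0), (nat_lit 0), (nat_lit 0)⟩,
    ⟨(nat_lit 0x2000000000), (nat_lit 0x2000000000), (nat_lit 0x2000000000), (nat_lit 0x2000000000)⟩,
    ⟨(nat_lit 0x21b70), (nat_lit 0x21b70), (nat_lit 0x21b70), (nat_lit 0x21b70)⟩,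
    ⟨(nat_lit 0x203863a000), (nat_lit 0x203861c000), (nat_lit 0x20386b4000), (nat_lit 0x2038696000)⟩,
    (nat_lit 0x21b70), (nat_lit 0x21b72)⟩) (.lf ⟨⟨(nat_lit 0x2038650000), (nat_lit 0x2038632000), (nat_lit 0x20386ca000), (nat_lit 0x20386ac000)⟩,
    ⟨(nat_lit 0x904a4), (nat_lit 0x90408), (nat_lit 0x90726), (nat_lit 0x9068a)⟩,
    ⟨(nat_lit 0x2000000000), (nat_lit 0x2000000000), (nat_lit 0x2000000000), (nat_lit 0x2000000000)⟩,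
    ⟨(nat_lit 0x203863a000), (nat_lit 0x203861c000), (nat_lit 0x20386b4000), (nat_lit 0x2038696000)⟩,
    ⟨(nat_lit 0x904fa), (nat_lit 0x9045e), (nat_lit 0x9077c), (nat_lit 0x906e0)⟩,
    ⟨(nat_lit 0), (nat_lit 0), (nat_lit 0), (nat_lit 0)⟩,
    (nat_lit 0x90408), (nat_lit 0x9077c)⟩)) (.nd (.lf ⟨⟨(nat_lit 0x20e31a7000), (nat_lit 0x20e2fb7000), (nat_lit 0x20e388f000), (nat_lit 0x20e369f000)⟩,
    ⟨(nat_lit 0xb100c), (nat_lit 0xb0d08), (nat_lit 0xb19f2), (nat_lit 0xb16ee)⟩,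
    ⟨(nat_lit 0), (nat_lit 0), (nat_lit 0), (nat_lit 0)⟩,
    ⟨(nat_lit 0x20e3121000), (nat_lit 0x20e2f31000), (nat_lit 0x20e3809000), (nat_lit 0x20e3619000)⟩,
    ⟨(nat_lit 0xb0f52), (nat_lit 0xb0c4e), (nat_lit 0xb1938), (nat_lit 0xb1634)⟩,
    ⟨(nat_lit 0x2145160000), (nat_lit 0x2144d6a000), (nat_lit 0x2145f2e000), (nat_lit 0x2145b38000)⟩,
    (nat_lit 0xb0c4e), (nat_lit 0xb19f2)⟩) (.lf ⟨⟨(nat_lit 0x214524a000), (nat_lit 0x2144e54000), (nat_lit 0x2146018000), (nat_lit 0x2145c22000)⟩,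
    ⟨(nat_lit 0x531d6), (nat_lit 0x52fce), (nat_lit 0x538ea), (nat_lit 0x536e2)⟩,
    ⟨(nat_lit 0x20e31a7000), (nat_lit 0x20e2fb7000), (nat_lit 0x20e388f000), (nat_lit 0x20e369f000)⟩,
    ⟨(nat_lit 0x2145160000), (nat_lit 0x2144d6a000), (nat_lit 0x2145f2e000), (nat_lit 0x2145b38000)⟩,
    ⟨(nat_lit 0x53248), (nat_lit 0x53040), (nat_lit 0x5395c), (nat_lit 0x53754)⟩,
    ⟨(nat_lit 0), (nat_lit 0), (nat_lit 0), (nat_lit 0)⟩,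
    (nat_lit 0x52fce), (nat_lit 0x5395c)⟩))) (.nd (.nd (.lf ⟨⟨(nat_lit 0x2068947000), (nat_lit 0x20688df000), (nat_lit 0x2068abb000), (nat_lit 0x2068a53000)⟩,
    ⟨(nat_lit 0x3f1b6), (nat_lit 0x3f138), (nat_lit 0x3f390), (nat_lit 0x3f312)⟩,
    ⟨(nat_lit 0), (nat_lit 0), (nat_lit 0), (nat_lit 0)⟩,
    ⟨(nat_lit 0x2068919000), (nat_lit 0x20688b1000), (nat_lit 0x2068a8d000), (nat_lit 0x2068a25000)⟩,
    ⟨(nat_lit 0x3f186), (nat_lit 0x3f108), (nat_lit 0x3f360), (nat_lit 0x3f2e2)⟩,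
    ⟨(nat_lit 0x209b8db000), (nat_lit 0x209b7f3000), (nat_lit 0x209bc0b000), (nat_lit 0x209bb23000)⟩,
    (nat_lit 0x3f108), (nat_lit 0x3f390)⟩) (.lf ⟨⟨(nat_lit 0x209b929000), (nat_lit 0x209b841000), (nat_lit 0x209bc59000), (nat_lit 0x209bb71000)⟩,
    ⟨(nat_lit 0x3d403), (nat_lit 0x3d34d), (nat_lit 0x3d661), (nat_lit 0x3d5ab)⟩,
    ⟨(nat_lit 0x2068947000), (nat_lit 0x20688df000), (nat_lit 0x2068abb000), (nat_lit 0x2068a53000)⟩,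
    ⟨(nat_lit 0x209b8db000), (nat_lit 0x209b7f3000), (nat_lit 0x209bc0b000), (nat_lit 0x209bb23000)⟩,
    ⟨(nat_lit 0x3d439), (nat_lit 0x3d383), (nat_lit 0x3d697), (nat_lit 0x3d5e1)⟩,
    ⟨(nat_lit 0), (nat_lit 0), (nat_lit 0), (nat_lit 0)⟩,
    (nat_lit 0x3d34d), (nat_lit 0x3d697)⟩)) (.nd (.lf ⟨⟨(nat_lit 0x2000000000), (nat_lit 0x2000000000), (nat_lit 0x2000000000), (nat_lit 0x2000000000)⟩,
    ⟨(nat_lit 0x100000), (nat_lit 0x100000), (nat_lit 0x100000), (nat_lit 0x100000)⟩,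
    ⟨(nat_lit 0), (nat_lit 0), (nat_lit 0), (nat_lit 0)⟩,
    ⟨(nat_lit 0x2000000000), (nat_lit 0x2000000000), (nat_lit 0x2000000000), (nat_lit 0x2000000000)⟩,
    ⟨(nat_lit 0x100000), (nat_lit 0x100000), (nat_lit 0x100000), (nat_lit 0x100000)⟩,
    ⟨(nat_lit 0x2145160000), (nat_lit 0x2144d6a000), (nat_lit 0x2145f2e000), (nat_lit 0x2145b38000)⟩,
    (nat_lit 0x100000), (nat_lit 0x100000)⟩) (.lf ⟨⟨(nat_lit 0x214524a000), (nat_lit 0x2144e54000), (nat_lit 0x2146018000), (nat_lit 0x2145c22000)⟩,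
    ⟨(nat_lit 0x27718d), (nat_lit 0x276227), (nat_lit 0x27a74b), (nat_lit 0x2797e5)⟩,
    ⟨(nat_lit 0x2000000000), (nat_lit 0x2000000000), (nat_lit 0x2000000000), (nat_lit 0x2000000000)⟩,
    ⟨(nat_lit 0x2145160000), (nat_lit 0x2144d6a000), (nat_lit 0x2145f2e000), (nat_lit 0x2145b38000)⟩,
    ⟨(nat_lit 0x2774df), (nat_lit 0x276579), (nat_lit 0x27aa9d), (nat_lit 0x279b37)⟩,
    ⟨(nat_lit 0), (nat_lit 0), (nat_lit 0), (nat_lit 0)⟩,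
    (nat_lit 0x276227), (nat_lit 0x27aa9d)⟩)))
  nx := .nd (.nd (.lf (nat_lit 42)) (.lf (nat_lit 83))) (.nd (.lf (nat_lit 113)) (.lf (nat_lit 66)))
  mir := (nat_lit 67)

noncomputable def cx67 : CtxD where
  sd := .nd (.nd (.nd (.lf ⟨⟨(nat_lit 0x2000000000), (nat_lit 0x2000000000), (nat_lit 0x2000000000), (nat_lit 0x2000000000)⟩,
    ⟨(nat_lit 0x21b72), (nat_lit 0x21b72), (nat_lit 0x21b72), (nat_lit 0x21b72)⟩,
    ⟨(nat_lit 0), (nat_lit 0), (nat_lit 0), (nat_lit 0)⟩,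
    ⟨(nat_lit 0x2000000000), (nat_lit 0x2000000000), (nat_lit 0x2000000000), (nat_lit 0x2000000000)⟩,
    ⟨(nat_lit 0x21b70), (nat_lit 0x21b70), (nat_lit 0x21b70), (nat_lit 0x21b70)⟩,
    ⟨(nat_lit 0x2027ba3000), (nat_lit 0x2027b7d000), (nat_lit 0x2027c39000), (nat_lit 0x2027c13000)⟩,
    (nat_lit 0x21b70), (nat_lit 0x21b72)⟩) (.lf ⟨⟨(nat_lit 0x2027bbd000), (nat_lit 0x2027b97000), (nat_lit 0x2027c53000), (nat_lit 0x2027c2d000)⟩,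
    ⟨(nat_lit 0x47ac6), (nat_lit 0x47a40), (nat_lit 0x47cdc), (nat_lit 0x47c56)⟩,
    ⟨(nat_lit 0x2000000000), (nat_lit 0x2000000000), (nat_lit 0x2000000000), (nat_lit 0x2000000000)⟩,
    ⟨(nat_lit 0x2027ba3000), (nat_lit 0x2027b7d000), (nat_lit 0x2027c39000), (nat_lit 0x2027c13000)⟩,
    ⟨(nat_lit 0x47b08), (nat_lit 0x47a82), (nat_lit 0x47d1e), (nat_lit 0x47c98)⟩,
    ⟨(nat_lit 0), (nat_lit 0), (nat_lit 0), (nat_lit 0)⟩,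
    (nat_lit 0x47a40), (nat_lit 0x47d1e)⟩)) (.nd (.lf ⟨⟨(nat_lit 0x206cd34000), (nat_lit 0x206cc1c000), (nat_lit 0x206d110000), (nat_lit 0x206cff8000)⟩,
    ⟨(nat_lit 0x3a5c6), (nat_lit 0x3a49a), (nat_lit 0x3a9ba), (nat_lit 0x3a88e)⟩,
    ⟨(nat_lit 0), (nat_lit 0), (nat_lit 0), (nat_lit 0)⟩,
    ⟨(nat_lit 0x206ccde000), (nat_lit 0x206cbc6000), (nat_lit 0x206d0ba000), (nat_lit 0x206cfa2000)⟩,
    ⟨(nat_lit 0x3a578), (nat_lit 0x3a44c), (nat_lit 0x3a96c), (nat_lit 0x3a840)⟩,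
    ⟨(nat_lit 0x2083983000), (nat_lit 0x20837e9000), (nat_lit 0x2083f1f000), (nat_lit 0x2083d85000)⟩,
    (nat_lit 0x3a44c), (nat_lit 0x3a9ba)⟩) (.lf ⟨⟨(nat_lit 0x20839f5000), (nat_lit 0x208385b000), (nat_lit 0x2083f91000), (nat_lit 0x2083df7000)⟩,
    ⟨(nat_lit 55787), (nat_lit 55701), (nat_lit 56083), (nat_lit 55997)⟩,
    ⟨(nat_lit 0x206cd34000), (nat_lit 0x206cc1c000), (nat_lit 0x206d110000), (nat_lit 0x206cff8000)⟩,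
    ⟨(nat_lit 0x2083983000), (nat_lit 0x20837e9000), (nat_lit 0x2083f1f000), (nat_lit 0x2083d85000)⟩,
    ⟨(nat_lit 55809), (nat_lit 55723), (nat_lit 56105), (nat_lit 56019)⟩,
    ⟨(nat_lit 0), (nat_lit 0), (nat_lit 0), (nat_lit 0)⟩,
    (nat_lit 55701), (nat_lit 56105)⟩))) (.nd (.nd (.lf ⟨⟨(nat_lit 0x2044b3e000), (nat_lit 0x2044ace000), (nat_lit 0x2044cca000), (nat_lit 0x2044c5a000)⟩,
    ⟨(nat_lit 0x18cbb), (nat_lit 0x18c6b), (nat_lit 0x18de1), (nat_lit 0x18d91)⟩,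
    ⟨(nat_lit 0), (nat_lit 0), (nat_lit 0), (nat_lit 0)⟩,
    ⟨(nat_lit 0x2044b0e000), (nat_lit 0x2044a9e000), (nat_lit 0x2044c9a000), (nat_lit 0x2044c2a000)⟩,
    ⟨(nat_lit 0x18c9f), (nat_lit 0x18c4f), (nat_lit 0x18dc5), (nat_lit 0x18d75)⟩,
    ⟨(nat_lit 0x2059524000), (nat_lit 0x2059468000), (nat_lit 0x20597bc000), (nat_lit 0x2059700000)⟩,
    (nat_lit 0x18c4f), (nat_lit 0x18de1)⟩) (.lf ⟨⟨(nat_lit 0x2059568000), (nat_lit 0x20594ac000), (nat_lit 0x2059800000), (nat_lit 0x2059744000)⟩,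
    ⟨(nat_lit 0x1986b), (nat_lit 0x197ff), (nat_lit 0x199d7), (nat_lit 0x1996b)⟩,
    ⟨(nat_lit 0x2044b3e000), (nat_lit 0x2044ace000), (nat_lit 0x2044cca000), (nat_lit 0x2044c5a000)⟩,
    ⟨(nat_lit 0x2059524000), (nat_lit 0x2059468000), (nat_lit 0x20597bc000), (nat_lit 0x2059700000)⟩,
    ⟨(nat_lit 0x19889), (nat_lit 0x1981d), (nat_lit 0x199f5), (nat_lit 0x19989)⟩,
    ⟨(nat_lit 0), (nat_lit 0), (nat_lit 0), (nat_lit 0)⟩,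
    (nat_lit 0x197ff), (nat_lit 0x199f5)⟩)) (.nd (.lf ⟨⟨(nat_lit 0x2000000000), (nat_lit 0x2000000000), (nat_lit 0x2000000000), (nat_lit 0x2000000000)⟩,
    ⟨(nat_lit 0x100000), (nat_lit 0x100000), (nat_lit 0x100000), (nat_lit 0x100000)⟩,
    ⟨(nat_lit 0), (nat_lit 0), (nat_lit 0), (nat_lit 0)⟩,
    ⟨(nat_lit 0x2000000000), (nat_lit 0x2000000000), (nat_lit 0x2000000000), (nat_lit 0x2000000000)⟩,
    ⟨(nat_lit 0x100000), (nat_lit 0x100000), (nat_lit 0x100000), (nat_lit 0x100000)⟩,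
    ⟨(nat_lit 0x2083983000), (nat_lit 0x20837e9000), (nat_lit 0x2083f1f000), (nat_lit 0x2083d85000)⟩,
    (nat_lit 0x100000), (nat_lit 0x100000)⟩) (.lf ⟨⟨(nat_lit 0x20839f5000), (nat_lit 0x208385b000), (nat_lit 0x2083f91000), (nat_lit 0x2083df7000)⟩,
    ⟨(nat_lit 0x676ac), (nat_lit 0x67426), (nat_lit 0x67f7a), (nat_lit 0x67cf4)⟩,
    ⟨(nat_lit 0x2000000000), (nat_lit 0x2000000000), (nat_lit 0x2000000000), (nat_lit 0x2000000000)⟩,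
    ⟨(nat_lit 0x2083983000), (nat_lit 0x20837e9000), (nat_lit 0x2083f1f000), (nat_lit 0x2083d85000)⟩,
    ⟨(nat_lit 0x6773e), (nat_lit 0x674b8), (nat_lit 0x6800c), (nat_lit 0x67d86)⟩,
    ⟨(nat_lit 0), (nat_lit 0), (nat_lit 0), (nat_lit 0)⟩,
    (nat_lit 0x67426), (nat_lit 0x6800c)⟩)))
  nx := .nd (.nd (.lf (nat_lit 82)) (.lf (nat_lit 43))) (.nd (.lf (nat_lit 112)) (.lf (nat_lit 67)))
  mir := (nat_lit 66)

noncomputable def cx68 : CtxD where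
  sd := .nd (.nd (.nd (.lf ⟨⟨(nat_lit 0x2000000000), (nat_lit 0x2000000000), (nat_lit 0x2000000000), (nat_lit 0x2000000000)⟩,
    ⟨(nat_lit 0x21b72), (nat_lit 0x21b72), (nat_lit 0x21b72), (nat_lit 0x21b72)⟩,
    ⟨(nat_lit 0), (nat_lit 0), (nat_lit 0), (nat_lit 0)⟩,
    ⟨(nat_lit 0x2000000000), (nat_lit 0x2000000000), (nat_lit 0x2000000000), (nat_lit 0x2000000000)⟩,
    ⟨(nat_lit 0x21b70), (nat_lit 0x21b70), (nat_lit 0x21b70), (nat_lit 0x21b70)⟩,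
    ⟨(nat_lit 0x2038572000), (nat_lit 0x2038560000), (nat_lit 0x20385ca000), (nat_lit 0x20385b8000)⟩,
    (nat_lit 0x21b70), (nat_lit 0x21b72)⟩) (.lf ⟨⟨(nat_lit 0x2038588000), (nat_lit 0x2038576000), (nat_lit 0x20385e0000), (nat_lit 0x20385ce000)⟩,
    ⟨(nat_lit 0x90083), (nat_lit 0x90023), (nat_lit 0x90259), (nat_lit 0x901f9)⟩,
    ⟨(nat_lit 0x2000000000), (nat_lit 0x2000000000), (nat_lit 0x2000000000), (nat_lit 0x2000000000)⟩,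
    ⟨(nat_lit 0x2038572000), (nat_lit 0x2038560000), (nat_lit 0x20385ca000), (nat_lit 0x20385b8000)⟩,
    ⟨(nat_lit 0x900d9), (nat_lit 0x90079), (nat_lit 0x902af), (nat_lit 0x9024f)⟩,
    ⟨(nat_lit 0), (nat_lit 0), (nat_lit 0), (nat_lit 0)⟩,
    (nat_lit 0x90023), (nat_lit 0x902af)⟩)) (.nd (.lf ⟨⟨(nat_lit 0x20e26a5000), (nat_lit 0x20e2573000), (nat_lit 0x20e2b55000), (nat_lit 0x20e2a23000)⟩,
    ⟨(nat_lit 0xb00a5), (nat_lit 0xafec9), (nat_lit 0xb0705), (nat_lit 0xb0529)⟩,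
    ⟨(nat_lit 0), (nat_lit 0), (nat_lit 0), (nat_lit 0)⟩,
    ⟨(nat_lit 0x20e2627000), (nat_lit 0x20e24f5000), (nat_lit 0x20e2ad7000), (nat_lit 0x20e29a5000)⟩,
    ⟨(nat_lit 0xaffeb), (nat_lit 0xafe0f), (nat_lit 0xb064b), (nat_lit 0xb046f)⟩,
    ⟨(nat_lit 0x2143b9e000), (nat_lit 0x214392c000), (nat_lit 0x21444d2000), (nat_lit 0x2144260000)⟩,
    (nat_lit 0xafe0f), (nat_lit 0xb0705)⟩) (.lf ⟨⟨(nat_lit 0x2143c7e000), (nat_lit 0x2143a0c000), (nat_lit 0x21445b2000), (nat_lit 0x2144340000)⟩,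
    ⟨(nat_lit 0x526b9), (nat_lit 0x52579), (nat_lit 0x52b69), (nat_lit 0x52a29)⟩,
    ⟨(nat_lit 0x20e26a5000), (nat_lit 0x20e2573000), (nat_lit 0x20e2b55000), (nat_lit 0x20e2a23000)⟩,
    ⟨(nat_lit 0x2143b9e000), (nat_lit 0x214392c000), (nat_lit 0x21444d2000), (nat_lit 0x2144260000)⟩,
    ⟨(nat_lit 0x52729), (nat_lit 0x525e9), (nat_lit 0x52bd9), (nat_lit 0x52a99)⟩,
    ⟨(nat_lit 0), (nat_lit 0), (nat_lit 0), (nat_lit 0)⟩,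
    (nat_lit 0x52579), (nat_lit 0x52bd9)⟩))) (.nd (.nd (.lf ⟨⟨(nat_lit 0x20686f6000), (nat_lit 0x20686b4000), (nat_lit 0x20687f4000), (nat_lit 0x20687b2000)⟩,
    ⟨(nat_lit 0x3eebb), (nat_lit 0x3ee6d), (nat_lit 0x3f005), (nat_lit 0x3efb7)⟩,
    ⟨(nat_lit 0), (nat_lit 0), (nat_lit 0), (nat_lit 0)⟩,
    ⟨(nat_lit 0x20686c8000), (nat_lit 0x2068686000), (nat_lit 0x20687c6000), (nat_lit 0x2068784000)⟩,
    ⟨(nat_lit 0x3ee8d), (nat_lit 0x3ee3f), (nat_lit 0x3efd7), (nat_lit 0x3ef89)⟩,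
    ⟨(nat_lit 0x209b3ca000), (nat_lit 0x209b33a000), (nat_lit 0x209b5f2000), (nat_lit 0x209b562000)⟩,
    (nat_lit 0x3ee3f), (nat_lit 0x3f005)⟩) (.lf ⟨⟨(nat_lit 0x209b414000), (nat_lit 0x209b384000), (nat_lit 0x209b63c000), (nat_lit 0x209b5ac000)⟩,
    ⟨(nat_lit 0x3d051), (nat_lit 0x3cfdf), (nat_lit 0x3d1db), (nat_lit 0x3d169)⟩,
    ⟨(nat_lit 0x20686f6000), (nat_lit 0x20686b4000), (nat_lit 0x20687f4000), (nat_lit 0x20687b2000)⟩,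
    ⟨(nat_lit 0x209b3ca000), (nat_lit 0x209b33a000), (nat_lit 0x209b5f2000), (nat_lit 0x209b562000)⟩,
    ⟨(nat_lit 0x3d087), (nat_lit 0x3d015), (nat_lit 0x3d211), (nat_lit 0x3d19f)⟩,
    ⟨(nat_lit 0), (nat_lit 0), (nat_lit 0), (nat_lit 0)⟩,
    (nat_lit 0x3cfdf), (nat_lit 0x3d211)⟩)) (.nd (.lf ⟨⟨(nat_lit 0x2000000000), (nat_lit 0x2000000000), (nat_lit 0x2000000000), (nat_lit 0x2000000000)⟩,
    ⟨(nat_lit 0x100000), (nat_lit 0x100000), (nat_lit 0x100000), (nat_lit 0x100000)⟩,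
    ⟨(nat_lit 0), (nat_lit 0), (nat_lit 0), (nat_lit 0)⟩,
    ⟨(nat_lit 0x2000000000), (nat_lit 0x2000000000), (nat_lit 0x2000000000), (nat_lit 0x2000000000)⟩,
    ⟨(nat_lit 0x100000), (nat_lit 0x100000), (nat_lit 0x100000), (nat_lit 0x100000)⟩,
    ⟨(nat_lit 0x2143b9e000), (nat_lit 0x214392c000), (nat_lit 0x21444d2000), (nat_lit 0x2144260000)⟩,
    (nat_lit 0x100000), (nat_lit 0x100000)⟩) (.lf ⟨⟨(nat_lit 0x2143c7e000), (nat_lit 0x2143a0c000), (nat_lit 0x21445b2000), (nat_lit 0x2144340000)⟩,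
    ⟨(nat_lit 0x271d25), (nat_lit 0x2713af), (nat_lit 0x2740bd), (nat_lit 0x273747)⟩,
    ⟨(nat_lit 0x2000000000), (nat_lit 0x2000000000), (nat_lit 0x2000000000), (nat_lit 0x2000000000)⟩,
    ⟨(nat_lit 0x2143b9e000), (nat_lit 0x214392c000), (nat_lit 0x21444d2000), (nat_lit 0x2144260000)⟩,
    ⟨(nat_lit 0x27206d), (nat_lit 0x2716f7), (nat_lit 0x274405), (nat_lit 0x273a8f)⟩,
    ⟨(nat_lit 0), (nat_lit 0), (nat_lit 0), (nat_lit 0)⟩,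
    (nat_lit 0x2713af), (nat_lit 0x274405)⟩)))
  nx := .nd (.nd (.lf (nat_lit 42)) (.lf (nat_lit 83))) (.nd (.lf (nat_lit 113)) (.lf (nat_lit 68)))
  mir := (nat_lit 69)

noncomputable def cx69 : CtxD where
  sd := .nd (.nd (.nd (.lf ⟨⟨(nat_lit 0x2000000000), (nat_lit 0x2000000000), (nat_lit 0x2000000000), (nat_lit 0x2000000000)⟩,
    ⟨(nat_lit 0x21b72), (nat_lit 0x21b72), (nat_lit 0x21b72), (nat_lit 0x21b72)⟩,
    ⟨(nat_lit 0), (nat_lit 0), (nat_lit 0), (nat_lit 0)⟩,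
    ⟨(nat_lit 0x2000000000), (nat_lit 0x2000000000), (nat_lit 0x2000000000), (nat_lit 0x2000000000)⟩,
    ⟨(nat_lit 0x21b70), (nat_lit 0x21b70), (nat_lit 0x21b70), (nat_lit 0x21b70)⟩,
    ⟨(nat_lit 0x2027cb3000), (nat_lit 0x2027c9b000), (nat_lit 0x2027d1d000), (nat_lit 0x2027d05000)⟩,
    (nat_lit 0x21b70), (nat_lit 0x21b72)⟩) (.lf ⟨⟨(nat_lit 0x2027ccd000), (nat_lit 0x2027cb5000), (nat_lit 0x2027d37000), (nat_lit 0x2027d1f000)⟩,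
    ⟨(nat_lit 0x47e91), (nat_lit 0x47e3d), (nat_lit 0x4800d), (nat_lit 0x47fb9)⟩,
    ⟨(nat_lit 0x2000000000), (nat_lit 0x2000000000), (nat_lit 0x2000000000), (nat_lit 0x2000000000)⟩,
    ⟨(nat_lit 0x2027cb3000), (nat_lit 0x2027c9b000), (nat_lit 0x2027d1d000), (nat_lit 0x2027d05000)⟩,
    ⟨(nat_lit 0x47ed1), (nat_lit 0x47e7d), (nat_lit 0x4804d), (nat_lit 0x47ff9)⟩,
    ⟨(nat_lit 0), (nat_lit 0), (nat_lit 0), (nat_lit 0)⟩,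
    (nat_lit 0x47e3d), (nat_lit 0x4804d)⟩)) (.nd (.lf ⟨⟨(nat_lit 0x206d42a000), (nat_lit 0x206d37c000), (nat_lit 0x206d6c2000), (nat_lit 0x206d614000)⟩,
    ⟨(nat_lit 0x3ace5), (nat_lit 0x3ac29), (nat_lit 0x3af7d), (nat_lit 0x3aec1)⟩,
    ⟨(nat_lit 0), (nat_lit 0), (nat_lit 0), (nat_lit 0)⟩,
    ⟨(nat_lit 0x206d3d6000), (nat_lit 0x206d328000), (nat_lit 0x206d66e000), (nat_lit 0x206d5c0000)⟩,
    ⟨(nat_lit 0x3ac99), (nat_lit 0x3abdd), (nat_lit 0x3af31), (nat_lit 0x3ae75)⟩,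
    ⟨(nat_lit 0x20843a5000), (nat_lit 0x20842a5000), (nat_lit 0x2084767000), (nat_lit 0x2084667000)⟩,
    (nat_lit 0x3abdd), (nat_lit 0x3af7d)⟩) (.lf ⟨⟨(nat_lit 0x2084413000), (nat_lit 0x2084313000), (nat_lit 0x20847d5000), (nat_lit 0x20846d5000)⟩,
    ⟨(nat_lit 56323), (nat_lit 56269), (nat_lit 56523), (nat_lit 56469)⟩,
    ⟨(nat_lit 0x206d42a000), (nat_lit 0x206d37c000), (nat_lit 0x206d6c2000), (nat_lit 0x206d614000)⟩,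
    ⟨(nat_lit 0x20843a5000), (nat_lit 0x20842a5000), (nat_lit 0x2084767000), (nat_lit 0x2084667000)⟩,
    ⟨(nat_lit 56345), (nat_lit 56291), (nat_lit 56545), (nat_lit 56491)⟩,
    ⟨(nat_lit 0), (nat_lit 0), (nat_lit 0), (nat_lit 0)⟩,
    (nat_lit 56269), (nat_lit 56545)⟩))) (.nd (.nd (.lf ⟨⟨(nat_lit 0x2044e06000), (nat_lit 0x2044dc0000), (nat_lit 0x2044f10000), (nat_lit 0x2044eca000)⟩,
    ⟨(nat_lit 0x18ecf), (nat_lit 0x18e9d), (nat_lit 0x18f99), (nat_lit 0x18f67)⟩,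
    ⟨(nat_lit 0), (nat_lit 0), (nat_lit 0), (nat_lit 0)⟩,
    ⟨(nat_lit 0x2044dd8000), (nat_lit 0x2044d92000), (nat_lit 0x2044ee2000), (nat_lit 0x2044e9c000)⟩,
    ⟨(nat_lit 0x18eb5), (nat_lit 0x18e83), (nat_lit 0x18f7f), (nat_lit 0x18f4d)⟩,
    ⟨(nat_lit 0x20599d6000), (nat_lit 0x2059960000), (nat_lit 0x2059b92000), (nat_lit 0x2059b1c000)⟩,
    (nat_lit 0x18e83), (nat_lit 0x18f99)⟩) (.lf ⟨⟨(nat_lit 0x2059a16000), (nat_lit 0x20599a0000), (nat_lit 0x2059bd2000), (nat_lit 0x2059b5c000)⟩,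
    ⟨(nat_lit 0x19afb), (nat_lit 0x19ab7), (nat_lit 0x19be9), (nat_lit 0x19ba5)⟩,
    ⟨(nat_lit 0x2044e06000), (nat_lit 0x2044dc0000), (nat_lit 0x2044f10000), (nat_lit 0x2044eca000)⟩,
    ⟨(nat_lit 0x20599d6000), (nat_lit 0x2059960000), (nat_lit 0x2059b92000), (nat_lit 0x2059b1c000)⟩,
    ⟨(nat_lit 0x19b1b), (nat_lit 0x19ad7), (nat_lit 0x19c09), (nat_lit 0x19bc5)⟩,
    ⟨(nat_lit 0), (nat_lit 0), (nat_lit 0), (nat_lit 0)⟩,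
    (nat_lit 0x19ab7), (nat_lit 0x19c09)⟩)) (.nd (.lf ⟨⟨(nat_lit 0x2000000000), (nat_lit 0x2000000000), (nat_lit 0x2000000000), (nat_lit 0x2000000000)⟩,
    ⟨(nat_lit 0x100000), (nat_lit 0x100000), (nat_lit 0x100000), (nat_lit 0x100000)⟩,
    ⟨(nat_lit 0), (nat_lit 0), (nat_lit 0), (nat_lit 0)⟩,
    ⟨(nat_lit 0x2000000000), (nat_lit 0x2000000000), (nat_lit 0x2000000000), (nat_lit 0x2000000000)⟩,
    ⟨(nat_lit 0x100000), (nat_lit 0x100000), (nat_lit 0x100000), (nat_lit 0x100000)⟩,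
    ⟨(nat_lit 0x20843a5000), (nat_lit 0x20842a5000), (nat_lit 0x2084767000), (nat_lit 0x2084667000)⟩,
    (nat_lit 0x100000), (nat_lit 0x100000)⟩) (.lf ⟨⟨(nat_lit 0x2084413000), (nat_lit 0x2084313000), (nat_lit 0x20847d5000), (nat_lit 0x20846d5000)⟩,
    ⟨(nat_lit 0x6869a), (nat_lit 0x68506), (nat_lit 0x68c8a), (nat_lit 0x68af6)⟩,
    ⟨(nat_lit 0x2000000000), (nat_lit 0x2000000000), (nat_lit 0x2000000000), (nat_lit 0x2000000000)⟩,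
    ⟨(nat_lit 0x20843a5000), (nat_lit 0x20842a5000), (nat_lit 0x2084767000), (nat_lit 0x2084667000)⟩,
    ⟨(nat_lit 0x6872a), (nat_lit 0x68596), (nat_lit 0x68d1a), (nat_lit 0x68b86)⟩,
    ⟨(nat_lit 0), (nat_lit 0), (nat_lit 0), (nat_lit 0)⟩,
    (nat_lit 0x68506), (nat_lit 0x68d1a)⟩)))
  nx := .nd (.nd (.lf (nat_lit 82)) (.lf (nat_lit 43))) (.nd (.lf (nat_lit 112)) (.lf (nat_lit 69)))
  mir := (nat_lit 68)

noncomputable def cx70 : CtxD where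
  sd := .nd (.nd (.nd (.lf ⟨⟨(nat_lit 0x2000000000), (nat_lit 0x2000000000), (nat_lit 0x2000000000), (nat_lit 0x2000000000)⟩,
    ⟨(nat_lit 0x21b72), (nat_lit 0x21b72), (nat_lit 0x21b72), (nat_lit 0x21b72)⟩,
    ⟨(nat_lit 0), (nat_lit 0), (nat_lit 0), (nat_lit 0)⟩,
    ⟨(nat_lit 0x2000000000), (nat_lit 0x2000000000), (nat_lit 0x2000000000), (nat_lit 0x2000000000)⟩,
    ⟨(nat_lit 0x21b70), (nat_lit 0x21b70), (nat_lit 0x21b70), (nat_lit 0x21b70)⟩,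
    ⟨(nat_lit 0x2038373000), (nat_lit 0x203835b000), (nat_lit 0x20384b7000), (nat_lit 0x203849f000)⟩,
    (nat_lit 0x21b70), (nat_lit 0x21b72)⟩) (.lf ⟨⟨(nat_lit 0x203838d000), (nat_lit 0x2038375000), (nat_lit 0x20384d1000), (nat_lit 0x20384b9000)⟩,
    ⟨(nat_lit 0x8f60d), (nat_lit 0x8f58d), (nat_lit 0x8fcaf), (nat_lit 0x8fc2f)⟩,
    ⟨(nat_lit 0x2000000000), (nat_lit 0x2000000000), (nat_lit 0x2000000000), (nat_lit 0x2000000000)⟩,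
    ⟨(nat_lit 0x2038373000), (nat_lit 0x203835b000), (nat_lit 0x20384b7000), (nat_lit 0x203849f000)⟩,
    ⟨(nat_lit 0x8f671), (nat_lit 0x8f5f1), (nat_lit 0x8fd13), (nat_lit 0x8fc93)⟩,
    ⟨(nat_lit 0), (nat_lit 0), (nat_lit 0), (nat_lit 0)⟩,
    (nat_lit 0x8f58d), (nat_lit 0x8fd13)⟩)) (.nd (.lf ⟨⟨(nat_lit 0x20e0a61000), (nat_lit 0x20e08d1000), (nat_lit 0x20e1c83000), (nat_lit 0x20e1af3000)⟩,
    ⟨(nat_lit 0xad886), (nat_lit 0xad61c), (nat_lit 0xaf25c), (nat_lit 0xaeff2)⟩,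
    ⟨(nat_lit 0), (nat_lit 0), (nat_lit 0), (nat_lit 0)⟩,
    ⟨(nat_lit 0x20e09b7000), (nat_lit 0x20e0827000), (nat_lit 0x20e1bd9000), (nat_lit 0x20e1a49000)⟩,
    ⟨(nat_lit 0xad798), (nat_lit 0xad52e), (nat_lit 0xaf16e), (nat_lit 0xaef04)⟩,
    ⟨(nat_lit 0x2140346000), (nat_lit 0x2140018000), (nat_lit 0x2142738000), (nat_lit 0x214240a000)⟩,
    (nat_lit 0xad52e), (nat_lit 0xaf25c)⟩) (.lf ⟨⟨(nat_lit 0x2140476000), (nat_lit 0x2140148000), (nat_lit 0x2142868000), (nat_lit 0x214253a000)⟩,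
    ⟨(nat_lit 0x50a44), (nat_lit 0x508a8), (nat_lit 0x51c60), (nat_lit 0x51ac4)⟩,
    ⟨(nat_lit 0x20e0a61000), (nat_lit 0x20e08d1000), (nat_lit 0x20e1c83000), (nat_lit 0x20e1af3000)⟩,
    ⟨(nat_lit 0x2140346000), (nat_lit 0x2140018000), (nat_lit 0x2142738000), (nat_lit 0x214240a000)⟩,
    ⟨(nat_lit 0x50ad4), (nat_lit 0x50938), (nat_lit 0x51cf0), (nat_lit 0x51b54)⟩,
    ⟨(nat_lit 0), (nat_lit 0), (nat_lit 0), (nat_lit 0)⟩,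
    (nat_lit 0x508a8), (nat_lit 0x51cf0)⟩))) (.nd (.nd (.lf ⟨⟨(nat_lit 0x20680f3000), (nat_lit 0x206809d000), (nat_lit 0x20684d1000), (nat_lit 0x206847b000)⟩,
    ⟨(nat_lit 0x3e71c), (nat_lit 0x3e6b6), (nat_lit 0x3ebfe), (nat_lit 0x3eb98)⟩,
    ⟨(nat_lit 0), (nat_lit 0), (nat_lit 0), (nat_lit 0)⟩,
    ⟨(nat_lit 0x20680bb000), (nat_lit 0x2068065000), (nat_lit 0x2068499000), (nat_lit 0x2068443000)⟩,
    ⟨(nat_lit 0x3e6e2), (nat_lit 0x3e67c), (nat_lit 0x3ebc4), (nat_lit 0x3eb5e)⟩,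
    ⟨(nat_lit 0x209a68f000), (nat_lit 0x209a5d3000), (nat_lit 0x209af03000), (nat_lit 0x209ae47000)⟩,
    (nat_lit 0x3e67c), (nat_lit 0x3ebfe)⟩) (.lf ⟨⟨(nat_lit 0x209a6ef000), (nat_lit 0x209a633000), (nat_lit 0x209af63000), (nat_lit 0x209aea7000)⟩,
    ⟨(nat_lit 0x3c697), (nat_lit 0x3c603), (nat_lit 0x3ccd5), (nat_lit 0x3cc41)⟩,
    ⟨(nat_lit 0x20680f3000), (nat_lit 0x206809d000), (nat_lit 0x20684d1000), (nat_lit 0x206847b000)⟩,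
    ⟨(nat_lit 0x209a68f000), (nat_lit 0x209a5d3000), (nat_lit 0x209af03000), (nat_lit 0x209ae47000)⟩,
    ⟨(nat_lit 0x3c6d9), (nat_lit 0x3c645), (nat_lit 0x3cd17), (nat_lit 0x3cc83)⟩,
    ⟨(nat_lit 0), (nat_lit 0), (nat_lit 0), (nat_lit 0)⟩,
    (nat_lit 0x3c603), (nat_lit 0x3cd17)⟩)) (.nd (.lf ⟨⟨(nat_lit 0x2000000000), (nat_lit 0x2000000000), (nat_lit 0x2000000000), (nat_lit 0x2000000000)⟩,
    ⟨(nat_lit 0x100000), (nat_lit 0x100000), (nat_lit 0x100000), (nat_lit 0x100000)⟩,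
    ⟨(nat_lit 0), (nat_lit 0), (nat_lit 0), (nat_lit 0)⟩,
    ⟨(nat_lit 0x2000000000), (nat_lit 0x2000000000), (nat_lit 0x2000000000), (nat_lit 0x2000000000)⟩,
    ⟨(nat_lit 0x100000), (nat_lit 0x100000), (nat_lit 0x100000), (nat_lit 0x100000)⟩,
    ⟨(nat_lit 0x2140346000), (nat_lit 0x2140018000), (nat_lit 0x2142738000), (nat_lit 0x214240a000)⟩,
    (nat_lit 0x100000), (nat_lit 0x100000)⟩) (.lf ⟨⟨(nat_lit 0x2140476000), (nat_lit 0x2140148000), (nat_lit 0x2142868000), (nat_lit 0x214253a000)⟩,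
    ⟨(nat_lit 0x264513), (nat_lit 0x2638dd), (nat_lit 0x26ce9b), (nat_lit 0x26c265)⟩,
    ⟨(nat_lit 0x2000000000), (nat_lit 0x2000000000), (nat_lit 0x2000000000), (nat_lit 0x2000000000)⟩,
    ⟨(nat_lit 0x2140346000), (nat_lit 0x2140018000), (nat_lit 0x2142738000), (nat_lit 0x214240a000)⟩,
    ⟨(nat_lit 0x26494d), (nat_lit 0x263d17), (nat_lit 0x26d2d5), (nat_lit 0x26c69f)⟩,
    ⟨(nat_lit 0), (nat_lit 0), (nat_lit 0), (nat_lit 0)⟩,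
    (nat_lit 0x2638dd), (nat_lit 0x26d2d5)⟩)))
  nx := .nd (.nd (.lf (nat_lit 42)) (.lf (nat_lit 83))) (.nd (.lf (nat_lit 113)) (.lf (nat_lit 70)))
  mir := (nat_lit 71)

noncomputable def cx71 : CtxD where
  sd := .nd (.nd (.nd (.lf ⟨⟨(nat_lit 0x2000000000), (nat_lit 0x2000000000), (nat_lit 0x2000000000), (nat_lit 0x2000000000)⟩,
    ⟨(nat_lit 0x21b72), (nat_lit 0x21b72), (nat_lit 0x21b72), (nat_lit 0x21b72)⟩,
    ⟨(nat_lit 0), (nat_lit 0), (nat_lit 0), (nat_lit 0)⟩,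
    ⟨(nat_lit 0x2000000000), (nat_lit 0x2000000000), (nat_lit 0x2000000000), (nat_lit 0x2000000000)⟩,
    ⟨(nat_lit 0x21b70), (nat_lit 0x21b70), (nat_lit 0x21b70), (nat_lit 0x21b70)⟩,
    ⟨(nat_lit 0x2027e02000), (nat_lit 0x2027de4000), (nat_lit 0x2027f84000), (nat_lit 0x2027f66000)⟩,
    (nat_lit 0x21b70), (nat_lit 0x21b72)⟩) (.lf ⟨⟨(nat_lit 0x2027e1e000), (nat_lit 0x2027e00000), (nat_lit 0x2027fa0000), (nat_lit 0x2027f82000)⟩,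
    ⟨(nat_lit 0x4833d), (nat_lit 0x482cf), (nat_lit 0x488a7), (nat_lit 0x48839)⟩,
    ⟨(nat_lit 0x2000000000), (nat_lit 0x2000000000), (nat_lit 0x2000000000), (nat_lit 0x2000000000)⟩,
    ⟨(nat_lit 0x2027e02000), (nat_lit 0x2027de4000), (nat_lit 0x2027f84000), (nat_lit 0x2027f66000)⟩,
    ⟨(nat_lit 0x48387), (nat_lit 0x48319), (nat_lit 0x488f1), (nat_lit 0x48883)⟩,
    ⟨(nat_lit 0), (nat_lit 0), (nat_lit 0), (nat_lit 0)⟩,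
    (nat_lit 0x482cf), (nat_lit 0x488f1)⟩)) (.nd (.lf ⟨⟨(nat_lit 0x206dcb4000), (nat_lit 0x206dbce000), (nat_lit 0x206e6dc000), (nat_lit 0x206e5f6000)⟩,
    ⟨(nat_lit 0x3b59a), (nat_lit 0x3b4a0), (nat_lit 0x3c026), (nat_lit 0x3bf2c)⟩,
    ⟨(nat_lit 0), (nat_lit 0), (nat_lit 0), (nat_lit 0)⟩,
    ⟨(nat_lit 0x206dc46000), (nat_lit 0x206db60000), (nat_lit 0x206e66e000), (nat_lit 0x206e588000)⟩,
    ⟨(nat_lit 0x3b530), (nat_lit 0x3b436), (nat_lit 0x3bfbc), (nat_lit 0x3bec2)⟩,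
    ⟨(nat_lit 0x2084fea000), (nat_lit 0x2084e98000), (nat_lit 0x2085ec2000), (nat_lit 0x2085d70000)⟩,
    (nat_lit 0x3b436), (nat_lit 0x3c026)⟩) (.lf ⟨⟨(nat_lit 0x2085080000), (nat_lit 0x2084f2e000), (nat_lit 0x2085f58000), (nat_lit 0x2085e06000)⟩,
    ⟨(nat_lit 56979), (nat_lit 56907), (nat_lit 57779), (nat_lit 57707)⟩,
    ⟨(nat_lit 0x206dcb4000), (nat_lit 0x206dbce000), (nat_lit 0x206e6dc000), (nat_lit 0x206e5f6000)⟩,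
    ⟨(nat_lit 0x2084fea000), (nat_lit 0x2084e98000), (nat_lit 0x2085ec2000), (nat_lit 0x2085d70000)⟩,
    ⟨(nat_lit 57009), (nat_lit 56937), (nat_lit 57809), (nat_lit 57737)⟩,
    ⟨(nat_lit 0), (nat_lit 0), (nat_lit 0), (nat_lit 0)⟩,
    (nat_lit 56907), (nat_lit 57809)⟩))) (.nd (.nd (.lf ⟨⟨(nat_lit 0x204516f000), (nat_lit 0x2045113000), (nat_lit 0x2045575000), (nat_lit 0x2045519000)⟩,
    ⟨(nat_lit 0x19162), (nat_lit 0x19120), (nat_lit 0x19468), (nat_lit 0x19426)⟩,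
    ⟨(nat_lit 0), (nat_lit 0), (nat_lit 0), (nat_lit 0)⟩,
    ⟨(nat_lit 0x2045135000), (nat_lit 0x20450d9000), (nat_lit 0x204553b000), (nat_lit 0x20454df000)⟩,
    ⟨(nat_lit 0x19140), (nat_lit 0x190fe), (nat_lit 0x19446), (nat_lit 0x19404)⟩,
    ⟨(nat_lit 0x2059f7d000), (nat_lit 0x2059ee3000), (nat_lit 0x205a649000), (nat_lit 0x205a5af000)⟩,
    (nat_lit 0x190fe), (nat_lit 0x19468)⟩) (.lf ⟨⟨(nat_lit 0x2059fcf000), (nat_lit 0x2059f35000), (nat_lit 0x205a69b000), (nat_lit 0x205a601000)⟩,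
    ⟨(nat_lit 0x19e11), (nat_lit 0x19db7), (nat_lit 0x1a1d7), (nat_lit 0x1a17d)⟩,
    ⟨(nat_lit 0x204516f000), (nat_lit 0x2045113000), (nat_lit 0x2045575000), (nat_lit 0x2045519000)⟩,
    ⟨(nat_lit 0x2059f7d000), (nat_lit 0x2059ee3000), (nat_lit 0x205a649000), (nat_lit 0x205a5af000)⟩,
    ⟨(nat_lit 0x19e3b), (nat_lit 0x19de1), (nat_lit 0x1a201), (nat_lit 0x1a1a7)⟩,
    ⟨(nat_lit 0), (nat_lit 0), (nat_lit 0), (nat_lit 0)⟩,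
    (nat_lit 0x19db7), (nat_lit 0x1a201)⟩)) (.nd (.lf ⟨⟨(nat_lit 0x2000000000), (nat_lit 0x2000000000), (nat_lit 0x2000000000), (nat_lit 0x2000000000)⟩,
    ⟨(nat_lit 0x100000), (nat_lit 0x100000), (nat_lit 0x100000), (nat_lit 0x100000)⟩,
    ⟨(nat_lit 0), (nat_lit 0), (nat_lit 0), (nat_lit 0)⟩,
    ⟨(nat_lit 0x2000000000), (nat_lit 0x2000000000), (nat_lit 0x2000000000), (nat_lit 0x2000000000)⟩,
    ⟨(nat_lit 0x100000), (nat_lit 0x100000), (nat_lit 0x100000), (nat_lit 0x100000)⟩,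
    ⟨(nat_lit 0x2084fea000), (nat_lit 0x2084e98000), (nat_lit 0x2085ec2000), (nat_lit 0x2085d70000)⟩,
    (nat_lit 0x100000), (nat_lit 0x100000)⟩) (.lf ⟨⟨(nat_lit 0x2085080000), (nat_lit 0x2084f2e000), (nat_lit 0x2085f58000), (nat_lit 0x2085e06000)⟩,
    ⟨(nat_lit 0x69a0b), (nat_lit 0x697ef), (nat_lit 0x6b1c5), (nat_lit 0x6afa9)⟩,
    ⟨(nat_lit 0x2000000000), (nat_lit 0x2000000000), (nat_lit 0x2000000000), (nat_lit 0x2000000000)⟩,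
    ⟨(nat_lit 0x2084fea000), (nat_lit 0x2084e98000), (nat_lit 0x2085ec2000), (nat_lit 0x2085d70000)⟩,
    ⟨(nat_lit 0x69adf), (nat_lit 0x698c3), (nat_lit 0x6b299), (nat_lit 0x6b07d)⟩,
    ⟨(nat_lit 0), (nat_lit 0), (nat_lit 0), (nat_lit 0)⟩,
    (nat_lit 0x697ef), (nat_lit 0x6b299)⟩)))
  nx := .nd (.nd (.lf (nat_lit 82)) (.lf (nat_lit 43))) (.nd (.lf (nat_lit 112)) (.lf (nat_lit 71)))
  mir := (nat_lit 70)

noncomputable def cx72 : CtxD where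
  sd := .nd (.nd (.nd (.lf ⟨⟨(nat_lit 0x2000000000), (nat_lit 0x2000000000), (nat_lit 0x2000000000), (nat_lit 0x2000000000)⟩,
    ⟨(nat_lit 0x21b72), (nat_lit 0x21b72), (nat_lit 0x21b72), (nat_lit 0x21b72)⟩,
    ⟨(nat_lit 0), (nat_lit 0), (nat_lit 0), (nat_lit 0)⟩,
    ⟨(nat_lit 0x2000000000), (nat_lit 0x2000000000), (nat_lit 0x2000000000), (nat_lit 0x2000000000)⟩,
    ⟨(nat_lit 0x21b70), (nat_lit 0x21b70), (nat_lit 0x21b70), (nat_lit 0x21b70)⟩,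
    ⟨(nat_lit 0x2037fb8000), (nat_lit 0x2037f88000), (nat_lit 0x2038166000), (nat_lit 0x2038136000)⟩,
    (nat_lit 0x21b70), (nat_lit 0x21b72)⟩) (.lf ⟨⟨(nat_lit 0x2037fda000), (nat_lit 0x2037faa000), (nat_lit 0x2038188000), (nat_lit 0x2038158000)⟩,
    ⟨(nat_lit 0x8e243), (nat_lit 0x8e14d), (nat_lit 0x8eb37), (nat_lit 0x8ea41)⟩,
    ⟨(nat_lit 0x2000000000), (nat_lit 0x2000000000), (nat_lit 0x2000000000), (nat_lit 0x2000000000)⟩,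
    ⟨(nat_lit 0x2037fb8000), (nat_lit 0x2037f88000), (nat_lit 0x2038166000), (nat_lit 0x2038136000)⟩,
    ⟨(nat_lit 0x8e2c3), (nat_lit 0x8e1cd), (nat_lit 0x8ebb7), (nat_lit 0x8eac1)⟩,
    ⟨(nat_lit 0), (nat_lit 0), (nat_lit 0), (nat_lit 0)⟩,
    (nat_lit 0x8e14d), (nat_lit 0x8ebb7)⟩)) (.nd (.lf ⟨⟨(nat_lit 0x20dda97000), (nat_lit 0x20dd79b000), (nat_lit 0x20def71000), (nat_lit 0x20dec75000)⟩,
    ⟨(nat_lit 0xa99fe), (nat_lit 0xa956c), (nat_lit 0xab450), (nat_lit 0xaafbe)⟩,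
    ⟨(nat_lit 0), (nat_lit 0), (nat_lit 0), (nat_lit 0)⟩,
    ⟨(nat_lit 0x20dd973000), (nat_lit 0x20dd677000), (nat_lit 0x20dee4d000), (nat_lit 0x20deb51000)⟩,
    ⟨(nat_lit 0xa9866), (nat_lit 0xa93d4), (nat_lit 0xab2b8), (nat_lit 0xaae26)⟩,
    ⟨(nat_lit 0x213a681000), (nat_lit 0x213a07d000), (nat_lit 0x213ce05000), (nat_lit 0x213c801000)⟩,
    (nat_lit 0xa93d4), (nat_lit 0xab450)⟩) (.lf ⟨⟨(nat_lit 0x213a8a9000), (nat_lit 0x213a2a5000), (nat_lit 0x213d02d000), (nat_lit 0x213ca29000)⟩,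
    ⟨(nat_lit 0x4dc5a), (nat_lit 0x4d95e), (nat_lit 0x4efb4), (nat_lit 0x4ecb8)⟩,
    ⟨(nat_lit 0x20dda97000), (nat_lit 0x20dd79b000), (nat_lit 0x20def71000), (nat_lit 0x20dec75000)⟩,
    ⟨(nat_lit 0x213a681000), (nat_lit 0x213a07d000), (nat_lit 0x213ce05000), (nat_lit 0x213c801000)⟩,
    ⟨(nat_lit 0x4dd62), (nat_lit 0x4da66), (nat_lit 0x4f0bc), (nat_lit 0x4edc0)⟩,
    ⟨(nat_lit 0), (nat_lit 0), (nat_lit 0), (nat_lit 0)⟩,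
    (nat_lit 0x4d95e), (nat_lit 0x4f0bc)⟩))) (.nd (.nd (.lf ⟨⟨(nat_lit 0x20676a3000), (nat_lit 0x20675fd000), (nat_lit 0x2067b2b000), (nat_lit 0x2067a85000)⟩,
    ⟨(nat_lit 0x3d9aa), (nat_lit 0x3d8e4), (nat_lit 0x3dfa0), (nat_lit 0x3deda)⟩,
    ⟨(nat_lit 0), (nat_lit 0), (nat_lit 0), (nat_lit 0)⟩,
    ⟨(nat_lit 0x2067651000), (nat_lit 0x20675ab000), (nat_lit 0x2067ad9000), (nat_lit 0x2067a33000)⟩,
    ⟨(nat_lit 0x3d958), (nat_lit 0x3d892), (nat_lit 0x3df4e), (nat_lit 0x3de88)⟩,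
    ⟨(nat_lit 0x2099018000), (nat_lit 0x2098eac000), (nat_lit 0x20999d0000), (nat_lit 0x2099864000)⟩,
    (nat_lit 0x3d892), (nat_lit 0x3dfa0)⟩) (.lf ⟨⟨(nat_lit 0x20990b2000), (nat_lit 0x2098f46000), (nat_lit 0x2099a6a000), (nat_lit 0x20998fe000)⟩,
    ⟨(nat_lit 0x3b705), (nat_lit 0x3b5eb), (nat_lit 0x3bd95), (nat_lit 0x3bc7b)⟩,
    ⟨(nat_lit 0x20676a3000), (nat_lit 0x20675fd000), (nat_lit 0x2067b2b000), (nat_lit 0x2067a85000)⟩,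
    ⟨(nat_lit 0x2099018000), (nat_lit 0x2098eac000), (nat_lit 0x20999d0000), (nat_lit 0x2099864000)⟩,
    ⟨(nat_lit 0x3b76d), (nat_lit 0x3b653), (nat_lit 0x3bdfd), (nat_lit 0x3bce3)⟩,
    ⟨(nat_lit 0), (nat_lit 0), (nat_lit 0), (nat_lit 0)⟩,
    (nat_lit 0x3b5eb), (nat_lit 0x3bdfd)⟩)) (.nd (.lf ⟨⟨(nat_lit 0x2000000000), (nat_lit 0x2000000000), (nat_lit 0x2000000000), (nat_lit 0x2000000000)⟩,
    ⟨(nat_lit 0x100000), (nat_lit 0x100000), (nat_lit 0x100000), (nat_lit 0x100000)⟩,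
    ⟨(nat_lit 0), (nat_lit 0), (nat_lit 0), (nat_lit 0)⟩,
    ⟨(nat_lit 0x2000000000), (nat_lit 0x2000000000), (nat_lit 0x2000000000), (nat_lit 0x2000000000)⟩,
    ⟨(nat_lit 0x100000), (nat_lit 0x100000), (nat_lit 0x100000), (nat_lit 0x100000)⟩,
    ⟨(nat_lit 0x213a681000), (nat_lit 0x213a07d000), (nat_lit 0x213ce05000), (nat_lit 0x213c801000)⟩,
    (nat_lit 0x100000), (nat_lit 0x100000)⟩) (.lf ⟨⟨(nat_lit 0x213a8a9000), (nat_lit 0x213a2a5000), (nat_lit 0x213d02d000), (nat_lit 0x213ca29000)⟩,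
    ⟨(nat_lit 0x24e87c), (nat_lit 0x24d1d2), (nat_lit 0x257b66), (nat_lit 0x2564bc)⟩,
    ⟨(nat_lit 0x2000000000), (nat_lit 0x2000000000), (nat_lit 0x2000000000), (nat_lit 0x2000000000)⟩,
    ⟨(nat_lit 0x213a681000), (nat_lit 0x213a07d000), (nat_lit 0x213ce05000), (nat_lit 0x213c801000)⟩,
    ⟨(nat_lit 0x24f046), (nat_lit 0x24d99c), (nat_lit 0x258330), (nat_lit 0x256c86)⟩,
    ⟨(nat_lit 0), (nat_lit 0), (nat_lit 0), (nat_lit 0)⟩,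
    (nat_lit 0x24d1d2), (nat_lit 0x258330)⟩)))
  nx := .nd (.nd (.lf (nat_lit 44)) (.lf (nat_lit 79))) (.nd (.lf (nat_lit 113)) (.lf (nat_lit 72)))
  mir := (nat_lit 73)

noncomputable def cx73 : CtxD where
  sd := .nd (.nd (.nd (.lf ⟨⟨(nat_lit 0x2000000000), (nat_lit 0x2000000000), (nat_lit 0x2000000000), (nat_lit 0x2000000000)⟩,
    ⟨(nat_lit 0x21b72), (nat_lit 0x21b72), (nat_lit 0x21b72), (nat_lit 0x21b72)⟩,
    ⟨(nat_lit 0), (nat_lit 0), (nat_lit 0), (nat_lit 0)⟩,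
    ⟨(nat_lit 0x2000000000), (nat_lit 0x2000000000), (nat_lit 0x2000000000), (nat_lit 0x2000000000)⟩,
    ⟨(nat_lit 0x21b70), (nat_lit 0x21b70), (nat_lit 0x21b70), (nat_lit 0x21b70)⟩,
    ⟨(nat_lit 0x20281fe000), (nat_lit 0x20281c4000), (nat_lit 0x20283e2000), (nat_lit 0x20283a8000)⟩,
    (nat_lit 0x21b70), (nat_lit 0x21b72)⟩) (.lf ⟨⟨(nat_lit 0x2028226000), (nat_lit 0x20281ec000), (nat_lit 0x202840a000), (nat_lit 0x20283d0000)⟩,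
    ⟨(nat_lit 0x4918c), (nat_lit 0x490b8), (nat_lit 0x49854), (nat_lit 0x49780)⟩,
    ⟨(nat_lit 0x2000000000), (nat_lit 0x2000000000), (nat_lit 0x2000000000), (nat_lit 0x2000000000)⟩,
    ⟨(nat_lit 0x20281fe000), (nat_lit 0x20281c4000), (nat_lit 0x20283e2000), (nat_lit 0x20283a8000)⟩,
    ⟨(nat_lit 0x491f4), (nat_lit 0x49120), (nat_lit 0x498bc), (nat_lit 0x497e8)⟩,
    ⟨(nat_lit 0), (nat_lit 0), (nat_lit 0), (nat_lit 0)⟩,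
    (nat_lit 0x490b8), (nat_lit 0x498bc)⟩)) (.nd (.lf ⟨⟨(nat_lit 0x206f6f1000), (nat_lit 0x206f531000), (nat_lit 0x2070243000), (nat_lit 0x2070083000)⟩,
    ⟨(nat_lit 0x3d092), (nat_lit 0x3cea6), (nat_lit 0x3dbde), (nat_lit 0x3d9f2)⟩,
    ⟨(nat_lit 0), (nat_lit 0), (nat_lit 0), (nat_lit 0)⟩,
    ⟨(nat_lit 0x206f63d000), (nat_lit 0x206f47d000), (nat_lit 0x207018f000), (nat_lit 0x206ffcf000)⟩,
    ⟨(nat_lit 0x3cfe6), (nat_lit 0x3cdfa), (nat_lit 0x3db32), (nat_lit 0x3d946)⟩,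
    ⟨(nat_lit 0x20875de000), (nat_lit 0x2087348000), (nat_lit 0x208866c000), (nat_lit 0x20883d6000)⟩,
    (nat_lit 0x3cdfa), (nat_lit 0x3dbde)⟩) (.lf ⟨⟨(nat_lit 0x20876d8000), (nat_lit 0x2087442000), (nat_lit 0x2088766000), (nat_lit 0x20884d0000)⟩,
    ⟨(nat_lit 59040), (nat_lit 58898), (nat_lit 59958), (nat_lit 59816)⟩,
    ⟨(nat_lit 0x206f6f1000), (nat_lit 0x206f531000), (nat_lit 0x2070243000), (nat_lit 0x2070083000)⟩,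
    ⟨(nat_lit 0x20875de000), (nat_lit 0x2087348000), (nat_lit 0x208866c000), (nat_lit 0x20883d6000)⟩,
    ⟨(nat_lit 59088), (nat_lit 58946), (nat_lit 60006), (nat_lit 59864)⟩,
    ⟨(nat_lit 0), (nat_lit 0), (nat_lit 0), (nat_lit 0)⟩,
    (nat_lit 58898), (nat_lit 60006)⟩))) (.nd (.nd (.lf ⟨⟨(nat_lit 0x2045bcc000), (nat_lit 0x2045b1c000), (nat_lit 0x204603a000), (nat_lit 0x2045f8a000)⟩,
    ⟨(nat_lit 0x19947), (nat_lit 0x198c7), (nat_lit 0x19ccb), (nat_lit 0x19c4b)⟩,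
    ⟨(nat_lit 0), (nat_lit 0), (nat_lit 0), (nat_lit 0)⟩,
    ⟨(nat_lit 0x2045b74000), (nat_lit 0x2045ac4000), (nat_lit 0x2045fe2000), (nat_lit 0x2045f32000)⟩,
    ⟨(nat_lit 0x19913), (nat_lit 0x19893), (nat_lit 0x19c97), (nat_lit 0x19c17)⟩,
    ⟨(nat_lit 0x205b0d2000), (nat_lit 0x205afa6000), (nat_lit 0x205b850000), (nat_lit 0x205b724000)⟩,
    (nat_lit 0x19893), (nat_lit 0x19ccb)⟩) (.lf ⟨⟨(nat_lit 0x205b154000), (nat_lit 0x205b028000), (nat_lit 0x205b8d2000), (nat_lit 0x205b7a6000)⟩,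
    ⟨(nat_lit 0x1a799), (nat_lit 0x1a6eb), (nat_lit 0x1ab99), (nat_lit 0x1aaeb)⟩,
    ⟨(nat_lit 0x2045bcc000), (nat_lit 0x2045b1c000), (nat_lit 0x204603a000), (nat_lit 0x2045f8a000)⟩,
    ⟨(nat_lit 0x205b0d2000), (nat_lit 0x205afa6000), (nat_lit 0x205b850000), (nat_lit 0x205b724000)⟩,
    ⟨(nat_lit 0x1a7db), (nat_lit 0x1a72d), (nat_lit 0x1abdb), (nat_lit 0x1ab2d)⟩,
    ⟨(nat_lit 0), (nat_lit 0), (nat_lit 0), (nat_lit 0)⟩,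
    (nat_lit 0x1a6eb), (nat_lit 0x1abdb)⟩)) (.nd (.lf ⟨⟨(nat_lit 0x2000000000), (nat_lit 0x2000000000), (nat_lit 0x2000000000), (nat_lit 0x2000000000)⟩,
    ⟨(nat_lit 0x100000), (nat_lit 0x100000), (nat_lit 0x100000), (nat_lit 0x100000)⟩,
    ⟨(nat_lit 0), (nat_lit 0), (nat_lit 0), (nat_lit 0)⟩,
    ⟨(nat_lit 0x2000000000), (nat_lit 0x2000000000), (nat_lit 0x2000000000), (nat_lit 0x2000000000)⟩,
    ⟨(nat_lit 0x100000), (nat_lit 0x100000), (nat_lit 0x100000), (nat_lit 0x100000)⟩,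
    ⟨(nat_lit 0x20875de000), (nat_lit 0x2087348000), (nat_lit 0x208866c000), (nat_lit 0x20883d6000)⟩,
    (nat_lit 0x100000), (nat_lit 0x100000)⟩) (.lf ⟨⟨(nat_lit 0x20876d8000), (nat_lit 0x2087442000), (nat_lit 0x2088766000), (nat_lit 0x20884d0000)⟩,
    ⟨(nat_lit 0x6d731), (nat_lit 0x6d2fd), (nat_lit 0x6f26f), (nat_lit 0x6ee3b)⟩,
    ⟨(nat_lit 0x2000000000), (nat_lit 0x2000000000), (nat_lit 0x2000000000), (nat_lit 0x2000000000)⟩,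
    ⟨(nat_lit 0x20875de000), (nat_lit 0x2087348000), (nat_lit 0x208866c000), (nat_lit 0x20883d6000)⟩,
    ⟨(nat_lit 0x6d889), (nat_lit 0x6d455), (nat_lit 0x6f3c7), (nat_lit 0x6ef93)⟩,
    ⟨(nat_lit 0), (nat_lit 0), (nat_lit 0), (nat_lit 0)⟩,
    (nat_lit 0x6d2fd), (nat_lit 0x6f3c7)⟩)))
  nx := .nd (.nd (.lf (nat_lit 78)) (.lf (nat_lit 45))) (.nd (.lf (nat_lit 112)) (.lf (nat_lit 73)))
  mir := (nat_lit 72)

noncomputable def cx74 : CtxD where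
  sd := .nd (.nd (.nd (.lf ⟨⟨(nat_lit 0x2000000000), (nat_lit 0x2000000000), (nat_lit 0x2000000000), (nat_lit 0x2000000000)⟩,
    ⟨(nat_lit 0x21b72), (nat_lit 0x21b72), (nat_lit 0x21b72), (nat_lit 0x21b72)⟩,
    ⟨(nat_lit 0), (nat_lit 0), (nat_lit 0), (nat_lit 0)⟩,
    ⟨(nat_lit 0x2000000000), (nat_lit 0x2000000000), (nat_lit 0x2000000000), (nat_lit 0x2000000000)⟩,
    ⟨(nat_lit 0x21b70), (nat_lit 0x21b70), (nat_lit 0x21b70), (nat_lit 0x21b70)⟩,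
    ⟨(nat_lit 0x2037c69000), (nat_lit 0x2037c57000), (nat_lit 0x2037cc3000), (nat_lit 0x2037cb1000)⟩,
    (nat_lit 0x21b70), (nat_lit 0x21b72)⟩) (.lf ⟨⟨(nat_lit 0x2037c83000), (nat_lit 0x2037c71000), (nat_lit 0x2037cdd000), (nat_lit 0x2037ccb000)⟩,
    ⟨(nat_lit 0x8d0e8), (nat_lit 0x8d08a), (nat_lit 0x8d2b6), (nat_lit 0x8d258)⟩,
    ⟨(nat_lit 0x2000000000), (nat_lit 0x2000000000), (nat_lit 0x2000000000), (nat_lit 0x2000000000)⟩,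
    ⟨(nat_lit 0x2037c69000), (nat_lit 0x2037c57000), (nat_lit 0x2037cc3000), (nat_lit 0x2037cb1000)⟩,
    ⟨(nat_lit 0x8d14a), (nat_lit 0x8d0ec), (nat_lit 0x8d318), (nat_lit 0x8d2ba)⟩,
    ⟨(nat_lit 0), (nat_lit 0), (nat_lit 0), (nat_lit 0)⟩,
    (nat_lit 0x8d08a), (nat_lit 0x8d318)⟩)) (.nd (.lf ⟨⟨(nat_lit 0x20daf2f000), (nat_lit 0x20dae15000), (nat_lit 0x20db405000), (nat_lit 0x20db2eb000)⟩,
    ⟨(nat_lit 0xa605f), (nat_lit 0xa5eb3), (nat_lit 0xa6727), (nat_lit 0xa657b)⟩,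
    ⟨(nat_lit 0), (nat_lit 0), (nat_lit 0), (nat_lit 0)⟩,
    ⟨(nat_lit 0x20daea5000), (nat_lit 0x20dad8b000), (nat_lit 0x20db37b000), (nat_lit 0x20db261000)⟩,
    ⟨(nat_lit 0xa5fa1), (nat_lit 0xa5df5), (nat_lit 0xa6669), (nat_lit 0xa64bd)⟩,
    ⟨(nat_lit 0x21354a6000), (nat_lit 0x2135272000), (nat_lit 0x2135e0c000), (nat_lit 0x2135bd8000)⟩,
    (nat_lit 0xa5df5), (nat_lit 0xa6727)⟩) (.lf ⟨⟨(nat_lit 0x2135590000), (nat_lit 0x213535c000), (nat_lit 0x2135ef6000), (nat_lit 0x2135cc2000)⟩,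
    ⟨(nat_lit 0x4b4c9), (nat_lit 0x4b3b7), (nat_lit 0x4b955), (nat_lit 0x4b843)⟩,
    ⟨(nat_lit 0x20daf2f000), (nat_lit 0x20dae15000), (nat_lit 0x20db405000), (nat_lit 0x20db2eb000)⟩,
    ⟨(nat_lit 0x21354a6000), (nat_lit 0x2135272000), (nat_lit 0x2135e0c000), (nat_lit 0x2135bd8000)⟩,
    ⟨(nat_lit 0x4b537), (nat_lit 0x4b425), (nat_lit 0x4b9c3), (nat_lit 0x4b8b1)⟩,
    ⟨(nat_lit 0), (nat_lit 0), (nat_lit 0), (nat_lit 0)⟩,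
    (nat_lit 0x4b3b7), (nat_lit 0x4b9c3)⟩))) (.nd (.nd (.lf ⟨⟨(nat_lit 0x2066d13000), (nat_lit 0x2066cd5000), (nat_lit 0x2066e25000), (nat_lit 0x2066de7000)⟩,
    ⟨(nat_lit 0x3cd88), (nat_lit 0x3cd3e), (nat_lit 0x3ceda), (nat_lit 0x3ce90)⟩,
    ⟨(nat_lit 0), (nat_lit 0), (nat_lit 0), (nat_lit 0)⟩,
    ⟨(nat_lit 0x2066cdf000), (nat_lit 0x2066ca1000), (nat_lit 0x2066df1000), (nat_lit 0x2066db3000)⟩,
    ⟨(nat_lit 0x3cd54), (nat_lit 0x3cd0a), (nat_lit 0x3cea6), (nat_lit 0x3ce5c)⟩,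
    ⟨(nat_lit 0x2097bd9000), (nat_lit 0x2097b51000), (nat_lit 0x2097e27000), (nat_lit 0x2097d9f000)⟩,
    (nat_lit 0x3cd0a), (nat_lit 0x3ceda)⟩) (.lf ⟨⟨(nat_lit 0x2097c2b000), (nat_lit 0x2097ba3000), (nat_lit 0x2097e79000), (nat_lit 0x2097df1000)⟩,
    ⟨(nat_lit 0x3a8d6), (nat_lit 0x3a86e), (nat_lit 0x3aa84), (nat_lit 0x3aa1c)⟩,
    ⟨(nat_lit 0x2066d13000), (nat_lit 0x2066cd5000), (nat_lit 0x2066e25000), (nat_lit 0x2066de7000)⟩,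
    ⟨(nat_lit 0x2097bd9000), (nat_lit 0x2097b51000), (nat_lit 0x2097e27000), (nat_lit 0x2097d9f000)⟩,
    ⟨(nat_lit 0x3a90e), (nat_lit 0x3a8a6), (nat_lit 0x3aabc), (nat_lit 0x3aa54)⟩,
    ⟨(nat_lit 0), (nat_lit 0), (nat_lit 0), (nat_lit 0)⟩,
    (nat_lit 0x3a86e), (nat_lit 0x3aabc)⟩)) (.nd (.lf ⟨⟨(nat_lit 0x2000000000), (nat_lit 0x2000000000), (nat_lit 0x2000000000), (nat_lit 0x2000000000)⟩,
    ⟨(nat_lit 0x100000), (nat_lit 0x100000), (nat_lit 0x100000), (nat_lit 0x100000)⟩,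
    ⟨(nat_lit 0), (nat_lit 0), (nat_lit 0), (nat_lit 0)⟩,
    ⟨(nat_lit 0x2000000000), (nat_lit 0x2000000000), (nat_lit 0x2000000000), (nat_lit 0x2000000000)⟩,
    ⟨(nat_lit 0x100000), (nat_lit 0x100000), (nat_lit 0x100000), (nat_lit 0x100000)⟩,
    ⟨(nat_lit 0x21354a6000), (nat_lit 0x2135272000), (nat_lit 0x2135e0c000), (nat_lit 0x2135bd8000)⟩,
    (nat_lit 0x100000), (nat_lit 0x100000)⟩) (.lf ⟨⟨(nat_lit 0x2135590000), (nat_lit 0x213535c000), (nat_lit 0x2135ef6000), (nat_lit 0x2135cc2000)⟩,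
    ⟨(nat_lit 0x23bc0e), (nat_lit 0x23b3f2), (nat_lit 0x23de8e), (nat_lit 0x23d672)⟩,
    ⟨(nat_lit 0x2000000000), (nat_lit 0x2000000000), (nat_lit 0x2000000000), (nat_lit 0x2000000000)⟩,
    ⟨(nat_lit 0x21354a6000), (nat_lit 0x2135272000), (nat_lit 0x2135e0c000), (nat_lit 0x2135bd8000)⟩,
    ⟨(nat_lit 0x23bf3e), (nat_lit 0x23b722), (nat_lit 0x23e1be), (nat_lit 0x23d9a2)⟩,
    ⟨(nat_lit 0), (nat_lit 0), (nat_lit 0), (nat_lit 0)⟩,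
    (nat_lit 0x23b3f2), (nat_lit 0x23e1be)⟩)))
  nx := .nd (.nd (.lf (nat_lit 46)) (.lf (nat_lit 81))) (.nd (.lf (nat_lit 113)) (.lf (nat_lit 74)))
  mir := (nat_lit 75)

noncomputable def cx75 : CtxD where
  sd := .nd (.nd (.nd (.lf ⟨⟨(nat_lit 0x2000000000), (nat_lit 0x2000000000), (nat_lit 0x2000000000), (nat_lit 0x2000000000)⟩,
    ⟨(nat_lit 0x21b72), (nat_lit 0x21b72), (nat_lit 0x21b72), (nat_lit 0x21b72)⟩,
    ⟨(nat_lit 0), (nat_lit 0), (nat_lit 0), (nat_lit 0)⟩,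
    ⟨(nat_lit 0x2000000000), (nat_lit 0x2000000000), (nat_lit 0x2000000000), (nat_lit 0x2000000000)⟩,
    ⟨(nat_lit 0x21b70), (nat_lit 0x21b70), (nat_lit 0x21b70), (nat_lit 0x21b70)⟩,
    ⟨(nat_lit 0x202870b000), (nat_lit 0x20286f5000), (nat_lit 0x2028771000), (nat_lit 0x202875b000)⟩,
    (nat_lit 0x21b70), (nat_lit 0x21b72)⟩) (.lf ⟨⟨(nat_lit 0x2028727000), (nat_lit 0x2028711000), (nat_lit 0x202878d000), (nat_lit 0x2028777000)⟩,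
    ⟨(nat_lit 0x4a3bb), (nat_lit 0x4a36d), (nat_lit 0x4a52d), (nat_lit 0x4a4df)⟩,
    ⟨(nat_lit 0x2000000000), (nat_lit 0x2000000000), (nat_lit 0x2000000000), (nat_lit 0x2000000000)⟩,
    ⟨(nat_lit 0x202870b000), (nat_lit 0x20286f5000), (nat_lit 0x2028771000), (nat_lit 0x202875b000)⟩,
    ⟨(nat_lit 0x4a3ff), (nat_lit 0x4a3b1), (nat_lit 0x4a571), (nat_lit 0x4a523)⟩,
    ⟨(nat_lit 0), (nat_lit 0), (nat_lit 0), (nat_lit 0)⟩,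
    (nat_lit 0x4a36d), (nat_lit 0x4a571)⟩)) (.nd (.lf ⟨⟨(nat_lit 0x2071611000), (nat_lit 0x2071569000), (nat_lit 0x20718db000), (nat_lit 0x2071833000)⟩,
    ⟨(nat_lit 0x3f056), (nat_lit 0x3ef9a), (nat_lit 0x3f354), (nat_lit 0x3f298)⟩,
    ⟨(nat_lit 0), (nat_lit 0), (nat_lit 0), (nat_lit 0)⟩,
    ⟨(nat_lit 0x20715b9000), (nat_lit 0x2071511000), (nat_lit 0x2071883000), (nat_lit 0x20717db000)⟩,
    ⟨(nat_lit 0x3f000), (nat_lit 0x3ef44), (nat_lit 0x3f2fe), (nat_lit 0x3f242)⟩,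
    ⟨(nat_lit 0x208a429000), (nat_lit 0x208a32f000), (nat_lit 0x208a84b000), (nat_lit 0x208a751000)⟩,
    (nat_lit 0x3ef44), (nat_lit 0x3f354)⟩) (.lf ⟨⟨(nat_lit 0x208a4a1000), (nat_lit 0x208a3a7000), (nat_lit 0x208a8c3000), (nat_lit 0x208a7c9000)⟩,
    ⟨(nat_lit 61631), (nat_lit 61577), (nat_lit 61863), (nat_lit 61809)⟩,
    ⟨(nat_lit 0x2071611000), (nat_lit 0x2071569000), (nat_lit 0x20718db000), (nat_lit 0x2071833000)⟩,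
    ⟨(nat_lit 0x208a429000), (nat_lit 0x208a32f000), (nat_lit 0x208a84b000), (nat_lit 0x208a751000)⟩,
    ⟨(nat_lit 61655), (nat_lit 61601), (nat_lit 61887), (nat_lit 61833)⟩,
    ⟨(nat_lit 0), (nat_lit 0), (nat_lit 0), (nat_lit 0)⟩,
    (nat_lit 61577), (nat_lit 61887)⟩))) (.nd (.nd (.lf ⟨⟨(nat_lit 0x20467e2000), (nat_lit 0x20467a2000), (nat_lit 0x20468f6000), (nat_lit 0x20468b6000)⟩,
    ⟨(nat_lit 0x1a2db), (nat_lit 0x1a2ab), (nat_lit 0x1a3af), (nat_lit 0x1a37f)⟩,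
    ⟨(nat_lit 0), (nat_lit 0), (nat_lit 0), (nat_lit 0)⟩,
    ⟨(nat_lit 0x20467b0000), (nat_lit 0x2046770000), (nat_lit 0x20468c4000), (nat_lit 0x2046884000)⟩,
    ⟨(nat_lit 0x1a2bf), (nat_lit 0x1a28f), (nat_lit 0x1a393), (nat_lit 0x1a363)⟩,
    ⟨(nat_lit 0x205c59c000), (nat_lit 0x205c52c000), (nat_lit 0x205c774000), (nat_lit 0x205c704000)⟩,
    (nat_lit 0x1a28f), (nat_lit 0x1a3af)⟩) (.lf ⟨⟨(nat_lit 0x205c5e2000), (nat_lit 0x205c572000), (nat_lit 0x205c7ba000), (nat_lit 0x205c74a000)⟩,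
    ⟨(nat_lit 0x1b2e9), (nat_lit 0x1b2a7), (nat_lit 0x1b3f5), (nat_lit 0x1b3b3)⟩,
    ⟨(nat_lit 0x20467e2000), (nat_lit 0x20467a2000), (nat_lit 0x20468f6000), (nat_lit 0x20468b6000)⟩,
    ⟨(nat_lit 0x205c59c000), (nat_lit 0x205c52c000), (nat_lit 0x205c774000), (nat_lit 0x205c704000)⟩,
    ⟨(nat_lit 0x1b30d), (nat_lit 0x1b2cb), (nat_lit 0x1b419), (nat_lit 0x1b3d7)⟩,
    ⟨(nat_lit 0), (nat_lit 0), (nat_lit 0), (nat_lit 0)⟩,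
    (nat_lit 0x1b2a7), (nat_lit 0x1b419)⟩)) (.nd (.lf ⟨⟨(nat_lit 0x2000000000), (nat_lit 0x2000000000), (nat_lit 0x2000000000), (nat_lit 0x2000000000)⟩,
    ⟨(nat_lit 0x100000), (nat_lit 0x100000), (nat_lit 0x100000), (nat_lit 0x100000)⟩,
    ⟨(nat_lit 0), (nat_lit 0), (nat_lit 0), (nat_lit 0)⟩,
    ⟨(nat_lit 0x2000000000), (nat_lit 0x2000000000), (nat_lit 0x2000000000), (nat_lit 0x2000000000)⟩,
    ⟨(nat_lit 0x100000), (nat_lit 0x100000), (nat_lit 0x100000), (nat_lit 0x100000)⟩,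
    ⟨(nat_lit 0x208a429000), (nat_lit 0x208a32f000), (nat_lit 0x208a84b000), (nat_lit 0x208a751000)⟩,
    (nat_lit 0x100000), (nat_lit 0x100000)⟩) (.lf ⟨⟨(nat_lit 0x208a4a1000), (nat_lit 0x208a3a7000), (nat_lit 0x208a8c3000), (nat_lit 0x208a7c9000)⟩,
    ⟨(nat_lit 0x7240b), (nat_lit 0x7226d), (nat_lit 0x72aef), (nat_lit 0x72951)⟩,
    ⟨(nat_lit 0x2000000000), (nat_lit 0x2000000000), (nat_lit 0x2000000000), (nat_lit 0x2000000000)⟩,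
    ⟨(nat_lit 0x208a429000), (nat_lit 0x208a32f000), (nat_lit 0x208a84b000), (nat_lit 0x208a751000)⟩,
    ⟨(nat_lit 0x724b3), (nat_lit 0x72315), (nat_lit 0x72b97), (nat_lit 0x729f9)⟩,
    ⟨(nat_lit 0), (nat_lit 0), (nat_lit 0), (nat_lit 0)⟩,
    (nat_lit 0x7226d), (nat_lit 0x72b97)⟩)))
  nx := .nd (.nd (.lf (nat_lit 80)) (.lf (nat_lit 47))) (.nd (.lf (nat_lit 112)) (.lf (nat_lit 75)))
  mir := (nat_lit 74)

noncomputable def cx76 : CtxD where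
  sd := .nd (.nd (.nd (.lf ⟨⟨(nat_lit 0x2000000000), (nat_lit 0x2000000000), (nat_lit 0x2000000000), (nat_lit 0x2000000000)⟩,
    ⟨(nat_lit 0x21b72), (nat_lit 0x21b72), (nat_lit 0x21b72), (nat_lit 0x21b72)⟩,
    ⟨(nat_lit 0), (nat_lit 0), (nat_lit 0), (nat_lit 0)⟩,
    ⟨(nat_lit 0x2000000000), (nat_lit 0x2000000000), (nat_lit 0x2000000000), (nat_lit 0x2000000000)⟩,
    ⟨(nat_lit 0x21b70), (nat_lit 0x21b70), (nat_lit 0x21b70), (nat_lit 0x21b70)⟩,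
    ⟨(nat_lit 0x2037bec000), (nat_lit 0x2037be4000), (nat_lit 0x2037c20000), (nat_lit 0x2037c18000)⟩,
    (nat_lit 0x21b70), (nat_lit 0x21b72)⟩) (.lf ⟨⟨(nat_lit 0x2037c04000), (nat_lit 0x2037bfc000), (nat_lit 0x2037c38000), (nat_lit 0x2037c30000)⟩,
    ⟨(nat_lit 0x8ce5a), (nat_lit 0x8ce34), (nat_lit 0x8cf68), (nat_lit 0x8cf42)⟩,
    ⟨(nat_lit 0x2000000000), (nat_lit 0x2000000000), (nat_lit 0x2000000000), (nat_lit 0x2000000000)⟩,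
    ⟨(nat_lit 0x2037bec000), (nat_lit 0x2037be4000), (nat_lit 0x2037c20000), (nat_lit 0x2037c18000)⟩,
    ⟨(nat_lit 0x8ceba), (nat_lit 0x8ce94), (nat_lit 0x8cfc8), (nat_lit 0x8cfa2)⟩,
    ⟨(nat_lit 0), (nat_lit 0), (nat_lit 0), (nat_lit 0)⟩,
    (nat_lit 0x8ce34), (nat_lit 0x8cfc8)⟩)) (.nd (.lf ⟨⟨(nat_lit 0x20da88e000), (nat_lit 0x20da81c000), (nat_lit 0x20dab2a000), (nat_lit 0x20daab8000)⟩,
    ⟨(nat_lit 0xa5748), (nat_lit 0xa569a), (nat_lit 0xa5ac2), (nat_lit 0xa5a14)⟩,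
    ⟨(nat_lit 0), (nat_lit 0), (nat_lit 0), (nat_lit 0)⟩,
    ⟨(nat_lit 0x20da80a000), (nat_lit 0x20da798000), (nat_lit 0x20daaa6000), (nat_lit 0x20daa34000)⟩,
    ⟨(nat_lit 0xa568a), (nat_lit 0xa55dc), (nat_lit 0xa5a04), (nat_lit 0xa5956)⟩,
    ⟨(nat_lit 0x21347e4000), (nat_lit 0x2134700000), (nat_lit 0x2134ce2000), (nat_lit 0x2134bfe000)⟩,
    (nat_lit 0xa55dc), (nat_lit 0xa5ac2)⟩) (.lf ⟨⟨(nat_lit 0x21348c4000), (nat_lit 0x21347e0000), (nat_lit 0x2134dc2000), (nat_lit 0x2134cde000)⟩,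
    ⟨(nat_lit 0x4aea2), (nat_lit 0x4ae34), (nat_lit 0x4b108), (nat_lit 0x4b09a)⟩,
    ⟨(nat_lit 0x20da88e000), (nat_lit 0x20da81c000), (nat_lit 0x20dab2a000), (nat_lit 0x20daab8000)⟩,
    ⟨(nat_lit 0x21347e4000), (nat_lit 0x2134700000), (nat_lit 0x2134ce2000), (nat_lit 0x2134bfe000)⟩,
    ⟨(nat_lit 0x4af0e), (nat_lit 0x4aea0), (nat_lit 0x4b174), (nat_lit 0x4b106)⟩,
    ⟨(nat_lit 0), (nat_lit 0), (nat_lit 0), (nat_lit 0)⟩,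
    (nat_lit 0x4ae34), (nat_lit 0x4b174)⟩))) (.nd (.nd (.lf ⟨⟨(nat_lit 0x2066b9b000), (nat_lit 0x2066b81000), (nat_lit 0x2066c2f000), (nat_lit 0x2066c15000)⟩,
    ⟨(nat_lit 0x3cbb5), (nat_lit 0x3cb97), (nat_lit 0x3cc71), (nat_lit 0x3cc53)⟩,
    ⟨(nat_lit 0), (nat_lit 0), (nat_lit 0), (nat_lit 0)⟩,
    ⟨(nat_lit 0x2066b6b000), (nat_lit 0x2066b51000), (nat_lit 0x2066bff000), (nat_lit 0x2066be5000)⟩,
    ⟨(nat_lit 0x3cb81), (nat_lit 0x3cb63), (nat_lit 0x3cc3d), (nat_lit 0x3cc1f)⟩,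
    ⟨(nat_lit 0x20978b3000), (nat_lit 0x209787b000), (nat_lit 0x20979f1000), (nat_lit 0x20979b9000)⟩,
    (nat_lit 0x3cb63), (nat_lit 0x3cc71)⟩) (.lf ⟨⟨(nat_lit 0x2097903000), (nat_lit 0x20978cb000), (nat_lit 0x2097a41000), (nat_lit 0x2097a09000)⟩,
    ⟨(nat_lit 0x3a691), (nat_lit 0x3a667), (nat_lit 0x3a771), (nat_lit 0x3a747)⟩,
    ⟨(nat_lit 0x2066b9b000), (nat_lit 0x2066b81000), (nat_lit 0x2066c2f000), (nat_lit 0x2066c15000)⟩,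
    ⟨(nat_lit 0x20978b3000), (nat_lit 0x209787b000), (nat_lit 0x20979f1000), (nat_lit 0x20979b9000)⟩,
    ⟨(nat_lit 0x3a6cb), (nat_lit 0x3a6a1), (nat_lit 0x3a7ab), (nat_lit 0x3a781)⟩,
    ⟨(nat_lit 0), (nat_lit 0), (nat_lit 0), (nat_lit 0)⟩,
    (nat_lit 0x3a667), (nat_lit 0x3a7ab)⟩)) (.nd (.lf ⟨⟨(nat_lit 0x2000000000), (nat_lit 0x2000000000), (nat_lit 0x2000000000), (nat_lit 0x2000000000)⟩,
    ⟨(nat_lit 0x100000), (nat_lit 0x100000), (nat_lit 0x100000), (nat_lit 0x100000)⟩,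
    ⟨(nat_lit 0), (nat_lit 0), (nat_lit 0), (nat_lit 0)⟩,
    ⟨(nat_lit 0x2000000000), (nat_lit 0x2000000000), (nat_lit 0x2000000000), (nat_lit 0x2000000000)⟩,
    ⟨(nat_lit 0x100000), (nat_lit 0x100000), (nat_lit 0x100000), (nat_lit 0x100000)⟩,
    ⟨(nat_lit 0x21347e4000), (nat_lit 0x2134700000), (nat_lit 0x2134ce2000), (nat_lit 0x2134bfe000)⟩,
    (nat_lit 0x100000), (nat_lit 0x100000)⟩) (.lf ⟨⟨(nat_lit 0x21348c4000), (nat_lit 0x21347e0000), (nat_lit 0x2134dc2000), (nat_lit 0x2134cde000)⟩,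
    ⟨(nat_lit 0x238d51), (nat_lit 0x238a0b), (nat_lit 0x239f8b), (nat_lit 0x239c45)⟩,
    ⟨(nat_lit 0x2000000000), (nat_lit 0x2000000000), (nat_lit 0x2000000000), (nat_lit 0x2000000000)⟩,
    ⟨(nat_lit 0x21347e4000), (nat_lit 0x2134700000), (nat_lit 0x2134ce2000), (nat_lit 0x2134bfe000)⟩,
    ⟨(nat_lit 0x239075), (nat_lit 0x238d2f), (nat_lit 0x23a2af), (nat_lit 0x239f69)⟩,
    ⟨(nat_lit 0), (nat_lit 0), (nat_lit 0), (nat_lit 0)⟩,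
    (nat_lit 0x238a0b), (nat_lit 0x23a2af)⟩)))
  nx := .nd (.nd (.lf (nat_lit 46)) (.lf (nat_lit 81))) (.nd (.lf (nat_lit 113)) (.lf (nat_lit 76)))
  mir := (nat_lit 77)

noncomputable def cx77 : CtxD where
  sd := .nd (.nd (.nd (.lf ⟨⟨(nat_lit 0x2000000000), (nat_lit 0x2000000000), (nat_lit 0x2000000000), (nat_lit 0x2000000000)⟩,
    ⟨(nat_lit 0x21b72), (nat_lit 0x21b72), (nat_lit 0x21b72), (nat_lit 0x21b72)⟩,
    ⟨(nat_lit 0), (nat_lit 0), (nat_lit 0), (nat_lit 0)⟩,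
    ⟨(nat_lit 0x2000000000), (nat_lit 0x2000000000), (nat_lit 0x2000000000), (nat_lit 0x2000000000)⟩,
    ⟨(nat_lit 0x21b70), (nat_lit 0x21b70), (nat_lit 0x21b70), (nat_lit 0x21b70)⟩,
    ⟨(nat_lit 0x20287b9000), (nat_lit 0x20287b1000), (nat_lit 0x20287f3000), (nat_lit 0x20287eb000)⟩,
    (nat_lit 0x21b70), (nat_lit 0x21b72)⟩) (.lf ⟨⟨(nat_lit 0x20287d3000), (nat_lit 0x20287cb000), (nat_lit 0x202880d000), (nat_lit 0x2028805000)⟩,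
    ⟨(nat_lit 0x4a631), (nat_lit 0x4a611), (nat_lit 0x4a703), (nat_lit 0x4a6e3)⟩,
    ⟨(nat_lit 0x2000000000), (nat_lit 0x2000000000), (nat_lit 0x2000000000), (nat_lit 0x2000000000)⟩,
    ⟨(nat_lit 0x20287b9000), (nat_lit 0x20287b1000), (nat_lit 0x20287f3000), (nat_lit 0x20287eb000)⟩,
    ⟨(nat_lit 0x4a677), (nat_lit 0x4a657), (nat_lit 0x4a749), (nat_lit 0x4a729)⟩,
    ⟨(nat_lit 0), (nat_lit 0), (nat_lit 0), (nat_lit 0)⟩,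
    (nat_lit 0x4a611), (nat_lit 0x4a749)⟩)) (.nd (.lf ⟨⟨(nat_lit 0x2071ac7000), (nat_lit 0x2071a83000), (nat_lit 0x2071c43000), (nat_lit 0x2071bff000)⟩,
    ⟨(nat_lit 0x3f560), (nat_lit 0x3f514), (nat_lit 0x3f6ee), (nat_lit 0x3f6a2)⟩,
    ⟨(nat_lit 0), (nat_lit 0), (nat_lit 0), (nat_lit 0)⟩,
    ⟨(nat_lit 0x2071a71000), (nat_lit 0x2071a2d000), (nat_lit 0x2071bed000), (nat_lit 0x2071ba9000)⟩,
    ⟨(nat_lit 0x3f50c), (nat_lit 0x3f4c0), (nat_lit 0x3f69a), (nat_lit 0x3f64e)⟩,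
    ⟨(nat_lit 0x208ab2a000), (nat_lit 0x208aac4000), (nat_lit 0x208ad5c000), (nat_lit 0x208acf6000)⟩,
    (nat_lit 0x3f4c0), (nat_lit 0x3f6ee)⟩) (.lf ⟨⟨(nat_lit 0x208ab9c000), (nat_lit 0x208ab36000), (nat_lit 0x208adce000), (nat_lit 0x208ad68000)⟩,
    ⟨(nat_lit 62025), (nat_lit 62003), (nat_lit 62149), (nat_lit 62127)⟩,
    ⟨(nat_lit 0x2071ac7000), (nat_lit 0x2071a83000), (nat_lit 0x2071c43000), (nat_lit 0x2071bff000)⟩,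
    ⟨(nat_lit 0x208ab2a000), (nat_lit 0x208aac4000), (nat_lit 0x208ad5c000), (nat_lit 0x208acf6000)⟩,
    ⟨(nat_lit 62049), (nat_lit 62027), (nat_lit 62173), (nat_lit 62151)⟩,
    ⟨(nat_lit 0), (nat_lit 0), (nat_lit 0), (nat_lit 0)⟩,
    (nat_lit 62003), (nat_lit 62173)⟩))) (.nd (.nd (.lf ⟨⟨(nat_lit 0x20469b3000), (nat_lit 0x2046999000), (nat_lit 0x2046a45000), (nat_lit 0x2046a2b000)⟩,
    ⟨(nat_lit 0x1a443), (nat_lit 0x1a42f), (nat_lit 0x1a4b7), (nat_lit 0x1a4a3)⟩,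
    ⟨(nat_lit 0), (nat_lit 0), (nat_lit 0), (nat_lit 0)⟩,
    ⟨(nat_lit 0x2046985000), (nat_lit 0x204696b000), (nat_lit 0x2046a17000), (nat_lit 0x20469fd000)⟩,
    ⟨(nat_lit 0x1a425), (nat_lit 0x1a411), (nat_lit 0x1a499), (nat_lit 0x1a485)⟩,
    ⟨(nat_lit 0x205c8bb000), (nat_lit 0x205c88d000), (nat_lit 0x205c9b5000), (nat_lit 0x205c987000)⟩,
    (nat_lit 0x1a411), (nat_lit 0x1a4b7)⟩) (.lf ⟨⟨(nat_lit 0x205c8fd000), (nat_lit 0x205c8cf000), (nat_lit 0x205c9f7000), (nat_lit 0x205c9c9000)⟩,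
    ⟨(nat_lit 0x1b4ad), (nat_lit 0x1b493), (nat_lit 0x1b539), (nat_lit 0x1b51f)⟩,
    ⟨(nat_lit 0x20469b3000), (nat_lit 0x2046999000), (nat_lit 0x2046a45000), (nat_lit 0x2046a2b000)⟩,
    ⟨(nat_lit 0x205c8bb000), (nat_lit 0x205c88d000), (nat_lit 0x205c9b5000), (nat_lit 0x205c987000)⟩,
    ⟨(nat_lit 0x1b4d1), (nat_lit 0x1b4b7), (nat_lit 0x1b55d), (nat_lit 0x1b543)⟩,
    ⟨(nat_lit 0), (nat_lit 0), (nat_lit 0), (nat_lit 0)⟩,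
    (nat_lit 0x1b493), (nat_lit 0x1b55d)⟩)) (.nd (.lf ⟨⟨(nat_lit 0x2000000000), (nat_lit 0x2000000000), (nat_lit 0x2000000000), (nat_lit 0x2000000000)⟩,
    ⟨(nat_lit 0x100000), (nat_lit 0x100000), (nat_lit 0x100000), (nat_lit 0x100000)⟩,
    ⟨(nat_lit 0), (nat_lit 0), (nat_lit 0), (nat_lit 0)⟩,
    ⟨(nat_lit 0x2000000000), (nat_lit 0x2000000000), (nat_lit 0x2000000000), (nat_lit 0x2000000000)⟩,
    ⟨(nat_lit 0x100000), (nat_lit 0x100000), (nat_lit 0x100000), (nat_lit 0x100000)⟩,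
    ⟨(nat_lit 0x208ab2a000), (nat_lit 0x208aac4000), (nat_lit 0x208ad5c000), (nat_lit 0x208acf6000)⟩,
    (nat_lit 0x100000), (nat_lit 0x100000)⟩) (.lf ⟨⟨(nat_lit 0x208ab9c000), (nat_lit 0x208ab36000), (nat_lit 0x208adce000), (nat_lit 0x208ad68000)⟩,
    ⟨(nat_lit 0x72fb8), (nat_lit 0x72f0e), (nat_lit 0x73368), (nat_lit 0x732be)⟩,
    ⟨(nat_lit 0x2000000000), (nat_lit 0x2000000000), (nat_lit 0x2000000000), (nat_lit 0x2000000000)⟩,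
    ⟨(nat_lit 0x208ab2a000), (nat_lit 0x208aac4000), (nat_lit 0x208ad5c000), (nat_lit 0x208acf6000)⟩,
    ⟨(nat_lit 0x7305e), (nat_lit 0x72fb4), (nat_lit 0x7340e), (nat_lit 0x73364)⟩,
    ⟨(nat_lit 0), (nat_lit 0), (nat_lit 0), (nat_lit 0)⟩,
    (nat_lit 0x72f0e), (nat_lit 0x7340e)⟩)))
  nx := .nd (.nd (.lf (nat_lit 80)) (.lf (nat_lit 47))) (.nd (.lf (nat_lit 112)) (.lf (nat_lit 77)))
  mir := (nat_lit 76)

noncomputable def cx78 : CtxD where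
  sd := .nd (.nd (.nd (.lf ⟨⟨(nat_lit 0x2000000000), (nat_lit 0x2000000000), (nat_lit 0x2000000000), (nat_lit 0x2000000000)⟩,
    ⟨(nat_lit 0x21b72), (nat_lit 0x21b72), (nat_lit 0x21b72), (nat_lit 0x21b72)⟩,
    ⟨(nat_lit 0), (nat_lit 0), (nat_lit 0), (nat_lit 0)⟩,
    ⟨(nat_lit 0x2000000000), (nat_lit 0x2000000000), (nat_lit 0x2000000000), (nat_lit 0x2000000000)⟩,
    ⟨(nat_lit 0x21b70), (nat_lit 0x21b70), (nat_lit 0x21b70), (nat_lit 0x21b70)⟩,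
    ⟨(nat_lit 0x2037979000), (nat_lit 0x2037961000), (nat_lit 0x2037a15000), (nat_lit 0x20379fd000)⟩,
    (nat_lit 0x21b70), (nat_lit 0x21b72)⟩) (.lf ⟨⟨(nat_lit 0x2037995000), (nat_lit 0x203797d000), (nat_lit 0x2037a31000), (nat_lit 0x2037a19000)⟩,
    ⟨(nat_lit 0x8c1a7), (nat_lit 0x8c129), (nat_lit 0x8c4db), (nat_lit 0x8c45d)⟩,
    ⟨(nat_lit 0x2000000000), (nat_lit 0x2000000000), (nat_lit 0x2000000000), (nat_lit 0x2000000000)⟩,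
    ⟨(nat_lit 0x2037979000), (nat_lit 0x2037961000), (nat_lit 0x2037a15000), (nat_lit 0x20379fd000)⟩,
    ⟨(nat_lit 0x8c20b), (nat_lit 0x8c18d), (nat_lit 0x8c53f), (nat_lit 0x8c4c1)⟩,
    ⟨(nat_lit 0), (nat_lit 0), (nat_lit 0), (nat_lit 0)⟩,
    (nat_lit 0x8c129), (nat_lit 0x8c53f)⟩)) (.nd (.lf ⟨⟨(nat_lit 0x20d88e7000), (nat_lit 0x20d876f000), (nat_lit 0x20d907f000), (nat_lit 0x20d8f07000)⟩,
    ⟨(nat_lit 0xa2cef), (nat_lit 0xa2ab9), (nat_lit 0xa36b5), (nat_lit 0xa347f)⟩,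
    ⟨(nat_lit 0), (nat_lit 0), (nat_lit 0), (nat_lit 0)⟩,
    ⟨(nat_lit 0x20d8857000), (nat_lit 0x20d86df000), (nat_lit 0x20d8fef000), (nat_lit 0x20d8e77000)⟩,
    ⟨(nat_lit 0xa2c2f), (nat_lit 0xa29f9), (nat_lit 0xa35f5), (nat_lit 0xa33bf)⟩,
    ⟨(nat_lit 0x2130b68000), (nat_lit 0x2130880000), (nat_lit 0x21319b2000), (nat_lit 0x21316ca000)⟩,
    (nat_lit 0xa29f9), (nat_lit 0xa36b5)⟩) (.lf ⟨⟨(nat_lit 0x2130c5a000), (nat_lit 0x2130972000), (nat_lit 0x2131aa4000), (nat_lit 0x21317bc000)⟩,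
    ⟨(nat_lit 0x491d2), (nat_lit 0x4906c), (nat_lit 0x49890), (nat_lit 0x4972a)⟩,
    ⟨(nat_lit 0x20d88e7000), (nat_lit 0x20d876f000), (nat_lit 0x20d907f000), (nat_lit 0x20d8f07000)⟩,
    ⟨(nat_lit 0x2130b68000), (nat_lit 0x2130880000), (nat_lit 0x21319b2000), (nat_lit 0x21316ca000)⟩,
    ⟨(nat_lit 0x49240), (nat_lit 0x490da), (nat_lit 0x498fe), (nat_lit 0x49798)⟩,
    ⟨(nat_lit 0), (nat_lit 0), (nat_lit 0), (nat_lit 0)⟩,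
    (nat_lit 0x4906c), (nat_lit 0x498fe)⟩))) (.nd (.nd (.lf ⟨⟨(nat_lit 0x2066489000), (nat_lit 0x2066435000), (nat_lit 0x206663f000), (nat_lit 0x20665eb000)⟩,
    ⟨(nat_lit 0x3c2da), (nat_lit 0x3c278), (nat_lit 0x3c504), (nat_lit 0x3c4a2)⟩,
    ⟨(nat_lit 0), (nat_lit 0), (nat_lit 0), (nat_lit 0)⟩,
    ⟨(nat_lit 0x2066453000), (nat_lit 0x20663ff000), (nat_lit 0x2066609000), (nat_lit 0x20665b5000)⟩,
    ⟨(nat_lit 0x3c2a4), (nat_lit 0x3c242), (nat_lit 0x3c4ce), (nat_lit 0x3c46c)⟩,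
    ⟨(nat_lit 0x209698f000), (nat_lit 0x20968d9000), (nat_lit 0x2096d31000), (nat_lit 0x2096c7b000)⟩,
    (nat_lit 0x3c242), (nat_lit 0x3c504)⟩) (.lf ⟨⟨(nat_lit 0x20969e5000), (nat_lit 0x209692f000), (nat_lit 0x2096d87000), (nat_lit 0x2096cd1000)⟩,
    ⟨(nat_lit 0x39bed), (nat_lit 0x39b61), (nat_lit 0x39e69), (nat_lit 0x39ddd)⟩,
    ⟨(nat_lit 0x2066489000), (nat_lit 0x2066435000), (nat_lit 0x206663f000), (nat_lit 0x20665eb000)⟩,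
    ⟨(nat_lit 0x209698f000), (nat_lit 0x20968d9000), (nat_lit 0x2096d31000), (nat_lit 0x2096c7b000)⟩,
    ⟨(nat_lit 0x39c27), (nat_lit 0x39b9b), (nat_lit 0x39ea3), (nat_lit 0x39e17)⟩,
    ⟨(nat_lit 0), (nat_lit 0), (nat_lit 0), (nat_lit 0)⟩,
    (nat_lit 0x39b61), (nat_lit 0x39ea3)⟩)) (.nd (.lf ⟨⟨(nat_lit 0x2000000000), (nat_lit 0x2000000000), (nat_lit 0x2000000000), (nat_lit 0x2000000000)⟩,
    ⟨(nat_lit 0x100000), (nat_lit 0x100000), (nat_lit 0x100000), (nat_lit 0x100000)⟩,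
    ⟨(nat_lit 0), (nat_lit 0), (nat_lit 0), (nat_lit 0)⟩,
    ⟨(nat_lit 0x2000000000), (nat_lit 0x2000000000), (nat_lit 0x2000000000), (nat_lit 0x2000000000)⟩,
    ⟨(nat_lit 0x100000), (nat_lit 0x100000), (nat_lit 0x100000), (nat_lit 0x100000)⟩,
    ⟨(nat_lit 0x2130b68000), (nat_lit 0x2130880000), (nat_lit 0x21319b2000), (nat_lit 0x21316ca000)⟩,
    (nat_lit 0x100000), (nat_lit 0x100000)⟩) (.lf ⟨⟨(nat_lit 0x2130c5a000), (nat_lit 0x2130972000), (nat_lit 0x2131aa4000), (nat_lit 0x21317bc000)⟩,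
    ⟨(nat_lit 0x22b291), (nat_lit 0x22a7f7), (nat_lit 0x22e5c1), (nat_lit 0x22db27)⟩,
    ⟨(nat_lit 0x2000000000), (nat_lit 0x2000000000), (nat_lit 0x2000000000), (nat_lit 0x2000000000)⟩,
    ⟨(nat_lit 0x2130b68000), (nat_lit 0x2130880000), (nat_lit 0x21319b2000), (nat_lit 0x21316ca000)⟩,
    ⟨(nat_lit 0x22b5c1), (nat_lit 0x22ab27), (nat_lit 0x22e8f1), (nat_lit 0x22de57)⟩,
    ⟨(nat_lit 0), (nat_lit 0), (nat_lit 0), (nat_lit 0)⟩,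
    (nat_lit 0x22a7f7), (nat_lit 0x22e8f1)⟩)))
  nx := .nd (.nd (.lf (nat_lit 46)) (.lf (nat_lit 77))) (.nd (.lf (nat_lit 113)) (.lf (nat_lit 78)))
  mir := (nat_lit 79)

noncomputable def cx79 : CtxD where
  sd := .nd (.nd (.nd (.lf ⟨⟨(nat_lit 0x2000000000), (nat_lit 0x2000000000), (nat_lit 0x2000000000), (nat_lit 0x2000000000)⟩,
    ⟨(nat_lit 0x21b72), (nat_lit 0x21b72), (nat_lit 0x21b72), (nat_lit 0x21b72)⟩,
    ⟨(nat_lit 0), (nat_lit 0), (nat_lit 0), (nat_lit 0)⟩,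
    ⟨(nat_lit 0x2000000000), (nat_lit 0x2000000000), (nat_lit 0x2000000000), (nat_lit 0x2000000000)⟩,
    ⟨(nat_lit 0x21b70), (nat_lit 0x21b70), (nat_lit 0x21b70), (nat_lit 0x21b70)⟩,
    ⟨(nat_lit 0x2028a0d000), (nat_lit 0x20289f1000), (nat_lit 0x2028ab5000), (nat_lit 0x2028a99000)⟩,
    (nat_lit 0x21b70), (nat_lit 0x21b72)⟩) (.lf ⟨⟨(nat_lit 0x2028a29000), (nat_lit 0x2028a0d000), (nat_lit 0x2028ad1000), (nat_lit 0x2028ab5000)⟩,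
    ⟨(nat_lit 0x4aeb1), (nat_lit 0x4ae47), (nat_lit 0x4b119), (nat_lit 0x4b0af)⟩,
    ⟨(nat_lit 0x2000000000), (nat_lit 0x2000000000), (nat_lit 0x2000000000), (nat_lit 0x2000000000)⟩,
    ⟨(nat_lit 0x2028a0d000), (nat_lit 0x20289f1000), (nat_lit 0x2028ab5000), (nat_lit 0x2028a99000)⟩,
    ⟨(nat_lit 0x4aef7), (nat_lit 0x4ae8d), (nat_lit 0x4b15f), (nat_lit 0x4b0f5)⟩,
    ⟨(nat_lit 0), (nat_lit 0), (nat_lit 0), (nat_lit 0)⟩,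
    (nat_lit 0x4ae47), (nat_lit 0x4b15f)⟩)) (.nd (.lf ⟨⟨(nat_lit 0x2072ab3000), (nat_lit 0x20729cf000), (nat_lit 0x2072ef7000), (nat_lit 0x2072e13000)⟩,
    ⟨(nat_lit 0x40651), (nat_lit 0x4054f), (nat_lit 0x40ac7), (nat_lit 0x409c5)⟩,
    ⟨(nat_lit 0), (nat_lit 0), (nat_lit 0), (nat_lit 0)⟩,
    ⟨(nat_lit 0x2072a55000), (nat_lit 0x2072971000), (nat_lit 0x2072e99000), (nat_lit 0x2072db5000)⟩,
    ⟨(nat_lit 0x405f5), (nat_lit 0x404f3), (nat_lit 0x40a6b), (nat_lit 0x40969)⟩,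
    ⟨(nat_lit 0x208c2c1000), (nat_lit 0x208c16b000), (nat_lit 0x208c917000), (nat_lit 0x208c7c1000)⟩,
    (nat_lit 0x404f3), (nat_lit 0x40ac7)⟩) (.lf ⟨⟨(nat_lit 0x208c33f000), (nat_lit 0x208c1e9000), (nat_lit 0x208c995000), (nat_lit 0x208c83f000)⟩,
    ⟨(nat_lit 63366), (nat_lit 63290), (nat_lit 63732), (nat_lit 63656)⟩,
    ⟨(nat_lit 0x2072ab3000), (nat_lit 0x20729cf000), (nat_lit 0x2072ef7000), (nat_lit 0x2072e13000)⟩,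
    ⟨(nat_lit 0x208c2c1000), (nat_lit 0x208c16b000), (nat_lit 0x208c917000), (nat_lit 0x208c7c1000)⟩,
    ⟨(nat_lit 63392), (nat_lit 63316), (nat_lit 63758), (nat_lit 63682)⟩,
    ⟨(nat_lit 0), (nat_lit 0), (nat_lit 0), (nat_lit 0)⟩,
    (nat_lit 63290), (nat_lit 63758)⟩))) (.nd (.nd (.lf ⟨⟨(nat_lit 0x2046fd3000), (nat_lit 0x2046f7b000), (nat_lit 0x2047173000), (nat_lit 0x204711b000)⟩,
    ⟨(nat_lit 0x1a909), (nat_lit 0x1a8c7), (nat_lit 0x1aa57), (nat_lit 0x1aa15)⟩,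
    ⟨(nat_lit 0), (nat_lit 0), (nat_lit 0), (nat_lit 0)⟩,
    ⟨(nat_lit 0x2046f9f000), (nat_lit 0x2046f47000), (nat_lit 0x204713f000), (nat_lit 0x20470e7000)⟩,
    ⟨(nat_lit 0x1a8eb), (nat_lit 0x1a8a9), (nat_lit 0x1aa39), (nat_lit 0x1a9f7)⟩,
    ⟨(nat_lit 0x205d330000), (nat_lit 0x205d29a000), (nat_lit 0x205d5fa000), (nat_lit 0x205d564000)⟩,
    (nat_lit 0x1a8a9), (nat_lit 0x1aa57)⟩) (.lf ⟨⟨(nat_lit 0x205d378000), (nat_lit 0x205d2e2000), (nat_lit 0x205d642000), (nat_lit 0x205d5ac000)⟩,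
    ⟨(nat_lit 0x1ba99), (nat_lit 0x1ba3f), (nat_lit 0x1bc27), (nat_lit 0x1bbcd)⟩,
    ⟨(nat_lit 0x2046fd3000), (nat_lit 0x2046f7b000), (nat_lit 0x2047173000), (nat_lit 0x204711b000)⟩,
    ⟨(nat_lit 0x205d330000), (nat_lit 0x205d29a000), (nat_lit 0x205d5fa000), (nat_lit 0x205d564000)⟩,
    ⟨(nat_lit 0x1babd), (nat_lit 0x1ba63), (nat_lit 0x1bc4b), (nat_lit 0x1bbf1)⟩,
    ⟨(nat_lit 0), (nat_lit 0), (nat_lit 0), (nat_lit 0)⟩,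
    (nat_lit 0x1ba3f), (nat_lit 0x1bc4b)⟩)) (.nd (.lf ⟨⟨(nat_lit 0x2000000000), (nat_lit 0x2000000000), (nat_lit 0x2000000000), (nat_lit 0x2000000000)⟩,
    ⟨(nat_lit 0x100000), (nat_lit 0x100000), (nat_lit 0x100000), (nat_lit 0x100000)⟩,
    ⟨(nat_lit 0), (nat_lit 0), (nat_lit 0), (nat_lit 0)⟩,
    ⟨(nat_lit 0x2000000000), (nat_lit 0x2000000000), (nat_lit 0x2000000000), (nat_lit 0x2000000000)⟩,
    ⟨(nat_lit 0x100000), (nat_lit 0x100000), (nat_lit 0x100000), (nat_lit 0x100000)⟩,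
    ⟨(nat_lit 0x208c2c1000), (nat_lit 0x208c16b000), (nat_lit 0x208c917000), (nat_lit 0x208c7c1000)⟩,
    (nat_lit 0x100000), (nat_lit 0x100000)⟩) (.lf ⟨⟨(nat_lit 0x208c33f000), (nat_lit 0x208c1e9000), (nat_lit 0x208c995000), (nat_lit 0x208c83f000)⟩,
    ⟨(nat_lit 0x75780), (nat_lit 0x75542), (nat_lit 0x76254), (nat_lit 0x76016)⟩,
    ⟨(nat_lit 0x2000000000), (nat_lit 0x2000000000), (nat_lit 0x2000000000), (nat_lit 0x2000000000)⟩,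
    ⟨(nat_lit 0x208c2c1000), (nat_lit 0x208c16b000), (nat_lit 0x208c917000), (nat_lit 0x208c7c1000)⟩,
    ⟨(nat_lit 0x75834), (nat_lit 0x755f6), (nat_lit 0x76308), (nat_lit 0x760ca)⟩,
    ⟨(nat_lit 0), (nat_lit 0), (nat_lit 0), (nat_lit 0)⟩,
    (nat_lit 0x75542), (nat_lit 0x76308)⟩)))
  nx := .nd (.nd (.lf (nat_lit 76)) (.lf (nat_lit 47))) (.nd (.lf (nat_lit 112)) (.lf (nat_lit 79)))
  mir := (nat_lit 78)

noncomputable def cx80 : CtxD where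
  sd := .nd (.nd (.nd (.lf ⟨⟨(nat_lit 0x2000000000), (nat_lit 0x2000000000), (nat_lit 0x2000000000), (nat_lit 0x2000000000)⟩,
    ⟨(nat_lit 0x21b72), (nat_lit 0x21b72), (nat_lit 0x21b72), (nat_lit 0x21b72)⟩,
    ⟨(nat_lit 0), (nat_lit 0), (nat_lit 0), (nat_lit 0)⟩,
    ⟨(nat_lit 0x2000000000), (nat_lit 0x2000000000), (nat_lit 0x2000000000), (nat_lit 0x2000000000)⟩,
    ⟨(nat_lit 0x21b70), (nat_lit 0x21b70), (nat_lit 0x21b70), (nat_lit 0x21b70)⟩,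
    ⟨(nat_lit 0x2037b11000), (nat_lit 0x2037b07000), (nat_lit 0x2037b97000), (nat_lit 0x2037b8d000)⟩,
    (nat_lit 0x21b70), (nat_lit 0x21b72)⟩) (.lf ⟨⟨(nat_lit 0x2037b29000), (nat_lit 0x2037b1f000), (nat_lit 0x2037baf000), (nat_lit 0x2037ba5000)⟩,
    ⟨(nat_lit 0x8c9ea), (nat_lit 0x8c9b8), (nat_lit 0x8cca2), (nat_lit 0x8cc70)⟩,
    ⟨(nat_lit 0x2000000000), (nat_lit 0x2000000000), (nat_lit 0x2000000000), (nat_lit 0x2000000000)⟩,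
    ⟨(nat_lit 0x2037b11000), (nat_lit 0x2037b07000), (nat_lit 0x2037b97000), (nat_lit 0x2037b8d000)⟩,
    ⟨(nat_lit 0x8ca4c), (nat_lit 0x8ca1a), (nat_lit 0x8cd04), (nat_lit 0x8ccd2)⟩,
    ⟨(nat_lit 0), (nat_lit 0), (nat_lit 0), (nat_lit 0)⟩,
    (nat_lit 0x8c9b8), (nat_lit 0x8cd04)⟩)) (.nd (.lf ⟨⟨(nat_lit 0x20d9cfc000), (nat_lit 0x20d9c66000), (nat_lit 0x20da426000), (nat_lit 0x20da390000)⟩,
    ⟨(nat_lit 0xa474f), (nat_lit 0xa466d), (nat_lit 0xa5141), (nat_lit 0xa505f)⟩,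
    ⟨(nat_lit 0), (nat_lit 0), (nat_lit 0), (nat_lit 0)⟩,
    ⟨(nat_lit 0x20d9c78000), (nat_lit 0x20d9be2000), (nat_lit 0x20da3a2000), (nat_lit 0x20da30c000)⟩,
    ⟨(nat_lit 0xa4693), (nat_lit 0xa45b1), (nat_lit 0xa5085), (nat_lit 0xa4fa3)⟩,
    ⟨(nat_lit 0x213318c000), (nat_lit 0x2133062000), (nat_lit 0x2133f66000), (nat_lit 0x2133e3c000)⟩,
    (nat_lit 0xa45b1), (nat_lit 0xa5141)⟩) (.lf ⟨⟨(nat_lit 0x213326e000), (nat_lit 0x2133144000), (nat_lit 0x2134048000), (nat_lit 0x2133f1e000)⟩,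
    ⟨(nat_lit 0x4a3e7), (nat_lit 0x4a357), (nat_lit 0x4aa8d), (nat_lit 0x4a9fd)⟩,
    ⟨(nat_lit 0x20d9cfc000), (nat_lit 0x20d9c66000), (nat_lit 0x20da426000), (nat_lit 0x20da390000)⟩,
    ⟨(nat_lit 0x213318c000), (nat_lit 0x2133062000), (nat_lit 0x2133f66000), (nat_lit 0x2133e3c000)⟩,
    ⟨(nat_lit 0x4a453), (nat_lit 0x4a3c3), (nat_lit 0x4aaf9), (nat_lit 0x4aa69)⟩,
    ⟨(nat_lit 0), (nat_lit 0), (nat_lit 0), (nat_lit 0)⟩,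
    (nat_lit 0x4a357), (nat_lit 0x4aaf9)⟩))) (.nd (.nd (.lf ⟨⟨(nat_lit 0x2066908000), (nat_lit 0x20668e6000), (nat_lit 0x2066aa0000), (nat_lit 0x2066a7e000)⟩,
    ⟨(nat_lit 0x3c887), (nat_lit 0x3c85f), (nat_lit 0x3ca7f), (nat_lit 0x3ca57)⟩,
    ⟨(nat_lit 0), (nat_lit 0), (nat_lit 0), (nat_lit 0)⟩,
    ⟨(nat_lit 0x20668d8000), (nat_lit 0x20668b6000), (nat_lit 0x2066a70000), (nat_lit 0x2066a4e000)⟩,
    ⟨(nat_lit 0x3c851), (nat_lit 0x3c829), (nat_lit 0x3ca49), (nat_lit 0x3ca21)⟩,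
    ⟨(nat_lit 0x209732c000), (nat_lit 0x20972e4000), (nat_lit 0x209769a000), (nat_lit 0x2097652000)⟩,
    (nat_lit 0x3c829), (nat_lit 0x3ca7f)⟩) (.lf ⟨⟨(nat_lit 0x209737c000), (nat_lit 0x2097334000), (nat_lit 0x20976ea000), (nat_lit 0x20976a2000)⟩,
    ⟨(nat_lit 0x3a299), (nat_lit 0x3a261), (nat_lit 0x3a513), (nat_lit 0x3a4db)⟩,
    ⟨(nat_lit 0x2066908000), (nat_lit 0x20668e6000), (nat_lit 0x2066aa0000), (nat_lit 0x2066a7e000)⟩,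
    ⟨(nat_lit 0x209732c000), (nat_lit 0x20972e4000), (nat_lit 0x209769a000), (nat_lit 0x2097652000)⟩,
    ⟨(nat_lit 0x3a2d1), (nat_lit 0x3a299), (nat_lit 0x3a54b), (nat_lit 0x3a513)⟩,
    ⟨(nat_lit 0), (nat_lit 0), (nat_lit 0), (nat_lit 0)⟩,
    (nat_lit 0x3a261), (nat_lit 0x3a54b)⟩)) (.nd (.lf ⟨⟨(nat_lit 0x2000000000), (nat_lit 0x2000000000), (nat_lit 0x2000000000), (nat_lit 0x2000000000)⟩,
    ⟨(nat_lit 0x100000), (nat_lit 0x100000), (nat_lit 0x100000), (nat_lit 0x100000)⟩,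
    ⟨(nat_lit 0), (nat_lit 0), (nat_lit 0), (nat_lit 0)⟩,
    ⟨(nat_lit 0x2000000000), (nat_lit 0x2000000000), (nat_lit 0x2000000000), (nat_lit 0x2000000000)⟩,
    ⟨(nat_lit 0x100000), (nat_lit 0x100000), (nat_lit 0x100000), (nat_lit 0x100000)⟩,
    ⟨(nat_lit 0x213318c000), (nat_lit 0x2133062000), (nat_lit 0x2133f66000), (nat_lit 0x2133e3c000)⟩,
    (nat_lit 0x100000), (nat_lit 0x100000)⟩) (.lf ⟨⟨(nat_lit 0x213326e000), (nat_lit 0x2133144000), (nat_lit 0x2134048000), (nat_lit 0x2133f1e000)⟩,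
    ⟨(nat_lit 0x233bde), (nat_lit 0x23379a), (nat_lit 0x236e58), (nat_lit 0x236a14)⟩,
    ⟨(nat_lit 0x2000000000), (nat_lit 0x2000000000), (nat_lit 0x2000000000), (nat_lit 0x2000000000)⟩,
    ⟨(nat_lit 0x213318c000), (nat_lit 0x2133062000), (nat_lit 0x2133f66000), (nat_lit 0x2133e3c000)⟩,
    ⟨(nat_lit 0x233f02), (nat_lit 0x233abe), (nat_lit 0x23717c), (nat_lit 0x236d38)⟩,
    ⟨(nat_lit 0), (nat_lit 0), (nat_lit 0), (nat_lit 0)⟩,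
    (nat_lit 0x23379a), (nat_lit 0x23717c)⟩)))
  nx := .nd (.nd (.lf (nat_lit 46)) (.lf (nat_lit 81))) (.nd (.lf (nat_lit 113)) (.lf (nat_lit 80)))
  mir := (nat_lit 81)

noncomputable def cx81 : CtxD where
  sd := .nd (.nd (.nd (.lf ⟨⟨(nat_lit 0x2000000000), (nat_lit 0x2000000000), (nat_lit 0x2000000000), (nat_lit 0x2000000000)⟩,
    ⟨(nat_lit 0x21b72), (nat_lit 0x21b72), (nat_lit 0x21b72), (nat_lit 0x21b72)⟩,
    ⟨(nat_lit 0), (nat_lit 0), (nat_lit 0), (nat_lit 0)⟩,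
    ⟨(nat_lit 0x2000000000), (nat_lit 0x2000000000), (nat_lit 0x2000000000), (nat_lit 0x2000000000)⟩,
    ⟨(nat_lit 0x21b70), (nat_lit 0x21b70), (nat_lit 0x21b70), (nat_lit 0x21b70)⟩,
    ⟨(nat_lit 0x2028854000), (nat_lit 0x2028848000), (nat_lit 0x20288ec000), (nat_lit 0x20288e0000)⟩,
    (nat_lit 0x21b70), (nat_lit 0x21b72)⟩) (.lf ⟨⟨(nat_lit 0x202886e000), (nat_lit 0x2028862000), (nat_lit 0x2028906000), (nat_lit 0x20288fa000)⟩,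
    ⟨(nat_lit 0x4a865), (nat_lit 0x4a83b), (nat_lit 0x4aa8d), (nat_lit 0x4aa63)⟩,
    ⟨(nat_lit 0x2000000000), (nat_lit 0x2000000000), (nat_lit 0x2000000000), (nat_lit 0x2000000000)⟩,
    ⟨(nat_lit 0x2028854000), (nat_lit 0x2028848000), (nat_lit 0x20288ec000), (nat_lit 0x20288e0000)⟩,
    ⟨(nat_lit 0x4a8ab), (nat_lit 0x4a881), (nat_lit 0x4aad3), (nat_lit 0x4aaa9)⟩,
    ⟨(nat_lit 0), (nat_lit 0), (nat_lit 0), (nat_lit 0)⟩,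
    (nat_lit 0x4a83b), (nat_lit 0x4aad3)⟩)) (.nd (.lf ⟨⟨(nat_lit 0x2071ee1000), (nat_lit 0x2071e87000), (nat_lit 0x2072307000), (nat_lit 0x20722ad000)⟩,
    ⟨(nat_lit 0x3f9b7), (nat_lit 0x3f953), (nat_lit 0x3fe2d), (nat_lit 0x3fdc9)⟩,
    ⟨(nat_lit 0), (nat_lit 0), (nat_lit 0), (nat_lit 0)⟩,
    ⟨(nat_lit 0x2071e89000), (nat_lit 0x2071e2f000), (nat_lit 0x20722af000), (nat_lit 0x2072255000)⟩,
    ⟨(nat_lit 0x3f95f), (nat_lit 0x3f8fb), (nat_lit 0x3fdd5), (nat_lit 0x3fd71)⟩,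
    ⟨(nat_lit 0x208b139000), (nat_lit 0x208b0b3000), (nat_lit 0x208b763000), (nat_lit 0x208b6dd000)⟩,
    (nat_lit 0x3f8fb), (nat_lit 0x3fe2d)⟩) (.lf ⟨⟨(nat_lit 0x208b1af000), (nat_lit 0x208b129000), (nat_lit 0x208b7d9000), (nat_lit 0x208b753000)⟩,
    ⟨(nat_lit 62368), (nat_lit 62338), (nat_lit 62718), (nat_lit 62688)⟩,
    ⟨(nat_lit 0x2071ee1000), (nat_lit 0x2071e87000), (nat_lit 0x2072307000), (nat_lit 0x20722ad000)⟩,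
    ⟨(nat_lit 0x208b139000), (nat_lit 0x208b0b3000), (nat_lit 0x208b763000), (nat_lit 0x208b6dd000)⟩,
    ⟨(nat_lit 62392), (nat_lit 62362), (nat_lit 62742), (nat_lit 62712)⟩,
    ⟨(nat_lit 0), (nat_lit 0), (nat_lit 0), (nat_lit 0)⟩,
    (nat_lit 62338), (nat_lit 62742)⟩))) (.nd (.nd (.lf ⟨⟨(nat_lit 0x2046b48000), (nat_lit 0x2046b26000), (nat_lit 0x2046ce0000), (nat_lit 0x2046cbe000)⟩,
    ⟨(nat_lit 0x1a57e), (nat_lit 0x1a564), (nat_lit 0x1a6ba), (nat_lit 0x1a6a0)⟩,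
    ⟨(nat_lit 0), (nat_lit 0), (nat_lit 0), (nat_lit 0)⟩,
    ⟨(nat_lit 0x2046b18000), (nat_lit 0x2046af6000), (nat_lit 0x2046cb0000), (nat_lit 0x2046c8e000)⟩,
    ⟨(nat_lit 0x1a560), (nat_lit 0x1a546), (nat_lit 0x1a69c), (nat_lit 0x1a682)⟩,
    ⟨(nat_lit 0x205cb6e000), (nat_lit 0x205cb32000), (nat_lit 0x205ce2a000), (nat_lit 0x205cdee000)⟩,
    (nat_lit 0x1a546), (nat_lit 0x1a6ba)⟩) (.lf ⟨⟨(nat_lit 0x205cbb0000), (nat_lit 0x205cb74000), (nat_lit 0x205ce6c000), (nat_lit 0x205ce30000)⟩,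
    ⟨(nat_lit 0x1b633), (nat_lit 0x1b60f), (nat_lit 0x1b7c3), (nat_lit 0x1b79f)⟩,
    ⟨(nat_lit 0x2046b48000), (nat_lit 0x2046b26000), (nat_lit 0x2046ce0000), (nat_lit 0x2046cbe000)⟩,
    ⟨(nat_lit 0x205cb6e000), (nat_lit 0x205cb32000), (nat_lit 0x205ce2a000), (nat_lit 0x205cdee000)⟩,
    ⟨(nat_lit 0x1b657), (nat_lit 0x1b633), (nat_lit 0x1b7e7), (nat_lit 0x1b7c3)⟩,
    ⟨(nat_lit 0), (nat_lit 0), (nat_lit 0), (nat_lit 0)⟩,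
    (nat_lit 0x1b60f), (nat_lit 0x1b7e7)⟩)) (.nd (.lf ⟨⟨(nat_lit 0x2000000000), (nat_lit 0x2000000000), (nat_lit 0x2000000000), (nat_lit 0x2000000000)⟩,
    ⟨(nat_lit 0x100000), (nat_lit 0x100000), (nat_lit 0x100000), (nat_lit 0x100000)⟩,
    ⟨(nat_lit 0), (nat_lit 0), (nat_lit 0), (nat_lit 0)⟩,
    ⟨(nat_lit 0x2000000000), (nat_lit 0x2000000000), (nat_lit 0x2000000000), (nat_lit 0x2000000000)⟩,
    ⟨(nat_lit 0x100000), (nat_lit 0x100000), (nat_lit 0x100000), (nat_lit 0x100000)⟩,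
    ⟨(nat_lit 0x208b139000), (nat_lit 0x208b0b3000), (nat_lit 0x208b763000), (nat_lit 0x208b6dd000)⟩,
    (nat_lit 0x100000), (nat_lit 0x100000)⟩) (.lf ⟨⟨(nat_lit 0x208b1af000), (nat_lit 0x208b129000), (nat_lit 0x208b7d9000), (nat_lit 0x208b753000)⟩,
    ⟨(nat_lit 0x739e4), (nat_lit 0x73904), (nat_lit 0x7443e), (nat_lit 0x7435e)⟩,
    ⟨(nat_lit 0x2000000000), (nat_lit 0x2000000000), (nat_lit 0x2000000000), (nat_lit 0x2000000000)⟩,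
    ⟨(nat_lit 0x208b139000), (nat_lit 0x208b0b3000), (nat_lit 0x208b763000), (nat_lit 0x208b6dd000)⟩,
    ⟨(nat_lit 0x73a8e), (nat_lit 0x739ae), (nat_lit 0x744e8), (nat_lit 0x74408)⟩,
    ⟨(nat_lit 0), (nat_lit 0), (nat_lit 0), (nat_lit 0)⟩,
    (nat_lit 0x73904), (nat_lit 0x744e8)⟩)))
  nx := .nd (.nd (.lf (nat_lit 80)) (.lf (nat_lit 47))) (.nd (.lf (nat_lit 112)) (.lf (nat_lit 81)))
  mir := (nat_lit 80)

noncomputable def cx82 : CtxD where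
  sd := .nd (.nd (.nd (.lf ⟨⟨(nat_lit 0x2000000000), (nat_lit 0x2000000000), (nat_lit 0x2000000000), (nat_lit 0x2000000000)⟩,
    ⟨(nat_lit 0x21b72), (nat_lit 0x21b72), (nat_lit 0x21b72), (nat_lit 0x21b72)⟩,
    ⟨(nat_lit 0), (nat_lit 0), (nat_lit 0), (nat_lit 0)⟩,
    ⟨(nat_lit 0x2000000000), (nat_lit 0x2000000000), (nat_lit 0x2000000000), (nat_lit 0x2000000000)⟩,
    ⟨(nat_lit 0x21b70), (nat_lit 0x21b70), (nat_lit 0x21b70), (nat_lit 0x21b70)⟩,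
    ⟨(nat_lit 0x203778c000), (nat_lit 0x203774e000), (nat_lit 0x20378ae000), (nat_lit 0x2037870000)⟩,
    (nat_lit 0x21b70), (nat_lit 0x21b72)⟩) (.lf ⟨⟨(nat_lit 0x20377ac000), (nat_lit 0x203776e000), (nat_lit 0x20378ce000), (nat_lit 0x2037890000)⟩,
    ⟨(nat_lit 0x8b7c5), (nat_lit 0x8b68b), (nat_lit 0x8bd97), (nat_lit 0x8bc5d)⟩,
    ⟨(nat_lit 0x2000000000), (nat_lit 0x2000000000), (nat_lit 0x2000000000), (nat_lit 0x2000000000)⟩,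
    ⟨(nat_lit 0x203778c000), (nat_lit 0x203774e000), (nat_lit 0x20378ae000), (nat_lit 0x2037870000)⟩,
    ⟨(nat_lit 0x8b829), (nat_lit 0x8b6ef), (nat_lit 0x8bdfb), (nat_lit 0x8bcc1)⟩,
    ⟨(nat_lit 0), (nat_lit 0), (nat_lit 0), (nat_lit 0)⟩,
    (nat_lit 0x8b68b), (nat_lit 0x8bdfb)⟩)) (.nd (.lf ⟨⟨(nat_lit 0x20d6fa6000), (nat_lit 0x20d6bf8000), (nat_lit 0x20d7eb4000), (nat_lit 0x20d7b06000)⟩,
    ⟨(nat_lit 0xa0a88), (nat_lit 0xa0508), (nat_lit 0xa1f28), (nat_lit 0xa19a8)⟩,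
    ⟨(nat_lit 0), (nat_lit 0), (nat_lit 0), (nat_lit 0)⟩,
    ⟨(nat_lit 0x20d6f02000), (nat_lit 0x20d6b54000), (nat_lit 0x20d7e10000), (nat_lit 0x20d7a62000)⟩,
    ⟨(nat_lit 0xa09c4), (nat_lit 0xa0444), (nat_lit 0xa1e64), (nat_lit 0xa18e4)⟩,
    ⟨(nat_lit 0x212db03000), (nat_lit 0x212d3c3000), (nat_lit 0x212f7d1000), (nat_lit 0x212f091000)⟩,
    (nat_lit 0xa0444), (nat_lit 0xa1f28)⟩) (.lf ⟨⟨(nat_lit 0x212dc15000), (nat_lit 0x212d4d5000), (nat_lit 0x212f8e3000), (nat_lit 0x212f1a3000)⟩,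
    ⟨(nat_lit 0x47b09), (nat_lit 0x47793), (nat_lit 0x48897), (nat_lit 0x48521)⟩,
    ⟨(nat_lit 0x20d6fa6000), (nat_lit 0x20d6bf8000), (nat_lit 0x20d7eb4000), (nat_lit 0x20d7b06000)⟩,
    ⟨(nat_lit 0x212db03000), (nat_lit 0x212d3c3000), (nat_lit 0x212f7d1000), (nat_lit 0x212f091000)⟩,
    ⟨(nat_lit 0x47b7b), (nat_lit 0x47805), (nat_lit 0x48909), (nat_lit 0x48593)⟩,
    ⟨(nat_lit 0), (nat_lit 0), (nat_lit 0), (nat_lit 0)⟩,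
    (nat_lit 0x47793), (nat_lit 0x48909)⟩))) (.nd (.nd (.lf ⟨⟨(nat_lit 0x2065ed9000), (nat_lit 0x2065e05000), (nat_lit 0x2066241000), (nat_lit 0x206616d000)⟩,
    ⟨(nat_lit 0x3bbd5), (nat_lit 0x3badd), (nat_lit 0x3bfff), (nat_lit 0x3bf07)⟩,
    ⟨(nat_lit 0), (nat_lit 0), (nat_lit 0), (nat_lit 0)⟩,
    ⟨(nat_lit 0x2065e99000), (nat_lit 0x2065dc5000), (nat_lit 0x2066201000), (nat_lit 0x206612d000)⟩,
    ⟨(nat_lit 0x3bb9f), (nat_lit 0x3baa7), (nat_lit 0x3bfc9), (nat_lit 0x3bed1)⟩,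
    ⟨(nat_lit 0x2095d58000), (nat_lit 0x2095b90000), (nat_lit 0x209649c000), (nat_lit 0x20962d4000)⟩,
    (nat_lit 0x3baa7), (nat_lit 0x3bfff)⟩) (.lf ⟨⟨(nat_lit 0x2095dbe000), (nat_lit 0x2095bf6000), (nat_lit 0x2096502000), (nat_lit 0x209633a000)⟩,
    ⟨(nat_lit 0x3933d), (nat_lit 0x391df), (nat_lit 0x39871), (nat_lit 0x39713)⟩,
    ⟨(nat_lit 0x2065ed9000), (nat_lit 0x2065e05000), (nat_lit 0x2066241000), (nat_lit 0x206616d000)⟩,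
    ⟨(nat_lit 0x2095d58000), (nat_lit 0x2095b90000), (nat_lit 0x209649c000), (nat_lit 0x20962d4000)⟩,
    ⟨(nat_lit 0x39379), (nat_lit 0x3921b), (nat_lit 0x398ad), (nat_lit 0x3974f)⟩,
    ⟨(nat_lit 0), (nat_lit 0), (nat_lit 0), (nat_lit 0)⟩,
    (nat_lit 0x391df), (nat_lit 0x398ad)⟩)) (.nd (.lf ⟨⟨(nat_lit 0x2000000000), (nat_lit 0x2000000000), (nat_lit 0x2000000000), (nat_lit 0x2000000000)⟩,
    ⟨(nat_lit 0x100000), (nat_lit 0x100000), (nat_lit 0x100000), (nat_lit 0x100000)⟩,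
    ⟨(nat_lit 0), (nat_lit 0), (nat_lit 0), (nat_lit 0)⟩,
    ⟨(nat_lit 0x2000000000), (nat_lit 0x2000000000), (nat_lit 0x2000000000), (nat_lit 0x2000000000)⟩,
    ⟨(nat_lit 0x100000), (nat_lit 0x100000), (nat_lit 0x100000), (nat_lit 0x100000)⟩,
    ⟨(nat_lit 0x212db03000), (nat_lit 0x212d3c3000), (nat_lit 0x212f7d1000), (nat_lit 0x212f091000)⟩,
    (nat_lit 0x100000), (nat_lit 0x100000)⟩) (.lf ⟨⟨(nat_lit 0x212dc15000), (nat_lit 0x212d4d5000), (nat_lit 0x212f8e3000), (nat_lit 0x212f1a3000)⟩,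
    ⟨(nat_lit 0x220585), (nat_lit 0x21eb45), (nat_lit 0x226c73), (nat_lit 0x225233)⟩,
    ⟨(nat_lit 0x2000000000), (nat_lit 0x2000000000), (nat_lit 0x2000000000), (nat_lit 0x2000000000)⟩,
    ⟨(nat_lit 0x212db03000), (nat_lit 0x212d3c3000), (nat_lit 0x212f7d1000), (nat_lit 0x212f091000)⟩,
    ⟨(nat_lit 0x2208d7), (nat_lit 0x21ee97), (nat_lit 0x226fc5), (nat_lit 0x225585)⟩,
    ⟨(nat_lit 0), (nat_lit 0), (nat_lit 0), (nat_lit 0)⟩,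
    (nat_lit 0x21eb45), (nat_lit 0x226fc5)⟩)))
  nx := .nd (.nd (.lf (nat_lit 46)) (.lf (nat_lit 75))) (.nd (.lf (nat_lit 113)) (.lf (nat_lit 82)))
  mir := (nat_lit 83)

noncomputable def cx83 : CtxD where
  sd := .nd (.nd (.nd (.lf ⟨⟨(nat_lit 0x2000000000), (nat_lit 0x2000000000), (nat_lit 0x2000000000), (nat_lit 0x2000000000)⟩,
    ⟨(nat_lit 0x21b72), (nat_lit 0x21b72), (nat_lit 0x21b72), (nat_lit 0x21b72)⟩,
    ⟨(nat_lit 0), (nat_lit 0), (nat_lit 0), (nat_lit 0)⟩,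
    ⟨(nat_lit 0x2000000000), (nat_lit 0x2000000000), (nat_lit 0x2000000000), (nat_lit 0x2000000000)⟩,
    ⟨(nat_lit 0x21b70), (nat_lit 0x21b70), (nat_lit 0x21b70), (nat_lit 0x21b70)⟩,
    ⟨(nat_lit 0x2028bba000), (nat_lit 0x2028b72000), (nat_lit 0x2028cf6000), (nat_lit 0x2028cae000)⟩,
    (nat_lit 0x21b70), (nat_lit 0x21b72)⟩) (.lf ⟨⟨(nat_lit 0x2028bda000), (nat_lit 0x2028b92000), (nat_lit 0x2028d16000), (nat_lit 0x2028cce000)⟩,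
    ⟨(nat_lit 0x4b4d8), (nat_lit 0x4b3cc), (nat_lit 0x4b962), (nat_lit 0x4b856)⟩,
    ⟨(nat_lit 0x2000000000), (nat_lit 0x2000000000), (nat_lit 0x2000000000), (nat_lit 0x2000000000)⟩,
    ⟨(nat_lit 0x2028bba000), (nat_lit 0x2028b72000), (nat_lit 0x2028cf6000), (nat_lit 0x2028cae000)⟩,
    ⟨(nat_lit 0x4b522), (nat_lit 0x4b416), (nat_lit 0x4b9ac), (nat_lit 0x4b8a0)⟩,
    ⟨(nat_lit 0), (nat_lit 0), (nat_lit 0), (nat_lit 0)⟩,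
    (nat_lit 0x4b3cc), (nat_lit 0x4b9ac)⟩)) (.nd (.lf ⟨⟨(nat_lit 0x207363e000), (nat_lit 0x20733fa000), (nat_lit 0x2073f0a000), (nat_lit 0x2073cc6000)⟩,
    ⟨(nat_lit 0x412a5), (nat_lit 0x41015), (nat_lit 0x41c39), (nat_lit 0x419a9)⟩,
    ⟨(nat_lit 0), (nat_lit 0), (nat_lit 0), (nat_lit 0)⟩,
    ⟨(nat_lit 0x20735d0000), (nat_lit 0x207338c000), (nat_lit 0x2073e9c000), (nat_lit 0x2073c58000)⟩,
    ⟨(nat_lit 0x41243), (nat_lit 0x40fb3), (nat_lit 0x41bd7), (nat_lit 0x41947)⟩,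
    ⟨(nat_lit 0x208d3dc000), (nat_lit 0x208d076000), (nat_lit 0x208e106000), (nat_lit 0x208dda0000)⟩,
    (nat_lit 0x40fb3), (nat_lit 0x41c39)⟩) (.lf ⟨⟨(nat_lit 0x208d472000), (nat_lit 0x208d10c000), (nat_lit 0x208e19c000), (nat_lit 0x208de36000)⟩,
    ⟨(nat_lit 64353), (nat_lit 64159), (nat_lit 65113), (nat_lit 64919)⟩,
    ⟨(nat_lit 0x207363e000), (nat_lit 0x20733fa000), (nat_lit 0x2073f0a000), (nat_lit 0x2073cc6000)⟩,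
    ⟨(nat_lit 0x208d3dc000), (nat_lit 0x208d076000), (nat_lit 0x208e106000), (nat_lit 0x208dda0000)⟩,
    ⟨(nat_lit 64381), (nat_lit 64187), (nat_lit 65141), (nat_lit 64947)⟩,
    ⟨(nat_lit 0), (nat_lit 0), (nat_lit 0), (nat_lit 0)⟩,
    (nat_lit 64159), (nat_lit 65141)⟩))) (.nd (.nd (.lf ⟨⟨(nat_lit 0x204743b000), (nat_lit 0x204735d000), (nat_lit 0x2047793000), (nat_lit 0x20476b5000)⟩,
    ⟨(nat_lit 0x1ac7f), (nat_lit 0x1abd9), (nat_lit 0x1af1d), (nat_lit 0x1ae77)⟩,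
    ⟨(nat_lit 0), (nat_lit 0), (nat_lit 0), (nat_lit 0)⟩,
    ⟨(nat_lit 0x20473ff000), (nat_lit 0x2047321000), (nat_lit 0x2047757000), (nat_lit 0x2047679000)⟩,
    ⟨(nat_lit 0x1ac5f), (nat_lit 0x1abb9), (nat_lit 0x1aefd), (nat_lit 0x1ae57)⟩,
    ⟨(nat_lit 0x205dab6000), (nat_lit 0x205d938000), (nat_lit 0x205e07a000), (nat_lit 0x205defc000)⟩,
    (nat_lit 0x1abb9), (nat_lit 0x1af1d)⟩) (.lf ⟨⟨(nat_lit 0x205db0a000), (nat_lit 0x205d98c000), (nat_lit 0x205e0ce000), (nat_lit 0x205df50000)⟩,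
    ⟨(nat_lit 0x1bee1), (nat_lit 0x1bdfd), (nat_lit 0x1c233), (nat_lit 0x1c14f)⟩,
    ⟨(nat_lit 0x204743b000), (nat_lit 0x204735d000), (nat_lit 0x2047793000), (nat_lit 0x20476b5000)⟩,
    ⟨(nat_lit 0x205dab6000), (nat_lit 0x205d938000), (nat_lit 0x205e07a000), (nat_lit 0x205defc000)⟩,
    ⟨(nat_lit 0x1bf07), (nat_lit 0x1be23), (nat_lit 0x1c259), (nat_lit 0x1c175)⟩,
    ⟨(nat_lit 0), (nat_lit 0), (nat_lit 0), (nat_lit 0)⟩,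
    (nat_lit 0x1bdfd), (nat_lit 0x1c259)⟩)) (.nd (.lf ⟨⟨(nat_lit 0x2000000000), (nat_lit 0x2000000000), (nat_lit 0x2000000000), (nat_lit 0x2000000000)⟩,
    ⟨(nat_lit 0x100000), (nat_lit 0x100000), (nat_lit 0x100000), (nat_lit 0x100000)⟩,
    ⟨(nat_lit 0), (nat_lit 0), (nat_lit 0), (nat_lit 0)⟩,
    ⟨(nat_lit 0x2000000000), (nat_lit 0x2000000000), (nat_lit 0x2000000000), (nat_lit 0x2000000000)⟩,
    ⟨(nat_lit 0x100000), (nat_lit 0x100000), (nat_lit 0x100000), (nat_lit 0x100000)⟩,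
    ⟨(nat_lit 0x208d3dc000), (nat_lit 0x208d076000), (nat_lit 0x208e106000), (nat_lit 0x208dda0000)⟩,
    (nat_lit 0x100000), (nat_lit 0x100000)⟩) (.lf ⟨⟨(nat_lit 0x208d472000), (nat_lit 0x208d10c000), (nat_lit 0x208e19c000), (nat_lit 0x208de36000)⟩,
    ⟨(nat_lit 0x774bc), (nat_lit 0x76efc), (nat_lit 0x78b4a), (nat_lit 0x7858a)⟩,
    ⟨(nat_lit 0x2000000000), (nat_lit 0x2000000000), (nat_lit 0x2000000000), (nat_lit 0x2000000000)⟩,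
    ⟨(nat_lit 0x208d3dc000), (nat_lit 0x208d076000), (nat_lit 0x208e106000), (nat_lit 0x208dda0000)⟩,
    ⟨(nat_lit 0x77588), (nat_lit 0x76fc8), (nat_lit 0x78c16), (nat_lit 0x78656)⟩,
    ⟨(nat_lit 0), (nat_lit 0), (nat_lit 0), (nat_lit 0)⟩,
    (nat_lit 0x76efc), (nat_lit 0x78c16)⟩)))
  nx := .nd (.nd (.lf (nat_lit 74)) (.lf (nat_lit 47))) (.nd (.lf (nat_lit 112)) (.lf (nat_lit 83)))
  mir := (nat_lit 82)

noncomputable def cx84 : CtxD where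
  sd := .nd (.nd (.nd (.lf ⟨⟨(nat_lit 0x2000000000), (nat_lit 0x2000000000), (nat_lit 0x2000000000), (nat_lit 0x2000000000)⟩,
    ⟨(nat_lit 0x21b72), (nat_lit 0x21b72), (nat_lit 0x21b72), (nat_lit 0x21b72)⟩,
    ⟨(nat_lit 0), (nat_lit 0), (nat_lit 0), (nat_lit 0)⟩,
    ⟨(nat_lit 0x2000000000), (nat_lit 0x2000000000), (nat_lit 0x2000000000), (nat_lit 0x2000000000)⟩,
    ⟨(nat_lit 0x21b70), (nat_lit 0x21b70), (nat_lit 0x21b70), (nat_lit 0x21b70)⟩,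
    ⟨(nat_lit 0x2036dfa000), (nat_lit 0x2036dc8000), (nat_lit 0x2036ea8000), (nat_lit 0x2036e76000)⟩,
    (nat_lit 0x21b70), (nat_lit 0x21b72)⟩) (.lf ⟨⟨(nat_lit 0x2036e18000), (nat_lit 0x2036de6000), (nat_lit 0x2036ec6000), (nat_lit 0x2036e94000)⟩,
    ⟨(nat_lit 0x885db), (nat_lit 0x884e5), (nat_lit 0x8897f), (nat_lit 0x88889)⟩,
    ⟨(nat_lit 0x2000000000), (nat_lit 0x2000000000), (nat_lit 0x2000000000), (nat_lit 0x2000000000)⟩,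
    ⟨(nat_lit 0x2036dfa000), (nat_lit 0x2036dc8000), (nat_lit 0x2036ea8000), (nat_lit 0x2036e76000)⟩,
    ⟨(nat_lit 0x8863b), (nat_lit 0x88545), (nat_lit 0x889df), (nat_lit 0x888e9)⟩,
    ⟨(nat_lit 0), (nat_lit 0), (nat_lit 0), (nat_lit 0)⟩,
    (nat_lit 0x884e5), (nat_lit 0x889df)⟩)) (.nd (.lf ⟨⟨(nat_lit 0x20d01f5000), (nat_lit 0x20cff2d000), (nat_lit 0x20d06c9000), (nat_lit 0x20d0401000)⟩,
    ⟨(nat_lit 0x9857d), (nat_lit 0x9816b), (nat_lit 0x98811), (nat_lit 0x983ff)⟩,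
    ⟨(nat_lit 0), (nat_lit 0), (nat_lit 0), (nat_lit 0)⟩,
    ⟨(nat_lit 0x20d0147000), (nat_lit 0x20cfe7f000), (nat_lit 0x20d061b000), (nat_lit 0x20d0353000)⟩,
    ⟨(nat_lit 0x984a3), (nat_lit 0x98091), (nat_lit 0x98737), (nat_lit 0x98325)⟩,
    ⟨(nat_lit 0x212119c000), (nat_lit 0x2120c3e000), (nat_lit 0x21218d4000), (nat_lit 0x2121376000)⟩,
    (nat_lit 0x98091), (nat_lit 0x98811)⟩) (.lf ⟨⟨(nat_lit 0x21212c6000), (nat_lit 0x2120d68000), (nat_lit 0x21219fe000), (nat_lit 0x21214a0000)⟩,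
    ⟨(nat_lit 0x41ea2), (nat_lit 0x41c30), (nat_lit 0x42176), (nat_lit 0x41f04)⟩,
    ⟨(nat_lit 0x20d01f5000), (nat_lit 0x20cff2d000), (nat_lit 0x20d06c9000), (nat_lit 0x20d0401000)⟩,
    ⟨(nat_lit 0x212119c000), (nat_lit 0x2120c3e000), (nat_lit 0x21218d4000), (nat_lit 0x2121376000)⟩,
    ⟨(nat_lit 0x41f1c), (nat_lit 0x41caa), (nat_lit 0x421f0), (nat_lit 0x41f7e)⟩,
    ⟨(nat_lit 0), (nat_lit 0), (nat_lit 0), (nat_lit 0)⟩,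
    (nat_lit 0x41c30), (nat_lit 0x421f0)⟩))) (.nd (.nd (.lf ⟨⟨(nat_lit 0x206458b000), (nat_lit 0x20644e5000), (nat_lit 0x20646c3000), (nat_lit 0x206461d000)⟩,
    ⟨(nat_lit 0x39b92), (nat_lit 0x39ad4), (nat_lit 0x39d5c), (nat_lit 0x39c9e)⟩,
    ⟨(nat_lit 0), (nat_lit 0), (nat_lit 0), (nat_lit 0)⟩,
    ⟨(nat_lit 0x206454d000), (nat_lit 0x20644a7000), (nat_lit 0x2064685000), (nat_lit 0x20645df000)⟩,
    ⟨(nat_lit 0x39b5a), (nat_lit 0x39a9c), (nat_lit 0x39d24), (nat_lit 0x39c66)⟩,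
    ⟨(nat_lit 0x209285f000), (nat_lit 0x20926fd000), (nat_lit 0x2092ab7000), (nat_lit 0x2092955000)⟩,
    (nat_lit 0x39a9c), (nat_lit 0x39d5c)⟩) (.lf ⟨⟨(nat_lit 0x20928c7000), (nat_lit 0x2092765000), (nat_lit 0x2092b1f000), (nat_lit 0x20929bd000)⟩,
    ⟨(nat_lit 0x37092), (nat_lit 0x36f88), (nat_lit 0x3717a), (nat_lit 0x37070)⟩,
    ⟨(nat_lit 0x206458b000), (nat_lit 0x20644e5000), (nat_lit 0x20646c3000), (nat_lit 0x206461d000)⟩,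
    ⟨(nat_lit 0x209285f000), (nat_lit 0x20926fd000), (nat_lit 0x2092ab7000), (nat_lit 0x2092955000)⟩,
    ⟨(nat_lit 0x370d2), (nat_lit 0x36fc8), (nat_lit 0x371ba), (nat_lit 0x370b0)⟩,
    ⟨(nat_lit 0), (nat_lit 0), (nat_lit 0), (nat_lit 0)⟩,
    (nat_lit 0x36f88), (nat_lit 0x371ba)⟩)) (.nd (.lf ⟨⟨(nat_lit 0x2000000000), (nat_lit 0x2000000000), (nat_lit 0x2000000000), (nat_lit 0x2000000000)⟩,
    ⟨(nat_lit 0x100000), (nat_lit 0x100000), (nat_lit 0x100000), (nat_lit 0x100000)⟩,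
    ⟨(nat_lit 0), (nat_lit 0), (nat_lit 0), (nat_lit 0)⟩,
    ⟨(nat_lit 0x2000000000), (nat_lit 0x2000000000), (nat_lit 0x2000000000), (nat_lit 0x2000000000)⟩,
    ⟨(nat_lit 0x100000), (nat_lit 0x100000), (nat_lit 0x100000), (nat_lit 0x100000)⟩,
    ⟨(nat_lit 0x212119c000), (nat_lit 0x2120c3e000), (nat_lit 0x21218d4000), (nat_lit 0x2121376000)⟩,
    (nat_lit 0x100000), (nat_lit 0x100000)⟩) (.lf ⟨⟨(nat_lit 0x21212c6000), (nat_lit 0x2120d68000), (nat_lit 0x21219fe000), (nat_lit 0x21214a0000)⟩,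
    ⟨(nat_lit 0x1f47e7), (nat_lit 0x1f3553), (nat_lit 0x1f5d67), (nat_lit 0x1f4ad3)⟩,
    ⟨(nat_lit 0x2000000000), (nat_lit 0x2000000000), (nat_lit 0x2000000000), (nat_lit 0x2000000000)⟩,
    ⟨(nat_lit 0x212119c000), (nat_lit 0x2120c3e000), (nat_lit 0x21218d4000), (nat_lit 0x2121376000)⟩,
    ⟨(nat_lit 0x1f4b79), (nat_lit 0x1f38e5), (nat_lit 0x1f60f9), (nat_lit 0x1f4e65)⟩,
    ⟨(nat_lit 0), (nat_lit 0), (nat_lit 0), (nat_lit 0)⟩,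
    (nat_lit 0x1f3553), (nat_lit 0x1f60f9)⟩)))
  nx := .nd (.nd (.lf (nat_lit 48)) (.lf (nat_lit 73))) (.nd (.lf (nat_lit 115)) (.lf (nat_lit 84)))
  mir := (nat_lit 85)

noncomputable def cx85 : CtxD where
  sd := .nd (.nd (.nd (.lf ⟨⟨(nat_lit 0x2000000000), (nat_lit 0x2000000000), (nat_lit 0x2000000000), (nat_lit 0x2000000000)⟩,
    ⟨(nat_lit 0x21b72), (nat_lit 0x21b72), (nat_lit 0x21b72), (nat_lit 0x21b72)⟩,
    ⟨(nat_lit 0), (nat_lit 0), (nat_lit 0), (nat_lit 0)⟩,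
    ⟨(nat_lit 0x2000000000), (nat_lit 0x2000000000), (nat_lit 0x2000000000), (nat_lit 0x2000000000)⟩,
    ⟨(nat_lit 0x21b70), (nat_lit 0x21b70), (nat_lit 0x21b70), (nat_lit 0x21b70)⟩,
    ⟨(nat_lit 0x20296a6000), (nat_lit 0x202966e000), (nat_lit 0x2029734000), (nat_lit 0x20296fc000)⟩,
    (nat_lit 0x21b70), (nat_lit 0x21b72)⟩) (.lf ⟨⟨(nat_lit 0x20296c2000), (nat_lit 0x202968a000), (nat_lit 0x2029750000), (nat_lit 0x2029718000)⟩,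
    ⟨(nat_lit 0x4dce8), (nat_lit 0x4dc1a), (nat_lit 0x4deee), (nat_lit 0x4de20)⟩,
    ⟨(nat_lit 0x2000000000), (nat_lit 0x2000000000), (nat_lit 0x2000000000), (nat_lit 0x2000000000)⟩,
    ⟨(nat_lit 0x20296a6000), (nat_lit 0x202966e000), (nat_lit 0x2029734000), (nat_lit 0x20296fc000)⟩,
    ⟨(nat_lit 0x4dd30), (nat_lit 0x4dc62), (nat_lit 0x4df36), (nat_lit 0x4de68)⟩,
    ⟨(nat_lit 0), (nat_lit 0), (nat_lit 0), (nat_lit 0)⟩,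
    (nat_lit 0x4dc1a), (nat_lit 0x4df36)⟩)) (.nd (.lf ⟨⟨(nat_lit 0x2077cf6000), (nat_lit 0x2077b2a000), (nat_lit 0x2077ec2000), (nat_lit 0x2077cf6000)⟩,
    ⟨(nat_lit 0x45d0a), (nat_lit 0x45af2), (nat_lit 0x45e2c), (nat_lit 0x45c14)⟩,
    ⟨(nat_lit 0), (nat_lit 0), (nat_lit 0), (nat_lit 0)⟩,
    ⟨(nat_lit 0x2077c82000), (nat_lit 0x2077ab6000), (nat_lit 0x2077e4e000), (nat_lit 0x2077c82000)⟩,
    ⟨(nat_lit 0x45c98), (nat_lit 0x45a80), (nat_lit 0x45dba), (nat_lit 0x45ba2)⟩,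
    ⟨(nat_lit 0x2093d84000), (nat_lit 0x2093ac6000), (nat_lit 0x209402c000), (nat_lit 0x2093d6e000)⟩,
    (nat_lit 0x45a80), (nat_lit 0x45e2c)⟩) (.lf ⟨⟨(nat_lit 0x2093e26000), (nat_lit 0x2093b68000), (nat_lit 0x20940ce000), (nat_lit 0x2093e10000)⟩,
    ⟨(nat_lit 0x113b1), (nat_lit 0x1130d), (nat_lit 0x1146f), (nat_lit 0x113cb)⟩,
    ⟨(nat_lit 0x2077cf6000), (nat_lit 0x2077b2a000), (nat_lit 0x2077ec2000), (nat_lit 0x2077cf6000)⟩,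
    ⟨(nat_lit 0x2093d84000), (nat_lit 0x2093ac6000), (nat_lit 0x209402c000), (nat_lit 0x2093d6e000)⟩,
    ⟨(nat_lit 0x113d3), (nat_lit 0x1132f), (nat_lit 0x11491), (nat_lit 0x113ed)⟩,
    ⟨(nat_lit 0), (nat_lit 0), (nat_lit 0), (nat_lit 0)⟩,
    (nat_lit 0x1130d), (nat_lit 0x11491)⟩))) (.nd (.nd (.lf ⟨⟨(nat_lit 0x2048eeb000), (nat_lit 0x2048e41000), (nat_lit 0x2048f8d000), (nat_lit 0x2048ee3000)⟩,
    ⟨(nat_lit 0x1c234), (nat_lit 0x1c1b0), (nat_lit 0x1c2f4), (nat_lit 0x1c270)⟩,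
    ⟨(nat_lit 0), (nat_lit 0), (nat_lit 0), (nat_lit 0)⟩,
    ⟨(nat_lit 0x2048eb1000), (nat_lit 0x2048e07000), (nat_lit 0x2048f53000), (nat_lit 0x2048ea9000)⟩,
    ⟨(nat_lit 0x1c212), (nat_lit 0x1c18e), (nat_lit 0x1c2d2), (nat_lit 0x1c24e)⟩,
    ⟨(nat_lit 0x20608b0000), (nat_lit 0x2060784000), (nat_lit 0x20609c4000), (nat_lit 0x2060898000)⟩,
    (nat_lit 0x1c18e), (nat_lit 0x1c2f4)⟩) (.lf ⟨⟨(nat_lit 0x2060906000), (nat_lit 0x20607da000), (nat_lit 0x2060a1a000), (nat_lit 0x20608ee000)⟩,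
    ⟨(nat_lit 0x1d885), (nat_lit 0x1d7cd), (nat_lit 0x1d8df), (nat_lit 0x1d827)⟩,
    ⟨(nat_lit 0x2048eeb000), (nat_lit 0x2048e41000), (nat_lit 0x2048f8d000), (nat_lit 0x2048ee3000)⟩,
    ⟨(nat_lit 0x20608b0000), (nat_lit 0x2060784000), (nat_lit 0x20609c4000), (nat_lit 0x2060898000)⟩,
    ⟨(nat_lit 0x1d8b1), (nat_lit 0x1d7f9), (nat_lit 0x1d90b), (nat_lit 0x1d853)⟩,
    ⟨(nat_lit 0), (nat_lit 0), (nat_lit 0), (nat_lit 0)⟩,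
    (nat_lit 0x1d7cd), (nat_lit 0x1d90b)⟩)) (.nd (.lf ⟨⟨(nat_lit 0x2000000000), (nat_lit 0x2000000000), (nat_lit 0x2000000000), (nat_lit 0x2000000000)⟩,
    ⟨(nat_lit 0x100000), (nat_lit 0x100000), (nat_lit 0x100000), (nat_lit 0x100000)⟩,
    ⟨(nat_lit 0), (nat_lit 0), (nat_lit 0), (nat_lit 0)⟩,
    ⟨(nat_lit 0x2000000000), (nat_lit 0x2000000000), (nat_lit 0x2000000000), (nat_lit 0x2000000000)⟩,
    ⟨(nat_lit 0x100000), (nat_lit 0x100000), (nat_lit 0x100000), (nat_lit 0x100000)⟩,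
    ⟨(nat_lit 0x2093d84000), (nat_lit 0x2093ac6000), (nat_lit 0x209402c000), (nat_lit 0x2093d6e000)⟩,
    (nat_lit 0x100000), (nat_lit 0x100000)⟩) (.lf ⟨⟨(nat_lit 0x2093e26000), (nat_lit 0x2093b68000), (nat_lit 0x20940ce000), (nat_lit 0x2093e10000)⟩,
    ⟨(nat_lit 0x82d62), (nat_lit 0x82886), (nat_lit 0x83300), (nat_lit 0x82e24)⟩,
    ⟨(nat_lit 0x2000000000), (nat_lit 0x2000000000), (nat_lit 0x2000000000), (nat_lit 0x2000000000)⟩,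
    ⟨(nat_lit 0x2093d84000), (nat_lit 0x2093ac6000), (nat_lit 0x209402c000), (nat_lit 0x2093d6e000)⟩,
    ⟨(nat_lit 0x82e54), (nat_lit 0x82978), (nat_lit 0x833f2), (nat_lit 0x82f16)⟩,
    ⟨(nat_lit 0), (nat_lit 0), (nat_lit 0), (nat_lit 0)⟩,
    (nat_lit 0x82886), (nat_lit 0x833f2)⟩)))
  nx := .nd (.nd (.lf (nat_lit 72)) (.lf (nat_lit 49))) (.nd (.lf (nat_lit 114)) (.lf (nat_lit 85)))
  mir := (nat_lit 84)

noncomputable def cx86 : CtxD where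
  sd := .nd (.nd (.nd (.lf ⟨⟨(nat_lit 0x2000000000), (nat_lit 0x2000000000), (nat_lit 0x2000000000), (nat_lit 0x2000000000)⟩,
    ⟨(nat_lit 0x21b72), (nat_lit 0x21b72), (nat_lit 0x21b72), (nat_lit 0x21b72)⟩,
    ⟨(nat_lit 0), (nat_lit 0), (nat_lit 0), (nat_lit 0)⟩,
    ⟨(nat_lit 0x2000000000), (nat_lit 0x2000000000), (nat_lit 0x2000000000), (nat_lit 0x2000000000)⟩,
    ⟨(nat_lit 0x21b70), (nat_lit 0x21b70), (nat_lit 0x21b70), (nat_lit 0x21b70)⟩,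
    ⟨(nat_lit 0x2036bad000), (nat_lit 0x2036b93000), (nat_lit 0x2036cef000), (nat_lit 0x2036cd5000)⟩,
    (nat_lit 0x21b70), (nat_lit 0x21b72)⟩) (.lf ⟨⟨(nat_lit 0x2036bc3000), (nat_lit 0x2036ba9000), (nat_lit 0x2036d05000), (nat_lit 0x2036ceb000)⟩,
    ⟨(nat_lit 0x87a06), (nat_lit 0x87980), (nat_lit 0x88072), (nat_lit 0x87fec)⟩,
    ⟨(nat_lit 0x2000000000), (nat_lit 0x2000000000), (nat_lit 0x2000000000), (nat_lit 0x2000000000)⟩,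
    ⟨(nat_lit 0x2036bad000), (nat_lit 0x2036b93000), (nat_lit 0x2036cef000), (nat_lit 0x2036cd5000)⟩,
    ⟨(nat_lit 0x87a50), (nat_lit 0x879ca), (nat_lit 0x880bc), (nat_lit 0x88036)⟩,
    ⟨(nat_lit 0), (nat_lit 0), (nat_lit 0), (nat_lit 0)⟩,
    (nat_lit 0x87980), (nat_lit 0x880bc)⟩)) (.nd (.lf ⟨⟨(nat_lit 0x20ce819000), (nat_lit 0x20ce697000), (nat_lit 0x20cf693000), (nat_lit 0x20cf511000)⟩,
    ⟨(nat_lit 0x96662), (nat_lit 0x96430), (nat_lit 0x97862), (nat_lit 0x97630)⟩,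
    ⟨(nat_lit 0), (nat_lit 0), (nat_lit 0), (nat_lit 0)⟩,
    ⟨(nat_lit 0x20ce7ad000), (nat_lit 0x20ce62b000), (nat_lit 0x20cf627000), (nat_lit 0x20cf4a5000)⟩,
    ⟨(nat_lit 0x965d6), (nat_lit 0x963a4), (nat_lit 0x977d6), (nat_lit 0x975a4)⟩,
    ⟨(nat_lit 0x211e354000), (nat_lit 0x211e06e000), (nat_lit 0x211fdc0000), (nat_lit 0x211fada000)⟩,
    (nat_lit 0x963a4), (nat_lit 0x97862)⟩) (.lf ⟨⟨(nat_lit 0x211e406000), (nat_lit 0x211e120000), (nat_lit 0x211fe72000), (nat_lit 0x211fb8c000)⟩,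
    ⟨(nat_lit 0x40a3e), (nat_lit 0x408ee), (nat_lit 0x415ec), (nat_lit 0x4149c)⟩,
    ⟨(nat_lit 0x20ce819000), (nat_lit 0x20ce697000), (nat_lit 0x20cf693000), (nat_lit 0x20cf511000)⟩,
    ⟨(nat_lit 0x211e354000), (nat_lit 0x211e06e000), (nat_lit 0x211fdc0000), (nat_lit 0x211fada000)⟩,
    ⟨(nat_lit 0x40a88), (nat_lit 0x40938), (nat_lit 0x41636), (nat_lit 0x414e6)⟩,
    ⟨(nat_lit 0), (nat_lit 0), (nat_lit 0), (nat_lit 0)⟩,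
    (nat_lit 0x408ee), (nat_lit 0x41636)⟩))) (.nd (.nd (.lf ⟨⟨(nat_lit 0x2063f5b000), (nat_lit 0x2063f01000), (nat_lit 0x20642cd000), (nat_lit 0x2064273000)⟩,
    ⟨(nat_lit 0x393e9), (nat_lit 0x39381), (nat_lit 0x39823), (nat_lit 0x397bb)⟩,
    ⟨(nat_lit 0), (nat_lit 0), (nat_lit 0), (nat_lit 0)⟩,
    ⟨(nat_lit 0x2063f33000), (nat_lit 0x2063ed9000), (nat_lit 0x20642a5000), (nat_lit 0x206424b000)⟩,
    ⟨(nat_lit 0x393c1), (nat_lit 0x39359), (nat_lit 0x397fb), (nat_lit 0x39793)⟩,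
    ⟨(nat_lit 0x2091bbe000), (nat_lit 0x2091afe000), (nat_lit 0x20922e6000), (nat_lit 0x2092226000)⟩,
    (nat_lit 0x39359), (nat_lit 0x39823)⟩) (.lf ⟨⟨(nat_lit 0x2091c00000), (nat_lit 0x2091b40000), (nat_lit 0x2092328000), (nat_lit 0x2092268000)⟩,
    ⟨(nat_lit 0x3685a), (nat_lit 0x367ca), (nat_lit 0x36d1e), (nat_lit 0x36c8e)⟩,
    ⟨(nat_lit 0x2063f5b000), (nat_lit 0x2063f01000), (nat_lit 0x20642cd000), (nat_lit 0x2064273000)⟩,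
    ⟨(nat_lit 0x2091bbe000), (nat_lit 0x2091afe000), (nat_lit 0x20922e6000), (nat_lit 0x2092226000)⟩,
    ⟨(nat_lit 0x36886), (nat_lit 0x367f6), (nat_lit 0x36d4a), (nat_lit 0x36cba)⟩,
    ⟨(nat_lit 0), (nat_lit 0), (nat_lit 0), (nat_lit 0)⟩,
    (nat_lit 0x367ca), (nat_lit 0x36d4a)⟩)) (.nd (.lf ⟨⟨(nat_lit 0x2000000000), (nat_lit 0x2000000000), (nat_lit 0x2000000000), (nat_lit 0x2000000000)⟩,
    ⟨(nat_lit 0x100000), (nat_lit 0x100000), (nat_lit 0x100000), (nat_lit 0x100000)⟩,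
    ⟨(nat_lit 0), (nat_lit 0), (nat_lit 0), (nat_lit 0)⟩,
    ⟨(nat_lit 0x2000000000), (nat_lit 0x2000000000), (nat_lit 0x2000000000), (nat_lit 0x2000000000)⟩,
    ⟨(nat_lit 0x100000), (nat_lit 0x100000), (nat_lit 0x100000), (nat_lit 0x100000)⟩,
    ⟨(nat_lit 0x211e354000), (nat_lit 0x211e06e000), (nat_lit 0x211fdc0000), (nat_lit 0x211fada000)⟩,
    (nat_lit 0x100000), (nat_lit 0x100000)⟩) (.lf ⟨⟨(nat_lit 0x211e406000), (nat_lit 0x211e120000), (nat_lit 0x211fe72000), (nat_lit 0x211fb8c000)⟩,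
    ⟨(nat_lit 0x1ead13), (nat_lit 0x1ea31f), (nat_lit 0x1f05c3), (nat_lit 0x1efbcf)⟩,
    ⟨(nat_lit 0x2000000000), (nat_lit 0x2000000000), (nat_lit 0x2000000000), (nat_lit 0x2000000000)⟩,
    ⟨(nat_lit 0x211e354000), (nat_lit 0x211e06e000), (nat_lit 0x211fdc0000), (nat_lit 0x211fada000)⟩,
    ⟨(nat_lit 0x1eaf41), (nat_lit 0x1ea54d), (nat_lit 0x1f07f1), (nat_lit 0x1efdfd)⟩,
    ⟨(nat_lit 0), (nat_lit 0), (nat_lit 0), (nat_lit 0)⟩,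
    (nat_lit 0x1ea31f), (nat_lit 0x1f07f1)⟩)))
  nx := .nd (.nd (.lf (nat_lit 48)) (.lf (nat_lit 73))) (.nd (.lf (nat_lit 115)) (.lf (nat_lit 86)))
  mir := (nat_lit 87)

noncomputable def cx87 : CtxD where
  sd := .nd (.nd (.nd (.lf ⟨⟨(nat_lit 0x2000000000), (nat_lit 0x2000000000), (nat_lit 0x2000000000), (nat_lit 0x2000000000)⟩,
    ⟨(nat_lit 0x21b72), (nat_lit 0x21b72), (nat_lit 0x21b72), (nat_lit 0x21b72)⟩,
    ⟨(nat_lit 0), (nat_lit 0), (nat_lit 0), (nat_lit 0)⟩,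
    ⟨(nat_lit 0x2000000000), (nat_lit 0x2000000000), (nat_lit 0x2000000000), (nat_lit 0x2000000000)⟩,
    ⟨(nat_lit 0x21b70), (nat_lit 0x21b70), (nat_lit 0x21b70), (nat_lit 0x21b70)⟩,
    ⟨(nat_lit 0x2029824000), (nat_lit 0x2029806000), (nat_lit 0x2029968000), (nat_lit 0x202994a000)⟩,
    (nat_lit 0x21b70), (nat_lit 0x21b72)⟩) (.lf ⟨⟨(nat_lit 0x202983a000), (nat_lit 0x202981c000), (nat_lit 0x202997e000), (nat_lit 0x2029960000)⟩,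
    ⟨(nat_lit 0x4e264), (nat_lit 0x4e1f4), (nat_lit 0x4e720), (nat_lit 0x4e6b0)⟩,
    ⟨(nat_lit 0x2000000000), (nat_lit 0x2000000000), (nat_lit 0x2000000000), (nat_lit 0x2000000000)⟩,
    ⟨(nat_lit 0x2029824000), (nat_lit 0x2029806000), (nat_lit 0x2029968000), (nat_lit 0x202994a000)⟩,
    ⟨(nat_lit 0x4e29e), (nat_lit 0x4e22e), (nat_lit 0x4e75a), (nat_lit 0x4e6ea)⟩,
    ⟨(nat_lit 0), (nat_lit 0), (nat_lit 0), (nat_lit 0)⟩,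
    (nat_lit 0x4e1f4), (nat_lit 0x4e75a)⟩)) (.nd (.lf ⟨⟨(nat_lit 0x207842c000), (nat_lit 0x2078330000), (nat_lit 0x2078cc6000), (nat_lit 0x2078bca000)⟩,
    ⟨(nat_lit 0x463b9), (nat_lit 0x46293), (nat_lit 0x46d0f), (nat_lit 0x46be9)⟩,
    ⟨(nat_lit 0), (nat_lit 0), (nat_lit 0), (nat_lit 0)⟩,
    ⟨(nat_lit 0x20783da000), (nat_lit 0x20782de000), (nat_lit 0x2078c74000), (nat_lit 0x2078b78000)⟩,
    ⟨(nat_lit 0x46367), (nat_lit 0x46241), (nat_lit 0x46cbd), (nat_lit 0x46b97)⟩,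
    ⟨(nat_lit 0x209488c000), (nat_lit 0x209470c000), (nat_lit 0x209559a000), (nat_lit 0x209541a000)⟩,
    (nat_lit 0x46241), (nat_lit 0x46d0f)⟩) (.lf ⟨⟨(nat_lit 0x20948fc000), (nat_lit 0x209477c000), (nat_lit 0x209560a000), (nat_lit 0x209548a000)⟩,
    ⟨(nat_lit 0x1167a), (nat_lit 0x11620), (nat_lit 0x119a0), (nat_lit 0x11946)⟩,
    ⟨(nat_lit 0x207842c000), (nat_lit 0x2078330000), (nat_lit 0x2078cc6000), (nat_lit 0x2078bca000)⟩,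
    ⟨(nat_lit 0x209488c000), (nat_lit 0x209470c000), (nat_lit 0x209559a000), (nat_lit 0x209541a000)⟩,
    ⟨(nat_lit 0x11692), (nat_lit 0x11638), (nat_lit 0x119b8), (nat_lit 0x1195e)⟩,
    ⟨(nat_lit 0), (nat_lit 0), (nat_lit 0), (nat_lit 0)⟩,
    (nat_lit 0x11620), (nat_lit 0x119b8)⟩))) (.nd (.nd (.lf ⟨⟨(nat_lit 0x2049188000), (nat_lit 0x204912c000), (nat_lit 0x20494b0000), (nat_lit 0x2049454000)⟩,
    ⟨(nat_lit 0x1c4b0), (nat_lit 0x1c468), (nat_lit 0x1c750), (nat_lit 0x1c708)⟩,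
    ⟨(nat_lit 0), (nat_lit 0), (nat_lit 0), (nat_lit 0)⟩,
    ⟨(nat_lit 0x204915c000), (nat_lit 0x2049100000), (nat_lit 0x2049484000), (nat_lit 0x2049428000)⟩,
    ⟨(nat_lit 0x1c496), (nat_lit 0x1c44e), (nat_lit 0x1c736), (nat_lit 0x1c6ee)⟩,
    ⟨(nat_lit 0x2060d4d000), (nat_lit 0x2060ca9000), (nat_lit 0x20612d1000), (nat_lit 0x206122d000)⟩,
    (nat_lit 0x1c44e), (nat_lit 0x1c750)⟩) (.lf ⟨⟨(nat_lit 0x2060d89000), (nat_lit 0x2060ce5000), (nat_lit 0x206130d000), (nat_lit 0x2061269000)⟩,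
    ⟨(nat_lit 0x1dac9), (nat_lit 0x1da65), (nat_lit 0x1ddf1), (nat_lit 0x1dd8d)⟩,
    ⟨(nat_lit 0x2049188000), (nat_lit 0x204912c000), (nat_lit 0x20494b0000), (nat_lit 0x2049454000)⟩,
    ⟨(nat_lit 0x2060d4d000), (nat_lit 0x2060ca9000), (nat_lit 0x20612d1000), (nat_lit 0x206122d000)⟩,
    ⟨(nat_lit 0x1dae7), (nat_lit 0x1da83), (nat_lit 0x1de0f), (nat_lit 0x1ddab)⟩,
    ⟨(nat_lit 0), (nat_lit 0), (nat_lit 0), (nat_lit 0)⟩,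
    (nat_lit 0x1da65), (nat_lit 0x1de0f)⟩)) (.nd (.lf ⟨⟨(nat_lit 0x2000000000), (nat_lit 0x2000000000), (nat_lit 0x2000000000), (nat_lit 0x2000000000)⟩,
    ⟨(nat_lit 0x100000), (nat_lit 0x100000), (nat_lit 0x100000), (nat_lit 0x100000)⟩,
    ⟨(nat_lit 0), (nat_lit 0), (nat_lit 0), (nat_lit 0)⟩,
    ⟨(nat_lit 0x2000000000), (nat_lit 0x2000000000), (nat_lit 0x2000000000), (nat_lit 0x2000000000)⟩,
    ⟨(nat_lit 0x100000), (nat_lit 0x100000), (nat_lit 0x100000), (nat_lit 0x100000)⟩,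
    ⟨(nat_lit 0x209488c000), (nat_lit 0x209470c000), (nat_lit 0x209559a000), (nat_lit 0x209541a000)⟩,
    (nat_lit 0x100000), (nat_lit 0x100000)⟩) (.lf ⟨⟨(nat_lit 0x20948fc000), (nat_lit 0x209477c000), (nat_lit 0x209560a000), (nat_lit 0x209548a000)⟩,
    ⟨(nat_lit 0x8428a), (nat_lit 0x83fdc), (nat_lit 0x85a6c), (nat_lit 0x857be)⟩,
    ⟨(nat_lit 0x2000000000), (nat_lit 0x2000000000), (nat_lit 0x2000000000), (nat_lit 0x2000000000)⟩,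
    ⟨(nat_lit 0x209488c000), (nat_lit 0x209470c000), (nat_lit 0x209559a000), (nat_lit 0x209541a000)⟩,
    ⟨(nat_lit 0x84334), (nat_lit 0x84086), (nat_lit 0x85b16), (nat_lit 0x85868)⟩,
    ⟨(nat_lit 0), (nat_lit 0), (nat_lit 0), (nat_lit 0)⟩,
    (nat_lit 0x83fdc), (nat_lit 0x85b16)⟩)))
  nx := .nd (.nd (.lf (nat_lit 72)) (.lf (nat_lit 49))) (.nd (.lf (nat_lit 114)) (.lf (nat_lit 87)))
  mir := (nat_lit 86)

noncomputable def cx88 : CtxD where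
  sd := .nd (.nd (.nd (.lf ⟨⟨(nat_lit 0x2000000000), (nat_lit 0x2000000000), (nat_lit 0x2000000000), (nat_lit 0x2000000000)⟩,
    ⟨(nat_lit 0x21b72), (nat_lit 0x21b72), (nat_lit 0x21b72), (nat_lit 0x21b72)⟩,
    ⟨(nat_lit 0), (nat_lit 0), (nat_lit 0), (nat_lit 0)⟩,
    ⟨(nat_lit 0x2000000000), (nat_lit 0x2000000000), (nat_lit 0x2000000000), (nat_lit 0x2000000000)⟩,
    ⟨(nat_lit 0x21b70), (nat_lit 0x21b70), (nat_lit 0x21b70), (nat_lit 0x21b70)⟩,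
    ⟨(nat_lit 0x20369ba000), (nat_lit 0x2036988000), (nat_lit 0x2036a9a000), (nat_lit 0x2036a68000)⟩,
    (nat_lit 0x21b70), (nat_lit 0x21b72)⟩) (.lf ⟨⟨(nat_lit 0x20369d8000), (nat_lit 0x20369a6000), (nat_lit 0x2036ab8000), (nat_lit 0x2036a86000)⟩,
    ⟨(nat_lit 0x86fe6), (nat_lit 0x86ef0), (nat_lit 0x8747e), (nat_lit 0x87388)⟩,
    ⟨(nat_lit 0x2000000000), (nat_lit 0x2000000000), (nat_lit 0x2000000000), (nat_lit 0x2000000000)⟩,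
    ⟨(nat_lit 0x20369ba000), (nat_lit 0x2036988000), (nat_lit 0x2036a9a000), (nat_lit 0x2036a68000)⟩,
    ⟨(nat_lit 0x8704e), (nat_lit 0x86f58), (nat_lit 0x874e6), (nat_lit 0x873f0)⟩,
    ⟨(nat_lit 0), (nat_lit 0), (nat_lit 0), (nat_lit 0)⟩,
    (nat_lit 0x86ef0), (nat_lit 0x874e6)⟩)) (.nd (.lf ⟨⟨(nat_lit 0x20cd59e000), (nat_lit 0x20cd2e0000), (nat_lit 0x20cdd1a000), (nat_lit 0x20cda5c000)⟩,
    ⟨(nat_lit 0x95353), (nat_lit 0x94f57), (nat_lit 0x959d9), (nat_lit 0x955dd)⟩,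
    ⟨(nat_lit 0), (nat_lit 0), (nat_lit 0), (nat_lit 0)⟩,
    ⟨(nat_lit 0x20cd4da000), (nat_lit 0x20cd21c000), (nat_lit 0x20cdc56000), (nat_lit 0x20cd998000)⟩,
    ⟨(nat_lit 0x9525b), (nat_lit 0x94e5f), (nat_lit 0x958e1), (nat_lit 0x954e5)⟩,
    ⟨(nat_lit 0x211c2be000), (nat_lit 0x211bd7e000), (nat_lit 0x211cf26000), (nat_lit 0x211c9e6000)⟩,
    (nat_lit 0x94e5f), (nat_lit 0x959d9)⟩) (.lf ⟨⟨(nat_lit 0x211c412000), (nat_lit 0x211bed2000), (nat_lit 0x211d07a000), (nat_lit 0x211cb3a000)⟩,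
    ⟨(nat_lit 0x3fc3c), (nat_lit 0x3f9e0), (nat_lit 0x40174), (nat_lit 0x3ff18)⟩,
    ⟨(nat_lit 0x20cd59e000), (nat_lit 0x20cd2e0000), (nat_lit 0x20cdd1a000), (nat_lit 0x20cda5c000)⟩,
    ⟨(nat_lit 0x211c2be000), (nat_lit 0x211bd7e000), (nat_lit 0x211cf26000), (nat_lit 0x211c9e6000)⟩,
    ⟨(nat_lit 0x3fcca), (nat_lit 0x3fa6e), (nat_lit 0x40202), (nat_lit 0x3ffa6)⟩,
    ⟨(nat_lit 0), (nat_lit 0), (nat_lit 0), (nat_lit 0)⟩,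
    (nat_lit 0x3f9e0), (nat_lit 0x40202)⟩))) (.nd (.nd (.lf ⟨⟨(nat_lit 0x2063adf000), (nat_lit 0x2063a39000), (nat_lit 0x2063cb9000), (nat_lit 0x2063c13000)⟩,
    ⟨(nat_lit 0x38e0d), (nat_lit 0x38d51), (nat_lit 0x3908f), (nat_lit 0x38fd3)⟩,
    ⟨(nat_lit 0), (nat_lit 0), (nat_lit 0), (nat_lit 0)⟩,
    ⟨(nat_lit 0x2063a9b000), (nat_lit 0x20639f5000), (nat_lit 0x2063c75000), (nat_lit 0x2063bcf000)⟩,
    ⟨(nat_lit 0x38dcf), (nat_lit 0x38d13), (nat_lit 0x39051), (nat_lit 0x38f95)⟩,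
    ⟨(nat_lit 0x2091275000), (nat_lit 0x2091117000), (nat_lit 0x2091621000), (nat_lit 0x20914c3000)⟩,
    (nat_lit 0x38d13), (nat_lit 0x3908f)⟩) (.lf ⟨⟨(nat_lit 0x20912e7000), (nat_lit 0x2091189000), (nat_lit 0x2091693000), (nat_lit 0x2091535000)⟩,
    ⟨(nat_lit 0x362f5), (nat_lit 0x361ef), (nat_lit 0x364db), (nat_lit 0x363d5)⟩,
    ⟨(nat_lit 0x2063adf000), (nat_lit 0x2063a39000), (nat_lit 0x2063cb9000), (nat_lit 0x2063c13000)⟩,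
    ⟨(nat_lit 0x2091275000), (nat_lit 0x2091117000), (nat_lit 0x2091621000), (nat_lit 0x20914c3000)⟩,
    ⟨(nat_lit 0x3633b), (nat_lit 0x36235), (nat_lit 0x36521), (nat_lit 0x3641b)⟩,
    ⟨(nat_lit 0), (nat_lit 0), (nat_lit 0), (nat_lit 0)⟩,
    (nat_lit 0x361ef), (nat_lit 0x36521)⟩)) (.nd (.lf ⟨⟨(nat_lit 0x2000000000), (nat_lit 0x2000000000), (nat_lit 0x2000000000), (nat_lit 0x2000000000)⟩,
    ⟨(nat_lit 0x100000), (nat_lit 0x100000), (nat_lit 0x100000), (nat_lit 0x100000)⟩,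
    ⟨(nat_lit 0), (nat_lit 0), (nat_lit 0), (nat_lit 0)⟩,
    ⟨(nat_lit 0x2000000000), (nat_lit 0x2000000000), (nat_lit 0x2000000000), (nat_lit 0x2000000000)⟩,
    ⟨(nat_lit 0x100000), (nat_lit 0x100000), (nat_lit 0x100000), (nat_lit 0x100000)⟩,
    ⟨(nat_lit 0x211c2be000), (nat_lit 0x211bd7e000), (nat_lit 0x211cf26000), (nat_lit 0x211c9e6000)⟩,
    (nat_lit 0x100000), (nat_lit 0x100000)⟩) (.lf ⟨⟨(nat_lit 0x211c412000), (nat_lit 0x211bed2000), (nat_lit 0x211d07a000), (nat_lit 0x211cb3a000)⟩,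
    ⟨(nat_lit 0x1e42bf), (nat_lit 0x1e30d3), (nat_lit 0x1e6a59), (nat_lit 0x1e586d)⟩,
    ⟨(nat_lit 0x2000000000), (nat_lit 0x2000000000), (nat_lit 0x2000000000), (nat_lit 0x2000000000)⟩,
    ⟨(nat_lit 0x211c2be000), (nat_lit 0x211bd7e000), (nat_lit 0x211cf26000), (nat_lit 0x211c9e6000)⟩,
    ⟨(nat_lit 0x1e46e3), (nat_lit 0x1e34f7), (nat_lit 0x1e6e7d), (nat_lit 0x1e5c91)⟩,
    ⟨(nat_lit 0), (nat_lit 0), (nat_lit 0), (nat_lit 0)⟩,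
    (nat_lit 0x1e30d3), (nat_lit 0x1e6e7d)⟩)))
  nx := .nd (.nd (.lf (nat_lit 48)) (.lf (nat_lit 73))) (.nd (.lf (nat_lit 115)) (.lf (nat_lit 88)))
  mir := (nat_lit 89)

noncomputable def cx89 : CtxD where
  sd := .nd (.nd (.nd (.lf ⟨⟨(nat_lit 0x2000000000), (nat_lit 0x2000000000), (nat_lit 0x2000000000), (nat_lit 0x2000000000)⟩,
    ⟨(nat_lit 0x21b72), (nat_lit 0x21b72), (nat_lit 0x21b72), (nat_lit 0x21b72)⟩,
    ⟨(nat_lit 0), (nat_lit 0), (nat_lit 0), (nat_lit 0)⟩,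
    ⟨(nat_lit 0x2000000000), (nat_lit 0x2000000000), (nat_lit 0x2000000000), (nat_lit 0x2000000000)⟩,
    ⟨(nat_lit 0x21b70), (nat_lit 0x21b70), (nat_lit 0x21b70), (nat_lit 0x21b70)⟩,
    ⟨(nat_lit 0x2029a87000), (nat_lit 0x2029a51000), (nat_lit 0x2029b55000), (nat_lit 0x2029b1f000)⟩,
    (nat_lit 0x21b70), (nat_lit 0x21b72)⟩) (.lf ⟨⟨(nat_lit 0x2029aa7000), (nat_lit 0x2029a71000), (nat_lit 0x2029b75000), (nat_lit 0x2029b3f000)⟩,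
    ⟨(nat_lit 0x4eb55), (nat_lit 0x4ea85), (nat_lit 0x4ee53), (nat_lit 0x4ed83)⟩,
    ⟨(nat_lit 0x2000000000), (nat_lit 0x2000000000), (nat_lit 0x2000000000), (nat_lit 0x2000000000)⟩,
    ⟨(nat_lit 0x2029a87000), (nat_lit 0x2029a51000), (nat_lit 0x2029b55000), (nat_lit 0x2029b1f000)⟩,
    ⟨(nat_lit 0x4eba9), (nat_lit 0x4ead9), (nat_lit 0x4eea7), (nat_lit 0x4edd7)⟩,
    ⟨(nat_lit 0), (nat_lit 0), (nat_lit 0), (nat_lit 0)⟩,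
    (nat_lit 0x4ea85), (nat_lit 0x4eea7)⟩)) (.nd (.lf ⟨⟨(nat_lit 0x2079422000), (nat_lit 0x2079252000), (nat_lit 0x20797f4000), (nat_lit 0x2079624000)⟩,
    ⟨(nat_lit 0x474d5), (nat_lit 0x472b3), (nat_lit 0x4783b), (nat_lit 0x47619)⟩,
    ⟨(nat_lit 0), (nat_lit 0), (nat_lit 0), (nat_lit 0)⟩,
    ⟨(nat_lit 0x2079396000), (nat_lit 0x20791c6000), (nat_lit 0x2079768000), (nat_lit 0x2079598000)⟩,
    ⟨(nat_lit 0x47449), (nat_lit 0x47227), (nat_lit 0x477af), (nat_lit 0x4758d)⟩,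
    ⟨(nat_lit 0x209606c000), (nat_lit 0x2095da6000), (nat_lit 0x2096622000), (nat_lit 0x209635c000)⟩,
    (nat_lit 0x47227), (nat_lit 0x4783b)⟩) (.lf ⟨⟨(nat_lit 0x2096132000), (nat_lit 0x2095e6c000), (nat_lit 0x20966e8000), (nat_lit 0x2096422000)⟩,
    ⟨(nat_lit 0x11c45), (nat_lit 0x11b9d), (nat_lit 0x11db9), (nat_lit 0x11d11)⟩,
    ⟨(nat_lit 0x2079422000), (nat_lit 0x2079252000), (nat_lit 0x20797f4000), (nat_lit 0x2079624000)⟩,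
    ⟨(nat_lit 0x209606c000), (nat_lit 0x2095da6000), (nat_lit 0x2096622000), (nat_lit 0x209635c000)⟩,
    ⟨(nat_lit 0x11c6f), (nat_lit 0x11bc7), (nat_lit 0x11de3), (nat_lit 0x11d3b)⟩,
    ⟨(nat_lit 0), (nat_lit 0), (nat_lit 0), (nat_lit 0)⟩,
    (nat_lit 0x11b9d), (nat_lit 0x11de3)⟩))) (.nd (.nd (.lf ⟨⟨(nat_lit 0x2049763000), (nat_lit 0x20496b9000), (nat_lit 0x20498c7000), (nat_lit 0x204981d000)⟩,
    ⟨(nat_lit 0x1c99b), (nat_lit 0x1c917), (nat_lit 0x1caf1), (nat_lit 0x1ca6d)⟩,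
    ⟨(nat_lit 0), (nat_lit 0), (nat_lit 0), (nat_lit 0)⟩,
    ⟨(nat_lit 0x2049721000), (nat_lit 0x2049677000), (nat_lit 0x2049885000), (nat_lit 0x20497db000)⟩,
    ⟨(nat_lit 0x1c971), (nat_lit 0x1c8ed), (nat_lit 0x1cac7), (nat_lit 0x1ca43)⟩,
    ⟨(nat_lit 0x206175c000), (nat_lit 0x2061630000), (nat_lit 0x20619c0000), (nat_lit 0x2061894000)⟩,
    (nat_lit 0x1c8ed), (nat_lit 0x1caf1)⟩) (.lf ⟨⟨(nat_lit 0x20617c0000), (nat_lit 0x2061694000), (nat_lit 0x2061a24000), (nat_lit 0x20618f8000)⟩,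
    ⟨(nat_lit 0x1e07a), (nat_lit 0x1dfc2), (nat_lit 0x1e19c), (nat_lit 0x1e0e4)⟩,
    ⟨(nat_lit 0x2049763000), (nat_lit 0x20496b9000), (nat_lit 0x20498c7000), (nat_lit 0x204981d000)⟩,
    ⟨(nat_lit 0x206175c000), (nat_lit 0x2061630000), (nat_lit 0x20619c0000), (nat_lit 0x2061894000)⟩,
    ⟨(nat_lit 0x1e0ae), (nat_lit 0x1dff6), (nat_lit 0x1e1d0), (nat_lit 0x1e118)⟩,
    ⟨(nat_lit 0), (nat_lit 0), (nat_lit 0), (nat_lit 0)⟩,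
    (nat_lit 0x1dfc2), (nat_lit 0x1e1d0)⟩)) (.nd (.lf ⟨⟨(nat_lit 0x2000000000), (nat_lit 0x2000000000), (nat_lit 0x2000000000), (nat_lit 0x2000000000)⟩,
    ⟨(nat_lit 0x100000), (nat_lit 0x100000), (nat_lit 0x100000), (nat_lit 0x100000)⟩,
    ⟨(nat_lit 0), (nat_lit 0), (nat_lit 0), (nat_lit 0)⟩,
    ⟨(nat_lit 0x2000000000), (nat_lit 0x2000000000), (nat_lit 0x2000000000), (nat_lit 0x2000000000)⟩,
    ⟨(nat_lit 0x100000), (nat_lit 0x100000), (nat_lit 0x100000), (nat_lit 0x100000)⟩,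
    ⟨(nat_lit 0x209606c000), (nat_lit 0x2095da6000), (nat_lit 0x2096622000), (nat_lit 0x209635c000)⟩,
    (nat_lit 0x100000), (nat_lit 0x100000)⟩) (.lf ⟨⟨(nat_lit 0x2096132000), (nat_lit 0x2095e6c000), (nat_lit 0x20966e8000), (nat_lit 0x2096422000)⟩,
    ⟨(nat_lit 0x86e82), (nat_lit 0x86984), (nat_lit 0x8798a), (nat_lit 0x8748c)⟩,
    ⟨(nat_lit 0x2000000000), (nat_lit 0x2000000000), (nat_lit 0x2000000000), (nat_lit 0x2000000000)⟩,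
    ⟨(nat_lit 0x209606c000), (nat_lit 0x2095da6000), (nat_lit 0x2096622000), (nat_lit 0x209635c000)⟩,
    ⟨(nat_lit 0x86fae), (nat_lit 0x86ab0), (nat_lit 0x87ab6), (nat_lit 0x875b8)⟩,
    ⟨(nat_lit 0), (nat_lit 0), (nat_lit 0), (nat_lit 0)⟩,
    (nat_lit 0x86984), (nat_lit 0x87ab6)⟩)))
  nx := .nd (.nd (.lf (nat_lit 72)) (.lf (nat_lit 49))) (.nd (.lf (nat_lit 114)) (.lf (nat_lit 89)))
  mir := (nat_lit 88)

noncomputable def cx90 : CtxD where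
  sd := .nd (.nd (.nd (.lf ⟨⟨(nat_lit 0x2000000000), (nat_lit 0x2000000000), (nat_lit 0x2000000000), (nat_lit 0x2000000000)⟩,
    ⟨(nat_lit 0x21b72), (nat_lit 0x21b72), (nat_lit 0x21b72), (nat_lit 0x21b72)⟩,
    ⟨(nat_lit 0), (nat_lit 0), (nat_lit 0), (nat_lit 0)⟩,
    ⟨(nat_lit 0x2000000000), (nat_lit 0x2000000000), (nat_lit 0x2000000000), (nat_lit 0x2000000000)⟩,
    ⟨(nat_lit 0x21b70), (nat_lit 0x21b70), (nat_lit 0x21b70), (nat_lit 0x21b70)⟩,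
    ⟨(nat_lit 0x20360df000), (nat_lit 0x20360a9000), (nat_lit 0x2036207000), (nat_lit 0x20361d1000)⟩,
    (nat_lit 0x21b70), (nat_lit 0x21b72)⟩) (.lf ⟨⟨(nat_lit 0x20360fd000), (nat_lit 0x20360c7000), (nat_lit 0x2036225000), (nat_lit 0x20361ef000)⟩,
    ⟨(nat_lit 0x8435a), (nat_lit 0x84250), (nat_lit 0x84918), (nat_lit 0x8480e)⟩,
    ⟨(nat_lit 0x2000000000), (nat_lit 0x2000000000), (nat_lit 0x2000000000), (nat_lit 0x2000000000)⟩,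
    ⟨(nat_lit 0x20360df000), (nat_lit 0x20360a9000), (nat_lit 0x2036207000), (nat_lit 0x20361d1000)⟩,
    ⟨(nat_lit 0x843b4), (nat_lit 0x842aa), (nat_lit 0x84972), (nat_lit 0x84868)⟩,
    ⟨(nat_lit 0), (nat_lit 0), (nat_lit 0), (nat_lit 0)⟩,
    (nat_lit 0x84250), (nat_lit 0x84972)⟩)) (.nd (.lf ⟨⟨(nat_lit 0x20c72af000), (nat_lit 0x20c6fcd000), (nat_lit 0x20c80a9000), (nat_lit 0x20c7dc7000)⟩,
    ⟨(nat_lit 0x8d9a2), (nat_lit 0x8d588), (nat_lit 0x8ec0a), (nat_lit 0x8e7f0)⟩,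
    ⟨(nat_lit 0), (nat_lit 0), (nat_lit 0), (nat_lit 0)⟩,
    ⟨(nat_lit 0x20c721d000), (nat_lit 0x20c6f3b000), (nat_lit 0x20c8017000), (nat_lit 0x20c7d35000)⟩,
    ⟨(nat_lit 0x8d8f4), (nat_lit 0x8d4da), (nat_lit 0x8eb5c), (nat_lit 0x8e742)⟩,
    ⟨(nat_lit 0x2111125000), (nat_lit 0x2110bb9000), (nat_lit 0x2112ac7000), (nat_lit 0x211255b000)⟩,
    (nat_lit 0x8d4da), (nat_lit 0x8ec0a)⟩) (.lf ⟨⟨(nat_lit 0x2111217000), (nat_lit 0x2110cab000), (nat_lit 0x2112bb9000), (nat_lit 0x211264d000)⟩,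
    ⟨(nat_lit 0x3b0a6), (nat_lit 0x3ae4e), (nat_lit 0x3bb98), (nat_lit 0x3b940)⟩,
    ⟨(nat_lit 0x20c72af000), (nat_lit 0x20c6fcd000), (nat_lit 0x20c80a9000), (nat_lit 0x20c7dc7000)⟩,
    ⟨(nat_lit 0x2111125000), (nat_lit 0x2110bb9000), (nat_lit 0x2112ac7000), (nat_lit 0x211255b000)⟩,
    ⟨(nat_lit 0x3b108), (nat_lit 0x3aeb0), (nat_lit 0x3bbfa), (nat_lit 0x3b9a2)⟩,
    ⟨(nat_lit 0), (nat_lit 0), (nat_lit 0), (nat_lit 0)⟩,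
    (nat_lit 0x3ae4e), (nat_lit 0x3bbfa)⟩))) (.nd (.nd (.lf ⟨⟨(nat_lit 0x2062284000), (nat_lit 0x20621d2000), (nat_lit 0x20625f4000), (nat_lit 0x2062542000)⟩,
    ⟨(nat_lit 0x370e8), (nat_lit 0x37020), (nat_lit 0x374e4), (nat_lit 0x3741c)⟩,
    ⟨(nat_lit 0), (nat_lit 0), (nat_lit 0), (nat_lit 0)⟩,
    ⟨(nat_lit 0x206224c000), (nat_lit 0x206219a000), (nat_lit 0x20625bc000), (nat_lit 0x206250a000)⟩,
    ⟨(nat_lit 0x370b8), (nat_lit 0x36ff0), (nat_lit 0x374b4), (nat_lit 0x373ec)⟩,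
    ⟨(nat_lit 0x208e09a000), (nat_lit 0x208df24000), (nat_lit 0x208e7b4000), (nat_lit 0x208e63e000)⟩,
    (nat_lit 0x36ff0), (nat_lit 0x374e4)⟩) (.lf ⟨⟨(nat_lit 0x208e0f4000), (nat_lit 0x208df7e000), (nat_lit 0x208e80e000), (nat_lit 0x208e698000)⟩,
    ⟨(nat_lit 0x3421a), (nat_lit 0x34106), (nat_lit 0x34706), (nat_lit 0x345f2)⟩,
    ⟨(nat_lit 0x2062284000), (nat_lit 0x20621d2000), (nat_lit 0x20625f4000), (nat_lit 0x2062542000)⟩,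
    ⟨(nat_lit 0x208e09a000), (nat_lit 0x208df24000), (nat_lit 0x208e7b4000), (nat_lit 0x208e63e000)⟩,
    ⟨(nat_lit 0x34250), (nat_lit 0x3413c), (nat_lit 0x3473c), (nat_lit 0x34628)⟩,
    ⟨(nat_lit 0), (nat_lit 0), (nat_lit 0), (nat_lit 0)⟩,
    (nat_lit 0x34106), (nat_lit 0x3473c)⟩)) (.nd (.lf ⟨⟨(nat_lit 0x2000000000), (nat_lit 0x2000000000), (nat_lit 0x2000000000), (nat_lit 0x2000000000)⟩,
    ⟨(nat_lit 0x100000), (nat_lit 0x100000), (nat_lit 0x100000), (nat_lit 0x100000)⟩,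
    ⟨(nat_lit 0), (nat_lit 0), (nat_lit 0), (nat_lit 0)⟩,
    ⟨(nat_lit 0x2000000000), (nat_lit 0x2000000000), (nat_lit 0x2000000000), (nat_lit 0x2000000000)⟩,
    ⟨(nat_lit 0x100000), (nat_lit 0x100000), (nat_lit 0x100000), (nat_lit 0x100000)⟩,
    ⟨(nat_lit 0x2111125000), (nat_lit 0x2110bb9000), (nat_lit 0x2112ac7000), (nat_lit 0x211255b000)⟩,
    (nat_lit 0x100000), (nat_lit 0x100000)⟩) (.lf ⟨⟨(nat_lit 0x2111217000), (nat_lit 0x2110cab000), (nat_lit 0x2112bb9000), (nat_lit 0x211264d000)⟩,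
    ⟨(nat_lit 0x1c04d2), (nat_lit 0x1bf300), (nat_lit 0x1c57ea), (nat_lit 0x1c4618)⟩,
    ⟨(nat_lit 0x2000000000), (nat_lit 0x2000000000), (nat_lit 0x2000000000), (nat_lit 0x2000000000)⟩,
    ⟨(nat_lit 0x2111125000), (nat_lit 0x2110bb9000), (nat_lit 0x2112ac7000), (nat_lit 0x211255b000)⟩,
    ⟨(nat_lit 0x1c07a8), (nat_lit 0x1bf5d6), (nat_lit 0x1c5ac0), (nat_lit 0x1c48ee)⟩,
    ⟨(nat_lit 0), (nat_lit 0), (nat_lit 0), (nat_lit 0)⟩,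
    (nat_lit 0x1bf300), (nat_lit 0x1c5ac0)⟩)))
  nx := .nd (.nd (.lf (nat_lit 50)) (.lf (nat_lit 71))) (.nd (.lf (nat_lit 117)) (.lf (nat_lit 90)))
  mir := (nat_lit 91)

noncomputable def cx91 : CtxD where
  sd := .nd (.nd (.nd (.lf ⟨⟨(nat_lit 0x2000000000), (nat_lit 0x2000000000), (nat_lit 0x2000000000), (nat_lit 0x2000000000)⟩,
    ⟨(nat_lit 0x21b72), (nat_lit 0x21b72), (nat_lit 0x21b72), (nat_lit 0x21b72)⟩,
    ⟨(nat_lit 0), (nat_lit 0), (nat_lit 0), (nat_lit 0)⟩,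
    ⟨(nat_lit 0x2000000000), (nat_lit 0x2000000000), (nat_lit 0x2000000000), (nat_lit 0x2000000000)⟩,
    ⟨(nat_lit 0x21b70), (nat_lit 0x21b70), (nat_lit 0x21b70), (nat_lit 0x21b70)⟩,
    ⟨(nat_lit 0x202a28b000), (nat_lit 0x202a251000), (nat_lit 0x202a3b5000), (nat_lit 0x202a37b000)⟩,
    (nat_lit 0x21b70), (nat_lit 0x21b72)⟩) (.lf ⟨⟨(nat_lit 0x202a2a9000), (nat_lit 0x202a26f000), (nat_lit 0x202a3d3000), (nat_lit 0x202a399000)⟩,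
    ⟨(nat_lit 0x5099f), (nat_lit 0x508c1), (nat_lit 0x50e0d), (nat_lit 0x50d2f)⟩,
    ⟨(nat_lit 0x2000000000), (nat_lit 0x2000000000), (nat_lit 0x2000000000), (nat_lit 0x2000000000)⟩,
    ⟨(nat_lit 0x202a28b000), (nat_lit 0x202a251000), (nat_lit 0x202a3b5000), (nat_lit 0x202a37b000)⟩,
    ⟨(nat_lit 0x509e7), (nat_lit 0x50909), (nat_lit 0x50e55), (nat_lit 0x50d77)⟩,
    ⟨(nat_lit 0), (nat_lit 0), (nat_lit 0), (nat_lit 0)⟩,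
    (nat_lit 0x508c1), (nat_lit 0x50e55)⟩)) (.nd (.lf ⟨⟨(nat_lit 0x207ca02000), (nat_lit 0x207c808000), (nat_lit 0x207d320000), (nat_lit 0x207d126000)⟩,
    ⟨(nat_lit 0x4afcb), (nat_lit 0x4ad67), (nat_lit 0x4ba69), (nat_lit 0x4b805)⟩,
    ⟨(nat_lit 0), (nat_lit 0), (nat_lit 0), (nat_lit 0)⟩,
    ⟨(nat_lit 0x207c994000), (nat_lit 0x207c79a000), (nat_lit 0x207d2b2000), (nat_lit 0x207d0b8000)⟩,
    ⟨(nat_lit 0x4af63), (nat_lit 0x4acff), (nat_lit 0x4ba01), (nat_lit 0x4b79d)⟩,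
    ⟨(nat_lit 0x209b366000), (nat_lit 0x209b052000), (nat_lit 0x209c188000), (nat_lit 0x209be74000)⟩,
    (nat_lit 0x4acff), (nat_lit 0x4ba69)⟩) (.lf ⟨⟨(nat_lit 0x209b3fc000), (nat_lit 0x209b0e8000), (nat_lit 0x209c21e000), (nat_lit 0x209bf0a000)⟩,
    ⟨(nat_lit 0x13126), (nat_lit 0x13064), (nat_lit 0x134ae), (nat_lit 0x133ec)⟩,
    ⟨(nat_lit 0x207ca02000), (nat_lit 0x207c808000), (nat_lit 0x207d320000), (nat_lit 0x207d126000)⟩,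
    ⟨(nat_lit 0x209b366000), (nat_lit 0x209b052000), (nat_lit 0x209c188000), (nat_lit 0x209be74000)⟩,
    ⟨(nat_lit 0x13144), (nat_lit 0x13082), (nat_lit 0x134cc), (nat_lit 0x1340a)⟩,
    ⟨(nat_lit 0), (nat_lit 0), (nat_lit 0), (nat_lit 0)⟩,
    (nat_lit 0x13064), (nat_lit 0x134cc)⟩))) (.nd (.nd (.lf ⟨⟨(nat_lit 0x204aab6000), (nat_lit 0x204aa00000), (nat_lit 0x204adf8000), (nat_lit 0x204ad42000)⟩,
    ⟨(nat_lit 0x1da37), (nat_lit 0x1d9a7), (nat_lit 0x1dce7), (nat_lit 0x1dc57)⟩,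
    ⟨(nat_lit 0), (nat_lit 0), (nat_lit 0), (nat_lit 0)⟩,
    ⟨(nat_lit 0x204aa7e000), (nat_lit 0x204a9c8000), (nat_lit 0x204adc0000), (nat_lit 0x204ad0a000)⟩,
    ⟨(nat_lit 0x1da17), (nat_lit 0x1d987), (nat_lit 0x1dcc7), (nat_lit 0x1dc37)⟩,
    ⟨(nat_lit 0x2063979000), (nat_lit 0x2063835000), (nat_lit 0x2063f43000), (nat_lit 0x2063dff000)⟩,
    (nat_lit 0x1d987), (nat_lit 0x1dce7)⟩) (.lf ⟨⟨(nat_lit 0x20639cb000), (nat_lit 0x2063887000), (nat_lit 0x2063f95000), (nat_lit 0x2063e51000)⟩,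
    ⟨(nat_lit 0x1f415), (nat_lit 0x1f349), (nat_lit 0x1f79b), (nat_lit 0x1f6cf)⟩,
    ⟨(nat_lit 0x204aab6000), (nat_lit 0x204aa00000), (nat_lit 0x204adf8000), (nat_lit 0x204ad42000)⟩,
    ⟨(nat_lit 0x2063979000), (nat_lit 0x2063835000), (nat_lit 0x2063f43000), (nat_lit 0x2063dff000)⟩,
    ⟨(nat_lit 0x1f43d), (nat_lit 0x1f371), (nat_lit 0x1f7c3), (nat_lit 0x1f6f7)⟩,
    ⟨(nat_lit 0), (nat_lit 0), (nat_lit 0), (nat_lit 0)⟩,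
    (nat_lit 0x1f349), (nat_lit 0x1f7c3)⟩)) (.nd (.lf ⟨⟨(nat_lit 0x2000000000), (nat_lit 0x2000000000), (nat_lit 0x2000000000), (nat_lit 0x2000000000)⟩,
    ⟨(nat_lit 0x100000), (nat_lit 0x100000), (nat_lit 0x100000), (nat_lit 0x100000)⟩,
    ⟨(nat_lit 0), (nat_lit 0), (nat_lit 0), (nat_lit 0)⟩,
    ⟨(nat_lit 0x2000000000), (nat_lit 0x2000000000), (nat_lit 0x2000000000), (nat_lit 0x2000000000)⟩,
    ⟨(nat_lit 0x100000), (nat_lit 0x100000), (nat_lit 0x100000), (nat_lit 0x100000)⟩,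
    ⟨(nat_lit 0x209b366000), (nat_lit 0x209b052000), (nat_lit 0x209c188000), (nat_lit 0x209be74000)⟩,
    (nat_lit 0x100000), (nat_lit 0x100000)⟩) (.lf ⟨⟨(nat_lit 0x209b3fc000), (nat_lit 0x209b0e8000), (nat_lit 0x209c21e000), (nat_lit 0x209bf0a000)⟩,
    ⟨(nat_lit 0x90d05), (nat_lit 0x90743), (nat_lit 0x927dd), (nat_lit 0x9221b)⟩,
    ⟨(nat_lit 0x2000000000), (nat_lit 0x2000000000), (nat_lit 0x2000000000), (nat_lit 0x2000000000)⟩,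
    ⟨(nat_lit 0x209b366000), (nat_lit 0x209b052000), (nat_lit 0x209c188000), (nat_lit 0x209be74000)⟩,
    ⟨(nat_lit 0x90ddd), (nat_lit 0x9081b), (nat_lit 0x928b5), (nat_lit 0x922f3)⟩,
    ⟨(nat_lit 0), (nat_lit 0), (nat_lit 0), (nat_lit 0)⟩,
    (nat_lit 0x90743), (nat_lit 0x928b5)⟩)))
  nx := .nd (.nd (.lf (nat_lit 70)) (.lf (nat_lit 51))) (.nd (.lf (nat_lit 116)) (.lf (nat_lit 91)))
  mir := (nat_lit 90)

noncomputable def cx92 : CtxD where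
  sd := .nd (.nd (.nd (.lf ⟨⟨(nat_lit 0x2000000000), (nat_lit 0x2000000000), (nat_lit 0x2000000000), (nat_lit 0x2000000000)⟩,
    ⟨(nat_lit 0x21b72), (nat_lit 0x21b72), (nat_lit 0x21b72), (nat_lit 0x21b72)⟩,
    ⟨(nat_lit 0), (nat_lit 0), (nat_lit 0), (nat_lit 0)⟩,
    ⟨(nat_lit 0x2000000000), (nat_lit 0x2000000000), (nat_lit 0x2000000000), (nat_lit 0x2000000000)⟩,
    ⟨(nat_lit 0x21b70), (nat_lit 0x21b70), (nat_lit 0x21b70), (nat_lit 0x21b70)⟩,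
    ⟨(nat_lit 0x2035f54000), (nat_lit 0x2035f42000), (nat_lit 0x2035ff4000), (nat_lit 0x2035fe2000)⟩,
    (nat_lit 0x21b70), (nat_lit 0x21b72)⟩) (.lf ⟨⟨(nat_lit 0x2035f6c000), (nat_lit 0x2035f5a000), (nat_lit 0x203600c000), (nat_lit 0x2035ffa000)⟩,
    ⟨(nat_lit 0x83ba6), (nat_lit 0x83b50), (nat_lit 0x83ec2), (nat_lit 0x83e6c)⟩,
    ⟨(nat_lit 0x2000000000), (nat_lit 0x2000000000), (nat_lit 0x2000000000), (nat_lit 0x2000000000)⟩,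
    ⟨(nat_lit 0x2035f54000), (nat_lit 0x2035f42000), (nat_lit 0x2035ff4000), (nat_lit 0x2035fe2000)⟩,
    ⟨(nat_lit 0x83bfc), (nat_lit 0x83ba6), (nat_lit 0x83f18), (nat_lit 0x83ec2)⟩,
    ⟨(nat_lit 0), (nat_lit 0), (nat_lit 0), (nat_lit 0)⟩,
    (nat_lit 0x83b50), (nat_lit 0x83f18)⟩)) (.nd (.lf ⟨⟨(nat_lit 0x20c6087000), (nat_lit 0x20c5f99000), (nat_lit 0x20c677f000), (nat_lit 0x20c6691000)⟩,
    ⟨(nat_lit 0x8c25e), (nat_lit 0x8c10c), (nat_lit 0x8cb02), (nat_lit 0x8c9b0)⟩,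
    ⟨(nat_lit 0), (nat_lit 0), (nat_lit 0), (nat_lit 0)⟩,
    ⟨(nat_lit 0x20c600f000), (nat_lit 0x20c5f21000), (nat_lit 0x20c6707000), (nat_lit 0x20c6619000)⟩,
    ⟨(nat_lit 0x8c1c0), (nat_lit 0x8c06e), (nat_lit 0x8ca64), (nat_lit 0x8c912)⟩,
    ⟨(nat_lit 0x210f062000), (nat_lit 0x210eea4000), (nat_lit 0x210fcde000), (nat_lit 0x210fb20000)⟩,
    (nat_lit 0x8c06e), (nat_lit 0x8cb02)⟩) (.lf ⟨⟨(nat_lit 0x210f12a000), (nat_lit 0x210ef6c000), (nat_lit 0x210fda6000), (nat_lit 0x210fbe8000)⟩,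
    ⟨(nat_lit 0x3a2d0), (nat_lit 0x3a210), (nat_lit 0x3a808), (nat_lit 0x3a748)⟩,
    ⟨(nat_lit 0x20c6087000), (nat_lit 0x20c5f99000), (nat_lit 0x20c677f000), (nat_lit 0x20c6691000)⟩,
    ⟨(nat_lit 0x210f062000), (nat_lit 0x210eea4000), (nat_lit 0x210fcde000), (nat_lit 0x210fb20000)⟩,
    ⟨(nat_lit 0x3a326), (nat_lit 0x3a266), (nat_lit 0x3a85e), (nat_lit 0x3a79e)⟩,
    ⟨(nat_lit 0), (nat_lit 0), (nat_lit 0), (nat_lit 0)⟩,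
    (nat_lit 0x3a210), (nat_lit 0x3a85e)⟩))) (.nd (.nd (.lf ⟨⟨(nat_lit 0x2061e02000), (nat_lit 0x2061dc8000), (nat_lit 0x2061fc0000), (nat_lit 0x2061f86000)⟩,
    ⟨(nat_lit 0x36baf), (nat_lit 0x36b6d), (nat_lit 0x36dbb), (nat_lit 0x36d79)⟩,
    ⟨(nat_lit 0), (nat_lit 0), (nat_lit 0), (nat_lit 0)⟩,
    ⟨(nat_lit 0x2061dd4000), (nat_lit 0x2061d9a000), (nat_lit 0x2061f92000), (nat_lit 0x2061f58000)⟩,
    ⟨(nat_lit 0x36b81), (nat_lit 0x36b3f), (nat_lit 0x36d8d), (nat_lit 0x36d4b)⟩,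
    ⟨(nat_lit 0x208d767000), (nat_lit 0x208d6ed000), (nat_lit 0x208daf5000), (nat_lit 0x208da7b000)⟩,
    (nat_lit 0x36b3f), (nat_lit 0x36dbb)⟩) (.lf ⟨⟨(nat_lit 0x208d7b3000), (nat_lit 0x208d739000), (nat_lit 0x208db41000), (nat_lit 0x208dac7000)⟩,
    ⟨(nat_lit 0x33bd6), (nat_lit 0x33b7e), (nat_lit 0x33e32), (nat_lit 0x33dda)⟩,
    ⟨(nat_lit 0x2061e02000), (nat_lit 0x2061dc8000), (nat_lit 0x2061fc0000), (nat_lit 0x2061f86000)⟩,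
    ⟨(nat_lit 0x208d767000), (nat_lit 0x208d6ed000), (nat_lit 0x208daf5000), (nat_lit 0x208da7b000)⟩,
    ⟨(nat_lit 0x33c08), (nat_lit 0x33bb0), (nat_lit 0x33e64), (nat_lit 0x33e0c)⟩,
    ⟨(nat_lit 0), (nat_lit 0), (nat_lit 0), (nat_lit 0)⟩,
    (nat_lit 0x33b7e), (nat_lit 0x33e64)⟩)) (.nd (.lf ⟨⟨(nat_lit 0x2000000000), (nat_lit 0x2000000000), (nat_lit 0x2000000000), (nat_lit 0x2000000000)⟩,
    ⟨(nat_lit 0x100000), (nat_lit 0x100000), (nat_lit 0x100000), (nat_lit 0x100000)⟩,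
    ⟨(nat_lit 0), (nat_lit 0), (nat_lit 0), (nat_lit 0)⟩,
    ⟨(nat_lit 0x2000000000), (nat_lit 0x2000000000), (nat_lit 0x2000000000), (nat_lit 0x2000000000)⟩,
    ⟨(nat_lit 0x100000), (nat_lit 0x100000), (nat_lit 0x100000), (nat_lit 0x100000)⟩,
    ⟨(nat_lit 0x210f062000), (nat_lit 0x210eea4000), (nat_lit 0x210fcde000), (nat_lit 0x210fb20000)⟩,
    (nat_lit 0x100000), (nat_lit 0x100000)⟩) (.lf ⟨⟨(nat_lit 0x210f12a000), (nat_lit 0x210ef6c000), (nat_lit 0x210fda6000), (nat_lit 0x210fbe8000)⟩,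
    ⟨(nat_lit 0x1b9bc3), (nat_lit 0x1b960f), (nat_lit 0x1bc361), (nat_lit 0x1bbdad)⟩,
    ⟨(nat_lit 0x2000000000), (nat_lit 0x2000000000), (nat_lit 0x2000000000), (nat_lit 0x2000000000)⟩,
    ⟨(nat_lit 0x210f062000), (nat_lit 0x210eea4000), (nat_lit 0x210fcde000), (nat_lit 0x210fb20000)⟩,
    ⟨(nat_lit 0x1b9e3f), (nat_lit 0x1b988b), (nat_lit 0x1bc5dd), (nat_lit 0x1bc029)⟩,
    ⟨(nat_lit 0), (nat_lit 0), (nat_lit 0), (nat_lit 0)⟩,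
    (nat_lit 0x1b960f), (nat_lit 0x1bc5dd)⟩)))
  nx := .nd (.nd (.lf (nat_lit 50)) (.lf (nat_lit 71))) (.nd (.lf (nat_lit 117)) (.lf (nat_lit 92)))
  mir := (nat_lit 93)

noncomputable def cx93 : CtxD where
  sd := .nd (.nd (.nd (.lf ⟨⟨(nat_lit 0x2000000000), (nat_lit 0x2000000000), (nat_lit 0x2000000000), (nat_lit 0x2000000000)⟩,
    ⟨(nat_lit 0x21b72), (nat_lit 0x21b72), (nat_lit 0x21b72), (nat_lit 0x21b72)⟩,
    ⟨(nat_lit 0), (nat_lit 0), (nat_lit 0), (nat_lit 0)⟩,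
    ⟨(nat_lit 0x2000000000), (nat_lit 0x2000000000), (nat_lit 0x2000000000), (nat_lit 0x2000000000)⟩,
    ⟨(nat_lit 0x21b70), (nat_lit 0x21b70), (nat_lit 0x21b70), (nat_lit 0x21b70)⟩,
    ⟨(nat_lit 0x202a47b000), (nat_lit 0x202a469000), (nat_lit 0x202a513000), (nat_lit 0x202a501000)⟩,
    (nat_lit 0x21b70), (nat_lit 0x21b72)⟩) (.lf ⟨⟨(nat_lit 0x202a495000), (nat_lit 0x202a483000), (nat_lit 0x202a52d000), (nat_lit 0x202a51b000)⟩,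
    ⟨(nat_lit 0x51101), (nat_lit 0x510b9), (nat_lit 0x51343), (nat_lit 0x512fb)⟩,
    ⟨(nat_lit 0x2000000000), (nat_lit 0x2000000000), (nat_lit 0x2000000000), (nat_lit 0x2000000000)⟩,
    ⟨(nat_lit 0x202a47b000), (nat_lit 0x202a469000), (nat_lit 0x202a513000), (nat_lit 0x202a501000)⟩,
    ⟨(nat_lit 0x51147), (nat_lit 0x510ff), (nat_lit 0x51389), (nat_lit 0x51341)⟩,
    ⟨(nat_lit 0), (nat_lit 0), (nat_lit 0), (nat_lit 0)⟩,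
    (nat_lit 0x510b9), (nat_lit 0x51389)⟩)) (.nd (.lf ⟨⟨(nat_lit 0x207d90b000), (nat_lit 0x207d865000), (nat_lit 0x207dd6d000), (nat_lit 0x207dcc7000)⟩,
    ⟨(nat_lit 0x4c14d), (nat_lit 0x4c083), (nat_lit 0x4c653), (nat_lit 0x4c589)⟩,
    ⟨(nat_lit 0), (nat_lit 0), (nat_lit 0), (nat_lit 0)⟩,
    ⟨(nat_lit 0x207d8ad000), (nat_lit 0x207d807000), (nat_lit 0x207dd0f000), (nat_lit 0x207dc69000)⟩,
    ⟨(nat_lit 0x4c0e7), (nat_lit 0x4c01d), (nat_lit 0x4c5ed), (nat_lit 0x4c523)⟩,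
    ⟨(nat_lit 0x209cacc000), (nat_lit 0x209c9ca000), (nat_lit 0x209d19c000), (nat_lit 0x209d09a000)⟩,
    (nat_lit 0x4c01d), (nat_lit 0x4c653)⟩) (.lf ⟨⟨(nat_lit 0x209cb50000), (nat_lit 0x209ca4e000), (nat_lit 0x209d220000), (nat_lit 0x209d11e000)⟩,
    ⟨(nat_lit 0x13704), (nat_lit 0x136c4), (nat_lit 0x138c2), (nat_lit 0x13882)⟩,
    ⟨(nat_lit 0x207d90b000), (nat_lit 0x207d865000), (nat_lit 0x207dd6d000), (nat_lit 0x207dcc7000)⟩,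
    ⟨(nat_lit 0x209cacc000), (nat_lit 0x209c9ca000), (nat_lit 0x209d19c000), (nat_lit 0x209d09a000)⟩,
    ⟨(nat_lit 0x13722), (nat_lit 0x136e2), (nat_lit 0x138e0), (nat_lit 0x138a0)⟩,
    ⟨(nat_lit 0), (nat_lit 0), (nat_lit 0), (nat_lit 0)⟩,
    (nat_lit 0x136c4), (nat_lit 0x138e0)⟩))) (.nd (.nd (.lf ⟨⟨(nat_lit 0x204b012000), (nat_lit 0x204afd6000), (nat_lit 0x204b19e000), (nat_lit 0x204b162000)⟩,
    ⟨(nat_lit 0x1deab), (nat_lit 0x1de7b), (nat_lit 0x1dffb), (nat_lit 0x1dfcb)⟩,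
    ⟨(nat_lit 0), (nat_lit 0), (nat_lit 0), (nat_lit 0)⟩,
    ⟨(nat_lit 0x204afe0000), (nat_lit 0x204afa4000), (nat_lit 0x204b16c000), (nat_lit 0x204b130000)⟩,
    ⟨(nat_lit 0x1de8b), (nat_lit 0x1de5b), (nat_lit 0x1dfdb), (nat_lit 0x1dfab)⟩,
    ⟨(nat_lit 0x206430a000), (nat_lit 0x20642a0000), (nat_lit 0x20645cc000), (nat_lit 0x2064562000)⟩,
    (nat_lit 0x1de5b), (nat_lit 0x1dffb)⟩) (.lf ⟨⟨(nat_lit 0x2064350000), (nat_lit 0x20642e6000), (nat_lit 0x2064612000), (nat_lit 0x20645a8000)⟩,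
    ⟨(nat_lit 0x1f9e1), (nat_lit 0x1f99f), (nat_lit 0x1fb87), (nat_lit 0x1fb45)⟩,
    ⟨(nat_lit 0x204b012000), (nat_lit 0x204afd6000), (nat_lit 0x204b19e000), (nat_lit 0x204b162000)⟩,
    ⟨(nat_lit 0x206430a000), (nat_lit 0x20642a0000), (nat_lit 0x20645cc000), (nat_lit 0x2064562000)⟩,
    ⟨(nat_lit 0x1fa07), (nat_lit 0x1f9c5), (nat_lit 0x1fbad), (nat_lit 0x1fb6b)⟩,
    ⟨(nat_lit 0), (nat_lit 0), (nat_lit 0), (nat_lit 0)⟩,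
    (nat_lit 0x1f99f), (nat_lit 0x1fbad)⟩)) (.nd (.lf ⟨⟨(nat_lit 0x2000000000), (nat_lit 0x2000000000), (nat_lit 0x2000000000), (nat_lit 0x2000000000)⟩,
    ⟨(nat_lit 0x100000), (nat_lit 0x100000), (nat_lit 0x100000), (nat_lit 0x100000)⟩,
    ⟨(nat_lit 0), (nat_lit 0), (nat_lit 0), (nat_lit 0)⟩,
    ⟨(nat_lit 0x2000000000), (nat_lit 0x2000000000), (nat_lit 0x2000000000), (nat_lit 0x2000000000)⟩,
    ⟨(nat_lit 0x100000), (nat_lit 0x100000), (nat_lit 0x100000), (nat_lit 0x100000)⟩,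
    ⟨(nat_lit 0x209cacc000), (nat_lit 0x209c9ca000), (nat_lit 0x209d19c000), (nat_lit 0x209d09a000)⟩,
    (nat_lit 0x100000), (nat_lit 0x100000)⟩) (.lf ⟨⟨(nat_lit 0x209cb50000), (nat_lit 0x209ca4e000), (nat_lit 0x209d220000), (nat_lit 0x209d11e000)⟩,
    ⟨(nat_lit 0x9399b), (nat_lit 0x937b3), (nat_lit 0x946d7), (nat_lit 0x944ef)⟩,
    ⟨(nat_lit 0x2000000000), (nat_lit 0x2000000000), (nat_lit 0x2000000000), (nat_lit 0x2000000000)⟩,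
    ⟨(nat_lit 0x209cacc000), (nat_lit 0x209c9ca000), (nat_lit 0x209d19c000), (nat_lit 0x209d09a000)⟩,
    ⟨(nat_lit 0x93a6d), (nat_lit 0x93885), (nat_lit 0x947a9), (nat_lit 0x945c1)⟩,
    ⟨(nat_lit 0), (nat_lit 0), (nat_lit 0), (nat_lit 0)⟩,
    (nat_lit 0x937b3), (nat_lit 0x947a9)⟩)))
  nx := .nd (.nd (.lf (nat_lit 70)) (.lf (nat_lit 51))) (.nd (.lf (nat_lit 116)) (.lf (nat_lit 93)))
  mir := (nat_lit 92)

noncomputable def cx94 : CtxD where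
  sd := .nd (.nd (.nd (.lf ⟨⟨(nat_lit 0x2000000000), (nat_lit 0x2000000000), (nat_lit 0x2000000000), (nat_lit 0x2000000000)⟩,
    ⟨(nat_lit 0x21b72), (nat_lit 0x21b72), (nat_lit 0x21b72), (nat_lit 0x21b72)⟩,
    ⟨(nat_lit 0), (nat_lit 0), (nat_lit 0), (nat_lit 0)⟩,
    ⟨(nat_lit 0x2000000000), (nat_lit 0x2000000000), (nat_lit 0x2000000000), (nat_lit 0x2000000000)⟩,
    ⟨(nat_lit 0x21b70), (nat_lit 0x21b70), (nat_lit 0x21b70), (nat_lit 0x21b70)⟩,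
    ⟨(nat_lit 0x2035ced000), (nat_lit 0x2035cd3000), (nat_lit 0x2035e61000), (nat_lit 0x2035e47000)⟩,
    (nat_lit 0x21b70), (nat_lit 0x21b72)⟩) (.lf ⟨⟨(nat_lit 0x2035d07000), (nat_lit 0x2035ced000), (nat_lit 0x2035e7b000), (nat_lit 0x2035e61000)⟩,
    ⟨(nat_lit 0x82fc3), (nat_lit 0x82f43), (nat_lit 0x836f5), (nat_lit 0x83675)⟩,
    ⟨(nat_lit 0x2000000000), (nat_lit 0x2000000000), (nat_lit 0x2000000000), (nat_lit 0x2000000000)⟩,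
    ⟨(nat_lit 0x2035ced000), (nat_lit 0x2035cd3000), (nat_lit 0x2035e61000), (nat_lit 0x2035e47000)⟩,
    ⟨(nat_lit 0x8301d), (nat_lit 0x82f9d), (nat_lit 0x8374f), (nat_lit 0x836cf)⟩,
    ⟨(nat_lit 0), (nat_lit 0), (nat_lit 0), (nat_lit 0)⟩,
    (nat_lit 0x82f43), (nat_lit 0x8374f)⟩)) (.nd (.lf ⟨⟨(nat_lit 0x20c44be000), (nat_lit 0x20c4362000), (nat_lit 0x20c55be000), (nat_lit 0x20c5462000)⟩,
    ⟨(nat_lit 0x89ed3), (nat_lit 0x89ce7), (nat_lit 0x8b4b1), (nat_lit 0x8b2c5)⟩,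
    ⟨(nat_lit 0), (nat_lit 0), (nat_lit 0), (nat_lit 0)⟩,
    ⟨(nat_lit 0x20c4434000), (nat_lit 0x20c42d8000), (nat_lit 0x20c5534000), (nat_lit 0x20c53d8000)⟩,
    ⟨(nat_lit 0x89e21), (nat_lit 0x89c35), (nat_lit 0x8b3ff), (nat_lit 0x8b213)⟩,
    ⟨(nat_lit 0x210be13000), (nat_lit 0x210bb87000), (nat_lit 0x210dccf000), (nat_lit 0x210da43000)⟩,
    (nat_lit 0x89c35), (nat_lit 0x8b4b1)⟩) (.lf ⟨⟨(nat_lit 0x210befb000), (nat_lit 0x210bc6f000), (nat_lit 0x210ddb7000), (nat_lit 0x210db2b000)⟩,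
    ⟨(nat_lit 0x38dd2), (nat_lit 0x38cbc), (nat_lit 0x39aa0), (nat_lit 0x3998a)⟩,
    ⟨(nat_lit 0x20c44be000), (nat_lit 0x20c4362000), (nat_lit 0x20c55be000), (nat_lit 0x20c5462000)⟩,
    ⟨(nat_lit 0x210be13000), (nat_lit 0x210bb87000), (nat_lit 0x210dccf000), (nat_lit 0x210da43000)⟩,
    ⟨(nat_lit 0x38e36), (nat_lit 0x38d20), (nat_lit 0x39b04), (nat_lit 0x399ee)⟩,
    ⟨(nat_lit 0), (nat_lit 0), (nat_lit 0), (nat_lit 0)⟩,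
    (nat_lit 0x38cbc), (nat_lit 0x39b04)⟩))) (.nd (.nd (.lf ⟨⟨(nat_lit 0x206170e000), (nat_lit 0x20616b8000), (nat_lit 0x2061b50000), (nat_lit 0x2061afa000)⟩,
    ⟨(nat_lit 0x363a4), (nat_lit 0x36344), (nat_lit 0x3688a), (nat_lit 0x3682a)⟩,
    ⟨(nat_lit 0), (nat_lit 0), (nat_lit 0), (nat_lit 0)⟩,
    ⟨(nat_lit 0x20616dc000), (nat_lit 0x2061686000), (nat_lit 0x2061b1e000), (nat_lit 0x2061ac8000)⟩,
    ⟨(nat_lit 0x36374), (nat_lit 0x36314), (nat_lit 0x3685a), (nat_lit 0x367fa)⟩,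
    ⟨(nat_lit 0x208c91f000), (nat_lit 0x208c86d000), (nat_lit 0x208d1d9000), (nat_lit 0x208d127000)⟩,
    (nat_lit 0x36314), (nat_lit 0x3688a)⟩) (.lf ⟨⟨(nat_lit 0x208c973000), (nat_lit 0x208c8c1000), (nat_lit 0x208d22d000), (nat_lit 0x208d17b000)⟩,
    ⟨(nat_lit 0x3322b), (nat_lit 0x331a9), (nat_lit 0x3381b), (nat_lit 0x33799)⟩,
    ⟨(nat_lit 0x206170e000), (nat_lit 0x20616b8000), (nat_lit 0x2061b50000), (nat_lit 0x2061afa000)⟩,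
    ⟨(nat_lit 0x208c91f000), (nat_lit 0x208c86d000), (nat_lit 0x208d1d9000), (nat_lit 0x208d127000)⟩,
    ⟨(nat_lit 0x33261), (nat_lit 0x331df), (nat_lit 0x33851), (nat_lit 0x337cf)⟩,
    ⟨(nat_lit 0), (nat_lit 0), (nat_lit 0), (nat_lit 0)⟩,
    (nat_lit 0x331a9), (nat_lit 0x33851)⟩)) (.nd (.lf ⟨⟨(nat_lit 0x2000000000), (nat_lit 0x2000000000), (nat_lit 0x2000000000), (nat_lit 0x2000000000)⟩,
    ⟨(nat_lit 0x100000), (nat_lit 0x100000), (nat_lit 0x100000), (nat_lit 0x100000)⟩,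
    ⟨(nat_lit 0), (nat_lit 0), (nat_lit 0), (nat_lit 0)⟩,
    ⟨(nat_lit 0x2000000000), (nat_lit 0x2000000000), (nat_lit 0x2000000000), (nat_lit 0x2000000000)⟩,
    ⟨(nat_lit 0x100000), (nat_lit 0x100000), (nat_lit 0x100000), (nat_lit 0x100000)⟩,
    ⟨(nat_lit 0x210be13000), (nat_lit 0x210bb87000), (nat_lit 0x210dccf000), (nat_lit 0x210da43000)⟩,
    (nat_lit 0x100000), (nat_lit 0x100000)⟩) (.lf ⟨⟨(nat_lit 0x210befb000), (nat_lit 0x210bc6f000), (nat_lit 0x210ddb7000), (nat_lit 0x210db2b000)⟩,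
    ⟨(nat_lit 0x1afc5c), (nat_lit 0x1af418), (nat_lit 0x1b5d9c), (nat_lit 0x1b5558)⟩,
    ⟨(nat_lit 0x2000000000), (nat_lit 0x2000000000), (nat_lit 0x2000000000), (nat_lit 0x2000000000)⟩,
    ⟨(nat_lit 0x210be13000), (nat_lit 0x210bb87000), (nat_lit 0x210dccf000), (nat_lit 0x210da43000)⟩,
    ⟨(nat_lit 0x1aff42), (nat_lit 0x1af6fe), (nat_lit 0x1b6082), (nat_lit 0x1b583e)⟩,
    ⟨(nat_lit 0), (nat_lit 0), (nat_lit 0), (nat_lit 0)⟩,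
    (nat_lit 0x1af418), (nat_lit 0x1b6082)⟩)))
  nx := .nd (.nd (.lf (nat_lit 50)) (.lf (nat_lit 71))) (.nd (.lf (nat_lit 117)) (.lf (nat_lit 94)))
  mir := (nat_lit 95)

noncomputable def cx95 : CtxD where
  sd := .nd (.nd (.nd (.lf ⟨⟨(nat_lit 0x2000000000), (nat_lit 0x2000000000), (nat_lit 0x2000000000), (nat_lit 0x2000000000)⟩,
    ⟨(nat_lit 0x21b72), (nat_lit 0x21b72), (nat_lit 0x21b72), (nat_lit 0x21b72)⟩,
    ⟨(nat_lit 0), (nat_lit 0), (nat_lit 0), (nat_lit 0)⟩,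
    ⟨(nat_lit 0x2000000000), (nat_lit 0x2000000000), (nat_lit 0x2000000000), (nat_lit 0x2000000000)⟩,
    ⟨(nat_lit 0x21b70), (nat_lit 0x21b70), (nat_lit 0x21b70), (nat_lit 0x21b70)⟩,
    ⟨(nat_lit 0x202a603000), (nat_lit 0x202a5e7000), (nat_lit 0x202a769000), (nat_lit 0x202a74d000)⟩,
    (nat_lit 0x21b70), (nat_lit 0x21b72)⟩) (.lf ⟨⟨(nat_lit 0x202a61f000), (nat_lit 0x202a603000), (nat_lit 0x202a785000), (nat_lit 0x202a769000)⟩,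
    ⟨(nat_lit 0x516da), (nat_lit 0x5166e), (nat_lit 0x51c3a), (nat_lit 0x51bce)⟩,
    ⟨(nat_lit 0x2000000000), (nat_lit 0x2000000000), (nat_lit 0x2000000000), (nat_lit 0x2000000000)⟩,
    ⟨(nat_lit 0x202a603000), (nat_lit 0x202a5e7000), (nat_lit 0x202a769000), (nat_lit 0x202a74d000)⟩,
    ⟨(nat_lit 0x51724), (nat_lit 0x516b8), (nat_lit 0x51c84), (nat_lit 0x51c18)⟩,
    ⟨(nat_lit 0), (nat_lit 0), (nat_lit 0), (nat_lit 0)⟩,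
    (nat_lit 0x5166e), (nat_lit 0x51c84)⟩)) (.nd (.lf ⟨⟨(nat_lit 0x207e4b0000), (nat_lit 0x207e3b8000), (nat_lit 0x207efc4000), (nat_lit 0x207eecc000)⟩,
    ⟨(nat_lit 0x4cec1), (nat_lit 0x4cd93), (nat_lit 0x4dbcf), (nat_lit 0x4daa1)⟩,
    ⟨(nat_lit 0), (nat_lit 0), (nat_lit 0), (nat_lit 0)⟩,
    ⟨(nat_lit 0x207e444000), (nat_lit 0x207e34c000), (nat_lit 0x207ef58000), (nat_lit 0x207ee60000)⟩,
    ⟨(nat_lit 0x4ce53), (nat_lit 0x4cd25), (nat_lit 0x4db61), (nat_lit 0x4da33)⟩,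
    ⟨(nat_lit 0x209dcda000), (nat_lit 0x209db58000), (nat_lit 0x209ee2c000), (nat_lit 0x209ecaa000)⟩,
    (nat_lit 0x4cd25), (nat_lit 0x4dbcf)⟩) (.lf ⟨⟨(nat_lit 0x209dd6e000), (nat_lit 0x209dbec000), (nat_lit 0x209eec0000), (nat_lit 0x209ed3e000)⟩,
    ⟨(nat_lit 0x13ba2), (nat_lit 0x13b42), (nat_lit 0x14014), (nat_lit 0x13fb4)⟩,
    ⟨(nat_lit 0x207e4b0000), (nat_lit 0x207e3b8000), (nat_lit 0x207efc4000), (nat_lit 0x207eecc000)⟩,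
    ⟨(nat_lit 0x209dcda000), (nat_lit 0x209db58000), (nat_lit 0x209ee2c000), (nat_lit 0x209ecaa000)⟩,
    ⟨(nat_lit 0x13bc2), (nat_lit 0x13b62), (nat_lit 0x14034), (nat_lit 0x13fd4)⟩,
    ⟨(nat_lit 0), (nat_lit 0), (nat_lit 0), (nat_lit 0)⟩,
    (nat_lit 0x13b42), (nat_lit 0x14034)⟩))) (.nd (.nd (.lf ⟨⟨(nat_lit 0x204b42e000), (nat_lit 0x204b3d6000), (nat_lit 0x204b814000), (nat_lit 0x204b7bc000)⟩,
    ⟨(nat_lit 0x1e221), (nat_lit 0x1e1db), (nat_lit 0x1e565), (nat_lit 0x1e51f)⟩,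
    ⟨(nat_lit 0), (nat_lit 0), (nat_lit 0), (nat_lit 0)⟩,
    ⟨(nat_lit 0x204b3f8000), (nat_lit 0x204b3a0000), (nat_lit 0x204b7de000), (nat_lit 0x204b786000)⟩,
    ⟨(nat_lit 0x1e1ff), (nat_lit 0x1e1b9), (nat_lit 0x1e543), (nat_lit 0x1e4fd)⟩,
    ⟨(nat_lit 0x2064a55000), (nat_lit 0x20649b7000), (nat_lit 0x206514d000), (nat_lit 0x20650af000)⟩,
    (nat_lit 0x1e1b9), (nat_lit 0x1e565)⟩) (.lf ⟨⟨(nat_lit 0x2064aa5000), (nat_lit 0x2064a07000), (nat_lit 0x206519d000), (nat_lit 0x20650ff000)⟩,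
    ⟨(nat_lit 0x1fe4a), (nat_lit 0x1fde6), (nat_lit 0x20292), (nat_lit 0x2022e)⟩,
    ⟨(nat_lit 0x204b42e000), (nat_lit 0x204b3d6000), (nat_lit 0x204b814000), (nat_lit 0x204b7bc000)⟩,
    ⟨(nat_lit 0x2064a55000), (nat_lit 0x20649b7000), (nat_lit 0x206514d000), (nat_lit 0x20650af000)⟩,
    ⟨(nat_lit 0x1fe74), (nat_lit 0x1fe10), (nat_lit 0x202bc), (nat_lit 0x20258)⟩,
    ⟨(nat_lit 0), (nat_lit 0), (nat_lit 0), (nat_lit 0)⟩,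
    (nat_lit 0x1fde6), (nat_lit 0x202bc)⟩)) (.nd (.lf ⟨⟨(nat_lit 0x2000000000), (nat_lit 0x2000000000), (nat_lit 0x2000000000), (nat_lit 0x2000000000)⟩,
    ⟨(nat_lit 0x100000), (nat_lit 0x100000), (nat_lit 0x100000), (nat_lit 0x100000)⟩,
    ⟨(nat_lit 0), (nat_lit 0), (nat_lit 0), (nat_lit 0)⟩,
    ⟨(nat_lit 0x2000000000), (nat_lit 0x2000000000), (nat_lit 0x2000000000), (nat_lit 0x2000000000)⟩,
    ⟨(nat_lit 0x100000), (nat_lit 0x100000), (nat_lit 0x100000), (nat_lit 0x100000)⟩,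
    ⟨(nat_lit 0x209dcda000), (nat_lit 0x209db58000), (nat_lit 0x209ee2c000), (nat_lit 0x209ecaa000)⟩,
    (nat_lit 0x100000), (nat_lit 0x100000)⟩) (.lf ⟨⟨(nat_lit 0x209dd6e000), (nat_lit 0x209dbec000), (nat_lit 0x209eec0000), (nat_lit 0x209ed3e000)⟩,
    ⟨(nat_lit 0x95cac), (nat_lit 0x959ce), (nat_lit 0x97e6a), (nat_lit 0x97b8c)⟩,
    ⟨(nat_lit 0x2000000000), (nat_lit 0x2000000000), (nat_lit 0x2000000000), (nat_lit 0x2000000000)⟩,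
    ⟨(nat_lit 0x209dcda000), (nat_lit 0x209db58000), (nat_lit 0x209ee2c000), (nat_lit 0x209ecaa000)⟩,
    ⟨(nat_lit 0x95d90), (nat_lit 0x95ab2), (nat_lit 0x97f4e), (nat_lit 0x97c70)⟩,
    ⟨(nat_lit 0), (nat_lit 0), (nat_lit 0), (nat_lit 0)⟩,
    (nat_lit 0x959ce), (nat_lit 0x97f4e)⟩)))
  nx := .nd (.nd (.lf (nat_lit 70)) (.lf (nat_lit 51))) (.nd (.lf (nat_lit 116)) (.lf (nat_lit 95)))
  mir := (nat_lit 94)

noncomputable def cx96 : CtxD where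
  sd := .nd (.nd (.nd (.lf ⟨⟨(nat_lit 0x2000000000), (nat_lit 0x2000000000), (nat_lit 0x2000000000), (nat_lit 0x2000000000)⟩,
    ⟨(nat_lit 0x21b72), (nat_lit 0x21b72), (nat_lit 0x21b72), (nat_lit 0x21b72)⟩,
    ⟨(nat_lit 0), (nat_lit 0), (nat_lit 0), (nat_lit 0)⟩,
    ⟨(nat_lit 0x2000000000), (nat_lit 0x2000000000), (nat_lit 0x2000000000), (nat_lit 0x2000000000)⟩,
    ⟨(nat_lit 0x21b70), (nat_lit 0x21b70), (nat_lit 0x21b70), (nat_lit 0x21b70)⟩,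
    ⟨(nat_lit 0x20358a3000), (nat_lit 0x2035881000), (nat_lit 0x2035a17000), (nat_lit 0x20359f5000)⟩,
    (nat_lit 0x21b70), (nat_lit 0x21b72)⟩) (.lf ⟨⟨(nat_lit 0x20358c9000), (nat_lit 0x20358a7000), (nat_lit 0x2035a3d000), (nat_lit 0x2035a1b000)⟩,
    ⟨(nat_lit 0x81a9f), (nat_lit 0x819f9), (nat_lit 0x821c7), (nat_lit 0x82121)⟩,
    ⟨(nat_lit 0x2000000000), (nat_lit 0x2000000000), (nat_lit 0x2000000000), (nat_lit 0x2000000000)⟩,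
    ⟨(nat_lit 0x20358a3000), (nat_lit 0x2035881000), (nat_lit 0x2035a17000), (nat_lit 0x20359f5000)⟩,
    ⟨(nat_lit 0x81b1f), (nat_lit 0x81a79), (nat_lit 0x82247), (nat_lit 0x821a1)⟩,
    ⟨(nat_lit 0), (nat_lit 0), (nat_lit 0), (nat_lit 0)⟩,
    (nat_lit 0x819f9), (nat_lit 0x82247)⟩)) (.nd (.lf ⟨⟨(nat_lit 0x20c16ef000), (nat_lit 0x20c152d000), (nat_lit 0x20c25e9000), (nat_lit 0x20c2427000)⟩,
    ⟨(nat_lit 0x86737), (nat_lit 0x864c5), (nat_lit 0x878bf), (nat_lit 0x8764d)⟩,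
    ⟨(nat_lit 0), (nat_lit 0), (nat_lit 0), (nat_lit 0)⟩,
    ⟨(nat_lit 0x20c15f5000), (nat_lit 0x20c1433000), (nat_lit 0x20c24ef000), (nat_lit 0x20c232d000)⟩,
    ⟨(nat_lit 0x865fb), (nat_lit 0x86389), (nat_lit 0x87783), (nat_lit 0x87511)⟩,
    ⟨(nat_lit 0x2106c60000), (nat_lit 0x2106922000), (nat_lit 0x2108670000), (nat_lit 0x2108332000)⟩,
    (nat_lit 0x86389), (nat_lit 0x878bf)⟩) (.lf ⟨⟨(nat_lit 0x2106e0c000), (nat_lit 0x2106ace000), (nat_lit 0x210881c000), (nat_lit 0x21084de000)⟩,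
    ⟨(nat_lit 0x36cb6), (nat_lit 0x36b5a), (nat_lit 0x37712), (nat_lit 0x375b6)⟩,
    ⟨(nat_lit 0x20c16ef000), (nat_lit 0x20c152d000), (nat_lit 0x20c25e9000), (nat_lit 0x20c2427000)⟩,
    ⟨(nat_lit 0x2106c60000), (nat_lit 0x2106922000), (nat_lit 0x2108670000), (nat_lit 0x2108332000)⟩,
    ⟨(nat_lit 0x36d5e), (nat_lit 0x36c02), (nat_lit 0x377ba), (nat_lit 0x3765e)⟩,
    ⟨(nat_lit 0), (nat_lit 0), (nat_lit 0), (nat_lit 0)⟩,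
    (nat_lit 0x36b5a), (nat_lit 0x377ba)⟩))) (.nd (.nd (.lf ⟨⟨(nat_lit 0x2060b55000), (nat_lit 0x2060ae5000), (nat_lit 0x2060f39000), (nat_lit 0x2060ec9000)⟩,
    ⟨(nat_lit 0x35607), (nat_lit 0x3558b), (nat_lit 0x35a8d), (nat_lit 0x35a11)⟩,
    ⟨(nat_lit 0), (nat_lit 0), (nat_lit 0), (nat_lit 0)⟩,
    ⟨(nat_lit 0x2060b03000), (nat_lit 0x2060a93000), (nat_lit 0x2060ee7000), (nat_lit 0x2060e77000)⟩,
    ⟨(nat_lit 0x355bb), (nat_lit 0x3553f), (nat_lit 0x35a41), (nat_lit 0x359c5)⟩,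
    ⟨(nat_lit 0x208b12f000), (nat_lit 0x208b047000), (nat_lit 0x208b8fb000), (nat_lit 0x208b813000)⟩,
    (nat_lit 0x3553f), (nat_lit 0x35a8d)⟩) (.lf ⟨⟨(nat_lit 0x208b1c1000), (nat_lit 0x208b0d9000), (nat_lit 0x208b98d000), (nat_lit 0x208b8a5000)⟩,
    ⟨(nat_lit 0x32291), (nat_lit 0x321e9), (nat_lit 0x32785), (nat_lit 0x326dd)⟩,
    ⟨(nat_lit 0x2060b55000), (nat_lit 0x2060ae5000), (nat_lit 0x2060f39000), (nat_lit 0x2060ec9000)⟩,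
    ⟨(nat_lit 0x208b12f000), (nat_lit 0x208b047000), (nat_lit 0x208b8fb000), (nat_lit 0x208b813000)⟩,
    ⟨(nat_lit 0x322eb), (nat_lit 0x32243), (nat_lit 0x327df), (nat_lit 0x32737)⟩,
    ⟨(nat_lit 0), (nat_lit 0), (nat_lit 0), (nat_lit 0)⟩,
    (nat_lit 0x321e9), (nat_lit 0x327df)⟩)) (.nd (.lf ⟨⟨(nat_lit 0x2000000000), (nat_lit 0x2000000000), (nat_lit 0x2000000000), (nat_lit 0x2000000000)⟩,
    ⟨(nat_lit 0x100000), (nat_lit 0x100000), (nat_lit 0x100000), (nat_lit 0x100000)⟩,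
    ⟨(nat_lit 0), (nat_lit 0), (nat_lit 0), (nat_lit 0)⟩,
    ⟨(nat_lit 0x2000000000), (nat_lit 0x2000000000), (nat_lit 0x2000000000), (nat_lit 0x2000000000)⟩,
    ⟨(nat_lit 0x100000), (nat_lit 0x100000), (nat_lit 0x100000), (nat_lit 0x100000)⟩,
    ⟨(nat_lit 0x2106c60000), (nat_lit 0x2106922000), (nat_lit 0x2108670000), (nat_lit 0x2108332000)⟩,
    (nat_lit 0x100000), (nat_lit 0x100000)⟩) (.lf ⟨⟨(nat_lit 0x2106e0c000), (nat_lit 0x2106ace000), (nat_lit 0x210881c000), (nat_lit 0x21084de000)⟩,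
    ⟨(nat_lit 0x1a00fb), (nat_lit 0x19f6ad), (nat_lit 0x1a4fa1), (nat_lit 0x1a4553)⟩,
    ⟨(nat_lit 0x2000000000), (nat_lit 0x2000000000), (nat_lit 0x2000000000), (nat_lit 0x2000000000)⟩,
    ⟨(nat_lit 0x2106c60000), (nat_lit 0x2106922000), (nat_lit 0x2108670000), (nat_lit 0x2108332000)⟩,
    ⟨(nat_lit 0x1a05df), (nat_lit 0x19fb91), (nat_lit 0x1a5485), (nat_lit 0x1a4a37)⟩,
    ⟨(nat_lit 0), (nat_lit 0), (nat_lit 0), (nat_lit 0)⟩,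
    (nat_lit 0x19f6ad), (nat_lit 0x1a5485)⟩)))
  nx := .nd (.nd (.lf (nat_lit 52)) (.lf (nat_lit 69))) (.nd (.lf (nat_lit 117)) (.lf (nat_lit 96)))
  mir := (nat_lit 97)

noncomputable def cx97 : CtxD where
  sd := .nd (.nd (.nd (.lf ⟨⟨(nat_lit 0x2000000000), (nat_lit 0x2000000000), (nat_lit 0x2000000000), (nat_lit 0x2000000000)⟩,
    ⟨(nat_lit 0x21b72), (nat_lit 0x21b72), (nat_lit 0x21b72), (nat_lit 0x21b72)⟩,
    ⟨(nat_lit 0), (nat_lit 0), (nat_lit 0), (nat_lit 0)⟩,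
    ⟨(nat_lit 0x2000000000), (nat_lit 0x2000000000), (nat_lit 0x2000000000), (nat_lit 0x2000000000)⟩,
    ⟨(nat_lit 0x21b70), (nat_lit 0x21b70), (nat_lit 0x21b70), (nat_lit 0x21b70)⟩,
    ⟨(nat_lit 0x202aa08000), (nat_lit 0x202a9e4000), (nat_lit 0x202ab44000), (nat_lit 0x202ab20000)⟩,
    (nat_lit 0x21b70), (nat_lit 0x21b72)⟩) (.lf ⟨⟨(nat_lit 0x202aa2c000), (nat_lit 0x202aa08000), (nat_lit 0x202ab68000), (nat_lit 0x202ab44000)⟩,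
    ⟨(nat_lit 0x52650), (nat_lit 0x525c6), (nat_lit 0x52b1a), (nat_lit 0x52a90)⟩,
    ⟨(nat_lit 0x2000000000), (nat_lit 0x2000000000), (nat_lit 0x2000000000), (nat_lit 0x2000000000)⟩,
    ⟨(nat_lit 0x202aa08000), (nat_lit 0x202a9e4000), (nat_lit 0x202ab44000), (nat_lit 0x202ab20000)⟩,
    ⟨(nat_lit 0x526b4), (nat_lit 0x5262a), (nat_lit 0x52b7e), (nat_lit 0x52af4)⟩,
    ⟨(nat_lit 0), (nat_lit 0), (nat_lit 0), (nat_lit 0)⟩,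
    (nat_lit 0x525c6), (nat_lit 0x52b7e)⟩)) (.nd (.lf ⟨⟨(nat_lit 0x2080415000), (nat_lit 0x20802d3000), (nat_lit 0x2080d2b000), (nat_lit 0x2080be9000)⟩,
    ⟨(nat_lit 0x4f397), (nat_lit 0x4f207), (nat_lit 0x4fe25), (nat_lit 0x4fc95)⟩,
    ⟨(nat_lit 0), (nat_lit 0), (nat_lit 0), (nat_lit 0)⟩,
    ⟨(nat_lit 0x208035b000), (nat_lit 0x2080219000), (nat_lit 0x2080c71000), (nat_lit 0x2080b2f000)⟩,
    ⟨(nat_lit 0x4f2c7), (nat_lit 0x4f137), (nat_lit 0x4fd55), (nat_lit 0x4fbc5)⟩,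
    ⟨(nat_lit 0x20a0d8f000), (nat_lit 0x20a0b93000), (nat_lit 0x20a1bed000), (nat_lit 0x20a19f1000)⟩,
    (nat_lit 0x4f137), (nat_lit 0x4fe25)⟩) (.lf ⟨⟨(nat_lit 0x20a0ea3000), (nat_lit 0x20a0ca7000), (nat_lit 0x20a1d01000), (nat_lit 0x20a1b05000)⟩,
    ⟨(nat_lit 0x1484b), (nat_lit 0x147c9), (nat_lit 0x14c2b), (nat_lit 0x14ba9)⟩,
    ⟨(nat_lit 0x2080415000), (nat_lit 0x20802d3000), (nat_lit 0x2080d2b000), (nat_lit 0x2080be9000)⟩,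
    ⟨(nat_lit 0x20a0d8f000), (nat_lit 0x20a0b93000), (nat_lit 0x20a1bed000), (nat_lit 0x20a19f1000)⟩,
    ⟨(nat_lit 0x1488d), (nat_lit 0x1480b), (nat_lit 0x14c6d), (nat_lit 0x14beb)⟩,
    ⟨(nat_lit 0), (nat_lit 0), (nat_lit 0), (nat_lit 0)⟩,
    (nat_lit 0x147c9), (nat_lit 0x14c6d)⟩))) (.nd (.nd (.lf ⟨⟨(nat_lit 0x204bf28000), (nat_lit 0x204beb6000), (nat_lit 0x204c246000), (nat_lit 0x204c1d4000)⟩,
    ⟨(nat_lit 0x1eb72), (nat_lit 0x1eb16), (nat_lit 0x1ee34), (nat_lit 0x1edd8)⟩,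
    ⟨(nat_lit 0), (nat_lit 0), (nat_lit 0), (nat_lit 0)⟩,
    ⟨(nat_lit 0x204bed8000), (nat_lit 0x204be66000), (nat_lit 0x204c1f6000), (nat_lit 0x204c184000)⟩,
    ⟨(nat_lit 0x1eb3c), (nat_lit 0x1eae0), (nat_lit 0x1edfe), (nat_lit 0x1eda2)⟩,
    ⟨(nat_lit 0x2065dce000), (nat_lit 0x2065d02000), (nat_lit 0x206636c000), (nat_lit 0x20662a0000)⟩,
    (nat_lit 0x1eae0), (nat_lit 0x1ee34)⟩) (.lf ⟨⟨(nat_lit 0x2065e4c000), (nat_lit 0x2065d80000), (nat_lit 0x20663ea000), (nat_lit 0x206631e000)⟩,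
    ⟨(nat_lit 0x20a2d), (nat_lit 0x209ab), (nat_lit 0x20d8f), (nat_lit 0x20d0d)⟩,
    ⟨(nat_lit 0x204bf28000), (nat_lit 0x204beb6000), (nat_lit 0x204c246000), (nat_lit 0x204c1d4000)⟩,
    ⟨(nat_lit 0x2065dce000), (nat_lit 0x2065d02000), (nat_lit 0x206636c000), (nat_lit 0x20662a0000)⟩,
    ⟨(nat_lit 0x20a75), (nat_lit 0x209f3), (nat_lit 0x20dd7), (nat_lit 0x20d55)⟩,
    ⟨(nat_lit 0), (nat_lit 0), (nat_lit 0), (nat_lit 0)⟩,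
    (nat_lit 0x209ab), (nat_lit 0x20dd7)⟩)) (.nd (.lf ⟨⟨(nat_lit 0x2000000000), (nat_lit 0x2000000000), (nat_lit 0x2000000000), (nat_lit 0x2000000000)⟩,
    ⟨(nat_lit 0x100000), (nat_lit 0x100000), (nat_lit 0x100000), (nat_lit 0x100000)⟩,
    ⟨(nat_lit 0), (nat_lit 0), (nat_lit 0), (nat_lit 0)⟩,
    ⟨(nat_lit 0x2000000000), (nat_lit 0x2000000000), (nat_lit 0x2000000000), (nat_lit 0x2000000000)⟩,
    ⟨(nat_lit 0x100000), (nat_lit 0x100000), (nat_lit 0x100000), (nat_lit 0x100000)⟩,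
    ⟨(nat_lit 0x20a0d8f000), (nat_lit 0x20a0b93000), (nat_lit 0x20a1bed000), (nat_lit 0x20a19f1000)⟩,
    (nat_lit 0x100000), (nat_lit 0x100000)⟩) (.lf ⟨⟨(nat_lit 0x20a0ea3000), (nat_lit 0x20a0ca7000), (nat_lit 0x20a1d01000), (nat_lit 0x20a1b05000)⟩,
    ⟨(nat_lit 0x9bcc0), (nat_lit 0x9b8e4), (nat_lit 0x9da30), (nat_lit 0x9d654)⟩,
    ⟨(nat_lit 0x2000000000), (nat_lit 0x2000000000), (nat_lit 0x2000000000), (nat_lit 0x2000000000)⟩,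
    ⟨(nat_lit 0x20a0d8f000), (nat_lit 0x20a0b93000), (nat_lit 0x20a1bed000), (nat_lit 0x20a19f1000)⟩,
    ⟨(nat_lit 0x9beac), (nat_lit 0x9bad0), (nat_lit 0x9dc1c), (nat_lit 0x9d840)⟩,
    ⟨(nat_lit 0), (nat_lit 0), (nat_lit 0), (nat_lit 0)⟩,
    (nat_lit 0x9b8e4), (nat_lit 0x9dc1c)⟩)))
  nx := .nd (.nd (.lf (nat_lit 68)) (.lf (nat_lit 53))) (.nd (.lf (nat_lit 116)) (.lf (nat_lit 97)))
  mir := (nat_lit 96)

noncomputable def cx98 : CtxD where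
  sd := .nd (.nd (.nd (.lf ⟨⟨(nat_lit 0x2000000000), (nat_lit 0x2000000000), (nat_lit 0x2000000000), (nat_lit 0x2000000000)⟩,
    ⟨(nat_lit 0x21b72), (nat_lit 0x21b72), (nat_lit 0x21b72), (nat_lit 0x21b72)⟩,
    ⟨(nat_lit 0), (nat_lit 0), (nat_lit 0), (nat_lit 0)⟩,
    ⟨(nat_lit 0x2000000000), (nat_lit 0x2000000000), (nat_lit 0x2000000000), (nat_lit 0x2000000000)⟩,
    ⟨(nat_lit 0x21b70), (nat_lit 0x21b70), (nat_lit 0x21b70), (nat_lit 0x21b70)⟩,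
    ⟨(nat_lit 0x203563a000), (nat_lit 0x203562a000), (nat_lit 0x2035718000), (nat_lit 0x2035708000)⟩,
    (nat_lit 0x21b70), (nat_lit 0x21b72)⟩) (.lf ⟨⟨(nat_lit 0x2035654000), (nat_lit 0x2035644000), (nat_lit 0x2035732000), (nat_lit 0x2035722000)⟩,
    ⟨(nat_lit 0x80ec2), (nat_lit 0x80e78), (nat_lit 0x812fa), (nat_lit 0x812b0)⟩,
    ⟨(nat_lit 0x2000000000), (nat_lit 0x2000000000), (nat_lit 0x2000000000), (nat_lit 0x2000000000)⟩,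
    ⟨(nat_lit 0x203563a000), (nat_lit 0x203562a000), (nat_lit 0x2035718000), (nat_lit 0x2035708000)⟩,
    ⟨(nat_lit 0x80f26), (nat_lit 0x80edc), (nat_lit 0x8135e), (nat_lit 0x81314)⟩,
    ⟨(nat_lit 0), (nat_lit 0), (nat_lit 0), (nat_lit 0)⟩,
    (nat_lit 0x80e78), (nat_lit 0x8135e)⟩)) (.nd (.lf ⟨⟨(nat_lit 0x20bfc2b000), (nat_lit 0x20bfb63000), (nat_lit 0x20c05e3000), (nat_lit 0x20c051b000)⟩,
    ⟨(nat_lit 0x84644), (nat_lit 0x8452e), (nat_lit 0x85284), (nat_lit 0x8516e)⟩,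
    ⟨(nat_lit 0), (nat_lit 0), (nat_lit 0), (nat_lit 0)⟩,
    ⟨(nat_lit 0x20bfb89000), (nat_lit 0x20bfac1000), (nat_lit 0x20c0541000), (nat_lit 0x20c0479000)⟩,
    ⟨(nat_lit 0x84570), (nat_lit 0x8445a), (nat_lit 0x851b0), (nat_lit 0x8509a)⟩,
    ⟨(nat_lit 0x2103dbd000), (nat_lit 0x2103c4d000), (nat_lit 0x2104f05000), (nat_lit 0x2104d95000)⟩,
    (nat_lit 0x8445a), (nat_lit 0x85284)⟩) (.lf ⟨⟨(nat_lit 0x2103ed1000), (nat_lit 0x2103d61000), (nat_lit 0x2105019000), (nat_lit 0x2104ea9000)⟩,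
    ⟨(nat_lit 0x35a11), (nat_lit 0x35979), (nat_lit 0x36101), (nat_lit 0x36069)⟩,
    ⟨(nat_lit 0x20bfc2b000), (nat_lit 0x20bfb63000), (nat_lit 0x20c05e3000), (nat_lit 0x20c051b000)⟩,
    ⟨(nat_lit 0x2103dbd000), (nat_lit 0x2103c4d000), (nat_lit 0x2104f05000), (nat_lit 0x2104d95000)⟩,
    ⟨(nat_lit 0x35a83), (nat_lit 0x359eb), (nat_lit 0x36173), (nat_lit 0x360db)⟩,
    ⟨(nat_lit 0), (nat_lit 0), (nat_lit 0), (nat_lit 0)⟩,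
    (nat_lit 0x35979), (nat_lit 0x36173)⟩))) (.nd (.nd (.lf ⟨⟨(nat_lit 0x2060465000), (nat_lit 0x2060433000), (nat_lit 0x20606e7000), (nat_lit 0x20606b5000)⟩,
    ⟨(nat_lit 0x34e25), (nat_lit 0x34ded), (nat_lit 0x350fb), (nat_lit 0x350c3)⟩,
    ⟨(nat_lit 0), (nat_lit 0), (nat_lit 0), (nat_lit 0)⟩,
    ⟨(nat_lit 0x206042b000), (nat_lit 0x20603f9000), (nat_lit 0x20606ad000), (nat_lit 0x206067b000)⟩,
    ⟨(nat_lit 0x34ded), (nat_lit 0x34db5), (nat_lit 0x350c3), (nat_lit 0x3508b)⟩,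
    ⟨(nat_lit 0x208a364000), (nat_lit 0x208a2fc000), (nat_lit 0x208a878000), (nat_lit 0x208a810000)⟩,
    (nat_lit 0x34db5), (nat_lit 0x350fb)⟩) (.lf ⟨⟨(nat_lit 0x208a3c4000), (nat_lit 0x208a35c000), (nat_lit 0x208a8d8000), (nat_lit 0x208a870000)⟩,
    ⟨(nat_lit 0x31977), (nat_lit 0x3192d), (nat_lit 0x31cdf), (nat_lit 0x31c95)⟩,
    ⟨(nat_lit 0x2060465000), (nat_lit 0x2060433000), (nat_lit 0x20606e7000), (nat_lit 0x20606b5000)⟩,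
    ⟨(nat_lit 0x208a364000), (nat_lit 0x208a2fc000), (nat_lit 0x208a878000), (nat_lit 0x208a810000)⟩,
    ⟨(nat_lit 0x319b7), (nat_lit 0x3196d), (nat_lit 0x31d1f), (nat_lit 0x31cd5)⟩,
    ⟨(nat_lit 0), (nat_lit 0), (nat_lit 0), (nat_lit 0)⟩,
    (nat_lit 0x3192d), (nat_lit 0x31d1f)⟩)) (.nd (.lf ⟨⟨(nat_lit 0x2000000000), (nat_lit 0x2000000000), (nat_lit 0x2000000000), (nat_lit 0x2000000000)⟩,
    ⟨(nat_lit 0x100000), (nat_lit 0x100000), (nat_lit 0x100000), (nat_lit 0x100000)⟩,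
    ⟨(nat_lit 0), (nat_lit 0), (nat_lit 0), (nat_lit 0)⟩,
    ⟨(nat_lit 0x2000000000), (nat_lit 0x2000000000), (nat_lit 0x2000000000), (nat_lit 0x2000000000)⟩,
    ⟨(nat_lit 0x100000), (nat_lit 0x100000), (nat_lit 0x100000), (nat_lit 0x100000)⟩,
    ⟨(nat_lit 0x2103dbd000), (nat_lit 0x2103c4d000), (nat_lit 0x2104f05000), (nat_lit 0x2104d95000)⟩,
    (nat_lit 0x100000), (nat_lit 0x100000)⟩) (.lf ⟨⟨(nat_lit 0x2103ed1000), (nat_lit 0x2103d61000), (nat_lit 0x2105019000), (nat_lit 0x2104ea9000)⟩,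
    ⟨(nat_lit 0x197369), (nat_lit 0x196ee1), (nat_lit 0x19a80f), (nat_lit 0x19a387)⟩,
    ⟨(nat_lit 0x2000000000), (nat_lit 0x2000000000), (nat_lit 0x2000000000), (nat_lit 0x2000000000)⟩,
    ⟨(nat_lit 0x2103dbd000), (nat_lit 0x2103c4d000), (nat_lit 0x2104f05000), (nat_lit 0x2104d95000)⟩,
    ⟨(nat_lit 0x1976bd), (nat_lit 0x197235), (nat_lit 0x19ab63), (nat_lit 0x19a6db)⟩,
    ⟨(nat_lit 0), (nat_lit 0), (nat_lit 0), (nat_lit 0)⟩,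
    (nat_lit 0x196ee1), (nat_lit 0x19ab63)⟩)))
  nx := .nd (.nd (.lf (nat_lit 54)) (.lf (nat_lit 67))) (.nd (.lf (nat_lit 117)) (.lf (nat_lit 98)))
  mir := (nat_lit 99)

noncomputable def cx99 : CtxD where
  sd := .nd (.nd (.nd (.lf ⟨⟨(nat_lit 0x2000000000), (nat_lit 0x2000000000), (nat_lit 0x2000000000), (nat_lit 0x2000000000)⟩,
    ⟨(nat_lit 0x21b72), (nat_lit 0x21b72), (nat_lit 0x21b72), (nat_lit 0x21b72)⟩,
    ⟨(nat_lit 0), (nat_lit 0), (nat_lit 0), (nat_lit 0)⟩,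
    ⟨(nat_lit 0x2000000000), (nat_lit 0x2000000000), (nat_lit 0x2000000000), (nat_lit 0x2000000000)⟩,
    ⟨(nat_lit 0x21b70), (nat_lit 0x21b70), (nat_lit 0x21b70), (nat_lit 0x21b70)⟩,
    ⟨(nat_lit 0x202ac91000), (nat_lit 0x202ac81000), (nat_lit 0x202ad59000), (nat_lit 0x202ad49000)⟩,
    (nat_lit 0x21b70), (nat_lit 0x21b72)⟩) (.lf ⟨⟨(nat_lit 0x202acad000), (nat_lit 0x202ac9d000), (nat_lit 0x202ad75000), (nat_lit 0x202ad65000)⟩,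
    ⟨(nat_lit 0x53020), (nat_lit 0x52fe2), (nat_lit 0x53328), (nat_lit 0x532ea)⟩,
    ⟨(nat_lit 0x2000000000), (nat_lit 0x2000000000), (nat_lit 0x2000000000), (nat_lit 0x2000000000)⟩,
    ⟨(nat_lit 0x202ac91000), (nat_lit 0x202ac81000), (nat_lit 0x202ad59000), (nat_lit 0x202ad49000)⟩,
    ⟨(nat_lit 0x53072), (nat_lit 0x53034), (nat_lit 0x5337a), (nat_lit 0x5333c)⟩,
    ⟨(nat_lit 0), (nat_lit 0), (nat_lit 0), (nat_lit 0)⟩,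
    (nat_lit 0x52fe2), (nat_lit 0x5337a)⟩)) (.nd (.lf ⟨⟨(nat_lit 0x20816fc000), (nat_lit 0x208166a000), (nat_lit 0x2081d66000), (nat_lit 0x2081cd4000)⟩,
    ⟨(nat_lit 0x509cb), (nat_lit 0x50915), (nat_lit 0x51191), (nat_lit 0x510db)⟩,
    ⟨(nat_lit 0), (nat_lit 0), (nat_lit 0), (nat_lit 0)⟩,
    ⟨(nat_lit 0x208167a000), (nat_lit 0x20815e8000), (nat_lit 0x2081ce4000), (nat_lit 0x2081c52000)⟩,
    ⟨(nat_lit 0x50939), (nat_lit 0x50883), (nat_lit 0x510ff), (nat_lit 0x51049)⟩,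
    ⟨(nat_lit 0x20a2bd8000), (nat_lit 0x20a2af0000), (nat_lit 0x20a3606000), (nat_lit 0x20a351e000)⟩,
    (nat_lit 0x50883), (nat_lit 0x51191)⟩) (.lf ⟨⟨(nat_lit 0x20a2c94000), (nat_lit 0x20a2bac000), (nat_lit 0x20a36c2000), (nat_lit 0x20a35da000)⟩,
    ⟨(nat_lit 0x15078), (nat_lit 0x1503c), (nat_lit 0x15330), (nat_lit 0x152f4)⟩,
    ⟨(nat_lit 0x20816fc000), (nat_lit 0x208166a000), (nat_lit 0x2081d66000), (nat_lit 0x2081cd4000)⟩,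
    ⟨(nat_lit 0x20a2bd8000), (nat_lit 0x20a2af0000), (nat_lit 0x20a3606000), (nat_lit 0x20a351e000)⟩,
    ⟨(nat_lit 0x150a4), (nat_lit 0x15068), (nat_lit 0x1535c), (nat_lit 0x15320)⟩,
    ⟨(nat_lit 0), (nat_lit 0), (nat_lit 0), (nat_lit 0)⟩,
    (nat_lit 0x1503c), (nat_lit 0x1535c)⟩))) (.nd (.nd (.lf ⟨⟨(nat_lit 0x204c59f000), (nat_lit 0x204c56d000), (nat_lit 0x204c7d3000), (nat_lit 0x204c7a1000)⟩,
    ⟨(nat_lit 0x1f125), (nat_lit 0x1f0fb), (nat_lit 0x1f305), (nat_lit 0x1f2db)⟩,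
    ⟨(nat_lit 0), (nat_lit 0), (nat_lit 0), (nat_lit 0)⟩,
    ⟨(nat_lit 0x204c563000), (nat_lit 0x204c531000), (nat_lit 0x204c797000), (nat_lit 0x204c765000)⟩,
    ⟨(nat_lit 0x1f0fb), (nat_lit 0x1f0d1), (nat_lit 0x1f2db), (nat_lit 0x1f2b1)⟩,
    ⟨(nat_lit 0x206699e000), (nat_lit 0x2066942000), (nat_lit 0x2066d9a000), (nat_lit 0x2066d3e000)⟩,
    (nat_lit 0x1f0d1), (nat_lit 0x1f305)⟩) (.lf ⟨⟨(nat_lit 0x20669f8000), (nat_lit 0x206699c000), (nat_lit 0x2066df4000), (nat_lit 0x2066d98000)⟩,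
    ⟨(nat_lit 0x2115e), (nat_lit 0x21122), (nat_lit 0x213de), (nat_lit 0x213a2)⟩,
    ⟨(nat_lit 0x204c59f000), (nat_lit 0x204c56d000), (nat_lit 0x204c7d3000), (nat_lit 0x204c7a1000)⟩,
    ⟨(nat_lit 0x206699e000), (nat_lit 0x2066942000), (nat_lit 0x2066d9a000), (nat_lit 0x2066d3e000)⟩,
    ⟨(nat_lit 0x21192), (nat_lit 0x21156), (nat_lit 0x21412), (nat_lit 0x213d6)⟩,
    ⟨(nat_lit 0), (nat_lit 0), (nat_lit 0), (nat_lit 0)⟩,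
    (nat_lit 0x21122), (nat_lit 0x21412)⟩)) (.nd (.lf ⟨⟨(nat_lit 0x2000000000), (nat_lit 0x2000000000), (nat_lit 0x2000000000), (nat_lit 0x2000000000)⟩,
    ⟨(nat_lit 0x100000), (nat_lit 0x100000), (nat_lit 0x100000), (nat_lit 0x100000)⟩,
    ⟨(nat_lit 0), (nat_lit 0), (nat_lit 0), (nat_lit 0)⟩,
    ⟨(nat_lit 0x2000000000), (nat_lit 0x2000000000), (nat_lit 0x2000000000), (nat_lit 0x2000000000)⟩,
    ⟨(nat_lit 0x100000), (nat_lit 0x100000), (nat_lit 0x100000), (nat_lit 0x100000)⟩,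
    ⟨(nat_lit 0x20a2bd8000), (nat_lit 0x20a2af0000), (nat_lit 0x20a3606000), (nat_lit 0x20a351e000)⟩,
    (nat_lit 0x100000), (nat_lit 0x100000)⟩) (.lf ⟨⟨(nat_lit 0x20a2c94000), (nat_lit 0x20a2bac000), (nat_lit 0x20a36c2000), (nat_lit 0x20a35da000)⟩,
    ⟨(nat_lit 0x9fad4), (nat_lit 0x9f90e), (nat_lit 0xa0f7a), (nat_lit 0xa0db4)⟩,
    ⟨(nat_lit 0x2000000000), (nat_lit 0x2000000000), (nat_lit 0x2000000000), (nat_lit 0x2000000000)⟩,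
    ⟨(nat_lit 0x20a2bd8000), (nat_lit 0x20a2af0000), (nat_lit 0x20a3606000), (nat_lit 0x20a351e000)⟩,
    ⟨(nat_lit 0x9fc18), (nat_lit 0x9fa52), (nat_lit 0xa10be), (nat_lit 0xa0ef8)⟩,
    ⟨(nat_lit 0), (nat_lit 0), (nat_lit 0), (nat_lit 0)⟩,
    (nat_lit 0x9f90e), (nat_lit 0xa10be)⟩)))
  nx := .nd (.nd (.lf (nat_lit 66)) (.lf (nat_lit 55))) (.nd (.lf (nat_lit 116)) (.lf (nat_lit 99)))
  mir := (nat_lit 98)

noncomputable def cx100 : CtxD where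
  sd := .nd (.nd (.nd (.lf ⟨⟨(nat_lit 0x2000000000), (nat_lit 0x2000000000), (nat_lit 0x2000000000), (nat_lit 0x2000000000)⟩,
    ⟨(nat_lit 0x21b72), (nat_lit 0x21b72), (nat_lit 0x21b72), (nat_lit 0x21b72)⟩,
    ⟨(nat_lit 0), (nat_lit 0), (nat_lit 0), (nat_lit 0)⟩,
    ⟨(nat_lit 0x2000000000), (nat_lit 0x2000000000), (nat_lit 0x2000000000), (nat_lit 0x2000000000)⟩,
    ⟨(nat_lit 0x21b70), (nat_lit 0x21b70), (nat_lit 0x21b70), (nat_lit 0x21b70)⟩,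
    ⟨(nat_lit 0x2035584000), (nat_lit 0x203557e000), (nat_lit 0x20355bc000), (nat_lit 0x20355b6000)⟩,
    (nat_lit 0x21b70), (nat_lit 0x21b72)⟩) (.lf ⟨⟨(nat_lit 0x203559a000), (nat_lit 0x2035594000), (nat_lit 0x20355d2000), (nat_lit 0x20355cc000)⟩,
    ⟨(nat_lit 0x80b43), (nat_lit 0x80b25), (nat_lit 0x80c57), (nat_lit 0x80c39)⟩,
    ⟨(nat_lit 0x2000000000), (nat_lit 0x2000000000), (nat_lit 0x2000000000), (nat_lit 0x2000000000)⟩,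
    ⟨(nat_lit 0x2035584000), (nat_lit 0x203557e000), (nat_lit 0x20355bc000), (nat_lit 0x20355b6000)⟩,
    ⟨(nat_lit 0x80b9b), (nat_lit 0x80b7d), (nat_lit 0x80caf), (nat_lit 0x80c91)⟩,
    ⟨(nat_lit 0), (nat_lit 0), (nat_lit 0), (nat_lit 0)⟩,
    (nat_lit 0x80b25), (nat_lit 0x80caf)⟩)) (.nd (.lf ⟨⟨(nat_lit 0x20bf454000), (nat_lit 0x20bf406000), (nat_lit 0x20bf696000), (nat_lit 0x20bf648000)⟩,
    ⟨(nat_lit 0x83cb5), (nat_lit 0x83c49), (nat_lit 0x83f59), (nat_lit 0x83eed)⟩,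
    ⟨(nat_lit 0), (nat_lit 0), (nat_lit 0), (nat_lit 0)⟩,
    ⟨(nat_lit 0x20bf3d8000), (nat_lit 0x20bf38a000), (nat_lit 0x20bf61a000), (nat_lit 0x20bf5cc000)⟩,
    ⟨(nat_lit 0x83c0f), (nat_lit 0x83ba3), (nat_lit 0x83eb3), (nat_lit 0x83e47)⟩,
    ⟨(nat_lit 0x2103041000), (nat_lit 0x2102fb1000), (nat_lit 0x2103427000), (nat_lit 0x2103397000)⟩,
    (nat_lit 0x83ba3), (nat_lit 0x83f59)⟩) (.lf ⟨⟨(nat_lit 0x210310f000), (nat_lit 0x210307f000), (nat_lit 0x21034f5000), (nat_lit 0x2103465000)⟩,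
    ⟨(nat_lit 0x354bd), (nat_lit 0x35483), (nat_lit 0x35641), (nat_lit 0x35607)⟩,
    ⟨(nat_lit 0x20bf454000), (nat_lit 0x20bf406000), (nat_lit 0x20bf696000), (nat_lit 0x20bf648000)⟩,
    ⟨(nat_lit 0x2103041000), (nat_lit 0x2102fb1000), (nat_lit 0x2103427000), (nat_lit 0x2103397000)⟩,
    ⟨(nat_lit 0x35513), (nat_lit 0x354d9), (nat_lit 0x35697), (nat_lit 0x3565d)⟩,
    ⟨(nat_lit 0), (nat_lit 0), (nat_lit 0), (nat_lit 0)⟩,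
    (nat_lit 0x35483), (nat_lit 0x35697)⟩))) (.nd (.nd (.lf ⟨⟨(nat_lit 0x2060258000), (nat_lit 0x2060244000), (nat_lit 0x20602f0000), (nat_lit 0x20602dc000)⟩,
    ⟨(nat_lit 0x34bd3), (nat_lit 0x34bbd), (nat_lit 0x34c81), (nat_lit 0x34c6b)⟩,
    ⟨(nat_lit 0), (nat_lit 0), (nat_lit 0), (nat_lit 0)⟩,
    ⟨(nat_lit 0x206022a000), (nat_lit 0x2060216000), (nat_lit 0x20602c2000), (nat_lit 0x20602ae000)⟩,
    ⟨(nat_lit 0x34ba5), (nat_lit 0x34b8f), (nat_lit 0x34c53), (nat_lit 0x34c3d)⟩,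
    ⟨(nat_lit 0x2089f5a000), (nat_lit 0x2089f32000), (nat_lit 0x208a08a000), (nat_lit 0x208a062000)⟩,
    (nat_lit 0x34b8f), (nat_lit 0x34c81)⟩) (.lf ⟨⟨(nat_lit 0x2089fa6000), (nat_lit 0x2089f7e000), (nat_lit 0x208a0d6000), (nat_lit 0x208a0ae000)⟩,
    ⟨(nat_lit 0x316d5), (nat_lit 0x316b7), (nat_lit 0x31795), (nat_lit 0x31777)⟩,
    ⟨(nat_lit 0x2060258000), (nat_lit 0x2060244000), (nat_lit 0x20602f0000), (nat_lit 0x20602dc000)⟩,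
    ⟨(nat_lit 0x2089f5a000), (nat_lit 0x2089f32000), (nat_lit 0x208a08a000), (nat_lit 0x208a062000)⟩,
    ⟨(nat_lit 0x31709), (nat_lit 0x316eb), (nat_lit 0x317c9), (nat_lit 0x317ab)⟩,
    ⟨(nat_lit 0), (nat_lit 0), (nat_lit 0), (nat_lit 0)⟩,
    (nat_lit 0x316b7), (nat_lit 0x317c9)⟩)) (.nd (.lf ⟨⟨(nat_lit 0x2000000000), (nat_lit 0x2000000000), (nat_lit 0x2000000000), (nat_lit 0x2000000000)⟩,
    ⟨(nat_lit 0x100000), (nat_lit 0x100000), (nat_lit 0x100000), (nat_lit 0x100000)⟩,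
    ⟨(nat_lit 0), (nat_lit 0), (nat_lit 0), (nat_lit 0)⟩,
    ⟨(nat_lit 0x2000000000), (nat_lit 0x2000000000), (nat_lit 0x2000000000), (nat_lit 0x2000000000)⟩,
    ⟨(nat_lit 0x100000), (nat_lit 0x100000), (nat_lit 0x100000), (nat_lit 0x100000)⟩,
    ⟨(nat_lit 0x2103041000), (nat_lit 0x2102fb1000), (nat_lit 0x2103427000), (nat_lit 0x2103397000)⟩,
    (nat_lit 0x100000), (nat_lit 0x100000)⟩) (.lf ⟨⟨(nat_lit 0x210310f000), (nat_lit 0x210307f000), (nat_lit 0x21034f5000), (nat_lit 0x2103465000)⟩,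
    ⟨(nat_lit 0x194aef), (nat_lit 0x19492f), (nat_lit 0x195675), (nat_lit 0x1954b5)⟩,
    ⟨(nat_lit 0x2000000000), (nat_lit 0x2000000000), (nat_lit 0x2000000000), (nat_lit 0x2000000000)⟩,
    ⟨(nat_lit 0x2103041000), (nat_lit 0x2102fb1000), (nat_lit 0x2103427000), (nat_lit 0x2103397000)⟩,
    ⟨(nat_lit 0x194d71), (nat_lit 0x194bb1), (nat_lit 0x1958f7), (nat_lit 0x195737)⟩,
    ⟨(nat_lit 0), (nat_lit 0), (nat_lit 0), (nat_lit 0)⟩,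
    (nat_lit 0x19492f), (nat_lit 0x1958f7)⟩)))
  nx := .nd (.nd (.lf (nat_lit 54)) (.lf (nat_lit 67))) (.nd (.lf (nat_lit 117)) (.lf (nat_lit 100)))
  mir := (nat_lit 101)

noncomputable def cx101 : CtxD where
  sd := .nd (.nd (.nd (.lf ⟨⟨(nat_lit 0x2000000000), (nat_lit 0x2000000000), (nat_lit 0x2000000000), (nat_lit 0x2000000000)⟩,
    ⟨(nat_lit 0x21b72), (nat_lit 0x21b72), (nat_lit 0x21b72), (nat_lit 0x21b72)⟩,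
    ⟨(nat_lit 0), (nat_lit 0), (nat_lit 0), (nat_lit 0)⟩,
    ⟨(nat_lit 0x2000000000), (nat_lit 0x2000000000), (nat_lit 0x2000000000), (nat_lit 0x2000000000)⟩,
    ⟨(nat_lit 0x21b70), (nat_lit 0x21b70), (nat_lit 0x21b70), (nat_lit 0x21b70)⟩,
    ⟨(nat_lit 0x202adc1000), (nat_lit 0x202adbb000), (nat_lit 0x202adef000), (nat_lit 0x202ade9000)⟩,
    (nat_lit 0x21b70), (nat_lit 0x21b72)⟩) (.lf ⟨⟨(nat_lit 0x202add9000), (nat_lit 0x202add3000), (nat_lit 0x202ae07000), (nat_lit 0x202ae01000)⟩,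
    ⟨(nat_lit 0x534be), (nat_lit 0x534a6), (nat_lit 0x53572), (nat_lit 0x5355a)⟩,
    ⟨(nat_lit 0x2000000000), (nat_lit 0x2000000000), (nat_lit 0x2000000000), (nat_lit 0x2000000000)⟩,
    ⟨(nat_lit 0x202adc1000), (nat_lit 0x202adbb000), (nat_lit 0x202adef000), (nat_lit 0x202ade9000)⟩,
    ⟨(nat_lit 0x53506), (nat_lit 0x534ee), (nat_lit 0x535ba), (nat_lit 0x535a2)⟩,
    ⟨(nat_lit 0), (nat_lit 0), (nat_lit 0), (nat_lit 0)⟩,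
    (nat_lit 0x534a6), (nat_lit 0x535ba)⟩)) (.nd (.lf ⟨⟨(nat_lit 0x2082093000), (nat_lit 0x2082059000), (nat_lit 0x20821f3000), (nat_lit 0x20821b9000)⟩,
    ⟨(nat_lit 0x51568), (nat_lit 0x51520), (nat_lit 0x5170a), (nat_lit 0x516c2)⟩,
    ⟨(nat_lit 0), (nat_lit 0), (nat_lit 0), (nat_lit 0)⟩,
    ⟨(nat_lit 0x208202d000), (nat_lit 0x2081ff3000), (nat_lit 0x208218d000), (nat_lit 0x2082153000)⟩,
    ⟨(nat_lit 0x514f4), (nat_lit 0x514ac), (nat_lit 0x51696), (nat_lit 0x5164e)⟩,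
    ⟨(nat_lit 0x20a3b3f000), (nat_lit 0x20a3ae5000), (nat_lit 0x20a3d71000), (nat_lit 0x20a3d17000)⟩,
    (nat_lit 0x514ac), (nat_lit 0x5170a)⟩) (.lf ⟨⟨(nat_lit 0x20a3bd1000), (nat_lit 0x20a3b77000), (nat_lit 0x20a3e03000), (nat_lit 0x20a3da9000)⟩,
    ⟨(nat_lit 0x15498), (nat_lit 0x15480), (nat_lit 0x15534), (nat_lit 0x1551c)⟩,
    ⟨(nat_lit 0x2082093000), (nat_lit 0x2082059000), (nat_lit 0x20821f3000), (nat_lit 0x20821b9000)⟩,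
    ⟨(nat_lit 0x20a3b3f000), (nat_lit 0x20a3ae5000), (nat_lit 0x20a3d71000), (nat_lit 0x20a3d17000)⟩,
    ⟨(nat_lit 0x154bc), (nat_lit 0x154a4), (nat_lit 0x15558), (nat_lit 0x15540)⟩,
    ⟨(nat_lit 0), (nat_lit 0), (nat_lit 0), (nat_lit 0)⟩,
    (nat_lit 0x15480), (nat_lit 0x15558)⟩))) (.nd (.nd (.lf ⟨⟨(nat_lit 0x204c8e7000), (nat_lit 0x204c8d3000), (nat_lit 0x204c95d000), (nat_lit 0x204c949000)⟩,
    ⟨(nat_lit 0x1f3f5), (nat_lit 0x1f3e5), (nat_lit 0x1f45f), (nat_lit 0x1f44f)⟩,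
    ⟨(nat_lit 0), (nat_lit 0), (nat_lit 0), (nat_lit 0)⟩,
    ⟨(nat_lit 0x204c8b7000), (nat_lit 0x204c8a3000), (nat_lit 0x204c92d000), (nat_lit 0x204c919000)⟩,
    ⟨(nat_lit 0x1f3d3), (nat_lit 0x1f3c3), (nat_lit 0x1f43d), (nat_lit 0x1f42d)⟩,
    ⟨(nat_lit 0x2066fa1000), (nat_lit 0x2066f7d000), (nat_lit 0x2067079000), (nat_lit 0x2067055000)⟩,
    (nat_lit 0x1f3c3), (nat_lit 0x1f45f)⟩) (.lf ⟨⟨(nat_lit 0x2066fe9000), (nat_lit 0x2066fc5000), (nat_lit 0x20670c1000), (nat_lit 0x206709d000)⟩,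
    ⟨(nat_lit 0x21520), (nat_lit 0x21508), (nat_lit 0x215a4), (nat_lit 0x2158c)⟩,
    ⟨(nat_lit 0x204c8e7000), (nat_lit 0x204c8d3000), (nat_lit 0x204c95d000), (nat_lit 0x204c949000)⟩,
    ⟨(nat_lit 0x2066fa1000), (nat_lit 0x2066f7d000), (nat_lit 0x2067079000), (nat_lit 0x2067055000)⟩,
    ⟨(nat_lit 0x2154c), (nat_lit 0x21534), (nat_lit 0x215d0), (nat_lit 0x215b8)⟩,
    ⟨(nat_lit 0), (nat_lit 0), (nat_lit 0), (nat_lit 0)⟩,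
    (nat_lit 0x21508), (nat_lit 0x215d0)⟩)) (.nd (.lf ⟨⟨(nat_lit 0x2000000000), (nat_lit 0x2000000000), (nat_lit 0x2000000000), (nat_lit 0x2000000000)⟩,
    ⟨(nat_lit 0x100000), (nat_lit 0x100000), (nat_lit 0x100000), (nat_lit 0x100000)⟩,
    ⟨(nat_lit 0), (nat_lit 0), (nat_lit 0), (nat_lit 0)⟩,
    ⟨(nat_lit 0x2000000000), (nat_lit 0x2000000000), (nat_lit 0x2000000000), (nat_lit 0x2000000000)⟩,
    ⟨(nat_lit 0x100000), (nat_lit 0x100000), (nat_lit 0x100000), (nat_lit 0x100000)⟩,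
    ⟨(nat_lit 0x20a3b3f000), (nat_lit 0x20a3ae5000), (nat_lit 0x20a3d71000), (nat_lit 0x20a3d17000)⟩,
    (nat_lit 0x100000), (nat_lit 0x100000)⟩) (.lf ⟨⟨(nat_lit 0x20a3bd1000), (nat_lit 0x20a3b77000), (nat_lit 0x20a3e03000), (nat_lit 0x20a3da9000)⟩,
    ⟨(nat_lit 0xa1a32), (nat_lit 0xa1980), (nat_lit 0xa1ecc), (nat_lit 0xa1e1a)⟩,
    ⟨(nat_lit 0x2000000000), (nat_lit 0x2000000000), (nat_lit 0x2000000000), (nat_lit 0x2000000000)⟩,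
    ⟨(nat_lit 0x20a3b3f000), (nat_lit 0x20a3ae5000), (nat_lit 0x20a3d71000), (nat_lit 0x20a3d17000)⟩,
    ⟨(nat_lit 0xa1b32), (nat_lit 0xa1a80), (nat_lit 0xa1fcc), (nat_lit 0xa1f1a)⟩,
    ⟨(nat_lit 0), (nat_lit 0), (nat_lit 0), (nat_lit 0)⟩,
    (nat_lit 0xa1980), (nat_lit 0xa1fcc)⟩)))
  nx := .nd (.nd (.lf (nat_lit 66)) (.lf (nat_lit 55))) (.nd (.lf (nat_lit 116)) (.lf (nat_lit 101)))
  mir := (nat_lit 100)

noncomputable def cx102 : CtxD where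
  sd := .nd (.nd (.nd (.lf ⟨⟨(nat_lit 0x2000000000), (nat_lit 0x2000000000), (nat_lit 0x2000000000), (nat_lit 0x2000000000)⟩,
    ⟨(nat_lit 0x21b72), (nat_lit 0x21b72), (nat_lit 0x21b72), (nat_lit 0x21b72)⟩,
    ⟨(nat_lit 0), (nat_lit 0), (nat_lit 0), (nat_lit 0)⟩,
    ⟨(nat_lit 0x2000000000), (nat_lit 0x2000000000), (nat_lit 0x2000000000), (nat_lit 0x2000000000)⟩,
    ⟨(nat_lit 0x21b70), (nat_lit 0x21b70), (nat_lit 0x21b70), (nat_lit 0x21b70)⟩,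
    ⟨(nat_lit 0x20354ff000), (nat_lit 0x20354ed000), (nat_lit 0x2035547000), (nat_lit 0x2035535000)⟩,
    (nat_lit 0x21b70), (nat_lit 0x21b72)⟩) (.lf ⟨⟨(nat_lit 0x2035517000), (nat_lit 0x2035505000), (nat_lit 0x203555f000), (nat_lit 0x203554d000)⟩,
    ⟨(nat_lit 0x808c1), (nat_lit 0x8086b), (nat_lit 0x80a23), (nat_lit 0x809cd)⟩,
    ⟨(nat_lit 0x2000000000), (nat_lit 0x2000000000), (nat_lit 0x2000000000), (nat_lit 0x2000000000)⟩,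
    ⟨(nat_lit 0x20354ff000), (nat_lit 0x20354ed000), (nat_lit 0x2035547000), (nat_lit 0x2035535000)⟩,
    ⟨(nat_lit 0x80919), (nat_lit 0x808c3), (nat_lit 0x80a7b), (nat_lit 0x80a25)⟩,
    ⟨(nat_lit 0), (nat_lit 0), (nat_lit 0), (nat_lit 0)⟩,
    (nat_lit 0x8086b), (nat_lit 0x80a7b)⟩)) (.nd (.lf ⟨⟨(nat_lit 0x20beebf000), (nat_lit 0x20beddd000), (nat_lit 0x20bf1dd000), (nat_lit 0x20bf0fb000)⟩,
    ⟨(nat_lit 0x835d8), (nat_lit 0x834a0), (nat_lit 0x839b0), (nat_lit 0x83878)⟩,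
    ⟨(nat_lit 0), (nat_lit 0), (nat_lit 0), (nat_lit 0)⟩,
    ⟨(nat_lit 0x20bee3d000), (nat_lit 0x20bed5b000), (nat_lit 0x20bf15b000), (nat_lit 0x20bf079000)⟩,
    ⟨(nat_lit 0x83534), (nat_lit 0x833fc), (nat_lit 0x8390c), (nat_lit 0x837d4)⟩,
    ⟨(nat_lit 0x210266b000), (nat_lit 0x21024cb000), (nat_lit 0x2102be7000), (nat_lit 0x2102a47000)⟩,
    (nat_lit 0x833fc), (nat_lit 0x839b0)⟩) (.lf ⟨⟨(nat_lit 0x210273d000), (nat_lit 0x210259d000), (nat_lit 0x2102cb9000), (nat_lit 0x2102b19000)⟩,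
    ⟨(nat_lit 0x350db), (nat_lit 0x35031), (nat_lit 0x35307), (nat_lit 0x3525d)⟩,
    ⟨(nat_lit 0x20beebf000), (nat_lit 0x20beddd000), (nat_lit 0x20bf1dd000), (nat_lit 0x20bf0fb000)⟩,
    ⟨(nat_lit 0x210266b000), (nat_lit 0x21024cb000), (nat_lit 0x2102be7000), (nat_lit 0x2102a47000)⟩,
    ⟨(nat_lit 0x35131), (nat_lit 0x35087), (nat_lit 0x3535d), (nat_lit 0x352b3)⟩,
    ⟨(nat_lit 0), (nat_lit 0), (nat_lit 0), (nat_lit 0)⟩,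
    (nat_lit 0x35031), (nat_lit 0x3535d)⟩))) (.nd (.nd (.lf ⟨⟨(nat_lit 0x20600e3000), (nat_lit 0x20600a9000), (nat_lit 0x20601b3000), (nat_lit 0x2060179000)⟩,
    ⟨(nat_lit 0x34a2d), (nat_lit 0x349ef), (nat_lit 0x34b17), (nat_lit 0x34ad9)⟩,
    ⟨(nat_lit 0), (nat_lit 0), (nat_lit 0), (nat_lit 0)⟩,
    ⟨(nat_lit 0x20600b3000), (nat_lit 0x2060079000), (nat_lit 0x2060183000), (nat_lit 0x2060149000)⟩,
    ⟨(nat_lit 0x349fd), (nat_lit 0x349bf), (nat_lit 0x34ae7), (nat_lit 0x34aa9)⟩,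
    ⟨(nat_lit 0x2089c6a000), (nat_lit 0x2089bf4000), (nat_lit 0x2089e0c000), (nat_lit 0x2089d96000)⟩,
    (nat_lit 0x349bf), (nat_lit 0x34b17)⟩) (.lf ⟨⟨(nat_lit 0x2089cb8000), (nat_lit 0x2089c42000), (nat_lit 0x2089e5a000), (nat_lit 0x2089de4000)⟩,
    ⟨(nat_lit 0x314e7), (nat_lit 0x31493), (nat_lit 0x315fb), (nat_lit 0x315a7)⟩,
    ⟨(nat_lit 0x20600e3000), (nat_lit 0x20600a9000), (nat_lit 0x20601b3000), (nat_lit 0x2060179000)⟩,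
    ⟨(nat_lit 0x2089c6a000), (nat_lit 0x2089bf4000), (nat_lit 0x2089e0c000), (nat_lit 0x2089d96000)⟩,
    ⟨(nat_lit 0x31519), (nat_lit 0x314c5), (nat_lit 0x3162d), (nat_lit 0x315d9)⟩,
    ⟨(nat_lit 0), (nat_lit 0), (nat_lit 0), (nat_lit 0)⟩,
    (nat_lit 0x31493), (nat_lit 0x3162d)⟩)) (.nd (.lf ⟨⟨(nat_lit 0x2000000000), (nat_lit 0x2000000000), (nat_lit 0x2000000000), (nat_lit 0x2000000000)⟩,
    ⟨(nat_lit 0x100000), (nat_lit 0x100000), (nat_lit 0x100000), (nat_lit 0x100000)⟩,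
    ⟨(nat_lit 0), (nat_lit 0), (nat_lit 0), (nat_lit 0)⟩,
    ⟨(nat_lit 0x2000000000), (nat_lit 0x2000000000), (nat_lit 0x2000000000), (nat_lit 0x2000000000)⟩,
    ⟨(nat_lit 0x100000), (nat_lit 0x100000), (nat_lit 0x100000), (nat_lit 0x100000)⟩,
    ⟨(nat_lit 0x210266b000), (nat_lit 0x21024cb000), (nat_lit 0x2102be7000), (nat_lit 0x2102a47000)⟩,
    (nat_lit 0x100000), (nat_lit 0x100000)⟩) (.lf ⟨⟨(nat_lit 0x210273d000), (nat_lit 0x210259d000), (nat_lit 0x2102cb9000), (nat_lit 0x2102b19000)⟩,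
    ⟨(nat_lit 0x192d77), (nat_lit 0x192865), (nat_lit 0x193def), (nat_lit 0x1938dd)⟩,
    ⟨(nat_lit 0x2000000000), (nat_lit 0x2000000000), (nat_lit 0x2000000000), (nat_lit 0x2000000000)⟩,
    ⟨(nat_lit 0x210266b000), (nat_lit 0x21024cb000), (nat_lit 0x2102be7000), (nat_lit 0x2102a47000)⟩,
    ⟨(nat_lit 0x192ff7), (nat_lit 0x192ae5), (nat_lit 0x19406f), (nat_lit 0x193b5d)⟩,
    ⟨(nat_lit 0), (nat_lit 0), (nat_lit 0), (nat_lit 0)⟩,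
    (nat_lit 0x192865), (nat_lit 0x19406f)⟩)))
  nx := .nd (.nd (.lf (nat_lit 54)) (.lf (nat_lit 67))) (.nd (.lf (nat_lit 117)) (.lf (nat_lit 102)))
  mir := (nat_lit 103)

noncomputable def cx103 : CtxD where
  sd := .nd (.nd (.nd (.lf ⟨⟨(nat_lit 0x2000000000), (nat_lit 0x2000000000), (nat_lit 0x2000000000), (nat_lit 0x2000000000)⟩,
    ⟨(nat_lit 0x21b72), (nat_lit 0x21b72), (nat_lit 0x21b72), (nat_lit 0x21b72)⟩,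
    ⟨(nat_lit 0), (nat_lit 0), (nat_lit 0), (nat_lit 0)⟩,
    ⟨(nat_lit 0x2000000000), (nat_lit 0x2000000000), (nat_lit 0x2000000000), (nat_lit 0x2000000000)⟩,
    ⟨(nat_lit 0x21b70), (nat_lit 0x21b70), (nat_lit 0x21b70), (nat_lit 0x21b70)⟩,
    ⟨(nat_lit 0x202ae2d000), (nat_lit 0x202ae1b000), (nat_lit 0x202ae6d000), (nat_lit 0x202ae5b000)⟩,
    (nat_lit 0x21b70), (nat_lit 0x21b72)⟩) (.lf ⟨⟨(nat_lit 0x202ae47000), (nat_lit 0x202ae35000), (nat_lit 0x202ae87000), (nat_lit 0x202ae75000)⟩,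
    ⟨(nat_lit 0x53665), (nat_lit 0x5361f), (nat_lit 0x5375d), (nat_lit 0x53717)⟩,
    ⟨(nat_lit 0x2000000000), (nat_lit 0x2000000000), (nat_lit 0x2000000000), (nat_lit 0x2000000000)⟩,
    ⟨(nat_lit 0x202ae2d000), (nat_lit 0x202ae1b000), (nat_lit 0x202ae6d000), (nat_lit 0x202ae5b000)⟩,
    ⟨(nat_lit 0x536ad), (nat_lit 0x53667), (nat_lit 0x537a5), (nat_lit 0x5375f)⟩,
    ⟨(nat_lit 0), (nat_lit 0), (nat_lit 0), (nat_lit 0)⟩,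
    (nat_lit 0x5361f), (nat_lit 0x537a5)⟩)) (.nd (.lf ⟨⟨(nat_lit 0x20823f6000), (nat_lit 0x2082350000), (nat_lit 0x20825fa000), (nat_lit 0x2082554000)⟩,
    ⟨(nat_lit 0x5197a), (nat_lit 0x518aa), (nat_lit 0x51bee), (nat_lit 0x51b1e)⟩,
    ⟨(nat_lit 0), (nat_lit 0), (nat_lit 0), (nat_lit 0)⟩,
    ⟨(nat_lit 0x208238c000), (nat_lit 0x20822e6000), (nat_lit 0x2082590000), (nat_lit 0x20824ea000)⟩,
    ⟨(nat_lit 0x51906), (nat_lit 0x51836), (nat_lit 0x51b7a), (nat_lit 0x51aaa)⟩,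
    ⟨(nat_lit 0x20a40a2000), (nat_lit 0x20a3f9a000), (nat_lit 0x20a43da000), (nat_lit 0x20a42d2000)⟩,
    (nat_lit 0x51836), (nat_lit 0x51bee)⟩) (.lf ⟨⟨(nat_lit 0x20a4138000), (nat_lit 0x20a4030000), (nat_lit 0x20a4470000), (nat_lit 0x20a4368000)⟩,
    ⟨(nat_lit 0x15610), (nat_lit 0x155cc), (nat_lit 0x156f0), (nat_lit 0x156ac)⟩,
    ⟨(nat_lit 0x20823f6000), (nat_lit 0x2082350000), (nat_lit 0x20825fa000), (nat_lit 0x2082554000)⟩,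
    ⟨(nat_lit 0x20a40a2000), (nat_lit 0x20a3f9a000), (nat_lit 0x20a43da000), (nat_lit 0x20a42d2000)⟩,
    ⟨(nat_lit 0x15634), (nat_lit 0x155f0), (nat_lit 0x15714), (nat_lit 0x156d0)⟩,
    ⟨(nat_lit 0), (nat_lit 0), (nat_lit 0), (nat_lit 0)⟩,
    (nat_lit 0x155cc), (nat_lit 0x15714)⟩))) (.nd (.nd (.lf ⟨⟨(nat_lit 0x204ca0d000), (nat_lit 0x204c9d3000), (nat_lit 0x204cabd000), (nat_lit 0x204ca83000)⟩,
    ⟨(nat_lit 0x1f4f6), (nat_lit 0x1f4c6), (nat_lit 0x1f58e), (nat_lit 0x1f55e)⟩,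
    ⟨(nat_lit 0), (nat_lit 0), (nat_lit 0), (nat_lit 0)⟩,
    ⟨(nat_lit 0x204c9db000), (nat_lit 0x204c9a1000), (nat_lit 0x204ca8b000), (nat_lit 0x204ca51000)⟩,
    ⟨(nat_lit 0x1f4d4), (nat_lit 0x1f4a4), (nat_lit 0x1f56c), (nat_lit 0x1f53c)⟩,
    ⟨(nat_lit 0x20671b4000), (nat_lit 0x206714c000), (nat_lit 0x20672f4000), (nat_lit 0x206728c000)⟩,
    (nat_lit 0x1f4a4), (nat_lit 0x1f58e)⟩) (.lf ⟨⟨(nat_lit 0x2067200000), (nat_lit 0x2067198000), (nat_lit 0x2067340000), (nat_lit 0x20672d8000)⟩,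
    ⟨(nat_lit 0x2166d), (nat_lit 0x21629), (nat_lit 0x21735), (nat_lit 0x216f1)⟩,
    ⟨(nat_lit 0x204ca0d000), (nat_lit 0x204c9d3000), (nat_lit 0x204cabd000), (nat_lit 0x204ca83000)⟩,
    ⟨(nat_lit 0x20671b4000), (nat_lit 0x206714c000), (nat_lit 0x20672f4000), (nat_lit 0x206728c000)⟩,
    ⟨(nat_lit 0x21699), (nat_lit 0x21655), (nat_lit 0x21761), (nat_lit 0x2171d)⟩,
    ⟨(nat_lit 0), (nat_lit 0), (nat_lit 0), (nat_lit 0)⟩,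
    (nat_lit 0x21629), (nat_lit 0x21761)⟩)) (.nd (.lf ⟨⟨(nat_lit 0x2000000000), (nat_lit 0x2000000000), (nat_lit 0x2000000000), (nat_lit 0x2000000000)⟩,
    ⟨(nat_lit 0x100000), (nat_lit 0x100000), (nat_lit 0x100000), (nat_lit 0x100000)⟩,
    ⟨(nat_lit 0), (nat_lit 0), (nat_lit 0), (nat_lit 0)⟩,
    ⟨(nat_lit 0x2000000000), (nat_lit 0x2000000000), (nat_lit 0x2000000000), (nat_lit 0x2000000000)⟩,
    ⟨(nat_lit 0x100000), (nat_lit 0x100000), (nat_lit 0x100000), (nat_lit 0x100000)⟩,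
    ⟨(nat_lit 0x20a40a2000), (nat_lit 0x20a3f9a000), (nat_lit 0x20a43da000), (nat_lit 0x20a42d2000)⟩,
    (nat_lit 0x100000), (nat_lit 0x100000)⟩) (.lf ⟨⟨(nat_lit 0x20a4138000), (nat_lit 0x20a4030000), (nat_lit 0x20a4470000), (nat_lit 0x20a4368000)⟩,
    ⟨(nat_lit 0xa255a), (nat_lit 0xa234e), (nat_lit 0xa2bfc), (nat_lit 0xa29f0)⟩,
    ⟨(nat_lit 0x2000000000), (nat_lit 0x2000000000), (nat_lit 0x2000000000), (nat_lit 0x2000000000)⟩,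
    ⟨(nat_lit 0x20a40a2000), (nat_lit 0x20a3f9a000), (nat_lit 0x20a43da000), (nat_lit 0x20a42d2000)⟩,
    ⟨(nat_lit 0xa265c), (nat_lit 0xa2450), (nat_lit 0xa2cfe), (nat_lit 0xa2af2)⟩,
    ⟨(nat_lit 0), (nat_lit 0), (nat_lit 0), (nat_lit 0)⟩,
    (nat_lit 0xa234e), (nat_lit 0xa2cfe)⟩)))
  nx := .nd (.nd (.lf (nat_lit 66)) (.lf (nat_lit 55))) (.nd (.lf (nat_lit 116)) (.lf (nat_lit 103)))
  mir := (nat_lit 102)

noncomputable def cx104 : CtxD where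
  sd := .nd (.nd (.nd (.lf ⟨⟨(nat_lit 0x2000000000), (nat_lit 0x2000000000), (nat_lit 0x2000000000), (nat_lit 0x2000000000)⟩,
    ⟨(nat_lit 0x21b72), (nat_lit 0x21b72), (nat_lit 0x21b72), (nat_lit 0x21b72)⟩,
    ⟨(nat_lit 0), (nat_lit 0), (nat_lit 0), (nat_lit 0)⟩,
    ⟨(nat_lit 0x2000000000), (nat_lit 0x2000000000), (nat_lit 0x2000000000), (nat_lit 0x2000000000)⟩,
    ⟨(nat_lit 0x21b70), (nat_lit 0x21b70), (nat_lit 0x21b70), (nat_lit 0x21b70)⟩,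
    ⟨(nat_lit 0x2031c88000), (nat_lit 0x2031c64000), (nat_lit 0x2031c08000), (nat_lit 0x2031be4000)⟩,
    (nat_lit 0x21b70), (nat_lit 0x21b72)⟩) (.lf ⟨⟨(nat_lit 0x2031caa000), (nat_lit 0x2031c86000), (nat_lit 0x2031c2a000), (nat_lit 0x2031c06000)⟩,
    ⟨(nat_lit 0x6f343), (nat_lit 0x6f2a3), (nat_lit 0x6f107), (nat_lit 0x6f067)⟩,
    ⟨(nat_lit 0x2000000000), (nat_lit 0x2000000000), (nat_lit 0x2000000000), (nat_lit 0x2000000000)⟩,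
    ⟨(nat_lit 0x2031c88000), (nat_lit 0x2031c64000), (nat_lit 0x2031c08000), (nat_lit 0x2031be4000)⟩,
    ⟨(nat_lit 0x6f3b3), (nat_lit 0x6f313), (nat_lit 0x6f177), (nat_lit 0x6f0d7)⟩,
    ⟨(nat_lit 0), (nat_lit 0), (nat_lit 0), (nat_lit 0)⟩,
    (nat_lit 0x6f067), (nat_lit 0x6f3b3)⟩)) (.nd (.lf ⟨⟨(nat_lit 0x20a3806000), (nat_lit 0x20a3688000), (nat_lit 0x20a2ee2000), (nat_lit 0x20a2d64000)⟩,
    ⟨(nat_lit 0x69daa), (nat_lit 0x69bbc), (nat_lit 0x68f66), (nat_lit 0x68d78)⟩,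
    ⟨(nat_lit 0), (nat_lit 0), (nat_lit 0), (nat_lit 0)⟩,
    ⟨(nat_lit 0x20a374e000), (nat_lit 0x20a35d0000), (nat_lit 0x20a2e2a000), (nat_lit 0x20a2cac000)⟩,
    ⟨(nat_lit 0x69cd6), (nat_lit 0x69ae8), (nat_lit 0x68e92), (nat_lit 0x68ca4)⟩,
    ⟨(nat_lit 0x20d487c000), (nat_lit 0x20d45f6000), (nat_lit 0x20d380c000), (nat_lit 0x20d3586000)⟩,
    (nat_lit 0x68ca4), (nat_lit 0x69daa)⟩) (.lf ⟨⟨(nat_lit 0x20d499a000), (nat_lit 0x20d4714000), (nat_lit 0x20d392a000), (nat_lit 0x20d36a4000)⟩,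
    ⟨(nat_lit 0x2261f), (nat_lit 0x2254f), (nat_lit 0x22083), (nat_lit 0x21fb3)⟩,
    ⟨(nat_lit 0x20a3806000), (nat_lit 0x20a3688000), (nat_lit 0x20a2ee2000), (nat_lit 0x20a2d64000)⟩,
    ⟨(nat_lit 0x20d487c000), (nat_lit 0x20d45f6000), (nat_lit 0x20d380c000), (nat_lit 0x20d3586000)⟩,
    ⟨(nat_lit 0x22679), (nat_lit 0x225a9), (nat_lit 0x220dd), (nat_lit 0x2200d)⟩,
    ⟨(nat_lit 0), (nat_lit 0), (nat_lit 0), (nat_lit 0)⟩,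
    (nat_lit 0x21fb3), (nat_lit 0x22679)⟩))) (.nd (.nd (.lf ⟨⟨(nat_lit 0x2058b50000), (nat_lit 0x2058ae0000), (nat_lit 0x20588ce000), (nat_lit 0x205885e000)⟩,
    ⟨(nat_lit 0x2b737), (nat_lit 0x2b6c9), (nat_lit 0x2b4e9), (nat_lit 0x2b47b)⟩,
    ⟨(nat_lit 0), (nat_lit 0), (nat_lit 0), (nat_lit 0)⟩,
    ⟨(nat_lit 0x2058b06000), (nat_lit 0x2058a96000), (nat_lit 0x2058884000), (nat_lit 0x2058814000)⟩,
    ⟨(nat_lit 0x2b6fd), (nat_lit 0x2b68f), (nat_lit 0x2b4af), (nat_lit 0x2b441)⟩,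
    ⟨(nat_lit 0x207b958000), (nat_lit 0x207b87c000), (nat_lit 0x207b436000), (nat_lit 0x207b35a000)⟩,
    (nat_lit 0x2b441), (nat_lit 0x2b737)⟩) (.lf ⟨⟨(nat_lit 0x207b9d0000), (nat_lit 0x207b8f4000), (nat_lit 0x207b4ae000), (nat_lit 0x207b3d2000)⟩,
    ⟨(nat_lit 0x29ece), (nat_lit 0x29e3a), (nat_lit 0x29ab8), (nat_lit 0x29a24)⟩,
    ⟨(nat_lit 0x2058b50000), (nat_lit 0x2058ae0000), (nat_lit 0x20588ce000), (nat_lit 0x205885e000)⟩,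
    ⟨(nat_lit 0x207b958000), (nat_lit 0x207b87c000), (nat_lit 0x207b436000), (nat_lit 0x207b35a000)⟩,
    ⟨(nat_lit 0x29f12), (nat_lit 0x29e7e), (nat_lit 0x29afc), (nat_lit 0x29a68)⟩,
    ⟨(nat_lit 0), (nat_lit 0), (nat_lit 0), (nat_lit 0)⟩,
    (nat_lit 0x29a24), (nat_lit 0x29f12)⟩)) (.nd (.lf ⟨⟨(nat_lit 0x2000000000), (nat_lit 0x2000000000), (nat_lit 0x2000000000), (nat_lit 0x2000000000)⟩,
    ⟨(nat_lit 0x100000), (nat_lit 0x100000), (nat_lit 0x100000), (nat_lit 0x100000)⟩,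
    ⟨(nat_lit 0), (nat_lit 0), (nat_lit 0), (nat_lit 0)⟩,
    ⟨(nat_lit 0x2000000000), (nat_lit 0x2000000000), (nat_lit 0x2000000000), (nat_lit 0x2000000000)⟩,
    ⟨(nat_lit 0x100000), (nat_lit 0x100000), (nat_lit 0x100000), (nat_lit 0x100000)⟩,
    ⟨(nat_lit 0x20d487c000), (nat_lit 0x20d45f6000), (nat_lit 0x20d380c000), (nat_lit 0x20d3586000)⟩,
    (nat_lit 0x100000), (nat_lit 0x100000)⟩) (.lf ⟨⟨(nat_lit 0x20d499a000), (nat_lit 0x20d4714000), (nat_lit 0x20d392a000), (nat_lit 0x20d36a4000)⟩,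
    ⟨(nat_lit 0x105129), (nat_lit 0x104afb), (nat_lit 0x10268d), (nat_lit 0x10205f)⟩,
    ⟨(nat_lit 0x2000000000), (nat_lit 0x2000000000), (nat_lit 0x2000000000), (nat_lit 0x2000000000)⟩,
    ⟨(nat_lit 0x20d487c000), (nat_lit 0x20d45f6000), (nat_lit 0x20d380c000), (nat_lit 0x20d3586000)⟩,
    ⟨(nat_lit 0x1053bb), (nat_lit 0x104d8d), (nat_lit 0x10291f), (nat_lit 0x1022f1)⟩,
    ⟨(nat_lit 0), (nat_lit 0), (nat_lit 0), (nat_lit 0)⟩,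
    (nat_lit 0x10205f), (nat_lit 0x1053bb)⟩)))
  nx := .nd (.nd (.lf (nat_lit 56)) (.lf (nat_lit 65))) (.nd (.lf (nat_lit 119)) (.lf (nat_lit 104)))
  mir := (nat_lit 105)

noncomputable def cx105 : CtxD where
  sd := .nd (.nd (.nd (.lf ⟨⟨(nat_lit 0x2000000000), (nat_lit 0x2000000000), (nat_lit 0x2000000000), (nat_lit 0x2000000000)⟩,
    ⟨(nat_lit 0x21b72), (nat_lit 0x21b72), (nat_lit 0x21b72), (nat_lit 0x21b72)⟩,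
    ⟨(nat_lit 0), (nat_lit 0), (nat_lit 0), (nat_lit 0)⟩,
    ⟨(nat_lit 0x2000000000), (nat_lit 0x2000000000), (nat_lit 0x2000000000), (nat_lit 0x2000000000)⟩,
    ⟨(nat_lit 0x21b70), (nat_lit 0x21b70), (nat_lit 0x21b70), (nat_lit 0x21b70)⟩,
    ⟨(nat_lit 0x20302a7000), (nat_lit 0x2030285000), (nat_lit 0x20301f1000), (nat_lit 0x20301cf000)⟩,
    (nat_lit 0x21b70), (nat_lit 0x21b72)⟩) (.lf ⟨⟨(nat_lit 0x20302cb000), (nat_lit 0x20302a9000), (nat_lit 0x2030215000), (nat_lit 0x20301f3000)⟩,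
    ⟨(nat_lit 0x67f2a), (nat_lit 0x67e98), (nat_lit 0x67c30), (nat_lit 0x67b9e)⟩,
    ⟨(nat_lit 0x2000000000), (nat_lit 0x2000000000), (nat_lit 0x2000000000), (nat_lit 0x2000000000)⟩,
    ⟨(nat_lit 0x20302a7000), (nat_lit 0x2030285000), (nat_lit 0x20301f1000), (nat_lit 0x20301cf000)⟩,
    ⟨(nat_lit 0x67f98), (nat_lit 0x67f06), (nat_lit 0x67c9e), (nat_lit 0x67c0c)⟩,
    ⟨(nat_lit 0), (nat_lit 0), (nat_lit 0), (nat_lit 0)⟩,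
    (nat_lit 0x67b9e), (nat_lit 0x67f98)⟩)) (.nd (.lf ⟨⟨(nat_lit 0x20a0564000), (nat_lit 0x20a03f0000), (nat_lit 0x209fada000), (nat_lit 0x209f966000)⟩,
    ⟨(nat_lit 0x6e289), (nat_lit 0x6e08b), (nat_lit 0x6d2c1), (nat_lit 0x6d0c3)⟩,
    ⟨(nat_lit 0), (nat_lit 0), (nat_lit 0), (nat_lit 0)⟩,
    ⟨(nat_lit 0x20a04aa000), (nat_lit 0x20a0336000), (nat_lit 0x209fa20000), (nat_lit 0x209f8ac000)⟩,
    ⟨(nat_lit 0x6e1af), (nat_lit 0x6dfb1), (nat_lit 0x6d1e7), (nat_lit 0x6cfe9)⟩,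
    ⟨(nat_lit 0x20d19ed000), (nat_lit 0x20d1771000), (nat_lit 0x20d07d3000), (nat_lit 0x20d0557000)⟩,
    (nat_lit 0x6cfe9), (nat_lit 0x6e289)⟩) (.lf ⟨⟨(nat_lit 0x20d1b0b000), (nat_lit 0x20d188f000), (nat_lit 0x20d08f1000), (nat_lit 0x20d0675000)⟩,
    ⟨(nat_lit 0x216de), (nat_lit 0x21614), (nat_lit 0x21168), (nat_lit 0x2109e)⟩,
    ⟨(nat_lit 0x20a0564000), (nat_lit 0x20a03f0000), (nat_lit 0x209fada000), (nat_lit 0x209f966000)⟩,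
    ⟨(nat_lit 0x20d19ed000), (nat_lit 0x20d1771000), (nat_lit 0x20d07d3000), (nat_lit 0x20d0557000)⟩,
    ⟨(nat_lit 0x21732), (nat_lit 0x21668), (nat_lit 0x211bc), (nat_lit 0x210f2)⟩,
    ⟨(nat_lit 0), (nat_lit 0), (nat_lit 0), (nat_lit 0)⟩,
    (nat_lit 0x2109e), (nat_lit 0x21732)⟩))) (.nd (.nd (.lf ⟨⟨(nat_lit 0x2057724000), (nat_lit 0x20576b4000), (nat_lit 0x20573f6000), (nat_lit 0x2057386000)⟩,
    ⟨(nat_lit 0x294f3), (nat_lit 0x2948b), (nat_lit 0x29237), (nat_lit 0x291cf)⟩,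
    ⟨(nat_lit 0), (nat_lit 0), (nat_lit 0), (nat_lit 0)⟩,
    ⟨(nat_lit 0x20576d8000), (nat_lit 0x2057668000), (nat_lit 0x20573aa000), (nat_lit 0x205733a000)⟩,
    ⟨(nat_lit 0x294b9), (nat_lit 0x29451), (nat_lit 0x291fd), (nat_lit 0x29195)⟩,
    ⟨(nat_lit 0x2079d97000), (nat_lit 0x2079cbf000), (nat_lit 0x207975d000), (nat_lit 0x2079685000)⟩,
    (nat_lit 0x29195), (nat_lit 0x294f3)⟩) (.lf ⟨⟨(nat_lit 0x2079e11000), (nat_lit 0x2079d39000), (nat_lit 0x20797d7000), (nat_lit 0x20796ff000)⟩,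
    ⟨(nat_lit 0x2ae94), (nat_lit 0x2adfc), (nat_lit 0x2a9d6), (nat_lit 0x2a93e)⟩,
    ⟨(nat_lit 0x2057724000), (nat_lit 0x20576b4000), (nat_lit 0x20573f6000), (nat_lit 0x2057386000)⟩,
    ⟨(nat_lit 0x2079d97000), (nat_lit 0x2079cbf000), (nat_lit 0x207975d000), (nat_lit 0x2079685000)⟩,
    ⟨(nat_lit 0x2aeda), (nat_lit 0x2ae42), (nat_lit 0x2aa1c), (nat_lit 0x2a984)⟩,
    ⟨(nat_lit 0), (nat_lit 0), (nat_lit 0), (nat_lit 0)⟩,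
    (nat_lit 0x2a93e), (nat_lit 0x2aeda)⟩)) (.nd (.lf ⟨⟨(nat_lit 0x2000000000), (nat_lit 0x2000000000), (nat_lit 0x2000000000), (nat_lit 0x2000000000)⟩,
    ⟨(nat_lit 0x100000), (nat_lit 0x100000), (nat_lit 0x100000), (nat_lit 0x100000)⟩,
    ⟨(nat_lit 0), (nat_lit 0), (nat_lit 0), (nat_lit 0)⟩,
    ⟨(nat_lit 0x2000000000), (nat_lit 0x2000000000), (nat_lit 0x2000000000), (nat_lit 0x2000000000)⟩,
    ⟨(nat_lit 0x100000), (nat_lit 0x100000), (nat_lit 0x100000), (nat_lit 0x100000)⟩,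
    ⟨(nat_lit 0x20d19ed000), (nat_lit 0x20d1771000), (nat_lit 0x20d07d3000), (nat_lit 0x20d0557000)⟩,
    (nat_lit 0x100000), (nat_lit 0x100000)⟩) (.lf ⟨⟨(nat_lit 0x20d1b0b000), (nat_lit 0x20d188f000), (nat_lit 0x20d08f1000), (nat_lit 0x20d0675000)⟩,
    ⟨(nat_lit 0xfdd56), (nat_lit 0xfd754), (nat_lit 0xfb3e6), (nat_lit 0xfade4)⟩,
    ⟨(nat_lit 0x2000000000), (nat_lit 0x2000000000), (nat_lit 0x2000000000), (nat_lit 0x2000000000)⟩,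
    ⟨(nat_lit 0x20d19ed000), (nat_lit 0x20d1771000), (nat_lit 0x20d07d3000), (nat_lit 0x20d0557000)⟩,
    ⟨(nat_lit 0xfdfbc), (nat_lit 0xfd9ba), (nat_lit 0xfb64c), (nat_lit 0xfb04a)⟩,
    ⟨(nat_lit 0), (nat_lit 0), (nat_lit 0), (nat_lit 0)⟩,
    (nat_lit 0xfade4), (nat_lit 0xfdfbc)⟩)))
  nx := .nd (.nd (.lf (nat_lit 64)) (.lf (nat_lit 57))) (.nd (.lf (nat_lit 118)) (.lf (nat_lit 105)))
  mir := (nat_lit 104)

noncomputable def cx106 : CtxD where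
  sd := .nd (.nd (.nd (.lf ⟨⟨(nat_lit 0x2000000000), (nat_lit 0x2000000000), (nat_lit 0x2000000000), (nat_lit 0x2000000000)⟩,
    ⟨(nat_lit 0x21b72), (nat_lit 0x21b72), (nat_lit 0x21b72), (nat_lit 0x21b72)⟩,
    ⟨(nat_lit 0), (nat_lit 0), (nat_lit 0), (nat_lit 0)⟩,
    ⟨(nat_lit 0x2000000000), (nat_lit 0x2000000000), (nat_lit 0x2000000000), (nat_lit 0x2000000000)⟩,
    ⟨(nat_lit 0x21b70), (nat_lit 0x21b70), (nat_lit 0x21b70), (nat_lit 0x21b70)⟩,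
    ⟨(nat_lit 0x2031bf0000), (nat_lit 0x2031bde000), (nat_lit 0x2031c16000), (nat_lit 0x2031c04000)⟩,
    (nat_lit 0x21b70), (nat_lit 0x21b72)⟩) (.lf ⟨⟨(nat_lit 0x2031c0a000), (nat_lit 0x2031bf8000), (nat_lit 0x2031c30000), (nat_lit 0x2031c1e000)⟩,
    ⟨(nat_lit 0x6f096), (nat_lit 0x6f044), (nat_lit 0x6f144), (nat_lit 0x6f0f2)⟩,
    ⟨(nat_lit 0x2000000000), (nat_lit 0x2000000000), (nat_lit 0x2000000000), (nat_lit 0x2000000000)⟩,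
    ⟨(nat_lit 0x2031bf0000), (nat_lit 0x2031bde000), (nat_lit 0x2031c16000), (nat_lit 0x2031c04000)⟩,
    ⟨(nat_lit 0x6f0e8), (nat_lit 0x6f096), (nat_lit 0x6f196), (nat_lit 0x6f144)⟩,
    ⟨(nat_lit 0), (nat_lit 0), (nat_lit 0), (nat_lit 0)⟩,
    (nat_lit 0x6f044), (nat_lit 0x6f196)⟩)) (.nd (.lf ⟨⟨(nat_lit 0x20a2b12000), (nat_lit 0x20a2a4c000), (nat_lit 0x20a2b32000), (nat_lit 0x20a2a6c000)⟩,
    ⟨(nat_lit 0x688e5), (nat_lit 0x687e7), (nat_lit 0x68815), (nat_lit 0x68717)⟩,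
    ⟨(nat_lit 0), (nat_lit 0), (nat_lit 0), (nat_lit 0)⟩,
    ⟨(nat_lit 0x20a2aac000), (nat_lit 0x20a29e6000), (nat_lit 0x20a2acc000), (nat_lit 0x20a2a06000)⟩,
    ⟨(nat_lit 0x68873), (nat_lit 0x68775), (nat_lit 0x687a3), (nat_lit 0x686a5)⟩,
    ⟨(nat_lit 0x20d3181000), (nat_lit 0x20d3035000), (nat_lit 0x20d3151000), (nat_lit 0x20d3005000)⟩,
    (nat_lit 0x686a5), (nat_lit 0x688e5)⟩) (.lf ⟨⟨(nat_lit 0x20d3215000), (nat_lit 0x20d30c9000), (nat_lit 0x20d31e5000), (nat_lit 0x20d3099000)⟩,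
    ⟨(nat_lit 0x21e34), (nat_lit 0x21dca), (nat_lit 0x21e06), (nat_lit 0x21d9c)⟩,
    ⟨(nat_lit 0x20a2b12000), (nat_lit 0x20a2a4c000), (nat_lit 0x20a2b32000), (nat_lit 0x20a2a6c000)⟩,
    ⟨(nat_lit 0x20d3181000), (nat_lit 0x20d3035000), (nat_lit 0x20d3151000), (nat_lit 0x20d3005000)⟩,
    ⟨(nat_lit 0x21e62), (nat_lit 0x21df8), (nat_lit 0x21e34), (nat_lit 0x21dca)⟩,
    ⟨(nat_lit 0), (nat_lit 0), (nat_lit 0), (nat_lit 0)⟩,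
    (nat_lit 0x21d9c), (nat_lit 0x21e62)⟩))) (.nd (.nd (.lf ⟨⟨(nat_lit 0x20587ce000), (nat_lit 0x2058794000), (nat_lit 0x20587ea000), (nat_lit 0x20587b0000)⟩,
    ⟨(nat_lit 0x2b407), (nat_lit 0x2b3cf), (nat_lit 0x2b433), (nat_lit 0x2b3fb)⟩,
    ⟨(nat_lit 0), (nat_lit 0), (nat_lit 0), (nat_lit 0)⟩,
    ⟨(nat_lit 0x205879e000), (nat_lit 0x2058764000), (nat_lit 0x20587ba000), (nat_lit 0x2058780000)⟩,
    ⟨(nat_lit 0x2b3e1), (nat_lit 0x2b3a9), (nat_lit 0x2b40d), (nat_lit 0x2b3d5)⟩,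
    ⟨(nat_lit 0x207b248000), (nat_lit 0x207b1d8000), (nat_lit 0x207b264000), (nat_lit 0x207b1f4000)⟩,
    (nat_lit 0x2b3a9), (nat_lit 0x2b433)⟩) (.lf ⟨⟨(nat_lit 0x207b28e000), (nat_lit 0x207b21e000), (nat_lit 0x207b2aa000), (nat_lit 0x207b23a000)⟩,
    ⟨(nat_lit 0x29901), (nat_lit 0x298b5), (nat_lit 0x298d5), (nat_lit 0x29889)⟩,
    ⟨(nat_lit 0x20587ce000), (nat_lit 0x2058794000), (nat_lit 0x20587ea000), (nat_lit 0x20587b0000)⟩,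
    ⟨(nat_lit 0x207b248000), (nat_lit 0x207b1d8000), (nat_lit 0x207b264000), (nat_lit 0x207b1f4000)⟩,
    ⟨(nat_lit 0x29929), (nat_lit 0x298dd), (nat_lit 0x298fd), (nat_lit 0x298b1)⟩,
    ⟨(nat_lit 0), (nat_lit 0), (nat_lit 0), (nat_lit 0)⟩,
    (nat_lit 0x29889), (nat_lit 0x29929)⟩)) (.nd (.lf ⟨⟨(nat_lit 0x2000000000), (nat_lit 0x2000000000), (nat_lit 0x2000000000), (nat_lit 0x2000000000)⟩,
    ⟨(nat_lit 0x100000), (nat_lit 0x100000), (nat_lit 0x100000), (nat_lit 0x100000)⟩,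
    ⟨(nat_lit 0), (nat_lit 0), (nat_lit 0), (nat_lit 0)⟩,
    ⟨(nat_lit 0x2000000000), (nat_lit 0x2000000000), (nat_lit 0x2000000000), (nat_lit 0x2000000000)⟩,
    ⟨(nat_lit 0x100000), (nat_lit 0x100000), (nat_lit 0x100000), (nat_lit 0x100000)⟩,
    ⟨(nat_lit 0x20d3181000), (nat_lit 0x20d3035000), (nat_lit 0x20d3151000), (nat_lit 0x20d3005000)⟩,
    (nat_lit 0x100000), (nat_lit 0x100000)⟩) (.lf ⟨⟨(nat_lit 0x20d3215000), (nat_lit 0x20d30c9000), (nat_lit 0x20d31e5000), (nat_lit 0x20d3099000)⟩,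
    ⟨(nat_lit 0x101507), (nat_lit 0x1011dd), (nat_lit 0x1013ab), (nat_lit 0x101081)⟩,
    ⟨(nat_lit 0x2000000000), (nat_lit 0x2000000000), (nat_lit 0x2000000000), (nat_lit 0x2000000000)⟩,
    ⟨(nat_lit 0x20d3181000), (nat_lit 0x20d3035000), (nat_lit 0x20d3151000), (nat_lit 0x20d3005000)⟩,
    ⟨(nat_lit 0x101657), (nat_lit 0x10132d), (nat_lit 0x1014fb), (nat_lit 0x1011d1)⟩,
    ⟨(nat_lit 0), (nat_lit 0), (nat_lit 0), (nat_lit 0)⟩,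
    (nat_lit 0x101081), (nat_lit 0x101657)⟩)))
  nx := .nd (.nd (.lf (nat_lit 56)) (.lf (nat_lit 65))) (.nd (.lf (nat_lit 119)) (.lf (nat_lit 106)))
  mir := (nat_lit 107)

noncomputable def cx107 : CtxD where
  sd := .nd (.nd (.nd (.lf ⟨⟨(nat_lit 0x2000000000), (nat_lit 0x2000000000), (nat_lit 0x2000000000), (nat_lit 0x2000000000)⟩,
    ⟨(nat_lit 0x21b72), (nat_lit 0x21b72), (nat_lit 0x21b72), (nat_lit 0x21b72)⟩,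
    ⟨(nat_lit 0), (nat_lit 0), (nat_lit 0), (nat_lit 0)⟩,
    ⟨(nat_lit 0x2000000000), (nat_lit 0x2000000000), (nat_lit 0x2000000000), (nat_lit 0x2000000000)⟩,
    ⟨(nat_lit 0x21b70), (nat_lit 0x21b70), (nat_lit 0x21b70), (nat_lit 0x21b70)⟩,
    ⟨(nat_lit 0x20302ce000), (nat_lit 0x20302bc000), (nat_lit 0x20302dc000), (nat_lit 0x20302ca000)⟩,
    (nat_lit 0x21b70), (nat_lit 0x21b72)⟩) (.lf ⟨⟨(nat_lit 0x20302ea000), (nat_lit 0x20302d8000), (nat_lit 0x20302f8000), (nat_lit 0x20302e6000)⟩,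
    ⟨(nat_lit 0x67fbc), (nat_lit 0x67f70), (nat_lit 0x67ffe), (nat_lit 0x67fb2)⟩,
    ⟨(nat_lit 0x2000000000), (nat_lit 0x2000000000), (nat_lit 0x2000000000), (nat_lit 0x2000000000)⟩,
    ⟨(nat_lit 0x20302ce000), (nat_lit 0x20302bc000), (nat_lit 0x20302dc000), (nat_lit 0x20302ca000)⟩,
    ⟨(nat_lit 0x68010), (nat_lit 0x67fc4), (nat_lit 0x68052), (nat_lit 0x68006)⟩,
    ⟨(nat_lit 0), (nat_lit 0), (nat_lit 0), (nat_lit 0)⟩,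
    (nat_lit 0x67f70), (nat_lit 0x68052)⟩)) (.nd (.lf ⟨⟨(nat_lit 0x20a09b1000), (nat_lit 0x20a08ef000), (nat_lit 0x20a092d000), (nat_lit 0x20a086b000)⟩,
    ⟨(nat_lit 0x6e9ee), (nat_lit 0x6e8e4), (nat_lit 0x6e8ac), (nat_lit 0x6e7a2)⟩,
    ⟨(nat_lit 0), (nat_lit 0), (nat_lit 0), (nat_lit 0)⟩,
    ⟨(nat_lit 0x20a0945000), (nat_lit 0x20a0883000), (nat_lit 0x20a08c1000), (nat_lit 0x20a07ff000)⟩,
    ⟨(nat_lit 0x6e972), (nat_lit 0x6e868), (nat_lit 0x6e830), (nat_lit 0x6e726)⟩,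
    ⟨(nat_lit 0x20d21ea000), (nat_lit 0x20d20a0000), (nat_lit 0x20d20fc000), (nat_lit 0x20d1fb2000)⟩,
    (nat_lit 0x6e726), (nat_lit 0x6e9ee)⟩) (.lf ⟨⟨(nat_lit 0x20d2288000), (nat_lit 0x20d213e000), (nat_lit 0x20d219a000), (nat_lit 0x20d2050000)⟩,
    ⟨(nat_lit 0x2191a), (nat_lit 0x218b0), (nat_lit 0x218ec), (nat_lit 0x21882)⟩,
    ⟨(nat_lit 0x20a09b1000), (nat_lit 0x20a08ef000), (nat_lit 0x20a092d000), (nat_lit 0x20a086b000)⟩,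
    ⟨(nat_lit 0x20d21ea000), (nat_lit 0x20d20a0000), (nat_lit 0x20d20fc000), (nat_lit 0x20d1fb2000)⟩,
    ⟨(nat_lit 0x21948), (nat_lit 0x218de), (nat_lit 0x2191a), (nat_lit 0x218b0)⟩,
    ⟨(nat_lit 0), (nat_lit 0), (nat_lit 0), (nat_lit 0)⟩,
    (nat_lit 0x21882), (nat_lit 0x21948)⟩))) (.nd (.nd (.lf ⟨⟨(nat_lit 0x2057875000), (nat_lit 0x205783b000), (nat_lit 0x205784b000), (nat_lit 0x2057811000)⟩,
    ⟨(nat_lit 0x295eb), (nat_lit 0x295b5), (nat_lit 0x295dd), (nat_lit 0x295a7)⟩,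
    ⟨(nat_lit 0), (nat_lit 0), (nat_lit 0), (nat_lit 0)⟩,
    ⟨(nat_lit 0x2057841000), (nat_lit 0x2057807000), (nat_lit 0x2057817000), (nat_lit 0x20577dd000)⟩,
    ⟨(nat_lit 0x295c5), (nat_lit 0x2958f), (nat_lit 0x295b7), (nat_lit 0x29581)⟩,
    ⟨(nat_lit 0x207a064000), (nat_lit 0x2079ff4000), (nat_lit 0x207a00a000), (nat_lit 0x2079f9a000)⟩,
    (nat_lit 0x29581), (nat_lit 0x295eb)⟩) (.lf ⟨⟨(nat_lit 0x207a0b0000), (nat_lit 0x207a040000), (nat_lit 0x207a056000), (nat_lit 0x2079fe6000)⟩,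
    ⟨(nat_lit 0x2b0ee), (nat_lit 0x2b0a0), (nat_lit 0x2b088), (nat_lit 0x2b03a)⟩,
    ⟨(nat_lit 0x2057875000), (nat_lit 0x205783b000), (nat_lit 0x205784b000), (nat_lit 0x2057811000)⟩,
    ⟨(nat_lit 0x207a064000), (nat_lit 0x2079ff4000), (nat_lit 0x207a00a000), (nat_lit 0x2079f9a000)⟩,
    ⟨(nat_lit 0x2b11a), (nat_lit 0x2b0cc), (nat_lit 0x2b0b4), (nat_lit 0x2b066)⟩,
    ⟨(nat_lit 0), (nat_lit 0), (nat_lit 0), (nat_lit 0)⟩,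
    (nat_lit 0x2b03a), (nat_lit 0x2b11a)⟩)) (.nd (.lf ⟨⟨(nat_lit 0x2000000000), (nat_lit 0x2000000000), (nat_lit 0x2000000000), (nat_lit 0x2000000000)⟩,
    ⟨(nat_lit 0x100000), (nat_lit 0x100000), (nat_lit 0x100000), (nat_lit 0x100000)⟩,
    ⟨(nat_lit 0), (nat_lit 0), (nat_lit 0), (nat_lit 0)⟩,
    ⟨(nat_lit 0x2000000000), (nat_lit 0x2000000000), (nat_lit 0x2000000000), (nat_lit 0x2000000000)⟩,
    ⟨(nat_lit 0x100000), (nat_lit 0x100000), (nat_lit 0x100000), (nat_lit 0x100000)⟩,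
    ⟨(nat_lit 0x20d21ea000), (nat_lit 0x20d20a0000), (nat_lit 0x20d20fc000), (nat_lit 0x20d1fb2000)⟩,
    (nat_lit 0x100000), (nat_lit 0x100000)⟩) (.lf ⟨⟨(nat_lit 0x20d2288000), (nat_lit 0x20d213e000), (nat_lit 0x20d219a000), (nat_lit 0x20d2050000)⟩,
    ⟨(nat_lit 0xfee43), (nat_lit 0xfeb21), (nat_lit 0xfece9), (nat_lit 0xfe9c7)⟩,
    ⟨(nat_lit 0x2000000000), (nat_lit 0x2000000000), (nat_lit 0x2000000000), (nat_lit 0x2000000000)⟩,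
    ⟨(nat_lit 0x20d21ea000), (nat_lit 0x20d20a0000), (nat_lit 0x20d20fc000), (nat_lit 0x20d1fb2000)⟩,
    ⟨(nat_lit 0xfef8f), (nat_lit 0xfec6d), (nat_lit 0xfee35), (nat_lit 0xfeb13)⟩,
    ⟨(nat_lit 0), (nat_lit 0), (nat_lit 0), (nat_lit 0)⟩,
    (nat_lit 0xfe9c7), (nat_lit 0xfef8f)⟩)))
  nx := .nd (.nd (.lf (nat_lit 64)) (.lf (nat_lit 57))) (.nd (.lf (nat_lit 118)) (.lf (nat_lit 107)))
  mir := (nat_lit 106)

noncomputable def cx108 : CtxD where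
  sd := .nd (.nd (.nd (.lf ⟨⟨(nat_lit 0x2000000000), (nat_lit 0x2000000000), (nat_lit 0x2000000000), (nat_lit 0x2000000000)⟩,
    ⟨(nat_lit 0x21b72), (nat_lit 0x21b72), (nat_lit 0x21b72), (nat_lit 0x21b72)⟩,
    ⟨(nat_lit 0), (nat_lit 0), (nat_lit 0), (nat_lit 0)⟩,
    ⟨(nat_lit 0x2000000000), (nat_lit 0x2000000000), (nat_lit 0x2000000000), (nat_lit 0x2000000000)⟩,
    ⟨(nat_lit 0x21b70), (nat_lit 0x21b70), (nat_lit 0x21b70), (nat_lit 0x21b70)⟩,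
    ⟨(nat_lit 0x2031c13000), (nat_lit 0x2031c01000), (nat_lit 0x2031bf7000), (nat_lit 0x2031be5000)⟩,
    (nat_lit 0x21b70), (nat_lit 0x21b72)⟩) (.lf ⟨⟨(nat_lit 0x2031c2d000), (nat_lit 0x2031c1b000), (nat_lit 0x2031c11000), (nat_lit 0x2031bff000)⟩,
    ⟨(nat_lit 0x6f136), (nat_lit 0x6f0e8), (nat_lit 0x6f0b8), (nat_lit 0x6f06a)⟩,
    ⟨(nat_lit 0x2000000000), (nat_lit 0x2000000000), (nat_lit 0x2000000000), (nat_lit 0x2000000000)⟩,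
    ⟨(nat_lit 0x2031c13000), (nat_lit 0x2031c01000), (nat_lit 0x2031bf7000), (nat_lit 0x2031be5000)⟩,
    ⟨(nat_lit 0x6f188), (nat_lit 0x6f13a), (nat_lit 0x6f10a), (nat_lit 0x6f0bc)⟩,
    ⟨(nat_lit 0), (nat_lit 0), (nat_lit 0), (nat_lit 0)⟩,
    (nat_lit 0x6f06a), (nat_lit 0x6f188)⟩)) (.nd (.lf ⟨⟨(nat_lit 0x20a29c9000), (nat_lit 0x20a290f000), (nat_lit 0x20a2733000), (nat_lit 0x20a2679000)⟩,
    ⟨(nat_lit 0x68571), (nat_lit 0x68483), (nat_lit 0x68137), (nat_lit 0x68049)⟩,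
    ⟨(nat_lit 0), (nat_lit 0), (nat_lit 0), (nat_lit 0)⟩,
    ⟨(nat_lit 0x20a2965000), (nat_lit 0x20a28ab000), (nat_lit 0x20a26cf000), (nat_lit 0x20a2615000)⟩,
    ⟨(nat_lit 0x68501), (nat_lit 0x68413), (nat_lit 0x680c7), (nat_lit 0x67fd9)⟩,
    ⟨(nat_lit 0x20d2e9e000), (nat_lit 0x20d2d66000), (nat_lit 0x20d29e6000), (nat_lit 0x20d28ae000)⟩,
    (nat_lit 0x67fd9), (nat_lit 0x68571)⟩) (.lf ⟨⟨(nat_lit 0x20d2f30000), (nat_lit 0x20d2df8000), (nat_lit 0x20d2a78000), (nat_lit 0x20d2940000)⟩,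
    ⟨(nat_lit 0x21d0f), (nat_lit 0x21cab), (nat_lit 0x21b6f), (nat_lit 0x21b0b)⟩,
    ⟨(nat_lit 0x20a29c9000), (nat_lit 0x20a290f000), (nat_lit 0x20a2733000), (nat_lit 0x20a2679000)⟩,
    ⟨(nat_lit 0x20d2e9e000), (nat_lit 0x20d2d66000), (nat_lit 0x20d29e6000), (nat_lit 0x20d28ae000)⟩,
    ⟨(nat_lit 0x21d3d), (nat_lit 0x21cd9), (nat_lit 0x21b9d), (nat_lit 0x21b39)⟩,
    ⟨(nat_lit 0), (nat_lit 0), (nat_lit 0), (nat_lit 0)⟩,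
    (nat_lit 0x21b0b), (nat_lit 0x21d3d)⟩))) (.nd (.nd (.lf ⟨⟨(nat_lit 0x205878f000), (nat_lit 0x2058759000), (nat_lit 0x20586dd000), (nat_lit 0x20586a7000)⟩,
    ⟨(nat_lit 0x2b3e7), (nat_lit 0x2b3b1), (nat_lit 0x2b347), (nat_lit 0x2b311)⟩,
    ⟨(nat_lit 0), (nat_lit 0), (nat_lit 0), (nat_lit 0)⟩,
    ⟨(nat_lit 0x2058761000), (nat_lit 0x205872b000), (nat_lit 0x20586af000), (nat_lit 0x2058679000)⟩,
    ⟨(nat_lit 0x2b3c3), (nat_lit 0x2b38d), (nat_lit 0x2b323), (nat_lit 0x2b2ed)⟩,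
    ⟨(nat_lit 0x207b1a0000), (nat_lit 0x207b136000), (nat_lit 0x207b02e000), (nat_lit 0x207afc4000)⟩,
    (nat_lit 0x2b2ed), (nat_lit 0x2b3e7)⟩) (.lf ⟨⟨(nat_lit 0x207b1e4000), (nat_lit 0x207b17a000), (nat_lit 0x207b072000), (nat_lit 0x207b008000)⟩,
    ⟨(nat_lit 0x2981c), (nat_lit 0x297d4), (nat_lit 0x296e8), (nat_lit 0x296a0)⟩,
    ⟨(nat_lit 0x205878f000), (nat_lit 0x2058759000), (nat_lit 0x20586dd000), (nat_lit 0x20586a7000)⟩,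
    ⟨(nat_lit 0x207b1a0000), (nat_lit 0x207b136000), (nat_lit 0x207b02e000), (nat_lit 0x207afc4000)⟩,
    ⟨(nat_lit 0x29842), (nat_lit 0x297fa), (nat_lit 0x2970e), (nat_lit 0x296c6)⟩,
    ⟨(nat_lit 0), (nat_lit 0), (nat_lit 0), (nat_lit 0)⟩,
    (nat_lit 0x296a0), (nat_lit 0x29842)⟩)) (.nd (.lf ⟨⟨(nat_lit 0x2000000000), (nat_lit 0x2000000000), (nat_lit 0x2000000000), (nat_lit 0x2000000000)⟩,
    ⟨(nat_lit 0x100000), (nat_lit 0x100000), (nat_lit 0x100000), (nat_lit 0x100000)⟩,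
    ⟨(nat_lit 0), (nat_lit 0), (nat_lit 0), (nat_lit 0)⟩,
    ⟨(nat_lit 0x2000000000), (nat_lit 0x2000000000), (nat_lit 0x2000000000), (nat_lit 0x2000000000)⟩,
    ⟨(nat_lit 0x100000), (nat_lit 0x100000), (nat_lit 0x100000), (nat_lit 0x100000)⟩,
    ⟨(nat_lit 0x20d2e9e000), (nat_lit 0x20d2d66000), (nat_lit 0x20d29e6000), (nat_lit 0x20d28ae000)⟩,
    (nat_lit 0x100000), (nat_lit 0x100000)⟩) (.lf ⟨⟨(nat_lit 0x20d2f30000), (nat_lit 0x20d2df8000), (nat_lit 0x20d2a78000), (nat_lit 0x20d2940000)⟩,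
    ⟨(nat_lit 0x100c52), (nat_lit 0x10095c), (nat_lit 0xffffe), (nat_lit 0xffd08)⟩,
    ⟨(nat_lit 0x2000000000), (nat_lit 0x2000000000), (nat_lit 0x2000000000), (nat_lit 0x2000000000)⟩,
    ⟨(nat_lit 0x20d2e9e000), (nat_lit 0x20d2d66000), (nat_lit 0x20d29e6000), (nat_lit 0x20d28ae000)⟩,
    ⟨(nat_lit 0x100d9c), (nat_lit 0x100aa6), (nat_lit 0x100148), (nat_lit 0xffe52)⟩,
    ⟨(nat_lit 0), (nat_lit 0), (nat_lit 0), (nat_lit 0)⟩,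
    (nat_lit 0xffd08), (nat_lit 0x100d9c)⟩)))
  nx := .nd (.nd (.lf (nat_lit 56)) (.lf (nat_lit 65))) (.nd (.lf (nat_lit 119)) (.lf (nat_lit 108)))
  mir := (nat_lit 109)

noncomputable def cx109 : CtxD where
  sd := .nd (.nd (.nd (.lf ⟨⟨(nat_lit 0x2000000000), (nat_lit 0x2000000000), (nat_lit 0x2000000000), (nat_lit 0x2000000000)⟩,
    ⟨(nat_lit 0x21b72), (nat_lit 0x21b72), (nat_lit 0x21b72), (nat_lit 0x21b72)⟩,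
    ⟨(nat_lit 0), (nat_lit 0), (nat_lit 0), (nat_lit 0)⟩,
    ⟨(nat_lit 0x2000000000), (nat_lit 0x2000000000), (nat_lit 0x2000000000), (nat_lit 0x2000000000)⟩,
    ⟨(nat_lit 0x21b70), (nat_lit 0x21b70), (nat_lit 0x21b70), (nat_lit 0x21b70)⟩,
    ⟨(nat_lit 0x2030313000), (nat_lit 0x2030303000), (nat_lit 0x20302e3000), (nat_lit 0x20302d3000)⟩,
    (nat_lit 0x21b70), (nat_lit 0x21b72)⟩) (.lf ⟨⟨(nat_lit 0x203032d000), (nat_lit 0x203031d000), (nat_lit 0x20302fd000), (nat_lit 0x20302ed000)⟩,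
    ⟨(nat_lit 0x680d9), (nat_lit 0x68093), (nat_lit 0x68011), (nat_lit 0x67fcb)⟩,
    ⟨(nat_lit 0x2000000000), (nat_lit 0x2000000000), (nat_lit 0x2000000000), (nat_lit 0x2000000000)⟩,
    ⟨(nat_lit 0x2030313000), (nat_lit 0x2030303000), (nat_lit 0x20302e3000), (nat_lit 0x20302d3000)⟩,
    ⟨(nat_lit 0x6812b), (nat_lit 0x680e5), (nat_lit 0x68063), (nat_lit 0x6801d)⟩,
    ⟨(nat_lit 0), (nat_lit 0), (nat_lit 0), (nat_lit 0)⟩,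
    (nat_lit 0x67fcb), (nat_lit 0x6812b)⟩)) (.nd (.lf ⟨⟨(nat_lit 0x20a0eaf000), (nat_lit 0x20a0df9000), (nat_lit 0x20a0b8f000), (nat_lit 0x20a0ad9000)⟩,
    ⟨(nat_lit 0x6f1d1), (nat_lit 0x6f0d7), (nat_lit 0x6ecfb), (nat_lit 0x6ec01)⟩,
    ⟨(nat_lit 0), (nat_lit 0), (nat_lit 0), (nat_lit 0)⟩,
    ⟨(nat_lit 0x20a0e45000), (nat_lit 0x20a0d8f000), (nat_lit 0x20a0b25000), (nat_lit 0x20a0a6f000)⟩,
    ⟨(nat_lit 0x6f155), (nat_lit 0x6f05b), (nat_lit 0x6ec7f), (nat_lit 0x6eb85)⟩,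
    ⟨(nat_lit 0x20d2a93000), (nat_lit 0x20d295b000), (nat_lit 0x20d252b000), (nat_lit 0x20d23f3000)⟩,
    (nat_lit 0x6eb85), (nat_lit 0x6f1d1)⟩) (.lf ⟨⟨(nat_lit 0x20d2b2d000), (nat_lit 0x20d29f5000), (nat_lit 0x20d25c5000), (nat_lit 0x20d248d000)⟩,
    ⟨(nat_lit 0x21ba8), (nat_lit 0x21b44), (nat_lit 0x21a0a), (nat_lit 0x219a6)⟩,
    ⟨(nat_lit 0x20a0eaf000), (nat_lit 0x20a0df9000), (nat_lit 0x20a0b8f000), (nat_lit 0x20a0ad9000)⟩,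
    ⟨(nat_lit 0x20d2a93000), (nat_lit 0x20d295b000), (nat_lit 0x20d252b000), (nat_lit 0x20d23f3000)⟩,
    ⟨(nat_lit 0x21bd6), (nat_lit 0x21b72), (nat_lit 0x21a38), (nat_lit 0x219d4)⟩,
    ⟨(nat_lit 0), (nat_lit 0), (nat_lit 0), (nat_lit 0)⟩,
    (nat_lit 0x219a6), (nat_lit 0x21bd6)⟩))) (.nd (.nd (.lf ⟨⟨(nat_lit 0x20579f5000), (nat_lit 0x20579bf000), (nat_lit 0x2057905000), (nat_lit 0x20578cf000)⟩,
    ⟨(nat_lit 0x29727), (nat_lit 0x296f3), (nat_lit 0x2965d), (nat_lit 0x29629)⟩,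
    ⟨(nat_lit 0), (nat_lit 0), (nat_lit 0), (nat_lit 0)⟩,
    ⟨(nat_lit 0x20579c3000), (nat_lit 0x205798d000), (nat_lit 0x20578d3000), (nat_lit 0x205789d000)⟩,
    ⟨(nat_lit 0x29701), (nat_lit 0x296cd), (nat_lit 0x29637), (nat_lit 0x29603)⟩,
    ⟨(nat_lit 0x207a35f000), (nat_lit 0x207a2f5000), (nat_lit 0x207a185000), (nat_lit 0x207a11b000)⟩,
    (nat_lit 0x29603), (nat_lit 0x29727)⟩) (.lf ⟨⟨(nat_lit 0x207a3a9000), (nat_lit 0x207a33f000), (nat_lit 0x207a1cf000), (nat_lit 0x207a165000)⟩,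
    ⟨(nat_lit 0x2b34f), (nat_lit 0x2b305), (nat_lit 0x2b1db), (nat_lit 0x2b191)⟩,
    ⟨(nat_lit 0x20579f5000), (nat_lit 0x20579bf000), (nat_lit 0x2057905000), (nat_lit 0x20578cf000)⟩,
    ⟨(nat_lit 0x207a35f000), (nat_lit 0x207a2f5000), (nat_lit 0x207a185000), (nat_lit 0x207a11b000)⟩,
    ⟨(nat_lit 0x2b379), (nat_lit 0x2b32f), (nat_lit 0x2b205), (nat_lit 0x2b1bb)⟩,
    ⟨(nat_lit 0), (nat_lit 0), (nat_lit 0), (nat_lit 0)⟩,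
    (nat_lit 0x2b191), (nat_lit 0x2b379)⟩)) (.nd (.lf ⟨⟨(nat_lit 0x2000000000), (nat_lit 0x2000000000), (nat_lit 0x2000000000), (nat_lit 0x2000000000)⟩,
    ⟨(nat_lit 0x100000), (nat_lit 0x100000), (nat_lit 0x100000), (nat_lit 0x100000)⟩,
    ⟨(nat_lit 0), (nat_lit 0), (nat_lit 0), (nat_lit 0)⟩,
    ⟨(nat_lit 0x2000000000), (nat_lit 0x2000000000), (nat_lit 0x2000000000), (nat_lit 0x2000000000)⟩,
    ⟨(nat_lit 0x100000), (nat_lit 0x100000), (nat_lit 0x100000), (nat_lit 0x100000)⟩,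
    ⟨(nat_lit 0x20d2a93000), (nat_lit 0x20d295b000), (nat_lit 0x20d252b000), (nat_lit 0x20d23f3000)⟩,
    (nat_lit 0x100000), (nat_lit 0x100000)⟩) (.lf ⟨⟨(nat_lit 0x20d2b2d000), (nat_lit 0x20d29f5000), (nat_lit 0x20d25c5000), (nat_lit 0x20d248d000)⟩,
    ⟨(nat_lit 0x1001ae), (nat_lit 0xffeba), (nat_lit 0xff562), (nat_lit 0xff26e)⟩,
    ⟨(nat_lit 0x2000000000), (nat_lit 0x2000000000), (nat_lit 0x2000000000), (nat_lit 0x2000000000)⟩,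
    ⟨(nat_lit 0x20d2a93000), (nat_lit 0x20d295b000), (nat_lit 0x20d252b000), (nat_lit 0x20d23f3000)⟩,
    ⟨(nat_lit 0x1002f4), (nat_lit 0x100000), (nat_lit 0xff6a8), (nat_lit 0xff3b4)⟩,
    ⟨(nat_lit 0), (nat_lit 0), (nat_lit 0), (nat_lit 0)⟩,
    (nat_lit 0xff26e), (nat_lit 0x1002f4)⟩)))
  nx := .nd (.nd (.lf (nat_lit 64)) (.lf (nat_lit 57))) (.nd (.lf (nat_lit 118)) (.lf (nat_lit 109)))
  mir := (nat_lit 108)

noncomputable def cx110 : CtxD where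
  sd := .nd (.nd (.nd (.lf ⟨⟨(nat_lit 0x2000000000), (nat_lit 0x2000000000), (nat_lit 0x2000000000), (nat_lit 0x2000000000)⟩,
    ⟨(nat_lit 0x21b72), (nat_lit 0x21b72), (nat_lit 0x21b72), (nat_lit 0x21b72)⟩,
    ⟨(nat_lit 0), (nat_lit 0), (nat_lit 0), (nat_lit 0)⟩,
    ⟨(nat_lit 0x2000000000), (nat_lit 0x2000000000), (nat_lit 0x2000000000), (nat_lit 0x2000000000)⟩,
    ⟨(nat_lit 0x21b70), (nat_lit 0x21b70), (nat_lit 0x21b70), (nat_lit 0x21b70)⟩,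
    ⟨(nat_lit 0x2031a70000), (nat_lit 0x2031a16000), (nat_lit 0x2031c04000), (nat_lit 0x2031baa000)⟩,
    (nat_lit 0x21b70), (nat_lit 0x21b72)⟩) (.lf ⟨⟨(nat_lit 0x2031ab0000), (nat_lit 0x2031a56000), (nat_lit 0x2031c44000), (nat_lit 0x2031bea000)⟩,
    ⟨(nat_lit 0x6ea05), (nat_lit 0x6e877), (nat_lit 0x6f10f), (nat_lit 0x6ef81)⟩,
    ⟨(nat_lit 0x2000000000), (nat_lit 0x2000000000), (nat_lit 0x2000000000), (nat_lit 0x2000000000)⟩,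
    ⟨(nat_lit 0x2031a70000), (nat_lit 0x2031a16000), (nat_lit 0x2031c04000), (nat_lit 0x2031baa000)⟩,
    ⟨(nat_lit 0x6eac7), (nat_lit 0x6e939), (nat_lit 0x6f1d1), (nat_lit 0x6f043)⟩,
    ⟨(nat_lit 0), (nat_lit 0), (nat_lit 0), (nat_lit 0)⟩,
    (nat_lit 0x6e877), (nat_lit 0x6f1d1)⟩)) (.nd (.lf ⟨⟨(nat_lit 0x20a35d7000), (nat_lit 0x20a3211000), (nat_lit 0x20a3cc5000), (nat_lit 0x20a38ff000)⟩,
    ⟨(nat_lit 0x6a76a), (nat_lit 0x6a280), (nat_lit 0x6a9cc), (nat_lit 0x6a4e2)⟩,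
    ⟨(nat_lit 0), (nat_lit 0), (nat_lit 0), (nat_lit 0)⟩,
    ⟨(nat_lit 0x20a3439000), (nat_lit 0x20a3073000), (nat_lit 0x20a3b27000), (nat_lit 0x20a3761000)⟩,
    ⟨(nat_lit 0x6a58a), (nat_lit 0x6a0a0), (nat_lit 0x6a7ec), (nat_lit 0x6a302)⟩,
    ⟨(nat_lit 0x20d486f000), (nat_lit 0x20d4209000), (nat_lit 0x20d517d000), (nat_lit 0x20d4b17000)⟩,
    (nat_lit 0x6a0a0), (nat_lit 0x6a9cc)⟩) (.lf ⟨⟨(nat_lit 0x20d4b05000), (nat_lit 0x20d449f000), (nat_lit 0x20d5413000), (nat_lit 0x20d4dad000)⟩,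
    ⟨(nat_lit 0x227ac), (nat_lit 0x22598), (nat_lit 0x229d0), (nat_lit 0x227bc)⟩,
    ⟨(nat_lit 0x20a35d7000), (nat_lit 0x20a3211000), (nat_lit 0x20a3cc5000), (nat_lit 0x20a38ff000)⟩,
    ⟨(nat_lit 0x20d486f000), (nat_lit 0x20d4209000), (nat_lit 0x20d517d000), (nat_lit 0x20d4b17000)⟩,
    ⟨(nat_lit 0x22876), (nat_lit 0x22662), (nat_lit 0x22a9a), (nat_lit 0x22886)⟩,
    ⟨(nat_lit 0), (nat_lit 0), (nat_lit 0), (nat_lit 0)⟩,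
    (nat_lit 0x22598), (nat_lit 0x22a9a)⟩))) (.nd (.nd (.lf ⟨⟨(nat_lit 0x20589b9000), (nat_lit 0x205889d000), (nat_lit 0x2058c43000), (nat_lit 0x2058b27000)⟩,
    ⟨(nat_lit 0x2b4e0), (nat_lit 0x2b3ca), (nat_lit 0x2b7c2), (nat_lit 0x2b6ac)⟩,
    ⟨(nat_lit 0), (nat_lit 0), (nat_lit 0), (nat_lit 0)⟩,
    ⟨(nat_lit 0x2058923000), (nat_lit 0x2058807000), (nat_lit 0x2058bad000), (nat_lit 0x2058a91000)⟩,
    ⟨(nat_lit 0x2b46c), (nat_lit 0x2b356), (nat_lit 0x2b74e), (nat_lit 0x2b638)⟩,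
    ⟨(nat_lit 0x207b711000), (nat_lit 0x207b4e9000), (nat_lit 0x207bb47000), (nat_lit 0x207b91f000)⟩,
    (nat_lit 0x2b356), (nat_lit 0x2b7c2)⟩) (.lf ⟨⟨(nat_lit 0x207b811000), (nat_lit 0x207b5e9000), (nat_lit 0x207bc47000), (nat_lit 0x207ba1f000)⟩,
    ⟨(nat_lit 0x2a06c), (nat_lit 0x29ef4), (nat_lit 0x2a1a6), (nat_lit 0x2a02e)⟩,
    ⟨(nat_lit 0x20589b9000), (nat_lit 0x205889d000), (nat_lit 0x2058c43000), (nat_lit 0x2058b27000)⟩,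
    ⟨(nat_lit 0x207b711000), (nat_lit 0x207b4e9000), (nat_lit 0x207bb47000), (nat_lit 0x207b91f000)⟩,
    ⟨(nat_lit 0x2a100), (nat_lit 0x29f88), (nat_lit 0x2a23a), (nat_lit 0x2a0c2)⟩,
    ⟨(nat_lit 0), (nat_lit 0), (nat_lit 0), (nat_lit 0)⟩,
    (nat_lit 0x29ef4), (nat_lit 0x2a23a)⟩)) (.nd (.lf ⟨⟨(nat_lit 0x2000000000), (nat_lit 0x2000000000), (nat_lit 0x2000000000), (nat_lit 0x2000000000)⟩,
    ⟨(nat_lit 0x100000), (nat_lit 0x100000), (nat_lit 0x100000), (nat_lit 0x100000)⟩,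
    ⟨(nat_lit 0), (nat_lit 0), (nat_lit 0), (nat_lit 0)⟩,
    ⟨(nat_lit 0x2000000000), (nat_lit 0x2000000000), (nat_lit 0x2000000000), (nat_lit 0x2000000000)⟩,
    ⟨(nat_lit 0x100000), (nat_lit 0x100000), (nat_lit 0x100000), (nat_lit 0x100000)⟩,
    ⟨(nat_lit 0x20d486f000), (nat_lit 0x20d4209000), (nat_lit 0x20d517d000), (nat_lit 0x20d4b17000)⟩,
    (nat_lit 0x100000), (nat_lit 0x100000)⟩) (.lf ⟨⟨(nat_lit 0x20d4b05000), (nat_lit 0x20d449f000), (nat_lit 0x20d5413000), (nat_lit 0x20d4dad000)⟩,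
    ⟨(nat_lit 0x105ce6), (nat_lit 0x104d20), (nat_lit 0x106d26), (nat_lit 0x105d60)⟩,
    ⟨(nat_lit 0x2000000000), (nat_lit 0x2000000000), (nat_lit 0x2000000000), (nat_lit 0x2000000000)⟩,
    ⟨(nat_lit 0x20d486f000), (nat_lit 0x20d4209000), (nat_lit 0x20d517d000), (nat_lit 0x20d4b17000)⟩,
    ⟨(nat_lit 0x1062d8), (nat_lit 0x105312), (nat_lit 0x107318), (nat_lit 0x106352)⟩,
    ⟨(nat_lit 0), (nat_lit 0), (nat_lit 0), (nat_lit 0)⟩,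
    (nat_lit 0x104d20), (nat_lit 0x107318)⟩)))
  nx := .nd (.nd (.lf (nat_lit 56)) (.lf (nat_lit 65))) (.nd (.lf (nat_lit 121)) (.lf (nat_lit 110)))
  mir := (nat_lit 111)

noncomputable def cx111 : CtxD where
  sd := .nd (.nd (.nd (.lf ⟨⟨(nat_lit 0x2000000000), (nat_lit 0x2000000000), (nat_lit 0x2000000000), (nat_lit 0x2000000000)⟩,
    ⟨(nat_lit 0x21b72), (nat_lit 0x21b72), (nat_lit 0x21b72), (nat_lit 0x21b72)⟩,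
    ⟨(nat_lit 0), (nat_lit 0), (nat_lit 0), (nat_lit 0)⟩,
    ⟨(nat_lit 0x2000000000), (nat_lit 0x2000000000), (nat_lit 0x2000000000), (nat_lit 0x2000000000)⟩,
    ⟨(nat_lit 0x21b70), (nat_lit 0x21b70), (nat_lit 0x21b70), (nat_lit 0x21b70)⟩,
    ⟨(nat_lit 0x20301f5000), (nat_lit 0x203019f000), (nat_lit 0x20302dd000), (nat_lit 0x2030287000)⟩,
    (nat_lit 0x21b70), (nat_lit 0x21b72)⟩) (.lf ⟨⟨(nat_lit 0x2030235000), (nat_lit 0x20301df000), (nat_lit 0x203031d000), (nat_lit 0x20302c7000)⟩,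
    ⟨(nat_lit 0x67c7f), (nat_lit 0x67b0b), (nat_lit 0x6809b), (nat_lit 0x67f27)⟩,
    ⟨(nat_lit 0x2000000000), (nat_lit 0x2000000000), (nat_lit 0x2000000000), (nat_lit 0x2000000000)⟩,
    ⟨(nat_lit 0x20301f5000), (nat_lit 0x203019f000), (nat_lit 0x20302dd000), (nat_lit 0x2030287000)⟩,
    ⟨(nat_lit 0x67d43), (nat_lit 0x67bcf), (nat_lit 0x6815f), (nat_lit 0x67feb)⟩,
    ⟨(nat_lit 0), (nat_lit 0), (nat_lit 0), (nat_lit 0)⟩,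
    (nat_lit 0x67b0b), (nat_lit 0x6815f)⟩)) (.nd (.lf ⟨⟨(nat_lit 0x209f576000), (nat_lit 0x209f1ca000), (nat_lit 0x209f808000), (nat_lit 0x209f45c000)⟩,
    ⟨(nat_lit 0x6c80a), (nat_lit 0x6c30c), (nat_lit 0x6c7e0), (nat_lit 0x6c2e2)⟩,
    ⟨(nat_lit 0), (nat_lit 0), (nat_lit 0), (nat_lit 0)⟩,
    ⟨(nat_lit 0x209f3d2000), (nat_lit 0x209f026000), (nat_lit 0x209f664000), (nat_lit 0x209f2b8000)⟩,
    ⟨(nat_lit 0x6c618), (nat_lit 0x6c11a), (nat_lit 0x6c5ee), (nat_lit 0x6c0f0)⟩,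
    ⟨(nat_lit 0x20cfcd5000), (nat_lit 0x20cf695000), (nat_lit 0x20d00df000), (nat_lit 0x20cfa9f000)⟩,
    (nat_lit 0x6c0f0), (nat_lit 0x6c80a)⟩) (.lf ⟨⟨(nat_lit 0x20cff73000), (nat_lit 0x20cf933000), (nat_lit 0x20d037d000), (nat_lit 0x20cfd3d000)⟩,
    ⟨(nat_lit 0x20eab), (nat_lit 0x20caf), (nat_lit 0x210b5), (nat_lit 0x20eb9)⟩,
    ⟨(nat_lit 0x209f576000), (nat_lit 0x209f1ca000), (nat_lit 0x209f808000), (nat_lit 0x209f45c000)⟩,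
    ⟨(nat_lit 0x20cfcd5000), (nat_lit 0x20cf695000), (nat_lit 0x20d00df000), (nat_lit 0x20cfa9f000)⟩,
    ⟨(nat_lit 0x20f6d), (nat_lit 0x20d71), (nat_lit 0x21177), (nat_lit 0x20f7b)⟩,
    ⟨(nat_lit 0), (nat_lit 0), (nat_lit 0), (nat_lit 0)⟩,
    (nat_lit 0x20caf), (nat_lit 0x21177)⟩))) (.nd (.nd (.lf ⟨⟨(nat_lit 0x2057247000), (nat_lit 0x205712d000), (nat_lit 0x20572f3000), (nat_lit 0x20571d9000)⟩,
    ⟨(nat_lit 0x2913e), (nat_lit 0x29034), (nat_lit 0x29298), (nat_lit 0x2918e)⟩,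
    ⟨(nat_lit 0), (nat_lit 0), (nat_lit 0), (nat_lit 0)⟩,
    ⟨(nat_lit 0x20571ab000), (nat_lit 0x2057091000), (nat_lit 0x2057257000), (nat_lit 0x205713d000)⟩,
    ⟨(nat_lit 0x290ca), (nat_lit 0x28fc0), (nat_lit 0x29224), (nat_lit 0x2911a)⟩,
    ⟨(nat_lit 0x2079361000), (nat_lit 0x2079141000), (nat_lit 0x2079487000), (nat_lit 0x2079267000)⟩,
    (nat_lit 0x28fc0), (nat_lit 0x29298)⟩) (.lf ⟨⟨(nat_lit 0x2079469000), (nat_lit 0x2079249000), (nat_lit 0x207958f000), (nat_lit 0x207936f000)⟩,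
    ⟨(nat_lit 0x2a62e), (nat_lit 0x2a4b2), (nat_lit 0x2a5fe), (nat_lit 0x2a482)⟩,
    ⟨(nat_lit 0x2057247000), (nat_lit 0x205712d000), (nat_lit 0x20572f3000), (nat_lit 0x20571d9000)⟩,
    ⟨(nat_lit 0x2079361000), (nat_lit 0x2079141000), (nat_lit 0x2079487000), (nat_lit 0x2079267000)⟩,
    ⟨(nat_lit 0x2a6ca), (nat_lit 0x2a54e), (nat_lit 0x2a69a), (nat_lit 0x2a51e)⟩,
    ⟨(nat_lit 0), (nat_lit 0), (nat_lit 0), (nat_lit 0)⟩,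
    (nat_lit 0x2a482), (nat_lit 0x2a6ca)⟩)) (.nd (.lf ⟨⟨(nat_lit 0x2000000000), (nat_lit 0x2000000000), (nat_lit 0x2000000000), (nat_lit 0x2000000000)⟩,
    ⟨(nat_lit 0x100000), (nat_lit 0x100000), (nat_lit 0x100000), (nat_lit 0x100000)⟩,
    ⟨(nat_lit 0), (nat_lit 0), (nat_lit 0), (nat_lit 0)⟩,
    ⟨(nat_lit 0x2000000000), (nat_lit 0x2000000000), (nat_lit 0x2000000000), (nat_lit 0x2000000000)⟩,
    ⟨(nat_lit 0x100000), (nat_lit 0x100000), (nat_lit 0x100000), (nat_lit 0x100000)⟩,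
    ⟨(nat_lit 0x20cfcd5000), (nat_lit 0x20cf695000), (nat_lit 0x20d00df000), (nat_lit 0x20cfa9f000)⟩,
    (nat_lit 0x100000), (nat_lit 0x100000)⟩) (.lf ⟨⟨(nat_lit 0x20cff73000), (nat_lit 0x20cf933000), (nat_lit 0x20d037d000), (nat_lit 0x20cfd3d000)⟩,
    ⟨(nat_lit 0xf9f07), (nat_lit 0xf8ffb), (nat_lit 0xfae87), (nat_lit 0xf9f7b)⟩,
    ⟨(nat_lit 0x2000000000), (nat_lit 0x2000000000), (nat_lit 0x2000000000), (nat_lit 0x2000000000)⟩,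
    ⟨(nat_lit 0x20cfcd5000), (nat_lit 0x20cf695000), (nat_lit 0x20d00df000), (nat_lit 0x20cfa9f000)⟩,
    ⟨(nat_lit 0xfa4b7), (nat_lit 0xf95ab), (nat_lit 0xfb437), (nat_lit 0xfa52b)⟩,
    ⟨(nat_lit 0), (nat_lit 0), (nat_lit 0), (nat_lit 0)⟩,
    (nat_lit 0xf8ffb), (nat_lit 0xfb437)⟩)))
  nx := .nd (.nd (.lf (nat_lit 64)) (.lf (nat_lit 57))) (.nd (.lf (nat_lit 120)) (.lf (nat_lit 111)))
  mir := (nat_lit 110)

noncomputable def cx112 : CtxD where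
  sd := .nd (.nd (.nd (.lf ⟨⟨(nat_lit 0x2000000000), (nat_lit 0x2000000000), (nat_lit 0x2000000000), (nat_lit 0x2000000000)⟩,
    ⟨(nat_lit 0x21b72), (nat_lit 0x21b72), (nat_lit 0x21b72), (nat_lit 0x21b72)⟩,
    ⟨(nat_lit 0), (nat_lit 0), (nat_lit 0), (nat_lit 0)⟩,
    ⟨(nat_lit 0x2000000000), (nat_lit 0x2000000000), (nat_lit 0x2000000000), (nat_lit 0x2000000000)⟩,
    ⟨(nat_lit 0x21b70), (nat_lit 0x21b70), (nat_lit 0x21b70), (nat_lit 0x21b70)⟩,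
    ⟨(nat_lit 0x20319f5000), (nat_lit 0x20319c1000), (nat_lit 0x203196d000), (nat_lit 0x2031939000)⟩,
    (nat_lit 0x21b70), (nat_lit 0x21b72)⟩) (.lf ⟨⟨(nat_lit 0x2031a11000), (nat_lit 0x20319dd000), (nat_lit 0x2031989000), (nat_lit 0x2031955000)⟩,
    ⟨(nat_lit 0x6e7c3), (nat_lit 0x6e6db), (nat_lit 0x6e56d), (nat_lit 0x6e485)⟩,
    ⟨(nat_lit 0x2000000000), (nat_lit 0x2000000000), (nat_lit 0x2000000000), (nat_lit 0x2000000000)⟩,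
    ⟨(nat_lit 0x20319f5000), (nat_lit 0x20319c1000), (nat_lit 0x203196d000), (nat_lit 0x2031939000)⟩,
    ⟨(nat_lit 0x6e815), (nat_lit 0x6e72d), (nat_lit 0x6e5bf), (nat_lit 0x6e4d7)⟩,
    ⟨(nat_lit 0), (nat_lit 0), (nat_lit 0), (nat_lit 0)⟩,
    (nat_lit 0x6e485), (nat_lit 0x6e815)⟩)) (.nd (.lf ⟨⟨(nat_lit 0x20a4425000), (nat_lit 0x20a41ed000), (nat_lit 0x20a388d000), (nat_lit 0x20a3655000)⟩,
    ⟨(nat_lit 0x6c7e0), (nat_lit 0x6c4f4), (nat_lit 0x6b4d4), (nat_lit 0x6b1e8)⟩,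
    ⟨(nat_lit 0), (nat_lit 0), (nat_lit 0), (nat_lit 0)⟩,
    ⟨(nat_lit 0x20a43a9000), (nat_lit 0x20a4171000), (nat_lit 0x20a3811000), (nat_lit 0x20a35d9000)⟩,
    ⟨(nat_lit 0x6c75a), (nat_lit 0x6c46e), (nat_lit 0x6b44e), (nat_lit 0x6b162)⟩,
    ⟨(nat_lit 0x20d680f000), (nat_lit 0x20d6447000), (nat_lit 0x20d52d9000), (nat_lit 0x20d4f11000)⟩,
    (nat_lit 0x6b162), (nat_lit 0x6c7e0)⟩) (.lf ⟨⟨(nat_lit 0x20d68c5000), (nat_lit 0x20d64fd000), (nat_lit 0x20d538f000), (nat_lit 0x20d4fc7000)⟩,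
    ⟨(nat_lit 0x2337a), (nat_lit 0x2323e), (nat_lit 0x22c28), (nat_lit 0x22aec)⟩,
    ⟨(nat_lit 0x20a4425000), (nat_lit 0x20a41ed000), (nat_lit 0x20a388d000), (nat_lit 0x20a3655000)⟩,
    ⟨(nat_lit 0x20d680f000), (nat_lit 0x20d6447000), (nat_lit 0x20d52d9000), (nat_lit 0x20d4f11000)⟩,
    ⟨(nat_lit 0x233b0), (nat_lit 0x23274), (nat_lit 0x22c5e), (nat_lit 0x22b22)⟩,
    ⟨(nat_lit 0), (nat_lit 0), (nat_lit 0), (nat_lit 0)⟩,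
    (nat_lit 0x22aec), (nat_lit 0x233b0)⟩))) (.nd (.nd (.lf ⟨⟨(nat_lit 0x2058cf1000), (nat_lit 0x2058c4b000), (nat_lit 0x20589cd000), (nat_lit 0x2058927000)⟩,
    ⟨(nat_lit 0x2b72b), (nat_lit 0x2b689), (nat_lit 0x2b45b), (nat_lit 0x2b3b9)⟩,
    ⟨(nat_lit 0), (nat_lit 0), (nat_lit 0), (nat_lit 0)⟩,
    ⟨(nat_lit 0x2058cb9000), (nat_lit 0x2058c13000), (nat_lit 0x2058995000), (nat_lit 0x20588ef000)⟩,
    ⟨(nat_lit 0x2b703), (nat_lit 0x2b661), (nat_lit 0x2b433), (nat_lit 0x2b391)⟩,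
    ⟨(nat_lit 0x207bf6f000), (nat_lit 0x207be2b000), (nat_lit 0x207b8ef000), (nat_lit 0x207b7ab000)⟩,
    (nat_lit 0x2b391), (nat_lit 0x2b72b)⟩) (.lf ⟨⟨(nat_lit 0x207bfc3000), (nat_lit 0x207be7f000), (nat_lit 0x207b943000), (nat_lit 0x207b7ff000)⟩,
    ⟨(nat_lit 0x2a97d), (nat_lit 0x2a89f), (nat_lit 0x2a417), (nat_lit 0x2a339)⟩,
    ⟨(nat_lit 0x2058cf1000), (nat_lit 0x2058c4b000), (nat_lit 0x20589cd000), (nat_lit 0x2058927000)⟩,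
    ⟨(nat_lit 0x207bf6f000), (nat_lit 0x207be2b000), (nat_lit 0x207b8ef000), (nat_lit 0x207b7ab000)⟩,
    ⟨(nat_lit 0x2a9ab), (nat_lit 0x2a8cd), (nat_lit 0x2a445), (nat_lit 0x2a367)⟩,
    ⟨(nat_lit 0), (nat_lit 0), (nat_lit 0), (nat_lit 0)⟩,
    (nat_lit 0x2a339), (nat_lit 0x2a9ab)⟩)) (.nd (.lf ⟨⟨(nat_lit 0x2000000000), (nat_lit 0x2000000000), (nat_lit 0x2000000000), (nat_lit 0x2000000000)⟩,
    ⟨(nat_lit 0x100000), (nat_lit 0x100000), (nat_lit 0x100000), (nat_lit 0x100000)⟩,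
    ⟨(nat_lit 0), (nat_lit 0), (nat_lit 0), (nat_lit 0)⟩,
    ⟨(nat_lit 0x2000000000), (nat_lit 0x2000000000), (nat_lit 0x2000000000), (nat_lit 0x2000000000)⟩,
    ⟨(nat_lit 0x100000), (nat_lit 0x100000), (nat_lit 0x100000), (nat_lit 0x100000)⟩,
    ⟨(nat_lit 0x20d680f000), (nat_lit 0x20d6447000), (nat_lit 0x20d52d9000), (nat_lit 0x20d4f11000)⟩,
    (nat_lit 0x100000), (nat_lit 0x100000)⟩) (.lf ⟨⟨(nat_lit 0x20d68c5000), (nat_lit 0x20d64fd000), (nat_lit 0x20d538f000), (nat_lit 0x20d4fc7000)⟩,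
    ⟨(nat_lit 0x10b68a), (nat_lit 0x10ad2a), (nat_lit 0x107efa), (nat_lit 0x10759a)⟩,
    ⟨(nat_lit 0x2000000000), (nat_lit 0x2000000000), (nat_lit 0x2000000000), (nat_lit 0x2000000000)⟩,
    ⟨(nat_lit 0x20d680f000), (nat_lit 0x20d6447000), (nat_lit 0x20d52d9000), (nat_lit 0x20d4f11000)⟩,
    ⟨(nat_lit 0x10b812), (nat_lit 0x10aeb2), (nat_lit 0x108082), (nat_lit 0x107722)⟩,
    ⟨(nat_lit 0), (nat_lit 0), (nat_lit 0), (nat_lit 0)⟩,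
    (nat_lit 0x10759a), (nat_lit 0x10b812)⟩)))
  nx := .nd (.nd (.lf (nat_lit 56)) (.lf (nat_lit 65))) (.nd (.lf (nat_lit 123)) (.lf (nat_lit 112)))
  mir := (nat_lit 113)

noncomputable def cx113 : CtxD where
  sd := .nd (.nd (.nd (.lf ⟨⟨(nat_lit 0x2000000000), (nat_lit 0x2000000000), (nat_lit 0x2000000000), (nat_lit 0x2000000000)⟩,
    ⟨(nat_lit 0x21b72), (nat_lit 0x21b72), (nat_lit 0x21b72), (nat_lit 0x21b72)⟩,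
    ⟨(nat_lit 0), (nat_lit 0), (nat_lit 0), (nat_lit 0)⟩,
    ⟨(nat_lit 0x2000000000), (nat_lit 0x2000000000), (nat_lit 0x2000000000), (nat_lit 0x2000000000)⟩,
    ⟨(nat_lit 0x21b70), (nat_lit 0x21b70), (nat_lit 0x21b70), (nat_lit 0x21b70)⟩,
    ⟨(nat_lit 0x20302fc000), (nat_lit 0x20302ca000), (nat_lit 0x203022c000), (nat_lit 0x20301fa000)⟩,
    (nat_lit 0x21b70), (nat_lit 0x21b72)⟩) (.lf ⟨⟨(nat_lit 0x203031c000), (nat_lit 0x20302ea000), (nat_lit 0x203024c000), (nat_lit 0x203021a000)⟩,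
    ⟨(nat_lit 0x68158), (nat_lit 0x6807c), (nat_lit 0x67df2), (nat_lit 0x67d16)⟩,
    ⟨(nat_lit 0x2000000000), (nat_lit 0x2000000000), (nat_lit 0x2000000000), (nat_lit 0x2000000000)⟩,
    ⟨(nat_lit 0x20302fc000), (nat_lit 0x20302ca000), (nat_lit 0x203022c000), (nat_lit 0x20301fa000)⟩,
    ⟨(nat_lit 0x681ae), (nat_lit 0x680d2), (nat_lit 0x67e48), (nat_lit 0x67d6c)⟩,
    ⟨(nat_lit 0), (nat_lit 0), (nat_lit 0), (nat_lit 0)⟩,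
    (nat_lit 0x67d16), (nat_lit 0x681ae)⟩)) (.nd (.lf ⟨⟨(nat_lit 0x209ecf2000), (nat_lit 0x209eacc000), (nat_lit 0x209dfc0000), (nat_lit 0x209dd9a000)⟩,
    ⟨(nat_lit 0x6b35a), (nat_lit 0x6b076), (nat_lit 0x69f52), (nat_lit 0x69c6e)⟩,
    ⟨(nat_lit 0), (nat_lit 0), (nat_lit 0), (nat_lit 0)⟩,
    ⟨(nat_lit 0x209ec6e000), (nat_lit 0x209ea48000), (nat_lit 0x209df3c000), (nat_lit 0x209dd16000)⟩,
    ⟨(nat_lit 0x6b2c4), (nat_lit 0x6afe0), (nat_lit 0x69ebc), (nat_lit 0x69bd8)⟩,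
    ⟨(nat_lit 0x20cef45000), (nat_lit 0x20ceba1000), (nat_lit 0x20cd893000), (nat_lit 0x20cd4ef000)⟩,
    (nat_lit 0x69bd8), (nat_lit 0x6b35a)⟩) (.lf ⟨⟨(nat_lit 0x20cf00b000), (nat_lit 0x20cec67000), (nat_lit 0x20cd959000), (nat_lit 0x20cd5b5000)⟩,
    ⟨(nat_lit 0x20c28), (nat_lit 0x20b02), (nat_lit 0x2055a), (nat_lit 0x20434)⟩,
    ⟨(nat_lit 0x209ecf2000), (nat_lit 0x209eacc000), (nat_lit 0x209dfc0000), (nat_lit 0x209dd9a000)⟩,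
    ⟨(nat_lit 0x20cef45000), (nat_lit 0x20ceba1000), (nat_lit 0x20cd893000), (nat_lit 0x20cd4ef000)⟩,
    ⟨(nat_lit 0x20c60), (nat_lit 0x20b3a), (nat_lit 0x20592), (nat_lit 0x2046c)⟩,
    ⟨(nat_lit 0), (nat_lit 0), (nat_lit 0), (nat_lit 0)⟩,
    (nat_lit 0x20434), (nat_lit 0x20c60)⟩))) (.nd (.nd (.lf ⟨⟨(nat_lit 0x2056f7f000), (nat_lit 0x2056ed9000), (nat_lit 0x2056b81000), (nat_lit 0x2056adb000)⟩,
    ⟨(nat_lit 0x2906b), (nat_lit 0x28fcf), (nat_lit 0x28d0f), (nat_lit 0x28c73)⟩,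
    ⟨(nat_lit 0), (nat_lit 0), (nat_lit 0), (nat_lit 0)⟩,
    ⟨(nat_lit 0x2056f43000), (nat_lit 0x2056e9d000), (nat_lit 0x2056b45000), (nat_lit 0x2056a9f000)⟩,
    ⟨(nat_lit 0x29043), (nat_lit 0x28fa7), (nat_lit 0x28ce7), (nat_lit 0x28c4b)⟩,
    ⟨(nat_lit 0x2078e47000), (nat_lit 0x2078d09000), (nat_lit 0x2078675000), (nat_lit 0x2078537000)⟩,
    (nat_lit 0x28c4b), (nat_lit 0x2906b)⟩) (.lf ⟨⟨(nat_lit 0x2078ea1000), (nat_lit 0x2078d63000), (nat_lit 0x20786cf000), (nat_lit 0x2078591000)⟩,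
    ⟨(nat_lit 0x2a01a), (nat_lit 0x29f3e), (nat_lit 0x29a10), (nat_lit 0x29934)⟩,
    ⟨(nat_lit 0x2056f7f000), (nat_lit 0x2056ed9000), (nat_lit 0x2056b81000), (nat_lit 0x2056adb000)⟩,
    ⟨(nat_lit 0x2078e47000), (nat_lit 0x2078d09000), (nat_lit 0x2078675000), (nat_lit 0x2078537000)⟩,
    ⟨(nat_lit 0x2a04c), (nat_lit 0x29f70), (nat_lit 0x29a42), (nat_lit 0x29966)⟩,
    ⟨(nat_lit 0), (nat_lit 0), (nat_lit 0), (nat_lit 0)⟩,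
    (nat_lit 0x29934), (nat_lit 0x2a04c)⟩)) (.nd (.lf ⟨⟨(nat_lit 0x2000000000), (nat_lit 0x2000000000), (nat_lit 0x2000000000), (nat_lit 0x2000000000)⟩,
    ⟨(nat_lit 0x100000), (nat_lit 0x100000), (nat_lit 0x100000), (nat_lit 0x100000)⟩,
    ⟨(nat_lit 0), (nat_lit 0), (nat_lit 0), (nat_lit 0)⟩,
    ⟨(nat_lit 0x2000000000), (nat_lit 0x2000000000), (nat_lit 0x2000000000), (nat_lit 0x2000000000)⟩,
    ⟨(nat_lit 0x100000), (nat_lit 0x100000), (nat_lit 0x100000), (nat_lit 0x100000)⟩,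
    ⟨(nat_lit 0x20cef45000), (nat_lit 0x20ceba1000), (nat_lit 0x20cd893000), (nat_lit 0x20cd4ef000)⟩,
    (nat_lit 0x100000), (nat_lit 0x100000)⟩) (.lf ⟨⟨(nat_lit 0x20cf00b000), (nat_lit 0x20cec67000), (nat_lit 0x20cd959000), (nat_lit 0x20cd5b5000)⟩,
    ⟨(nat_lit 0xf8c01), (nat_lit 0xf8349), (nat_lit 0xf5853), (nat_lit 0xf4f9b)⟩,
    ⟨(nat_lit 0x2000000000), (nat_lit 0x2000000000), (nat_lit 0x2000000000), (nat_lit 0x2000000000)⟩,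
    ⟨(nat_lit 0x20cef45000), (nat_lit 0x20ceba1000), (nat_lit 0x20cd893000), (nat_lit 0x20cd4ef000)⟩,
    ⟨(nat_lit 0xf8d9b), (nat_lit 0xf84e3), (nat_lit 0xf59ed), (nat_lit 0xf5135)⟩,
    ⟨(nat_lit 0), (nat_lit 0), (nat_lit 0), (nat_lit 0)⟩,
    (nat_lit 0xf4f9b), (nat_lit 0xf8d9b)⟩)))
  nx := .nd (.nd (.lf (nat_lit 64)) (.lf (nat_lit 57))) (.nd (.lf (nat_lit 122)) (.lf (nat_lit 113)))
  mir := (nat_lit 112)

noncomputable def cx114 : CtxD where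
  sd := .nd (.nd (.nd (.lf ⟨⟨(nat_lit 0x2000000000), (nat_lit 0x2000000000), (nat_lit 0x2000000000), (nat_lit 0x2000000000)⟩,
    ⟨(nat_lit 0x21b72), (nat_lit 0x21b72), (nat_lit 0x21b72), (nat_lit 0x21b72)⟩,
    ⟨(nat_lit 0), (nat_lit 0), (nat_lit 0), (nat_lit 0)⟩,
    ⟨(nat_lit 0x2000000000), (nat_lit 0x2000000000), (nat_lit 0x2000000000), (nat_lit 0x2000000000)⟩,
    ⟨(nat_lit 0x21b70), (nat_lit 0x21b70), (nat_lit 0x21b70), (nat_lit 0x21b70)⟩,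
    ⟨(nat_lit 0x2031998000), (nat_lit 0x2031978000), (nat_lit 0x20319e6000), (nat_lit 0x20319c6000)⟩,
    (nat_lit 0x21b70), (nat_lit 0x21b72)⟩) (.lf ⟨⟨(nat_lit 0x20319b4000), (nat_lit 0x2031994000), (nat_lit 0x2031a02000), (nat_lit 0x20319e2000)⟩,
    ⟨(nat_lit 0x6e619), (nat_lit 0x6e58b), (nat_lit 0x6e777), (nat_lit 0x6e6e9)⟩,
    ⟨(nat_lit 0x2000000000), (nat_lit 0x2000000000), (nat_lit 0x2000000000), (nat_lit 0x2000000000)⟩,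
    ⟨(nat_lit 0x2031998000), (nat_lit 0x2031978000), (nat_lit 0x20319e6000), (nat_lit 0x20319c6000)⟩,
    ⟨(nat_lit 0x6e673), (nat_lit 0x6e5e5), (nat_lit 0x6e7d1), (nat_lit 0x6e743)⟩,
    ⟨(nat_lit 0), (nat_lit 0), (nat_lit 0), (nat_lit 0)⟩,
    (nat_lit 0x6e58b), (nat_lit 0x6e7d1)⟩)) (.nd (.lf ⟨⟨(nat_lit 0x20a47f1000), (nat_lit 0x20a4691000), (nat_lit 0x20a47f7000), (nat_lit 0x20a4697000)⟩,
    ⟨(nat_lit 0x6d1e7), (nat_lit 0x6d015), (nat_lit 0x6cfcd), (nat_lit 0x6cdfb)⟩,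
    ⟨(nat_lit 0), (nat_lit 0), (nat_lit 0), (nat_lit 0)⟩,
    ⟨(nat_lit 0x20a4761000), (nat_lit 0x20a4601000), (nat_lit 0x20a4767000), (nat_lit 0x20a4607000)⟩,
    ⟨(nat_lit 0x6d13f), (nat_lit 0x6cf6d), (nat_lit 0x6cf25), (nat_lit 0x6cd53)⟩,
    ⟨(nat_lit 0x20d7049000), (nat_lit 0x20d6df1000), (nat_lit 0x20d6f87000), (nat_lit 0x20d6d2f000)⟩,
    (nat_lit 0x6cd53), (nat_lit 0x6d1e7)⟩) (.lf ⟨⟨(nat_lit 0x20d7125000), (nat_lit 0x20d6ecd000), (nat_lit 0x20d7063000), (nat_lit 0x20d6e0b000)⟩,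
    ⟨(nat_lit 0x236a2), (nat_lit 0x235dc), (nat_lit 0x23632), (nat_lit 0x2356c)⟩,
    ⟨(nat_lit 0x20a47f1000), (nat_lit 0x20a4691000), (nat_lit 0x20a47f7000), (nat_lit 0x20a4697000)⟩,
    ⟨(nat_lit 0x20d7049000), (nat_lit 0x20d6df1000), (nat_lit 0x20d6f87000), (nat_lit 0x20d6d2f000)⟩,
    ⟨(nat_lit 0x236e6), (nat_lit 0x23620), (nat_lit 0x23676), (nat_lit 0x235b0)⟩,
    ⟨(nat_lit 0), (nat_lit 0), (nat_lit 0), (nat_lit 0)⟩,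
    (nat_lit 0x2356c), (nat_lit 0x236e6)⟩))) (.nd (.nd (.lf ⟨⟨(nat_lit 0x2058db9000), (nat_lit 0x2058d53000), (nat_lit 0x2058ddd000), (nat_lit 0x2058d77000)⟩,
    ⟨(nat_lit 0x2b794), (nat_lit 0x2b730), (nat_lit 0x2b7e0), (nat_lit 0x2b77c)⟩,
    ⟨(nat_lit 0), (nat_lit 0), (nat_lit 0), (nat_lit 0)⟩,
    ⟨(nat_lit 0x2058d7f000), (nat_lit 0x2058d19000), (nat_lit 0x2058da3000), (nat_lit 0x2058d3d000)⟩,
    ⟨(nat_lit 0x2b766), (nat_lit 0x2b702), (nat_lit 0x2b7b2), (nat_lit 0x2b74e)⟩,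
    ⟨(nat_lit 0x207c16d000), (nat_lit 0x207c0a5000), (nat_lit 0x207c17f000), (nat_lit 0x207c0b7000)⟩,
    (nat_lit 0x2b702), (nat_lit 0x2b7e0)⟩) (.lf ⟨⟨(nat_lit 0x207c1c9000), (nat_lit 0x207c101000), (nat_lit 0x207c1db000), (nat_lit 0x207c113000)⟩,
    ⟨(nat_lit 0x2ac18), (nat_lit 0x2ab8e), (nat_lit 0x2ab9c), (nat_lit 0x2ab12)⟩,
    ⟨(nat_lit 0x2058db9000), (nat_lit 0x2058d53000), (nat_lit 0x2058ddd000), (nat_lit 0x2058d77000)⟩,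
    ⟨(nat_lit 0x207c16d000), (nat_lit 0x207c0a5000), (nat_lit 0x207c17f000), (nat_lit 0x207c0b7000)⟩,
    ⟨(nat_lit 0x2ac4e), (nat_lit 0x2abc4), (nat_lit 0x2abd2), (nat_lit 0x2ab48)⟩,
    ⟨(nat_lit 0), (nat_lit 0), (nat_lit 0), (nat_lit 0)⟩,
    (nat_lit 0x2ab12), (nat_lit 0x2ac4e)⟩)) (.nd (.lf ⟨⟨(nat_lit 0x2000000000), (nat_lit 0x2000000000), (nat_lit 0x2000000000), (nat_lit 0x2000000000)⟩,
    ⟨(nat_lit 0x100000), (nat_lit 0x100000), (nat_lit 0x100000), (nat_lit 0x100000)⟩,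
    ⟨(nat_lit 0), (nat_lit 0), (nat_lit 0), (nat_lit 0)⟩,
    ⟨(nat_lit 0x2000000000), (nat_lit 0x2000000000), (nat_lit 0x2000000000), (nat_lit 0x2000000000)⟩,
    ⟨(nat_lit 0x100000), (nat_lit 0x100000), (nat_lit 0x100000), (nat_lit 0x100000)⟩,
    ⟨(nat_lit 0x20d7049000), (nat_lit 0x20d6df1000), (nat_lit 0x20d6f87000), (nat_lit 0x20d6d2f000)⟩,
    (nat_lit 0x100000), (nat_lit 0x100000)⟩) (.lf ⟨⟨(nat_lit 0x20d7125000), (nat_lit 0x20d6ecd000), (nat_lit 0x20d7063000), (nat_lit 0x20d6e0b000)⟩,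
    ⟨(nat_lit 0x10ce86), (nat_lit 0x10c8aa), (nat_lit 0x10cb32), (nat_lit 0x10c556)⟩,
    ⟨(nat_lit 0x2000000000), (nat_lit 0x2000000000), (nat_lit 0x2000000000), (nat_lit 0x2000000000)⟩,
    ⟨(nat_lit 0x20d7049000), (nat_lit 0x20d6df1000), (nat_lit 0x20d6f87000), (nat_lit 0x20d6d2f000)⟩,
    ⟨(nat_lit 0x10d07a), (nat_lit 0x10ca9e), (nat_lit 0x10cd26), (nat_lit 0x10c74a)⟩,
    ⟨(nat_lit 0), (nat_lit 0), (nat_lit 0), (nat_lit 0)⟩,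
    (nat_lit 0x10c556), (nat_lit 0x10d07a)⟩)))
  nx := .nd (.nd (.lf (nat_lit 56)) (.lf (nat_lit 65))) (.nd (.lf (nat_lit 123)) (.lf (nat_lit 114)))
  mir := (nat_lit 115)

noncomputable def cx115 : CtxD where
  sd := .nd (.nd (.nd (.lf ⟨⟨(nat_lit 0x2000000000), (nat_lit 0x2000000000), (nat_lit 0x2000000000), (nat_lit 0x2000000000)⟩,
    ⟨(nat_lit 0x21b72), (nat_lit 0x21b72), (nat_lit 0x21b72), (nat_lit 0x21b72)⟩,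
    ⟨(nat_lit 0), (nat_lit 0), (nat_lit 0), (nat_lit 0)⟩,
    ⟨(nat_lit 0x2000000000), (nat_lit 0x2000000000), (nat_lit 0x2000000000), (nat_lit 0x2000000000)⟩,
    ⟨(nat_lit 0x21b70), (nat_lit 0x21b70), (nat_lit 0x21b70), (nat_lit 0x21b70)⟩,
    ⟨(nat_lit 0x20301f7000), (nat_lit 0x20301d7000), (nat_lit 0x203021f000), (nat_lit 0x20301ff000)⟩,
    (nat_lit 0x21b70), (nat_lit 0x21b72)⟩) (.lf ⟨⟨(nat_lit 0x2030213000), (nat_lit 0x20301f3000), (nat_lit 0x203023b000), (nat_lit 0x203021b000)⟩,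
    ⟨(nat_lit 0x67d0e), (nat_lit 0x67c86), (nat_lit 0x67dc4), (nat_lit 0x67d3c)⟩,
    ⟨(nat_lit 0x2000000000), (nat_lit 0x2000000000), (nat_lit 0x2000000000), (nat_lit 0x2000000000)⟩,
    ⟨(nat_lit 0x20301f7000), (nat_lit 0x20301d7000), (nat_lit 0x203021f000), (nat_lit 0x20301ff000)⟩,
    ⟨(nat_lit 0x67d66), (nat_lit 0x67cde), (nat_lit 0x67e1c), (nat_lit 0x67d94)⟩,
    ⟨(nat_lit 0), (nat_lit 0), (nat_lit 0), (nat_lit 0)⟩,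
    (nat_lit 0x67c86), (nat_lit 0x67e1c)⟩)) (.nd (.lf ⟨⟨(nat_lit 0x209d9f7000), (nat_lit 0x209d8a5000), (nat_lit 0x209d907000), (nat_lit 0x209d7b5000)⟩,
    ⟨(nat_lit 0x695cd), (nat_lit 0x69409), (nat_lit 0x69333), (nat_lit 0x6916f)⟩,
    ⟨(nat_lit 0), (nat_lit 0), (nat_lit 0), (nat_lit 0)⟩,
    ⟨(nat_lit 0x209d96b000), (nat_lit 0x209d819000), (nat_lit 0x209d87b000), (nat_lit 0x209d729000)⟩,
    ⟨(nat_lit 0x69529), (nat_lit 0x69365), (nat_lit 0x6928f), (nat_lit 0x690cb)⟩,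
    ⟨(nat_lit 0x20cce71000), (nat_lit 0x20ccc35000), (nat_lit 0x20ccca1000), (nat_lit 0x20cca65000)⟩,
    (nat_lit 0x690cb), (nat_lit 0x695cd)⟩) (.lf ⟨⟨(nat_lit 0x20ccf47000), (nat_lit 0x20ccd0b000), (nat_lit 0x20ccd77000), (nat_lit 0x20ccb3b000)⟩,
    ⟨(nat_lit 0x20268), (nat_lit 0x201b4), (nat_lit 0x20202), (nat_lit 0x2014e)⟩,
    ⟨(nat_lit 0x209d9f7000), (nat_lit 0x209d8a5000), (nat_lit 0x209d907000), (nat_lit 0x209d7b5000)⟩,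
    ⟨(nat_lit 0x20cce71000), (nat_lit 0x20ccc35000), (nat_lit 0x20ccca1000), (nat_lit 0x20cca65000)⟩,
    ⟨(nat_lit 0x202a6), (nat_lit 0x201f2), (nat_lit 0x20240), (nat_lit 0x2018c)⟩,
    ⟨(nat_lit 0), (nat_lit 0), (nat_lit 0), (nat_lit 0)⟩,
    (nat_lit 0x2014e), (nat_lit 0x202a6)⟩))) (.nd (.nd (.lf ⟨⟨(nat_lit 0x20569be000), (nat_lit 0x2056958000), (nat_lit 0x2056976000), (nat_lit 0x2056910000)⟩,
    ⟨(nat_lit 0x28bb7), (nat_lit 0x28b57), (nat_lit 0x28bab), (nat_lit 0x28b4b)⟩,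
    ⟨(nat_lit 0), (nat_lit 0), (nat_lit 0), (nat_lit 0)⟩,
    ⟨(nat_lit 0x2056984000), (nat_lit 0x205691e000), (nat_lit 0x205693c000), (nat_lit 0x20568d6000)⟩,
    ⟨(nat_lit 0x28b8b), (nat_lit 0x28b2b), (nat_lit 0x28b7f), (nat_lit 0x28b1f)⟩,
    ⟨(nat_lit 0x20782f7000), (nat_lit 0x2078233000), (nat_lit 0x2078257000), (nat_lit 0x2078193000)⟩,
    (nat_lit 0x28b1f), (nat_lit 0x28bb7)⟩) (.lf ⟨⟨(nat_lit 0x2078355000), (nat_lit 0x2078291000), (nat_lit 0x20782b5000), (nat_lit 0x20781f1000)⟩,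
    ⟨(nat_lit 0x2972d), (nat_lit 0x296a5), (nat_lit 0x29661), (nat_lit 0x295d9)⟩,
    ⟨(nat_lit 0x20569be000), (nat_lit 0x2056958000), (nat_lit 0x2056976000), (nat_lit 0x2056910000)⟩,
    ⟨(nat_lit 0x20782f7000), (nat_lit 0x2078233000), (nat_lit 0x2078257000), (nat_lit 0x2078193000)⟩,
    ⟨(nat_lit 0x29763), (nat_lit 0x296db), (nat_lit 0x29697), (nat_lit 0x2960f)⟩,
    ⟨(nat_lit 0), (nat_lit 0), (nat_lit 0), (nat_lit 0)⟩,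
    (nat_lit 0x295d9), (nat_lit 0x29763)⟩)) (.nd (.lf ⟨⟨(nat_lit 0x2000000000), (nat_lit 0x2000000000), (nat_lit 0x2000000000), (nat_lit 0x2000000000)⟩,
    ⟨(nat_lit 0x100000), (nat_lit 0x100000), (nat_lit 0x100000), (nat_lit 0x100000)⟩,
    ⟨(nat_lit 0), (nat_lit 0), (nat_lit 0), (nat_lit 0)⟩,
    ⟨(nat_lit 0x2000000000), (nat_lit 0x2000000000), (nat_lit 0x2000000000), (nat_lit 0x2000000000)⟩,
    ⟨(nat_lit 0x100000), (nat_lit 0x100000), (nat_lit 0x100000), (nat_lit 0x100000)⟩,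
    ⟨(nat_lit 0x20cce71000), (nat_lit 0x20ccc35000), (nat_lit 0x20ccca1000), (nat_lit 0x20cca65000)⟩,
    (nat_lit 0x100000), (nat_lit 0x100000)⟩) (.lf ⟨⟨(nat_lit 0x20ccf47000), (nat_lit 0x20ccd0b000), (nat_lit 0x20ccd77000), (nat_lit 0x20ccb3b000)⟩,
    ⟨(nat_lit 0xf41f4), (nat_lit 0xf3ca2), (nat_lit 0xf3ef0), (nat_lit 0xf399e)⟩,
    ⟨(nat_lit 0x2000000000), (nat_lit 0x2000000000), (nat_lit 0x2000000000), (nat_lit 0x2000000000)⟩,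
    ⟨(nat_lit 0x20cce71000), (nat_lit 0x20ccc35000), (nat_lit 0x20ccca1000), (nat_lit 0x20cca65000)⟩,
    ⟨(nat_lit 0xf43ba), (nat_lit 0xf3e68), (nat_lit 0xf40b6), (nat_lit 0xf3b64)⟩,
    ⟨(nat_lit 0), (nat_lit 0), (nat_lit 0), (nat_lit 0)⟩,
    (nat_lit 0xf399e), (nat_lit 0xf43ba)⟩)))
  nx := .nd (.nd (.lf (nat_lit 64)) (.lf (nat_lit 57))) (.nd (.lf (nat_lit 122)) (.lf (nat_lit 115)))
  mir := (nat_lit 114)

noncomputable def cx116 : CtxD where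
  sd := .nd (.nd (.nd (.lf ⟨⟨(nat_lit 0x2000000000), (nat_lit 0x2000000000), (nat_lit 0x2000000000), (nat_lit 0x2000000000)⟩,
    ⟨(nat_lit 0x21b72), (nat_lit 0x21b72), (nat_lit 0x21b72), (nat_lit 0x21b72)⟩,
    ⟨(nat_lit 0), (nat_lit 0), (nat_lit 0), (nat_lit 0)⟩,
    ⟨(nat_lit 0x2000000000), (nat_lit 0x2000000000), (nat_lit 0x2000000000), (nat_lit 0x2000000000)⟩,
    ⟨(nat_lit 0x21b70), (nat_lit 0x21b70), (nat_lit 0x21b70), (nat_lit 0x21b70)⟩,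
    ⟨(nat_lit 0x2031a4b000), (nat_lit 0x2031a29000), (nat_lit 0x20319ad000), (nat_lit 0x203198b000)⟩,
    (nat_lit 0x21b70), (nat_lit 0x21b72)⟩) (.lf ⟨⟨(nat_lit 0x2031a71000), (nat_lit 0x2031a4f000), (nat_lit 0x20319d3000), (nat_lit 0x20319b1000)⟩,
    ⟨(nat_lit 0x6e934), (nat_lit 0x6e898), (nat_lit 0x6e678), (nat_lit 0x6e5dc)⟩,
    ⟨(nat_lit 0x2000000000), (nat_lit 0x2000000000), (nat_lit 0x2000000000), (nat_lit 0x2000000000)⟩,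
    ⟨(nat_lit 0x2031a4b000), (nat_lit 0x2031a29000), (nat_lit 0x20319ad000), (nat_lit 0x203198b000)⟩,
    ⟨(nat_lit 0x6e9b2), (nat_lit 0x6e916), (nat_lit 0x6e6f6), (nat_lit 0x6e65a)⟩,
    ⟨(nat_lit 0), (nat_lit 0), (nat_lit 0), (nat_lit 0)⟩,
    (nat_lit 0x6e5dc), (nat_lit 0x6e9b2)⟩)) (.nd (.lf ⟨⟨(nat_lit 0x20a5741000), (nat_lit 0x20a55bf000), (nat_lit 0x20a4c79000), (nat_lit 0x20a4af7000)⟩,
    ⟨(nat_lit 0x6eaeb), (nat_lit 0x6e8e7), (nat_lit 0x6da03), (nat_lit 0x6d7ff)⟩,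
    ⟨(nat_lit 0), (nat_lit 0), (nat_lit 0), (nat_lit 0)⟩,
    ⟨(nat_lit 0x20a5657000), (nat_lit 0x20a54d5000), (nat_lit 0x20a4b8f000), (nat_lit 0x20a4a0d000)⟩,
    ⟨(nat_lit 0x6e9d1), (nat_lit 0x6e7cd), (nat_lit 0x6d8e9), (nat_lit 0x6d6e5)⟩,
    ⟨(nat_lit 0x20d8ba6000), (nat_lit 0x20d8910000), (nat_lit 0x20d783a000), (nat_lit 0x20d75a4000)⟩,
    (nat_lit 0x6d6e5), (nat_lit 0x6eaeb)⟩) (.lf ⟨⟨(nat_lit 0x20d8d1c000), (nat_lit 0x20d8a86000), (nat_lit 0x20d79b0000), (nat_lit 0x20d771a000)⟩,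
    ⟨(nat_lit 0x24012), (nat_lit 0x23f36), (nat_lit 0x23970), (nat_lit 0x23894)⟩,
    ⟨(nat_lit 0x20a5741000), (nat_lit 0x20a55bf000), (nat_lit 0x20a4c79000), (nat_lit 0x20a4af7000)⟩,
    ⟨(nat_lit 0x20d8ba6000), (nat_lit 0x20d8910000), (nat_lit 0x20d783a000), (nat_lit 0x20d75a4000)⟩,
    ⟨(nat_lit 0x24086), (nat_lit 0x23faa), (nat_lit 0x239e4), (nat_lit 0x23908)⟩,
    ⟨(nat_lit 0), (nat_lit 0), (nat_lit 0), (nat_lit 0)⟩,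
    (nat_lit 0x23894), (nat_lit 0x24086)⟩))) (.nd (.nd (.lf ⟨⟨(nat_lit 0x20591e7000), (nat_lit 0x2059177000), (nat_lit 0x2058eeb000), (nat_lit 0x2058e7b000)⟩,
    ⟨(nat_lit 0x2bb51), (nat_lit 0x2bae3), (nat_lit 0x2b897), (nat_lit 0x2b829)⟩,
    ⟨(nat_lit 0), (nat_lit 0), (nat_lit 0), (nat_lit 0)⟩,
    ⟨(nat_lit 0x2059191000), (nat_lit 0x2059121000), (nat_lit 0x2058e95000), (nat_lit 0x2058e25000)⟩,
    ⟨(nat_lit 0x2bb0b), (nat_lit 0x2ba9d), (nat_lit 0x2b851), (nat_lit 0x2b7e3)⟩,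
    ⟨(nat_lit 0x207c9d4000), (nat_lit 0x207c8f8000), (nat_lit 0x207c3c2000), (nat_lit 0x207c2e6000)⟩,
    (nat_lit 0x2b7e3), (nat_lit 0x2bb51)⟩) (.lf ⟨⟨(nat_lit 0x207ca66000), (nat_lit 0x207c98a000), (nat_lit 0x207c454000), (nat_lit 0x207c378000)⟩,
    ⟨(nat_lit 0x2b30c), (nat_lit 0x2b274), (nat_lit 0x2ae38), (nat_lit 0x2ada0)⟩,
    ⟨(nat_lit 0x20591e7000), (nat_lit 0x2059177000), (nat_lit 0x2058eeb000), (nat_lit 0x2058e7b000)⟩,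
    ⟨(nat_lit 0x207c9d4000), (nat_lit 0x207c8f8000), (nat_lit 0x207c3c2000), (nat_lit 0x207c2e6000)⟩,
    ⟨(nat_lit 0x2b364), (nat_lit 0x2b2cc), (nat_lit 0x2ae90), (nat_lit 0x2adf8)⟩,
    ⟨(nat_lit 0), (nat_lit 0), (nat_lit 0), (nat_lit 0)⟩,
    (nat_lit 0x2ada0), (nat_lit 0x2b364)⟩)) (.nd (.lf ⟨⟨(nat_lit 0x2000000000), (nat_lit 0x2000000000), (nat_lit 0x2000000000), (nat_lit 0x2000000000)⟩,
    ⟨(nat_lit 0x100000), (nat_lit 0x100000), (nat_lit 0x100000), (nat_lit 0x100000)⟩,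
    ⟨(nat_lit 0), (nat_lit 0), (nat_lit 0), (nat_lit 0)⟩,
    ⟨(nat_lit 0x2000000000), (nat_lit 0x2000000000), (nat_lit 0x2000000000), (nat_lit 0x2000000000)⟩,
    ⟨(nat_lit 0x100000), (nat_lit 0x100000), (nat_lit 0x100000), (nat_lit 0x100000)⟩,
    ⟨(nat_lit 0x20d8ba6000), (nat_lit 0x20d8910000), (nat_lit 0x20d783a000), (nat_lit 0x20d75a4000)⟩,
    (nat_lit 0x100000), (nat_lit 0x100000)⟩) (.lf ⟨⟨(nat_lit 0x20d8d1c000), (nat_lit 0x20d8a86000), (nat_lit 0x20d79b0000), (nat_lit 0x20d771a000)⟩,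
    ⟨(nat_lit 0x11162e), (nat_lit 0x110faa), (nat_lit 0x10e3ca), (nat_lit 0x10dd46)⟩,
    ⟨(nat_lit 0x2000000000), (nat_lit 0x2000000000), (nat_lit 0x2000000000), (nat_lit 0x2000000000)⟩,
    ⟨(nat_lit 0x20d8ba6000), (nat_lit 0x20d8910000), (nat_lit 0x20d783a000), (nat_lit 0x20d75a4000)⟩,
    ⟨(nat_lit 0x111990), (nat_lit 0x11130c), (nat_lit 0x10e72c), (nat_lit 0x10e0a8)⟩,
    ⟨(nat_lit 0), (nat_lit 0), (nat_lit 0), (nat_lit 0)⟩,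
    (nat_lit 0x10dd46), (nat_lit 0x111990)⟩)))
  nx := .nd (.nd (.lf (nat_lit 56)) (.lf (nat_lit 65))) (.nd (.lf (nat_lit 123)) (.lf (nat_lit 116)))
  mir := (nat_lit 117)

noncomputable def cx117 : CtxD where
  sd := .nd (.nd (.nd (.lf ⟨⟨(nat_lit 0x2000000000), (nat_lit 0x2000000000), (nat_lit 0x2000000000), (nat_lit 0x2000000000)⟩,
    ⟨(nat_lit 0x21b72), (nat_lit 0x21b72), (nat_lit 0x21b72), (nat_lit 0x21b72)⟩,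
    ⟨(nat_lit 0), (nat_lit 0), (nat_lit 0), (nat_lit 0)⟩,
    ⟨(nat_lit 0x2000000000), (nat_lit 0x2000000000), (nat_lit 0x2000000000), (nat_lit 0x2000000000)⟩,
    ⟨(nat_lit 0x21b70), (nat_lit 0x21b70), (nat_lit 0x21b70), (nat_lit 0x21b70)⟩,
    ⟨(nat_lit 0x20301de000), (nat_lit 0x20301bc000), (nat_lit 0x2030118000), (nat_lit 0x20300f6000)⟩,
    (nat_lit 0x21b70), (nat_lit 0x21b72)⟩) (.lf ⟨⟨(nat_lit 0x2030206000), (nat_lit 0x20301e4000), (nat_lit 0x2030140000), (nat_lit 0x203011e000)⟩,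
    ⟨(nat_lit 0x67cc7), (nat_lit 0x67c31), (nat_lit 0x6797b), (nat_lit 0x678e5)⟩,
    ⟨(nat_lit 0x2000000000), (nat_lit 0x2000000000), (nat_lit 0x2000000000), (nat_lit 0x2000000000)⟩,
    ⟨(nat_lit 0x20301de000), (nat_lit 0x20301bc000), (nat_lit 0x2030118000), (nat_lit 0x20300f6000)⟩,
    ⟨(nat_lit 0x67d41), (nat_lit 0x67cab), (nat_lit 0x679f5), (nat_lit 0x6795f)⟩,
    ⟨(nat_lit 0), (nat_lit 0), (nat_lit 0), (nat_lit 0)⟩,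
    (nat_lit 0x678e5), (nat_lit 0x67d41)⟩)) (.nd (.lf ⟨⟨(nat_lit 0x209d439000), (nat_lit 0x209d2c7000), (nat_lit 0x209c8db000), (nat_lit 0x209c769000)⟩,
    ⟨(nat_lit 0x68b6d), (nat_lit 0x68981), (nat_lit 0x67ab5), (nat_lit 0x678c9)⟩,
    ⟨(nat_lit 0), (nat_lit 0), (nat_lit 0), (nat_lit 0)⟩,
    ⟨(nat_lit 0x209d355000), (nat_lit 0x209d1e3000), (nat_lit 0x209c7f7000), (nat_lit 0x209c685000)⟩,
    ⟨(nat_lit 0x68a59), (nat_lit 0x6886d), (nat_lit 0x679a1), (nat_lit 0x677b5)⟩,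
    ⟨(nat_lit 0x20cc3b1000), (nat_lit 0x20cc141000), (nat_lit 0x20cb03d000), (nat_lit 0x20cadcd000)⟩,
    (nat_lit 0x677b5), (nat_lit 0x68b6d)⟩) (.lf ⟨⟨(nat_lit 0x20cc51d000), (nat_lit 0x20cc2ad000), (nat_lit 0x20cb1a9000), (nat_lit 0x20caf39000)⟩,
    ⟨(nat_lit 0x1ff5d), (nat_lit 0x1fe9b), (nat_lit 0x1f979), (nat_lit 0x1f8b7)⟩,
    ⟨(nat_lit 0x209d439000), (nat_lit 0x209d2c7000), (nat_lit 0x209c8db000), (nat_lit 0x209c769000)⟩,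
    ⟨(nat_lit 0x20cc3b1000), (nat_lit 0x20cc141000), (nat_lit 0x20cb03d000), (nat_lit 0x20cadcd000)⟩,
    ⟨(nat_lit 0x1ffc9), (nat_lit 0x1ff07), (nat_lit 0x1f9e5), (nat_lit 0x1f923)⟩,
    ⟨(nat_lit 0), (nat_lit 0), (nat_lit 0), (nat_lit 0)⟩,
    (nat_lit 0x1f8b7), (nat_lit 0x1ffc9)⟩))) (.nd (.nd (.lf ⟨⟨(nat_lit 0x2056804000), (nat_lit 0x2056794000), (nat_lit 0x2056494000), (nat_lit 0x2056424000)⟩,
    ⟨(nat_lit 0x28a85), (nat_lit 0x28a1b), (nat_lit 0x2878d), (nat_lit 0x28723)⟩,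
    ⟨(nat_lit 0), (nat_lit 0), (nat_lit 0), (nat_lit 0)⟩,
    ⟨(nat_lit 0x20567ac000), (nat_lit 0x205673c000), (nat_lit 0x205643c000), (nat_lit 0x20563cc000)⟩,
    ⟨(nat_lit 0x28a41), (nat_lit 0x289d7), (nat_lit 0x28749), (nat_lit 0x286df)⟩,
    ⟨(nat_lit 0x2077f44000), (nat_lit 0x2077e6c000), (nat_lit 0x207788c000), (nat_lit 0x20777b4000)⟩,
    (nat_lit 0x286df), (nat_lit 0x28a85)⟩) (.lf ⟨⟨(nat_lit 0x2077fd6000), (nat_lit 0x2077efe000), (nat_lit 0x207791e000), (nat_lit 0x2077846000)⟩,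
    ⟨(nat_lit 0x293e8), (nat_lit 0x29354), (nat_lit 0x28edc), (nat_lit 0x28e48)⟩,
    ⟨(nat_lit 0x2056804000), (nat_lit 0x2056794000), (nat_lit 0x2056494000), (nat_lit 0x2056424000)⟩,
    ⟨(nat_lit 0x2077f44000), (nat_lit 0x2077e6c000), (nat_lit 0x207788c000), (nat_lit 0x20777b4000)⟩,
    ⟨(nat_lit 0x29440), (nat_lit 0x293ac), (nat_lit 0x28f34), (nat_lit 0x28ea0)⟩,
    ⟨(nat_lit 0), (nat_lit 0), (nat_lit 0), (nat_lit 0)⟩,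
    (nat_lit 0x28e48), (nat_lit 0x29440)⟩)) (.nd (.lf ⟨⟨(nat_lit 0x2000000000), (nat_lit 0x2000000000), (nat_lit 0x2000000000), (nat_lit 0x2000000000)⟩,
    ⟨(nat_lit 0x100000), (nat_lit 0x100000), (nat_lit 0x100000), (nat_lit 0x100000)⟩,
    ⟨(nat_lit 0), (nat_lit 0), (nat_lit 0), (nat_lit 0)⟩,
    ⟨(nat_lit 0x2000000000), (nat_lit 0x2000000000), (nat_lit 0x2000000000), (nat_lit 0x2000000000)⟩,
    ⟨(nat_lit 0x100000), (nat_lit 0x100000), (nat_lit 0x100000), (nat_lit 0x100000)⟩,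
    ⟨(nat_lit 0x20cc3b1000), (nat_lit 0x20cc141000), (nat_lit 0x20cb03d000), (nat_lit 0x20cadcd000)⟩,
    (nat_lit 0x100000), (nat_lit 0x100000)⟩) (.lf ⟨⟨(nat_lit 0x20cc51d000), (nat_lit 0x20cc2ad000), (nat_lit 0x20cb1a9000), (nat_lit 0x20caf39000)⟩,
    ⟨(nat_lit 0xf2ade), (nat_lit 0xf2516), (nat_lit 0xefe28), (nat_lit 0xef860)⟩,
    ⟨(nat_lit 0x2000000000), (nat_lit 0x2000000000), (nat_lit 0x2000000000), (nat_lit 0x2000000000)⟩,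
    ⟨(nat_lit 0x20cc3b1000), (nat_lit 0x20cc141000), (nat_lit 0x20cb03d000), (nat_lit 0x20cadcd000)⟩,
    ⟨(nat_lit 0xf2e00), (nat_lit 0xf2838), (nat_lit 0xf014a), (nat_lit 0xefb82)⟩,
    ⟨(nat_lit 0), (nat_lit 0), (nat_lit 0), (nat_lit 0)⟩,
    (nat_lit 0xef860), (nat_lit 0xf2e00)⟩)))
  nx := .nd (.nd (.lf (nat_lit 64)) (.lf (nat_lit 57))) (.nd (.lf (nat_lit 122)) (.lf (nat_lit 117)))
  mir := (nat_lit 116)

noncomputable def cx118 : CtxD where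
  sd := .nd (.nd (.nd (.lf ⟨⟨(nat_lit 0x2000000000), (nat_lit 0x2000000000), (nat_lit 0x2000000000), (nat_lit 0x2000000000)⟩,
    ⟨(nat_lit 0x21b72), (nat_lit 0x21b72), (nat_lit 0x21b72), (nat_lit 0x21b72)⟩,
    ⟨(nat_lit 0), (nat_lit 0), (nat_lit 0), (nat_lit 0)⟩,
    ⟨(nat_lit 0x2000000000), (nat_lit 0x2000000000), (nat_lit 0x2000000000), (nat_lit 0x2000000000)⟩,
    ⟨(nat_lit 0x21b70), (nat_lit 0x21b70), (nat_lit 0x21b70), (nat_lit 0x21b70)⟩,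
    ⟨(nat_lit 0x20311e5000), (nat_lit 0x20311cf000), (nat_lit 0x203129d000), (nat_lit 0x2031287000)⟩,
    (nat_lit 0x21b70), (nat_lit 0x21b72)⟩) (.lf ⟨⟨(nat_lit 0x20311fd000), (nat_lit 0x20311e7000), (nat_lit 0x20312b5000), (nat_lit 0x203129f000)⟩,
    ⟨(nat_lit 0x6c3da), (nat_lit 0x6c376), (nat_lit 0x6c70a), (nat_lit 0x6c6a6)⟩,
    ⟨(nat_lit 0x2000000000), (nat_lit 0x2000000000), (nat_lit 0x2000000000), (nat_lit 0x2000000000)⟩,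
    ⟨(nat_lit 0x20311e5000), (nat_lit 0x20311cf000), (nat_lit 0x203129d000), (nat_lit 0x2031287000)⟩,
    ⟨(nat_lit 0x6c41e), (nat_lit 0x6c3ba), (nat_lit 0x6c74e), (nat_lit 0x6c6ea)⟩,
    ⟨(nat_lit 0), (nat_lit 0), (nat_lit 0), (nat_lit 0)⟩,
    (nat_lit 0x6c376), (nat_lit 0x6c74e)⟩)) (.nd (.lf ⟨⟨(nat_lit 0x20a2e70000), (nat_lit 0x20a2d74000), (nat_lit 0x20a34d6000), (nat_lit 0x20a33da000)⟩,
    ⟨(nat_lit 0x6d4a7), (nat_lit 0x6d355), (nat_lit 0x6dc4f), (nat_lit 0x6dafd)⟩,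
    ⟨(nat_lit 0), (nat_lit 0), (nat_lit 0), (nat_lit 0)⟩,
    ⟨(nat_lit 0x20a2e1e000), (nat_lit 0x20a2d22000), (nat_lit 0x20a3484000), (nat_lit 0x20a3388000)⟩,
    ⟨(nat_lit 0x6d44d), (nat_lit 0x6d2fb), (nat_lit 0x6dbf5), (nat_lit 0x6daa3)⟩,
    ⟨(nat_lit 0x20d5240000), (nat_lit 0x20d5092000), (nat_lit 0x20d5cea000), (nat_lit 0x20d5b3c000)⟩,
    (nat_lit 0x6d2fb), (nat_lit 0x6dc4f)⟩) (.lf ⟨⟨(nat_lit 0x20d52b6000), (nat_lit 0x20d5108000), (nat_lit 0x20d5d60000), (nat_lit 0x20d5bb2000)⟩,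
    ⟨(nat_lit 0x22f48), (nat_lit 0x22eba), (nat_lit 0x232c4), (nat_lit 0x23236)⟩,
    ⟨(nat_lit 0x20a2e70000), (nat_lit 0x20a2d74000), (nat_lit 0x20a34d6000), (nat_lit 0x20a33da000)⟩,
    ⟨(nat_lit 0x20d5240000), (nat_lit 0x20d5092000), (nat_lit 0x20d5cea000), (nat_lit 0x20d5b3c000)⟩,
    ⟨(nat_lit 0x22f6c), (nat_lit 0x22ede), (nat_lit 0x232e8), (nat_lit 0x2325a)⟩,
    ⟨(nat_lit 0), (nat_lit 0), (nat_lit 0), (nat_lit 0)⟩,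
    (nat_lit 0x22eba), (nat_lit 0x232e8)⟩))) (.nd (.nd (.lf ⟨⟨(nat_lit 0x205840f000), (nat_lit 0x20583c5000), (nat_lit 0x20585fb000), (nat_lit 0x20585b1000)⟩,
    ⟨(nat_lit 0x2ab47), (nat_lit 0x2aaff), (nat_lit 0x2ad39), (nat_lit 0x2acf1)⟩,
    ⟨(nat_lit 0), (nat_lit 0), (nat_lit 0), (nat_lit 0)⟩,
    ⟨(nat_lit 0x20583e5000), (nat_lit 0x205839b000), (nat_lit 0x20585d1000), (nat_lit 0x2058587000)⟩,
    ⟨(nat_lit 0x2ab29), (nat_lit 0x2aae1), (nat_lit 0x2ad1b), (nat_lit 0x2acd3)⟩,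
    ⟨(nat_lit 0x207b253000), (nat_lit 0x207b1c3000), (nat_lit 0x207b5fb000), (nat_lit 0x207b56b000)⟩,
    (nat_lit 0x2aae1), (nat_lit 0x2ad39)⟩) (.lf ⟨⟨(nat_lit 0x207b28f000), (nat_lit 0x207b1ff000), (nat_lit 0x207b637000), (nat_lit 0x207b5a7000)⟩,
    ⟨(nat_lit 0x2aae2), (nat_lit 0x2aa7e), (nat_lit 0x2ad30), (nat_lit 0x2accc)⟩,
    ⟨(nat_lit 0x205840f000), (nat_lit 0x20583c5000), (nat_lit 0x20585fb000), (nat_lit 0x20585b1000)⟩,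
    ⟨(nat_lit 0x207b253000), (nat_lit 0x207b1c3000), (nat_lit 0x207b5fb000), (nat_lit 0x207b56b000)⟩,
    ⟨(nat_lit 0x2ab02), (nat_lit 0x2aa9e), (nat_lit 0x2ad50), (nat_lit 0x2acec)⟩,
    ⟨(nat_lit 0), (nat_lit 0), (nat_lit 0), (nat_lit 0)⟩,
    (nat_lit 0x2aa7e), (nat_lit 0x2ad50)⟩)) (.nd (.lf ⟨⟨(nat_lit 0x2000000000), (nat_lit 0x2000000000), (nat_lit 0x2000000000), (nat_lit 0x2000000000)⟩,
    ⟨(nat_lit 0x100000), (nat_lit 0x100000), (nat_lit 0x100000), (nat_lit 0x100000)⟩,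
    ⟨(nat_lit 0), (nat_lit 0), (nat_lit 0), (nat_lit 0)⟩,
    ⟨(nat_lit 0x2000000000), (nat_lit 0x2000000000), (nat_lit 0x2000000000), (nat_lit 0x2000000000)⟩,
    ⟨(nat_lit 0x100000), (nat_lit 0x100000), (nat_lit 0x100000), (nat_lit 0x100000)⟩,
    ⟨(nat_lit 0x20d5240000), (nat_lit 0x20d5092000), (nat_lit 0x20d5cea000), (nat_lit 0x20d5b3c000)⟩,
    (nat_lit 0x100000), (nat_lit 0x100000)⟩) (.lf ⟨⟨(nat_lit 0x20d52b6000), (nat_lit 0x20d5108000), (nat_lit 0x20d5d60000), (nat_lit 0x20d5bb2000)⟩,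
    ⟨(nat_lit 0x1096b7), (nat_lit 0x109285), (nat_lit 0x10b125), (nat_lit 0x10acf3)⟩,
    ⟨(nat_lit 0x2000000000), (nat_lit 0x2000000000), (nat_lit 0x2000000000), (nat_lit 0x2000000000)⟩,
    ⟨(nat_lit 0x20d5240000), (nat_lit 0x20d5092000), (nat_lit 0x20d5cea000), (nat_lit 0x20d5b3c000)⟩,
    ⟨(nat_lit 0x1097b3), (nat_lit 0x109381), (nat_lit 0x10b221), (nat_lit 0x10adef)⟩,
    ⟨(nat_lit 0), (nat_lit 0), (nat_lit 0), (nat_lit 0)⟩,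
    (nat_lit 0x109285), (nat_lit 0x10b221)⟩)))
  nx := .nd (.nd (.lf (nat_lit 58)) (.lf (nat_lit 63))) (.nd (.lf (nat_lit 124)) (.lf (nat_lit 118)))
  mir := (nat_lit 119)

noncomputable def cx119 : CtxD where
  sd := .nd (.nd (.nd (.lf ⟨⟨(nat_lit 0x2000000000), (nat_lit 0x2000000000), (nat_lit 0x2000000000), (nat_lit 0x2000000000)⟩,
    ⟨(nat_lit 0x21b72), (nat_lit 0x21b72), (nat_lit 0x21b72), (nat_lit 0x21b72)⟩,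
    ⟨(nat_lit 0), (nat_lit 0), (nat_lit 0), (nat_lit 0)⟩,
    ⟨(nat_lit 0x2000000000), (nat_lit 0x2000000000), (nat_lit 0x2000000000), (nat_lit 0x2000000000)⟩,
    ⟨(nat_lit 0x21b70), (nat_lit 0x21b70), (nat_lit 0x21b70), (nat_lit 0x21b70)⟩,
    ⟨(nat_lit 0x20306e9000), (nat_lit 0x20306d1000), (nat_lit 0x203079f000), (nat_lit 0x2030787000)⟩,
    (nat_lit 0x21b70), (nat_lit 0x21b72)⟩) (.lf ⟨⟨(nat_lit 0x2030701000), (nat_lit 0x20306e9000), (nat_lit 0x20307b7000), (nat_lit 0x203079f000)⟩,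
    ⟨(nat_lit 0x69364), (nat_lit 0x69300), (nat_lit 0x6967c), (nat_lit 0x69618)⟩,
    ⟨(nat_lit 0x2000000000), (nat_lit 0x2000000000), (nat_lit 0x2000000000), (nat_lit 0x2000000000)⟩,
    ⟨(nat_lit 0x20306e9000), (nat_lit 0x20306d1000), (nat_lit 0x203079f000), (nat_lit 0x2030787000)⟩,
    ⟨(nat_lit 0x693a8), (nat_lit 0x69344), (nat_lit 0x696c0), (nat_lit 0x6965c)⟩,
    ⟨(nat_lit 0), (nat_lit 0), (nat_lit 0), (nat_lit 0)⟩,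
    (nat_lit 0x69300), (nat_lit 0x696c0)⟩)) (.nd (.lf ⟨⟨(nat_lit 0x209de18000), (nat_lit 0x209dd22000), (nat_lit 0x209e438000), (nat_lit 0x209e342000)⟩,
    ⟨(nat_lit 0x6807b), (nat_lit 0x67f37), (nat_lit 0x687c3), (nat_lit 0x6867f)⟩,
    ⟨(nat_lit 0), (nat_lit 0), (nat_lit 0), (nat_lit 0)⟩,
    ⟨(nat_lit 0x209ddc6000), (nat_lit 0x209dcd0000), (nat_lit 0x209e3e6000), (nat_lit 0x209e2f0000)⟩,
    ⟨(nat_lit 0x68023), (nat_lit 0x67edf), (nat_lit 0x6876b), (nat_lit 0x68627)⟩,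
    ⟨(nat_lit 0x20cd052000), (nat_lit 0x20cceb4000), (nat_lit 0x20cda72000), (nat_lit 0x20cd8d4000)⟩,
    (nat_lit 0x67edf), (nat_lit 0x687c3)⟩) (.lf ⟨⟨(nat_lit 0x20cd0c8000), (nat_lit 0x20ccf2a000), (nat_lit 0x20cdae8000), (nat_lit 0x20cd94a000)⟩,
    ⟨(nat_lit 0x20575), (nat_lit 0x204f3), (nat_lit 0x208ad), (nat_lit 0x2082b)⟩,
    ⟨(nat_lit 0x209de18000), (nat_lit 0x209dd22000), (nat_lit 0x209e438000), (nat_lit 0x209e342000)⟩,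
    ⟨(nat_lit 0x20cd052000), (nat_lit 0x20cceb4000), (nat_lit 0x20cda72000), (nat_lit 0x20cd8d4000)⟩,
    ⟨(nat_lit 0x20597), (nat_lit 0x20515), (nat_lit 0x208cf), (nat_lit 0x2084d)⟩,
    ⟨(nat_lit 0), (nat_lit 0), (nat_lit 0), (nat_lit 0)⟩,
    (nat_lit 0x204f3), (nat_lit 0x208cf)⟩))) (.nd (.nd (.lf ⟨⟨(nat_lit 0x2056b45000), (nat_lit 0x2056afb000), (nat_lit 0x2056d25000), (nat_lit 0x2056cdb000)⟩,
    ⟨(nat_lit 0x29118), (nat_lit 0x290d2), (nat_lit 0x292f6), (nat_lit 0x292b0)⟩,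
    ⟨(nat_lit 0), (nat_lit 0), (nat_lit 0), (nat_lit 0)⟩,
    ⟨(nat_lit 0x2056b1d000), (nat_lit 0x2056ad3000), (nat_lit 0x2056cfd000), (nat_lit 0x2056cb3000)⟩,
    ⟨(nat_lit 0x290fa), (nat_lit 0x290b4), (nat_lit 0x292d8), (nat_lit 0x29292)⟩,
    ⟨(nat_lit 0x2078442000), (nat_lit 0x20783b4000), (nat_lit 0x20787cc000), (nat_lit 0x207873e000)⟩,
    (nat_lit 0x290b4), (nat_lit 0x292f6)⟩) (.lf ⟨⟨(nat_lit 0x207847c000), (nat_lit 0x20783ee000), (nat_lit 0x2078806000), (nat_lit 0x2078778000)⟩,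
    ⟨(nat_lit 0x29100), (nat_lit 0x2909e), (nat_lit 0x29336), (nat_lit 0x292d4)⟩,
    ⟨(nat_lit 0x2056b45000), (nat_lit 0x2056afb000), (nat_lit 0x2056d25000), (nat_lit 0x2056cdb000)⟩,
    ⟨(nat_lit 0x2078442000), (nat_lit 0x20783b4000), (nat_lit 0x20787cc000), (nat_lit 0x207873e000)⟩,
    ⟨(nat_lit 0x29120), (nat_lit 0x290be), (nat_lit 0x29356), (nat_lit 0x292f4)⟩,
    ⟨(nat_lit 0), (nat_lit 0), (nat_lit 0), (nat_lit 0)⟩,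
    (nat_lit 0x2909e), (nat_lit 0x29356)⟩)) (.nd (.lf ⟨⟨(nat_lit 0x2000000000), (nat_lit 0x2000000000), (nat_lit 0x2000000000), (nat_lit 0x2000000000)⟩,
    ⟨(nat_lit 0x100000), (nat_lit 0x100000), (nat_lit 0x100000), (nat_lit 0x100000)⟩,
    ⟨(nat_lit 0), (nat_lit 0), (nat_lit 0), (nat_lit 0)⟩,
    ⟨(nat_lit 0x2000000000), (nat_lit 0x2000000000), (nat_lit 0x2000000000), (nat_lit 0x2000000000)⟩,
    ⟨(nat_lit 0x100000), (nat_lit 0x100000), (nat_lit 0x100000), (nat_lit 0x100000)⟩,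
    ⟨(nat_lit 0x20cd052000), (nat_lit 0x20cceb4000), (nat_lit 0x20cda72000), (nat_lit 0x20cd8d4000)⟩,
    (nat_lit 0x100000), (nat_lit 0x100000)⟩) (.lf ⟨⟨(nat_lit 0x20cd0c8000), (nat_lit 0x20ccf2a000), (nat_lit 0x20cdae8000), (nat_lit 0x20cd94a000)⟩,
    ⟨(nat_lit 0xf5920), (nat_lit 0xf553e), (nat_lit 0xf7194), (nat_lit 0xf6db2)⟩,
    ⟨(nat_lit 0x2000000000), (nat_lit 0x2000000000), (nat_lit 0x2000000000), (nat_lit 0x2000000000)⟩,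
    ⟨(nat_lit 0x20cd052000), (nat_lit 0x20cceb4000), (nat_lit 0x20cda72000), (nat_lit 0x20cd8d4000)⟩,
    ⟨(nat_lit 0xf5a12), (nat_lit 0xf5630), (nat_lit 0xf7286), (nat_lit 0xf6ea4)⟩,
    ⟨(nat_lit 0), (nat_lit 0), (nat_lit 0), (nat_lit 0)⟩,
    (nat_lit 0xf553e), (nat_lit 0xf7286)⟩)))
  nx := .nd (.nd (.lf (nat_lit 62)) (.lf (nat_lit 59))) (.nd (.lf (nat_lit 125)) (.lf (nat_lit 119)))
  mir := (nat_lit 118)

noncomputable def cx120 : CtxD where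
  sd := .nd (.nd (.nd (.lf ⟨⟨(nat_lit 0x2000000000), (nat_lit 0x2000000000), (nat_lit 0x2000000000), (nat_lit 0x2000000000)⟩,
    ⟨(nat_lit 0x21b72), (nat_lit 0x21b72), (nat_lit 0x21b72), (nat_lit 0x21b72)⟩,
    ⟨(nat_lit 0), (nat_lit 0), (nat_lit 0), (nat_lit 0)⟩,
    ⟨(nat_lit 0x2000000000), (nat_lit 0x2000000000), (nat_lit 0x2000000000), (nat_lit 0x2000000000)⟩,
    ⟨(nat_lit 0x21b70), (nat_lit 0x21b70), (nat_lit 0x21b70), (nat_lit 0x21b70)⟩,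
    ⟨(nat_lit 0x2031111000), (nat_lit 0x20310f1000), (nat_lit 0x203116b000), (nat_lit 0x203114b000)⟩,
    (nat_lit 0x21b70), (nat_lit 0x21b72)⟩) (.lf ⟨⟨(nat_lit 0x2031129000), (nat_lit 0x2031109000), (nat_lit 0x2031183000), (nat_lit 0x2031163000)⟩,
    ⟨(nat_lit 0x6c02b), (nat_lit 0x6bf9d), (nat_lit 0x6c1bd), (nat_lit 0x6c12f)⟩,
    ⟨(nat_lit 0x2000000000), (nat_lit 0x2000000000), (nat_lit 0x2000000000), (nat_lit 0x2000000000)⟩,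
    ⟨(nat_lit 0x2031111000), (nat_lit 0x20310f1000), (nat_lit 0x203116b000), (nat_lit 0x203114b000)⟩,
    ⟨(nat_lit 0x6c06f), (nat_lit 0x6bfe1), (nat_lit 0x6c201), (nat_lit 0x6c173)⟩,
    ⟨(nat_lit 0), (nat_lit 0), (nat_lit 0), (nat_lit 0)⟩,
    (nat_lit 0x6bf9d), (nat_lit 0x6c201)⟩)) (.nd (.lf ⟨⟨(nat_lit 0x20a2822000), (nat_lit 0x20a26c0000), (nat_lit 0x20a2a88000), (nat_lit 0x20a2926000)⟩,
    ⟨(nat_lit 0x6cdeb), (nat_lit 0x6cc0f), (nat_lit 0x6d03b), (nat_lit 0x6ce5f)⟩,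
    ⟨(nat_lit 0), (nat_lit 0), (nat_lit 0), (nat_lit 0)⟩,
    ⟨(nat_lit 0x20a27cc000), (nat_lit 0x20a266a000), (nat_lit 0x20a2a32000), (nat_lit 0x20a28d0000)⟩,
    ⟨(nat_lit 0x6cd91), (nat_lit 0x6cbb5), (nat_lit 0x6cfe1), (nat_lit 0x6ce05)⟩,
    ⟨(nat_lit 0x20d47ff000), (nat_lit 0x20d45a1000), (nat_lit 0x20d4bd1000), (nat_lit 0x20d4973000)⟩,
    (nat_lit 0x6cbb5), (nat_lit 0x6d03b)⟩) (.lf ⟨⟨(nat_lit 0x20d4879000), (nat_lit 0x20d461b000), (nat_lit 0x20d4c4b000), (nat_lit 0x20d49ed000)⟩,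
    ⟨(nat_lit 0x22bf8), (nat_lit 0x22b32), (nat_lit 0x22d32), (nat_lit 0x22c6c)⟩,
    ⟨(nat_lit 0x20a2822000), (nat_lit 0x20a26c0000), (nat_lit 0x20a2a88000), (nat_lit 0x20a2926000)⟩,
    ⟨(nat_lit 0x20d47ff000), (nat_lit 0x20d45a1000), (nat_lit 0x20d4bd1000), (nat_lit 0x20d4973000)⟩,
    ⟨(nat_lit 0x22c1c), (nat_lit 0x22b56), (nat_lit 0x22d56), (nat_lit 0x22c90)⟩,
    ⟨(nat_lit 0), (nat_lit 0), (nat_lit 0), (nat_lit 0)⟩,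
    (nat_lit 0x22b32), (nat_lit 0x22d56)⟩))) (.nd (.nd (.lf ⟨⟨(nat_lit 0x2058220000), (nat_lit 0x20581b8000), (nat_lit 0x20582e0000), (nat_lit 0x2058278000)⟩,
    ⟨(nat_lit 0x2a93d), (nat_lit 0x2a8d9), (nat_lit 0x2aa0d), (nat_lit 0x2a9a9)⟩,
    ⟨(nat_lit 0), (nat_lit 0), (nat_lit 0), (nat_lit 0)⟩,
    ⟨(nat_lit 0x20581f6000), (nat_lit 0x205818e000), (nat_lit 0x20582b6000), (nat_lit 0x205824e000)⟩,
    ⟨(nat_lit 0x2a91f), (nat_lit 0x2a8bb), (nat_lit 0x2a9ef), (nat_lit 0x2a98b)⟩,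
    ⟨(nat_lit 0x207aeb6000), (nat_lit 0x207adec000), (nat_lit 0x207b016000), (nat_lit 0x207af4c000)⟩,
    (nat_lit 0x2a8bb), (nat_lit 0x2aa0d)⟩) (.lf ⟨⟨(nat_lit 0x207aef2000), (nat_lit 0x207ae28000), (nat_lit 0x207b052000), (nat_lit 0x207af88000)⟩,
    ⟨(nat_lit 0x2a8d1), (nat_lit 0x2a845), (nat_lit 0x2a98b), (nat_lit 0x2a8ff)⟩,
    ⟨(nat_lit 0x2058220000), (nat_lit 0x20581b8000), (nat_lit 0x20582e0000), (nat_lit 0x2058278000)⟩,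
    ⟨(nat_lit 0x207aeb6000), (nat_lit 0x207adec000), (nat_lit 0x207b016000), (nat_lit 0x207af4c000)⟩,
    ⟨(nat_lit 0x2a8f1), (nat_lit 0x2a865), (nat_lit 0x2a9ab), (nat_lit 0x2a91f)⟩,
    ⟨(nat_lit 0), (nat_lit 0), (nat_lit 0), (nat_lit 0)⟩,
    (nat_lit 0x2a845), (nat_lit 0x2a9ab)⟩)) (.nd (.lf ⟨⟨(nat_lit 0x2000000000), (nat_lit 0x2000000000), (nat_lit 0x2000000000), (nat_lit 0x2000000000)⟩,
    ⟨(nat_lit 0x100000), (nat_lit 0x100000), (nat_lit 0x100000), (nat_lit 0x100000)⟩,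
    ⟨(nat_lit 0), (nat_lit 0), (nat_lit 0), (nat_lit 0)⟩,
    ⟨(nat_lit 0x2000000000), (nat_lit 0x2000000000), (nat_lit 0x2000000000), (nat_lit 0x2000000000)⟩,
    ⟨(nat_lit 0x100000), (nat_lit 0x100000), (nat_lit 0x100000), (nat_lit 0x100000)⟩,
    ⟨(nat_lit 0x20d47ff000), (nat_lit 0x20d45a1000), (nat_lit 0x20d4bd1000), (nat_lit 0x20d4973000)⟩,
    (nat_lit 0x100000), (nat_lit 0x100000)⟩) (.lf ⟨⟨(nat_lit 0x20d4879000), (nat_lit 0x20d461b000), (nat_lit 0x20d4c4b000), (nat_lit 0x20d49ed000)⟩,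
    ⟨(nat_lit 0x107d91), (nat_lit 0x1077ad), (nat_lit 0x1086dd), (nat_lit 0x1080f9)⟩,
    ⟨(nat_lit 0x2000000000), (nat_lit 0x2000000000), (nat_lit 0x2000000000), (nat_lit 0x2000000000)⟩,
    ⟨(nat_lit 0x20d47ff000), (nat_lit 0x20d45a1000), (nat_lit 0x20d4bd1000), (nat_lit 0x20d4973000)⟩,
    ⟨(nat_lit 0x107e8f), (nat_lit 0x1078ab), (nat_lit 0x1087db), (nat_lit 0x1081f7)⟩,
    ⟨(nat_lit 0), (nat_lit 0), (nat_lit 0), (nat_lit 0)⟩,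
    (nat_lit 0x1077ad), (nat_lit 0x1087db)⟩)))
  nx := .nd (.nd (.lf (nat_lit 58)) (.lf (nat_lit 63))) (.nd (.lf (nat_lit 124)) (.lf (nat_lit 120)))
  mir := (nat_lit 121)

noncomputable def cx121 : CtxD where
  sd := .nd (.nd (.nd (.lf ⟨⟨(nat_lit 0x2000000000), (nat_lit 0x2000000000), (nat_lit 0x2000000000), (nat_lit 0x2000000000)⟩,
    ⟨(nat_lit 0x21b72), (nat_lit 0x21b72), (nat_lit 0x21b72), (nat_lit 0x21b72)⟩,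
    ⟨(nat_lit 0), (nat_lit 0), (nat_lit 0), (nat_lit 0)⟩,
    ⟨(nat_lit 0x2000000000), (nat_lit 0x2000000000), (nat_lit 0x2000000000), (nat_lit 0x2000000000)⟩,
    ⟨(nat_lit 0x21b70), (nat_lit 0x21b70), (nat_lit 0x21b70), (nat_lit 0x21b70)⟩,
    ⟨(nat_lit 0x203081f000), (nat_lit 0x20307ff000), (nat_lit 0x2030875000), (nat_lit 0x2030855000)⟩,
    (nat_lit 0x21b70), (nat_lit 0x21b72)⟩) (.lf ⟨⟨(nat_lit 0x2030837000), (nat_lit 0x2030817000), (nat_lit 0x203088d000), (nat_lit 0x203086d000)⟩,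
    ⟨(nat_lit 0x698af), (nat_lit 0x69821), (nat_lit 0x69a29), (nat_lit 0x6999b)⟩,
    ⟨(nat_lit 0x2000000000), (nat_lit 0x2000000000), (nat_lit 0x2000000000), (nat_lit 0x2000000000)⟩,
    ⟨(nat_lit 0x203081f000), (nat_lit 0x20307ff000), (nat_lit 0x2030875000), (nat_lit 0x2030855000)⟩,
    ⟨(nat_lit 0x698f3), (nat_lit 0x69865), (nat_lit 0x69a6d), (nat_lit 0x699df)⟩,
    ⟨(nat_lit 0), (nat_lit 0), (nat_lit 0), (nat_lit 0)⟩,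
    (nat_lit 0x69821), (nat_lit 0x69a6d)⟩)) (.nd (.lf ⟨⟨(nat_lit 0x209e858000), (nat_lit 0x209e6fa000), (nat_lit 0x209ea92000), (nat_lit 0x209e934000)⟩,
    ⟨(nat_lit 0x68c7f), (nat_lit 0x68ab3), (nat_lit 0x68ea9), (nat_lit 0x68cdd)⟩,
    ⟨(nat_lit 0), (nat_lit 0), (nat_lit 0), (nat_lit 0)⟩,
    ⟨(nat_lit 0x209e804000), (nat_lit 0x209e6a6000), (nat_lit 0x209ea3e000), (nat_lit 0x209e8e0000)⟩,
    ⟨(nat_lit 0x68c29), (nat_lit 0x68a5d), (nat_lit 0x68e53), (nat_lit 0x68c87)⟩,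
    ⟨(nat_lit 0x20ce138000), (nat_lit 0x20cdeea000), (nat_lit 0x20ce4c8000), (nat_lit 0x20ce27a000)⟩,
    (nat_lit 0x68a5d), (nat_lit 0x68ea9)⟩) (.lf ⟨⟨(nat_lit 0x20ce1b0000), (nat_lit 0x20cdf62000), (nat_lit 0x20ce540000), (nat_lit 0x20ce2f2000)⟩,
    ⟨(nat_lit 0x20ad8), (nat_lit 0x20a1e), (nat_lit 0x20bfe), (nat_lit 0x20b44)⟩,
    ⟨(nat_lit 0x209e858000), (nat_lit 0x209e6fa000), (nat_lit 0x209ea92000), (nat_lit 0x209e934000)⟩,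
    ⟨(nat_lit 0x20ce138000), (nat_lit 0x20cdeea000), (nat_lit 0x20ce4c8000), (nat_lit 0x20ce27a000)⟩,
    ⟨(nat_lit 0x20afa), (nat_lit 0x20a40), (nat_lit 0x20c20), (nat_lit 0x20b66)⟩,
    ⟨(nat_lit 0), (nat_lit 0), (nat_lit 0), (nat_lit 0)⟩,
    (nat_lit 0x20a1e), (nat_lit 0x20c20)⟩))) (.nd (.nd (.lf ⟨⟨(nat_lit 0x2056e69000), (nat_lit 0x2056e01000), (nat_lit 0x2056f1b000), (nat_lit 0x2056eb3000)⟩,
    ⟨(nat_lit 0x2943f), (nat_lit 0x293db), (nat_lit 0x294ff), (nat_lit 0x2949b)⟩,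
    ⟨(nat_lit 0), (nat_lit 0), (nat_lit 0), (nat_lit 0)⟩,
    ⟨(nat_lit 0x2056e3d000), (nat_lit 0x2056dd5000), (nat_lit 0x2056eef000), (nat_lit 0x2056e87000)⟩,
    ⟨(nat_lit 0x29421), (nat_lit 0x293bd), (nat_lit 0x294e1), (nat_lit 0x2947d)⟩,
    ⟨(nat_lit 0x2078a2a000), (nat_lit 0x2078960000), (nat_lit 0x2078b70000), (nat_lit 0x2078aa6000)⟩,
    (nat_lit 0x293bd), (nat_lit 0x294ff)⟩) (.lf ⟨⟨(nat_lit 0x2078a68000), (nat_lit 0x207899e000), (nat_lit 0x2078bae000), (nat_lit 0x2078ae4000)⟩,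
    ⟨(nat_lit 0x294a6), (nat_lit 0x2941c), (nat_lit 0x29552), (nat_lit 0x294c8)⟩,
    ⟨(nat_lit 0x2056e69000), (nat_lit 0x2056e01000), (nat_lit 0x2056f1b000), (nat_lit 0x2056eb3000)⟩,
    ⟨(nat_lit 0x2078a2a000), (nat_lit 0x2078960000), (nat_lit 0x2078b70000), (nat_lit 0x2078aa6000)⟩,
    ⟨(nat_lit 0x294c6), (nat_lit 0x2943c), (nat_lit 0x29572), (nat_lit 0x294e8)⟩,
    ⟨(nat_lit 0), (nat_lit 0), (nat_lit 0), (nat_lit 0)⟩,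
    (nat_lit 0x2941c), (nat_lit 0x29572)⟩)) (.nd (.lf ⟨⟨(nat_lit 0x2000000000), (nat_lit 0x2000000000), (nat_lit 0x2000000000), (nat_lit 0x2000000000)⟩,
    ⟨(nat_lit 0x100000), (nat_lit 0x100000), (nat_lit 0x100000), (nat_lit 0x100000)⟩,
    ⟨(nat_lit 0), (nat_lit 0), (nat_lit 0), (nat_lit 0)⟩,
    ⟨(nat_lit 0x2000000000), (nat_lit 0x2000000000), (nat_lit 0x2000000000), (nat_lit 0x2000000000)⟩,
    ⟨(nat_lit 0x100000), (nat_lit 0x100000), (nat_lit 0x100000), (nat_lit 0x100000)⟩,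
    ⟨(nat_lit 0x20ce138000), (nat_lit 0x20cdeea000), (nat_lit 0x20ce4c8000), (nat_lit 0x20ce27a000)⟩,
    (nat_lit 0x100000), (nat_lit 0x100000)⟩) (.lf ⟨⟨(nat_lit 0x20ce1b0000), (nat_lit 0x20cdf62000), (nat_lit 0x20ce540000), (nat_lit 0x20ce2f2000)⟩,
    ⟨(nat_lit 0xf8206), (nat_lit 0xf7c7c), (nat_lit 0xf8ac6), (nat_lit 0xf853c)⟩,
    ⟨(nat_lit 0x2000000000), (nat_lit 0x2000000000), (nat_lit 0x2000000000), (nat_lit 0x2000000000)⟩,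
    ⟨(nat_lit 0x20ce138000), (nat_lit 0x20cdeea000), (nat_lit 0x20ce4c8000), (nat_lit 0x20ce27a000)⟩,
    ⟨(nat_lit 0xf82f8), (nat_lit 0xf7d6e), (nat_lit 0xf8bb8), (nat_lit 0xf862e)⟩,
    ⟨(nat_lit 0), (nat_lit 0), (nat_lit 0), (nat_lit 0)⟩,
    (nat_lit 0xf7c7c), (nat_lit 0xf8bb8)⟩)))
  nx := .nd (.nd (.lf (nat_lit 62)) (.lf (nat_lit 59))) (.nd (.lf (nat_lit 125)) (.lf (nat_lit 121)))
  mir := (nat_lit 120)

noncomputable def cx122 : CtxD where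
  sd := .nd (.nd (.nd (.lf ⟨⟨(nat_lit 0x2000000000), (nat_lit 0x2000000000), (nat_lit 0x2000000000), (nat_lit 0x2000000000)⟩,
    ⟨(nat_lit 0x21b72), (nat_lit 0x21b72), (nat_lit 0x21b72), (nat_lit 0x21b72)⟩,
    ⟨(nat_lit 0), (nat_lit 0), (nat_lit 0), (nat_lit 0)⟩,
    ⟨(nat_lit 0x2000000000), (nat_lit 0x2000000000), (nat_lit 0x2000000000), (nat_lit 0x2000000000)⟩,
    ⟨(nat_lit 0x21b70), (nat_lit 0x21b70), (nat_lit 0x21b70), (nat_lit 0x21b70)⟩,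
    ⟨(nat_lit 0x2030ee6000), (nat_lit 0x2030ec4000), (nat_lit 0x203104a000), (nat_lit 0x2031028000)⟩,
    (nat_lit 0x21b70), (nat_lit 0x21b72)⟩) (.lf ⟨⟨(nat_lit 0x2030f00000), (nat_lit 0x2030ede000), (nat_lit 0x2031064000), (nat_lit 0x2031042000)⟩,
    ⟨(nat_lit 0x6b69d), (nat_lit 0x6b605), (nat_lit 0x6bcbd), (nat_lit 0x6bc25)⟩,
    ⟨(nat_lit 0x2000000000), (nat_lit 0x2000000000), (nat_lit 0x2000000000), (nat_lit 0x2000000000)⟩,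
    ⟨(nat_lit 0x2030ee6000), (nat_lit 0x2030ec4000), (nat_lit 0x203104a000), (nat_lit 0x2031028000)⟩,
    ⟨(nat_lit 0x6b6e3), (nat_lit 0x6b64b), (nat_lit 0x6bd03), (nat_lit 0x6bc6b)⟩,
    ⟨(nat_lit 0), (nat_lit 0), (nat_lit 0), (nat_lit 0)⟩,
    (nat_lit 0x6b605), (nat_lit 0x6bd03)⟩)) (.nd (.lf ⟨⟨(nat_lit 0x20a15e0000), (nat_lit 0x20a1466000), (nat_lit 0x20a21e6000), (nat_lit 0x20a206c000)⟩,
    ⟨(nat_lit 0x6b8c0), (nat_lit 0x6b6c8), (nat_lit 0x6c6ea), (nat_lit 0x6c4f2)⟩,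
    ⟨(nat_lit 0), (nat_lit 0), (nat_lit 0), (nat_lit 0)⟩,
    ⟨(nat_lit 0x20a1580000), (nat_lit 0x20a1406000), (nat_lit 0x20a2186000), (nat_lit 0x20a200c000)⟩,
    ⟨(nat_lit 0x6b85c), (nat_lit 0x6b664), (nat_lit 0x6c686), (nat_lit 0x6c48e)⟩,
    ⟨(nat_lit 0x20d29c9000), (nat_lit 0x20d2745000), (nat_lit 0x20d3db3000), (nat_lit 0x20d3b2f000)⟩,
    (nat_lit 0x6b664), (nat_lit 0x6c6ea)⟩) (.lf ⟨⟨(nat_lit 0x20d2a53000), (nat_lit 0x20d27cf000), (nat_lit 0x20d3e3d000), (nat_lit 0x20d3bb9000)⟩,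
    ⟨(nat_lit 0x22237), (nat_lit 0x22165), (nat_lit 0x228a5), (nat_lit 0x227d3)⟩,
    ⟨(nat_lit 0x20a15e0000), (nat_lit 0x20a1466000), (nat_lit 0x20a21e6000), (nat_lit 0x20a206c000)⟩,
    ⟨(nat_lit 0x20d29c9000), (nat_lit 0x20d2745000), (nat_lit 0x20d3db3000), (nat_lit 0x20d3b2f000)⟩,
    ⟨(nat_lit 0x2225f), (nat_lit 0x2218d), (nat_lit 0x228cd), (nat_lit 0x227fb)⟩,
    ⟨(nat_lit 0), (nat_lit 0), (nat_lit 0), (nat_lit 0)⟩,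
    (nat_lit 0x22165), (nat_lit 0x228cd)⟩))) (.nd (.nd (.lf ⟨⟨(nat_lit 0x2057c98000), (nat_lit 0x2057c28000), (nat_lit 0x205803c000), (nat_lit 0x2057fcc000)⟩,
    ⟨(nat_lit 0x2a397), (nat_lit 0x2a32b), (nat_lit 0x2a747), (nat_lit 0x2a6db)⟩,
    ⟨(nat_lit 0), (nat_lit 0), (nat_lit 0), (nat_lit 0)⟩,
    ⟨(nat_lit 0x2057c6a000), (nat_lit 0x2057bfa000), (nat_lit 0x205800e000), (nat_lit 0x2057f9e000)⟩,
    ⟨(nat_lit 0x2a377), (nat_lit 0x2a30b), (nat_lit 0x2a727), (nat_lit 0x2a6bb)⟩,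
    ⟨(nat_lit 0x207a437000), (nat_lit 0x207a35f000), (nat_lit 0x207ab1d000), (nat_lit 0x207aa45000)⟩,
    (nat_lit 0x2a30b), (nat_lit 0x2a747)⟩) (.lf ⟨⟨(nat_lit 0x207a47b000), (nat_lit 0x207a3a3000), (nat_lit 0x207ab61000), (nat_lit 0x207aa89000)⟩,
    ⟨(nat_lit 0x2a264), (nat_lit 0x2a1ce), (nat_lit 0x2a6ac), (nat_lit 0x2a616)⟩,
    ⟨(nat_lit 0x2057c98000), (nat_lit 0x2057c28000), (nat_lit 0x205803c000), (nat_lit 0x2057fcc000)⟩,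
    ⟨(nat_lit 0x207a437000), (nat_lit 0x207a35f000), (nat_lit 0x207ab1d000), (nat_lit 0x207aa45000)⟩,
    ⟨(nat_lit 0x2a288), (nat_lit 0x2a1f2), (nat_lit 0x2a6d0), (nat_lit 0x2a63a)⟩,
    ⟨(nat_lit 0), (nat_lit 0), (nat_lit 0), (nat_lit 0)⟩,
    (nat_lit 0x2a1ce), (nat_lit 0x2a6d0)⟩)) (.nd (.lf ⟨⟨(nat_lit 0x2000000000), (nat_lit 0x2000000000), (nat_lit 0x2000000000), (nat_lit 0x2000000000)⟩,
    ⟨(nat_lit 0x100000), (nat_lit 0x100000), (nat_lit 0x100000), (nat_lit 0x100000)⟩,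
    ⟨(nat_lit 0), (nat_lit 0), (nat_lit 0), (nat_lit 0)⟩,
    ⟨(nat_lit 0x2000000000), (nat_lit 0x2000000000), (nat_lit 0x2000000000), (nat_lit 0x2000000000)⟩,
    ⟨(nat_lit 0x100000), (nat_lit 0x100000), (nat_lit 0x100000), (nat_lit 0x100000)⟩,
    ⟨(nat_lit 0x20d29c9000), (nat_lit 0x20d2745000), (nat_lit 0x20d3db3000), (nat_lit 0x20d3b2f000)⟩,
    (nat_lit 0x100000), (nat_lit 0x100000)⟩) (.lf ⟨⟨(nat_lit 0x20d2a53000), (nat_lit 0x20d27cf000), (nat_lit 0x20d3e3d000), (nat_lit 0x20d3bb9000)⟩,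
    ⟨(nat_lit 0x10337a), (nat_lit 0x102d40), (nat_lit 0x10644a), (nat_lit 0x105e10)⟩,
    ⟨(nat_lit 0x2000000000), (nat_lit 0x2000000000), (nat_lit 0x2000000000), (nat_lit 0x2000000000)⟩,
    ⟨(nat_lit 0x20d29c9000), (nat_lit 0x20d2745000), (nat_lit 0x20d3db3000), (nat_lit 0x20d3b2f000)⟩,
    ⟨(nat_lit 0x103496), (nat_lit 0x102e5c), (nat_lit 0x106566), (nat_lit 0x105f2c)⟩,
    ⟨(nat_lit 0), (nat_lit 0), (nat_lit 0), (nat_lit 0)⟩,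
    (nat_lit 0x102d40), (nat_lit 0x106566)⟩)))
  nx := .nd (.nd (.lf (nat_lit 58)) (.lf (nat_lit 63))) (.nd (.lf (nat_lit 124)) (.lf (nat_lit 122)))
  mir := (nat_lit 123)

noncomputable def cx123 : CtxD where
  sd := .nd (.nd (.nd (.lf ⟨⟨(nat_lit 0x2000000000), (nat_lit 0x2000000000), (nat_lit 0x2000000000), (nat_lit 0x2000000000)⟩,
    ⟨(nat_lit 0x21b72), (nat_lit 0x21b72), (nat_lit 0x21b72), (nat_lit 0x21b72)⟩,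
    ⟨(nat_lit 0), (nat_lit 0), (nat_lit 0), (nat_lit 0)⟩,
    ⟨(nat_lit 0x2000000000), (nat_lit 0x2000000000), (nat_lit 0x2000000000), (nat_lit 0x2000000000)⟩,
    ⟨(nat_lit 0x21b70), (nat_lit 0x21b70), (nat_lit 0x21b70), (nat_lit 0x21b70)⟩,
    ⟨(nat_lit 0x2030936000), (nat_lit 0x2030912000), (nat_lit 0x2030a92000), (nat_lit 0x2030a6e000)⟩,
    (nat_lit 0x21b70), (nat_lit 0x21b72)⟩) (.lf ⟨⟨(nat_lit 0x2030950000), (nat_lit 0x203092c000), (nat_lit 0x2030aac000), (nat_lit 0x2030a88000)⟩,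
    ⟨(nat_lit 0x69d7a), (nat_lit 0x69ce2), (nat_lit 0x6a36c), (nat_lit 0x6a2d4)⟩,
    ⟨(nat_lit 0x2000000000), (nat_lit 0x2000000000), (nat_lit 0x2000000000), (nat_lit 0x2000000000)⟩,
    ⟨(nat_lit 0x2030936000), (nat_lit 0x2030912000), (nat_lit 0x2030a92000), (nat_lit 0x2030a6e000)⟩,
    ⟨(nat_lit 0x69dc2), (nat_lit 0x69d2a), (nat_lit 0x6a3b4), (nat_lit 0x6a31c)⟩,
    ⟨(nat_lit 0), (nat_lit 0), (nat_lit 0), (nat_lit 0)⟩,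
    (nat_lit 0x69ce2), (nat_lit 0x6a3b4)⟩)) (.nd (.lf ⟨⟨(nat_lit 0x209f0a9000), (nat_lit 0x209ef31000), (nat_lit 0x209fc4f000), (nat_lit 0x209fad7000)⟩,
    ⟨(nat_lit 0x6958d), (nat_lit 0x6939b), (nat_lit 0x6a355), (nat_lit 0x6a163)⟩,
    ⟨(nat_lit 0), (nat_lit 0), (nat_lit 0), (nat_lit 0)⟩,
    ⟨(nat_lit 0x209f045000), (nat_lit 0x209eecd000), (nat_lit 0x209fbeb000), (nat_lit 0x209fa73000)⟩,
    ⟨(nat_lit 0x69523), (nat_lit 0x69331), (nat_lit 0x6a2eb), (nat_lit 0x6a0f9)⟩,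
    ⟨(nat_lit 0x20ceeac000), (nat_lit 0x20cec30000), (nat_lit 0x20d01f8000), (nat_lit 0x20cff7c000)⟩,
    (nat_lit 0x69331), (nat_lit 0x6a355)⟩) (.lf ⟨⟨(nat_lit 0x20cef3e000), (nat_lit 0x20cecc2000), (nat_lit 0x20d028a000), (nat_lit 0x20d000e000)⟩,
    ⟨(nat_lit 0x20f2c), (nat_lit 0x20e62), (nat_lit 0x21560), (nat_lit 0x21496)⟩,
    ⟨(nat_lit 0x209f0a9000), (nat_lit 0x209ef31000), (nat_lit 0x209fc4f000), (nat_lit 0x209fad7000)⟩,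
    ⟨(nat_lit 0x20ceeac000), (nat_lit 0x20cec30000), (nat_lit 0x20d01f8000), (nat_lit 0x20cff7c000)⟩,
    ⟨(nat_lit 0x20f56), (nat_lit 0x20e8c), (nat_lit 0x2158a), (nat_lit 0x214c0)⟩,
    ⟨(nat_lit 0), (nat_lit 0), (nat_lit 0), (nat_lit 0)⟩,
    (nat_lit 0x20e62), (nat_lit 0x2158a)⟩))) (.nd (.nd (.lf ⟨⟨(nat_lit 0x20570f7000), (nat_lit 0x2057087000), (nat_lit 0x2057481000), (nat_lit 0x2057411000)⟩,
    ⟨(nat_lit 0x296ea), (nat_lit 0x2967e), (nat_lit 0x29a7c), (nat_lit 0x29a10)⟩,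
    ⟨(nat_lit 0), (nat_lit 0), (nat_lit 0), (nat_lit 0)⟩,
    ⟨(nat_lit 0x20570c7000), (nat_lit 0x2057057000), (nat_lit 0x2057451000), (nat_lit 0x20573e1000)⟩,
    ⟨(nat_lit 0x296c8), (nat_lit 0x2965c), (nat_lit 0x29a5a), (nat_lit 0x299ee)⟩,
    ⟨(nat_lit 0x2078ee8000), (nat_lit 0x2078e0e000), (nat_lit 0x207959c000), (nat_lit 0x20794c2000)⟩,
    (nat_lit 0x2965c), (nat_lit 0x29a7c)⟩) (.lf ⟨⟨(nat_lit 0x2078f2e000), (nat_lit 0x2078e54000), (nat_lit 0x20795e2000), (nat_lit 0x2079508000)⟩,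
    ⟨(nat_lit 0x29764), (nat_lit 0x296d0), (nat_lit 0x29b8e), (nat_lit 0x29afa)⟩,
    ⟨(nat_lit 0x20570f7000), (nat_lit 0x2057087000), (nat_lit 0x2057481000), (nat_lit 0x2057411000)⟩,
    ⟨(nat_lit 0x2078ee8000), (nat_lit 0x2078e0e000), (nat_lit 0x207959c000), (nat_lit 0x20794c2000)⟩,
    ⟨(nat_lit 0x2978a), (nat_lit 0x296f6), (nat_lit 0x29bb4), (nat_lit 0x29b20)⟩,
    ⟨(nat_lit 0), (nat_lit 0), (nat_lit 0), (nat_lit 0)⟩,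
    (nat_lit 0x296d0), (nat_lit 0x29bb4)⟩)) (.nd (.lf ⟨⟨(nat_lit 0x2000000000), (nat_lit 0x2000000000), (nat_lit 0x2000000000), (nat_lit 0x2000000000)⟩,
    ⟨(nat_lit 0x100000), (nat_lit 0x100000), (nat_lit 0x100000), (nat_lit 0x100000)⟩,
    ⟨(nat_lit 0), (nat_lit 0), (nat_lit 0), (nat_lit 0)⟩,
    ⟨(nat_lit 0x2000000000), (nat_lit 0x2000000000), (nat_lit 0x2000000000), (nat_lit 0x2000000000)⟩,
    ⟨(nat_lit 0x100000), (nat_lit 0x100000), (nat_lit 0x100000), (nat_lit 0x100000)⟩,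
    ⟨(nat_lit 0x20ceeac000), (nat_lit 0x20cec30000), (nat_lit 0x20d01f8000), (nat_lit 0x20cff7c000)⟩,
    (nat_lit 0x100000), (nat_lit 0x100000)⟩) (.lf ⟨⟨(nat_lit 0x20cef3e000), (nat_lit 0x20cecc2000), (nat_lit 0x20d028a000), (nat_lit 0x20d000e000)⟩,
    ⟨(nat_lit 0xfa2e1), (nat_lit 0xf9cdf), (nat_lit 0xfd1fd), (nat_lit 0xfcbfb)⟩,
    ⟨(nat_lit 0x2000000000), (nat_lit 0x2000000000), (nat_lit 0x2000000000), (nat_lit 0x2000000000)⟩,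
    ⟨(nat_lit 0x20ceeac000), (nat_lit 0x20cec30000), (nat_lit 0x20d01f8000), (nat_lit 0x20cff7c000)⟩,
    ⟨(nat_lit 0xfa417), (nat_lit 0xf9e15), (nat_lit 0xfd333), (nat_lit 0xfcd31)⟩,
    ⟨(nat_lit 0), (nat_lit 0), (nat_lit 0), (nat_lit 0)⟩,
    (nat_lit 0xf9cdf), (nat_lit 0xfd333)⟩)))
  nx := .nd (.nd (.lf (nat_lit 62)) (.lf (nat_lit 59))) (.nd (.lf (nat_lit 125)) (.lf (nat_lit 123)))
  mir := (nat_lit 122)

noncomputable def cx124 : CtxD where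
  sd := .nd (.nd (.nd (.lf ⟨⟨(nat_lit 0x2000000000), (nat_lit 0x2000000000), (nat_lit 0x2000000000), (nat_lit 0x2000000000)⟩,
    ⟨(nat_lit 0x21b72), (nat_lit 0x21b72), (nat_lit 0x21b72), (nat_lit 0x21b72)⟩,
    ⟨(nat_lit 0), (nat_lit 0), (nat_lit 0), (nat_lit 0)⟩,
    ⟨(nat_lit 0x2000000000), (nat_lit 0x2000000000), (nat_lit 0x2000000000), (nat_lit 0x2000000000)⟩,
    ⟨(nat_lit 0x21b70), (nat_lit 0x21b70), (nat_lit 0x21b70), (nat_lit 0x21b70)⟩,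
    ⟨(nat_lit 0x2030c55000), (nat_lit 0x2030c1d000), (nat_lit 0x2030ccf000), (nat_lit 0x2030c97000)⟩,
    (nat_lit 0x21b70), (nat_lit 0x21b72)⟩) (.lf ⟨⟨(nat_lit 0x2030c6f000), (nat_lit 0x2030c37000), (nat_lit 0x2030ce9000), (nat_lit 0x2030cb1000)⟩,
    ⟨(nat_lit 0x6ab37), (nat_lit 0x6aa45), (nat_lit 0x6ad59), (nat_lit 0x6ac67)⟩,
    ⟨(nat_lit 0x2000000000), (nat_lit 0x2000000000), (nat_lit 0x2000000000), (nat_lit 0x2000000000)⟩,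
    ⟨(nat_lit 0x2030c55000), (nat_lit 0x2030c1d000), (nat_lit 0x2030ccf000), (nat_lit 0x2030c97000)⟩,
    ⟨(nat_lit 0x6ab77), (nat_lit 0x6aa85), (nat_lit 0x6ad99), (nat_lit 0x6aca7)⟩,
    ⟨(nat_lit 0), (nat_lit 0), (nat_lit 0), (nat_lit 0)⟩,
    (nat_lit 0x6aa45), (nat_lit 0x6ad99)⟩)) (.nd (.lf ⟨⟨(nat_lit 0x20a07fc000), (nat_lit 0x20a05a8000), (nat_lit 0x20a095e000), (nat_lit 0x20a070a000)⟩,
    ⟨(nat_lit 0x6ae97), (nat_lit 0x6ab7d), (nat_lit 0x6ae33), (nat_lit 0x6ab19)⟩,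
    ⟨(nat_lit 0), (nat_lit 0), (nat_lit 0), (nat_lit 0)⟩,
    ⟨(nat_lit 0x20a07a4000), (nat_lit 0x20a0550000), (nat_lit 0x20a0906000), (nat_lit 0x20a06b2000)⟩,
    ⟨(nat_lit 0x6ae43), (nat_lit 0x6ab29), (nat_lit 0x6addf), (nat_lit 0x6aac5)⟩,
    ⟨(nat_lit 0x20d14b0000), (nat_lit 0x20d10ba000), (nat_lit 0x20d1666000), (nat_lit 0x20d1270000)⟩,
    (nat_lit 0x6aac5), (nat_lit 0x6ae97)⟩) (.lf ⟨⟨(nat_lit 0x20d152c000), (nat_lit 0x20d1136000), (nat_lit 0x20d16e2000), (nat_lit 0x20d12ec000)⟩,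
    ⟨(nat_lit 0x21b70), (nat_lit 0x21a2a), (nat_lit 0x21c00), (nat_lit 0x21aba)⟩,
    ⟨(nat_lit 0x20a07fc000), (nat_lit 0x20a05a8000), (nat_lit 0x20a095e000), (nat_lit 0x20a070a000)⟩,
    ⟨(nat_lit 0x20d14b0000), (nat_lit 0x20d10ba000), (nat_lit 0x20d1666000), (nat_lit 0x20d1270000)⟩,
    ⟨(nat_lit 0x21b90), (nat_lit 0x21a4a), (nat_lit 0x21c20), (nat_lit 0x21ada)⟩,
    ⟨(nat_lit 0), (nat_lit 0), (nat_lit 0), (nat_lit 0)⟩,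
    (nat_lit 0x21a2a), (nat_lit 0x21c20)⟩))) (.nd (.nd (.lf ⟨⟨(nat_lit 0x2057824000), (nat_lit 0x2057772000), (nat_lit 0x20578a4000), (nat_lit 0x20577f2000)⟩,
    ⟨(nat_lit 0x29e6e), (nat_lit 0x29dc4), (nat_lit 0x29f26), (nat_lit 0x29e7c)⟩,
    ⟨(nat_lit 0), (nat_lit 0), (nat_lit 0), (nat_lit 0)⟩,
    ⟨(nat_lit 0x20577f6000), (nat_lit 0x2057744000), (nat_lit 0x2057876000), (nat_lit 0x20577c4000)⟩,
    ⟨(nat_lit 0x29e52), (nat_lit 0x29da8), (nat_lit 0x29f0a), (nat_lit 0x29e60)⟩,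
    ⟨(nat_lit 0x2079c4f000), (nat_lit 0x2079af7000), (nat_lit 0x2079d15000), (nat_lit 0x2079bbd000)⟩,
    (nat_lit 0x29da8), (nat_lit 0x29f26)⟩) (.lf ⟨⟨(nat_lit 0x2079c8f000), (nat_lit 0x2079b37000), (nat_lit 0x2079d55000), (nat_lit 0x2079bfd000)⟩,
    ⟨(nat_lit 0x29f13), (nat_lit 0x29e27), (nat_lit 0x29f09), (nat_lit 0x29e1d)⟩,
    ⟨(nat_lit 0x2057824000), (nat_lit 0x2057772000), (nat_lit 0x20578a4000), (nat_lit 0x20577f2000)⟩,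
    ⟨(nat_lit 0x2079c4f000), (nat_lit 0x2079af7000), (nat_lit 0x2079d15000), (nat_lit 0x2079bbd000)⟩,
    ⟨(nat_lit 0x29f31), (nat_lit 0x29e45), (nat_lit 0x29f27), (nat_lit 0x29e3b)⟩,
    ⟨(nat_lit 0), (nat_lit 0), (nat_lit 0), (nat_lit 0)⟩,
    (nat_lit 0x29e1d), (nat_lit 0x29f31)⟩)) (.nd (.lf ⟨⟨(nat_lit 0x2000000000), (nat_lit 0x2000000000), (nat_lit 0x2000000000), (nat_lit 0x2000000000)⟩,
    ⟨(nat_lit 0x100000), (nat_lit 0x100000), (nat_lit 0x100000), (nat_lit 0x100000)⟩,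
    ⟨(nat_lit 0), (nat_lit 0), (nat_lit 0), (nat_lit 0)⟩,
    ⟨(nat_lit 0x2000000000), (nat_lit 0x2000000000), (nat_lit 0x2000000000), (nat_lit 0x2000000000)⟩,
    ⟨(nat_lit 0x100000), (nat_lit 0x100000), (nat_lit 0x100000), (nat_lit 0x100000)⟩,
    ⟨(nat_lit 0x20d14b0000), (nat_lit 0x20d10ba000), (nat_lit 0x20d1666000), (nat_lit 0x20d1270000)⟩,
    (nat_lit 0x100000), (nat_lit 0x100000)⟩) (.lf ⟨⟨(nat_lit 0x20d152c000), (nat_lit 0x20d1136000), (nat_lit 0x20d16e2000), (nat_lit 0x20d12ec000)⟩,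
    ⟨(nat_lit 0x100007), (nat_lit 0xff657), (nat_lit 0x100449), (nat_lit 0xffa99)⟩,
    ⟨(nat_lit 0x2000000000), (nat_lit 0x2000000000), (nat_lit 0x2000000000), (nat_lit 0x2000000000)⟩,
    ⟨(nat_lit 0x20d14b0000), (nat_lit 0x20d10ba000), (nat_lit 0x20d1666000), (nat_lit 0x20d1270000)⟩,
    ⟨(nat_lit 0x1000eb), (nat_lit 0xff73b), (nat_lit 0x10052d), (nat_lit 0xffb7d)⟩,
    ⟨(nat_lit 0), (nat_lit 0), (nat_lit 0), (nat_lit 0)⟩,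
    (nat_lit 0xff657), (nat_lit 0x10052d)⟩)))
  nx := .nd (.nd (.lf (nat_lit 60)) (.lf (nat_lit 61))) (.nd (.lf (nat_lit 124)) (.lf (nat_lit 124)))
  mir := (nat_lit 125)

noncomputable def cx125 : CtxD where
  sd := .nd (.nd (.nd (.lf ⟨⟨(nat_lit 0x2000000000), (nat_lit 0x2000000000), (nat_lit 0x2000000000), (nat_lit 0x2000000000)⟩,
    ⟨(nat_lit 0x21b72), (nat_lit 0x21b72), (nat_lit 0x21b72), (nat_lit 0x21b72)⟩,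
    ⟨(nat_lit 0), (nat_lit 0), (nat_lit 0), (nat_lit 0)⟩,
    ⟨(nat_lit 0x2000000000), (nat_lit 0x2000000000), (nat_lit 0x2000000000), (nat_lit 0x2000000000)⟩,
    ⟨(nat_lit 0x21b70), (nat_lit 0x21b70), (nat_lit 0x21b70), (nat_lit 0x21b70)⟩,
    ⟨(nat_lit 0x2030cb6000), (nat_lit 0x2030c7e000), (nat_lit 0x2030d32000), (nat_lit 0x2030cfa000)⟩,
    (nat_lit 0x21b70), (nat_lit 0x21b72)⟩) (.lf ⟨⟨(nat_lit 0x2030cce000), (nat_lit 0x2030c96000), (nat_lit 0x2030d4a000), (nat_lit 0x2030d12000)⟩,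
    ⟨(nat_lit 0x6ace3), (nat_lit 0x6abf1), (nat_lit 0x6af0f), (nat_lit 0x6ae1d)⟩,
    ⟨(nat_lit 0x2000000000), (nat_lit 0x2000000000), (nat_lit 0x2000000000), (nat_lit 0x2000000000)⟩,
    ⟨(nat_lit 0x2030cb6000), (nat_lit 0x2030c7e000), (nat_lit 0x2030d32000), (nat_lit 0x2030cfa000)⟩,
    ⟨(nat_lit 0x6ad1f), (nat_lit 0x6ac2d), (nat_lit 0x6af4b), (nat_lit 0x6ae59)⟩,
    ⟨(nat_lit 0), (nat_lit 0), (nat_lit 0), (nat_lit 0)⟩,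
    (nat_lit 0x6abf1), (nat_lit 0x6af4b)⟩)) (.nd (.lf ⟨⟨(nat_lit 0x20a094f000), (nat_lit 0x20a06fb000), (nat_lit 0x20a0abf000), (nat_lit 0x20a086b000)⟩,
    ⟨(nat_lit 0x6aec0), (nat_lit 0x6aba6), (nat_lit 0x6ae66), (nat_lit 0x6ab4c)⟩,
    ⟨(nat_lit 0), (nat_lit 0), (nat_lit 0), (nat_lit 0)⟩,
    ⟨(nat_lit 0x20a08fb000), (nat_lit 0x20a06a7000), (nat_lit 0x20a0a6b000), (nat_lit 0x20a0817000)⟩,
    ⟨(nat_lit 0x6ae70), (nat_lit 0x6ab56), (nat_lit 0x6ae16), (nat_lit 0x6aafc)⟩,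
    ⟨(nat_lit 0x20d1680000), (nat_lit 0x20d128a000), (nat_lit 0x20d1846000), (nat_lit 0x20d1450000)⟩,
    (nat_lit 0x6aafc), (nat_lit 0x6aec0)⟩) (.lf ⟨⟨(nat_lit 0x20d16f6000), (nat_lit 0x20d1300000), (nat_lit 0x20d18bc000), (nat_lit 0x20d14c6000)⟩,
    ⟨(nat_lit 0x21c07), (nat_lit 0x21ac1), (nat_lit 0x21c97), (nat_lit 0x21b51)⟩,
    ⟨(nat_lit 0x20a094f000), (nat_lit 0x20a06fb000), (nat_lit 0x20a0abf000), (nat_lit 0x20a086b000)⟩,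
    ⟨(nat_lit 0x20d1680000), (nat_lit 0x20d128a000), (nat_lit 0x20d1846000), (nat_lit 0x20d1450000)⟩,
    ⟨(nat_lit 0x21c27), (nat_lit 0x21ae1), (nat_lit 0x21cb7), (nat_lit 0x21b71)⟩,
    ⟨(nat_lit 0), (nat_lit 0), (nat_lit 0), (nat_lit 0)⟩,
    (nat_lit 0x21ac1), (nat_lit 0x21cb7)⟩))) (.nd (.nd (.lf ⟨⟨(nat_lit 0x2057897000), (nat_lit 0x20577e5000), (nat_lit 0x205791d000), (nat_lit 0x205786b000)⟩,
    ⟨(nat_lit 0x29f0a), (nat_lit 0x29e60), (nat_lit 0x29fc6), (nat_lit 0x29f1c)⟩,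
    ⟨(nat_lit 0), (nat_lit 0), (nat_lit 0), (nat_lit 0)⟩,
    ⟨(nat_lit 0x205786d000), (nat_lit 0x20577bb000), (nat_lit 0x20578f3000), (nat_lit 0x2057841000)⟩,
    ⟨(nat_lit 0x29eee), (nat_lit 0x29e44), (nat_lit 0x29faa), (nat_lit 0x29f00)⟩,
    ⟨(nat_lit 0x2079d10000), (nat_lit 0x2079bb8000), (nat_lit 0x2079de0000), (nat_lit 0x2079c88000)⟩,
    (nat_lit 0x29e44), (nat_lit 0x29fc6)⟩) (.lf ⟨⟨(nat_lit 0x2079d4c000), (nat_lit 0x2079bf4000), (nat_lit 0x2079e1c000), (nat_lit 0x2079cc4000)⟩,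
    ⟨(nat_lit 0x29f2f), (nat_lit 0x29e43), (nat_lit 0x29f29), (nat_lit 0x29e3d)⟩,
    ⟨(nat_lit 0x2057897000), (nat_lit 0x20577e5000), (nat_lit 0x205791d000), (nat_lit 0x205786b000)⟩,
    ⟨(nat_lit 0x2079d10000), (nat_lit 0x2079bb8000), (nat_lit 0x2079de0000), (nat_lit 0x2079c88000)⟩,
    ⟨(nat_lit 0x29f4d), (nat_lit 0x29e61), (nat_lit 0x29f47), (nat_lit 0x29e5b)⟩,
    ⟨(nat_lit 0), (nat_lit 0), (nat_lit 0), (nat_lit 0)⟩,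
    (nat_lit 0x29e3d), (nat_lit 0x29f4d)⟩)) (.nd (.lf ⟨⟨(nat_lit 0x2000000000), (nat_lit 0x2000000000), (nat_lit 0x2000000000), (nat_lit 0x2000000000)⟩,
    ⟨(nat_lit 0x100000), (nat_lit 0x100000), (nat_lit 0x100000), (nat_lit 0x100000)⟩,
    ⟨(nat_lit 0), (nat_lit 0), (nat_lit 0), (nat_lit 0)⟩,
    ⟨(nat_lit 0x2000000000), (nat_lit 0x2000000000), (nat_lit 0x2000000000), (nat_lit 0x2000000000)⟩,
    ⟨(nat_lit 0x100000), (nat_lit 0x100000), (nat_lit 0x100000), (nat_lit 0x100000)⟩,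
    ⟨(nat_lit 0x20d1680000), (nat_lit 0x20d128a000), (nat_lit 0x20d1846000), (nat_lit 0x20d1450000)⟩,
    (nat_lit 0x100000), (nat_lit 0x100000)⟩) (.lf ⟨⟨(nat_lit 0x20d16f6000), (nat_lit 0x20d1300000), (nat_lit 0x20d18bc000), (nat_lit 0x20d14c6000)⟩,
    ⟨(nat_lit 0x100483), (nat_lit 0xffad1), (nat_lit 0x1008c7), (nat_lit 0xfff15)⟩,
    ⟨(nat_lit 0x2000000000), (nat_lit 0x2000000000), (nat_lit 0x2000000000), (nat_lit 0x2000000000)⟩,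
    ⟨(nat_lit 0x20d1680000), (nat_lit 0x20d128a000), (nat_lit 0x20d1846000), (nat_lit 0x20d1450000)⟩,
    ⟨(nat_lit 0x100567), (nat_lit 0xffbb5), (nat_lit 0x1009ab), (nat_lit 0xffff9)⟩,
    ⟨(nat_lit 0), (nat_lit 0), (nat_lit 0), (nat_lit 0)⟩,
    (nat_lit 0xffad1), (nat_lit 0x1009ab)⟩)))
  nx := .nd (.nd (.lf (nat_lit 60)) (.lf (nat_lit 61))) (.nd (.lf (nat_lit 125)) (.lf (nat_lit 125)))
  mir := (nat_lit 124)

noncomputable def ctT : Tr CtxD :=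
  .nd (.nd (.nd (.nd (.nd (.nd (.nd (.lf cx0) (.lf cx64)) (.nd (.lf cx32) (.lf cx96))) (.nd (.nd (.lf cx16) (.lf cx80)) (.nd (.lf cx48) (.lf cx112)))) (.nd (.nd (.nd (.lf cx8) (.lf cx72)) (.nd (.lf cx40) (.lf cx104))) (.nd (.nd (.lf cx24) (.lf cx88)) (.nd (.lf cx56) (.lf cx120))))) (.nd (.nd (.nd (.nd (.lf cx4) (.lf cx68)) (.nd (.lf cx36) (.lf cx100))) (.nd (.nd (.lf cx20) (.lf cx84)) (.nd (.lf cx52) (.lf cx116)))) (.nd (.nd (.nd (.lf cx12) (.lf cx76)) (.nd (.lf cx44) (.lf cx108))) (.nd (.nd (.lf cx28) (.lf cx92)) (.nd (.lf cx60) (.lf cx124)))))) (.nd (.nd (.nd (.nd (.nd (.lf cx2) (.lf cx66)) (.nd (.lf cx34) (.lf cx98))) (.nd (.nd (.lf cx18) (.lf cx82)) (.nd (.lf cx50) (.lf cx114)))) (.nd (.nd (.nd (.lf cx10) (.lf cx74)) (.nd (.lf cx42) (.lf cx106))) (.nd (.nd (.lf cx26) (.lf cx90)) (.nd (.lf cx58) (.lf cx122))))) (.nd (.nd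 (.nd (.nd (.lf cx6) (.lf cx70)) (.nd (.lf cx38) (.lf cx102))) (.nd (.nd (.lf cx22) (.lf cx86)) (.nd (.lf cx54) (.lf cx118)))) (.nd (.nd (.nd (.lf cx14) (.lf cx78)) (.nd (.lf cx46) (.lf cx110))) (.nd (.nd (.lf cx30) (.lf cx94)) (.nd (.lf cx62) (.lf cx0))))))) (.nd (.nd (.nd (.nd (.nd (.nd (.lf cx1) (.lf cx65)) (.nd (.lf cx33) (.lf cx97))) (.nd (.nd (.lf cx17) (.lf cx81)) (.nd (.lf cx49) (.lf cx113)))) (.nd (.nd (.nd (.lf cx9) (.lf cx73)) (.nd (.lf cx41) (.lf cx105))) (.nd (.nd (.lf cx25) (.lf cx89)) (.nd (.lf cx57) (.lf cx121))))) (.nd (.nd (.nd (.nd (.lf cx5) (.lf cx69)) (.nd (.lf cx37) (.lf cx101))) (.nd (.nd (.lf cx21) (.lf cx85)) (.nd (.lf cx53) (.lf cx117)))) (.nd (.nd (.nd (.lf cx13) (.lf cx77)) (.nd (.lf cx45) (.lf cx109))) (.nd (.nd (.lf cx29) (.lf cx93)) (.nd (.lf cx61) (.lf cx125)))))) (.nd (.nd (.nd (.nd (.nd (.lf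 cx3) (.lf cx67)) (.nd (.lf cx35) (.lf cx99))) (.nd (.nd (.lf cx19) (.lf cx83)) (.nd (.lf cx51) (.lf cx115)))) (.nd (.nd (.nd (.lf cx11) (.lf cx75)) (.nd (.lf cx43) (.lf cx107))) (.nd (.nd (.lf cx27) (.lf cx91)) (.nd (.lf cx59) (.lf cx123))))) (.nd (.nd (.nd (.nd (.lf cx7) (.lf cx71)) (.nd (.lf cx39) (.lf cx103))) (.nd (.nd (.lf cx23) (.lf cx87)) (.nd (.lf cx55) (.lf cx119)))) (.nd (.nd (.nd (.lf cx15) (.lf cx79)) (.nd (.lf cx47) (.lf cx111))) (.nd (.nd (.lf cx31) (.lf cx95)) (.nd (.lf cx63) (.lf cx0)))))))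

noncomputable def ct (c : ℕ) : CtxD := ctT.get c

end Pool.Agent.H68.FibC
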