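import Pool.Agent.H68.FibC.Tab
import Pool.Agent.H68.FibC.D.Ct
import Pool.Agent.H20.Fib.D.TabC

/-!
# The table of contexts passes the checks (problem MP_9069b3_mp, part C)
-/

namespace Pool.Agent.H68.FibC

open Pool.Agent.H20.Fib.D (tab)

theorem row_all : ∀ c, c < 126 → rowChk tab 126 c = true := by
  decide +kernel

theorem tab_ok : TabOK tab 126 := tabOK_of_chk row_all

theorem ctx_all : ∀ c, c < 126 → ctxChk tab ct c = true := by
  decide +kernel

end Pool.Agent.H68.FibC
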