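import Pool.Agent.H68.FibC.Row
import Pool.Agent.H68.FibC.D.CtOK
import Pool.Agent.H68.FibC.D.R00
import Pool.Agent.H68.FibC.D.R01
import Pool.Agent.H68.FibC.D.R02
import Pool.Agent.H68.FibC.D.R03
import Pool.Agent.H68.FibC.D.R04
import Pool.Agent.H68.FibC.D.R05
import Pool.Agent.H68.FibC.D.R06
import Pool.Agent.H68.FibC.D.R07
import Pool.Agent.H68.FibC.D.R08
import Pool.Agent.H68.FibC.D.R09
import Pool.Agent.H68.FibC.D.R10
import Pool.Agent.H68.FibC.D.R11
import Pool.Agent.H68.FibC.D.R12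
import Pool.Agent.H68.FibC.D.R13
import Pool.Agent.H68.FibC.D.R14
import Pool.Agent.H68.FibC.D.R15

/-!
# The certificate (problem MP_9069b3_mp, part C)

Generated data.
-/

namespace Pool.Agent.H68.FibC

theorem p0 (b : ℕ) (h1 : 0 ≤ b) (h2 : b < 126) :
    ∃ K strm, chkPair ct Dc pLoD pHiD 0 b K strm = true := by
  exact chkRow_sound' r0_0 (n := 126) rfl b h1 h2

theorem p1 (b : ℕ) (h1 : 1 ≤ b) (h2 : b < 126) :
    ∃ K strm, chkPair ct Dc pLoD pHiD 1 b K strm = true := by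
  exact chkRow_sound' r1_1 (n := 125) rfl b h1 h2

theorem p2 (b : ℕ) (h1 : 2 ≤ b) (h2 : b < 126) :
    ∃ K strm, chkPair ct Dc pLoD pHiD 2 b K strm = true := by
  exact chkRow_sound' r2_2 (n := 124) rfl b h1 h2

theorem p3 (b : ℕ) (h1 : 3 ≤ b) (h2 : b < 126) :
    ∃ K strm, chkPair ct Dc pLoD pHiD 3 b K strm = true := by
  exact chkRow_sound' r3_3 (n := 123) rfl b h1 h2

theorem p4 (b : ℕ) (h1 : 4 ≤ b) (h2 : b < 126) :
    ∃ K strm, chkPair ct Dc pLoD pHiD 4 b K strm = true := by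
  exact chkRow_sound' r4_4 (n := 122) rfl b h1 h2

theorem p5 (b : ℕ) (h1 : 5 ≤ b) (h2 : b < 126) :
    ∃ K strm, chkPair ct Dc pLoD pHiD 5 b K strm = true := by
  exact chkRow_sound' r5_5 (n := 121) rfl b h1 h2

theorem p6 (b : ℕ) (h1 : 6 ≤ b) (h2 : b < 126) :
    ∃ K strm, chkPair ct Dc pLoD pHiD 6 b K strm = true := by
  exact chkRow_sound' r6_6 (n := 120) rfl b h1 h2

theorem p7 (b : ℕ) (h1 : 7 ≤ b) (h2 : b < 126) :
    ∃ K strm, chkPair ct Dc pLoD pHiD 7 b K strm = true := by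
  exact chkRow_sound' r7_7 (n := 119) rfl b h1 h2

theorem p8 (b : ℕ) (h1 : 8 ≤ b) (h2 : b < 126) :
    ∃ K strm, chkPair ct Dc pLoD pHiD 8 b K strm = true := by
  exact chkRow_sound' r8_8 (n := 118) rfl b h1 h2

theorem p9 (b : ℕ) (h1 : 9 ≤ b) (h2 : b < 126) :
    ∃ K strm, chkPair ct Dc pLoD pHiD 9 b K strm = true := by
  exact chkRow_sound' r9_9 (n := 117) rfl b h1 h2

theorem p10 (b : ℕ) (h1 : 10 ≤ b) (h2 : b < 126) :
    ∃ K strm, chkPair ct Dc pLoD pHiD 10 b K strm = true := by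
  exact chkRow_sound' r10_10 (n := 116) rfl b h1 h2

theorem p11 (b : ℕ) (h1 : 11 ≤ b) (h2 : b < 126) :
    ∃ K strm, chkPair ct Dc pLoD pHiD 11 b K strm = true := by
  exact chkRow_sound' r11_11 (n := 115) rfl b h1 h2

theorem p12 (b : ℕ) (h1 : 12 ≤ b) (h2 : b < 126) :
    ∃ K strm, chkPair ct Dc pLoD pHiD 12 b K strm = true := by
  exact chkRow_sound' r12_12 (n := 114) rfl b h1 h2

theorem p13 (b : ℕ) (h1 : 13 ≤ b) (h2 : b < 126) :
    ∃ K strm, chkPair ct Dc pLoD pHiD 13 b K strm = true := by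
  exact chkRow_sound' r13_13 (n := 113) rfl b h1 h2

theorem p14 (b : ℕ) (h1 : 14 ≤ b) (h2 : b < 126) :
    ∃ K strm, chkPair ct Dc pLoD pHiD 14 b K strm = true := by
  exact chkRow_sound' r14_14 (n := 112) rfl b h1 h2

theorem p15 (b : ℕ) (h1 : 15 ≤ b) (h2 : b < 126) :
    ∃ K strm, chkPair ct Dc pLoD pHiD 15 b K strm = true := by
  exact chkRow_sound' r15_15 (n := 111) rfl b h1 h2

theorem p16 (b : ℕ) (h1 : 16 ≤ b) (h2 : b < 126) :
    ∃ K strm, chkPair ct Dc pLoD pHiD 16 b K strm = true := by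
  exact chkRow_sound' r16_16 (n := 110) rfl b h1 h2

theorem p17 (b : ℕ) (h1 : 17 ≤ b) (h2 : b < 126) :
    ∃ K strm, chkPair ct Dc pLoD pHiD 17 b K strm = true := by
  exact chkRow_sound' r17_17 (n := 109) rfl b h1 h2

theorem p18 (b : ℕ) (h1 : 18 ≤ b) (h2 : b < 126) :
    ∃ K strm, chkPair ct Dc pLoD pHiD 18 b K strm = true := by
  exact chkRow_sound' r18_18 (n := 108) rfl b h1 h2

theorem p19 (b : ℕ) (h1 : 19 ≤ b) (h2 : b < 126) :
    ∃ K strm, chkPair ct Dc pLoD pHiD 19 b K strm = true := by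
  exact chkRow_sound' r19_19 (n := 107) rfl b h1 h2

theorem p20 (b : ℕ) (h1 : 20 ≤ b) (h2 : b < 126) :
    ∃ K strm, chkPair ct Dc pLoD pHiD 20 b K strm = true := by
  exact chkRow_sound' r20_20 (n := 106) rfl b h1 h2

theorem p21 (b : ℕ) (h1 : 21 ≤ b) (h2 : b < 126) :
    ∃ K strm, chkPair ct Dc pLoD pHiD 21 b K strm = true := by
  exact chkRow_sound' r21_21 (n := 105) rfl b h1 h2

theorem p22 (b : ℕ) (h1 : 22 ≤ b) (h2 : b < 126) :
    ∃ K strm, chkPair ct Dc pLoD pHiD 22 b K strm = true := by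
  exact chkRow_sound' r22_22 (n := 104) rfl b h1 h2

theorem p23 (b : ℕ) (h1 : 23 ≤ b) (h2 : b < 126) :
    ∃ K strm, chkPair ct Dc pLoD pHiD 23 b K strm = true := by
  exact chkRow_sound' r23_23 (n := 103) rfl b h1 h2

theorem p24 (b : ℕ) (h1 : 24 ≤ b) (h2 : b < 126) :
    ∃ K strm, chkPair ct Dc pLoD pHiD 24 b K strm = true := by
  exact chkRow_sound' r24_24 (n := 102) rfl b h1 h2

theorem p25 (b : ℕ) (h1 : 25 ≤ b) (h2 : b < 126) :
    ∃ K strm, chkPair ct Dc pLoD pHiD 25 b K strm = true := by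
  exact chkRow_sound' r25_25 (n := 101) rfl b h1 h2

theorem p26 (b : ℕ) (h1 : 26 ≤ b) (h2 : b < 126) :
    ∃ K strm, chkPair ct Dc pLoD pHiD 26 b K strm = true := by
  rcases Nat.lt_or_ge b 82 with h | h1
  · exact chkRow_sound' r26_26 (n := 56) rfl b h1 h
  exact chkRow_sound' r26_82 (n := 44) rfl b h1 h2

theorem p27 (b : ℕ) (h1 : 27 ≤ b) (h2 : b < 126) :
    ∃ K strm, chkPair ct Dc pLoD pHiD 27 b K strm = true := by
  rcases Nat.lt_or_ge b 93 with h | h1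
  · exact chkRow_sound' r27_27 (n := 66) rfl b h1 h
  exact chkRow_sound' r27_93 (n := 33) rfl b h1 h2

theorem p28 (b : ℕ) (h1 : 28 ≤ b) (h2 : b < 126) :
    ∃ K strm, chkPair ct Dc pLoD pHiD 28 b K strm = true := by
  rcases Nat.lt_or_ge b 84 with h | h1
  · exact chkRow_sound' r28_28 (n := 56) rfl b h1 h
  exact chkRow_sound' r28_84 (n := 42) rfl b h1 h2

theorem p29 (b : ℕ) (h1 : 29 ≤ b) (h2 : b < 126) :
    ∃ K strm, chkPair ct Dc pLoD pHiD 29 b K strm = true := by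
  rcases Nat.lt_or_ge b 91 with h | h1
  · exact chkRow_sound' r29_29 (n := 62) rfl b h1 h
  exact chkRow_sound' r29_91 (n := 35) rfl b h1 h2

theorem p30 (b : ℕ) (h1 : 30 ≤ b) (h2 : b < 126) :
    ∃ K strm, chkPair ct Dc pLoD pHiD 30 b K strm = true := by
  rcases Nat.lt_or_ge b 96 with h | h1
  · exact chkRow_sound' r30_30 (n := 66) rfl b h1 h
  exact chkRow_sound' r30_96 (n := 30) rfl b h1 h2

theorem p31 (b : ℕ) (h1 : 31 ≤ b) (h2 : b < 126) :
    ∃ K strm, chkPair ct Dc pLoD pHiD 31 b K strm = true := by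
  rcases Nat.lt_or_ge b 98 with h | h1
  · exact chkRow_sound' r31_31 (n := 67) rfl b h1 h
  exact chkRow_sound' r31_98 (n := 28) rfl b h1 h2

theorem p32 (b : ℕ) (h1 : 32 ≤ b) (h2 : b < 126) :
    ∃ K strm, chkPair ct Dc pLoD pHiD 32 b K strm = true := by
  rcases Nat.lt_or_ge b 103 with h | h1
  · exact chkRow_sound' r32_32 (n := 71) rfl b h1 h
  exact chkRow_sound' r32_103 (n := 23) rfl b h1 h2

theorem p33 (b : ℕ) (h1 : 33 ≤ b) (h2 : b < 126) :
    ∃ K strm, chkPair ct Dc pLoD pHiD 33 b K strm = true := by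
  rcases Nat.lt_or_ge b 120 with h | h1
  · exact chkRow_sound' r33_33 (n := 87) rfl b h1 h
  exact chkRow_sound' r33_120 (n := 6) rfl b h1 h2

theorem p34 (b : ℕ) (h1 : 34 ≤ b) (h2 : b < 126) :
    ∃ K strm, chkPair ct Dc pLoD pHiD 34 b K strm = true := by
  rcases Nat.lt_or_ge b 105 with h | h1
  · exact chkRow_sound' r34_34 (n := 71) rfl b h1 h
  exact chkRow_sound' r34_105 (n := 21) rfl b h1 h2

theorem p35 (b : ℕ) (h1 : 35 ≤ b) (h2 : b < 126) :
    ∃ K strm, chkPair ct Dc pLoD pHiD 35 b K strm = true := by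
  rcases Nat.lt_or_ge b 95 with h | h1
  · exact chkRow_sound' r35_35 (n := 60) rfl b h1 h
  exact chkRow_sound' r35_95 (n := 31) rfl b h1 h2

theorem p36 (b : ℕ) (h1 : 36 ≤ b) (h2 : b < 126) :
    ∃ K strm, chkPair ct Dc pLoD pHiD 36 b K strm = true := by
  rcases Nat.lt_or_ge b 87 with h | h1
  · exact chkRow_sound' r36_36 (n := 51) rfl b h1 h
  exact chkRow_sound' r36_87 (n := 39) rfl b h1 h2

theorem p37 (b : ℕ) (h1 : 37 ≤ b) (h2 : b < 126) :
    ∃ K strm, chkPair ct Dc pLoD pHiD 37 b K strm = true := by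
  rcases Nat.lt_or_ge b 108 with h | h1
  · exact chkRow_sound' r37_37 (n := 71) rfl b h1 h
  exact chkRow_sound' r37_108 (n := 18) rfl b h1 h2

theorem p38 (b : ℕ) (h1 : 38 ≤ b) (h2 : b < 126) :
    ∃ K strm, chkPair ct Dc pLoD pHiD 38 b K strm = true := by
  rcases Nat.lt_or_ge b 90 with h | h1
  · exact chkRow_sound' r38_38 (n := 52) rfl b h1 h
  exact chkRow_sound' r38_90 (n := 36) rfl b h1 h2

theorem p39 (b : ℕ) (h1 : 39 ≤ b) (h2 : b < 126) :
    ∃ K strm, chkPair ct Dc pLoD pHiD 39 b K strm = true := by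
  rcases Nat.lt_or_ge b 103 with h | h1
  · exact chkRow_sound' r39_39 (n := 64) rfl b h1 h
  exact chkRow_sound' r39_103 (n := 23) rfl b h1 h2

theorem p40 (b : ℕ) (h1 : 40 ≤ b) (h2 : b < 126) :
    ∃ K strm, chkPair ct Dc pLoD pHiD 40 b K strm = true := by
  rcases Nat.lt_or_ge b 98 with h | h1
  · exact chkRow_sound' r40_40 (n := 58) rfl b h1 h
  exact chkRow_sound' r40_98 (n := 28) rfl b h1 h2

theorem p41 (b : ℕ) (h1 : 41 ≤ b) (h2 : b < 126) :
    ∃ K strm, chkPair ct Dc pLoD pHiD 41 b K strm = true := by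
  rcases Nat.lt_or_ge b 118 with h | h1
  · exact chkRow_sound' r41_41 (n := 77) rfl b h1 h
  exact chkRow_sound' r41_118 (n := 8) rfl b h1 h2

theorem p42 (b : ℕ) (h1 : 42 ≤ b) (h2 : b < 126) :
    ∃ K strm, chkPair ct Dc pLoD pHiD 42 b K strm = true := by
  rcases Nat.lt_or_ge b 91 with h | h1
  · exact chkRow_sound' r42_42 (n := 49) rfl b h1 h
  exact chkRow_sound' r42_91 (n := 35) rfl b h1 h2

theorem p43 (b : ℕ) (h1 : 43 ≤ b) (h2 : b < 126) :
    ∃ K strm, chkPair ct Dc pLoD pHiD 43 b K strm = true := by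
  rcases Nat.lt_or_ge b 96 with h | h1
  · exact chkRow_sound' r43_43 (n := 53) rfl b h1 h
  exact chkRow_sound' r43_96 (n := 30) rfl b h1 h2

theorem p44 (b : ℕ) (h1 : 44 ≤ b) (h2 : b < 126) :
    ∃ K strm, chkPair ct Dc pLoD pHiD 44 b K strm = true := by
  rcases Nat.lt_or_ge b 107 with h | h1
  · exact chkRow_sound' r44_44 (n := 63) rfl b h1 h
  exact chkRow_sound' r44_107 (n := 19) rfl b h1 h2

theorem p45 (b : ℕ) (h1 : 45 ≤ b) (h2 : b < 126) :
    ∃ K strm, chkPair ct Dc pLoD pHiD 45 b K strm = true := by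
  rcases Nat.lt_or_ge b 117 with h | h1
  · exact chkRow_sound' r45_45 (n := 72) rfl b h1 h
  exact chkRow_sound' r45_117 (n := 9) rfl b h1 h2

theorem p46 (b : ℕ) (h1 : 46 ≤ b) (h2 : b < 126) :
    ∃ K strm, chkPair ct Dc pLoD pHiD 46 b K strm = true := by
  rcases Nat.lt_or_ge b 88 with h | h1
  · exact chkRow_sound' r46_46 (n := 42) rfl b h1 h
  exact chkRow_sound' r46_88 (n := 38) rfl b h1 h2

theorem p47 (b : ℕ) (h1 : 47 ≤ b) (h2 : b < 126) :
    ∃ K strm, chkPair ct Dc pLoD pHiD 47 b K strm = true := by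
  rcases Nat.lt_or_ge b 94 with h | h1
  · exact chkRow_sound' r47_47 (n := 47) rfl b h1 h
  exact chkRow_sound' r47_94 (n := 32) rfl b h1 h2

theorem p48 (b : ℕ) (h1 : 48 ≤ b) (h2 : b < 126) :
    ∃ K strm, chkPair ct Dc pLoD pHiD 48 b K strm = true := by
  rcases Nat.lt_or_ge b 91 with h | h1
  · exact chkRow_sound' r48_48 (n := 43) rfl b h1 h
  exact chkRow_sound' r48_91 (n := 35) rfl b h1 h2

theorem p49 (b : ℕ) (h1 : 49 ≤ b) (h2 : b < 126) :
    ∃ K strm, chkPair ct Dc pLoD pHiD 49 b K strm = true := by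
  rcases Nat.lt_or_ge b 103 with h | h1
  · exact chkRow_sound' r49_49 (n := 54) rfl b h1 h
  exact chkRow_sound' r49_103 (n := 23) rfl b h1 h2

theorem p50 (b : ℕ) (h1 : 50 ≤ b) (h2 : b < 126) :
    ∃ K strm, chkPair ct Dc pLoD pHiD 50 b K strm = true := by
  rcases Nat.lt_or_ge b 97 with h | h1
  · exact chkRow_sound' r50_50 (n := 47) rfl b h1 h
  exact chkRow_sound' r50_97 (n := 29) rfl b h1 h2

theorem p51 (b : ℕ) (h1 : 51 ≤ b) (h2 : b < 126) :
    ∃ K strm, chkPair ct Dc pLoD pHiD 51 b K strm = true := by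
  rcases Nat.lt_or_ge b 96 with h | h1
  · exact chkRow_sound' r51_51 (n := 45) rfl b h1 h
  exact chkRow_sound' r51_96 (n := 30) rfl b h1 h2

theorem p52 (b : ℕ) (h1 : 52 ≤ b) (h2 : b < 126) :
    ∃ K strm, chkPair ct Dc pLoD pHiD 52 b K strm = true := by
  rcases Nat.lt_or_ge b 116 with h | h1
  · exact chkRow_sound' r52_52 (n := 64) rfl b h1 h
  exact chkRow_sound' r52_116 (n := 10) rfl b h1 h2

theorem p53 (b : ℕ) (h1 : 53 ≤ b) (h2 : b < 126) :
    ∃ K strm, chkPair ct Dc pLoD pHiD 53 b K strm = true := by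
  rcases Nat.lt_or_ge b 124 with h | h1
  · exact chkRow_sound' r53_53 (n := 71) rfl b h1 h
  exact chkRow_sound' r53_124 (n := 2) rfl b h1 h2

theorem p54 (b : ℕ) (h1 : 54 ≤ b) (h2 : b < 126) :
    ∃ K strm, chkPair ct Dc pLoD pHiD 54 b K strm = true := by
  rcases Nat.lt_or_ge b 108 with h | h1
  · exact chkRow_sound' r54_54 (n := 54) rfl b h1 h
  exact chkRow_sound' r54_108 (n := 18) rfl b h1 h2

theorem p55 (b : ℕ) (h1 : 55 ≤ b) (h2 : b < 126) :
    ∃ K strm, chkPair ct Dc pLoD pHiD 55 b K strm = true := by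
  rcases Nat.lt_or_ge b 109 with h | h1
  · exact chkRow_sound' r55_55 (n := 54) rfl b h1 h
  exact chkRow_sound' r55_109 (n := 17) rfl b h1 h2

theorem p56 (b : ℕ) (h1 : 56 ≤ b) (h2 : b < 126) :
    ∃ K strm, chkPair ct Dc pLoD pHiD 56 b K strm = true := by
  rcases Nat.lt_or_ge b 89 with h | h1
  · exact chkRow_sound' r56_56 (n := 33) rfl b h1 h
  exact chkRow_sound' r56_89 (n := 37) rfl b h1 h2

theorem p57 (b : ℕ) (h1 : 57 ≤ b) (h2 : b < 126) :
    ∃ K strm, chkPair ct Dc pLoD pHiD 57 b K strm = true := by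
  rcases Nat.lt_or_ge b 99 with h | h1
  · exact chkRow_sound' r57_57 (n := 42) rfl b h1 h
  exact chkRow_sound' r57_99 (n := 27) rfl b h1 h2

theorem p58 (b : ℕ) (h1 : 58 ≤ b) (h2 : b < 126) :
    ∃ K strm, chkPair ct Dc pLoD pHiD 58 b K strm = true := by
  rcases Nat.lt_or_ge b 106 with h | h1
  · exact chkRow_sound' r58_58 (n := 48) rfl b h1 h
  exact chkRow_sound' r58_106 (n := 20) rfl b h1 h2

theorem p59 (b : ℕ) (h1 : 59 ≤ b) (h2 : b < 126) :
    ∃ K strm, chkPair ct Dc pLoD pHiD 59 b K strm = true := by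
  rcases Nat.lt_or_ge b 124 with h | h1
  · exact chkRow_sound' r59_59 (n := 65) rfl b h1 h
  exact chkRow_sound' r59_124 (n := 2) rfl b h1 h2

theorem p60 (b : ℕ) (h1 : 60 ≤ b) (h2 : b < 126) :
    ∃ K strm, chkPair ct Dc pLoD pHiD 60 b K strm = true := by
  rcases Nat.lt_or_ge b 117 with h | h1
  · exact chkRow_sound' r60_60 (n := 57) rfl b h1 h
  exact chkRow_sound' r60_117 (n := 9) rfl b h1 h2

theorem p61 (b : ℕ) (h1 : 61 ≤ b) (h2 : b < 126) :
    ∃ K strm, chkPair ct Dc pLoD pHiD 61 b K strm = true := by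
  exact chkRow_sound' r61_61 (n := 65) rfl b h1 h2

theorem p62 (b : ℕ) (h1 : 62 ≤ b) (h2 : b < 126) :
    ∃ K strm, chkPair ct Dc pLoD pHiD 62 b K strm = true := by
  rcases Nat.lt_or_ge b 111 with h | h1
  · exact chkRow_sound' r62_62 (n := 49) rfl b h1 h
  exact chkRow_sound' r62_111 (n := 15) rfl b h1 h2

theorem p63 (b : ℕ) (h1 : 63 ≤ b) (h2 : b < 126) :
    ∃ K strm, chkPair ct Dc pLoD pHiD 63 b K strm = true := by
  rcases Nat.lt_or_ge b 121 with h | h1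
  · exact chkRow_sound' r63_63 (n := 58) rfl b h1 h
  exact chkRow_sound' r63_121 (n := 5) rfl b h1 h2

theorem p64 (b : ℕ) (h1 : 64 ≤ b) (h2 : b < 126) :
    ∃ K strm, chkPair ct Dc pLoD pHiD 64 b K strm = true := by
  rcases Nat.lt_or_ge b 97 with h | h1
  · exact chkRow_sound' r64_64 (n := 33) rfl b h1 h
  exact chkRow_sound' r64_97 (n := 29) rfl b h1 h2

theorem p65 (b : ℕ) (h1 : 65 ≤ b) (h2 : b < 126) :
    ∃ K strm, chkPair ct Dc pLoD pHiD 65 b K strm = true := by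
  rcases Nat.lt_or_ge b 99 with h | h1
  · exact chkRow_sound' r65_65 (n := 34) rfl b h1 h
  exact chkRow_sound' r65_99 (n := 27) rfl b h1 h2

theorem p66 (b : ℕ) (h1 : 66 ≤ b) (h2 : b < 126) :
    ∃ K strm, chkPair ct Dc pLoD pHiD 66 b K strm = true := by
  rcases Nat.lt_or_ge b 113 with h | h1
  · exact chkRow_sound' r66_66 (n := 47) rfl b h1 h
  exact chkRow_sound' r66_113 (n := 13) rfl b h1 h2

theorem p67 (b : ℕ) (h1 : 67 ≤ b) (h2 : b < 126) :
    ∃ K strm, chkPair ct Dc pLoD pHiD 67 b K strm = true := by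
  rcases Nat.lt_or_ge b 125 with h | h1
  · exact chkRow_sound' r67_67 (n := 58) rfl b h1 h
  exact chkRow_sound' r67_125 (n := 1) rfl b h1 h2

theorem p68 (b : ℕ) (h1 : 68 ≤ b) (h2 : b < 126) :
    ∃ K strm, chkPair ct Dc pLoD pHiD 68 b K strm = true := by
  exact chkRow_sound' r68_68 (n := 58) rfl b h1 h2

theorem p69 (b : ℕ) (h1 : 69 ≤ b) (h2 : b < 126) :
    ∃ K strm, chkPair ct Dc pLoD pHiD 69 b K strm = true := by
  exact chkRow_sound' r69_69 (n := 57) rfl b h1 h2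

theorem p70 (b : ℕ) (h1 : 70 ≤ b) (h2 : b < 126) :
    ∃ K strm, chkPair ct Dc pLoD pHiD 70 b K strm = true := by
  rcases Nat.lt_or_ge b 111 with h | h1
  · exact chkRow_sound' r70_70 (n := 41) rfl b h1 h
  exact chkRow_sound' r70_111 (n := 15) rfl b h1 h2

theorem p71 (b : ℕ) (h1 : 71 ≤ b) (h2 : b < 126) :
    ∃ K strm, chkPair ct Dc pLoD pHiD 71 b K strm = true := by
  rcases Nat.lt_or_ge b 117 with h | h1
  · exact chkRow_sound' r71_71 (n := 46) rfl b h1 h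
  exact chkRow_sound' r71_117 (n := 9) rfl b h1 h2

theorem p72 (b : ℕ) (h1 : 72 ≤ b) (h2 : b < 126) :
    ∃ K strm, chkPair ct Dc pLoD pHiD 72 b K strm = true := by
  rcases Nat.lt_or_ge b 115 with h | h1
  · exact chkRow_sound' r72_72 (n := 43) rfl b h1 h
  exact chkRow_sound' r72_115 (n := 11) rfl b h1 h2

theorem p73 (b : ℕ) (h1 : 73 ≤ b) (h2 : b < 126) :
    ∃ K strm, chkPair ct Dc pLoD pHiD 73 b K strm = true := by
  rcases Nat.lt_or_ge b 121 with h | h1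
  · exact chkRow_sound' r73_73 (n := 48) rfl b h1 h
  exact chkRow_sound' r73_121 (n := 5) rfl b h1 h2

theorem p74 (b : ℕ) (h1 : 74 ≤ b) (h2 : b < 126) :
    ∃ K strm, chkPair ct Dc pLoD pHiD 74 b K strm = true := by
  exact chkRow_sound' r74_74 (n := 52) rfl b h1 h2

theorem p75 (b : ℕ) (h1 : 75 ≤ b) (h2 : b < 126) :
    ∃ K strm, chkPair ct Dc pLoD pHiD 75 b K strm = true := by
  exact chkRow_sound' r75_75 (n := 51) rfl b h1 h2

theorem p76 (b : ℕ) (h1 : 76 ≤ b) (h2 : b < 126) :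
    ∃ K strm, chkPair ct Dc pLoD pHiD 76 b K strm = true := by
  exact chkRow_sound' r76_76 (n := 50) rfl b h1 h2

theorem p77 (b : ℕ) (h1 : 77 ≤ b) (h2 : b < 126) :
    ∃ K strm, chkPair ct Dc pLoD pHiD 77 b K strm = true := by
  exact chkRow_sound' r77_77 (n := 49) rfl b h1 h2

theorem p78 (b : ℕ) (h1 : 78 ≤ b) (h2 : b < 126) :
    ∃ K strm, chkPair ct Dc pLoD pHiD 78 b K strm = true := by
  exact chkRow_sound' r78_78 (n := 48) rfl b h1 h2

theorem p79 (b : ℕ) (h1 : 79 ≤ b) (h2 : b < 126) :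
    ∃ K strm, chkPair ct Dc pLoD pHiD 79 b K strm = true := by
  exact chkRow_sound' r79_79 (n := 47) rfl b h1 h2

theorem p80 (b : ℕ) (h1 : 80 ≤ b) (h2 : b < 126) :
    ∃ K strm, chkPair ct Dc pLoD pHiD 80 b K strm = true := by
  exact chkRow_sound' r80_80 (n := 46) rfl b h1 h2

theorem p81 (b : ℕ) (h1 : 81 ≤ b) (h2 : b < 126) :
    ∃ K strm, chkPair ct Dc pLoD pHiD 81 b K strm = true := by
  exact chkRow_sound' r81_81 (n := 45) rfl b h1 h2

theorem p82 (b : ℕ) (h1 : 82 ≤ b) (h2 : b < 126) :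
    ∃ K strm, chkPair ct Dc pLoD pHiD 82 b K strm = true := by
  rcases Nat.lt_or_ge b 124 with h | h1
  · exact chkRow_sound' r82_82 (n := 42) rfl b h1 h
  exact chkRow_sound' r82_124 (n := 2) rfl b h1 h2

theorem p83 (b : ℕ) (h1 : 83 ≤ b) (h2 : b < 126) :
    ∃ K strm, chkPair ct Dc pLoD pHiD 83 b K strm = true := by
  exact chkRow_sound' r83_83 (n := 43) rfl b h1 h2

theorem p84 (b : ℕ) (h1 : 84 ≤ b) (h2 : b < 126) :
    ∃ K strm, chkPair ct Dc pLoD pHiD 84 b K strm = true := by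
  exact chkRow_sound' r84_84 (n := 42) rfl b h1 h2

theorem p85 (b : ℕ) (h1 : 85 ≤ b) (h2 : b < 126) :
    ∃ K strm, chkPair ct Dc pLoD pHiD 85 b K strm = true := by
  exact chkRow_sound' r85_85 (n := 41) rfl b h1 h2

theorem p86 (b : ℕ) (h1 : 86 ≤ b) (h2 : b < 126) :
    ∃ K strm, chkPair ct Dc pLoD pHiD 86 b K strm = true := by
  exact chkRow_sound' r86_86 (n := 40) rfl b h1 h2

theorem p87 (b : ℕ) (h1 : 87 ≤ b) (h2 : b < 126) :
    ∃ K strm, chkPair ct Dc pLoD pHiD 87 b K strm = true := by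
  exact chkRow_sound' r87_87 (n := 39) rfl b h1 h2

theorem p88 (b : ℕ) (h1 : 88 ≤ b) (h2 : b < 126) :
    ∃ K strm, chkPair ct Dc pLoD pHiD 88 b K strm = true := by
  exact chkRow_sound' r88_88 (n := 38) rfl b h1 h2

theorem p89 (b : ℕ) (h1 : 89 ≤ b) (h2 : b < 126) :
    ∃ K strm, chkPair ct Dc pLoD pHiD 89 b K strm = true := by
  exact chkRow_sound' r89_89 (n := 37) rfl b h1 h2

theorem p90 (b : ℕ) (h1 : 90 ≤ b) (h2 : b < 126) :
    ∃ K strm, chkPair ct Dc pLoD pHiD 90 b K strm = true := by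
  exact chkRow_sound' r90_90 (n := 36) rfl b h1 h2

theorem p91 (b : ℕ) (h1 : 91 ≤ b) (h2 : b < 126) :
    ∃ K strm, chkPair ct Dc pLoD pHiD 91 b K strm = true := by
  exact chkRow_sound' r91_91 (n := 35) rfl b h1 h2

theorem p92 (b : ℕ) (h1 : 92 ≤ b) (h2 : b < 126) :
    ∃ K strm, chkPair ct Dc pLoD pHiD 92 b K strm = true := by
  exact chkRow_sound' r92_92 (n := 34) rfl b h1 h2

theorem p93 (b : ℕ) (h1 : 93 ≤ b) (h2 : b < 126) :
    ∃ K strm, chkPair ct Dc pLoD pHiD 93 b K strm = true := by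
  exact chkRow_sound' r93_93 (n := 33) rfl b h1 h2

theorem p94 (b : ℕ) (h1 : 94 ≤ b) (h2 : b < 126) :
    ∃ K strm, chkPair ct Dc pLoD pHiD 94 b K strm = true := by
  exact chkRow_sound' r94_94 (n := 32) rfl b h1 h2

theorem p95 (b : ℕ) (h1 : 95 ≤ b) (h2 : b < 126) :
    ∃ K strm, chkPair ct Dc pLoD pHiD 95 b K strm = true := by
  exact chkRow_sound' r95_95 (n := 31) rfl b h1 h2

theorem p96 (b : ℕ) (h1 : 96 ≤ b) (h2 : b < 126) :
    ∃ K strm, chkPair ct Dc pLoD pHiD 96 b K strm = true := by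
  exact chkRow_sound' r96_96 (n := 30) rfl b h1 h2

theorem p97 (b : ℕ) (h1 : 97 ≤ b) (h2 : b < 126) :
    ∃ K strm, chkPair ct Dc pLoD pHiD 97 b K strm = true := by
  exact chkRow_sound' r97_97 (n := 29) rfl b h1 h2

theorem p98 (b : ℕ) (h1 : 98 ≤ b) (h2 : b < 126) :
    ∃ K strm, chkPair ct Dc pLoD pHiD 98 b K strm = true := by
  exact chkRow_sound' r98_98 (n := 28) rfl b h1 h2

theorem p99 (b : ℕ) (h1 : 99 ≤ b) (h2 : b < 126) :
    ∃ K strm, chkPair ct Dc pLoD pHiD 99 b K strm = true := by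
  exact chkRow_sound' r99_99 (n := 27) rfl b h1 h2

theorem p100 (b : ℕ) (h1 : 100 ≤ b) (h2 : b < 126) :
    ∃ K strm, chkPair ct Dc pLoD pHiD 100 b K strm = true := by
  exact chkRow_sound' r100_100 (n := 26) rfl b h1 h2

theorem p101 (b : ℕ) (h1 : 101 ≤ b) (h2 : b < 126) :
    ∃ K strm, chkPair ct Dc pLoD pHiD 101 b K strm = true := by
  exact chkRow_sound' r101_101 (n := 25) rfl b h1 h2

theorem p102 (b : ℕ) (h1 : 102 ≤ b) (h2 : b < 126) :
    ∃ K strm, chkPair ct Dc pLoD pHiD 102 b K strm = true := by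
  exact chkRow_sound' r102_102 (n := 24) rfl b h1 h2

theorem p103 (b : ℕ) (h1 : 103 ≤ b) (h2 : b < 126) :
    ∃ K strm, chkPair ct Dc pLoD pHiD 103 b K strm = true := by
  exact chkRow_sound' r103_103 (n := 23) rfl b h1 h2

theorem p104 (b : ℕ) (h1 : 104 ≤ b) (h2 : b < 126) :
    ∃ K strm, chkPair ct Dc pLoD pHiD 104 b K strm = true := by
  exact chkRow_sound' r104_104 (n := 22) rfl b h1 h2

theorem p105 (b : ℕ) (h1 : 105 ≤ b) (h2 : b < 126) :
    ∃ K strm, chkPair ct Dc pLoD pHiD 105 b K strm = true := by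
  exact chkRow_sound' r105_105 (n := 21) rfl b h1 h2

theorem p106 (b : ℕ) (h1 : 106 ≤ b) (h2 : b < 126) :
    ∃ K strm, chkPair ct Dc pLoD pHiD 106 b K strm = true := by
  exact chkRow_sound' r106_106 (n := 20) rfl b h1 h2

theorem p107 (b : ℕ) (h1 : 107 ≤ b) (h2 : b < 126) :
    ∃ K strm, chkPair ct Dc pLoD pHiD 107 b K strm = true := by
  exact chkRow_sound' r107_107 (n := 19) rfl b h1 h2

theorem p108 (b : ℕ) (h1 : 108 ≤ b) (h2 : b < 126) :
    ∃ K strm, chkPair ct Dc pLoD pHiD 108 b K strm = true := by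
  exact chkRow_sound' r108_108 (n := 18) rfl b h1 h2

theorem p109 (b : ℕ) (h1 : 109 ≤ b) (h2 : b < 126) :
    ∃ K strm, chkPair ct Dc pLoD pHiD 109 b K strm = true := by
  exact chkRow_sound' r109_109 (n := 17) rfl b h1 h2

theorem p110 (b : ℕ) (h1 : 110 ≤ b) (h2 : b < 126) :
    ∃ K strm, chkPair ct Dc pLoD pHiD 110 b K strm = true := by
  exact chkRow_sound' r110_110 (n := 16) rfl b h1 h2

theorem p111 (b : ℕ) (h1 : 111 ≤ b) (h2 : b < 126) :
    ∃ K strm, chkPair ct Dc pLoD pHiD 111 b K strm = true := by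
  exact chkRow_sound' r111_111 (n := 15) rfl b h1 h2

theorem p112 (b : ℕ) (h1 : 112 ≤ b) (h2 : b < 126) :
    ∃ K strm, chkPair ct Dc pLoD pHiD 112 b K strm = true := by
  exact chkRow_sound' r112_112 (n := 14) rfl b h1 h2

theorem p113 (b : ℕ) (h1 : 113 ≤ b) (h2 : b < 126) :
    ∃ K strm, chkPair ct Dc pLoD pHiD 113 b K strm = true := by
  exact chkRow_sound' r113_113 (n := 13) rfl b h1 h2

theorem p114 (b : ℕ) (h1 : 114 ≤ b) (h2 : b < 126) :
    ∃ K strm, chkPair ct Dc pLoD pHiD 114 b K strm = true := by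
  exact chkRow_sound' r114_114 (n := 12) rfl b h1 h2

theorem p115 (b : ℕ) (h1 : 115 ≤ b) (h2 : b < 126) :
    ∃ K strm, chkPair ct Dc pLoD pHiD 115 b K strm = true := by
  exact chkRow_sound' r115_115 (n := 11) rfl b h1 h2

theorem p116 (b : ℕ) (h1 : 116 ≤ b) (h2 : b < 126) :
    ∃ K strm, chkPair ct Dc pLoD pHiD 116 b K strm = true := by
  exact chkRow_sound' r116_116 (n := 10) rfl b h1 h2

theorem p117 (b : ℕ) (h1 : 117 ≤ b) (h2 : b < 126) :
    ∃ K strm, chkPair ct Dc pLoD pHiD 117 b K strm = true := by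
  exact chkRow_sound' r117_117 (n := 9) rfl b h1 h2

theorem p118 (b : ℕ) (h1 : 118 ≤ b) (h2 : b < 126) :
    ∃ K strm, chkPair ct Dc pLoD pHiD 118 b K strm = true := by
  exact chkRow_sound' r118_118 (n := 8) rfl b h1 h2

theorem p119 (b : ℕ) (h1 : 119 ≤ b) (h2 : b < 126) :
    ∃ K strm, chkPair ct Dc pLoD pHiD 119 b K strm = true := by
  exact chkRow_sound' r119_119 (n := 7) rfl b h1 h2

theorem p120 (b : ℕ) (h1 : 120 ≤ b) (h2 : b < 126) :
    ∃ K strm, chkPair ct Dc pLoD pHiD 120 b K strm = true := by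
  exact chkRow_sound' r120_120 (n := 6) rfl b h1 h2

theorem p121 (b : ℕ) (h1 : 121 ≤ b) (h2 : b < 126) :
    ∃ K strm, chkPair ct Dc pLoD pHiD 121 b K strm = true := by
  exact chkRow_sound' r121_121 (n := 5) rfl b h1 h2

theorem p122 (b : ℕ) (h1 : 122 ≤ b) (h2 : b < 126) :
    ∃ K strm, chkPair ct Dc pLoD pHiD 122 b K strm = true := by
  exact chkRow_sound' r122_122 (n := 4) rfl b h1 h2

theorem p123 (b : ℕ) (h1 : 123 ≤ b) (h2 : b < 126) :
    ∃ K strm, chkPair ct Dc pLoD pHiD 123 b K strm = true := by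
  exact chkRow_sound' r123_123 (n := 3) rfl b h1 h2

theorem p124 (b : ℕ) (h1 : 124 ≤ b) (h2 : b < 126) :
    ∃ K strm, chkPair ct Dc pLoD pHiD 124 b K strm = true := by
  exact chkRow_sound' r124_124 (n := 2) rfl b h1 h2

theorem p125 (b : ℕ) (h1 : 125 ≤ b) (h2 : b < 126) :
    ∃ K strm, chkPair ct Dc pLoD pHiD 125 b K strm = true := by
  exact chkRow_sound' r125_125 (n := 1) rfl b h1 h2

theorem pair_all : ∀ a b, a ≤ b → b < 126 → ∃ K strm, chkPair ct Dc pLoD pHiD a b K strm = true := by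
  intro a b h1 h2
  have ha : a < 126 := by omega
  interval_cases a
  · exact p0 b h1 h2
  · exact p1 b h1 h2
  · exact p2 b h1 h2
  · exact p3 b h1 h2
  · exact p4 b h1 h2
  · exact p5 b h1 h2
  · exact p6 b h1 h2
  · exact p7 b h1 h2
  · exact p8 b h1 h2
  · exact p9 b h1 h2
  · exact p10 b h1 h2
  · exact p11 b h1 h2
  · exact p12 b h1 h2
  · exact p13 b h1 h2
  · exact p14 b h1 h2
  · exact p15 b h1 h2
  · exact p16 b h1 h2
  · exact p17 b h1 h2
  · exact p18 b h1 h2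
  · exact p19 b h1 h2
  · exact p20 b h1 h2
  · exact p21 b h1 h2
  · exact p22 b h1 h2
  · exact p23 b h1 h2
  · exact p24 b h1 h2
  · exact p25 b h1 h2
  · exact p26 b h1 h2
  · exact p27 b h1 h2
  · exact p28 b h1 h2
  · exact p29 b h1 h2
  · exact p30 b h1 h2
  · exact p31 b h1 h2
  · exact p32 b h1 h2
  · exact p33 b h1 h2
  · exact p34 b h1 h2
  · exact p35 b h1 h2
  · exact p36 b h1 h2
  · exact p37 b h1 h2
  · exact p38 b h1 h2
  · exact p39 b h1 h2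
  · exact p40 b h1 h2
  · exact p41 b h1 h2
  · exact p42 b h1 h2
  · exact p43 b h1 h2
  · exact p44 b h1 h2
  · exact p45 b h1 h2
  · exact p46 b h1 h2
  · exact p47 b h1 h2
  · exact p48 b h1 h2
  · exact p49 b h1 h2
  · exact p50 b h1 h2
  · exact p51 b h1 h2
  · exact p52 b h1 h2
  · exact p53 b h1 h2
  · exact p54 b h1 h2
  · exact p55 b h1 h2
  · exact p56 b h1 h2
  · exact p57 b h1 h2
  · exact p58 b h1 h2
  · exact p59 b h1 h2
  · exact p60 b h1 h2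
  · exact p61 b h1 h2
  · exact p62 b h1 h2
  · exact p63 b h1 h2
  · exact p64 b h1 h2
  · exact p65 b h1 h2
  · exact p66 b h1 h2
  · exact p67 b h1 h2
  · exact p68 b h1 h2
  · exact p69 b h1 h2
  · exact p70 b h1 h2
  · exact p71 b h1 h2
  · exact p72 b h1 h2
  · exact p73 b h1 h2
  · exact p74 b h1 h2
  · exact p75 b h1 h2
  · exact p76 b h1 h2
  · exact p77 b h1 h2
  · exact p78 b h1 h2
  · exact p79 b h1 h2
  · exact p80 b h1 h2
  · exact p81 b h1 h2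
  · exact p82 b h1 h2
  · exact p83 b h1 h2
  · exact p84 b h1 h2
  · exact p85 b h1 h2
  · exact p86 b h1 h2
  · exact p87 b h1 h2
  · exact p88 b h1 h2
  · exact p89 b h1 h2
  · exact p90 b h1 h2
  · exact p91 b h1 h2
  · exact p92 b h1 h2
  · exact p93 b h1 h2
  · exact p94 b h1 h2
  · exact p95 b h1 h2
  · exact p96 b h1 h2
  · exact p97 b h1 h2
  · exact p98 b h1 h2
  · exact p99 b h1 h2
  · exact p100 b h1 h2
  · exact p101 b h1 h2
  · exact p102 b h1 h2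
  · exact p103 b h1 h2
  · exact p104 b h1 h2
  · exact p105 b h1 h2
  · exact p106 b h1 h2
  · exact p107 b h1 h2
  · exact p108 b h1 h2
  · exact p109 b h1 h2
  · exact p110 b h1 h2
  · exact p111 b h1 h2
  · exact p112 b h1 h2
  · exact p113 b h1 h2
  · exact p114 b h1 h2
  · exact p115 b h1 h2
  · exact p116 b h1 h2
  · exact p117 b h1 h2
  · exact p118 b h1 h2
  · exact p119 b h1 h2
  · exact p120 b h1 h2
  · exact p121 b h1 h2
  · exact p122 b h1 h2
  · exact p123 b h1 h2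
  · exact p124 b h1 h2
  · exact p125 b h1 h2

/-- The certificate. -/
theorem cert : Cert Pool.Agent.H20.Fib.D.tab 126 ct Dc pLoD pHiD :=
  ⟨tab_ok, ctx_all, powOK_data, pair_all⟩

end Pool.Agent.H68.FibC
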