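import Pool.Agent.H68.FibC.Pow
import Pool.Agent.H68.FibC.D.Ct
import Pool.Agent.H68.FibC.D.Cl

/-!
# Start pairs of the certificate (problem MP_9069b3_mp, part C)

Generated data.
-/

namespace Pool.Agent.H68.FibC

theorem st_7_1_2 : chkStart ct Dc pLoD pHiD 7 0x97d97c000000000000000000000000000000000000000000000000000000000000000000000000 1 2 [0] = true := by decide +kernel

theorem st_90_0_1 : chkStart ct Dc pLoD pHiD 90 0x8c78c3000000000000 0 1 [0] = true := by decide +kernel

end Pool.Agent.H68.FibC
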